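import Pool.Agent.Lib.MP_5db8e2_mp.Defs
import Pool.Agent.Lib.MP_5db8e2_mp.LB.Mg

/-!
# Abstract cluster estimates: definitions and independence

`N` independent particles with the law `μ` (a probability measure on `R3`). `h B` is a factor which
depends only on the particles of `B`; `Psi h S = ∏_{B ⊆ S} h B`. `y B` dominates `|h B² - 1|`.
-/

set_option autoImplicit false

open MeasureTheory Filter Topology

namespace Pool.Agent.Lib.MP_5db8e2_mp

variable {N : ℕ}

/-- The product law. -/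
noncomputable def PP (μ : Measure R3) (N : ℕ) : Measure (Fin N → R3) := Measure.pi fun _ => μ

/-- Bounded measurable functions which depend only on the particles of `A`. -/
structure Nice (A : Finset (Fin N)) (F : (Fin N → R3) → ℝ) : Prop where
  meas : Measurable F
  bdd : ∃ C, ∀ x, |F x| ≤ C
  dep : ∀ x x', (∀ i ∈ A, x i = x' i) → F x = F x'

/-- The product of the factors of the subsets of `S`. -/
noncomputable def Psi (h : Finset (Fin N) → (Fin N → R3) → ℝ) (S : Finset (Fin N))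
    (x : Fin N → R3) : ℝ := ∏ B ∈ S.powerset, h B x

/-- The subsets of `S` which meet `A` but are not contained in `A`. -/
def link (A S : Finset (Fin N)) : Finset (Finset (Fin N)) :=
  S.powerset.filter fun B => ¬ Disjoint B A ∧ ¬ B ⊆ A

/-- The interaction ratio. -/
noncomputable def ratio (h : Finset (Fin N) → (Fin N → R3) → ℝ) (A S : Finset (Fin N))
    (x : Fin N → R3) : ℝ := ∏ B ∈ link A S, h B x ^ 2

/-- A family of factors. -/
structure Clu (h y : Finset (Fin N) → (Fin N → R3) → ℝ) (c M : ℝ) : Prop where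
  hc : 0 < c
  hM : 1 ≤ M
  h_nice : ∀ B, Nice B (h B)
  y_nice : ∀ B, Nice B (y B)
  h_pos : ∀ B x, c ≤ h B x
  h_le : ∀ B x, h B x ≤ M
  h_le_one : ∀ B, B.card ≠ 4 → ∀ x, h B x ≤ 1
  h_one : ∀ B, (B.card < 3 ∨ 5 < B.card) → ∀ x, h B x = 1
  y_nonneg : ∀ B x, 0 ≤ y B x
  y_ge : ∀ B x, |h B x ^ 2 - 1| ≤ y B x
  y_four : ∀ B, B.card = 4 → ∀ x, h B x ≠ 1 → 1 ≤ y B x
  y_zero : ∀ B, (B.card < 3 ∨ 5 < B.card) → ∀ x, y B x = 0
  stab : ∀ S, ∀ i ∈ S, ∀ x, Psi h S x ≤ M * Psi h (S.erase i) x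

/-- The partition function of `S` (normalised by the volume). -/
noncomputable def ZZ (μ : Measure R3) (h : Finset (Fin N) → (Fin N → R3) → ℝ)
    (S : Finset (Fin N)) : ℝ := ∫ x, Psi h S x ^ 2 ∂(PP μ N)

instance isProbabilityMeasure_PP (μ : Measure R3) [IsProbabilityMeasure μ] :
    IsProbabilityMeasure (PP μ N) := by
  unfold PP; infer_instance

theorem Nice.mono {A A' : Finset (Fin N)} {F : (Fin N → R3) → ℝ} (h : Nice A F) (hA : A ⊆ A') :
    Nice A' F :=
  ⟨h.meas, h.bdd, fun x x' hx => h.dep x x' fun i hi => hx i (hA hi)⟩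

theorem Nice.bm {A : Finset (Fin N)} {F : (Fin N → R3) → ℝ} (h : Nice A F) : BM F :=
  ⟨h.meas, h.bdd⟩

theorem Nice.dependsOn {A : Finset (Fin N)} {F : (Fin N → R3) → ℝ} (h : Nice A F) :
    DependsOn F (A : Set (Fin N)) :=
  fun x y hxy => h.dep x y fun i hi => hxy i (by simpa using hi)

theorem Nice.dependsOn_compl {A B : Finset (Fin N)} {F : (Fin N → R3) → ℝ} (h : Nice A F)
    (hd : Disjoint A B) : DependsOn F ((B : Set (Fin N))ᶜ) :=
  fun x y hxy => h.dep x y fun i hi => hxy i (by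
    have := Finset.disjoint_left.mp hd hi
    simpa using this)

theorem Nice.mul {A A' : Finset (Fin N)} {F G : (Fin N → R3) → ℝ} (h : Nice A F)
    (h' : Nice A' G) : Nice (A ∪ A') (fun x => F x * G x) := by
  have hb := h.bm.mul h'.bm
  refine ⟨hb.1, hb.2, fun x x' hx => ?_⟩
  rw [h.dep x x' fun i hi => hx i (Finset.mem_union_left _ hi),
    h'.dep x x' fun i hi => hx i (Finset.mem_union_right _ hi)]

theorem Nice.add {A A' : Finset (Fin N)} {F G : (Fin N → R3) → ℝ} (h : Nice A F)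
    (h' : Nice A' G) : Nice (A ∪ A') (fun x => F x + G x) := by
  have hb := h.bm.add h'.bm
  refine ⟨hb.1, hb.2, fun x x' hx => ?_⟩
  rw [h.dep x x' fun i hi => hx i (Finset.mem_union_left _ hi),
    h'.dep x x' fun i hi => hx i (Finset.mem_union_right _ hi)]

theorem Nice.sum {ι : Type*} {A : Finset (Fin N)} {s : Finset ι} {F : ι → (Fin N → R3) → ℝ}
    (h : ∀ i ∈ s, Nice A (F i)) : Nice A (fun x => ∑ i ∈ s, F i x) := by
  have hb := BM.sum s fun i hi => (h i hi).bm
  exact ⟨hb.1, hb.2, fun x x' hx => Finset.sum_congr rfl fun i hi => (h i hi).dep x x' hx⟩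

theorem Nice.prod {ι : Type*} {A : Finset (Fin N)} {s : Finset ι} {F : ι → (Fin N → R3) → ℝ}
    (h : ∀ i ∈ s, Nice A (F i)) : Nice A (fun x => ∏ i ∈ s, F i x) := by
  have hb := BM.prod s fun i hi => (h i hi).bm
  exact ⟨hb.1, hb.2, fun x x' hx => Finset.prod_congr rfl fun i hi => (h i hi).dep x x' hx⟩

theorem Nice.integrable (μ : Measure R3) [IsProbabilityMeasure μ] {A : Finset (Fin N)}
    {F : (Fin N → R3) → ℝ} (h : Nice A F) : Integrable F (PP μ N) :=
  h.bm.integrable (PP μ N)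

/-- **Independence.** Functions of disjoint sets of particles are independent. Proof:
`MeasureTheory.measurePreserving_piEquivPiSubtypeProd` for the predicate `i ∈ A` and
`integral_prod_mul`. -/
theorem indep (μ : Measure R3) [IsProbabilityMeasure μ] {A B : Finset (Fin N)}
    {F G : (Fin N → R3) → ℝ} (hF : Nice A F) (hG : Nice B G) (hd : Disjoint A B) :
    ∫ x, F x * G x ∂(PP μ N) = (∫ x, F x ∂(PP μ N)) * ∫ x, G x ∂(PP μ N) := by
  unfold PP
  set x0 : Fin N → R3 := fun _ => 0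
  have hGd : DependsOn G ((A : Set (Fin N))ᶜ) := hG.dependsOn_compl hd.symm
  have hc : ∀ x, Mg μ A F x = Mg μ A F x0 := by
    intro x
    have h1 := Mg_dep' (lam := μ) (A := A) hF.dependsOn
    rw [Set.sdiff_self] at h1
    exact h1 (fun i hi => absurd hi (Set.notMem_empty i))
  have hFc : Mg μ A F = fun _ => Mg μ A F x0 := funext hc
  have e1 : Mg μ A (fun x => F x * G x) = fun x => Mg μ A F x0 * G x := by
    rw [Mg_mul_right F hGd, hFc]
  have e2 : ∫ x, F x ∂(Measure.pi fun _ : Fin N => μ) = Mg μ A F x0 := by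
    rw [integral_eq_out hF.bm x0 A, hFc]
    unfold out
    rw [Mg_one]
  have e3 : ∫ x, G x ∂(Measure.pi fun _ : Fin N => μ) = out μ x0 A G := by
    rw [integral_eq_out hG.bm x0 A, Mg_of_dep hGd]
  rw [integral_eq_out (hF.bm.mul hG.bm) x0 A, e1, e2, e3]
  unfold out
  exact congrFun (Mg_const_mul _ _) x0

/-- **Integration of a pair kernel**: if `i ∈ A`, `j ∉ A`, `F ≥ 0` depends on the particles of `A`,
then `E[F w(x_j - x_i)] ≤ E[F] W` if `∫ w(t - c) dμ(t) ≤ W` for all `c`. Proof: Fubini, integrate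
`x_j` first (`MeasureTheory.measurePreserving_piEquivPiSubtypeProd` with the predicate `· = j`, or
`Measure.pi` and `piFinSuccAbove`); work with `lintegral`/nonnegative functions or bounded `w`. -/
theorem integral_pair_le (μ : Measure R3) [IsProbabilityMeasure μ] {A : Finset (Fin N)}
    {F : (Fin N → R3) → ℝ} (hF : Nice A F) (hF0 : ∀ x, 0 ≤ F x) {i j : Fin N} (hi : i ∈ A)
    (hj : j ∉ A) {w : R3 → ℝ} (hw : Measurable w) (hwb : ∃ C, ∀ t, |w t| ≤ C)
    (hw0 : ∀ t, 0 ≤ w t) {W : ℝ} (hW : ∀ c, ∫ t, w (t - c) ∂μ ≤ W) :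
    ∫ x, F x * w (x j - x i) ∂(PP μ N) ≤ (∫ x, F x ∂(PP μ N)) * W := by
  unfold PP
  set x0 : Fin N → R3 := fun _ => 0
  have hij : i ≠ j := fun h => hj (h ▸ hi)
  have hwB : BM w := ⟨hw, hwb⟩
  have hwx : BM (fun x : Fin N → R3 => w (x j - x i)) :=
    hwB.comp ((measurable_pi_apply j).sub (measurable_pi_apply i))
  have hFd : DependsOn F ((({j} : Finset (Fin N)) : Set (Fin N))ᶜ) :=
    hF.dependsOn_compl (Finset.disjoint_singleton_right.mpr hj)
  have e1 : ∀ x, Mg μ {j} (fun x => F x * w (x j - x i)) x ≤ F x * W := by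
    intro x
    rw [Mg_mul_left _ hFd, Mg_singleton]
    refine mul_le_mul_of_nonneg_left ?_ (hF0 x)
    have := hW (x i)
    simpa [Function.update_of_ne hij] using this
  have e2 : out μ x0 {j} (fun x => F x * W)
      = (∫ x, F x ∂(Measure.pi fun _ : Fin N => μ)) * W := by
    rw [← integral_mul_const, integral_eq_out (hF.bm.mul (BM.const W)) x0 {j}, Mg_of_dep]
    intro x y hxy
    have := hFd hxy
    simp only [this]
  rw [integral_eq_out (hF.bm.mul hwx) x0 {j}, ← e2]
  exact out_mono (Mg_bm (hF.bm.mul hwx)) (hF.bm.mul (BM.const W)) x0 e1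

/-- The same for a product over `j ∈ D`, with different `w j` (induction on `D`). -/
theorem integral_star_le (μ : Measure R3) [IsProbabilityMeasure μ] {A D : Finset (Fin N)}
    {F : (Fin N → R3) → ℝ} (hF : Nice A F) (hF0 : ∀ x, 0 ≤ F x) {i : Fin N} (hi : i ∈ A)
    (hD : Disjoint D A) {w : Fin N → R3 → ℝ} (hw : ∀ j, Measurable (w j))
    (hwb : ∀ j, ∃ C, ∀ t, |w j t| ≤ C) (hw0 : ∀ j t, 0 ≤ w j t) {W : Fin N → ℝ}
    (hW : ∀ j c, ∫ t, w j (t - c) ∂μ ≤ W j) :
    ∫ x, F x * ∏ j ∈ D, w j (x j - x i) ∂(PP μ N) ≤ (∫ x, F x ∂(PP μ N)) * ∏ j ∈ D, W j := by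
  classical
  have hW0 : ∀ j, 0 ≤ W j := fun j => (integral_nonneg fun t => hw0 j (t - 0)).trans (hW j 0)
  induction D using Finset.induction_on with
  | empty => simp
  | insert j D hjD ih =>
    have hD' : Disjoint D A := Finset.disjoint_of_subset_left (Finset.subset_insert j D) hD
    have hjA : j ∉ A := Finset.disjoint_left.mp hD (Finset.mem_insert_self j D)
    have hpair : ∀ j' ∈ D, Nice (A ∪ D) (fun x : Fin N → R3 => w j' (x j' - x i)) := by
      intro j' hj'
      have hb : BM (fun x : Fin N → R3 => w j' (x j' - x i)) :=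
        BM.comp (⟨hw j', hwb j'⟩ : BM (w j'))
          ((measurable_pi_apply j').sub (measurable_pi_apply i))
      refine ⟨hb.1, hb.2, fun x x' hx => ?_⟩
      rw [hx j' (Finset.mem_union_right _ hj'), hx i (Finset.mem_union_left _ hi)]
    have hF' : Nice (A ∪ D) (fun x => F x * ∏ j' ∈ D, w j' (x j' - x i)) := by
      have h1 := hF.mul (Nice.prod hpair)
      refine h1.mono ?_
      rw [← Finset.union_assoc, Finset.union_self]
    have hF0' : ∀ x, 0 ≤ F x * ∏ j' ∈ D, w j' (x j' - x i) := fun x =>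
      mul_nonneg (hF0 x) (Finset.prod_nonneg fun j' _ => hw0 j' _)
    have hjU : j ∉ A ∪ D := by
      rw [Finset.mem_union, not_or]
      exact ⟨hjA, hjD⟩
    have h2 := integral_pair_le μ hF' hF0' (Finset.mem_union_left D hi) hjU (hw j) (hwb j)
      (hw0 j) (hW j)
    have e : (fun x : Fin N → R3 => F x * ∏ j' ∈ insert j D, w j' (x j' - x i))
        = fun x => (F x * ∏ j' ∈ D, w j' (x j' - x i)) * w j (x j - x i) := by
      ext1 x
      rw [Finset.prod_insert hjD]
      ring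
    rw [e, Finset.prod_insert hjD]
    refine h2.trans ?_
    calc (∫ x, F x * ∏ j' ∈ D, w j' (x j' - x i) ∂(PP μ N)) * W j
        ≤ ((∫ x, F x ∂(PP μ N)) * ∏ j' ∈ D, W j') * W j :=
          mul_le_mul_of_nonneg_right (ih hD') (hW0 j)
      _ = (∫ x, F x ∂(PP μ N)) * (W j * ∏ j' ∈ D, W j') := by ring

end Pool.Agent.Lib.MP_5db8e2_mp
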