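import Pool.Agent.Lib.MP_5db8e2_mp.CluB1

/-!
# Abstract cluster estimates: the second order upper bound of the ratio
-/

set_option autoImplicit false

open MeasureTheory Filter Topology

namespace Pool.Agent.Lib.MP_5db8e2_mp

variable {N : ℕ} {h y : Finset (Fin N) → (Fin N → R3) → ℝ} {c M : ℝ}

theorem mem_link_insert {T : Finset (Fin N)} {k : Fin N} (hk : k ∉ T) {B : Finset (Fin N)} :
    B ∈ link T (insert k T) ↔ B \ T = {k} ∧ ¬ Disjoint B T := by
  unfold link
  rw [Finset.mem_filter, Finset.mem_powerset]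
  constructor
  · rintro ⟨h1, h2, h3⟩
    refine ⟨?_, h2⟩
    obtain ⟨b, hb, hbT⟩ := Finset.not_subset.mp h3
    have hbk : ∀ c ∈ B, c ∉ T → c = k := fun c hc hcT => by
      rcases Finset.mem_insert.mp (h1 hc) with h | h
      · exact h
      · exact absurd h hcT
    ext c
    rw [Finset.mem_sdiff, Finset.mem_singleton]
    constructor
    · rintro ⟨h4, h5⟩
      exact hbk c h4 h5
    · rintro rfl
      have := hbk b hb hbT
      subst this
      exact ⟨hb, hk⟩
  · rintro ⟨h1, h2⟩
    have hkB : k ∈ B := by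
      have : k ∈ B \ T := by rw [h1]; exact Finset.mem_singleton_self k
      exact (Finset.mem_sdiff.mp this).1
    refine ⟨fun b hb => ?_, h2, fun h => hk (h hkB)⟩
    by_cases hbT : b ∈ T
    · exact Finset.mem_insert_of_mem hbT
    · have : b ∈ B \ T := Finset.mem_sdiff.mpr ⟨hb, hbT⟩
      rw [h1, Finset.mem_singleton] at this
      rw [this]
      exact Finset.mem_insert_self k T

theorem link_filter_one {T S : Finset (Fin N)} (hTS : T ⊆ S) :
    (link T S).filter (fun B => (B \ T).card = 1)
      = (S \ T).biUnion (fun k => link T (insert k T)) := by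
  ext B
  rw [Finset.mem_filter, Finset.mem_biUnion]
  constructor
  · rintro ⟨h1, h2⟩
    obtain ⟨k, hk⟩ := Finset.card_eq_one.mp h2
    unfold link at h1
    rw [Finset.mem_filter, Finset.mem_powerset] at h1
    have hkB : k ∈ B \ T := by rw [hk]; exact Finset.mem_singleton_self k
    rw [Finset.mem_sdiff] at hkB
    exact ⟨k, Finset.mem_sdiff.mpr ⟨h1.1 hkB.1, hkB.2⟩,
      (mem_link_insert hkB.2).mpr ⟨hk, h1.2.1⟩⟩
  · rintro ⟨k, hk, hB⟩
    rw [Finset.mem_sdiff] at hk
    obtain ⟨h1, h2⟩ := (mem_link_insert hk.2).mp hB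
    refine ⟨?_, by rw [h1, Finset.card_singleton]⟩
    unfold link at hB ⊢
    rw [Finset.mem_filter, Finset.mem_powerset] at hB ⊢
    exact ⟨hB.1.trans (Finset.insert_subset hk.1 hTS), hB.2⟩

/-- One particle more: the ratio is `1 + uu`. -/
theorem ratio_insert_eq (hC : Clu h y c M) {T : Finset (Fin N)} {k : Fin N} (hk : k ∉ T)
    (x : Fin N → R3) : ratio h T (insert k T) x = 1 + uu h T k x := by
  have h1 := Psi_sq_eq hC (Finset.subset_insert k T) x
  have h2 : insert k T \ T = {k} := by
    ext b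
    rw [Finset.mem_sdiff, Finset.mem_insert, Finset.mem_singleton]
    constructor
    · rintro ⟨h3 | h3, h4⟩
      · exact h3
      · exact absurd h3 h4
    · rintro rfl
      exact ⟨Or.inl rfl, hk⟩
  have h3 : Psi h {k} x = 1 := by
    unfold Psi
    refine Finset.prod_eq_one fun B hB => ?_
    refine hC.h_one B (Or.inl ?_) x
    have := Finset.card_le_card (Finset.mem_powerset.mp hB)
    rw [Finset.card_singleton] at this
    omega
  rw [h2, h3] at h1
  have h4 := Psi_pos hC T x
  unfold uu
  rw [h1]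
  field_simp
  ring

theorem ub_nonneg (hC : Clu h y c M) (T : Finset (Fin N)) (k : Fin N) (x : Fin N → R3) :
    0 ≤ ub y T k x := Finset.sum_nonneg fun B _ => hC.y_nonneg B x

/-- **Second order upper bound.** For `|T| = 3`:
`ratio ≤ 1 + ∑_k u_k + C (∑_{k≠l} ub_k ub_l + ∑_{Q ∈ far4} y_Q)`.
Proof. Write `w_k = max (-u_k) 0 ∈ [0,1]`, `w_k ≤ C ub_k`; by `bonferroni`
`1 + ∑ u_k ≥ 1 - ∑ w_k ≥ - ∑_{k≠l} w_k w_l`.
(a) If some `Q ∈ far4` has `h_Q ≠ 1` then `y_Q ≥ 1` and `ratio ≤ C'`; done.
(b) If two different `k` have `h_{T∪k} ≠ 1` then `ub_k ub_l ≥ 1` for them, `ratio ≤ C'`; done.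
(c) Otherwise at most one `k₀` has `h_{T∪k₀} ≠ 1` and the factors `h_Q`, `Q ∈ far4` are one; all
the other factors of `link` with two or more particles outside `T` are `≤ 1`, so
`ratio ≤ ∏_k (1 + u_k)` (a set in `link` with one particle `k` outside belongs to `T ∪ k`); for
`k ≠ k₀` `u_k = -v_k`, `v_k ∈ [0,1]`, and
`(1 + u_{k₀}) ∏_{k≠k₀} (1 - v_k) ≤ 1 + u_{k₀} - ∑ v_k + |u_{k₀}| ∑ v_k + (1 + |u_{k₀}|) ∑_{k≠l} v_k v_l`,
with `|u_{k₀}| ≤ C'`. -/
theorem ratio_second (c M : ℝ) (hc : 0 < c) (hM : 1 ≤ M) : ∃ C > 0, ∀ (N : ℕ)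
    (h y : Finset (Fin N) → (Fin N → R3) → ℝ), Clu h y c M → ∀ T S : Finset (Fin N), T ⊆ S →
      T.card = 3 → ∀ x, ratio h T S x ≤ 1 + ∑ k ∈ S \ T, uu h T k x +
        C * ((∑ k ∈ S \ T, ∑ l ∈ (S \ T).erase k, ub y T k x * ub y T l x) +
          ∑ Q ∈ far4 T S, y Q x) := by
  obtain ⟨C₁, hC₁, hR⟩ := ratio_le c M hc hM 3
  obtain ⟨C₂, hC₂, hU⟩ := abs_uu_le c M hc hM
  refine ⟨C₁ + C₂ ^ 2 + C₁ * C₂ ^ 2, by positivity, ?_⟩
  intro N h y hC T S hTS hT x
  classical
  set R : Finset (Fin N) := S \ T with hRdef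
  set u : Fin N → ℝ := fun k => uu h T k x with hu
  set b : Fin N → ℝ := fun k => ub y T k x with hb
  set D : ℝ := ∑ k ∈ R, ∑ l ∈ R.erase k, b k * b l with hD
  set F : ℝ := ∑ Q ∈ far4 T S, y Q x with hF
  have hb0 : ∀ k, 0 ≤ b k := fun k => ub_nonneg hC T k x
  have hkT : ∀ k ∈ R, k ∉ T := fun k hk => (Finset.mem_sdiff.mp hk).2
  have hkS : ∀ k ∈ R, k ∈ S := fun k hk => (Finset.mem_sdiff.mp hk).1
  have hub : ∀ k ∈ R, |u k| ≤ C₂ * b k := fun k hk => (hU N h y hC T k hT (hkT k hk) x).1
  have hu1 : ∀ k ∈ R, -1 ≤ u k := fun k hk => (hU N h y hC T k hT (hkT k hk) x).2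
  have hD0 : 0 ≤ D := Finset.sum_nonneg fun k _ => Finset.sum_nonneg fun l _ =>
    mul_nonneg (hb0 k) (hb0 l)
  have hF0 : 0 ≤ F := Finset.sum_nonneg fun Q _ => hC.y_nonneg Q x
  have hratio := hR N h y hC T S hTS hT.le x
  -- the lower bound of the first two terms
  have hlow : -(C₂ ^ 2 * D) ≤ 1 + ∑ k ∈ R, u k := by
    set w : Fin N → ℝ := fun k => max (-u k) 0 with hw
    have hw0 : ∀ k ∈ R, 0 ≤ w k := fun k _ => le_max_right _ _
    have hw1 : ∀ k ∈ R, w k ≤ 1 := fun k hk => max_le (by linarith [hu1 k hk]) zero_le_one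
    have hwb : ∀ k ∈ R, w k ≤ C₂ * b k := fun k hk =>
      max_le ((neg_le_abs _).trans (hub k hk)) (mul_nonneg hC₂.le (hb0 k))
    have hwu : ∀ k ∈ R, -w k ≤ u k := fun k _ => by
      have := le_max_left (-u k) 0
      simp only [hw]
      linarith
    have h1 := (bonferroni R w hw0 hw1).2
    have h2 : 0 ≤ ∏ k ∈ R, (1 - w k) := Finset.prod_nonneg fun k hk => by linarith [hw1 k hk]
    have h3 : ∑ k ∈ R, ∑ l ∈ R.erase k, w k * w l ≤ C₂ ^ 2 * D := by
      rw [hD, Finset.mul_sum]
      refine Finset.sum_le_sum fun k hk => ?_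
      rw [Finset.mul_sum]
      refine Finset.sum_le_sum fun l hl => ?_
      have hl' := Finset.mem_of_mem_erase hl
      calc w k * w l ≤ (C₂ * b k) * (C₂ * b l) :=
            mul_le_mul (hwb k hk) (hwb l hl') (hw0 l hl') (mul_nonneg hC₂.le (hb0 k))
        _ = C₂ ^ 2 * (b k * b l) := by ring
    have h4 : -∑ k ∈ R, w k ≤ ∑ k ∈ R, u k := by
      rw [← Finset.sum_neg_distrib]
      exact Finset.sum_le_sum hwu
    linarith
  -- sufficient: a bound of the ratio by a constant times `D + F ≥ 1`
  have hsuff : 1 ≤ D + F → ratio h T S x ≤ 1 + ∑ k ∈ R, u k +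
      (C₁ + C₂ ^ 2 + C₁ * C₂ ^ 2) * (D + F) := by
    intro h1
    have h2 : ratio h T S x ≤ C₁ * (D + F) := by nlinarith [hratio.2]
    nlinarith [mul_nonneg (sq_nonneg C₂) hF0, mul_nonneg (mul_nonneg hC₁.le (sq_nonneg C₂)) hD0,
      mul_nonneg (mul_nonneg hC₁.le (sq_nonneg C₂)) hF0]
  by_cases ha : ∃ Q ∈ far4 T S, h Q x ≠ 1
  · obtain ⟨Q, hQ, hQ1⟩ := ha
    refine hsuff ?_
    have hQ4 : Q.card = 4 := by
      unfold far4 at hQ
      exact (Finset.mem_filter.mp hQ).2.1
    have h1 : 1 ≤ y Q x := hC.y_four Q hQ4 x hQ1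
    have h2 : y Q x ≤ F := Finset.single_le_sum (f := fun Q => y Q x)
      (fun Q _ => hC.y_nonneg Q x) hQ
    linarith
  · push Not at ha
    have hTne : T.Nonempty := Finset.card_pos.mp (by omega)
    have hins4 : ∀ k ∈ R, (insert k T).card = 4 := fun k hk => by
      rw [Finset.card_insert_of_notMem (hkT k hk), hT]
    have hinsL : ∀ k ∈ R, insert k T ∈ link T (insert k T) := by
      intro k hk
      rw [mem_link_insert (hkT k hk)]
      constructor
      · ext a
        rw [Finset.mem_sdiff, Finset.mem_insert, Finset.mem_singleton]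
        constructor
        · rintro ⟨h3 | h3, h4⟩
          · exact h3
          · exact absurd h3 h4
        · rintro rfl
          exact ⟨Or.inl rfl, hkT a hk⟩
      · obtain ⟨t, ht⟩ := hTne
        rw [Finset.not_disjoint_iff]
        exact ⟨t, Finset.mem_insert_of_mem ht, ht⟩
    have hb1 : ∀ k ∈ R, h (insert k T) x ≠ 1 → 1 ≤ b k := by
      intro k hk h1
      have h2 : 1 ≤ y (insert k T) x := hC.y_four _ (hins4 k hk) x h1
      have h3 : y (insert k T) x ≤ b k := Finset.single_le_sum (f := fun Q => y Q x)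
        (fun Q _ => hC.y_nonneg Q x) (hinsL k hk)
      linarith
    by_cases hbb : ∃ k ∈ R, ∃ l ∈ R, k ≠ l ∧ h (insert k T) x ≠ 1 ∧ h (insert l T) x ≠ 1
    · obtain ⟨k, hk, l, hl, hkl, h1, h2⟩ := hbb
      refine hsuff ?_
      have h3 : 1 ≤ b k * b l := by
        have := hb1 k hk h1
        have := hb1 l hl h2
        nlinarith
      have h4 : b k * b l ≤ ∑ l ∈ R.erase k, b k * b l :=
        Finset.single_le_sum (f := fun l => b k * b l) (fun l _ => mul_nonneg (hb0 k) (hb0 l))
          (Finset.mem_erase.mpr ⟨hkl.symm, hl⟩)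
      have h5 : ∑ l ∈ R.erase k, b k * b l ≤ D :=
        Finset.single_le_sum (f := fun k => ∑ l ∈ R.erase k, b k * b l)
          (fun k _ => Finset.sum_nonneg fun l _ => mul_nonneg (hb0 k) (hb0 l)) hk
      linarith
    · push Not at hbb
      -- the ratio is at most the product of the single ratios
      have hsq1 : ∀ B, h B x ≤ 1 → h B x ^ 2 ≤ 1 := fun B hB => by
        have := hC.h_pos B x
        nlinarith
      have hprod : ratio h T S x ≤ ∏ k ∈ R, (1 + u k) := by
        have e1 : ∏ k ∈ R, (1 + u k) = ∏ B ∈ (link T S).filter (fun B => (B \ T).card = 1),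
            h B x ^ 2 := by
          rw [link_filter_one hTS, Finset.prod_biUnion]
          · refine Finset.prod_congr rfl fun k hk => ?_
            rw [← ratio_insert_eq hC (hkT k hk)]
            rfl
          · intro k hk l hl hkl
            rw [Function.onFun, Finset.disjoint_left]
            intro B hB hB'
            have h1 := ((mem_link_insert (hkT k hk)).mp hB).1
            have h2 := ((mem_link_insert (hkT l hl)).mp hB').1
            rw [h1] at h2
            exact hkl (Finset.singleton_injective h2)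
        rw [e1]
        unfold ratio
        rw [← Finset.prod_filter_mul_prod_filter_not (link T S) (fun B => (B \ T).card = 1)]
        have h1 : ∏ B ∈ (link T S).filter (fun B => ¬ (B \ T).card = 1), h B x ^ 2 ≤ 1 := by
          refine Finset.prod_le_one (fun B _ => sq_nonneg _) fun B hB => ?_
          rw [Finset.mem_filter] at hB
          by_cases h4 : B.card = 4
          · have hB' := hB.1
            unfold link at hB'
            rw [Finset.mem_filter, Finset.mem_powerset] at hB'
            have h5 : 0 < (B \ T).card := by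
              rw [Finset.card_pos]
              exact Finset.sdiff_nonempty.mpr hB'.2.2
            have h6 : B ∈ far4 T S := by
              unfold far4
              rw [Finset.mem_filter]
              exact ⟨hB.1, h4, by omega⟩
            rw [ha B h6]
            norm_num
          · exact hsq1 B (hC.h_le_one B h4 x)
        have h2 : 0 ≤ ∏ B ∈ (link T S).filter (fun B => (B \ T).card = 1), h B x ^ 2 :=
          Finset.prod_nonneg fun B _ => sq_nonneg _
        nlinarith
      refine hprod.trans ?_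
      rcases R.eq_empty_or_nonempty with hRe | hRne
      · have hDF : 0 ≤ (C₁ + C₂ ^ 2 + C₁ * C₂ ^ 2) * (D + F) := by positivity
        rw [hRe, Finset.prod_empty, Finset.sum_empty]
        linarith
      · -- the exceptional particle
        obtain ⟨k₀, hk₀, hk₀'⟩ : ∃ k₀ ∈ R, ∀ k ∈ R.erase k₀, h (insert k T) x = 1 := by
          by_cases h1 : ∃ k₀ ∈ R, h (insert k₀ T) x ≠ 1
          · obtain ⟨k₀, hk₀, h2⟩ := h1
            refine ⟨k₀, hk₀, fun k hk => ?_⟩
            rw [Finset.mem_erase] at hk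
            exact hbb k₀ hk₀ k hk.2 hk.1.symm h2
          · push Not at h1
            obtain ⟨k₀, hk₀⟩ := hRne
            exact ⟨k₀, hk₀, fun k hk => h1 k (Finset.mem_of_mem_erase hk)⟩
        set R' := R.erase k₀ with hR'
        set v : Fin N → ℝ := fun k => -u k with hv
        have hR'R : ∀ k ∈ R', k ∈ R := fun k hk => Finset.mem_of_mem_erase hk
        have hv0 : ∀ k ∈ R', 0 ≤ v k := by
          intro k hk
          have h1 : 1 + u k ≤ 1 := by
            rw [show 1 + u k = ratio h T (insert k T) x from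
              (ratio_insert_eq hC (hkT k (hR'R k hk)) x).symm]
            unfold ratio
            refine Finset.prod_le_one (fun B _ => sq_nonneg _) fun B hB => ?_
            by_cases h4 : B.card = 4
            · have hB' := hB
              unfold link at hB'
              rw [Finset.mem_filter, Finset.mem_powerset] at hB'
              have h5 : B = insert k T :=
                Finset.eq_of_subset_of_card_le hB'.1 (by rw [hins4 k (hR'R k hk), h4])
              rw [h5, hk₀' k hk]
              norm_num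
            · exact hsq1 B (hC.h_le_one B h4 x)
          simp only [hv]
          linarith
        have hv1 : ∀ k ∈ R', v k ≤ 1 := fun k hk => by
          have := hu1 k (hR'R k hk)
          simp only [hv]
          linarith
        have hvb : ∀ k ∈ R', v k ≤ C₂ * b k := fun k hk =>
          (neg_le_abs _).trans (hub k (hR'R k hk))
        have hu0a : 0 ≤ 1 + u k₀ := by linarith [hu1 k₀ hk₀]
        have hu0b : 1 + u k₀ ≤ C₁ := by
          have h1 := hR N h y hC T (insert k₀ T) (Finset.subset_insert _ _) hT.le x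
          rw [ratio_insert_eq hC (hkT k₀ hk₀)] at h1
          exact h1.2
        have h1 := (bonferroni R' v hv0 hv1).2
        have e1 : ∏ k ∈ R, (1 + u k) = (1 + u k₀) * ∏ k ∈ R', (1 - v k) := by
          rw [← Finset.mul_prod_erase R _ hk₀]
          congr 1
          refine Finset.prod_congr rfl fun k _ => ?_
          simp only [hv]
          ring
        have e2 : ∑ k ∈ R, u k = u k₀ - ∑ k ∈ R', v k := by
          rw [← Finset.add_sum_erase R _ hk₀, sub_eq_add_neg, ← Finset.sum_neg_distrib]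
          congr 1
          refine Finset.sum_congr rfl fun k _ => ?_
          simp only [hv]
          ring
        have h2 : (1 + u k₀) * ∏ k ∈ R', (1 - v k) ≤ (1 + u k₀) *
            (1 - ∑ k ∈ R', v k + ∑ k ∈ R', ∑ l ∈ R'.erase k, v k * v l) :=
          mul_le_mul_of_nonneg_left h1 hu0a
        have h3 : -(u k₀ * ∑ k ∈ R', v k) ≤ C₂ ^ 2 * D := by
          have h4 : -(u k₀ * ∑ k ∈ R', v k) ≤ ∑ k ∈ R', C₂ ^ 2 * (b k₀ * b k) := by
            rw [Finset.mul_sum, ← Finset.sum_neg_distrib]
            refine Finset.sum_le_sum fun k hk => ?_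
            calc -(u k₀ * v k) = (-u k₀) * v k := by ring
              _ ≤ (C₂ * b k₀) * (C₂ * b k) := by
                  have h5 : -u k₀ ≤ C₂ * b k₀ := (neg_le_abs _).trans (hub k₀ hk₀)
                  calc (-u k₀) * v k ≤ (C₂ * b k₀) * v k :=
                        mul_le_mul_of_nonneg_right h5 (hv0 k hk)
                    _ ≤ (C₂ * b k₀) * (C₂ * b k) :=
                        mul_le_mul_of_nonneg_left (hvb k hk) (mul_nonneg hC₂.le (hb0 k₀))
              _ = C₂ ^ 2 * (b k₀ * b k) := by ring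
          have h5 : ∑ l ∈ R.erase k₀, b k₀ * b l ≤ D :=
            Finset.single_le_sum (f := fun k => ∑ l ∈ R.erase k, b k * b l)
              (fun k _ => Finset.sum_nonneg fun l _ => mul_nonneg (hb0 k) (hb0 l)) hk₀
          rw [← Finset.mul_sum] at h4
          exact h4.trans (mul_le_mul_of_nonneg_left h5 (sq_nonneg C₂))
        have h6 : ∑ k ∈ R', ∑ l ∈ R'.erase k, v k * v l ≤ C₂ ^ 2 * D := by
          have h7 : ∑ k ∈ R', ∑ l ∈ R'.erase k, v k * v l
              ≤ ∑ k ∈ R', ∑ l ∈ R.erase k, C₂ ^ 2 * (b k * b l) := by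
            refine Finset.sum_le_sum fun k hk => ?_
            refine (Finset.sum_le_sum (g := fun l => C₂ ^ 2 * (b k * b l)) fun l hl => ?_).trans ?_
            · have hl' := Finset.mem_of_mem_erase hl
              calc v k * v l ≤ (C₂ * b k) * (C₂ * b l) :=
                    mul_le_mul (hvb k hk) (hvb l hl') (hv0 l hl') (mul_nonneg hC₂.le (hb0 k))
                _ = C₂ ^ 2 * (b k * b l) := by ring
            · refine Finset.sum_le_sum_of_subset_of_nonneg ?_ fun l _ _ =>
                mul_nonneg (sq_nonneg _) (mul_nonneg (hb0 k) (hb0 l))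
              exact Finset.erase_subset_erase _ (Finset.erase_subset _ _)
          refine h7.trans ?_
          have h8 : ∑ k ∈ R', ∑ l ∈ R.erase k, C₂ ^ 2 * (b k * b l)
              ≤ ∑ k ∈ R, ∑ l ∈ R.erase k, C₂ ^ 2 * (b k * b l) :=
            Finset.sum_le_sum_of_subset_of_nonneg (Finset.erase_subset _ _) fun k _ _ =>
              Finset.sum_nonneg fun l _ => mul_nonneg (sq_nonneg _) (mul_nonneg (hb0 k) (hb0 l))
          refine h8.trans (le_of_eq ?_)
          rw [hD, Finset.mul_sum]
          refine Finset.sum_congr rfl fun k _ => ?_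
          rw [Finset.mul_sum]
        have h9 : (1 + u k₀) * ∑ k ∈ R', ∑ l ∈ R'.erase k, v k * v l ≤ C₁ * (C₂ ^ 2 * D) := by
          have h10 : 0 ≤ ∑ k ∈ R', ∑ l ∈ R'.erase k, v k * v l :=
            Finset.sum_nonneg fun k hk => Finset.sum_nonneg fun l hl =>
              mul_nonneg (hv0 k hk) (hv0 l (Finset.mem_of_mem_erase hl))
          exact mul_le_mul hu0b h6 h10 hC₁.le
        rw [e1, e2]
        have h11 : 0 ≤ C₁ * D := mul_nonneg hC₁.le hD0
        have h12 : 0 ≤ (C₁ + C₂ ^ 2 + C₁ * C₂ ^ 2) * F := by positivity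
        nlinarith

end Pool.Agent.Lib.MP_5db8e2_mp
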