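import Pool.Agent.Lib.MP_5db8e2_mp.CluA

/-!
# Abstract cluster estimates: the ratio lemmas
-/

set_option autoImplicit false

open MeasureTheory Filter Topology

namespace Pool.Agent.Lib.MP_5db8e2_mp

/-- `∏ (1 - w) ≤ 1 - ∑ w + ∑_{i≠j} w_i w_j` and `1 - ∑ w ≤ ∏ (1 - w)` for `w ∈ [0,1]`. -/
theorem bonferroni {ι : Type*} [DecidableEq ι] (s : Finset ι) (w : ι → ℝ)
    (h0 : ∀ i ∈ s, 0 ≤ w i) (h1 : ∀ i ∈ s, w i ≤ 1) :
    1 - ∑ i ∈ s, w i ≤ ∏ i ∈ s, (1 - w i) ∧
      ∏ i ∈ s, (1 - w i) ≤ 1 - ∑ i ∈ s, w i + ∑ i ∈ s, ∑ j ∈ s.erase i, w i * w j := by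
  induction s using Finset.induction_on with
  | empty => simp
  | insert a s ha ih =>
    have h0' : ∀ i ∈ s, 0 ≤ w i := fun i hi => h0 i (Finset.mem_insert_of_mem hi)
    have h1' : ∀ i ∈ s, w i ≤ 1 := fun i hi => h1 i (Finset.mem_insert_of_mem hi)
    obtain ⟨hl, hu⟩ := ih h0' h1'
    have hwa0 := h0 a (Finset.mem_insert_self a s)
    have hwa1 := h1 a (Finset.mem_insert_self a s)
    have hS : 0 ≤ ∑ i ∈ s, w i := Finset.sum_nonneg h0'
    have hD : 0 ≤ ∑ i ∈ s, ∑ j ∈ s.erase i, w i * w j :=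
      Finset.sum_nonneg fun i hi => Finset.sum_nonneg fun j hj =>
        mul_nonneg (h0' i hi) (h0' j (Finset.mem_of_mem_erase hj))
    have hdd : ∑ i ∈ insert a s, ∑ j ∈ (insert a s).erase i, w i * w j =
        (∑ i ∈ s, ∑ j ∈ s.erase i, w i * w j) + 2 * (w a * ∑ i ∈ s, w i) := by
      rw [Finset.sum_insert ha, Finset.erase_insert ha]
      have : ∀ i ∈ s, ∑ j ∈ (insert a s).erase i, w i * w j =
          w i * w a + ∑ j ∈ s.erase i, w i * w j := by
        intro i hi
        have hai : a ≠ i := fun h => ha (h ▸ hi)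
        rw [Finset.erase_insert_of_ne hai, Finset.sum_insert]
        intro h
        exact ha (Finset.mem_of_mem_erase h)
      rw [Finset.sum_congr rfl this, Finset.sum_add_distrib, ← Finset.mul_sum, ← Finset.sum_mul]
      ring
    rw [Finset.sum_insert ha, Finset.prod_insert ha, hdd]
    constructor
    · nlinarith [mul_le_mul_of_nonneg_left hl (sub_nonneg.2 hwa1), mul_nonneg hwa0 hS]
    · nlinarith [mul_le_mul_of_nonneg_left hu (sub_nonneg.2 hwa1), mul_nonneg hwa0 hS,
        mul_nonneg hwa0 hD]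

variable {N : ℕ} {h y : Finset (Fin N) → (Fin N → R3) → ℝ} {c M : ℝ}

theorem Psi_nice (hC : Clu h y c M) (S : Finset (Fin N)) : Nice S (Psi h S) := by
  have := Nice.prod (A := S) (s := S.powerset) (F := h)
    (fun B hB => (hC.h_nice B).mono (Finset.mem_powerset.1 hB))
  exact this

theorem Clu.pos (hC : Clu h y c M) (B : Finset (Fin N)) (x : Fin N → R3) : 0 < h B x :=
  lt_of_lt_of_le hC.hc (hC.h_pos B x)

theorem Psi_pos (hC : Clu h y c M) (S : Finset (Fin N)) (x : Fin N → R3) : 0 < Psi h S x := by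
  unfold Psi
  exact Finset.prod_pos fun B _ => hC.pos B x

/-- Removing a set of particles (iteration of `stab`). -/
theorem Psi_le (hC : Clu h y c M) {S A : Finset (Fin N)} (hA : A ⊆ S) (x : Fin N → R3) :
    Psi h S x ≤ M ^ A.card * Psi h (S \ A) x := by
  induction A using Finset.induction_on with
  | empty => simp
  | insert i A hi ih =>
    have hA' : A ⊆ S := fun j hj => hA (Finset.mem_insert_of_mem hj)
    have hiS : i ∈ S \ A := Finset.mem_sdiff.2 ⟨hA (Finset.mem_insert_self i A), hi⟩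
    have h1 := hC.stab (S \ A) i hiS x
    have h2 : S \ insert i A = (S \ A).erase i := by
      ext j
      simp only [Finset.mem_sdiff, Finset.mem_insert, Finset.mem_erase, not_or]
      tauto
    rw [h2, Finset.card_insert_of_notMem hi, pow_succ, mul_assoc]
    exact (ih hA').trans (mul_le_mul_of_nonneg_left h1 (pow_nonneg (by linarith [hC.hM]) _))

/-- Factorisation. -/
theorem Psi_sq_eq (hC : Clu h y c M) {S A : Finset (Fin N)} (hA : A ⊆ S) (x : Fin N → R3) :
    Psi h S x ^ 2 = Psi h A x ^ 2 * Psi h (S \ A) x ^ 2 * ratio h A S x := by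
  have he : h ∅ x = 1 := hC.h_one ∅ (Or.inl (by simp)) x
  have h1 : S.powerset.filter (fun B => B ⊆ A) = A.powerset := by
    ext B
    simp only [Finset.mem_filter, Finset.mem_powerset]
    exact ⟨fun h => h.2, fun h => ⟨h.trans hA, h⟩⟩
  have h2 : (S.powerset.filter (fun B => ¬ B ⊆ A)).filter (fun B => Disjoint B A) =
      (S \ A).powerset.erase ∅ := by
    ext B
    simp only [Finset.mem_filter, Finset.mem_powerset, Finset.mem_erase]
    constructor
    · rintro ⟨⟨hS, hn⟩, hd⟩
      refine ⟨?_, Finset.subset_sdiff.2 ⟨hS, hd⟩⟩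
      rintro rfl
      exact hn (Finset.empty_subset _)
    · rintro ⟨hne, hs⟩
      obtain ⟨hS, hd⟩ := Finset.subset_sdiff.1 hs
      refine ⟨⟨hS, fun hBA => hne ?_⟩, hd⟩
      exact (Finset.disjoint_self_iff_empty B).1 (hd.mono_right hBA)
  have h3 : (S.powerset.filter (fun B => ¬ B ⊆ A)).filter (fun B => ¬ Disjoint B A) =
      link A S := by
    ext B
    simp only [link, Finset.mem_filter, Finset.mem_powerset]
    tauto
  have h4 : Psi h S x = Psi h A x * (Psi h (S \ A) x * ∏ B ∈ link A S, h B x) := by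
    unfold Psi
    rw [← Finset.prod_filter_mul_prod_filter_not S.powerset (fun B => B ⊆ A), h1,
      ← Finset.prod_filter_mul_prod_filter_not (S.powerset.filter (fun B => ¬ B ⊆ A))
        (fun B => Disjoint B A), h2, h3,
      ← Finset.mul_prod_erase (S \ A).powerset (fun B => h B x) (Finset.empty_mem_powerset _), he,
      one_mul]
  unfold ratio
  rw [h4, Finset.prod_pow]
  ring

theorem ratio_pos (hC : Clu h y c M) (A S : Finset (Fin N)) (x : Fin N → R3) :
    0 < ratio h A S x := by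
  unfold ratio
  exact Finset.prod_pos fun B _ => pow_pos (hC.pos B x) 2

/-- The ratio is bounded: `ratio = Psi_S²/(Psi_A² Psi_{S∖A}²) ≤ M^{2|A|} / c^{2·2^{|A|}}`. -/
theorem ratio_le (c M : ℝ) (hc : 0 < c) (hM : 1 ≤ M) (n : ℕ) : ∃ C > 0, ∀ (N : ℕ)
    (h y : Finset (Fin N) → (Fin N → R3) → ℝ), Clu h y c M → ∀ A S : Finset (Fin N), A ⊆ S →
      A.card ≤ n → ∀ x, 0 ≤ ratio h A S x ∧ ratio h A S x ≤ C := by
  refine ⟨(M ^ n / c ^ (2 ^ n)) ^ 2, by positivity, ?_⟩
  intro N h y hC A S hA hn x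
  refine ⟨(ratio_pos hC A S x).le, ?_⟩
  have hc1 : c ≤ 1 := by
    have := hC.h_pos ∅ x
    rwa [hC.h_one ∅ (Or.inl (by simp)) x] at this
  have hA1 : c ^ (2 ^ n) ≤ Psi h A x := by
    have e1 : c ^ (2 ^ A.card) ≤ Psi h A x := by
      unfold Psi
      calc c ^ (2 ^ A.card) = ∏ _B ∈ A.powerset, c := by
            rw [Finset.prod_const, Finset.card_powerset]
        _ ≤ _ := Finset.prod_le_prod (fun _ _ => hc.le) fun B _ => hC.h_pos B x
    refine le_trans (pow_le_pow_of_le_one hc.le hc1 ?_) e1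
    exact Nat.pow_le_pow_right (by norm_num) hn
  have hP1 := Psi_pos hC A x
  have hP2 := Psi_pos hC (S \ A) x
  have hPS := Psi_pos hC S x
  have hle := Psi_le hC hA x
  have hle' : Psi h S x ≤ M ^ n * Psi h (S \ A) x :=
    hle.trans (mul_le_mul_of_nonneg_right (pow_le_pow_right₀ hM hn) hP2.le)
  have heq := Psi_sq_eq hC hA x
  have hrat : ratio h A S x = (Psi h S x / (Psi h A x * Psi h (S \ A) x)) ^ 2 := by
    rw [div_pow, eq_div_iff (by positivity), heq]
    ring
  rw [hrat]
  apply pow_le_pow_left₀ (by positivity)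
  rw [div_le_div_iff₀ (by positivity) (by positivity)]
  calc Psi h S x * c ^ (2 ^ n) ≤ (M ^ n * Psi h (S \ A) x) * Psi h A x :=
        mul_le_mul hle' hA1 (by positivity) (by positivity)
    _ = M ^ n * (Psi h A x * Psi h (S \ A) x) := by ring

/-- **Ratio lemma.** `|ratio - 1| ≤ C ∑_{B ∈ link} y_B`. Lower bound: `h_B² ≥ 1 - min (y_B) 1` and
`bonferroni`. Upper bound: if all the factors with four particles are one then `ratio ≤ 1`
(`h_le_one`), otherwise some `y_B ≥ 1` (`y_four`) and `ratio ≤ C`. -/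
theorem ratio_sub_one (c M : ℝ) (hc : 0 < c) (hM : 1 ≤ M) (n : ℕ) : ∃ C > 0, ∀ (N : ℕ)
    (h y : Finset (Fin N) → (Fin N → R3) → ℝ), Clu h y c M → ∀ A S : Finset (Fin N), A ⊆ S →
      A.card ≤ n → ∀ x, |ratio h A S x - 1| ≤ C * ∑ B ∈ link A S, y B x := by
  obtain ⟨C, hC0, hCr⟩ := ratio_le c M hc hM n
  refine ⟨max 1 C, lt_of_lt_of_le one_pos (le_max_left _ _), ?_⟩
  intro N h y hC A S hA hn x
  have hY0 : 0 ≤ ∑ B ∈ link A S, y B x := Finset.sum_nonneg fun B _ => hC.y_nonneg B x
  have hlow : 1 - ∑ B ∈ link A S, y B x ≤ ratio h A S x := by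
    have hb := (bonferroni (link A S) (fun B => max (1 - h B x ^ 2) 0)
      (fun B _ => le_max_right _ _) (fun B _ => by
        have := pow_pos (hC.pos B x) 2
        exact max_le (by linarith) zero_le_one)).1
    have h1 : ∏ B ∈ link A S, (1 - max (1 - h B x ^ 2) 0) ≤ ratio h A S x := by
      unfold ratio
      apply Finset.prod_le_prod
      · intro B _
        have := pow_pos (hC.pos B x) 2
        have : max (1 - h B x ^ 2) 0 ≤ 1 := max_le (by linarith) zero_le_one
        linarith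
      · intro B _
        linarith [le_max_left (1 - h B x ^ 2) 0]
    have h2 : ∑ B ∈ link A S, max (1 - h B x ^ 2) 0 ≤ ∑ B ∈ link A S, y B x := by
      apply Finset.sum_le_sum
      intro B _
      refine max_le ?_ (hC.y_nonneg B x)
      have := hC.y_ge B x
      have := neg_abs_le (h B x ^ 2 - 1)
      linarith
    linarith
  have hup : ratio h A S x - 1 ≤ max 1 C * ∑ B ∈ link A S, y B x := by
    by_cases hall : ∀ B ∈ link A S, B.card = 4 → h B x = 1
    · have : ratio h A S x ≤ 1 := by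
        unfold ratio
        apply Finset.prod_le_one
        · intro B _; positivity
        · intro B hB
          have hle : h B x ≤ 1 := by
            by_cases h4 : B.card = 4
            · exact (hall B hB h4).le
            · exact hC.h_le_one B h4 x
          have := hC.pos B x
          nlinarith
      have : 0 ≤ max 1 C * ∑ B ∈ link A S, y B x :=
        mul_nonneg (le_trans zero_le_one (le_max_left _ _)) hY0
      linarith
    · push Not at hall
      obtain ⟨B, hB, h4, hne⟩ := hall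
      have hy := hC.y_four B h4 x hne
      have hsum : 1 ≤ ∑ B ∈ link A S, y B x :=
        hy.trans (Finset.single_le_sum (f := fun B => y B x)
          (fun B _ => hC.y_nonneg B x) hB)
      have hr := (hCr N h y hC A S hA hn x).2
      have hm : C ≤ max 1 C := le_max_right _ _
      have hm0 : 0 ≤ max 1 C := le_trans zero_le_one (le_max_left _ _)
      nlinarith [mul_le_mul_of_nonneg_left hsum hm0]
  rw [abs_le]
  refine ⟨?_, hup⟩
  have : ∑ B ∈ link A S, y B x ≤ max 1 C * ∑ B ∈ link A S, y B x :=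
    le_mul_of_one_le_left hY0 (le_max_left _ _)
  linarith

/-- The four-particle interaction of `T ∪ {k}`: `Psi_{T∪k}²/Psi_T² - 1`. -/
noncomputable def uu (h : Finset (Fin N) → (Fin N → R3) → ℝ) (T : Finset (Fin N)) (k : Fin N)
    (x : Fin N → R3) : ℝ := Psi h (insert k T) x ^ 2 / Psi h T x ^ 2 - 1

/-- Its majorant. -/
noncomputable def ub (y : Finset (Fin N) → (Fin N → R3) → ℝ) (T : Finset (Fin N)) (k : Fin N)
    (x : Fin N → R3) : ℝ := ∑ B ∈ link T (insert k T), y B x

theorem Psi_singleton (hC : Clu h y c M) (k : Fin N) (x : Fin N → R3) : Psi h {k} x = 1 := by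
  unfold Psi
  apply Finset.prod_eq_one
  intro B hB
  apply hC.h_one B (Or.inl ?_) x
  have := Finset.card_le_card (Finset.mem_powerset.1 hB)
  rw [Finset.card_singleton] at this
  omega

theorem uu_eq (hC : Clu h y c M) {T : Finset (Fin N)} {k : Fin N} (hk : k ∉ T)
    (x : Fin N → R3) : uu h T k x = ratio h T (insert k T) x - 1 := by
  have heq := Psi_sq_eq hC (Finset.subset_insert k T) x
  have hs : insert k T \ T = {k} := by
    ext j
    simp only [Finset.mem_sdiff, Finset.mem_insert, Finset.mem_singleton]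
    constructor
    · rintro ⟨h1 | h1, h2⟩
      · exact h1
      · exact absurd h1 h2
    · rintro rfl; exact ⟨Or.inl rfl, hk⟩
  rw [hs, Psi_singleton hC, one_pow, mul_one] at heq
  unfold uu
  have hp := pow_pos (Psi_pos hC T x) 2
  rw [heq, mul_div_cancel_left₀ _ hp.ne']

/-- `|u_k| ≤ C ub_k`: for `k ∉ T`, `uu T k = ratio h T (insert k T) - 1` because `Psi h {k} = 1`. -/
theorem abs_uu_le (c M : ℝ) (hc : 0 < c) (hM : 1 ≤ M) : ∃ C > 0, ∀ (N : ℕ)
    (h y : Finset (Fin N) → (Fin N → R3) → ℝ), Clu h y c M → ∀ (T : Finset (Fin N)) (k : Fin N),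
      T.card = 3 → k ∉ T → ∀ x, |uu h T k x| ≤ C * ub y T k x ∧ -1 ≤ uu h T k x := by
  obtain ⟨C, hC0, hCr⟩ := ratio_sub_one c M hc hM 3
  refine ⟨C, hC0, ?_⟩
  intro N h y hC T k hT hk x
  rw [uu_eq hC hk x]
  refine ⟨hCr N h y hC T (insert k T) (Finset.subset_insert k T) hT.le x, ?_⟩
  have := ratio_pos hC T (insert k T) x
  linarith

/-- The four-sets in `S` which meet `T` and have at least two particles outside `T`. -/
def far4 (T S : Finset (Fin N)) : Finset (Finset (Fin N)) :=
  (link T S).filter fun Q => Q.card = 4 ∧ 2 ≤ (Q \ T).card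

end Pool.Agent.Lib.MP_5db8e2_mp
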