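import Pool.Agent.Lib.MP_5db8e2_mp.CluB1

/-!
# Abstract cluster estimates: partition functions
-/

set_option autoImplicit false

open MeasureTheory Filter Topology

namespace Pool.Agent.Lib.MP_5db8e2_mp

namespace CluC

variable {N : ℕ} {h y : Finset (Fin N) → (Fin N → R3) → ℝ} {c M : ℝ}

theorem nice_sq {S : Finset (Fin N)} {F : (Fin N → R3) → ℝ} (hF : Nice S F) :
    Nice S (fun x => F x ^ 2) := by
  have h1 := hF.mul hF
  rw [Finset.union_self] at h1
  have e : (fun x => F x ^ 2) = fun x => F x * F x := by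
    funext x
    ring
  rw [e]
  exact h1

theorem Psi_single (hC : Clu h y c M) (i : Fin N) (x : Fin N → R3) : Psi h {i} x = 1 := by
  unfold Psi
  apply Finset.prod_eq_one
  intro B hB
  apply hC.h_one
  left
  have h1 := Finset.card_le_card (Finset.mem_powerset.1 hB)
  rw [Finset.card_singleton] at h1
  omega

theorem int_sq (hC : Clu h y c M) (μ : Measure R3) [IsProbabilityMeasure μ]
    (S : Finset (Fin N)) : Integrable (fun x => Psi h S x ^ 2) (PP μ N) :=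
  (nice_sq (Psi_nice hC S)).integrable μ

theorem ZZ_pos (hC : Clu h y c M) (μ : Measure R3) [IsProbabilityMeasure μ]
    (S : Finset (Fin N)) : 0 < ZZ μ h S := by
  unfold ZZ
  rw [integral_pos_iff_support_of_nonneg (fun x => sq_nonneg _) (int_sq hC μ S)]
  have hs : Function.support (fun x => Psi h S x ^ 2) = Set.univ := by
    ext x
    simp only [Function.mem_support, Set.mem_univ, iff_true]
    exact pow_ne_zero 2 (Psi_pos hC S x).ne'
  rw [hs]
  simp

/-- a nonnegative kernel against `Psi^2` -/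
theorem kernel (hC : Clu h y c M) (μ : Measure R3) [IsProbabilityMeasure μ]
    {A : Finset (Fin N)} {F : (Fin N → R3) → ℝ} (hF : Nice A F) (h0 : ∀ x, 0 ≤ F x)
    (S : Finset (Fin N)) :
    ∫ x, F x * Psi h S x ^ 2 ∂(PP μ N) ≤
      (M ^ (A ∩ S).card) ^ 2 * ((∫ x, F x ∂(PP μ N)) * ZZ μ h (S \ A)) := by
  have hsub : A ∩ S ⊆ S := Finset.inter_subset_right
  have hsd : S \ (A ∩ S) = S \ A := by
    ext j
    simp only [Finset.mem_sdiff, Finset.mem_inter, not_and]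
    constructor
    · rintro ⟨h1, h2⟩
      exact ⟨h1, fun h3 => h2 h3 h1⟩
    · rintro ⟨h1, h2⟩
      exact ⟨h1, fun h3 => absurd h3 h2⟩
  have hpt : ∀ x, F x * Psi h S x ^ 2 ≤
      (M ^ (A ∩ S).card) ^ 2 * (F x * Psi h (S \ A) x ^ 2) := by
    intro x
    have h1 := Psi_le hC hsub x
    rw [hsd] at h1
    have h2 : Psi h S x ^ 2 ≤ (M ^ (A ∩ S).card * Psi h (S \ A) x) ^ 2 :=
      pow_le_pow_left₀ (Psi_pos hC S x).le h1 2
    calc F x * Psi h S x ^ 2 ≤ F x * (M ^ (A ∩ S).card * Psi h (S \ A) x) ^ 2 :=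
          mul_le_mul_of_nonneg_left h2 (h0 x)
      _ = (M ^ (A ∩ S).card) ^ 2 * (F x * Psi h (S \ A) x ^ 2) := by ring
  have hdis : Disjoint A (S \ A) := Finset.disjoint_sdiff
  calc ∫ x, F x * Psi h S x ^ 2 ∂(PP μ N)
      ≤ ∫ x, (M ^ (A ∩ S).card) ^ 2 * (F x * Psi h (S \ A) x ^ 2) ∂(PP μ N) := by
        apply integral_mono ((hF.mul (nice_sq (Psi_nice hC S))).integrable μ)
          (((hF.mul (nice_sq (Psi_nice hC (S \ A)))).integrable μ).const_mul _)
        exact hpt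
    _ = (M ^ (A ∩ S).card) ^ 2 * ∫ x, F x * Psi h (S \ A) x ^ 2 ∂(PP μ N) :=
        integral_const_mul _ _
    _ = (M ^ (A ∩ S).card) ^ 2 * ((∫ x, F x ∂(PP μ N)) * ZZ μ h (S \ A)) := by
        rw [indep μ hF (nice_sq (Psi_nice hC (S \ A))) hdis]
        rfl

/-- iteration -/
theorem iter (μ : Measure R3) (S A : Finset (Fin N)) (hA : A ⊆ S)
    (hP : ∀ T ⊆ S, ∀ j ∈ T, ZZ μ h (T.erase j) ≤ 2 * ZZ μ h T) :
    ZZ μ h (S \ A) ≤ 2 ^ A.card * ZZ μ h S := by
  induction A using Finset.induction_on with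
  | empty => simp
  | insert a A' ha ih =>
    have hA' : A' ⊆ S := (Finset.subset_insert a A').trans hA
    have haS : a ∈ S := hA (Finset.mem_insert_self a A')
    have h1 := ih hA'
    have h2 := hP (S \ A') Finset.sdiff_subset a (Finset.mem_sdiff.2 ⟨haS, ha⟩)
    have e : S \ insert a A' = (S \ A').erase a := by
      ext j
      simp only [Finset.mem_sdiff, Finset.mem_insert, Finset.mem_erase, not_or]
      tauto
    rw [e, Finset.card_insert_of_notMem ha, pow_succ]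
    calc ZZ μ h ((S \ A').erase a) ≤ 2 * ZZ μ h (S \ A') := h2
      _ ≤ 2 * (2 ^ A'.card * ZZ μ h S) := by linarith
      _ = 2 ^ A'.card * 2 * ZZ μ h S := by ring

/-- one step -/
theorem step (hC : Clu h y c M) (μ : Measure R3) [IsProbabilityMeasure μ] (C₁ : ℝ) (hC1 : 0 < C₁)
    (S : Finset (Fin N)) (i : Fin N) (hi : i ∈ S)
    (hrat : ∀ x, |ratio h {i} S x - 1| ≤ C₁ * ∑ B ∈ link {i} S, y B x)
    (ε : ℝ) (hε : ∑ B ∈ Finset.univ.filter (fun B : Finset (Fin N) => i ∈ B),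
        ∫ x, y B x ∂(PP μ N) ≤ ε)
    (hP : ∀ T ⊆ S.erase i, ∀ j ∈ T, ZZ μ h (T.erase j) ≤ 2 * ZZ μ h T) :
    |ZZ μ h (S.erase i) - ZZ μ h S| ≤ (C₁ * (16 * M ^ 8)) * ε * ZZ μ h (S.erase i) := by
  set S' := S.erase i with hS'
  have hpt : ∀ x, |Psi h S' x ^ 2 - Psi h S x ^ 2| ≤
      C₁ * ∑ B ∈ link {i} S, y B x * Psi h S' x ^ 2 := by
    intro x
    have h1 := Psi_sq_eq hC (Finset.singleton_subset_iff.2 hi) x
    rw [Psi_single hC, Finset.sdiff_singleton_eq_erase, one_pow, one_mul] at h1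
    rw [h1, ← hS']
    have h2 : Psi h S' x ^ 2 - Psi h S' x ^ 2 * ratio h {i} S x =
        - (Psi h S' x ^ 2 * (ratio h {i} S x - 1)) := by ring
    rw [h2, abs_neg, abs_mul, abs_of_nonneg (sq_nonneg (Psi h S' x)), ← Finset.sum_mul]
    calc Psi h S' x ^ 2 * |ratio h {i} S x - 1|
        ≤ Psi h S' x ^ 2 * (C₁ * ∑ B ∈ link {i} S, y B x) :=
          mul_le_mul_of_nonneg_left (hrat x) (sq_nonneg _)
      _ = C₁ * ((∑ B ∈ link {i} S, y B x) * Psi h S' x ^ 2) := by ring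
  have hint : ∀ B, Integrable (fun x => y B x * Psi h S' x ^ 2) (PP μ N) := fun B =>
    ((hC.y_nice B).mul (nice_sq (Psi_nice hC S'))).integrable μ
  have hZ' := ZZ_pos hC μ S'
  have hB : ∀ B ∈ link {i} S, ∫ x, y B x * Psi h S' x ^ 2 ∂(PP μ N) ≤
      (16 * M ^ 8 * ZZ μ h S') * ∫ x, y B x ∂(PP μ N) := by
    intro B hB
    have hM := hC.hM
    have hy0 : 0 ≤ ∫ x, y B x ∂(PP μ N) := integral_nonneg (hC.y_nonneg B)
    unfold link at hB
    rw [Finset.mem_filter, Finset.mem_powerset] at hB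
    obtain ⟨hBS, hBi, -⟩ := hB
    have hiB : i ∈ B := by
      by_contra hh
      exact hBi (Finset.disjoint_singleton_right.2 hh)
    by_cases hcard : 5 < B.card
    · have hz : ∀ x, y B x = 0 := hC.y_zero B (Or.inr hcard)
      simp [hz]
    · have h1 := kernel hC μ (hC.y_nice B) (hC.y_nonneg B) S'
      have hcap : (B ∩ S').card ≤ 4 := by
        have hsub : B ∩ S' ⊆ B.erase i := by
          intro j hj
          rw [Finset.mem_inter, hS', Finset.mem_erase] at hj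
          exact Finset.mem_erase.2 ⟨hj.2.1, hj.1⟩
        have h2 := Finset.card_le_card hsub
        rw [Finset.card_erase_of_mem hiB] at h2
        omega
      have hpow : (M ^ (B ∩ S').card) ^ 2 ≤ M ^ 8 := by
        rw [← pow_mul]
        apply pow_le_pow_right₀ hM
        omega
      have hZB : ZZ μ h (S' \ B) ≤ 16 * ZZ μ h S' := by
        have h3 := iter μ S' (B ∩ S') Finset.inter_subset_right hP
        have e : S' \ (B ∩ S') = S' \ B := by
          ext j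
          simp only [Finset.mem_sdiff, Finset.mem_inter, not_and]
          constructor
          · rintro ⟨h1, h2⟩
            exact ⟨h1, fun h3 => h2 h3 h1⟩
          · rintro ⟨h1, h2⟩
            exact ⟨h1, fun h3 => absurd h3 h2⟩
        rw [e] at h3
        refine h3.trans ?_
        apply mul_le_mul_of_nonneg_right _ hZ'.le
        calc (2 : ℝ) ^ (B ∩ S').card ≤ 2 ^ 4 := pow_le_pow_right₀ (by norm_num) hcap
          _ = 16 := by norm_num
      have hZB0 := ZZ_pos hC μ (S' \ B)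
      calc ∫ x, y B x * Psi h S' x ^ 2 ∂(PP μ N)
          ≤ (M ^ (B ∩ S').card) ^ 2 * ((∫ x, y B x ∂(PP μ N)) * ZZ μ h (S' \ B)) := h1
        _ ≤ M ^ 8 * ((∫ x, y B x ∂(PP μ N)) * (16 * ZZ μ h S')) := by
            apply mul_le_mul hpow _ (mul_nonneg hy0 hZB0.le) (by positivity)
            exact mul_le_mul_of_nonneg_left hZB hy0
        _ = (16 * M ^ 8 * ZZ μ h S') * ∫ x, y B x ∂(PP μ N) := by ring
  have hsum : ∑ B ∈ link {i} S, ∫ x, y B x ∂(PP μ N) ≤ ε := by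
    refine le_trans (Finset.sum_le_sum_of_subset_of_nonneg ?_ ?_) hε
    · intro B hB
      unfold link at hB
      rw [Finset.mem_filter, Finset.mem_powerset] at hB
      rw [Finset.mem_filter]
      refine ⟨Finset.mem_univ _, ?_⟩
      by_contra hh
      exact hB.2.1 (Finset.disjoint_singleton_right.2 hh)
    · intro B _ _
      exact integral_nonneg (hC.y_nonneg B)
  have hM0 : 0 ≤ M ^ 8 := by
    have := hC.hM
    positivity
  calc |ZZ μ h S' - ZZ μ h S| = |∫ x, (Psi h S' x ^ 2 - Psi h S x ^ 2) ∂(PP μ N)| := by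
        rw [integral_sub (int_sq hC μ S') (int_sq hC μ S)]
        rfl
    _ ≤ ∫ x, |Psi h S' x ^ 2 - Psi h S x ^ 2| ∂(PP μ N) := abs_integral_le_integral_abs
    _ ≤ ∫ x, C₁ * ∑ B ∈ link {i} S, y B x * Psi h S' x ^ 2 ∂(PP μ N) := by
        apply integral_mono ((int_sq hC μ S').sub (int_sq hC μ S)).abs
          ((integrable_finsetSum _ fun B _ => hint B).const_mul _)
        exact hpt
    _ = C₁ * ∑ B ∈ link {i} S, ∫ x, y B x * Psi h S' x ^ 2 ∂(PP μ N) := by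
        rw [integral_const_mul, integral_finsetSum _ fun B _ => hint B]
    _ ≤ C₁ * ∑ B ∈ link {i} S, (16 * M ^ 8 * ZZ μ h S') * ∫ x, y B x ∂(PP μ N) :=
        mul_le_mul_of_nonneg_left (Finset.sum_le_sum hB) hC1.le
    _ = C₁ * ((16 * M ^ 8 * ZZ μ h S') * ∑ B ∈ link {i} S, ∫ x, y B x ∂(PP μ N)) := by
        congr 1
        rw [Finset.mul_sum]
    _ ≤ C₁ * ((16 * M ^ 8 * ZZ μ h S') * ε) := by
        apply mul_le_mul_of_nonneg_left _ hC1.le
        apply mul_le_mul_of_nonneg_left hsum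
        positivity
    _ = (C₁ * (16 * M ^ 8)) * ε * ZZ μ h S' := by ring

end CluC

/-- `Z_{S∖i} ≤ 2 Z_S` if `C ε ≤ 1`, `ε ≥ ∑_{B∋i} E[y_B]`. Induction on `|S|` (statement: for all `S`
and all `i ∈ S`): by `ratio_sub_one` with `A = {i}` (`Psi h {i} = 1`),
`|Psi_S² - Psi_{S∖i}²| ≤ C₁ Psi_{S∖i}² ∑_{B∋i, B⊆S} y_B`, and
`E[y_B Psi_{S∖i}²] ≤ M^8 E[y_B Psi_{S∖B}²] = M^8 E[y_B] Z_{S∖B} ≤ M^8 2^4 E[y_B] Z_{S∖i}`
(`indep`, `Psi_le`, induction hypothesis: `S∖B` is obtained from `S∖i` by removing at most four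
particles). -/
theorem Z_erase (c M : ℝ) (hc : 0 < c) (hM : 1 ≤ M) : ∃ C > 0, ∀ (μ : Measure R3)
    [IsProbabilityMeasure μ] (N : ℕ) (h y : Finset (Fin N) → (Fin N → R3) → ℝ), Clu h y c M →
      ∀ ε ≥ 0, (∀ i : Fin N, ∑ B ∈ Finset.univ.filter (fun B : Finset (Fin N) => i ∈ B),
        ∫ x, y B x ∂(PP μ N) ≤ ε) → C * ε ≤ 1 → ∀ S : Finset (Fin N), ∀ i ∈ S,
        0 < ZZ μ h S ∧ ZZ μ h (S.erase i) ≤ 2 * ZZ μ h S ∧
          |ZZ μ h (S.erase i) - ZZ μ h S| ≤ C * ε * ZZ μ h S := by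
  obtain ⟨C₁, hC1, hr⟩ := ratio_sub_one c M hc hM 1
  have hK : 0 < C₁ * (16 * M ^ 8) := by positivity
  refine ⟨2 * (C₁ * (16 * M ^ 8)), by positivity, ?_⟩
  intro μ _ N h y hC ε hε hsum hCε S
  induction S using Finset.strongInduction with
  | H S ih =>
    intro i hi
    have hZ := CluC.ZZ_pos hC μ S
    have hZ' := CluC.ZZ_pos hC μ (S.erase i)
    have hP : ∀ T ⊆ S.erase i, ∀ j ∈ T, ZZ μ h (T.erase j) ≤ 2 * ZZ μ h T := by
      intro T hT j hj
      exact (ih T (lt_of_le_of_lt hT (Finset.erase_ssubset hi)) j hj).2.1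
    have hstep := CluC.step hC μ C₁ hC1 S i hi
      (fun x => hr N h y hC {i} S (Finset.singleton_subset_iff.2 hi)
        (by rw [Finset.card_singleton]) x) ε (hsum i) hP
    set K := C₁ * (16 * M ^ 8) with hKdef
    have hhalf : K * ε * ZZ μ h (S.erase i) ≤ 1 / 2 * ZZ μ h (S.erase i) := by
      apply mul_le_mul_of_nonneg_right _ hZ'.le
      linarith
    have h2 : ZZ μ h (S.erase i) ≤ 2 * ZZ μ h S := by
      have := (abs_le.1 hstep).2
      linarith
    refine ⟨hZ, h2, hstep.trans ?_⟩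
    calc K * ε * ZZ μ h (S.erase i) ≤ K * ε * (2 * ZZ μ h S) := by
          apply mul_le_mul_of_nonneg_left h2
          positivity
      _ = 2 * K * ε * ZZ μ h S := by ring

/-- Removing at most `n` particles. -/
theorem Z_ratio (c M : ℝ) (hc : 0 < c) (hM : 1 ≤ M) (n : ℕ) : ∃ C > 0, ∀ (μ : Measure R3)
    [IsProbabilityMeasure μ] (N : ℕ) (h y : Finset (Fin N) → (Fin N → R3) → ℝ), Clu h y c M →
      ∀ ε ≥ 0, (∀ i : Fin N, ∑ B ∈ Finset.univ.filter (fun B : Finset (Fin N) => i ∈ B),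
        ∫ x, y B x ∂(PP μ N) ≤ ε) → C * ε ≤ 1 → ∀ S A : Finset (Fin N), A ⊆ S → A.card ≤ n →
        0 < ZZ μ h S ∧ ZZ μ h (S \ A) ≤ C * ZZ μ h S ∧
          |ZZ μ h (S \ A) - ZZ μ h S| ≤ C * ε * ZZ μ h S := by
  obtain ⟨C, hC0, hE⟩ := Z_erase c M hc hM
  have h2n : (1 : ℝ) ≤ 2 ^ n := one_le_pow₀ (by norm_num)
  refine ⟨2 ^ n * (n * C + C + 1), by positivity, ?_⟩
  intro μ _ N h y hC ε hε hsum hCε S A hA hcard
  have hCle : C ≤ 2 ^ n * (n * C + C + 1) := by
    have h1 : C ≤ n * C + C + 1 := by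
      have : 0 ≤ (n : ℝ) * C := by positivity
      linarith
    calc C ≤ n * C + C + 1 := h1
      _ = 1 * (n * C + C + 1) := (one_mul _).symm
      _ ≤ 2 ^ n * (n * C + C + 1) := mul_le_mul_of_nonneg_right h2n (by positivity)
  have hCε' : C * ε ≤ 1 := (mul_le_mul_of_nonneg_right hCle hε).trans hCε
  have hE' := hE μ N h y hC ε hε hsum hCε'
  have hZ := CluC.ZZ_pos hC μ S
  have hP : ∀ T ⊆ S, ∀ j ∈ T, ZZ μ h (T.erase j) ≤ 2 * ZZ μ h T := fun T _ j hj =>
    (hE' T j hj).2.1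
  have hiter : ∀ A' ⊆ S, A'.card ≤ n → ZZ μ h (S \ A') ≤ 2 ^ n * ZZ μ h S := by
    intro A' hA' hc'
    refine (CluC.iter μ S A' hA' hP).trans ?_
    apply mul_le_mul_of_nonneg_right _ hZ.le
    exact pow_le_pow_right₀ (by norm_num) hc'
  have hdiff : ∀ A' ⊆ S, A'.card ≤ n →
      |ZZ μ h (S \ A') - ZZ μ h S| ≤ A'.card * (C * ε * (2 ^ n * ZZ μ h S)) := by
    intro A'
    induction A' using Finset.induction_on with
    | empty => intro _ _; simp
    | insert a A' ha ih =>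
      intro hA' hc'
      rw [Finset.card_insert_of_notMem ha] at hc'
      have hsub : A' ⊆ S := (Finset.subset_insert a A').trans hA'
      have haS : a ∈ S := hA' (Finset.mem_insert_self a A')
      have h1 := ih hsub (by omega)
      have h2 := (hE' (S \ A') a (Finset.mem_sdiff.2 ⟨haS, ha⟩)).2.2
      have h3 := hiter A' hsub (by omega)
      have e : S \ insert a A' = (S \ A').erase a := by
        ext j
        simp only [Finset.mem_sdiff, Finset.mem_insert, Finset.mem_erase, not_or]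
        tauto
      rw [e, Finset.card_insert_of_notMem ha]
      have h4 : C * ε * ZZ μ h (S \ A') ≤ C * ε * (2 ^ n * ZZ μ h S) := by
        apply mul_le_mul_of_nonneg_left h3
        positivity
      have h5 := abs_sub_le (ZZ μ h ((S \ A').erase a)) (ZZ μ h (S \ A')) (ZZ μ h S)
      push_cast
      linarith
  refine ⟨hZ, ?_, ?_⟩
  · refine (hiter A hA hcard).trans ?_
    apply mul_le_mul_of_nonneg_right _ hZ.le
    have h1 : (1 : ℝ) ≤ n * C + C + 1 := by
      have : 0 ≤ (n : ℝ) * C := by positivity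
      linarith
    calc (2 : ℝ) ^ n = 2 ^ n * 1 := (mul_one _).symm
      _ ≤ 2 ^ n * (n * C + C + 1) := mul_le_mul_of_nonneg_left h1 (by positivity)
  · refine (hdiff A hA hcard).trans ?_
    have hcard' : (A.card : ℝ) ≤ n := by exact_mod_cast hcard
    have hnn : 0 ≤ C * ε * (2 ^ n * ZZ μ h S) := by positivity
    calc (A.card : ℝ) * (C * ε * (2 ^ n * ZZ μ h S))
        ≤ n * (C * ε * (2 ^ n * ZZ μ h S)) := mul_le_mul_of_nonneg_right hcard' hnn
      _ = 2 ^ n * (n * C) * (ε * ZZ μ h S) := by ring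
      _ ≤ 2 ^ n * (n * C + C + 1) * (ε * ZZ μ h S) := by
          apply mul_le_mul_of_nonneg_right _ (by positivity)
          apply mul_le_mul_of_nonneg_left _ (by positivity)
          linarith
      _ = 2 ^ n * (n * C + C + 1) * ε * ZZ μ h S := by ring

/-- **Expectation of a nonnegative kernel**: `E[F Psi_S²] ≤ C E[F] Z_S`, and more generally with
`Psi_{S'}` for `S' ⊆ S` instead of `Psi_S`, `|S ∖ S'| ≤ n`. Proof:
`Psi_{S'}² ≤ M^{2n} Psi_{S'∖A}²`, `indep`, `Z_ratio`. -/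
theorem kernel_le (c M : ℝ) (hc : 0 < c) (hM : 1 ≤ M) (n : ℕ) : ∃ C > 0, ∀ (μ : Measure R3)
    [IsProbabilityMeasure μ] (N : ℕ) (h y : Finset (Fin N) → (Fin N → R3) → ℝ), Clu h y c M →
      ∀ ε ≥ 0, (∀ i : Fin N, ∑ B ∈ Finset.univ.filter (fun B : Finset (Fin N) => i ∈ B),
        ∫ x, y B x ∂(PP μ N) ≤ ε) → C * ε ≤ 1 → ∀ S S' A : Finset (Fin N), S' ⊆ S →
        (S \ S').card ≤ n → A.card ≤ n → ∀ F : (Fin N → R3) → ℝ, Nice A F → (∀ x, 0 ≤ F x) →
        ∫ x, F x * Psi h S' x ^ 2 ∂(PP μ N) ≤ C * (∫ x, F x ∂(PP μ N)) * ZZ μ h S := by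
  obtain ⟨C, hC0, hE⟩ := Z_ratio c M hc hM (2 * n)
  have hMn : 1 ≤ (M ^ n) ^ 2 := one_le_pow₀ (one_le_pow₀ hM)
  refine ⟨(M ^ n) ^ 2 * C, by positivity, ?_⟩
  intro μ _ N h y hC ε hε hsum hCε S S' A hS' hcS hcA F hF hF0
  have hCε' : C * ε ≤ 1 := by
    refine le_trans ?_ hCε
    apply mul_le_mul_of_nonneg_right _ hε
    calc C = 1 * C := (one_mul _).symm
      _ ≤ (M ^ n) ^ 2 * C := mul_le_mul_of_nonneg_right hMn hC0.le
  have h1 := CluC.kernel hC μ hF hF0 S'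
  have hF1 : 0 ≤ ∫ x, F x ∂(PP μ N) := integral_nonneg hF0
  have e : S' \ A = S \ ((S \ S') ∪ (A ∩ S')) := by
    ext j
    simp only [Finset.mem_sdiff, Finset.mem_union, Finset.mem_inter, not_or, not_and, not_not]
    constructor
    · rintro ⟨h1, h2⟩
      exact ⟨hS' h1, fun _ => h1, fun h3 => absurd h3 h2⟩
    · rintro ⟨h1, h2, h3⟩
      exact ⟨h2 h1, fun h4 => h3 h4 (h2 h1)⟩
  have hsub : (S \ S') ∪ (A ∩ S') ⊆ S :=
    Finset.union_subset Finset.sdiff_subset (Finset.inter_subset_right.trans hS')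
  have hcard : ((S \ S') ∪ (A ∩ S')).card ≤ 2 * n := by
    have h2 := Finset.card_union_le (S \ S') (A ∩ S')
    have h3 := Finset.card_le_card (Finset.inter_subset_left : A ∩ S' ⊆ A)
    omega
  have h2 := (hE μ N h y hC ε hε hsum hCε' S _ hsub hcard).2.1
  rw [← e] at h2
  have hpow : (M ^ (A ∩ S').card) ^ 2 ≤ (M ^ n) ^ 2 := by
    apply pow_le_pow_left₀ (by positivity)
    apply pow_le_pow_right₀ hM
    exact (Finset.card_le_card (Finset.inter_subset_left : A ∩ S' ⊆ A)).trans hcA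
  have hZ := CluC.ZZ_pos hC μ (S' \ A)
  calc ∫ x, F x * Psi h S' x ^ 2 ∂(PP μ N)
      ≤ (M ^ (A ∩ S').card) ^ 2 * ((∫ x, F x ∂(PP μ N)) * ZZ μ h (S' \ A)) := h1
    _ ≤ (M ^ n) ^ 2 * ((∫ x, F x ∂(PP μ N)) * (C * ZZ μ h S)) := by
        apply mul_le_mul hpow _ (mul_nonneg hF1 hZ.le) (by positivity)
        exact mul_le_mul_of_nonneg_left h2 hF1
    _ = (M ^ n) ^ 2 * C * (∫ x, F x ∂(PP μ N)) * ZZ μ h S := by ring

end Pool.Agent.Lib.MP_5db8e2_mp
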