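import Pool.Agent.Lib.MP_5db8e2_mp.CluB1

/-!
# Abstract cluster estimates: the energy, part 1 (algebra)

`g B i a` is the logarithmic derivative of `h B`, `v B` the potential of the triple `B`.
-/

set_option autoImplicit false

open MeasureTheory Filter Topology

namespace Pool.Agent.Lib.MP_5db8e2_mp

variable {N : ℕ}

/-- Energy data: `K B` bounds the logarithmic gradients of `h B`. -/
structure EDat (g : Finset (Fin N) → Fin N → Fin 3 → (Fin N → R3) → ℝ)
    (K v : Finset (Fin N) → (Fin N → R3) → ℝ) : Prop where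
  g_nice : ∀ B i a, Nice B (g B i a)
  g_zero : ∀ B i, i ∉ B → ∀ a x, g B i a x = 0
  g_card : ∀ B, (B.card < 3 ∨ 5 < B.card) → ∀ i a x, g B i a x = 0
  g_le : ∀ B i a x, |g B i a x| ≤ K B x
  K_nice : ∀ B, Nice B (K B)
  K_card : ∀ B, (B.card < 3 ∨ 5 < B.card) → ∀ x, K B x = 0
  v_nice : ∀ B, Nice B (v B)
  v_nonneg : ∀ B x, 0 ≤ v B x
  v_card : ∀ B, B.card ≠ 3 → ∀ x, v B x = 0

/-- The energy density divided by `Psi²`. -/
noncomputable def edens (g : Finset (Fin N) → Fin N → Fin 3 → (Fin N → R3) → ℝ)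
    (v : Finset (Fin N) → (Fin N → R3) → ℝ) (S : Finset (Fin N)) (x : Fin N → R3) : ℝ :=
  ∑ i, ∑ a, (∑ B ∈ S.powerset, g B i a x) ^ 2 + ∑ B ∈ S.powerset, v B x

/-- The part of the gradient square with union `U`. -/
noncomputable def GU (g : Finset (Fin N) → Fin N → Fin 3 → (Fin N → R3) → ℝ)
    (U : Finset (Fin N)) (x : Fin N → R3) : ℝ :=
  ∑ B ∈ U.powerset, ∑ B' ∈ U.powerset.filter (fun B' => B ∪ B' = U),
    ∑ i, ∑ a, g B i a x * g B' i a x

/-- Its majorant. -/
noncomputable def KU (K : Finset (Fin N) → (Fin N → R3) → ℝ)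
    (U : Finset (Fin N)) (x : Fin N → R3) : ℝ :=
  ∑ B ∈ U.powerset, ∑ B' ∈ U.powerset.filter (fun B' => B ∪ B' = U ∧ ¬ Disjoint B B'),
    K B x * K B' x

/-- The three-body energy `A_T = (|∇h_T|² + V_T h_T²)`. -/
noncomputable def AT (h : Finset (Fin N) → (Fin N → R3) → ℝ)
    (g : Finset (Fin N) → Fin N → Fin 3 → (Fin N → R3) → ℝ)
    (v : Finset (Fin N) → (Fin N → R3) → ℝ) (T : Finset (Fin N)) (x : Fin N → R3) : ℝ :=
  edens g v T x * Psi h T x ^ 2

/-- The four-body energy minus the three-body energies. -/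
noncomputable def BQ (h : Finset (Fin N) → (Fin N → R3) → ℝ)
    (g : Finset (Fin N) → Fin N → Fin 3 → (Fin N → R3) → ℝ)
    (v : Finset (Fin N) → (Fin N → R3) → ℝ) (Q : Finset (Fin N)) (x : Fin N → R3) : ℝ :=
  edens g v Q x * Psi h Q x ^ 2 - ∑ T ∈ Q.powersetCard 3, AT h g v T x

variable {g : Finset (Fin N) → Fin N → Fin 3 → (Fin N → R3) → ℝ}
  {K v : Finset (Fin N) → (Fin N → R3) → ℝ}

/-- Grouping a double sum over the subsets of `S` by the union. -/
theorem sum_union_group (S : Finset (Fin N)) (F : Finset (Fin N) → Finset (Fin N) → ℝ) :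
    ∑ B ∈ S.powerset, ∑ B' ∈ S.powerset, F B B' =
      ∑ U ∈ S.powerset, ∑ B ∈ U.powerset, ∑ B' ∈ U.powerset.filter (fun B' => B ∪ B' = U),
        F B B' := by
  classical
  rw [← Finset.sum_product' S.powerset S.powerset F]
  have hmaps : ∀ p ∈ S.powerset ×ˢ S.powerset, p.1 ∪ p.2 ∈ S.powerset := by
    intro p hp
    rw [Finset.mem_product] at hp
    rw [Finset.mem_powerset]
    exact Finset.union_subset (Finset.mem_powerset.1 hp.1) (Finset.mem_powerset.1 hp.2)
  rw [← Finset.sum_fiberwise_of_maps_to hmaps]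
  refine Finset.sum_congr rfl fun U hU => ?_
  have hUS : U ⊆ S := Finset.mem_powerset.1 hU
  have hset : (S.powerset ×ˢ S.powerset).filter (fun p => p.1 ∪ p.2 = U) =
      (U.powerset ×ˢ U.powerset).filter (fun p => p.1 ∪ p.2 = U) := by
    ext p
    simp only [Finset.mem_filter, Finset.mem_product, Finset.mem_powerset]
    constructor
    · rintro ⟨_, h⟩
      refine ⟨⟨?_, ?_⟩, h⟩
      · rw [← h]; exact Finset.subset_union_left
      · rw [← h]; exact Finset.subset_union_right
    · rintro ⟨⟨h1, h2⟩, h⟩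
      exact ⟨⟨h1.trans hUS, h2.trans hUS⟩, h⟩
  rw [hset, Finset.sum_filter, Finset.sum_product]
  refine Finset.sum_congr rfl fun B _ => ?_
  rw [Finset.sum_filter]

/-- Grouping by the union: `∑_{B,B'⊆S} = ∑_{U⊆S} ∑_{B∪B'=U}`. -/
theorem edens_eq (hE : EDat g K v) (S : Finset (Fin N)) (x : Fin N → R3) :
    edens g v S x = ∑ U ∈ S.powerset, (GU g U x + v U x) := by
  classical
  unfold edens GU
  rw [Finset.sum_add_distrib, ← sum_union_group S (fun B B' => ∑ i, ∑ a, g B i a x * g B' i a x)]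
  congr 1
  have h1 : ∀ i : Fin N, ∀ a : Fin 3, (∑ B ∈ S.powerset, g B i a x) ^ 2 =
      ∑ B ∈ S.powerset, ∑ B' ∈ S.powerset, g B i a x * g B' i a x := by
    intro i a
    rw [sq, Finset.sum_mul_sum]
  simp_rw [h1]
  have h2 : ∀ i : Fin N, ∑ a : Fin 3, ∑ B ∈ S.powerset, ∑ B' ∈ S.powerset,
      g B i a x * g B' i a x = ∑ B ∈ S.powerset, ∑ B' ∈ S.powerset, ∑ a : Fin 3,
      g B i a x * g B' i a x := by
    intro i
    rw [Finset.sum_comm]
    refine Finset.sum_congr rfl fun B _ => ?_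
    rw [Finset.sum_comm]
  simp_rw [h2]
  rw [Finset.sum_comm]
  refine Finset.sum_congr rfl fun B _ => ?_
  rw [Finset.sum_comm]

/-- `GU` vanishes for less than three particles. -/
theorem GU_card (hE : EDat g K v) {U : Finset (Fin N)} (hU : U.card < 3) (x : Fin N → R3) :
    GU g U x = 0 := by
  unfold GU
  refine Finset.sum_eq_zero fun B hB => Finset.sum_eq_zero fun B' _ =>
    Finset.sum_eq_zero fun i _ => Finset.sum_eq_zero fun a _ => ?_
  have hc : B.card < 3 := lt_of_le_of_lt (Finset.card_le_card (Finset.mem_powerset.1 hB)) hU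
  rw [hE.g_card B (Or.inl hc) i a x, zero_mul]

theorem K_nonneg (hE : EDat g K v) (B : Finset (Fin N)) (x : Fin N → R3) : 0 ≤ K B x := by
  by_cases hB : B.card < 3
  · rw [hE.K_card B (Or.inl hB) x]
  · have : B.Nonempty := by
      rw [← Finset.card_pos]; omega
    obtain ⟨i, _⟩ := this
    exact (abs_nonneg _).trans (hE.g_le B i 0 x)

theorem abs_GU_le (hE : EDat g K v) (U : Finset (Fin N)) (x : Fin N → R3) :
    |GU g U x| ≤ 15 * KU K U x := by
  classical
  unfold GU KU
  rw [Finset.mul_sum]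
  refine (Finset.abs_sum_le_sum_abs _ _).trans (Finset.sum_le_sum fun B _ => ?_)
  rw [Finset.mul_sum, Finset.sum_filter, Finset.sum_filter]
  refine (Finset.abs_sum_le_sum_abs _ _).trans (Finset.sum_le_sum fun B' _ => ?_)
  by_cases hU : B ∪ B' = U
  · by_cases hd : Disjoint B B'
    · -- all the products vanish
      have h0 : ∑ i, ∑ a, g B i a x * g B' i a x = 0 := by
        refine Finset.sum_eq_zero fun i _ => Finset.sum_eq_zero fun a _ => ?_
        by_cases hi : i ∈ B
        · have hi' : i ∉ B' := fun h => (Finset.disjoint_left.1 hd) hi h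
          rw [hE.g_zero B' i hi' a x, mul_zero]
        · rw [hE.g_zero B i hi a x, zero_mul]
      simp [hU, hd, h0]
    · rw [if_pos hU, if_pos ⟨hU, hd⟩]
      by_cases hB5 : 5 < B.card
      · have h0 : ∑ i, ∑ a, g B i a x * g B' i a x = 0 := by
          refine Finset.sum_eq_zero fun i _ => Finset.sum_eq_zero fun a _ => ?_
          rw [hE.g_card B (Or.inr hB5) i a x, zero_mul]
        rw [h0, abs_zero]
        exact mul_nonneg (by norm_num) (mul_nonneg (K_nonneg hE B x) (K_nonneg hE B' x))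
      · have h1 : ∑ i, ∑ a, g B i a x * g B' i a x = ∑ i ∈ B, ∑ a, g B i a x * g B' i a x := by
          symm
          refine Finset.sum_subset (Finset.subset_univ B) fun i _ hi => ?_
          refine Finset.sum_eq_zero fun a _ => ?_
          rw [hE.g_zero B i hi a x, zero_mul]
        rw [h1]
        have h2 : |∑ i ∈ B, ∑ a, g B i a x * g B' i a x| ≤
            ∑ i ∈ B, ∑ _a : Fin 3, K B x * K B' x := by
          refine (Finset.abs_sum_le_sum_abs _ _).trans (Finset.sum_le_sum fun i _ => ?_)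
          refine (Finset.abs_sum_le_sum_abs _ _).trans (Finset.sum_le_sum fun a _ => ?_)
          rw [abs_mul]
          exact mul_le_mul (hE.g_le B i a x) (hE.g_le B' i a x) (abs_nonneg _)
            (K_nonneg hE B x)
        refine h2.trans ?_
        rw [Finset.sum_const, Finset.sum_const, Finset.card_univ, Fintype.card_fin, nsmul_eq_mul,
          nsmul_eq_mul]
        have hBc : (B.card : ℝ) ≤ 5 := by
          have : B.card ≤ 5 := by omega
          exact_mod_cast this
        have hKK : 0 ≤ K B x * K B' x := mul_nonneg (K_nonneg hE B x) (K_nonneg hE B' x)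
        have : (B.card : ℝ) * ((3 : ℕ) * (K B x * K B' x)) ≤ 5 * (3 * (K B x * K B' x)) := by
          push_cast
          exact mul_le_mul_of_nonneg_right hBc (by positivity)
        linarith
  · have : ¬ (B ∪ B' = U ∧ ¬ Disjoint B B') := fun h => hU h.1
    rw [if_neg hU, if_neg this]
    simp

theorem GU_nice (hE : EDat g K v) (U : Finset (Fin N)) : Nice U (GU g U) := by
  classical
  have : GU g U = fun x => ∑ B ∈ U.powerset, ∑ B' ∈ U.powerset.filter (fun B' => B ∪ B' = U),
      ∑ i, ∑ a, g B i a x * g B' i a x := rfl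
  rw [this]
  refine Nice.sum fun B hB => Nice.sum fun B' hB' => Nice.sum fun i _ => Nice.sum fun a _ => ?_
  have h1 : B ⊆ U := Finset.mem_powerset.1 hB
  have h2 : B' ⊆ U := Finset.mem_powerset.1 (Finset.mem_filter.1 hB').1
  exact ((hE.g_nice B i a).mul (hE.g_nice B' i a)).mono (Finset.union_subset h1 h2)

theorem KU_nice (hE : EDat g K v) (U : Finset (Fin N)) : Nice U (KU K U) := by
  classical
  have : KU K U = fun x => ∑ B ∈ U.powerset,
      ∑ B' ∈ U.powerset.filter (fun B' => B ∪ B' = U ∧ ¬ Disjoint B B'), K B x * K B' x := rfl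
  rw [this]
  refine Nice.sum fun B hB => Nice.sum fun B' hB' => ?_
  have h1 : B ⊆ U := Finset.mem_powerset.1 hB
  have h2 : B' ⊆ U := Finset.mem_powerset.1 (Finset.mem_filter.1 hB').1
  exact ((hE.K_nice B).mul (hE.K_nice B')).mono (Finset.union_subset h1 h2)

/-- For `|T| = 3`: `edens g v T = GU T + v T ≥ 0`. -/
theorem edens_three (hE : EDat g K v) {T : Finset (Fin N)} (hT : T.card = 3) (x : Fin N → R3) :
    edens g v T x = GU g T x + v T x ∧ 0 ≤ GU g T x := by
  classical
  have hlt : ∀ U ∈ T.powerset, U ≠ T → U.card < 3 := by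
    intro U hU hne
    have : U ⊂ T := (Finset.mem_powerset.1 hU).ssubset_of_ne hne
    have := Finset.card_lt_card this
    omega
  have h1 : edens g v T x = GU g T x + v T x := by
    rw [edens_eq hE T x]
    refine Finset.sum_eq_single_of_mem T (Finset.mem_powerset_self T) fun U hU hne => ?_
    have hc := hlt U hU hne
    rw [GU_card hE hc x, hE.v_card U (by omega) x, add_zero]
  refine ⟨h1, ?_⟩
  have h2 : ∑ B ∈ T.powerset, v B x = v T x := by
    refine Finset.sum_eq_single_of_mem T (Finset.mem_powerset_self T) fun U hU hne => ?_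
    have hc := hlt U hU hne
    exact hE.v_card U (by omega) x
  have h3 : edens g v T x = ∑ i, ∑ a, (∑ B ∈ T.powerset, g B i a x) ^ 2 + v T x := by
    unfold edens
    rw [h2]
  have h4 : GU g T x = ∑ i, ∑ a, (∑ B ∈ T.powerset, g B i a x) ^ 2 := by
    have := h1.symm.trans h3
    linarith
  rw [h4]
  exact Finset.sum_nonneg fun i _ => Finset.sum_nonneg fun a _ => sq_nonneg _

/-- For `|Q| = 4`: `edens Q = GU Q + ∑_{T ⊂ Q} edens T`. -/
theorem edens_four (hE : EDat g K v) {Q : Finset (Fin N)} (hQ : Q.card = 4) (x : Fin N → R3) :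
    edens g v Q x = GU g Q x + ∑ T ∈ Q.powersetCard 3, edens g v T x := by
  classical
  rw [edens_eq hE Q x]
  have hsub : insert Q (Q.powersetCard 3) ⊆ Q.powerset := by
    intro U hU
    rw [Finset.mem_insert] at hU
    rw [Finset.mem_powerset]
    rcases hU with rfl | hU
    · exact Finset.Subset.refl _
    · exact (Finset.mem_powersetCard.1 hU).1
  rw [← Finset.sum_subset hsub]
  · rw [Finset.sum_insert]
    · rw [hE.v_card Q (by omega) x, add_zero]
      congr 1
      refine Finset.sum_congr rfl fun T hT => ?_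
      exact ((edens_three hE (Finset.mem_powersetCard.1 hT).2 x).1).symm
    · intro h
      have := (Finset.mem_powersetCard.1 h).2
      omega
  · intro U hU hn
    have hUQ : U ⊆ Q := Finset.mem_powerset.1 hU
    have hne : U ≠ Q := fun h => hn (by rw [h]; exact Finset.mem_insert_self _ _)
    have hn3 : U.card ≠ 3 := fun h =>
      hn (Finset.mem_insert_of_mem (Finset.mem_powersetCard.2 ⟨hUQ, h⟩))
    have hlt : U.card < 4 := by
      have := Finset.card_lt_card (hUQ.ssubset_of_ne hne)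
      omega
    have hc : U.card < 3 := by omega
    rw [GU_card hE hc x, hE.v_card U hn3 x, add_zero]

/-- The triples of a set with four elements. -/
theorem sum_powersetCard_three {Q : Finset (Fin N)} (hQ : Q.card = 4)
    (F : Finset (Fin N) → ℝ) :
    ∑ T ∈ Q.powersetCard 3, F T = ∑ k ∈ Q, F (Q.erase k) := by
  classical
  symm
  refine Finset.sum_nbij (fun k => Q.erase k) ?_ ?_ ?_ ?_
  · intro k hk
    rw [Finset.mem_powersetCard]
    refine ⟨Finset.erase_subset k Q, ?_⟩
    rw [Finset.card_erase_of_mem hk, hQ]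
  · intro k hk l hl h
    by_contra hne
    have h' : Q.erase k = Q.erase l := h
    have : k ∈ Q.erase l := Finset.mem_erase.2 ⟨hne, hk⟩
    rw [← h'] at this
    exact (Finset.notMem_erase k Q) this
  · intro T hT
    have hT' := Finset.mem_powersetCard.1 (Finset.mem_coe.1 hT)
    have hc : (Q \ T).card = 1 := by
      rw [Finset.card_sdiff_of_subset hT'.1, hQ, hT'.2]
    obtain ⟨k, hk⟩ := Finset.card_eq_one.1 hc
    have hkQ : k ∈ Q \ T := by rw [hk]; exact Finset.mem_singleton_self k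
    refine ⟨k, Finset.mem_coe.2 (Finset.mem_sdiff.1 hkQ).1, ?_⟩
    change Q.erase k = T
    rw [← Finset.sdiff_singleton_eq_erase, ← hk, Finset.sdiff_sdiff_eq_self hT'.1]
  · intro k _
    rfl

/-- `B_Q = GU_Q Psi_Q² + ∑_{T⊂Q} A_T u_T`, with `u_T = uu T k`, `Q = T ∪ {k}`:
`(edens T) Psi_Q² - A_T = A_T (Psi_Q²/Psi_T² - 1)`. -/
theorem BQ_eq {h y : Finset (Fin N) → (Fin N → R3) → ℝ} {c M : ℝ} (hC : Clu h y c M)
    (hE : EDat g K v) {Q : Finset (Fin N)} (hQ : Q.card = 4) (x : Fin N → R3) :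
    BQ h g v Q x = GU g Q x * Psi h Q x ^ 2 +
      ∑ k ∈ Q, AT h g v (Q.erase k) x * uu h (Q.erase k) k x := by
  classical
  unfold BQ
  rw [edens_four hE hQ x, sum_powersetCard_three hQ, sum_powersetCard_three hQ, add_mul,
    add_sub_assoc]
  congr 1
  rw [Finset.sum_mul, ← Finset.sum_sub_distrib]
  refine Finset.sum_congr rfl fun k hk => ?_
  unfold AT uu
  rw [Finset.insert_erase hk]
  have hp : Psi h (Q.erase k) x ≠ 0 := (Psi_pos hC (Q.erase k) x).ne'
  field_simp

/-- The sum of the error kernels. -/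
noncomputable def errS (μ : Measure R3) (h y : Finset (Fin N) → (Fin N → R3) → ℝ)
    (g : Finset (Fin N) → Fin N → Fin 3 → (Fin N → R3) → ℝ)
    (K v : Finset (Fin N) → (Fin N → R3) → ℝ) : ℝ :=
  (∑ U : Finset (Fin N), if 5 ≤ U.card then ∫ x, KU K U x ∂(PP μ N) else 0) +
  (∑ Q ∈ Finset.univ.powersetCard 4, ∑ B ∈ link Q Finset.univ,
    ∫ x, KU K Q x * y B x ∂(PP μ N)) +
  (∑ T ∈ Finset.univ.powersetCard 3, ∑ k ∈ Tᶜ, ∑ l ∈ Tᶜ.erase k,
    ∫ x, AT h g v T x * (ub y T k x * ub y T l x) ∂(PP μ N)) +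
  (∑ T ∈ Finset.univ.powersetCard 3, ∑ Q ∈ far4 T Finset.univ,
    ∫ x, AT h g v T x * y Q x ∂(PP μ N)) +
  (∑ T ∈ Finset.univ.powersetCard 3, ∑ k ∈ Tᶜ, ∑ B ∈ link {k} Tᶜ,
    ∫ x, AT h g v T x * (ub y T k x * y B x) ∂(PP μ N))

end Pool.Agent.Lib.MP_5db8e2_mp
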