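import Pool.Agent.Lib.MP_5db8e2_mp.CluB
import Pool.Agent.Lib.MP_5db8e2_mp.CluC
import Pool.Agent.Lib.MP_5db8e2_mp.CluD1

/-!
# Abstract cluster estimates: the energy, part 3 (the three-particle part)
-/

set_option autoImplicit false

open MeasureTheory Filter Topology

namespace Pool.Agent.Lib.MP_5db8e2_mp

namespace CluD3Aux

variable {N : ℕ}

theorem nice_const (A : Finset (Fin N)) (r : ℝ) : Nice A (fun _ : Fin N → R3 => r) :=
  ⟨measurable_const, ⟨|r|, fun _ => le_rfl⟩, fun _ _ _ => rfl⟩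

theorem nice_mul {A : Finset (Fin N)} {F G : (Fin N → R3) → ℝ} (hF : Nice A F) (hG : Nice A G) :
    Nice A (fun x => F x * G x) := by
  have := hF.mul hG
  rwa [Finset.union_self] at this

theorem nice_add {A : Finset (Fin N)} {F G : (Fin N → R3) → ℝ} (hF : Nice A F) (hG : Nice A G) :
    Nice A (fun x => F x + G x) := by
  have := hF.add hG
  rwa [Finset.union_self] at this

theorem nice_sq {A : Finset (Fin N)} {F : (Fin N → R3) → ℝ} (hF : Nice A F) :
    Nice A (fun x => F x ^ 2) := by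
  have := nice_mul hF hF
  simpa only [← sq] using this

variable {g : Finset (Fin N) → Fin N → Fin 3 → (Fin N → R3) → ℝ}
  {K v h y : Finset (Fin N) → (Fin N → R3) → ℝ} {c M : ℝ}

theorem edens_nice (hE : EDat g K v) (S : Finset (Fin N)) : Nice S (edens g v S) := by
  have : edens g v S = fun x => ∑ U ∈ S.powerset, (GU g U x + v U x) :=
    funext fun x => edens_eq hE S x
  rw [this]
  refine Nice.sum fun U hU => ?_
  exact (nice_add (GU_nice hE U) (hE.v_nice U)).mono (Finset.mem_powerset.1 hU)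

theorem AT_nice (hC : Clu h y c M) (hE : EDat g K v) (T : Finset (Fin N)) :
    Nice T (AT h g v T) :=
  nice_mul (edens_nice hE T) (nice_sq (Psi_nice hC T))

theorem edens_nonneg (hE : EDat g K v) {T : Finset (Fin N)} (hT : T.card = 3)
    (x : Fin N → R3) : 0 ≤ edens g v T x := by
  obtain ⟨h1, h2⟩ := edens_three hE hT x
  rw [h1]
  exact add_nonneg h2 (hE.v_nonneg T x)

theorem AT_nonneg (hE : EDat g K v) {T : Finset (Fin N)} (hT : T.card = 3)
    (x : Fin N → R3) : 0 ≤ AT h g v T x :=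
  mul_nonneg (edens_nonneg hE hT x) (sq_nonneg _)

theorem link_sub {A S B : Finset (Fin N)} (hB : B ∈ link A S) : B ⊆ S :=
  Finset.mem_powerset.1 (Finset.mem_filter.1 hB).1

theorem ub_nice (hC : Clu h y c M) (T : Finset (Fin N)) (k : Fin N) :
    Nice (insert k T) (ub y T k) :=
  Nice.sum fun B hB => (hC.y_nice B).mono (link_sub hB)

theorem ub_nonneg (hC : Clu h y c M) (T : Finset (Fin N)) (k : Fin N) (x : Fin N → R3) :
    0 ≤ ub y T k x := Finset.sum_nonneg fun B _ => hC.y_nonneg B x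

theorem uu_nice (hC : Clu h y c M) (T : Finset (Fin N)) (k : Fin N) {C3 : ℝ} (h3 : 0 < C3)
    (hu : ∀ x, |uu h T k x| ≤ C3 * ub y T k x) : Nice (insert k T) (uu h T k) := by
  refine ⟨?_, ?_, ?_⟩
  · exact (((Psi_nice hC (insert k T)).meas.pow_const 2).div
      ((Psi_nice hC T).meas.pow_const 2)).sub_const 1
  · obtain ⟨D, hD⟩ := (ub_nice hC T k).bdd
    refine ⟨C3 * D, fun x => (hu x).trans ?_⟩
    exact mul_le_mul_of_nonneg_left ((le_abs_self _).trans (hD x)) h3.le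
  · intro x x' hx
    unfold uu
    rw [(Psi_nice hC (insert k T)).dep x x' hx,
      (Psi_nice hC T).dep x x' fun i hi => hx i (Finset.mem_insert_of_mem hi)]

theorem Psi_small (hC : Clu h y c M) {S : Finset (Fin N)} (hS : S.card < 3) (x : Fin N → R3) :
    Psi h S x = 1 := by
  unfold Psi
  refine Finset.prod_eq_one fun B hB => ?_
  exact hC.h_one B (Or.inl (lt_of_le_of_lt (Finset.card_le_card (Finset.mem_powerset.1 hB)) hS)) x

theorem compl_insert' (T : Finset (Fin N)) (k : Fin N) : (insert k T)ᶜ = Tᶜ \ {k} := by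
  ext j
  simp only [Finset.mem_compl, Finset.mem_insert, Finset.mem_sdiff, Finset.mem_singleton]
  tauto

/-- The estimate for one triple. -/
theorem one_T (μ : Measure R3) [IsProbabilityMeasure μ] (hC : Clu h y c M) (hE : EDat g K v)
    {C1 C2 C3 C4 : ℝ} (h1 : 0 < C1) (h2 : 0 < C2) (h3 : 0 < C3) (h4 : 0 < C4)
    (hsec : ∀ T S : Finset (Fin N), T ⊆ S → T.card = 3 → ∀ x,
      ratio h T S x ≤ 1 + ∑ k ∈ S \ T, uu h T k x +
        C1 * ((∑ k ∈ S \ T, ∑ l ∈ (S \ T).erase k, ub y T k x * ub y T l x) +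
          ∑ Q ∈ far4 T S, y Q x))
    (hker : ∀ S S' A : Finset (Fin N), S' ⊆ S → (S \ S').card ≤ 10 → A.card ≤ 10 →
      ∀ F : (Fin N → R3) → ℝ, Nice A F → (∀ x, 0 ≤ F x) →
        ∫ x, F x * Psi h S' x ^ 2 ∂(PP μ N) ≤ C2 * (∫ x, F x ∂(PP μ N)) * ZZ μ h S)
    (huu : ∀ (T : Finset (Fin N)) (k : Fin N), T.card = 3 → k ∉ T → ∀ x,
      |uu h T k x| ≤ C3 * ub y T k x ∧ -1 ≤ uu h T k x)
    (hrat : ∀ A S : Finset (Fin N), A ⊆ S → A.card ≤ 1 → ∀ x,
      |ratio h A S x - 1| ≤ C4 * ∑ B ∈ link A S, y B x)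
    (T : Finset (Fin N)) (hT : T.card = 3) :
    ∫ x, edens g v T x * Psi h Finset.univ x ^ 2 ∂(PP μ N) ≤
      (∫ x, AT h g v T x ∂(PP μ N)) * ZZ μ h Tᶜ +
      (∑ k ∈ Tᶜ, (∫ x, AT h g v T x * uu h T k x ∂(PP μ N)) * ZZ μ h (insert k T)ᶜ) +
      ((C1 * C2) * ZZ μ h Finset.univ * (∑ k ∈ Tᶜ, ∑ l ∈ Tᶜ.erase k,
            ∫ x, AT h g v T x * (ub y T k x * ub y T l x) ∂(PP μ N)) +
        (C1 * C2) * ZZ μ h Finset.univ * (∑ Q ∈ far4 T Finset.univ,
            ∫ x, AT h g v T x * y Q x ∂(PP μ N)) +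
        (C2 * C3 * C4) * ZZ μ h Finset.univ * (∑ k ∈ Tᶜ, ∑ B ∈ link {k} Tᶜ,
            ∫ x, AT h g v T x * (ub y T k x * y B x) ∂(PP μ N))) := by
  classical
  set a : (Fin N → R3) → ℝ := AT h g v T with ha
  set P : (Fin N → R3) → ℝ := fun x => Psi h Tᶜ x ^ 2 with hP
  set Pk : Fin N → (Fin N → R3) → ℝ := fun k x => Psi h (insert k T)ᶜ x ^ 2 with hPk
  have ha0 : ∀ x, 0 ≤ a x := AT_nonneg hE hT
  have haN : Nice T a := AT_nice hC hE T
  have hPN : Nice Tᶜ P := nice_sq (Psi_nice hC Tᶜ)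
  have hPkN : ∀ k, Nice (insert k T)ᶜ (Pk k) := fun k => nice_sq (Psi_nice hC _)
  have hP0 : ∀ x, 0 ≤ P x := fun x => sq_nonneg _
  have hPk0 : ∀ k x, 0 ≤ Pk k x := fun k x => sq_nonneg _
  have hub0 : ∀ k x, 0 ≤ ub y T k x := ub_nonneg hC T
  have hy0 := hC.y_nonneg
  have hun : (Finset.univ : Finset (Fin N)) \ T = Tᶜ := by rw [Finset.compl_eq_univ_sdiff]
  -- pointwise, step 1
  have hpt1 : ∀ x, edens g v T x * Psi h Finset.univ x ^ 2 ≤
      a x * P x + ∑ k ∈ Tᶜ, a x * uu h T k x * P x +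
        C1 * ((∑ k ∈ Tᶜ, ∑ l ∈ Tᶜ.erase k, a x * (ub y T k x * ub y T l x) * P x) +
          ∑ Q ∈ far4 T Finset.univ, a x * y Q x * P x) := by
    intro x
    have e1 := Psi_sq_eq hC (Finset.subset_univ T) x
    rw [hun] at e1
    have e2 := hsec T Finset.univ (Finset.subset_univ T) hT x
    rw [hun] at e2
    have haP : 0 ≤ a x * P x := mul_nonneg (ha0 x) (hP0 x)
    have e3 : edens g v T x * Psi h Finset.univ x ^ 2 =
        (a x * P x) * ratio h T Finset.univ x := by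
      rw [e1, ha, hP]
      unfold AT
      ring
    rw [e3]
    refine (mul_le_mul_of_nonneg_left e2 haP).trans (le_of_eq ?_)
    simp only [Finset.mul_sum, mul_add, mul_one]
    refine congrArg₂ _ (congrArg₂ _ rfl ?_) (congrArg₂ _ ?_ ?_)
    · exact Finset.sum_congr rfl fun k _ => by ring
    · refine Finset.sum_congr rfl fun k _ => Finset.sum_congr rfl fun l _ => ?_
      ring
    · exact Finset.sum_congr rfl fun k _ => by ring
  -- pointwise, step 2
  have hpt2 : ∀ k ∈ Tᶜ, ∀ x, a x * uu h T k x * P x ≤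
      a x * uu h T k x * Pk k x + (C3 * C4) * ∑ B ∈ link {k} Tᶜ,
        a x * (ub y T k x * y B x) * Pk k x := by
    intro k hk x
    have hkT : k ∉ T := Finset.mem_compl.1 hk
    have e1 : P x = Pk k x * ratio h {k} Tᶜ x := by
      have := Psi_sq_eq hC (Finset.singleton_subset_iff.2 hk) x
      rw [Psi_small (S := {k}) hC (by simp) x, ← compl_insert' T k] at this
      show Psi h Tᶜ x ^ 2 = Psi h (insert k T)ᶜ x ^ 2 * ratio h {k} Tᶜ x
      rw [this]; ring
    have e2 := hrat {k} Tᶜ (Finset.singleton_subset_iff.2 hk) (by simp) x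
    have e3 := (huu T k hT hkT x).1
    have hS0 : 0 ≤ ∑ B ∈ link {k} Tᶜ, y B x := Finset.sum_nonneg fun B _ => hy0 B x
    have haP : 0 ≤ a x * Pk k x := mul_nonneg (ha0 x) (hPk0 k x)
    have e4 : uu h T k x * (ratio h {k} Tᶜ x - 1) ≤
        (C3 * ub y T k x) * (C4 * ∑ B ∈ link {k} Tᶜ, y B x) := by
      calc uu h T k x * (ratio h {k} Tᶜ x - 1) ≤ |uu h T k x * (ratio h {k} Tᶜ x - 1)| :=
            le_abs_self _
        _ = |uu h T k x| * |ratio h {k} Tᶜ x - 1| := abs_mul _ _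
        _ ≤ _ := mul_le_mul e3 e2 (abs_nonneg _) (mul_nonneg h3.le (hub0 k x))
    have e5 : (C3 * C4) * ∑ B ∈ link {k} Tᶜ, a x * (ub y T k x * y B x) * Pk k x
        = (a x * Pk k x) * ((C3 * ub y T k x) * (C4 * ∑ B ∈ link {k} Tᶜ, y B x)) := by
      simp only [Finset.mul_sum]
      exact Finset.sum_congr rfl fun B _ => by ring
    rw [e5, e1]
    have e6 := mul_le_mul_of_nonneg_left e4 haP
    have e7 : a x * uu h T k x * (Pk k x * ratio h {k} Tᶜ x) =
        a x * uu h T k x * Pk k x + (a x * Pk k x) * (uu h T k x * (ratio h {k} Tᶜ x - 1)) := by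
      ring
    rw [e7]
    linarith
  -- niceness
  have hU : ∀ {A : Finset (Fin N)} {F : (Fin N → R3) → ℝ}, Nice A F → Nice Finset.univ F :=
    fun hF => hF.mono (Finset.subset_univ _)
  have nuu : ∀ k ∈ Tᶜ, Nice (insert k T) (uu h T k) := fun k hk =>
    uu_nice hC T k h3 fun x => (huu T k hT (Finset.mem_compl.1 hk) x).1
  have nub : ∀ k, Nice (insert k T) (ub y T k) := fun k => ub_nice hC T k
  have i1 : Integrable (fun x => a x * P x) (PP μ N) :=
    (nice_mul (hU haN) (hU hPN)).integrable μ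
  have i2 : ∀ k ∈ Tᶜ, Integrable (fun x => a x * uu h T k x * Pk k x) (PP μ N) := fun k hk =>
    (nice_mul (nice_mul (hU haN) (hU (nuu k hk))) (hU (hPkN k))).integrable μ
  have i3 : ∀ k B, Integrable (fun x => a x * (ub y T k x * y B x) * Pk k x) (PP μ N) :=
    fun k B => (nice_mul (nice_mul (hU haN) (nice_mul (hU (nub k)) (hU (hC.y_nice B))))
      (hU (hPkN k))).integrable μ
  have i4 : ∀ k l, Integrable (fun x => a x * (ub y T k x * ub y T l x) * P x) (PP μ N) :=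
    fun k l => (nice_mul (nice_mul (hU haN) (nice_mul (hU (nub k)) (hU (nub l))))
      (hU hPN)).integrable μ
  have i5 : ∀ Q, Integrable (fun x => a x * y Q x * P x) (PP μ N) := fun Q =>
    (nice_mul (nice_mul (hU haN) (hU (hC.y_nice Q))) (hU hPN)).integrable μ
  have i0 : Integrable (fun x => edens g v T x * Psi h Finset.univ x ^ 2) (PP μ N) :=
    (nice_mul (hU (edens_nice hE T)) (nice_sq (Psi_nice hC _))).integrable μ
  -- integrate
  set G2 : (Fin N → R3) → ℝ := fun x => ∑ k ∈ Tᶜ, (a x * uu h T k x * Pk k x + (C3 * C4) *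
          ∑ B ∈ link {k} Tᶜ, a x * (ub y T k x * y B x) * Pk k x) with hG2
  set G3 : (Fin N → R3) → ℝ := fun x =>
    ∑ k ∈ Tᶜ, ∑ l ∈ Tᶜ.erase k, a x * (ub y T k x * ub y T l x) * P x with hG3
  set G4 : (Fin N → R3) → ℝ := fun x => ∑ Q ∈ far4 T Finset.univ, a x * y Q x * P x with hG4
  have I2k : ∀ k ∈ Tᶜ, Integrable (fun x => a x * uu h T k x * Pk k x + (C3 * C4) *
          ∑ B ∈ link {k} Tᶜ, a x * (ub y T k x * y B x) * Pk k x) (PP μ N) := fun k hk =>
    (i2 k hk).add ((integrable_finsetSum _ fun B _ => i3 k B).const_mul _)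
  have I2 : Integrable G2 (PP μ N) := integrable_finsetSum _ I2k
  have I3k : ∀ k ∈ Tᶜ, Integrable (fun x => ∑ l ∈ Tᶜ.erase k,
      a x * (ub y T k x * ub y T l x) * P x) (PP μ N) := fun k _ =>
    integrable_finsetSum _ fun l _ => i4 k l
  have I3 : Integrable G3 (PP μ N) := integrable_finsetSum _ I3k
  have I4 : Integrable G4 (PP μ N) := integrable_finsetSum _ fun Q _ => i5 Q
  have I34 : Integrable (fun x => C1 * (G3 x + G4 x)) (PP μ N) := (I3.add I4).const_mul C1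
  have I12 : Integrable (fun x => a x * P x + G2 x) (PP μ N) := i1.add I2
  have hint : ∫ x, edens g v T x * Psi h Finset.univ x ^ 2 ∂(PP μ N) ≤
      ∫ x, ((a x * P x + G2 x) + C1 * (G3 x + G4 x)) ∂(PP μ N) := by
    apply integral_mono i0 (I12.add I34)
    intro x
    refine (hpt1 x).trans ?_
    exact add_le_add (add_le_add le_rfl (Finset.sum_le_sum fun k hk => hpt2 k hk x)) le_rfl
  refine hint.trans ?_
  have s1 : ∫ x, ((a x * P x + G2 x) + C1 * (G3 x + G4 x)) ∂(PP μ N) =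
      ∫ x, (a x * P x + G2 x) ∂(PP μ N) + ∫ x, C1 * (G3 x + G4 x) ∂(PP μ N) :=
    integral_add I12 I34
  have s2 : ∫ x, (a x * P x + G2 x) ∂(PP μ N) = ∫ x, a x * P x ∂(PP μ N) + ∫ x, G2 x ∂(PP μ N) :=
    integral_add i1 I2
  have s3 : ∫ x, C1 * (G3 x + G4 x) ∂(PP μ N) = C1 * (∫ x, G3 x ∂(PP μ N) + ∫ x, G4 x ∂(PP μ N)) := by
    rw [integral_const_mul, integral_add I3 I4]
  have s4 : ∫ x, G2 x ∂(PP μ N) = ∑ k ∈ Tᶜ, ∫ x, (a x * uu h T k x * Pk k x + (C3 * C4) *
          ∑ B ∈ link {k} Tᶜ, a x * (ub y T k x * y B x) * Pk k x) ∂(PP μ N) :=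
    integral_finsetSum _ I2k
  have s5 : ∫ x, G3 x ∂(PP μ N) = ∑ k ∈ Tᶜ, ∫ x, ∑ l ∈ Tᶜ.erase k,
      a x * (ub y T k x * ub y T l x) * P x ∂(PP μ N) := integral_finsetSum _ I3k
  have s6 : ∫ x, G4 x ∂(PP μ N) = ∑ Q ∈ far4 T Finset.univ, ∫ x, a x * y Q x * P x ∂(PP μ N) :=
    integral_finsetSum _ fun Q _ => i5 Q
  rw [s1, s2, s3, s4, s5, s6]
  have j1 : ∫ x, a x * P x ∂(PP μ N) = (∫ x, a x ∂(PP μ N)) * ZZ μ h Tᶜ := by
    rw [indep μ haN hPN disjoint_compl_right]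
    rfl
  have j2 : ∀ k ∈ Tᶜ, ∫ x, a x * uu h T k x * Pk k x ∂(PP μ N) =
      (∫ x, a x * uu h T k x ∂(PP μ N)) * ZZ μ h (insert k T)ᶜ := by
    intro k hk
    have hn : Nice (insert k T) (fun x => a x * uu h T k x) :=
      nice_mul (haN.mono (Finset.subset_insert k T)) (nuu k hk)
    rw [indep μ hn (hPkN k) disjoint_compl_right]
    rfl
  have hT3 : ∀ D : Finset (Fin N), D.card ≤ 7 → (T ∪ D).card ≤ 10 := fun D hD =>
    (Finset.card_union_le T D).trans (by omega)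
  have hcc : ∀ S : Finset (Fin N), Finset.univ \ Sᶜ = S := by
    intro S; ext j; simp
  have j3 : ∀ k ∈ Tᶜ, ∀ B ∈ link {k} Tᶜ,
      ∫ x, a x * (ub y T k x * y B x) * Pk k x ∂(PP μ N) ≤
        C2 * ZZ μ h Finset.univ * ∫ x, a x * (ub y T k x * y B x) ∂(PP μ N) := by
    intro k hk B hB
    by_cases hB5 : 5 < B.card
    · have hz : ∀ x, y B x = 0 := hC.y_zero B (Or.inr hB5)
      simp [hz]
    · have hn : Nice (insert k T ∪ B) (fun x => a x * (ub y T k x * y B x)) := by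
        have n1 : Nice (insert k T ∪ B) a :=
          haN.mono ((Finset.subset_insert k T).trans Finset.subset_union_left)
        exact nice_mul n1 ((nub k).mul (hC.y_nice B))
      have hcard : (insert k T ∪ B).card ≤ 10 := by
        refine (Finset.card_union_le _ _).trans ?_
        have := Finset.card_insert_le k T
        omega
      have hcard2 : (Finset.univ \ (insert k T)ᶜ).card ≤ 10 := by
        rw [hcc]
        have := Finset.card_insert_le k T
        omega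
      have := hker Finset.univ (insert k T)ᶜ (insert k T ∪ B) (Finset.subset_univ _) hcard2 hcard _
        hn (fun x => mul_nonneg (ha0 x) (mul_nonneg (hub0 k x) (hy0 B x)))
      refine this.trans (le_of_eq ?_)
      ring
  have j4 : ∀ k l, ∫ x, a x * (ub y T k x * ub y T l x) * P x ∂(PP μ N) ≤
        C2 * ZZ μ h Finset.univ * ∫ x, a x * (ub y T k x * ub y T l x) ∂(PP μ N) := by
    intro k l
    have hn : Nice (insert k T ∪ insert l T) (fun x => a x * (ub y T k x * ub y T l x)) := by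
      have n1 : Nice (insert k T ∪ insert l T) a :=
        haN.mono ((Finset.subset_insert k T).trans Finset.subset_union_left)
      exact nice_mul n1 ((nub k).mul (nub l))
    have hcard : (insert k T ∪ insert l T).card ≤ 10 := by
      refine (Finset.card_union_le _ _).trans ?_
      have := Finset.card_insert_le k T
      have := Finset.card_insert_le l T
      omega
    have hcard2 : (Finset.univ \ Tᶜ).card ≤ 10 := by
      rw [hcc]; omega
    have := hker Finset.univ Tᶜ (insert k T ∪ insert l T) (Finset.subset_univ _) hcard2 hcard _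
      hn (fun x => mul_nonneg (ha0 x) (mul_nonneg (hub0 k x) (hub0 l x)))
    refine this.trans (le_of_eq ?_)
    ring
  have j5 : ∀ Q ∈ far4 T Finset.univ, ∫ x, a x * y Q x * P x ∂(PP μ N) ≤
        C2 * ZZ μ h Finset.univ * ∫ x, a x * y Q x ∂(PP μ N) := by
    intro Q hQ
    have hQ4 : Q.card = 4 := (Finset.mem_filter.1 hQ).2.1
    have hn : Nice (T ∪ Q) (fun x => a x * y Q x) := haN.mul (hC.y_nice Q)
    have hcard : (T ∪ Q).card ≤ 10 := hT3 Q (by omega)
    have hcard2 : (Finset.univ \ Tᶜ).card ≤ 10 := by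
      rw [hcc]; omega
    have := hker Finset.univ Tᶜ (T ∪ Q) (Finset.subset_univ _) hcard2 hcard _
      hn (fun x => mul_nonneg (ha0 x) (hy0 Q x))
    refine this.trans (le_of_eq ?_)
    ring
  have k2 : ∀ k ∈ Tᶜ, ∫ x, (a x * uu h T k x * Pk k x + (C3 * C4) *
          ∑ B ∈ link {k} Tᶜ, a x * (ub y T k x * y B x) * Pk k x) ∂(PP μ N) ≤
      (∫ x, a x * uu h T k x ∂(PP μ N)) * ZZ μ h (insert k T)ᶜ +
        (C2 * C3 * C4) * ZZ μ h Finset.univ * ∑ B ∈ link {k} Tᶜ,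
          ∫ x, a x * (ub y T k x * y B x) ∂(PP μ N) := by
    intro k hk
    rw [integral_add (i2 k hk) ((integrable_finsetSum _ fun B _ => i3 k B).const_mul _),
      integral_const_mul, integral_finsetSum _ (fun B _ => i3 k B), j2 k hk]
    refine add_le_add le_rfl ?_
    calc C3 * C4 * ∑ B ∈ link {k} Tᶜ, ∫ x, a x * (ub y T k x * y B x) * Pk k x ∂(PP μ N)
        ≤ C3 * C4 * ∑ B ∈ link {k} Tᶜ, C2 * ZZ μ h Finset.univ *
            ∫ x, a x * (ub y T k x * y B x) ∂(PP μ N) :=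
          mul_le_mul_of_nonneg_left (Finset.sum_le_sum fun B hB => j3 k hk B hB) (by positivity)
      _ = (C2 * C3 * C4) * ZZ μ h Finset.univ * ∑ B ∈ link {k} Tᶜ,
          ∫ x, a x * (ub y T k x * y B x) ∂(PP μ N) := by
          rw [← Finset.mul_sum]; ring
  have k2s := Finset.sum_le_sum k2
  rw [Finset.sum_add_distrib, ← Finset.mul_sum] at k2s
  have k4 : ∑ k ∈ Tᶜ, ∫ x, ∑ l ∈ Tᶜ.erase k,
      a x * (ub y T k x * ub y T l x) * P x ∂(PP μ N) ≤
      C2 * ZZ μ h Finset.univ * ∑ k ∈ Tᶜ, ∑ l ∈ Tᶜ.erase k,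
        ∫ x, a x * (ub y T k x * ub y T l x) ∂(PP μ N) := by
    rw [Finset.mul_sum]
    refine Finset.sum_le_sum fun k _ => ?_
    rw [integral_finsetSum _ (fun l _ => i4 k l), Finset.mul_sum]
    exact Finset.sum_le_sum fun l _ => j4 k l
  have k5 : ∑ Q ∈ far4 T Finset.univ, ∫ x, a x * y Q x * P x ∂(PP μ N) ≤
      C2 * ZZ μ h Finset.univ * ∑ Q ∈ far4 T Finset.univ, ∫ x, a x * y Q x ∂(PP μ N) := by
    rw [Finset.mul_sum]
    exact Finset.sum_le_sum fun Q hQ => j5 Q hQ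
  rw [j1]
  have k45 := mul_le_mul_of_nonneg_left (add_le_add k4 k5) h1.le
  refine (add_le_add (add_le_add le_rfl k2s) k45).trans (le_of_eq ?_)
  ring

end CluD3Aux

open CluD3Aux

/-- Part (iii): the three-particle part. `edens_T Psi_univ² = A_T Psi_{Tᶜ}² ratio`, `ratio_second`;
`E[A_T Psi_{Tᶜ}²] = E[A_T] Z_{Tᶜ}`; in the term with `u_k` replace `Psi_{Tᶜ}²` by
`Psi_{(T∪k)ᶜ}²` (`ratio_sub_one` with `A = {k}`, `S = Tᶜ`). -/
theorem part_three (c M : ℝ) (hc : 0 < c) (hM : 1 ≤ M) : ∃ C > 0, ∀ (μ : Measure R3)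
    [IsProbabilityMeasure μ] (N : ℕ) (h y : Finset (Fin N) → (Fin N → R3) → ℝ), Clu h y c M →
    ∀ (g : Finset (Fin N) → Fin N → Fin 3 → (Fin N → R3) → ℝ)
      (K v : Finset (Fin N) → (Fin N → R3) → ℝ), EDat g K v →
      ∀ ε ≥ 0, (∀ i : Fin N, ∑ B ∈ Finset.univ.filter (fun B : Finset (Fin N) => i ∈ B),
        ∫ x, y B x ∂(PP μ N) ≤ ε) → C * ε ≤ 1 →
      ∑ T ∈ Finset.univ.powersetCard 3,
          ∫ x, edens g v T x * Psi h Finset.univ x ^ 2 ∂(PP μ N) ≤
        (∑ T ∈ Finset.univ.powersetCard 3, (∫ x, AT h g v T x ∂(PP μ N)) * ZZ μ h Tᶜ) +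
        (∑ T ∈ Finset.univ.powersetCard 3, ∑ k ∈ Tᶜ,
          (∫ x, AT h g v T x * uu h T k x ∂(PP μ N)) * ZZ μ h (insert k T)ᶜ) +
        C * ZZ μ h Finset.univ * (
          (∑ T ∈ Finset.univ.powersetCard 3, ∑ k ∈ Tᶜ, ∑ l ∈ Tᶜ.erase k,
            ∫ x, AT h g v T x * (ub y T k x * ub y T l x) ∂(PP μ N)) +
          (∑ T ∈ Finset.univ.powersetCard 3, ∑ Q ∈ far4 T Finset.univ,
            ∫ x, AT h g v T x * y Q x ∂(PP μ N)) +
          (∑ T ∈ Finset.univ.powersetCard 3, ∑ k ∈ Tᶜ, ∑ B ∈ link {k} Tᶜ,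
            ∫ x, AT h g v T x * (ub y T k x * y B x) ∂(PP μ N))) := by
  classical
  obtain ⟨C1, h1, hsec⟩ := ratio_second c M hc hM
  obtain ⟨C2, h2, hker⟩ := kernel_le c M hc hM 10
  obtain ⟨C3, h3, huu⟩ := abs_uu_le c M hc hM
  obtain ⟨C4, h4, hrat⟩ := ratio_sub_one c M hc hM 1
  refine ⟨C2 + C1 * C2 + C2 * C3 * C4, by positivity, ?_⟩
  intro μ _ N h y hC g K v hE ε hε hy hCε
  have hCε2 : C2 * ε ≤ 1 := by
    refine le_trans (mul_le_mul_of_nonneg_right ?_ hε) hCε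
    have : 0 < C1 * C2 := by positivity
    have : 0 < C2 * C3 * C4 := by positivity
    linarith
  have hone := fun T (hT : T.card = 3) => one_T μ hC hE h1 h2 h3 h4 (hsec N h y hC)
    (fun S S' A a1 a2 a3 F a4 a5 => hker μ N h y hC ε hε hy hCε2 S S' A a1 a2 a3 F a4 a5)
    (huu N h y hC) (hrat N h y hC) T hT
  have hZ0 : 0 ≤ ZZ μ h Finset.univ := integral_nonneg fun x => sq_nonneg _
  set C := C2 + C1 * C2 + C2 * C3 * C4 with hCdef
  have hCa : C1 * C2 ≤ C := by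
    have : 0 < C2 * C3 * C4 := by positivity
    linarith
  have hCb : C2 * C3 * C4 ≤ C := by
    have : 0 < C1 * C2 := by positivity
    linarith
  have hsum := Finset.sum_le_sum (s := (Finset.univ : Finset (Fin N)).powersetCard 3)
    fun T hT => hone T (Finset.mem_powersetCard.1 hT).2
  refine hsum.trans ?_
  rw [Finset.sum_add_distrib, Finset.sum_add_distrib]
  refine add_le_add le_rfl ?_
  rw [Finset.sum_add_distrib, Finset.sum_add_distrib, ← Finset.mul_sum, ← Finset.mul_sum,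
    ← Finset.mul_sum]
  have n0 : ∀ T ∈ (Finset.univ : Finset (Fin N)).powersetCard 3, ∀ x, 0 ≤ AT h g v T x :=
    fun T hT => AT_nonneg hE (Finset.mem_powersetCard.1 hT).2
  have n1 : 0 ≤ ∑ T ∈ (Finset.univ : Finset (Fin N)).powersetCard 3, ∑ k ∈ Tᶜ, ∑ l ∈ Tᶜ.erase k,
            ∫ x, AT h g v T x * (ub y T k x * ub y T l x) ∂(PP μ N) :=
    Finset.sum_nonneg fun T hT => Finset.sum_nonneg fun k _ => Finset.sum_nonneg fun l _ =>
      integral_nonneg fun x => mul_nonneg (n0 T hT x)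
        (mul_nonneg (ub_nonneg hC T k x) (ub_nonneg hC T l x))
  have n2 : 0 ≤ ∑ T ∈ (Finset.univ : Finset (Fin N)).powersetCard 3, ∑ Q ∈ far4 T Finset.univ,
            ∫ x, AT h g v T x * y Q x ∂(PP μ N) :=
    Finset.sum_nonneg fun T hT => Finset.sum_nonneg fun Q _ =>
      integral_nonneg fun x => mul_nonneg (n0 T hT x) (hC.y_nonneg Q x)
  have n3 : 0 ≤ ∑ T ∈ (Finset.univ : Finset (Fin N)).powersetCard 3, ∑ k ∈ Tᶜ,
      ∑ B ∈ link {k} Tᶜ, ∫ x, AT h g v T x * (ub y T k x * y B x) ∂(PP μ N) :=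
    Finset.sum_nonneg fun T hT => Finset.sum_nonneg fun k _ => Finset.sum_nonneg fun B _ =>
      integral_nonneg fun x => mul_nonneg (n0 T hT x)
        (mul_nonneg (ub_nonneg hC T k x) (hC.y_nonneg B x))
  rw [mul_add, mul_add]
  refine add_le_add (add_le_add ?_ ?_) ?_
  · exact mul_le_mul_of_nonneg_right (mul_le_mul_of_nonneg_right hCa hZ0) n1
  · exact mul_le_mul_of_nonneg_right (mul_le_mul_of_nonneg_right hCa hZ0) n2
  · exact mul_le_mul_of_nonneg_right (mul_le_mul_of_nonneg_right hCb hZ0) n3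

end Pool.Agent.Lib.MP_5db8e2_mp
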