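import Pool.Agent.Lib.MP_5db8e2_mp.CluD2
import Pool.Agent.Lib.MP_5db8e2_mp.CluD3

/-!
# Abstract cluster estimates: the energy, part 4 (assembly)
-/

set_option autoImplicit false

open MeasureTheory Filter Topology

namespace Pool.Agent.Lib.MP_5db8e2_mp

namespace EAbs

variable {N : ℕ}
variable {g : Finset (Fin N) → Fin N → Fin 3 → (Fin N → R3) → ℝ}
  {K v : Finset (Fin N) → (Fin N → R3) → ℝ}

theorem edens_nonneg (hE : EDat g K v) (S : Finset (Fin N)) (x : Fin N → R3) :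
    0 ≤ edens g v S x := by
  unfold edens
  refine add_nonneg ?_ (Finset.sum_nonneg fun B _ => hE.v_nonneg B x)
  exact Finset.sum_nonneg fun i _ => Finset.sum_nonneg fun a _ => sq_nonneg _

theorem nmul {A : Finset (Fin N)} {F G : (Fin N → R3) → ℝ} (h : Nice A F)
    (h' : Nice A G) : Nice A (fun x => F x * G x) := by
  have := h.mul h'
  rwa [Finset.union_self] at this

theorem nadd {A : Finset (Fin N)} {F G : (Fin N → R3) → ℝ} (h : Nice A F)
    (h' : Nice A G) : Nice A (fun x => F x + G x) := by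
  have := h.add h'
  rwa [Finset.union_self] at this

theorem edens_nice (hE : EDat g K v) (S : Finset (Fin N)) : Nice S (edens g v S) := by
  have h1 : ∀ i a, Nice S (fun x => ∑ B ∈ S.powerset, g B i a x) := fun i a =>
    Nice.sum fun B hB => (hE.g_nice B i a).mono (Finset.mem_powerset.1 hB)
  have h2 : Nice S (fun x => ∑ i, ∑ a, (∑ B ∈ S.powerset, g B i a x) ^ 2) := by
    refine Nice.sum fun i _ => Nice.sum fun a _ => ?_
    have := nmul (h1 i a) (h1 i a)
    simpa only [pow_two] using this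
  have h3 : Nice S (fun x => ∑ B ∈ S.powerset, v B x) :=
    Nice.sum fun B hB => (hE.v_nice B).mono (Finset.mem_powerset.1 hB)
  exact nadd h2 h3

theorem Psi_sq_nice {h y : Finset (Fin N) → (Fin N → R3) → ℝ} {c M : ℝ} (hC : Clu h y c M)
    (S : Finset (Fin N)) : Nice S (fun x => Psi h S x ^ 2) := by
  have := nmul (Psi_nice hC S) (Psi_nice hC S)
  simpa only [pow_two] using this

theorem AT_nice {h y : Finset (Fin N) → (Fin N → R3) → ℝ} {c M : ℝ} (hC : Clu h y c M)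
    (hE : EDat g K v) (T : Finset (Fin N)) : Nice T (AT h g v T) :=
  nmul (edens_nice hE T) (Psi_sq_nice hC T)

theorem AT_nonneg (h : Finset (Fin N) → (Fin N → R3) → ℝ)
    (hE : EDat g K v) (T : Finset (Fin N)) (x : Fin N → R3) : 0 ≤ AT h g v T x :=
  mul_nonneg (edens_nonneg hE T x) (sq_nonneg _)

theorem AT_uu {h y : Finset (Fin N) → (Fin N → R3) → ℝ} {c M : ℝ} (hC : Clu h y c M)
    (T : Finset (Fin N)) (k : Fin N) (x : Fin N → R3) :
    AT h g v T x * uu h T k x =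
      edens g v T x * Psi h (insert k T) x ^ 2 - edens g v T x * Psi h T x ^ 2 := by
  unfold AT uu
  have hp : Psi h T x ≠ 0 := (Psi_pos hC T x).ne'
  field_simp

theorem AT_uu_integrable (μ : Measure R3) [IsProbabilityMeasure μ]
    {h y : Finset (Fin N) → (Fin N → R3) → ℝ} {c M : ℝ} (hC : Clu h y c M)
    (hE : EDat g K v) (T : Finset (Fin N)) (k : Fin N) :
    Integrable (fun x => AT h g v T x * uu h T k x) (PP μ N) := by
  have e : (fun x => AT h g v T x * uu h T k x) = fun x =>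
      edens g v T x * Psi h (insert k T) x ^ 2 - edens g v T x * Psi h T x ^ 2 :=
    funext fun x => AT_uu hC T k x
  rw [e]
  have h1 := (((edens_nice hE T).mul (Psi_sq_nice hC (insert k T))).integrable μ)
  have h2 := (((edens_nice hE T).mul (Psi_sq_nice hC T)).integrable μ)
  exact h1.sub h2

theorem sum_pairs (F : Finset (Fin N) → Fin N → ℝ) :
    ∑ T ∈ (Finset.univ : Finset (Fin N)).powersetCard 3, ∑ k ∈ Tᶜ, F T k =
      ∑ Q ∈ (Finset.univ : Finset (Fin N)).powersetCard 4, ∑ k ∈ Q, F (Q.erase k) k := by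
  classical
  rw [Finset.sum_sigma', Finset.sum_sigma']
  refine Finset.sum_bij' (fun p _ => (⟨insert p.2 p.1, p.2⟩ : Σ _ : Finset (Fin N), Fin N))
    (fun q _ => (⟨q.1.erase q.2, q.2⟩ : Σ _ : Finset (Fin N), Fin N)) ?_ ?_ ?_ ?_ ?_
  · rintro ⟨T, k⟩ hp
    simp only [Finset.mem_sigma, Finset.mem_powersetCard, Finset.mem_compl, Finset.subset_univ,
      true_and, Finset.mem_insert, true_or, and_true] at hp ⊢
    rw [Finset.card_insert_of_notMem hp.2, hp.1]
  · rintro ⟨Q, k⟩ hq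
    simp only [Finset.mem_sigma, Finset.mem_powersetCard, Finset.mem_compl, Finset.subset_univ,
      true_and, Finset.mem_erase, ne_eq, not_true_eq_false, false_and, not_false_eq_true,
      and_true] at hq ⊢
    rw [Finset.card_erase_of_mem hq.2, hq.1]
  · rintro ⟨T, k⟩ hp
    simp only [Finset.mem_sigma, Finset.mem_compl] at hp
    simp only [Finset.erase_insert hp.2]
  · rintro ⟨Q, k⟩ hq
    simp only [Finset.mem_sigma] at hq
    simp only [Finset.insert_erase hq.2]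
  · rintro ⟨T, k⟩ hp
    simp only [Finset.mem_sigma, Finset.mem_compl] at hp
    simp only [Finset.erase_insert hp.2]

theorem integral_BQ (μ : Measure R3) [IsProbabilityMeasure μ]
    {h y : Finset (Fin N) → (Fin N → R3) → ℝ} {c M : ℝ} (hC : Clu h y c M)
    (hE : EDat g K v) {Q : Finset (Fin N)} (hQ : Q.card = 4) :
    ∫ x, BQ h g v Q x ∂(PP μ N) = (∫ x, GU g Q x * Psi h Q x ^ 2 ∂(PP μ N)) +
      ∑ k ∈ Q, ∫ x, AT h g v (Q.erase k) x * uu h (Q.erase k) k x ∂(PP μ N) := by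
  have e : (fun x => BQ h g v Q x) = fun x => GU g Q x * Psi h Q x ^ 2 +
      ∑ k ∈ Q, AT h g v (Q.erase k) x * uu h (Q.erase k) k x := funext fun x => BQ_eq hC hE hQ x
  rw [e, integral_add, integral_finsetSum]
  · intro k _
    exact AT_uu_integrable μ hC hE (Q.erase k) k
  · exact ((GU_nice hE Q).mul (Psi_sq_nice hC Q)).integrable μ
  · exact integrable_finsetSum _ fun k _ => AT_uu_integrable μ hC hE (Q.erase k) k

theorem sum_card_eq (n : ℕ) (F : Finset (Fin N) → ℝ) :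
    ∑ U : Finset (Fin N), (if U.card = n then F U else 0) =
      ∑ T ∈ (Finset.univ : Finset (Fin N)).powersetCard n, F T := by
  classical
  rw [← Finset.sum_filter, Finset.powersetCard_eq_filter, Finset.powerset_univ]

/-- The splitting of the energy according to the size of the union. -/
theorem energy_split (μ : Measure R3) [IsProbabilityMeasure μ]
    {h y : Finset (Fin N) → (Fin N → R3) → ℝ} {c M : ℝ} (hC : Clu h y c M)
    (hE : EDat g K v) :
    ∫ x, edens g v Finset.univ x * Psi h Finset.univ x ^ 2 ∂(PP μ N) =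
      (∑ T ∈ (Finset.univ : Finset (Fin N)).powersetCard 3,
        ∫ x, edens g v T x * Psi h Finset.univ x ^ 2 ∂(PP μ N)) +
      (∑ Q ∈ (Finset.univ : Finset (Fin N)).powersetCard 4,
        ∫ x, GU g Q x * Psi h Finset.univ x ^ 2 ∂(PP μ N)) +
      ∑ U : Finset (Fin N), (if 5 ≤ U.card then
        ∫ x, GU g U x * Psi h Finset.univ x ^ 2 ∂(PP μ N) else 0) := by
  classical
  have e : (fun x => edens g v Finset.univ x * Psi h Finset.univ x ^ 2) = fun x =>
      ∑ U : Finset (Fin N), (GU g U x + v U x) * Psi h Finset.univ x ^ 2 := by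
    funext x
    rw [edens_eq hE Finset.univ x, Finset.powerset_univ, Finset.sum_mul]
  have hU : ∀ U : Finset (Fin N), Nice U (fun x => GU g U x + v U x) := fun U =>
    nadd (GU_nice hE U) (hE.v_nice U)
  rw [e, integral_finsetSum]
  · rw [← sum_card_eq 3, ← sum_card_eq 4, ← Finset.sum_add_distrib, ← Finset.sum_add_distrib]
    refine Finset.sum_congr rfl fun U _ => ?_
    by_cases h3 : U.card < 3
    · have h0 : (fun x => (GU g U x + v U x) * Psi h Finset.univ x ^ 2) = fun _ => 0 := by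
        funext x
        rw [GU_card hE h3 x, hE.v_card U (by omega) x, add_zero, zero_mul]
      rw [h0, integral_zero, if_neg (by omega), if_neg (by omega), if_neg (by omega)]
      simp
    · by_cases h3' : U.card = 3
      · rw [if_pos h3', if_neg (by omega), if_neg (by omega), add_zero, add_zero]
        refine integral_congr_ae (Filter.Eventually.of_forall fun x => ?_)
        simp only
        rw [(edens_three hE h3' x).1]
      · have h0 : (fun x => (GU g U x + v U x) * Psi h Finset.univ x ^ 2) = fun x =>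
            GU g U x * Psi h Finset.univ x ^ 2 := by
          funext x
          rw [hE.v_card U h3' x, add_zero]
        rw [h0, if_neg h3']
        by_cases h4 : U.card = 4
        · rw [if_pos h4, if_neg (by omega), zero_add, add_zero]
        · rw [if_neg h4, if_pos (by omega), zero_add, zero_add]
  · intro U _
    exact ((hU U).mul (Psi_sq_nice hC Finset.univ)).integrable μ

theorem KU_nonneg (hE : EDat g K v) (U : Finset (Fin N)) (x : Fin N → R3) : 0 ≤ KU K U x :=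
  Finset.sum_nonneg fun B _ => Finset.sum_nonneg fun B' _ =>
    mul_nonneg (K_nonneg hE B x) (K_nonneg hE B' x)

theorem ub_nonneg {h y : Finset (Fin N) → (Fin N → R3) → ℝ} {c M : ℝ} (hC : Clu h y c M)
    (T : Finset (Fin N)) (k : Fin N) (x : Fin N → R3) : 0 ≤ ub y T k x :=
  Finset.sum_nonneg fun B _ => hC.y_nonneg B x

/-- The abstract energy bound. -/
theorem energy_abs' (c M : ℝ) (hc : 0 < c) (hM : 1 ≤ M) : ∃ C > 0, ∀ (μ : Measure R3)
    [IsProbabilityMeasure μ] (N : ℕ) (h y : Finset (Fin N) → (Fin N → R3) → ℝ), Clu h y c M →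
    ∀ (g : Finset (Fin N) → Fin N → Fin 3 → (Fin N → R3) → ℝ)
      (K v : Finset (Fin N) → (Fin N → R3) → ℝ), EDat g K v →
      ∀ ε ≥ 0, (∀ i : Fin N, ∑ B ∈ Finset.univ.filter (fun B : Finset (Fin N) => i ∈ B),
        ∫ x, y B x ∂(PP μ N) ≤ ε) → C * ε ≤ 1 →
      ∫ x, edens g v Finset.univ x * Psi h Finset.univ x ^ 2 ∂(PP μ N) ≤
        ZZ μ h Finset.univ * (
          (∑ T ∈ Finset.univ.powersetCard 3, ∫ x, AT h g v T x ∂(PP μ N)) +
          (∑ Q ∈ Finset.univ.powersetCard 4, ∫ x, BQ h g v Q x ∂(PP μ N)) +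
          C * (ε * (∑ T ∈ Finset.univ.powersetCard 3, ∫ x, AT h g v T x ∂(PP μ N)) +
            ε * (∑ Q ∈ Finset.univ.powersetCard 4, |∫ x, BQ h g v Q x ∂(PP μ N)|) +
            errS μ h y g K v)) := by
  obtain ⟨C5, hC5, H5⟩ := part_five c M hc hM
  obtain ⟨C4, hC4, H4⟩ := part_four c M hc hM
  obtain ⟨C3, hC3, H3⟩ := part_three c M hc hM
  obtain ⟨CZ, hCZ, HZ⟩ := Z_ratio c M hc hM 4
  refine ⟨C5 + C4 + C3 + CZ, by positivity, ?_⟩
  intro μ _ N h y hC g K v hE ε hε hy hCε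
  have h5ε : C5 * ε ≤ 1 := le_trans (mul_le_mul_of_nonneg_right (by linarith) hε) hCε
  have h4ε : C4 * ε ≤ 1 := le_trans (mul_le_mul_of_nonneg_right (by linarith) hε) hCε
  have h3ε : C3 * ε ≤ 1 := le_trans (mul_le_mul_of_nonneg_right (by linarith) hε) hCε
  have hZε : CZ * ε ≤ 1 := le_trans (mul_le_mul_of_nonneg_right (by linarith) hε) hCε
  have h5 := H5 μ N h y hC g K v hE ε hε hy h5ε
  have h4 := H4 μ N h y hC g K v hE ε hε hy h4ε
  have h3 := H3 μ N h y hC g K v hE ε hε hy h3ε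
  have hZ : ∀ A : Finset (Fin N), A.card ≤ 4 →
      |ZZ μ h Aᶜ - ZZ μ h Finset.univ| ≤ CZ * ε * ZZ μ h Finset.univ := by
    intro A hA
    have := (HZ μ N h y hC ε hε hy hZε Finset.univ A (Finset.subset_univ A) hA).2.2
    rwa [← Finset.compl_eq_univ_sdiff] at this
  have hZ0 : 0 < ZZ μ h Finset.univ :=
    (HZ μ N h y hC ε hε hy hZε Finset.univ ∅ (Finset.subset_univ _) (by simp)).1
  set Z : ℝ := ZZ μ h Finset.univ with hZdef
  -- the five error sums
  set E5 : ℝ := ∑ U : Finset (Fin N), (if 5 ≤ U.card then ∫ x, KU K U x ∂(PP μ N) else 0) with hE5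
  set E4 : ℝ := ∑ Q ∈ Finset.univ.powersetCard 4, ∑ B ∈ link Q Finset.univ,
    ∫ x, KU K Q x * y B x ∂(PP μ N) with hE4
  set E3a : ℝ := ∑ T ∈ Finset.univ.powersetCard 3, ∑ k ∈ Tᶜ, ∑ l ∈ Tᶜ.erase k,
    ∫ x, AT h g v T x * (ub y T k x * ub y T l x) ∂(PP μ N) with hE3a
  set E3b : ℝ := ∑ T ∈ Finset.univ.powersetCard 3, ∑ Q ∈ far4 T Finset.univ,
    ∫ x, AT h g v T x * y Q x ∂(PP μ N) with hE3b
  set E3c : ℝ := ∑ T ∈ Finset.univ.powersetCard 3, ∑ k ∈ Tᶜ, ∑ B ∈ link {k} Tᶜ,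
    ∫ x, AT h g v T x * (ub y T k x * y B x) ∂(PP μ N) with hE3c
  have herr : errS μ h y g K v = E5 + E4 + E3a + E3b + E3c := rfl
  have n5 : 0 ≤ E5 := Finset.sum_nonneg fun U _ => by
    split_ifs
    · exact integral_nonneg fun x => KU_nonneg hE U x
    · exact le_rfl
  have n4 : 0 ≤ E4 := Finset.sum_nonneg fun Q _ => Finset.sum_nonneg fun B _ =>
    integral_nonneg fun x => mul_nonneg (KU_nonneg hE Q x) (hC.y_nonneg B x)
  have n3a : 0 ≤ E3a := Finset.sum_nonneg fun T _ => Finset.sum_nonneg fun k _ =>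
    Finset.sum_nonneg fun l _ => integral_nonneg fun x =>
      mul_nonneg (AT_nonneg h hE T x) (mul_nonneg (ub_nonneg hC T k x) (ub_nonneg hC T l x))
  have n3b : 0 ≤ E3b := Finset.sum_nonneg fun T _ => Finset.sum_nonneg fun Q _ =>
    integral_nonneg fun x => mul_nonneg (AT_nonneg h hE T x) (hC.y_nonneg Q x)
  have n3c : 0 ≤ E3c := Finset.sum_nonneg fun T _ => Finset.sum_nonneg fun k _ =>
    Finset.sum_nonneg fun B _ => integral_nonneg fun x =>
      mul_nonneg (AT_nonneg h hE T x) (mul_nonneg (ub_nonneg hC T k x) (hC.y_nonneg B x))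
  -- the three-particle main term
  have hA : ∑ T ∈ Finset.univ.powersetCard 3, (∫ x, AT h g v T x ∂(PP μ N)) * ZZ μ h Tᶜ ≤
      Z * (∑ T ∈ Finset.univ.powersetCard 3, ∫ x, AT h g v T x ∂(PP μ N)) +
      CZ * ε * Z * (∑ T ∈ Finset.univ.powersetCard 3, ∫ x, AT h g v T x ∂(PP μ N)) := by
    rw [Finset.mul_sum, Finset.mul_sum, ← Finset.sum_add_distrib]
    refine Finset.sum_le_sum fun T hT => ?_
    have hc3 : T.card ≤ 4 := by
      have := (Finset.mem_powersetCard.1 hT).2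
      omega
    have h1 := (abs_le.1 (hZ T hc3)).2
    have h2 : 0 ≤ ∫ x, AT h g v T x ∂(PP μ N) := integral_nonneg fun x => AT_nonneg h hE T x
    nlinarith
  -- the four-particle main term
  have hpairs : ∑ T ∈ Finset.univ.powersetCard 3, ∑ k ∈ Tᶜ,
      (∫ x, AT h g v T x * uu h T k x ∂(PP μ N)) * ZZ μ h (insert k T)ᶜ =
      ∑ Q ∈ Finset.univ.powersetCard 4, ∑ k ∈ Q,
        (∫ x, AT h g v (Q.erase k) x * uu h (Q.erase k) k x ∂(PP μ N)) * ZZ μ h Qᶜ := by
    rw [sum_pairs (fun T k => (∫ x, AT h g v T x * uu h T k x ∂(PP μ N)) * ZZ μ h (insert k T)ᶜ)]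
    refine Finset.sum_congr rfl fun Q _ => Finset.sum_congr rfl fun k hk => ?_
    rw [Finset.insert_erase hk]
  have hBsum : (∑ Q ∈ Finset.univ.powersetCard 4, (∫ x, GU g Q x * Psi h Q x ^ 2 ∂(PP μ N)) *
      ZZ μ h Qᶜ) + (∑ T ∈ Finset.univ.powersetCard 3, ∑ k ∈ Tᶜ,
      (∫ x, AT h g v T x * uu h T k x ∂(PP μ N)) * ZZ μ h (insert k T)ᶜ) =
      ∑ Q ∈ Finset.univ.powersetCard 4, (∫ x, BQ h g v Q x ∂(PP μ N)) * ZZ μ h Qᶜ := by
    rw [hpairs, ← Finset.sum_add_distrib]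
    refine Finset.sum_congr rfl fun Q hQ => ?_
    rw [integral_BQ μ hC hE (Finset.mem_powersetCard.1 hQ).2, add_mul, Finset.sum_mul]
  have hB : ∑ Q ∈ Finset.univ.powersetCard 4, (∫ x, BQ h g v Q x ∂(PP μ N)) * ZZ μ h Qᶜ ≤
      Z * (∑ Q ∈ Finset.univ.powersetCard 4, ∫ x, BQ h g v Q x ∂(PP μ N)) +
      CZ * ε * Z * (∑ Q ∈ Finset.univ.powersetCard 4, |∫ x, BQ h g v Q x ∂(PP μ N)|) := by
    rw [Finset.mul_sum, Finset.mul_sum, ← Finset.sum_add_distrib]
    refine Finset.sum_le_sum fun Q hQ => ?_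
    have hc4 : Q.card ≤ 4 := (Finset.mem_powersetCard.1 hQ).2.le
    have h1 := hZ Q hc4
    set b : ℝ := ∫ x, BQ h g v Q x ∂(PP μ N) with hb
    have h2 : b * (ZZ μ h Qᶜ - Z) ≤ |b| * (CZ * ε * Z) := by
      refine (le_abs_self _).trans ?_
      rw [abs_mul]
      exact mul_le_mul_of_nonneg_left h1 (abs_nonneg b)
    nlinarith
  rw [energy_split μ hC hE, herr]
  set SA : ℝ := ∑ T ∈ Finset.univ.powersetCard 3, ∫ x, AT h g v T x ∂(PP μ N) with hSA
  set SB : ℝ := ∑ Q ∈ Finset.univ.powersetCard 4, ∫ x, BQ h g v Q x ∂(PP μ N) with hSB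
  set SC : ℝ := ∑ Q ∈ Finset.univ.powersetCard 4, |∫ x, BQ h g v Q x ∂(PP μ N)| with hSC
  have nSA : 0 ≤ SA := Finset.sum_nonneg fun T _ => integral_nonneg fun x => AT_nonneg h hE T x
  have nSC : 0 ≤ SC := Finset.sum_nonneg fun Q _ => abs_nonneg _
  have m1 : CZ * ε * Z * SA ≤ (C5 + C4 + C3 + CZ) * (ε * SA) * Z := by
    have : 0 ≤ (C5 + C4 + C3) * (ε * SA * Z) := by positivity
    nlinarith
  have m2 : CZ * ε * Z * SC ≤ (C5 + C4 + C3 + CZ) * (ε * SC) * Z := by
    have : 0 ≤ (C5 + C4 + C3) * (ε * SC * Z) := by positivity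
    nlinarith
  have m5 : C5 * Z * E5 ≤ (C5 + C4 + C3 + CZ) * E5 * Z := by
    have : 0 ≤ (CZ + C4 + C3) * (E5 * Z) := by positivity
    nlinarith
  have m4 : C4 * Z * E4 ≤ (C5 + C4 + C3 + CZ) * E4 * Z := by
    have : 0 ≤ (C5 + CZ + C3) * (E4 * Z) := by positivity
    nlinarith
  have m3 : C3 * Z * (E3a + E3b + E3c) ≤ (C5 + C4 + C3 + CZ) * (E3a + E3b + E3c) * Z := by
    have : 0 ≤ (C5 + C4 + CZ) * ((E3a + E3b + E3c) * Z) := by positivity
    nlinarith
  calc _ ≤ ((∑ T ∈ Finset.univ.powersetCard 3, (∫ x, AT h g v T x ∂(PP μ N)) * ZZ μ h Tᶜ) +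
        (∑ T ∈ Finset.univ.powersetCard 3, ∑ k ∈ Tᶜ,
          (∫ x, AT h g v T x * uu h T k x ∂(PP μ N)) * ZZ μ h (insert k T)ᶜ) +
        C3 * Z * (E3a + E3b + E3c)) +
      ((∑ Q ∈ Finset.univ.powersetCard 4, (∫ x, GU g Q x * Psi h Q x ^ 2 ∂(PP μ N)) *
          ZZ μ h Qᶜ) + C4 * Z * E4) + C5 * Z * E5 := add_le_add (add_le_add h3 h4) h5
    _ ≤ _ := by linarith

end EAbs

/-- **The abstract energy bound.** `edens_eq` splits the energy into the unions with three, four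
and at least five particles; the pairs `(T, k)` are grouped into `Q = T ∪ {k}` (`BQ_eq`), and
`Z_ratio` replaces all partition functions by `Z_univ`. -/
theorem energy_abs (c M : ℝ) (hc : 0 < c) (hM : 1 ≤ M) : ∃ C > 0, ∀ (μ : Measure R3)
    [IsProbabilityMeasure μ] (N : ℕ) (h y : Finset (Fin N) → (Fin N → R3) → ℝ), Clu h y c M →
    ∀ (g : Finset (Fin N) → Fin N → Fin 3 → (Fin N → R3) → ℝ)
      (K v : Finset (Fin N) → (Fin N → R3) → ℝ), EDat g K v →
      ∀ ε ≥ 0, (∀ i : Fin N, ∑ B ∈ Finset.univ.filter (fun B : Finset (Fin N) => i ∈ B),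
        ∫ x, y B x ∂(PP μ N) ≤ ε) → C * ε ≤ 1 →
      ∫ x, edens g v Finset.univ x * Psi h Finset.univ x ^ 2 ∂(PP μ N) ≤
        ZZ μ h Finset.univ * (
          (∑ T ∈ Finset.univ.powersetCard 3, ∫ x, AT h g v T x ∂(PP μ N)) +
          (∑ Q ∈ Finset.univ.powersetCard 4, ∫ x, BQ h g v Q x ∂(PP μ N)) +
          C * (ε * (∑ T ∈ Finset.univ.powersetCard 3, ∫ x, AT h g v T x ∂(PP μ N)) +
            ε * (∑ Q ∈ Finset.univ.powersetCard 4, |∫ x, BQ h g v Q x ∂(PP μ N)|) +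
            errS μ h y g K v)) :=
  EAbs.energy_abs' c M hc hM

end Pool.Agent.Lib.MP_5db8e2_mp
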