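import Pool.Agent.Lib.MP_5db8e2_mp.CluC
import Pool.Agent.Lib.MP_5db8e2_mp.CluD1

/-!
# Abstract cluster estimates: the parts with five and with four particles
-/

set_option autoImplicit false

open MeasureTheory Filter Topology

namespace Pool.Agent.Lib.MP_5db8e2_mp

namespace CluD2aux

variable {N : ℕ} {g : Finset (Fin N) → Fin N → Fin 3 → (Fin N → R3) → ℝ}
  {K v : Finset (Fin N) → (Fin N → R3) → ℝ} {h y : Finset (Fin N) → (Fin N → R3) → ℝ} {c M : ℝ}

theorem K_nonneg (hE : EDat g K v) (i : Fin N) (B : Finset (Fin N)) (x : Fin N → R3) :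
    0 ≤ K B x := (abs_nonneg _).trans (hE.g_le B i 0 x)

theorem KU_nonneg (hE : EDat g K v) (i : Fin N) (U : Finset (Fin N)) (x : Fin N → R3) :
    0 ≤ KU K U x := by
  unfold KU
  exact Finset.sum_nonneg fun B _ => Finset.sum_nonneg fun B' _ =>
    mul_nonneg (K_nonneg hE i B x) (K_nonneg hE i B' x)

theorem KU_zero (hE : EDat g K v) {U : Finset (Fin N)} (hU : 10 < U.card) (x : Fin N → R3) :
    KU K U x = 0 := by
  unfold KU
  refine Finset.sum_eq_zero fun B _ => Finset.sum_eq_zero fun B' hB' => ?_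
  rw [Finset.mem_filter] at hB'
  have hc : U.card ≤ B.card + B'.card := by
    rw [← hB'.2.1]; exact Finset.card_union_le B B'
  rcases Nat.lt_or_ge 5 B.card with h1 | h1
  · rw [hE.K_card B (Or.inr h1) x, zero_mul]
  · rw [hE.K_card B' (Or.inr (by omega)) x, mul_zero]

theorem nice_sq {A : Finset (Fin N)} {F : (Fin N → R3) → ℝ} (hF : Nice A F) :
    Nice A (fun x => F x ^ 2) := by
  have := hF.mul hF
  rw [Finset.union_self] at this
  simpa only [pow_two] using this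

theorem nice_cmul {A : Finset (Fin N)} {F : (Fin N → R3) → ℝ} (C : ℝ) (hF : Nice A F) :
    Nice A (fun x => C * F x) := by
  refine ⟨hF.meas.const_mul C, ?_, fun x x' hx => by rw [hF.dep x x' hx]⟩
  obtain ⟨D, hD⟩ := hF.bdd
  exact ⟨|C| * D, fun x => by rw [abs_mul]; exact mul_le_mul_of_nonneg_left (hD x) (abs_nonneg _)⟩

theorem ZZ_nonneg (μ : Measure R3) (S : Finset (Fin N)) : 0 ≤ ZZ μ h S :=
  integral_nonneg fun _ => sq_nonneg _

theorem Psi_empty (hC : Clu h y c M) (x : Fin N → R3) : Psi h ∅ x = 1 := by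
  unfold Psi
  rw [Finset.powerset_empty, Finset.prod_singleton]
  exact hC.h_one ∅ (Or.inl (by simp)) x

theorem Psi_sq_le (hC : Clu h y c M) (Q : Finset (Fin N)) (x : Fin N → R3) :
    Psi h Q x ^ 2 ≤ (M ^ Q.card) ^ 2 := by
  have h1 := Psi_le hC (S := Q) (A := Q) (le_refl Q) x
  rw [Finset.sdiff_self, Psi_empty hC, mul_one] at h1
  exact pow_le_pow_left₀ (Psi_pos hC Q x).le h1 2

end CluD2aux

open CluD2aux

/-- Part (i): the terms with a union of five or more particles (`kernel_le`, `n = 10`; unions of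
more than `10` particles give zero). -/
theorem part_five (c M : ℝ) (hc : 0 < c) (hM : 1 ≤ M) : ∃ C > 0, ∀ (μ : Measure R3)
    [IsProbabilityMeasure μ] (N : ℕ) (h y : Finset (Fin N) → (Fin N → R3) → ℝ), Clu h y c M →
    ∀ (g : Finset (Fin N) → Fin N → Fin 3 → (Fin N → R3) → ℝ)
      (K v : Finset (Fin N) → (Fin N → R3) → ℝ), EDat g K v →
      ∀ ε ≥ 0, (∀ i : Fin N, ∑ B ∈ Finset.univ.filter (fun B : Finset (Fin N) => i ∈ B),
        ∫ x, y B x ∂(PP μ N) ≤ ε) → C * ε ≤ 1 →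
      ∑ U : Finset (Fin N), (if 5 ≤ U.card then
        ∫ x, GU g U x * Psi h Finset.univ x ^ 2 ∂(PP μ N) else 0) ≤
        C * ZZ μ h Finset.univ *
          ∑ U : Finset (Fin N), (if 5 ≤ U.card then ∫ x, KU K U x ∂(PP μ N) else 0) := by
  obtain ⟨C₁, hC₁, hk⟩ := kernel_le c M hc hM 10
  refine ⟨15 * C₁, by positivity, ?_⟩
  intro μ _ N h y hC g K v hE ε hε hy hCε
  have hCε' : C₁ * ε ≤ 1 := by nlinarith [mul_nonneg hC₁.le hε]
  rw [Finset.mul_sum]
  refine Finset.sum_le_sum fun U _ => ?_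
  by_cases hU : 5 ≤ U.card
  · rw [if_pos hU, if_pos hU]
    have hne : U.Nonempty := Finset.card_pos.1 (by omega)
    obtain ⟨i, _⟩ := hne
    have hP : Nice Finset.univ (fun x => Psi h Finset.univ x ^ 2) := nice_sq (Psi_nice hC _)
    have hKn := KU_nice hE U
    have hle : ∫ x, GU g U x * Psi h Finset.univ x ^ 2 ∂(PP μ N)
        ≤ ∫ x, 15 * (KU K U x * Psi h Finset.univ x ^ 2) ∂(PP μ N) := by
      refine integral_mono (((GU_nice hE U).mul hP).integrable μ)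
        ((nice_cmul 15 (hKn.mul hP)).integrable μ) fun x => ?_
      simp only
      rw [← mul_assoc]
      exact mul_le_mul_of_nonneg_right ((le_abs_self _).trans (abs_GU_le hE U x)) (sq_nonneg _)
    refine hle.trans ?_
    rw [integral_const_mul]
    rcases Nat.lt_or_ge 10 U.card with h10 | h10
    · have e1 : ∀ x, KU K U x = 0 := fun x => KU_zero hE h10 x
      simp only [e1, zero_mul, integral_zero, mul_zero, le_refl]
    · have h2 := hk μ N h y hC ε hε hy hCε' Finset.univ Finset.univ U (le_refl _) (by simp) h10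
        (KU K U) hKn (KU_nonneg hE i U)
      calc 15 * ∫ x, KU K U x * Psi h Finset.univ x ^ 2 ∂(PP μ N)
          ≤ 15 * (C₁ * (∫ x, KU K U x ∂(PP μ N)) * ZZ μ h Finset.univ) := by linarith
        _ = 15 * C₁ * ZZ μ h Finset.univ * ∫ x, KU K U x ∂(PP μ N) := by ring
  · rw [if_neg hU, if_neg hU, mul_zero]

/-- Part (ii): the four-particle part:
`Psi_univ² = Psi_Q² Psi_{Qᶜ}² ratio`, `|ratio - 1| ≤ C ∑ y_B`, `kernel_le` for the error and
`indep` for the main term. -/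
theorem part_four (c M : ℝ) (hc : 0 < c) (hM : 1 ≤ M) : ∃ C > 0, ∀ (μ : Measure R3)
    [IsProbabilityMeasure μ] (N : ℕ) (h y : Finset (Fin N) → (Fin N → R3) → ℝ), Clu h y c M →
    ∀ (g : Finset (Fin N) → Fin N → Fin 3 → (Fin N → R3) → ℝ)
      (K v : Finset (Fin N) → (Fin N → R3) → ℝ), EDat g K v →
      ∀ ε ≥ 0, (∀ i : Fin N, ∑ B ∈ Finset.univ.filter (fun B : Finset (Fin N) => i ∈ B),
        ∫ x, y B x ∂(PP μ N) ≤ ε) → C * ε ≤ 1 →
      ∑ Q ∈ Finset.univ.powersetCard 4, ∫ x, GU g Q x * Psi h Finset.univ x ^ 2 ∂(PP μ N) ≤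
        (∑ Q ∈ Finset.univ.powersetCard 4, (∫ x, GU g Q x * Psi h Q x ^ 2 ∂(PP μ N)) *
          ZZ μ h Qᶜ) + C * ZZ μ h Finset.univ *
          ∑ Q ∈ Finset.univ.powersetCard 4, ∑ B ∈ link Q Finset.univ,
            ∫ x, KU K Q x * y B x ∂(PP μ N) := by
  obtain ⟨C₁, hC₁, hk⟩ := kernel_le c M hc hM 10
  obtain ⟨C₂, hC₂, hr⟩ := ratio_sub_one c M hc hM 4
  have hM0 : 0 < M := lt_of_lt_of_le one_pos hM
  set D : ℝ := 15 * (M ^ 4) ^ 2 * C₂ with hD
  have hD0 : 0 < D := by positivity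
  refine ⟨D * C₁ + C₁, by positivity, ?_⟩
  intro μ _ N h y hC g K v hE ε hε hy hCε
  have hCε' : C₁ * ε ≤ 1 := by nlinarith [mul_nonneg (mul_nonneg hD0.le hC₁.le) hε]
  have hZ : 0 ≤ ZZ μ h Finset.univ := ZZ_nonneg μ _
  rw [Finset.mul_sum, ← Finset.sum_add_distrib]
  refine Finset.sum_le_sum fun Q hQ => ?_
  have hQ4 : Q.card = 4 := (Finset.mem_powersetCard.1 hQ).2
  have hne : Q.Nonempty := Finset.card_pos.1 (by omega)
  obtain ⟨i, _⟩ := hne
  have hPQ : Nice Q (fun x => Psi h Q x ^ 2) := nice_sq (Psi_nice hC _)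
  have hPc : Nice Qᶜ (fun x => Psi h Qᶜ x ^ 2) := nice_sq (Psi_nice hC _)
  have hPu : Nice Finset.univ (fun x => Psi h Finset.univ x ^ 2) := nice_sq (Psi_nice hC _)
  have hG : Nice Q (fun x => GU g Q x * Psi h Q x ^ 2) := by
    have := (GU_nice hE Q).mul hPQ
    rwa [Finset.union_self] at this
  have hKn := KU_nice hE Q
  have hF : ∀ B, Nice (Q ∪ B) (fun x => KU K Q x * y B x) := fun B => hKn.mul (hC.y_nice B)
  have hFB : ∀ B, Nice (Q ∪ B ∪ Qᶜ) (fun x => KU K Q x * y B x * Psi h Qᶜ x ^ 2) := fun B =>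
    (hF B).mul hPc
  -- pointwise
  have hpt : ∀ x, GU g Q x * Psi h Finset.univ x ^ 2
      ≤ GU g Q x * Psi h Q x ^ 2 * Psi h Qᶜ x ^ 2
        + ∑ B ∈ link Q Finset.univ, D * (KU K Q x * y B x * Psi h Qᶜ x ^ 2) := by
    intro x
    have e1 := Psi_sq_eq hC (S := Finset.univ) (A := Q) (Finset.subset_univ Q) x
    rw [← Finset.compl_eq_univ_sdiff] at e1
    rw [e1]
    have h1 := hr N h y hC Q Finset.univ (Finset.subset_univ Q) (by omega) x
    have h2 := abs_GU_le hE Q x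
    have h3 := Psi_sq_le hC Q x
    rw [hQ4] at h3
    have hK0 := KU_nonneg hE i Q x
    have hp0 : 0 ≤ Psi h Q x ^ 2 := sq_nonneg _
    have hpc0 : 0 ≤ Psi h Qᶜ x ^ 2 := sq_nonneg _
    have hy0 : 0 ≤ ∑ B ∈ link Q Finset.univ, y B x := Finset.sum_nonneg fun B _ => hC.y_nonneg B x
    have h4 : GU g Q x * (ratio h Q Finset.univ x - 1)
        ≤ 15 * KU K Q x * (C₂ * ∑ B ∈ link Q Finset.univ, y B x) := by
      refine (le_abs_self _).trans ?_
      rw [abs_mul]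
      exact mul_le_mul h2 h1 (abs_nonneg _) (by positivity)
    have h5 : 0 ≤ 15 * KU K Q x * (C₂ * ∑ B ∈ link Q Finset.univ, y B x) := by positivity
    have h6 : GU g Q x * (ratio h Q Finset.univ x - 1) * (Psi h Q x ^ 2 * Psi h Qᶜ x ^ 2)
        ≤ 15 * KU K Q x * (C₂ * ∑ B ∈ link Q Finset.univ, y B x)
          * ((M ^ 4) ^ 2 * Psi h Qᶜ x ^ 2) := by
      calc GU g Q x * (ratio h Q Finset.univ x - 1) * (Psi h Q x ^ 2 * Psi h Qᶜ x ^ 2)
          ≤ 15 * KU K Q x * (C₂ * ∑ B ∈ link Q Finset.univ, y B x)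
            * (Psi h Q x ^ 2 * Psi h Qᶜ x ^ 2) :=
            mul_le_mul_of_nonneg_right h4 (mul_nonneg hp0 hpc0)
        _ ≤ _ := mul_le_mul_of_nonneg_left (mul_le_mul_of_nonneg_right h3 hpc0) h5
    have e2 : ∑ B ∈ link Q Finset.univ, D * (KU K Q x * y B x * Psi h Qᶜ x ^ 2)
        = 15 * KU K Q x * (C₂ * ∑ B ∈ link Q Finset.univ, y B x)
          * ((M ^ 4) ^ 2 * Psi h Qᶜ x ^ 2) := by
      rw [← Finset.mul_sum, ← Finset.sum_mul, ← Finset.mul_sum, hD]; ring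
    rw [e2]
    calc GU g Q x * (Psi h Q x ^ 2 * Psi h Qᶜ x ^ 2 * ratio h Q Finset.univ x)
        = GU g Q x * Psi h Q x ^ 2 * Psi h Qᶜ x ^ 2
          + GU g Q x * (ratio h Q Finset.univ x - 1) * (Psi h Q x ^ 2 * Psi h Qᶜ x ^ 2) := by ring
      _ ≤ _ := by linarith
  have hI1 : Integrable (fun x => GU g Q x * Psi h Finset.univ x ^ 2) (PP μ N) :=
    ((GU_nice hE Q).mul hPu).integrable μ
  have hI2 : Integrable (fun x => GU g Q x * Psi h Q x ^ 2 * Psi h Qᶜ x ^ 2) (PP μ N) :=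
    (hG.mul hPc).integrable μ
  have hI3 : ∀ B ∈ link Q Finset.univ,
      Integrable (fun x => D * (KU K Q x * y B x * Psi h Qᶜ x ^ 2)) (PP μ N) :=
    fun B _ => (nice_cmul D (hFB B)).integrable μ
  have h1 : ∫ x, GU g Q x * Psi h Finset.univ x ^ 2 ∂(PP μ N)
      ≤ ∫ x, (GU g Q x * Psi h Q x ^ 2 * Psi h Qᶜ x ^ 2
        + ∑ B ∈ link Q Finset.univ, D * (KU K Q x * y B x * Psi h Qᶜ x ^ 2)) ∂(PP μ N) :=
    integral_mono hI1 (hI2.add (integrable_finsetSum _ hI3)) hpt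
  refine h1.trans ?_
  rw [integral_add hI2 (integrable_finsetSum _ hI3), integral_finsetSum _ hI3,
    indep μ hG hPc disjoint_compl_right]
  refine add_le_add (le_refl _) ?_
  rw [Finset.mul_sum]
  refine Finset.sum_le_sum fun B _ => ?_
  rw [integral_const_mul]
  have hF0 : ∀ x, 0 ≤ KU K Q x * y B x := fun x =>
    mul_nonneg (KU_nonneg hE i Q x) (hC.y_nonneg B x)
  have hI0 : 0 ≤ ∫ x, KU K Q x * y B x ∂(PP μ N) := integral_nonneg hF0
  rcases Nat.lt_or_ge 5 B.card with hB | hB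
  · have e1 : ∀ x, y B x = 0 := fun x => hC.y_zero B (Or.inr hB) x
    simp only [e1, mul_zero, zero_mul, integral_zero, le_refl]
  · have h2 := hk μ N h y hC ε hε hy hCε' Finset.univ Qᶜ (Q ∪ B) (Finset.subset_univ _)
      (by rw [← Finset.compl_eq_univ_sdiff, compl_compl]; omega)
      (by have := Finset.card_union_le Q B; omega) (fun x => KU K Q x * y B x) (hF B) hF0
    calc D * ∫ x, KU K Q x * y B x * Psi h Qᶜ x ^ 2 ∂(PP μ N)
        ≤ D * (C₁ * (∫ x, KU K Q x * y B x ∂(PP μ N)) * ZZ μ h Finset.univ) :=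
          mul_le_mul_of_nonneg_left h2 hD0.le
      _ = D * C₁ * (ZZ μ h Finset.univ * ∫ x, KU K Q x * y B x ∂(PP μ N)) := by ring
      _ ≤ (D * C₁ + C₁) * (ZZ μ h Finset.univ * ∫ x, KU K Q x * y B x ∂(PP μ N)) :=
          mul_le_mul_of_nonneg_right (by linarith) (mul_nonneg hZ hI0)
      _ = (D * C₁ + C₁) * ZZ μ h Finset.univ * ∫ x, KU K Q x * y B x ∂(PP μ N) := by ring

end Pool.Agent.Lib.MP_5db8e2_mp
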