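import Pool.Agent.Lib.MP_5db8e2_mp.CluD1

/-!
# Abstract cluster estimates: counting, part 1

`p` is the inverse volume, `δ = N p` the density.
-/

set_option autoImplicit false

open MeasureTheory Filter Topology

namespace Pool.Agent.Lib.MP_5db8e2_mp

/-- **Kernel bounds.** `s` is the bound for a kernel with three particles of which one is given,
`1` (times `C`) for all the other ones. -/
structure Kern (μ : Measure R3) (N : ℕ) (p C s : ℝ)
    (κ : Finset (Fin N) → (Fin N → R3) → ℝ) : Prop where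
  nice : ∀ B, Nice B (κ B)
  nonneg : ∀ B x, 0 ≤ κ B x
  zero : ∀ B, (B.card < 3 ∨ 5 < B.card) → ∀ x, κ B x = 0
  bd : ∀ (A B : Finset (Fin N)) (F : (Fin N → R3) → ℝ), Nice A F → (∀ x, 0 ≤ F x) →
    ¬ Disjoint B A → ∫ x, F x * κ B x ∂(PP μ N) ≤
      (if B.card = 3 ∧ (B ∩ A).card = 1 then s else C) * p ^ (B \ A).card *
        ∫ x, F x ∂(PP μ N)

namespace CluE1aux

variable {N : ℕ}

theorem count_m (A : Finset (Fin N)) (m : ℕ) :
    ((Finset.univ : Finset (Finset (Fin N))).filter (fun B => (B \ A).card = m)).card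
      ≤ 2 ^ A.card * N ^ m := by
  calc _ ≤ (A.powerset ×ˢ (Finset.univ : Finset (Fin N)).powersetCard m).card := by
        refine Finset.card_le_card_of_injOn (fun B => (B ∩ A, B \ A)) ?_ ?_
        · intro B hB
          simp only [Finset.coe_filter, Finset.mem_univ, true_and, Set.mem_setOf_eq] at hB
          rw [Finset.mem_coe, Finset.mem_product, Finset.mem_powerset, Finset.mem_powersetCard]
          exact ⟨Finset.inter_subset_right, Finset.subset_univ _, hB⟩
        · intro B _ B' _ h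
          simp only [Prod.mk.injEq] at h
          have h1 : B = (B ∩ A) ∪ (B \ A) := by
            rw [Finset.union_comm, Finset.sdiff_union_inter]
          have h2 : B' = (B' ∩ A) ∪ (B' \ A) := by
            rw [Finset.union_comm, Finset.sdiff_union_inter]
          rw [h1, h2, h.1, h.2]
    _ = 2 ^ A.card * N.choose m := by
        rw [Finset.card_product, Finset.card_powerset, Finset.card_powersetCard,
          Finset.card_univ, Fintype.card_fin]
    _ ≤ 2 ^ A.card * N ^ m := Nat.mul_le_mul_left _ (Nat.choose_le_pow N m)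

theorem sum_le_main (A : Finset (Fin N)) (BB : Finset (Finset (Fin N))) (M : Finset ℕ)
    (f : Finset (Fin N) → ℝ) (w : ℕ → ℝ) (hw : ∀ m, 0 ≤ w m)
    (hf : ∀ B ∈ BB, f B ≤ 0 ∨ ((B \ A).card ∈ M ∧ f B ≤ w (B \ A).card)) :
    ∑ B ∈ BB, f B ≤ ∑ m ∈ M, 2 ^ A.card * (N : ℝ) ^ m * w m := by
  calc ∑ B ∈ BB, f B ≤ ∑ B ∈ BB, ∑ m ∈ M, (if (B \ A).card = m then w m else 0) := by
        refine Finset.sum_le_sum fun B hB => ?_
        rcases hf B hB with h | ⟨h1, h2⟩
        · refine h.trans (Finset.sum_nonneg fun m _ => ?_)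
          split_ifs
          · exact hw m
          · exact le_rfl
        · rw [Finset.sum_ite_eq, if_pos h1]
          exact h2
    _ = ∑ m ∈ M, ∑ B ∈ BB, (if (B \ A).card = m then w m else 0) := Finset.sum_comm
    _ ≤ ∑ m ∈ M, 2 ^ A.card * (N : ℝ) ^ m * w m := by
        refine Finset.sum_le_sum fun m _ => ?_
        rw [← Finset.sum_filter, Finset.sum_const, nsmul_eq_mul]
        refine mul_le_mul_of_nonneg_right ?_ (hw m)
        have h1 : (BB.filter (fun B => (B \ A).card = m)).card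
            ≤ ((Finset.univ : Finset (Finset (Fin N))).filter (fun B => (B \ A).card = m)).card :=
          Finset.card_le_card (Finset.filter_subset_filter _ (Finset.subset_univ _))
        have h2 := h1.trans (count_m A m)
        exact_mod_cast h2

/-- the bound of one kernel -/
theorem one_le {μ : Measure R3} {p C s : ℝ} (hp : 0 < p) (hs : 0 ≤ s) (hC : 0 < C)
    {κ : Finset (Fin N) → (Fin N → R3) → ℝ} (hκ : Kern μ N p C s κ) {A B : Finset (Fin N)}
    {F : (Fin N → R3) → ℝ} (hF : Nice A F) (hF0 : ∀ x, 0 ≤ F x) (hd : ¬ Disjoint B A) :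
    ∫ x, F x * κ B x ∂(PP μ N) ≤ 0 ∨ ((B \ A).card ≤ 4 ∧
      ∫ x, F x * κ B x ∂(PP μ N) ≤ ((if (B \ A).card = 2 then s + C else C) *
        p ^ (B \ A).card * ∫ x, F x ∂(PP μ N))) := by
  by_cases hcard : B.card < 3 ∨ 5 < B.card
  · left
    have : (fun x => F x * κ B x) = fun _ => 0 := by
      funext x
      rw [hκ.zero B hcard x, mul_zero]
    rw [this]
    simp
  · right
    push Not at hcard
    have hint : 1 ≤ (B ∩ A).card := by
      rw [Nat.succ_le_iff, Finset.card_pos]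
      rwa [Finset.not_disjoint_iff_nonempty_inter] at hd
    have hadd := Finset.card_sdiff_add_card_inter B A
    refine ⟨by omega, (hκ.bd A B F hF hF0 hd).trans ?_⟩
    have hI : 0 ≤ ∫ x, F x ∂(PP μ N) := integral_nonneg hF0
    refine mul_le_mul_of_nonneg_right (mul_le_mul_of_nonneg_right ?_ (by positivity)) hI
    by_cases h1 : B.card = 3 ∧ (B ∩ A).card = 1
    · rw [if_pos h1, if_pos (by omega)]
      linarith
    · rw [if_neg h1]
      split_ifs <;> linarith

/-- the bound of one kernel with four or five particles -/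
theorem one_le' {μ : Measure R3} {p C s : ℝ} 
    {κ : Finset (Fin N) → (Fin N → R3) → ℝ} (hκ : Kern μ N p C s κ) {A B : Finset (Fin N)}
    {F : (Fin N → R3) → ℝ} (hF : Nice A F) (hF0 : ∀ x, 0 ≤ F x) (hd : ¬ Disjoint B A)
    (h4 : B.card ≠ 3) :
    ∫ x, F x * κ B x ∂(PP μ N) ≤ C * p ^ (B \ A).card * ∫ x, F x ∂(PP μ N) := by
  have := hκ.bd A B F hF hF0 hd
  rwa [if_neg (fun h => h4 h.1)] at this

theorem mem_link {A S B : Finset (Fin N)} :
    B ∈ link A S ↔ B ⊆ S ∧ ¬ Disjoint B A ∧ ¬ B ⊆ A := by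
  unfold link
  rw [Finset.mem_filter, Finset.mem_powerset]

theorem sdiff_pos {A B : Finset (Fin N)} (h : ¬ B ⊆ A) : 1 ≤ (B \ A).card := by
  rw [Nat.succ_le_iff, Finset.card_pos, Finset.sdiff_nonempty]
  exact h

theorem Nice_one (A : Finset (Fin N)) : Nice A (fun _ => (1 : ℝ)) :=
  ⟨measurable_const, ⟨1, fun _ => by simp⟩, fun _ _ _ => rfl⟩

end CluE1aux

open CluE1aux

/-- The number of sets `B` of cardinality `≤ 5` with `|B ∖ A| = m` is at most `2^{|A|} N^m`; hence
`∑_{B meets A, B ⊄ A} E[F κ_B] ≤ C' δ E[F]` if `δ ≤ 1`, `δ s ≤ 1`: the sets with one particle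
outside contribute `C δ`, the triples with two particles outside `s δ²`, the other ones
`C (δ² + δ³ + δ⁴)`. -/
theorem link_sum_le (C : ℝ) (hC : 0 < C) (n : ℕ) : ∃ C' > 0, ∀ (μ : Measure R3)
    [IsProbabilityMeasure μ] (N : ℕ) (p s : ℝ), 0 < p → 0 ≤ s → N * p ≤ 1 → N * p * s ≤ 1 →
    ∀ κ : Finset (Fin N) → (Fin N → R3) → ℝ, Kern μ N p C s κ →
    ∀ (A S : Finset (Fin N)) (F : (Fin N → R3) → ℝ), A.card ≤ n → Nice A F → (∀ x, 0 ≤ F x) →
      ∑ B ∈ link A S, ∫ x, F x * κ B x ∂(PP μ N) ≤ C' * (N * p) * ∫ x, F x ∂(PP μ N) := by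
  refine ⟨2 ^ n * (4 * C + 1), by positivity, ?_⟩
  intro μ _ N p s hp hs hδ hδs κ hκ A S F hA hF hF0
  have hI : 0 ≤ ∫ x, F x ∂(PP μ N) := integral_nonneg hF0
  set I := ∫ x, F x ∂(PP μ N) with hIdef
  have h := sum_le_main A (link A S) {1, 2, 3, 4} (fun B => ∫ x, F x * κ B x ∂(PP μ N))
    (fun m => (if m = 2 then s + C else C) * p ^ m * I)
    (fun m => by
      have : 0 ≤ (if m = 2 then s + C else C) := by split_ifs <;> linarith
      positivity) (fun B hB => by
      rw [mem_link] at hB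
      rcases one_le hp hs hC hκ hF hF0 hB.2.1 with h | ⟨h1, h2⟩
      · exact Or.inl h
      · refine Or.inr ⟨?_, h2⟩
        have := sdiff_pos hB.2.2
        simp only [Finset.mem_insert, Finset.mem_singleton]
        omega)
  refine h.trans ?_
  rw [Finset.sum_insert (by decide), Finset.sum_insert (by decide), Finset.sum_insert (by decide),
    Finset.sum_singleton]
  simp only [if_true, show (1 : ℕ) ≠ 2 by decide, show (3 : ℕ) ≠ 2 by decide,
    show (4 : ℕ) ≠ 2 by decide, if_false]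
  set δ : ℝ := N * p with hδdef
  have hδ0 : 0 ≤ δ := by positivity
  have h2 : (2 : ℝ) ^ A.card ≤ 2 ^ n := pow_le_pow_right₀ (by norm_num) hA
  have e : 2 ^ A.card * (N : ℝ) ^ 1 * (C * p ^ 1 * I) + (2 ^ A.card * (N : ℝ) ^ 2 *
      ((s + C) * p ^ 2 * I) + (2 ^ A.card * (N : ℝ) ^ 3 * (C * p ^ 3 * I) +
        2 ^ A.card * (N : ℝ) ^ 4 * (C * p ^ 4 * I)))
      = 2 ^ A.card * (C * δ + (s + C) * δ ^ 2 + C * δ ^ 3 + C * δ ^ 4) * I := by
    rw [hδdef]
    ring
  rw [e]
  have h3 : C * δ + (s + C) * δ ^ 2 + C * δ ^ 3 + C * δ ^ 4 ≤ (4 * C + 1) * δ := by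
    have a1 : s * δ ^ 2 ≤ δ := by nlinarith
    have a2 : δ ^ 2 ≤ δ := by nlinarith
    have a3 : δ ^ 3 ≤ δ := by nlinarith [pow_nonneg hδ0 2]
    have a4 : δ ^ 4 ≤ δ := by nlinarith [pow_nonneg hδ0 2, pow_nonneg hδ0 3]
    nlinarith
  have h4 : 0 ≤ C * δ + (s + C) * δ ^ 2 + C * δ ^ 3 + C * δ ^ 4 := by positivity
  calc 2 ^ A.card * (C * δ + (s + C) * δ ^ 2 + C * δ ^ 3 + C * δ ^ 4) * I
      ≤ 2 ^ n * ((4 * C + 1) * δ) * I := by gcongr
    _ = 2 ^ n * (4 * C + 1) * δ * I := by ring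

/-- The sets with at least two particles outside: `C' δ² (1 + s)`. -/
theorem link_sum_two_le (C : ℝ) (hC : 0 < C) (n : ℕ) : ∃ C' > 0, ∀ (μ : Measure R3)
    [IsProbabilityMeasure μ] (N : ℕ) (p s : ℝ), 0 < p → 0 ≤ s → N * p ≤ 1 →
    ∀ κ : Finset (Fin N) → (Fin N → R3) → ℝ, Kern μ N p C s κ →
    ∀ (A S : Finset (Fin N)) (F : (Fin N → R3) → ℝ), A.card ≤ n → Nice A F → (∀ x, 0 ≤ F x) →
      ∑ B ∈ (link A S).filter (fun B => 2 ≤ (B \ A).card), ∫ x, F x * κ B x ∂(PP μ N) ≤
        C' * (N * p) ^ 2 * (1 + s) * ∫ x, F x ∂(PP μ N) := by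
  refine ⟨2 ^ n * (3 * C + 1), by positivity, ?_⟩
  intro μ _ N p s hp hs hδ κ hκ A S F hA hF hF0
  have hI : 0 ≤ ∫ x, F x ∂(PP μ N) := integral_nonneg hF0
  set I := ∫ x, F x ∂(PP μ N) with hIdef
  have h := sum_le_main A ((link A S).filter (fun B => 2 ≤ (B \ A).card)) {2, 3, 4}
    (fun B => ∫ x, F x * κ B x ∂(PP μ N))
    (fun m => (if m = 2 then s + C else C) * p ^ m * I)
    (fun m => by
      have : 0 ≤ (if m = 2 then s + C else C) := by split_ifs <;> linarith
      positivity) (fun B hB => by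
      rw [Finset.mem_filter, mem_link] at hB
      rcases one_le hp hs hC hκ hF hF0 hB.1.2.1 with h | ⟨h1, h2⟩
      · exact Or.inl h
      · refine Or.inr ⟨?_, h2⟩
        have := hB.2
        simp only [Finset.mem_insert, Finset.mem_singleton]
        omega)
  refine h.trans ?_
  rw [Finset.sum_insert (by decide), Finset.sum_insert (by decide), Finset.sum_singleton]
  simp only [if_true, show (3 : ℕ) ≠ 2 by decide, show (4 : ℕ) ≠ 2 by decide, if_false]
  set δ : ℝ := N * p with hδdef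
  have hδ0 : 0 ≤ δ := by positivity
  have h2 : (2 : ℝ) ^ A.card ≤ 2 ^ n := pow_le_pow_right₀ (by norm_num) hA
  have e : 2 ^ A.card * (N : ℝ) ^ 2 *
      ((s + C) * p ^ 2 * I) + (2 ^ A.card * (N : ℝ) ^ 3 * (C * p ^ 3 * I) +
        2 ^ A.card * (N : ℝ) ^ 4 * (C * p ^ 4 * I))
      = 2 ^ A.card * ((s + C) * δ ^ 2 + C * δ ^ 3 + C * δ ^ 4) * I := by
    rw [hδdef]
    ring
  rw [e]
  have h3 : (s + C) * δ ^ 2 + C * δ ^ 3 + C * δ ^ 4 ≤ (3 * C + 1) * (δ ^ 2 * (1 + s)) := by
    have a2 : 0 ≤ δ ^ 2 := by positivity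
    have a3 : δ ^ 3 ≤ δ ^ 2 := by nlinarith
    have a4 : δ ^ 4 ≤ δ ^ 2 := by nlinarith [pow_nonneg hδ0 3]
    have a5 : 0 ≤ δ ^ 2 * s := by positivity
    nlinarith [mul_nonneg hC.le a5, mul_le_mul_of_nonneg_left a3 hC.le,
      mul_le_mul_of_nonneg_left a4 hC.le]
  have h4 : 0 ≤ (s + C) * δ ^ 2 + C * δ ^ 3 + C * δ ^ 4 := by positivity
  calc 2 ^ A.card * ((s + C) * δ ^ 2 + C * δ ^ 3 + C * δ ^ 4) * I
      ≤ 2 ^ n * ((3 * C + 1) * (δ ^ 2 * (1 + s))) * I := by gcongr
    _ = 2 ^ n * (3 * C + 1) * δ ^ 2 * (1 + s) * I := by ring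

/-- The four-sets with at least two particles outside: `C' δ²` (no `s`). -/
theorem far4_sum_le (C : ℝ) (hC : 0 < C) : ∃ C' > 0, ∀ (μ : Measure R3)
    [IsProbabilityMeasure μ] (N : ℕ) (p s : ℝ), 0 < p → 0 ≤ s → N * p ≤ 1 →
    ∀ κ : Finset (Fin N) → (Fin N → R3) → ℝ, Kern μ N p C s κ →
    ∀ (T : Finset (Fin N)) (F : (Fin N → R3) → ℝ), T.card = 3 → Nice T F → (∀ x, 0 ≤ F x) →
      ∑ Q ∈ far4 T Finset.univ, ∫ x, F x * κ Q x ∂(PP μ N) ≤
        C' * (N * p) ^ 2 * ∫ x, F x ∂(PP μ N) := by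
  refine ⟨2 ^ 3 * (3 * C), by positivity, ?_⟩
  intro μ _ N p s hp hs hδ κ hκ T F hT hF hF0
  have hI : 0 ≤ ∫ x, F x ∂(PP μ N) := integral_nonneg hF0
  set I := ∫ x, F x ∂(PP μ N) with hIdef
  have h := sum_le_main T (far4 T Finset.univ) {2, 3, 4}
    (fun B => ∫ x, F x * κ B x ∂(PP μ N)) (fun m => C * p ^ m * I)
    (fun m => by positivity) (fun B hB => by
      unfold far4 at hB
      rw [Finset.mem_filter, mem_link] at hB
      refine Or.inr ⟨?_, one_le' hκ hF hF0 hB.1.2.1 (by omega)⟩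
      have h1 := hB.2
      have h2 : (B \ T).card ≤ B.card := Finset.card_le_card Finset.sdiff_subset
      simp only [Finset.mem_insert, Finset.mem_singleton]
      omega)
  refine h.trans ?_
  rw [Finset.sum_insert (by decide), Finset.sum_insert (by decide), Finset.sum_singleton, hT]
  set δ : ℝ := N * p with hδdef
  have hδ0 : 0 ≤ δ := by positivity
  have e : 2 ^ 3 * (N : ℝ) ^ 2 * (C * p ^ 2 * I) + (2 ^ 3 * (N : ℝ) ^ 3 * (C * p ^ 3 * I) +
        2 ^ 3 * (N : ℝ) ^ 4 * (C * p ^ 4 * I))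
      = 2 ^ 3 * (C * (δ ^ 2 + δ ^ 3 + δ ^ 4)) * I := by
    rw [hδdef]
    ring
  rw [e]
  have h3 : δ ^ 2 + δ ^ 3 + δ ^ 4 ≤ 3 * δ ^ 2 := by
    have a2 : 0 ≤ δ ^ 2 := by positivity
    have a3 : δ ^ 3 ≤ δ ^ 2 := by nlinarith
    have a4 : δ ^ 4 ≤ δ ^ 2 := by nlinarith [pow_nonneg hδ0 3]
    linarith
  calc 2 ^ 3 * (C * (δ ^ 2 + δ ^ 3 + δ ^ 4)) * I ≤ 2 ^ 3 * (C * (3 * δ ^ 2)) * I := by gcongr
    _ = 2 ^ 3 * (3 * C) * δ ^ 2 * I := by ring

/-- `∑_{B∋i} E[κ_B] ≤ C' δ² (1 + s)` (take `F = 1`, `A = {i}`). -/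
theorem point_sum_le (C : ℝ) (hC : 0 < C) : ∃ C' > 0, ∀ (μ : Measure R3)
    [IsProbabilityMeasure μ] (N : ℕ) (p s : ℝ), 0 < p → 0 ≤ s → N * p ≤ 1 →
    ∀ κ : Finset (Fin N) → (Fin N → R3) → ℝ, Kern μ N p C s κ → ∀ i : Fin N,
      ∑ B ∈ Finset.univ.filter (fun B : Finset (Fin N) => i ∈ B), ∫ x, κ B x ∂(PP μ N) ≤
        C' * (N * p) ^ 2 * (1 + s) := by
  obtain ⟨C', hC', h⟩ := link_sum_two_le C hC 1
  refine ⟨C', hC', ?_⟩
  intro μ _ N p s hp hs hδ κ hκ i
  have h1 := h μ N p s hp hs hδ κ hκ {i} Finset.univ (fun _ => 1) (by simp) (Nice_one _)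
    (fun _ => by norm_num)
  have e1 : ∫ _x : Fin N → R3, (1 : ℝ) ∂(PP μ N) = 1 := by simp
  rw [e1, mul_one] at h1
  refine le_trans ?_ h1
  simp only [one_mul]
  have hsub : ((link {i} Finset.univ).filter (fun B => 2 ≤ (B \ {i}).card))
      ⊆ Finset.univ.filter (fun B : Finset (Fin N) => i ∈ B) := by
    intro B hB
    rw [Finset.mem_filter, mem_link] at hB
    rw [Finset.mem_filter]
    refine ⟨Finset.mem_univ _, ?_⟩
    have := hB.1.2.1
    rwa [Finset.disjoint_singleton_right, not_not] at this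
  rw [← Finset.sum_subset hsub]
  intro B hB hB'
  rw [Finset.mem_filter] at hB
  have hcard : B.card < 3 := by
    by_contra hcon
    push Not at hcon
    apply hB'
    have h2 : (B \ {i}).card = B.card - 1 := by
      rw [Finset.card_sdiff_of_subset (Finset.singleton_subset_iff.2 hB.2), Finset.card_singleton]
    rw [Finset.mem_filter, mem_link]
    refine ⟨⟨Finset.subset_univ _, ?_, ?_⟩, by omega⟩
    · rw [Finset.disjoint_singleton_right, not_not]
      exact hB.2
    · intro hsub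
      have := Finset.card_le_card hsub
      rw [Finset.card_singleton] at this
      omega
  have : κ B = fun _ => 0 := by
    funext x
    exact hκ.zero B (Or.inl hcard) x
  rw [this]
  simp

namespace CluE1aux

variable {N : ℕ}

/-- number of subsets with `k` elements -/
theorem sum_card_le {μ : Measure R3} [IsProbabilityMeasure μ] {p C s : ℝ} (hp : 0 < p)
    {K : Finset (Fin N) → (Fin N → R3) → ℝ} (hK : Kern μ N p C s K) (k : ℕ) (hk : 1 ≤ k) (W : ℝ)
    (hW0 : 0 ≤ W) (hW : (if k = 3 then s else C) ≤ W) :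
    ∑ B ∈ (Finset.univ : Finset (Fin N)).powersetCard k, ∫ x, K B x ∂(PP μ N)
      ≤ N * (W * (N * p) ^ (k - 1)) := by
  have h1 : ∀ B ∈ (Finset.univ : Finset (Fin N)).powersetCard k,
      ∫ x, K B x ∂(PP μ N) ≤ W * p ^ (k - 1) := by
    intro B hB
    rw [Finset.mem_powersetCard] at hB
    obtain ⟨i, hi⟩ : B.Nonempty := by
      rw [← Finset.card_pos]
      omega
    have h := hK.bd {i} B (fun _ => 1) (Nice_one _) (fun _ => by norm_num)
      (by rw [Finset.disjoint_singleton_right, not_not]; exact hi)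
    have e1 : ∫ _x : Fin N → R3, (1 : ℝ) ∂(PP μ N) = 1 := by simp
    have e2 : (B \ {i}).card = k - 1 := by
      rw [Finset.card_sdiff_of_subset (Finset.singleton_subset_iff.2 hi), Finset.card_singleton,
        hB.2]
    have e3 : (B ∩ {i}).card = 1 := by
      rw [Finset.inter_singleton_of_mem hi, Finset.card_singleton]
    rw [e1, e2, e3, hB.2, mul_one] at h
    simp only [one_mul, and_true] at h
    exact h.trans (mul_le_mul_of_nonneg_right hW (by positivity))
  refine (Finset.sum_le_card_nsmul _ _ _ h1).trans ?_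
  rw [Finset.card_powersetCard, Finset.card_univ, Fintype.card_fin, nsmul_eq_mul]
  have h2 : ((N.choose k : ℕ) : ℝ) ≤ (N : ℝ) ^ k := by exact_mod_cast Nat.choose_le_pow N k
  calc ((N.choose k : ℕ) : ℝ) * (W * p ^ (k - 1)) ≤ (N : ℝ) ^ k * (W * p ^ (k - 1)) :=
        mul_le_mul_of_nonneg_right h2 (by positivity)
    _ = N * (W * (N * p) ^ (k - 1)) := by
        obtain ⟨j, rfl⟩ := Nat.exists_eq_add_of_le' hk
        rw [Nat.add_sub_cancel]
        ring

theorem K_int_nonneg {μ : Measure R3} {p C s : ℝ}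
    {K : Finset (Fin N) → (Fin N → R3) → ℝ} (hK : Kern μ N p C s K) (B B' : Finset (Fin N)) :
    0 ≤ ∫ x, K B x * K B' x ∂(PP μ N) :=
  integral_nonneg fun x => mul_nonneg (hK.nonneg _ _) (hK.nonneg _ _)

/-- grouping by the union -/
theorem sum_KU_eq {μ : Measure R3} [IsProbabilityMeasure μ] {p C s : ℝ}
    {K : Finset (Fin N) → (Fin N → R3) → ℝ} (hK : Kern μ N p C s K) :
    ∑ U : Finset (Fin N), (if 5 ≤ U.card then ∫ x, KU K U x ∂(PP μ N) else 0)
      = ∑ B : Finset (Fin N), ∑ B' ∈ Finset.univ.filter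
          (fun B' : Finset (Fin N) => 5 ≤ (B ∪ B').card ∧ ¬ Disjoint B B'),
          ∫ x, K B x * K B' x ∂(PP μ N) := by
  have hint : ∀ B B' : Finset (Fin N), Integrable (fun x => K B x * K B' x) (PP μ N) :=
    fun B B' => ((hK.nice B).mul (hK.nice B')).integrable μ
  have h1 : ∀ U : Finset (Fin N), (if 5 ≤ U.card then ∫ x, KU K U x ∂(PP μ N) else 0)
      = ∑ B : Finset (Fin N), ∑ B' : Finset (Fin N),
        (if B ∪ B' = U ∧ 5 ≤ (B ∪ B').card ∧ ¬ Disjoint B B' then
          ∫ x, K B x * K B' x ∂(PP μ N) else 0) := by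
    intro U
    split_ifs with hU
    · have e1 : ∫ x, KU K U x ∂(PP μ N) = ∑ B ∈ U.powerset, ∑ B' ∈ U.powerset.filter
          (fun B' => B ∪ B' = U ∧ ¬ Disjoint B B'), ∫ x, K B x * K B' x ∂(PP μ N) := by
        unfold KU
        rw [integral_finset_sum _ fun B _ => integrable_finset_sum _ fun B' _ => hint B B']
        refine Finset.sum_congr rfl fun B _ => ?_
        rw [integral_finset_sum _ fun B' _ => hint B B']
      rw [e1]
      symm
      rw [← Finset.sum_subset (Finset.subset_univ U.powerset)]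
      · refine Finset.sum_congr rfl fun B hB => ?_
        rw [← Finset.sum_filter]
        refine Finset.sum_congr ?_ fun _ _ => rfl
        ext B'
        simp only [Finset.mem_filter, Finset.mem_univ, true_and, Finset.mem_powerset]
        constructor
        · rintro ⟨h1, h2, h3⟩
          exact ⟨h1 ▸ Finset.subset_union_right, h1, h3⟩
        · rintro ⟨_, h2, h3⟩
          exact ⟨h2, h2 ▸ hU, h3⟩
      · intro B _ hB
        refine Finset.sum_eq_zero fun B' _ => ?_
        rw [if_neg]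
        rintro ⟨h1, -⟩
        exact hB (Finset.mem_powerset.2 (h1 ▸ Finset.subset_union_left))
    · symm
      refine Finset.sum_eq_zero fun B _ => Finset.sum_eq_zero fun B' _ => ?_
      rw [if_neg]
      rintro ⟨h1, h2, -⟩
      exact hU (h1 ▸ h2)
  simp only [h1]
  rw [Finset.sum_comm]
  refine Finset.sum_congr rfl fun B _ => ?_
  rw [Finset.sum_comm, Finset.sum_filter]
  refine Finset.sum_congr rfl fun B' _ => ?_
  by_cases hc : 5 ≤ (B ∪ B').card ∧ ¬ Disjoint B B'
  · rw [if_pos hc]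
    simp only [hc, not_false_eq_true, and_self, and_true]
    rw [Finset.sum_ite_eq, if_pos (Finset.mem_univ _)]
  · rw [if_neg hc]
    refine Finset.sum_eq_zero fun U _ => ?_
    rw [if_neg]
    rintro ⟨-, h2⟩
    exact hc h2

end CluE1aux

open CluE1aux

/-- The pairs with a union of at least five particles, for a kernel `K` with constant `s` and
`s² ≤ Y`: `∑ E[K_B K_{B'}] ≤ C' N δ⁴ Y` (`δ ≤ 1`, `1 ≤ Y`, `δ Y ≤ 1`). Proof: for `|B| = 3` at
least two particles of `B'` are outside `B`; `∑_{|B|=3} E[K_B] ≤ N δ² s` and `link_sum_two_le`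
gives `C δ² (1+s)`. For `|B| = 4`: `∑ E[K_B] ≤ C N δ³`, times `C δ` (`link_sum_le`). For
`|B| = 5`: `∑ E[K_B] ≤ C N δ⁴`, times `C` (the sets `B' ⊆ B`: `bd` with `B' ∖ B = ∅`) plus
`C δ`. -/
theorem five_sum_le (C : ℝ) (hC : 0 < C) : ∃ C' > 0, ∀ (μ : Measure R3)
    [IsProbabilityMeasure μ] (N : ℕ) (p s Y : ℝ), 0 < p → 1 ≤ s → s ^ 2 ≤ Y → N * p ≤ 1 →
      N * p * Y ≤ 1 →
    ∀ K : Finset (Fin N) → (Fin N → R3) → ℝ, Kern μ N p C s K →
      ∑ U : Finset (Fin N), (if 5 ≤ U.card then ∫ x, KU K U x ∂(PP μ N) else 0) ≤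
        C' * (N * (N * p) ^ 4 * Y) := by
  obtain ⟨C1, hC1, h1⟩ := link_sum_le C hC 5
  obtain ⟨C2, hC2, h2⟩ := link_sum_two_le C hC 5
  refine ⟨2 * C2 + C1 * C + (32 * C + C1) * C, by positivity, ?_⟩
  intro μ _ N p s Y hp hs hsY hδ hδY K hK
  have hs0 : 0 ≤ s := by linarith
  have hsle : s ≤ Y := by nlinarith
  have hY1 : 1 ≤ Y := by linarith
  have hN0 : (0 : ℝ) ≤ N := Nat.cast_nonneg N
  have hδ0 : 0 ≤ (N : ℝ) * p := by positivity
  have hδs : (N : ℝ) * p * s ≤ 1 := le_trans (by gcongr) hδY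
  rw [sum_KU_eq hK]
  -- the inner sum
  set f : Finset (Fin N) → ℝ := fun B => ∑ B' ∈ Finset.univ.filter
    (fun B' : Finset (Fin N) => 5 ≤ (B ∪ B').card ∧ ¬ Disjoint B B'),
    ∫ x, K B x * K B' x ∂(PP μ N) with hf
  have hzero : ∀ B : Finset (Fin N), (B.card < 3 ∨ 5 < B.card) → f B = 0 := by
    intro B hB
    rw [hf]
    refine Finset.sum_eq_zero fun B' _ => ?_
    have : (fun x => K B x * K B' x) = fun _ => 0 := by
      funext x
      rw [hK.zero B hB x, zero_mul]
    rw [this]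
    simp
  have hI0 : ∀ B : Finset (Fin N), 0 ≤ ∫ x, K B x ∂(PP μ N) := fun B =>
    integral_nonneg fun x => hK.nonneg _ _
  -- |B| = 3
  have h3 : ∀ B ∈ (Finset.univ : Finset (Fin N)).powersetCard 3,
      f B ≤ (C2 * (N * p) ^ 2 * (1 + s)) * ∫ x, K B x ∂(PP μ N) := by
    intro B hB
    rw [Finset.mem_powersetCard] at hB
    refine le_trans ?_ (h2 μ N p s hp hs0 hδ K hK B Finset.univ (K B) (by omega) (hK.nice B)
      (hK.nonneg B))
    refine Finset.sum_le_sum_of_subset_of_nonneg ?_ fun B' _ _ => K_int_nonneg hK B B'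
    intro B' hB'
    rw [Finset.mem_filter] at hB'
    rw [Finset.mem_filter, mem_link]
    have hc := Finset.card_union_add_card_inter B B'
    have hc2 := Finset.card_sdiff_add_card_inter B' B
    have hc3 : (B ∪ B').card = B.card + (B' \ B).card := by
      rw [Finset.inter_comm] at hc2
      omega
    have h2le : 2 ≤ (B' \ B).card := by omega
    refine ⟨⟨Finset.subset_univ _, fun h => hB'.2.2 h.symm, fun hsub => ?_⟩, h2le⟩
    rw [Finset.sdiff_eq_empty_iff_subset.2 hsub, Finset.card_empty] at h2le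
    omega
  -- |B| = 4
  have h4 : ∀ B ∈ (Finset.univ : Finset (Fin N)).powersetCard 4,
      f B ≤ (C1 * (N * p)) * ∫ x, K B x ∂(PP μ N) := by
    intro B hB
    rw [Finset.mem_powersetCard] at hB
    refine le_trans ?_ (h1 μ N p s hp hs0 hδ hδs K hK B Finset.univ (K B) (by omega) (hK.nice B)
      (hK.nonneg B))
    refine Finset.sum_le_sum_of_subset_of_nonneg ?_ fun B' _ _ => K_int_nonneg hK B B'
    intro B' hB'
    rw [Finset.mem_filter] at hB'
    rw [mem_link]
    refine ⟨Finset.subset_univ _, fun h => hB'.2.2 h.symm, fun hsub => ?_⟩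
    rw [Finset.union_eq_left.2 hsub] at hB'
    omega
  -- |B| = 5
  have h5 : ∀ B ∈ (Finset.univ : Finset (Fin N)).powersetCard 5,
      f B ≤ (32 * C + C1) * ∫ x, K B x ∂(PP μ N) := by
    intro B hB
    rw [Finset.mem_powersetCard] at hB
    have hsplit : f B ≤ ∑ B' ∈ link B Finset.univ, ∫ x, K B x * K B' x ∂(PP μ N)
        + ∑ B' ∈ B.powerset.filter (fun B' => ¬ Disjoint B' B), ∫ x, K B x * K B' x ∂(PP μ N) := by
      rw [← Finset.sum_union]
      · refine Finset.sum_le_sum_of_subset_of_nonneg ?_ fun B' _ _ => K_int_nonneg hK B B'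
        intro B' hB'
        rw [Finset.mem_filter] at hB'
        rw [Finset.mem_union, mem_link, Finset.mem_filter, Finset.mem_powerset]
        by_cases hsub : B' ⊆ B
        · exact Or.inr ⟨hsub, fun h => hB'.2.2 h.symm⟩
        · exact Or.inl ⟨Finset.subset_univ _, fun h => hB'.2.2 h.symm, hsub⟩
      · rw [Finset.disjoint_left]
        intro B' hB' hB''
        rw [mem_link] at hB'
        rw [Finset.mem_filter, Finset.mem_powerset] at hB''
        exact hB'.2.2 hB''.1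
    have hlink : ∑ B' ∈ link B Finset.univ, ∫ x, K B x * K B' x ∂(PP μ N)
        ≤ C1 * ∫ x, K B x ∂(PP μ N) := by
      refine (h1 μ N p s hp hs0 hδ hδs K hK B Finset.univ (K B) (by omega) (hK.nice B)
        (hK.nonneg B)).trans ?_
      have := hI0 B
      calc C1 * (N * p) * ∫ x, K B x ∂(PP μ N) ≤ C1 * 1 * ∫ x, K B x ∂(PP μ N) := by gcongr
        _ = C1 * ∫ x, K B x ∂(PP μ N) := by ring
    have hsub : ∑ B' ∈ B.powerset.filter (fun B' => ¬ Disjoint B' B), ∫ x, K B x * K B' x ∂(PP μ N)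
        ≤ 32 * C * ∫ x, K B x ∂(PP μ N) := by
      have hone : ∀ B' ∈ B.powerset.filter (fun B' => ¬ Disjoint B' B),
          ∫ x, K B x * K B' x ∂(PP μ N) ≤ C * ∫ x, K B x ∂(PP μ N) := by
        intro B' hB'
        rw [Finset.mem_filter, Finset.mem_powerset] at hB'
        by_cases hc : B'.card < 3
        · have : (fun x => K B x * K B' x) = fun _ => 0 := by
            funext x
            rw [hK.zero B' (Or.inl hc) x, mul_zero]
          rw [this]
          simp only [integral_zero]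
          exact mul_nonneg hC.le (hI0 B)
        · have h := hK.bd B B' (K B) (hK.nice B) (hK.nonneg B) hB'.2
          rw [Finset.inter_eq_left.2 hB'.1, Finset.sdiff_eq_empty_iff_subset.2 hB'.1,
            Finset.card_empty, pow_zero, mul_one, if_neg (by omega)] at h
          exact h
      refine (Finset.sum_le_card_nsmul _ _ _ hone).trans ?_
      rw [nsmul_eq_mul]
      have hcard : ((B.powerset.filter (fun B' => ¬ Disjoint B' B)).card : ℝ) ≤ 32 := by
        have : (B.powerset.filter (fun B' => ¬ Disjoint B' B)).card ≤ 32 := by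
          refine (Finset.card_filter_le _ _).trans ?_
          rw [Finset.card_powerset, hB.2]
          norm_num
        exact_mod_cast this
      calc _ ≤ 32 * (C * ∫ x, K B x ∂(PP μ N)) :=
            mul_le_mul_of_nonneg_right hcard (mul_nonneg hC.le (hI0 B))
        _ = 32 * C * ∫ x, K B x ∂(PP μ N) := by ring
    refine hsplit.trans ?_
    rw [add_mul]
    linarith
  -- split by the cardinality of `B`
  have hall : ∑ B : Finset (Fin N), f B
      = ∑ B ∈ (Finset.univ : Finset (Fin N)).powersetCard 3, f B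
        + ∑ B ∈ (Finset.univ : Finset (Fin N)).powersetCard 4, f B
        + ∑ B ∈ (Finset.univ : Finset (Fin N)).powersetCard 5, f B := by
    have e : ∀ k : ℕ, ∑ B ∈ (Finset.univ : Finset (Fin N)).powersetCard k, f B
        = ∑ B : Finset (Fin N), if B.card = k then f B else 0 := by
      intro k
      rw [← Finset.sum_filter]
      refine Finset.sum_congr ?_ fun _ _ => rfl
      ext B
      rw [Finset.mem_powersetCard, Finset.mem_filter]
      simp
    rw [e, e, e, ← Finset.sum_add_distrib, ← Finset.sum_add_distrib]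
    refine Finset.sum_congr rfl fun B _ => ?_
    by_cases hc : B.card < 3 ∨ 5 < B.card
    · rw [hzero B hc]
      simp
    · push Not at hc
      have : B.card = 3 ∨ B.card = 4 ∨ B.card = 5 := by omega
      rcases this with h | h | h <;> simp [h]
  show ∑ B : Finset (Fin N), f B ≤ _
  rw [hall]
  set δ : ℝ := (N : ℝ) * p with hδdef
  have S3 : ∑ B ∈ (Finset.univ : Finset (Fin N)).powersetCard 3, f B
      ≤ (C2 * δ ^ 2 * (1 + s)) * (N * (s * δ ^ 2)) := by
    refine (Finset.sum_le_sum h3).trans ?_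
    rw [← Finset.mul_sum]
    refine mul_le_mul_of_nonneg_left ?_ (by positivity)
    exact sum_card_le hp hK 3 (by norm_num) s hs0 (by simp)
  have S4 : ∑ B ∈ (Finset.univ : Finset (Fin N)).powersetCard 4, f B
      ≤ (C1 * δ) * (N * (C * δ ^ 3)) := by
    refine (Finset.sum_le_sum h4).trans ?_
    rw [← Finset.mul_sum]
    refine mul_le_mul_of_nonneg_left ?_ (by positivity)
    exact sum_card_le hp hK 4 (by norm_num) C hC.le (by simp)
  have S5 : ∑ B ∈ (Finset.univ : Finset (Fin N)).powersetCard 5, f B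
      ≤ (32 * C + C1) * (N * (C * δ ^ 4)) := by
    refine (Finset.sum_le_sum h5).trans ?_
    rw [← Finset.mul_sum]
    refine mul_le_mul_of_nonneg_left ?_ (by positivity)
    exact sum_card_le hp hK 5 (by norm_num) C hC.le (by simp)
  have hNδ : 0 ≤ (N : ℝ) * δ ^ 4 := by positivity
  have T3 : (C2 * δ ^ 2 * (1 + s)) * (N * (s * δ ^ 2)) ≤ 2 * C2 * (N * δ ^ 4 * Y) := by
    have a : (1 + s) * s ≤ 2 * Y := by nlinarith
    calc (C2 * δ ^ 2 * (1 + s)) * (N * (s * δ ^ 2)) = C2 * (N * δ ^ 4) * ((1 + s) * s) := by ring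
      _ ≤ C2 * (N * δ ^ 4) * (2 * Y) := mul_le_mul_of_nonneg_left a (by positivity)
      _ = 2 * C2 * (N * δ ^ 4 * Y) := by ring
  have T4 : (C1 * δ) * (N * (C * δ ^ 3)) ≤ C1 * C * (N * δ ^ 4 * Y) := by
    calc (C1 * δ) * (N * (C * δ ^ 3)) = C1 * C * (N * δ ^ 4 * 1) := by ring
      _ ≤ C1 * C * (N * δ ^ 4 * Y) := by gcongr
  have T5 : (32 * C + C1) * (N * (C * δ ^ 4)) ≤ (32 * C + C1) * C * (N * δ ^ 4 * Y) := by
    calc (32 * C + C1) * (N * (C * δ ^ 4)) = (32 * C + C1) * C * (N * δ ^ 4 * 1) := by ring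
      _ ≤ (32 * C + C1) * C * (N * δ ^ 4 * Y) := by gcongr
  calc _ ≤ 2 * C2 * (N * δ ^ 4 * Y) + C1 * C * (N * δ ^ 4 * Y)
        + (32 * C + C1) * C * (N * δ ^ 4 * Y) := by linarith
    _ = _ := by ring

end Pool.Agent.Lib.MP_5db8e2_mp
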