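import Pool.Agent.Lib.MP_5db8e2_mp.CluD
import Pool.Agent.Lib.MP_5db8e2_mp.CluE1

/-!
# Abstract cluster estimates: all the errors together
-/

set_option autoImplicit false

open MeasureTheory Filter Topology

namespace Pool.Agent.Lib.MP_5db8e2_mp

section aux

variable {N : ℕ} {h y : Finset (Fin N) → (Fin N → R3) → ℝ} {c M : ℝ}
  {g : Finset (Fin N) → Fin N → Fin 3 → (Fin N → R3) → ℝ}
  {K v : Finset (Fin N) → (Fin N → R3) → ℝ}

private theorem edens_nonneg (hE : EDat g K v) (S : Finset (Fin N)) (x : Fin N → R3) :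
    0 ≤ edens g v S x := by
  unfold edens
  exact add_nonneg (Finset.sum_nonneg fun i _ => Finset.sum_nonneg fun a _ => sq_nonneg _)
    (Finset.sum_nonneg fun B _ => hE.v_nonneg B x)

private theorem edens_nice (hE : EDat g K v) (S : Finset (Fin N)) : Nice S (edens g v S) := by
  have h1 : Nice S (fun x => ∑ i, ∑ a, (∑ B ∈ S.powerset, g B i a x) ^ 2) := by
    refine Nice.sum fun i _ => Nice.sum fun a _ => ?_
    have h2 : Nice S (fun x => ∑ B ∈ S.powerset, g B i a x) :=
      Nice.sum fun B hB => (hE.g_nice B i a).mono (Finset.mem_powerset.1 hB)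
    have h3 := h2.mul h2
    rw [Finset.union_self] at h3
    simpa only [pow_two] using h3
  have h2 : Nice S (fun x => ∑ B ∈ S.powerset, v B x) :=
    Nice.sum fun B hB => (hE.v_nice B).mono (Finset.mem_powerset.1 hB)
  have h3 := h1.add h2
  rw [Finset.union_self] at h3
  exact h3

private theorem AT_nonneg (hE : EDat g K v) (T : Finset (Fin N)) (x : Fin N → R3) :
    0 ≤ AT h g v T x := mul_nonneg (edens_nonneg hE T x) (sq_nonneg _)

private theorem AT_nice (hC : Clu h y c M) (hE : EDat g K v) (T : Finset (Fin N)) :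
    Nice T (AT h g v T) := by
  have h1 := Psi_nice hC T
  have h2 := h1.mul h1
  rw [Finset.union_self] at h2
  have h3 := (edens_nice hE T).mul h2
  rw [Finset.union_self] at h3
  unfold AT
  simpa only [pow_two] using h3

private theorem ce_ub_nonneg (hC : Clu h y c M) (T : Finset (Fin N)) (k : Fin N) (x : Fin N → R3) :
    0 ≤ ub y T k x := Finset.sum_nonneg fun B _ => hC.y_nonneg B x

private theorem link_subset {A S B : Finset (Fin N)} (h : B ∈ link A S) : B ⊆ S :=
  Finset.mem_powerset.1 (Finset.mem_filter.1 h).1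

private theorem ub_nice (hC : Clu h y c M) (T : Finset (Fin N)) (k : Fin N) :
    Nice (insert k T) (ub y T k) := by
  unfold ub
  exact Nice.sum fun B hB => (hC.y_nice B).mono (link_subset hB)

private theorem KU_nonneg (hE : EDat g K v) (U : Finset (Fin N)) (x : Fin N → R3) :
    0 ≤ KU K U x := by
  have hK : ∀ B x, 0 ≤ K B x := by
    intro B x
    by_cases hN : Nonempty (Fin N)
    · obtain ⟨i⟩ := hN
      exact (abs_nonneg _).trans (hE.g_le B i 0 x)
    · have : B.card < 3 := by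
        have : B = ∅ := by
          rw [Finset.eq_empty_iff_forall_notMem]
          intro i _
          exact hN ⟨i⟩
        rw [this]; simp
      rw [hE.K_card B (Or.inl this) x]
  unfold KU
  exact Finset.sum_nonneg fun B _ => Finset.sum_nonneg fun B' _ => mul_nonneg (hK _ _) (hK _ _)

end aux

/-- **All the errors together.** `AA` bounds `E[A_T] ≤ AA p²`, `E[KU_Q] ≤ AA p³` for `|Q| = 4`.
Then everything is `≤ C' N δ⁴ Y`. (Note `∑_T E[A_T] ≤ AA N δ²`, `∑_Q E[KU_Q] ≤ AA N δ³`,
`ε ≤ C' δ² (1+Y)`; `|E[B_Q]| ≤ C' (E[KU_Q] + ∑_{T⊂Q} E[A_T ub])`, `∑_Q |E[B_Q]| ≤ C' N δ³`. The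
triple kernels of `errS`: use `link_sum_le` for `F = KU_Q`; for `F = A_T` and then
`F = A_T ub_k` (depends on `T ∪ {k}`); `far4_sum_le`.) -/
theorem energy_count (c M C AA : ℝ) (hc : 0 < c) (hM : 1 ≤ M) (hC : 0 < C) (hA : 0 < AA) :
    ∃ C' > 0, ∀ (μ : Measure R3) [IsProbabilityMeasure μ] (N : ℕ) (p s Y : ℝ), 0 < p → 1 ≤ s →
      s ^ 2 ≤ Y → N * p ≤ 1 → N * p * Y ≤ 1 → C' * ((N * p) ^ 2 * Y) ≤ 1 →
    ∀ (h y : Finset (Fin N) → (Fin N → R3) → ℝ), Clu h y c M →
    ∀ (g : Finset (Fin N) → Fin N → Fin 3 → (Fin N → R3) → ℝ)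
      (K v : Finset (Fin N) → (Fin N → R3) → ℝ), EDat g K v → Kern μ N p C Y y →
      Kern μ N p C s K → (∀ T : Finset (Fin N), T.card = 3 → ∫ x, AT h g v T x ∂(PP μ N) ≤ AA * p ^ 2) →
      (∀ Q : Finset (Fin N), Q.card = 4 → ∫ x, KU K Q x ∂(PP μ N) ≤ AA * p ^ 3) →
      0 < ZZ μ h Finset.univ ∧
      ∫ x, edens g v Finset.univ x * Psi h Finset.univ x ^ 2 ∂(PP μ N) ≤
        ZZ μ h Finset.univ * (
          (∑ T ∈ Finset.univ.powersetCard 3, ∫ x, AT h g v T x ∂(PP μ N)) +
          (∑ Q ∈ Finset.univ.powersetCard 4, ∫ x, BQ h g v Q x ∂(PP μ N)) +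
          C' * (N * (N * p) ^ 4 * Y)) := by
  obtain ⟨C1, hC1, hen⟩ := energy_abs c M hc hM
  obtain ⟨C2, hC2, hpt⟩ := point_sum_le C hC
  obtain ⟨C3, hC3, hZ⟩ := Z_ratio c M hc hM 0
  obtain ⟨C4, hC4, huu⟩ := abs_uu_le c M hc hM
  obtain ⟨C6, hC6, hfive⟩ := five_sum_le C hC
  obtain ⟨C8, hC8, hlink⟩ := link_sum_le C hC 4
  obtain ⟨C9, hC9, hfar⟩ := far4_sum_le C hC
  set CB : ℝ := 15 * M ^ 8 * AA + 4 * (C4 * (16 * C * AA)) with hCB
  have hCB0 : 0 < CB := by positivity
  set CT : ℝ := C1 * (2 * C2 * AA + 2 * C2 * CB + (C6 + C8 * AA + C8 ^ 2 * AA + C9 * AA +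
    C8 ^ 2 * AA)) + 2 * C1 * C2 + 2 * C3 * C2 + 1 with hCT
  refine ⟨CT, by positivity, ?_⟩
  intro μ _ N p s Y hp hs hsY hδ hδY hCδ h y hCl g K v hE hky hkK hAT hKU
  have hY1 : 1 ≤ Y := by nlinarith
  have hY0 : 0 ≤ Y := by linarith
  set δ : ℝ := N * p with hδdef
  have hδ0 : 0 ≤ δ := by positivity
  have hNR : (0 : ℝ) ≤ N := Nat.cast_nonneg N
  set ε : ℝ := C2 * δ ^ 2 * (1 + Y) with hε
  have hε0 : 0 ≤ ε := by positivity
  have hεle : ε ≤ 2 * C2 * (δ ^ 2 * Y) := by
    have : 0 ≤ C2 * δ ^ 2 := by positivity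
    nlinarith
  have hsum : ∀ i : Fin N, ∑ B ∈ Finset.univ.filter (fun B : Finset (Fin N) => i ∈ B),
      ∫ x, y B x ∂(PP μ N) ≤ ε := fun i => hpt μ N p Y hp hY0 hδ y hky i
  have hδY2 : 0 ≤ δ ^ 2 * Y := by positivity
  have hC1ε : C1 * ε ≤ 1 := by
    refine le_trans ?_ hCδ
    calc C1 * ε ≤ C1 * (2 * C2 * (δ ^ 2 * Y)) := mul_le_mul_of_nonneg_left hεle hC1.le
      _ = (2 * C1 * C2) * (δ ^ 2 * Y) := by ring
      _ ≤ CT * (δ ^ 2 * Y) := by
        refine mul_le_mul_of_nonneg_right ?_ hδY2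
        have : 0 ≤ C1 * (2 * C2 * AA + 2 * C2 * CB + (C6 + C8 * AA + C8 ^ 2 * AA + C9 * AA +
          C8 ^ 2 * AA)) + 2 * C3 * C2 + 1 := by positivity
        rw [hCT]
        linarith
  have hC3ε : C3 * ε ≤ 1 := by
    refine le_trans ?_ hCδ
    calc C3 * ε ≤ C3 * (2 * C2 * (δ ^ 2 * Y)) := mul_le_mul_of_nonneg_left hεle hC3.le
      _ = (2 * C3 * C2) * (δ ^ 2 * Y) := by ring
      _ ≤ CT * (δ ^ 2 * Y) := by
        refine mul_le_mul_of_nonneg_right ?_ hδY2
        have : 0 ≤ C1 * (2 * C2 * AA + 2 * C2 * CB + (C6 + C8 * AA + C8 ^ 2 * AA + C9 * AA +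
          C8 ^ 2 * AA)) + 2 * C1 * C2 + 1 := by positivity
        rw [hCT]
        linarith
  have hZ0 : 0 < ZZ μ h Finset.univ :=
    (hZ μ N h y hCl ε hε0 hsum hC3ε Finset.univ ∅ (by simp) (by simp)).1
  refine ⟨hZ0, (hen μ N h y hCl g K v hE ε hε0 hsum hC1ε).trans ?_⟩
  refine mul_le_mul_of_nonneg_left ?_ hZ0.le
  refine add_le_add le_rfl ?_
  -- integrability
  have iAT : ∀ T, Integrable (AT h g v T) (PP μ N) := fun T => (AT_nice hCl hE T).integrable μ
  -- the basic expectation of `A_T ub_k`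
  have hATu : ∀ (T : Finset (Fin N)) (k : Fin N), k ∉ T →
      Nice (insert k T) (fun x => AT h g v T x * ub y T k x) := by
    intro T k _
    have := (AT_nice hCl hE T).mul (ub_nice hCl T k)
    rwa [Finset.union_eq_right.2 (Finset.subset_insert k T)] at this
  have hATu0 : ∀ (T : Finset (Fin N)) (k : Fin N) x, 0 ≤ AT h g v T x * ub y T k x :=
    fun T k x => mul_nonneg (AT_nonneg hE T x) (ce_ub_nonneg hCl T k x)
  have hATuE : ∀ (T : Finset (Fin N)) (k : Fin N), T.card = 3 → k ∉ T →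
      ∫ x, AT h g v T x * ub y T k x ∂(PP μ N) =
        ∑ B ∈ link T (insert k T), ∫ x, AT h g v T x * y B x ∂(PP μ N) := by
    intro T k _ _
    rw [← integral_finsetSum]
    · refine integral_congr_ae (Eventually.of_forall fun x => ?_)
      simp only [ub, Finset.mul_sum]
    · intro B _
      exact ((AT_nice hCl hE T).mul (hCl.y_nice B)).integrable μ
  have hATu_le : ∀ (T : Finset (Fin N)) (k : Fin N), T.card = 3 → k ∉ T →
      ∫ x, AT h g v T x * ub y T k x ∂(PP μ N) ≤ 16 * C * AA * p ^ 3 := by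
    intro T k hT hk
    rw [hATuE T k hT hk]
    have h1 : ∀ B ∈ link T (insert k T), ∫ x, AT h g v T x * y B x ∂(PP μ N) ≤
        C * AA * p ^ 3 := by
      intro B hB
      have hBS := link_subset hB
      obtain ⟨-, hBd, hBn⟩ := Finset.mem_filter.1 hB
      have hBT : B \ T = {k} := by
        have h2 : B \ T ⊆ {k} := by
          intro j hj
          rw [Finset.mem_sdiff] at hj
          rcases Finset.mem_insert.1 (hBS hj.1) with h3 | h3
          · exact Finset.mem_singleton.2 h3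
          · exact absurd h3 hj.2
        rcases Finset.subset_singleton_iff.1 h2 with h3 | h3
        · exact absurd (Finset.sdiff_eq_empty_iff_subset.1 h3) hBn
        · exact h3
      have hc1 : (B \ T).card = 1 := by rw [hBT]; simp
      have h4 := hky.bd T B (AT h g v T) (AT_nice hCl hE T) (AT_nonneg hE T) hBd
      have h5 : ¬ (B.card = 3 ∧ (B ∩ T).card = 1) := by
        rintro ⟨h6, h7⟩
        have := Finset.card_sdiff_add_card_inter B T
        omega
      rw [if_neg h5, hc1, pow_one] at h4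
      refine h4.trans ?_
      calc C * p * ∫ x, AT h g v T x ∂(PP μ N) ≤ C * p * (AA * p ^ 2) :=
            mul_le_mul_of_nonneg_left (hAT T hT) (by positivity)
        _ = C * AA * p ^ 3 := by ring
    refine (Finset.sum_le_card_nsmul _ _ _ h1).trans ?_
    rw [nsmul_eq_mul]
    have h2 : ((link T (insert k T)).card : ℝ) ≤ 16 := by
      have : (link T (insert k T)).card ≤ 16 := by
        refine (Finset.card_filter_le _ _).trans ?_
        rw [Finset.card_powerset, Finset.card_insert_of_notMem hk, hT]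
        norm_num
      exact_mod_cast this
    calc ((link T (insert k T)).card : ℝ) * (C * AA * p ^ 3) ≤ 16 * (C * AA * p ^ 3) :=
          mul_le_mul_of_nonneg_right h2 (by positivity)
      _ = 16 * C * AA * p ^ 3 := by ring
  -- `E |B_Q|`
  have hBQ : ∀ Q : Finset (Fin N), Q.card = 4 → |∫ x, BQ h g v Q x ∂(PP μ N)| ≤ CB * p ^ 3 := by
    intro Q hQ
    have hker : ∀ k ∈ Q, Nice Q (fun x => AT h g v (Q.erase k) x * ub y (Q.erase k) k x) := by
      intro k hk
      have := hATu (Q.erase k) k (Finset.notMem_erase k Q)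
      rwa [Finset.insert_erase hk] at this
    have h1 : ∀ x, |BQ h g v Q x| ≤ 15 * M ^ 8 * KU K Q x +
        ∑ k ∈ Q, C4 * (AT h g v (Q.erase k) x * ub y (Q.erase k) k x) := by
      intro x
      rw [BQ_eq hCl hE hQ x]
      refine (abs_add_le _ _).trans (add_le_add ?_ ?_)
      · rw [abs_mul, abs_of_nonneg (sq_nonneg (Psi h Q x))]
        have h2 : Psi h Q x ≤ M ^ 4 := by
          have := Psi_le hCl (Finset.Subset.refl Q) x
          rw [Finset.sdiff_self, hQ] at this
          have h3 : Psi h ∅ x = 1 := by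
            unfold Psi
            rw [Finset.powerset_empty, Finset.prod_singleton]
            exact hCl.h_one ∅ (Or.inl (by simp)) x
          rw [h3, mul_one] at this
          exact this
        have h3 : Psi h Q x ^ 2 ≤ M ^ 8 := by
          calc Psi h Q x ^ 2 ≤ (M ^ 4) ^ 2 := pow_le_pow_left₀ (Psi_pos hCl Q x).le h2 2
            _ = M ^ 8 := by ring
        calc |GU g Q x| * Psi h Q x ^ 2 ≤ (15 * KU K Q x) * M ^ 8 :=
              mul_le_mul (abs_GU_le hE Q x) h3 (sq_nonneg _)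
                (mul_nonneg (by norm_num) (KU_nonneg hE Q x))
          _ = 15 * M ^ 8 * KU K Q x := by ring
      · refine (Finset.abs_sum_le_sum_abs _ _).trans (Finset.sum_le_sum fun k hk => ?_)
        rw [abs_mul, abs_of_nonneg (AT_nonneg hE _ x)]
        have h2 : (Q.erase k).card = 3 := by
          rw [Finset.card_erase_of_mem hk, hQ]
        have h3 := (huu N h y hCl (Q.erase k) k h2 (Finset.notMem_erase k Q) x).1
        calc AT h g v (Q.erase k) x * |uu h (Q.erase k) k x| ≤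
            AT h g v (Q.erase k) x * (C4 * ub y (Q.erase k) k x) :=
              mul_le_mul_of_nonneg_left h3 (AT_nonneg hE _ x)
          _ = _ := by ring
    have hI1 : Integrable (fun x => 15 * M ^ 8 * KU K Q x) (PP μ N) :=
      ((KU_nice hE Q).integrable μ).const_mul _
    have hI2 : ∀ k ∈ Q, Integrable
        (fun x => C4 * (AT h g v (Q.erase k) x * ub y (Q.erase k) k x)) (PP μ N) :=
      fun k hk => ((hker k hk).integrable μ).const_mul _
    have hI3 := integrable_finsetSum Q hI2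
    have h2 : |∫ x, BQ h g v Q x ∂(PP μ N)| ≤ ∫ x, (15 * M ^ 8 * KU K Q x +
        ∑ k ∈ Q, C4 * (AT h g v (Q.erase k) x * ub y (Q.erase k) k x)) ∂(PP μ N) := by
      rw [← Real.norm_eq_abs]
      exact norm_integral_le_of_norm_le (hI1.add hI3) (Eventually.of_forall fun x => by
        rw [Real.norm_eq_abs]; exact h1 x)
    refine h2.trans ?_
    rw [integral_add hI1 hI3, integral_finsetSum Q hI2, integral_const_mul]
    have h3 : ∀ k ∈ Q, ∫ x, C4 * (AT h g v (Q.erase k) x * ub y (Q.erase k) k x) ∂(PP μ N) ≤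
        C4 * (16 * C * AA * p ^ 3) := by
      intro k hk
      rw [integral_const_mul]
      refine mul_le_mul_of_nonneg_left (hATu_le _ _ ?_ (Finset.notMem_erase k Q)) hC4.le
      rw [Finset.card_erase_of_mem hk, hQ]
    have h4 := Finset.sum_le_card_nsmul _ _ _ h3
    rw [hQ, nsmul_eq_mul] at h4
    have h5 := mul_le_mul_of_nonneg_left (hKU Q hQ) (show 0 ≤ 15 * M ^ 8 by positivity)
    rw [hCB]
    push_cast at h4
    calc _ ≤ 15 * M ^ 8 * (AA * p ^ 3) + 4 * (C4 * (16 * C * AA * p ^ 3)) := add_le_add h5 h4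
      _ = _ := by ring
  -- counting
  have hcount : ∀ (m : ℕ) (f : Finset (Fin N) → ℝ) (b : ℝ), 0 ≤ b →
      (∀ T : Finset (Fin N), T.card = m → f T ≤ b) →
      ∑ T ∈ Finset.univ.powersetCard m, f T ≤ (N : ℝ) ^ m * b := by
    intro m f b hb hf
    refine (Finset.sum_le_card_nsmul _ _ b fun T hT => hf T (Finset.mem_powersetCard.1 hT).2).trans ?_
    rw [nsmul_eq_mul, Finset.card_powersetCard, Finset.card_univ, Fintype.card_fin]
    refine mul_le_mul_of_nonneg_right ?_ hb
    exact_mod_cast Nat.choose_le_pow N m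
  have hS3 : ∑ T ∈ Finset.univ.powersetCard 3, ∫ x, AT h g v T x ∂(PP μ N) ≤ AA * (N * δ ^ 2) := by
    refine (hcount 3 _ (AA * p ^ 2) (by positivity) hAT).trans (le_of_eq ?_)
    rw [hδdef]; ring
  have hSB : ∑ Q ∈ Finset.univ.powersetCard 4, |∫ x, BQ h g v Q x ∂(PP μ N)| ≤
      CB * (N * δ ^ 3) := by
    refine (hcount 4 _ (CB * p ^ 3) (by positivity) hBQ).trans (le_of_eq ?_)
    rw [hδdef]; ring
  -- the link sum over the particles outside
  have hlk : ∀ (T : Finset (Fin N)), T.card = 3 →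
      ∑ k ∈ Tᶜ, ∫ x, AT h g v T x * ub y T k x ∂(PP μ N) ≤ C8 * δ * (AA * p ^ 2) := by
    intro T hT
    have h1 : ∑ k ∈ Tᶜ, ∫ x, AT h g v T x * ub y T k x ∂(PP μ N) =
        ∑ k ∈ Tᶜ, ∑ B ∈ link T (insert k T), ∫ x, AT h g v T x * y B x ∂(PP μ N) :=
      Finset.sum_congr rfl fun k hk => hATuE T k hT (Finset.mem_compl.1 hk)
    rw [h1, ← Finset.sum_biUnion]
    · refine le_trans (Finset.sum_le_sum_of_subset_of_nonneg (t := link T Finset.univ) ?_ ?_) ?_
      · intro B hB
        obtain ⟨k, -, hk⟩ := Finset.mem_biUnion.1 hB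
        have := (Finset.mem_filter.1 hk).2
        exact Finset.mem_filter.2 ⟨by simp, this⟩
      · intro B _ _
        exact integral_nonneg fun x => mul_nonneg (AT_nonneg hE T x) (hCl.y_nonneg B x)
      · refine (hlink μ N p Y hp hY0 hδ hδY y hky T Finset.univ (AT h g v T) (by omega)
          (AT_nice hCl hE T) (AT_nonneg hE T)).trans ?_
        exact mul_le_mul_of_nonneg_left (hAT T hT) (by positivity)
    · intro k hk k' hk' hne
      rw [Function.onFun, Finset.disjoint_left]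
      intro B hB hB'
      obtain ⟨-, -, hn⟩ := Finset.mem_filter.1 hB
      apply hn
      intro j hj
      have h2 := Finset.mem_insert.1 (link_subset hB hj)
      have h3 := Finset.mem_insert.1 (link_subset hB' hj)
      rcases h2 with h2 | h2
      · rcases h3 with h3 | h3
        · exact absurd (h2.symm.trans h3) hne
        · exact h3
      · exact h2
  have hI4 : ∀ (T B : Finset (Fin N)) (k : Fin N), k ∉ T → Integrable
      (fun x => AT h g v T x * ub y T k x * y B x) (PP μ N) := fun T B k hk =>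
    ((hATu T k hk).mul (hCl.y_nice B)).integrable μ
  -- a link sum for the kernel `A_T ub_k`
  have hlk2 : ∀ (T : Finset (Fin N)) (k : Fin N) (L : Finset (Finset (Fin N))), T.card = 3 → k ∉ T →
      L ⊆ link (insert k T) Finset.univ →
      ∑ B ∈ L, ∫ x, AT h g v T x * ub y T k x * y B x ∂(PP μ N) ≤
        C8 * δ * ∫ x, AT h g v T x * ub y T k x ∂(PP μ N) := by
    intro T k L hT hk hL
    refine (Finset.sum_le_sum_of_subset_of_nonneg hL fun B _ _ => ?_).trans ?_
    · exact integral_nonneg fun x => mul_nonneg (hATu0 T k x) (hCl.y_nonneg B x)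
    · exact hlink μ N p Y hp hY0 hδ hδY y hky (insert k T) Finset.univ
        (fun x => AT h g v T x * ub y T k x) (by rw [Finset.card_insert_of_notMem hk]; omega)
        (hATu T k hk) (hATu0 T k)
  -- the five error sums
  have hE1 : (∑ U : Finset (Fin N), if 5 ≤ U.card then ∫ x, KU K U x ∂(PP μ N) else 0) ≤
      C6 * (N * δ ^ 4 * Y) := hfive μ N p s Y hp hs hsY hδ hδY K hkK
  have hE2 : (∑ Q ∈ Finset.univ.powersetCard 4, ∑ B ∈ link Q Finset.univ,
      ∫ x, KU K Q x * y B x ∂(PP μ N)) ≤ C8 * AA * (N * δ ^ 4) := by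
    refine (hcount 4 _ (C8 * δ * (AA * p ^ 3)) (by positivity) fun Q hQ => ?_).trans
      (le_of_eq (by rw [hδdef]; ring))
    refine (hlink μ N p Y hp hY0 hδ hδY y hky Q Finset.univ (KU K Q) (by omega)
      (KU_nice hE Q) (KU_nonneg hE Q)).trans ?_
    exact mul_le_mul_of_nonneg_left (hKU Q hQ) (by positivity)
  have hE3 : (∑ T ∈ Finset.univ.powersetCard 3, ∑ k ∈ Tᶜ, ∑ l ∈ Tᶜ.erase k,
      ∫ x, AT h g v T x * (ub y T k x * ub y T l x) ∂(PP μ N)) ≤ C8 ^ 2 * AA * (N * δ ^ 4) := by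
    refine (hcount 3 _ (C8 * δ * (C8 * δ * (AA * p ^ 2))) (by positivity) fun T hT => ?_).trans
      (le_of_eq (by rw [hδdef]; ring))
    refine (Finset.sum_le_sum (g := fun k => C8 * δ * ∫ x, AT h g v T x * ub y T k x ∂(PP μ N))
      fun k hk => ?_).trans ?_
    · rw [Finset.mem_compl] at hk
      have h1 : ∀ l ∈ Tᶜ.erase k, ∫ x, AT h g v T x * (ub y T k x * ub y T l x) ∂(PP μ N) =
          ∑ B ∈ link T (insert l T), ∫ x, AT h g v T x * ub y T k x * y B x ∂(PP μ N) := by
        intro l _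
        rw [← integral_finsetSum _ fun B _ => hI4 T B k hk]
        refine integral_congr_ae (Eventually.of_forall fun x => ?_)
        simp only
        rw [← Finset.mul_sum]
        unfold ub
        ring
      rw [Finset.sum_congr rfl h1, ← Finset.sum_biUnion]
      · refine hlk2 T k _ hT hk ?_
        intro B hB
        obtain ⟨l, hl, hBl⟩ := Finset.mem_biUnion.1 hB
        obtain ⟨-, hd, hn⟩ := Finset.mem_filter.1 hBl
        rw [Finset.mem_erase, Finset.mem_compl] at hl
        refine Finset.mem_filter.2 ⟨by simp, ?_, ?_⟩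
        · intro hcon
          exact hd (hcon.mono_right (Finset.subset_insert k T))
        · intro hcon
          apply hn
          intro j hj
          have h2 := Finset.mem_insert.1 (link_subset hBl hj)
          have h3 := Finset.mem_insert.1 (hcon hj)
          rcases h2 with h2 | h2
          · rcases h3 with h3 | h3
            · exact absurd (h2.symm.trans h3) hl.1
            · exact h3
          · exact h2
      · intro l hl l' hl' hne
        rw [Function.onFun, Finset.disjoint_left]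
        intro B hB hB'
        obtain ⟨-, -, hn⟩ := Finset.mem_filter.1 hB
        apply hn
        intro j hj
        have h2 := Finset.mem_insert.1 (link_subset hB hj)
        have h3 := Finset.mem_insert.1 (link_subset hB' hj)
        rcases h2 with h2 | h2
        · rcases h3 with h3 | h3
          · exact absurd (h2.symm.trans h3) hne
          · exact h3
        · exact h2
    · rw [← Finset.mul_sum]
      exact mul_le_mul_of_nonneg_left (hlk T hT) (by positivity)
  have hE4 : (∑ T ∈ Finset.univ.powersetCard 3, ∑ Q ∈ far4 T Finset.univ,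
      ∫ x, AT h g v T x * y Q x ∂(PP μ N)) ≤ C9 * AA * (N * δ ^ 4) := by
    refine (hcount 3 _ (C9 * δ ^ 2 * (AA * p ^ 2)) (by positivity) fun T hT => ?_).trans
      (le_of_eq (by rw [hδdef]; ring))
    refine (hfar μ N p Y hp hY0 hδ y hky T (AT h g v T) hT (AT_nice hCl hE T)
      (AT_nonneg hE T)).trans ?_
    exact mul_le_mul_of_nonneg_left (hAT T hT) (by positivity)
  have hE5 : (∑ T ∈ Finset.univ.powersetCard 3, ∑ k ∈ Tᶜ, ∑ B ∈ link {k} Tᶜ,
      ∫ x, AT h g v T x * (ub y T k x * y B x) ∂(PP μ N)) ≤ C8 ^ 2 * AA * (N * δ ^ 4) := by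
    refine (hcount 3 _ (C8 * δ * (C8 * δ * (AA * p ^ 2))) (by positivity) fun T hT => ?_).trans
      (le_of_eq (by rw [hδdef]; ring))
    refine (Finset.sum_le_sum (g := fun k => C8 * δ * ∫ x, AT h g v T x * ub y T k x ∂(PP μ N))
      fun k hk => ?_).trans ?_
    · rw [Finset.mem_compl] at hk
      have h1 : ∀ B ∈ link {k} Tᶜ, ∫ x, AT h g v T x * (ub y T k x * y B x) ∂(PP μ N) =
          ∫ x, AT h g v T x * ub y T k x * y B x ∂(PP μ N) := by
        intro B _
        refine integral_congr_ae (Eventually.of_forall fun x => ?_)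
        simp only
        ring
      rw [Finset.sum_congr rfl h1]
      refine hlk2 T k _ hT hk ?_
      intro B hB
      have hBT := link_subset hB
      obtain ⟨-, hd, hn⟩ := Finset.mem_filter.1 hB
      refine Finset.mem_filter.2 ⟨by simp, ?_, ?_⟩
      · intro hcon
        refine hd (hcon.mono_right ?_)
        intro j hj
        rw [Finset.mem_singleton] at hj
        rw [hj]
        exact Finset.mem_insert_self k T
      · intro hcon
        apply hn
        intro j hj
        rcases Finset.mem_insert.1 (hcon hj) with h3 | h3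
        · exact Finset.mem_singleton.2 h3
        · exact absurd h3 (Finset.mem_compl.1 (hBT hj))
    · rw [← Finset.mul_sum]
      exact mul_le_mul_of_nonneg_left (hlk T hT) (by positivity)
  -- the total
  have hN4 : 0 ≤ (N : ℝ) * δ ^ 4 := by positivity
  have hN4Y : (N : ℝ) * δ ^ 4 ≤ N * δ ^ 4 * Y := le_mul_of_one_le_right hN4 hY1
  have herr : errS μ h y g K v ≤ (C6 + C8 * AA + C8 ^ 2 * AA + C9 * AA + C8 ^ 2 * AA) *
      (N * δ ^ 4 * Y) := by
    unfold errS
    have m2 := mul_le_mul_of_nonneg_left hN4Y (show 0 ≤ C8 * AA by positivity)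
    have m3 := mul_le_mul_of_nonneg_left hN4Y (show 0 ≤ C8 ^ 2 * AA by positivity)
    have m4 := mul_le_mul_of_nonneg_left hN4Y (show 0 ≤ C9 * AA by positivity)
    have e : (C6 + C8 * AA + C8 ^ 2 * AA + C9 * AA + C8 ^ 2 * AA) * (N * δ ^ 4 * Y) =
      C6 * (N * δ ^ 4 * Y) + C8 * AA * (N * δ ^ 4 * Y) + C8 ^ 2 * AA * (N * δ ^ 4 * Y) +
      C9 * AA * (N * δ ^ 4 * Y) + C8 ^ 2 * AA * (N * δ ^ 4 * Y) := by ring
    rw [e]
    exact add_le_add (add_le_add (add_le_add (add_le_add hE1 (hE2.trans m2)) (hE3.trans m3))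
      (hE4.trans m4)) (hE5.trans m3)
  have t1 : ε * (∑ T ∈ Finset.univ.powersetCard 3, ∫ x, AT h g v T x ∂(PP μ N)) ≤
      2 * C2 * AA * (N * δ ^ 4 * Y) := by
    calc _ ≤ (2 * C2 * (δ ^ 2 * Y)) * (AA * (N * δ ^ 2)) := by
          refine mul_le_mul hεle hS3 ?_ (by positivity)
          exact Finset.sum_nonneg fun T _ => integral_nonneg fun x => AT_nonneg hE T x
      _ = _ := by ring
  have t2 : ε * (∑ Q ∈ Finset.univ.powersetCard 4, |∫ x, BQ h g v Q x ∂(PP μ N)|) ≤
      2 * C2 * CB * (N * δ ^ 4 * Y) := by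
    calc _ ≤ (2 * C2 * (δ ^ 2 * Y)) * (CB * (N * δ ^ 3)) := by
          refine mul_le_mul hεle hSB ?_ (by positivity)
          exact Finset.sum_nonneg fun T _ => abs_nonneg _
      _ = 2 * C2 * CB * (N * δ ^ 4 * Y) * δ := by ring
      _ ≤ 2 * C2 * CB * (N * δ ^ 4 * Y) * 1 := by
          refine mul_le_mul_of_nonneg_left hδ (by positivity)
      _ = _ := by ring
  have hT : C1 * (ε * (∑ T ∈ Finset.univ.powersetCard 3, ∫ x, AT h g v T x ∂(PP μ N)) +
      ε * (∑ Q ∈ Finset.univ.powersetCard 4, |∫ x, BQ h g v Q x ∂(PP μ N)|) +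
      errS μ h y g K v) ≤ C1 * (2 * C2 * AA * (N * δ ^ 4 * Y) + 2 * C2 * CB * (N * δ ^ 4 * Y) +
        (C6 + C8 * AA + C8 ^ 2 * AA + C9 * AA + C8 ^ 2 * AA) * (N * δ ^ 4 * Y)) :=
    mul_le_mul_of_nonneg_left (add_le_add (add_le_add t1 t2) herr) hC1.le
  refine hT.trans ?_
  have hN5 : 0 ≤ (N : ℝ) * δ ^ 4 * Y := by positivity
  have e : C1 * (2 * C2 * AA * (N * δ ^ 4 * Y) + 2 * C2 * CB * (N * δ ^ 4 * Y) +
        (C6 + C8 * AA + C8 ^ 2 * AA + C9 * AA + C8 ^ 2 * AA) * (N * δ ^ 4 * Y)) =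
      C1 * (2 * C2 * AA + 2 * C2 * CB + (C6 + C8 * AA + C8 ^ 2 * AA + C9 * AA +
        C8 ^ 2 * AA)) * (N * δ ^ 4 * Y) := by ring
  rw [e]
  refine mul_le_mul_of_nonneg_right ?_ hN5
  have : 0 ≤ 2 * C1 * C2 + 2 * C3 * C2 + 1 := by positivity
  rw [hCT]
  linarith

end Pool.Agent.Lib.MP_5db8e2_mp
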