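import Mathlib

/-!
# The three-body Bose gas: definitions

* `R3`: the physical space `ℝ³`.
* `Pot V`: the potentials of the problem.
* `pd Ψ i a x`: the partial derivative of `Ψ` in the `a`-th coordinate of the `i`-th particle.
* `box L N`: the configurations of `N` particles in the cube `[-L/2, L/2]³`.
* `energy V L Ψ`: the quadratic form of `H_{N,L}` (Neumann Laplacian).
* `gs V N L`: the ground state energy on symmetric functions.
* `bM V`: the modified scattering energy `b_𝓜(V)`.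
* `IsTL V ρ e`: `e` is the thermodynamic limit of the energy per volume at the density `ρ`.
-/

set_option autoImplicit false

open MeasureTheory Filter Topology

namespace Pool.Agent.Lib.MP_5db8e2_mp

/-- The physical space. -/
abbrev R3 : Type := Fin 3 → ℝ

/-- The potentials of the problem: measurable, bounded, nonnegative, compactly supported, with the
three-body symmetry. -/
structure Pot (V : R3 → R3 → ℝ) : Prop where
  meas : Measurable (fun p : R3 × R3 => V p.1 p.2)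
  nonneg : ∀ x y, 0 ≤ V x y
  bdd : ∃ C, ∀ x y, V x y ≤ C
  supp : ∃ R, ∀ x y, V x y ≠ 0 → ‖x‖ ≤ R ∧ ‖y‖ ≤ R
  symm : ∀ x y, V x y = V y x
  symm3 : ∀ x y z, V (x - y) (x - z) = V (y - x) (y - z) ∧ V (y - x) (y - z) = V (z - y) (z - x)

/-- The partial derivative in the `a`-th coordinate of the `i`-th particle. -/
noncomputable def pd {E : Type*} [NormedAddCommGroup E] [NormedSpace ℝ E] {N : ℕ}
    (Ψ : (Fin N → R3) → E) (i : Fin N) (a : Fin 3) (x : Fin N → R3) : E :=
  fderiv ℝ Ψ x (Pi.single i (Pi.single a 1))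

/-- The configurations of `N` particles in the cube `[-L/2, L/2]³`. -/
def box (L : ℝ) (N : ℕ) : Set (Fin N → R3) := {x | ∀ i a, |x i a| ≤ L / 2}

/-- The total potential energy `∑_{i<j<k} V(x_i - x_j, x_i - x_k)` of a configuration. -/
noncomputable def pot (V : R3 → R3 → ℝ) {N : ℕ} (x : Fin N → R3) : ℝ :=
  ∑ i, ∑ j, ∑ k, if i < j ∧ j < k then V (x i - x j) (x i - x k) else 0

/-- The quadratic form of `H_{N,L}`: kinetic energy (Neumann) plus potential energy. -/
noncomputable def energy {E : Type*} [NormedAddCommGroup E] [NormedSpace ℝ E]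
    (V : R3 → R3 → ℝ) (L : ℝ) {N : ℕ} (Ψ : (Fin N → R3) → E) : ℝ :=
  ∫ x in box L N, (∑ i, ∑ a, ‖pd Ψ i a x‖ ^ 2 + pot V x * ‖Ψ x‖ ^ 2)

/-- The ground state energy of `N` particles in the cube of side `L`: the infimum of the quadratic
form over the normalized symmetric wave functions which are continuously differentiable up to the
boundary. -/
noncomputable def gs (V : R3 → R3 → ℝ) (N : ℕ) (L : ℝ) : ℝ :=
  sInf {E : ℝ | ∃ Ψ : (Fin N → R3) → ℂ, ContDiff ℝ 1 Ψ ∧
    (∀ (σ : Equiv.Perm (Fin N)) (x : Fin N → R3), Ψ (x ∘ σ) = Ψ x) ∧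
    ∫ x in box L N, ‖Ψ x‖ ^ 2 = 1 ∧ E = energy V L Ψ}

/-- The modified scattering energy: the infimum of `∫ 2|𝓜∇φ|² + V |1-φ|²`, where
`|𝓜∇φ|² = |∇₁φ|² + |∇₂φ|² + ∇₁φ·∇₂φ`. -/
noncomputable def bM (V : R3 → R3 → ℝ) : ℝ :=
  sInf {E : ℝ | ∃ φ : R3 × R3 → ℝ, ContDiff ℝ 1 φ ∧ HasCompactSupport φ ∧
    E = ∫ p : R3 × R3,
      (2 * ∑ a : Fin 3, (fderiv ℝ φ p (Pi.single a 1, 0) ^ 2 + fderiv ℝ φ p (0, Pi.single a 1) ^ 2 +
        fderiv ℝ φ p (Pi.single a 1, 0) * fderiv ℝ φ p (0, Pi.single a 1)) +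
        V p.1 p.2 * (1 - φ p) ^ 2)}

/-- `e` is the thermodynamic limit of the ground state energy per unit volume at density `ρ`. -/
def IsTL (V : R3 → R3 → ℝ) (ρ e : ℝ) : Prop :=
  ∀ (N : ℕ → ℕ) (L : ℕ → ℝ), (∀ k, 0 < L k) → Tendsto N atTop atTop →
    Tendsto (fun k => (N k : ℝ) / L k ^ 3) atTop (𝓝 ρ) →
    Tendsto (fun k => gs V (N k) (L k) / L k ^ 3) atTop (𝓝 e)

/-! ## Translation invariant functions of a cluster of `k` particles -/

/-- The centre of mass. -/
noncomputable def cm {k : ℕ} (x : Fin k → R3) : R3 := fun a => (∑ m, x m a) / k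

/-- The squared radius of a cluster. -/
noncomputable def rsq {k : ℕ} (x : Fin k → R3) : ℝ := ∑ m, ∑ a, (x m a - cm x a) ^ 2

/-- The radius of a cluster. -/
noncomputable def rad {k : ℕ} (x : Fin k → R3) : ℝ := Real.sqrt (rsq x)

/-- The scalar product of the gradients of two functions of a cluster. -/
noncomputable def gg {k : ℕ} (φ ψ : (Fin k → R3) → ℝ) (x : Fin k → R3) : ℝ :=
  ∑ m, ∑ a, pd φ m a x * pd ψ m a x

/-- Translation invariant functions. -/
def TI {k : ℕ} {E : Type*} (φ : (Fin k → R3) → E) : Prop := ∀ (x : Fin k → R3) (v : R3), φ (fun m => x m + v) = φ x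

/-- Permutation invariant functions. -/
def PI {k : ℕ} {E : Type*} (φ : (Fin k → R3) → E) : Prop :=
  ∀ (σ : Equiv.Perm (Fin k)) (x : Fin k → R3), φ (x ∘ σ) = φ x

/-- The integral over the relative coordinates of `k + 1` particles (the first one is at `0`). -/
noncomputable def rint {k : ℕ} (F : (Fin (k + 1) → R3) → ℝ) : ℝ :=
  ∫ y : Fin k → R3, F (Fin.cons 0 y)

/-- The potential as a function of a cluster of three particles. -/
def V3 (V : R3 → R3 → ℝ) (x : Fin 3 → R3) : ℝ := V (x 0 - x 1) (x 0 - x 2)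

/-- The three-body scattering function `φ = 1 - f`. -/
structure Scat (V : R3 → R3 → ℝ) (φ : (Fin 3 → R3) → ℝ) : Prop where
  c1 : ContDiff ℝ 1 φ
  ti : TI φ
  pi : PI φ
  nonneg : ∀ x, 0 ≤ φ x
  lt_one : ∃ c > 0, ∀ x, φ x ≤ 1 - c
  decay : ∃ C, ∀ x, φ x ≤ C / (1 + rad x) ^ 4
  decay' : ∃ C, ∀ x m a, |pd φ m a x| ≤ C / (1 + rad x) ^ 5
  weak : ∀ z : (Fin 3 → R3) → ℝ, ContDiff ℝ 1 z → HasCompactSupport z →
    ∫ x, gg φ z x = ∫ x, V3 V x * (1 - φ x) * z x
  b_eq : rint (fun x => V3 V x * (1 - φ x)) = bM V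

end Pool.Agent.Lib.MP_5db8e2_mp
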