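import Pool.Agent.Lib.MP_5db8e2_mp.ScatB

/-!
# The scattering function: the data of the lower bound
-/

set_option autoImplicit false

open MeasureTheory Filter Topology

namespace Pool.Agent.Lib.MP_5db8e2_mp

variable {V : R3 → R3 → ℝ}

namespace ScatCaux

/-- A continuous function with bounded support (in the relative coordinates) is relatively
integrable. -/
theorem RI_cc {k : ℕ} {F : (Fin (k + 1) → R3) → ℝ} (hF : Continuous F) {R : ℝ}
    (h : ∀ x, F x ≠ 0 → rad x ≤ R) : RI F := by
  unfold RI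
  apply Continuous.integrable_of_hasCompactSupport
  · exact hF.comp continuous_cons0
  · apply HasCompactSupport.of_support_subset_isCompact (isCompact_closedBall (0 : Fin k → R3) (2 * R))
    intro y hy
    rw [mem_closedBall_zero_iff]
    have h1 := h _ hy
    have h2 := norm_le_rad_cons y
    linarith

/-- `V F` is relatively integrable for continuous `F`. -/
theorem RI_V (hV : Pot V) {F : (Fin 3 → R3) → ℝ} (hF : Continuous F) :
    RI (k := 2) (fun x => V3 V x * F x) := by
  obtain ⟨hm, h0, -, -, B, hB, R, hR, hb, hs⟩ := V3_props hV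
  have hc : Continuous fun y : Fin 2 → R3 => F (Fin.cons 0 y) := hF.comp continuous_cons0
  have h1 : IntegrableOn (fun y : Fin 2 → R3 => F (Fin.cons 0 y))
      (Metric.closedBall 0 (2 * R)) :=
    hc.continuousOn.integrableOn_compact (isCompact_closedBall _ _)
  have h2 : IntegrableOn (fun y : Fin 2 → R3 => V3 V (Fin.cons 0 y) * F (Fin.cons 0 y))
      (Metric.closedBall 0 (2 * R)) := by
    refine Integrable.bdd_mul (c := B) h1 ?_ ?_
    · exact (hm.comp measurable_cons0).aestronglyMeasurable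
    · refine Eventually.of_forall fun y => ?_
      rw [Real.norm_eq_abs, abs_of_nonneg (h0 _)]
      exact hb _
  have h3 := (integrableOn_iff_integrable_of_support_subset (s := Metric.closedBall 0 (2 * R))
    (f := fun y : Fin 2 → R3 => V3 V (Fin.cons 0 y) * F (Fin.cons 0 y)) ?_).mp h2
  · exact h3
  · intro y hy
    rw [mem_closedBall_zero_iff]
    have h4 : V3 V (Fin.cons 0 y) ≠ 0 := by
      intro h5
      apply hy
      simp [h5]
    have h5 := hs _ h4
    have h6 := norm_le_rad_cons y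
    linarith

/-- The centre of mass as a linear map. -/
noncomputable def cmL : (Fin 3 → R3) →L[ℝ] R3 :=
  LinearMap.toContinuousLinearMap
    { toFun := cm
      map_add' := fun x y => by
        funext a
        simp only [cm, Pi.add_apply, Finset.sum_add_distrib]
        ring
      map_smul' := fun c x => by
        funext a
        simp only [cm, Pi.smul_apply, smul_eq_mul, ← Finset.mul_sum, RingHom.id_apply]
        ring }

theorem cmL_apply (x : Fin 3 → R3) : cmL x = cm x := rfl

theorem cm_single (m : Fin 3) (a : Fin 3) :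
    cm (Pi.single m (Pi.single a 1) : Fin 3 → R3) = (3 : ℝ)⁻¹ • (Pi.single a 1 : R3) := by
  funext b
  simp only [cm, Pi.smul_apply, smul_eq_mul]
  rw [Finset.sum_eq_single m]
  · rw [Pi.single_eq_same]
    push_cast
    ring
  · intro j _ hj
    rw [Pi.single_eq_of_ne hj]
    rfl
  · simp

theorem pd_comp_cm {h : R3 → ℝ} (hh : ContDiff ℝ 1 h) (m a : Fin 3) (x : Fin 3 → R3) :
    pd (fun x => h (cm x)) m a x = fderiv ℝ h (cm x) ((3 : ℝ)⁻¹ • (Pi.single a 1 : R3)) := by
  unfold pd
  have h1 : HasFDerivAt (fun x => h (cm x)) ((fderiv ℝ h (cm x)).comp cmL) x := by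
    have h2 : HasFDerivAt h (fderiv ℝ h (cmL x)) (cmL x) :=
      ((hh.differentiable (by norm_num)) _).hasFDerivAt
    exact h2.comp x cmL.hasFDerivAt
  rw [h1.fderiv]
  simp only [ContinuousLinearMap.comp_apply, cmL_apply, cm_single]

theorem gg_comp_cm {h : R3 → ℝ} (hh : ContDiff ℝ 1 h) {φ : (Fin 3 → R3) → ℝ}
    (hφ : ContDiff ℝ 1 φ) (ht : TI φ) (x : Fin 3 → R3) : gg φ (fun x => h (cm x)) x = 0 := by
  unfold gg
  rw [Finset.sum_comm]
  apply Finset.sum_eq_zero
  intro a _
  have h1 : ∀ m, pd φ m a x * pd (fun x => h (cm x)) m a x =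
      pd φ m a x * fderiv ℝ h (cm x) ((3 : ℝ)⁻¹ • (Pi.single a 1 : R3)) := by
    intro m
    rw [pd_comp_cm hh]
  simp_rw [h1]
  rw [← Finset.sum_mul, TI_sum_pd ht ((hφ.differentiable (by norm_num)) x), zero_mul]

theorem exists_weight : ∃ h : R3 → ℝ, ContDiff ℝ 1 h ∧ HasCompactSupport h ∧ ∫ c, h c = 1 := by
  let f : ContDiffBump (0 : R3) := ⟨1, 2, by norm_num, by norm_num⟩
  exact ⟨f.normed volume, f.contDiff_normed, f.hasCompactSupport_normed, f.integral_normed⟩

theorem gg_support {k : ℕ} {φ ζ : (Fin k → R3) → ℝ} {R : ℝ}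
    (h : ∀ m a x, pd ζ m a x ≠ 0 → rad x ≤ R) (x : Fin k → R3) (hx : gg φ ζ x ≠ 0) :
    rad x ≤ R := by
  by_contra hc
  apply hx
  unfold gg
  apply Finset.sum_eq_zero
  intro m _
  apply Finset.sum_eq_zero
  intro a _
  have : pd ζ m a x = 0 := by
    by_contra h0
    exact hc (h m a x h0)
  rw [this, mul_zero]

theorem cm_bound (x : Fin 3 → R3) (m : Fin 3) : ‖x m‖ ≤ ‖cm x‖ + rad x := by
  rw [pi_norm_le_iff_of_nonneg (add_nonneg (norm_nonneg _) (rad_nonneg _))]
  intro a
  have h1 := abs_sub_cm_le x m a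
  have h2 : ‖cm x a‖ ≤ ‖cm x‖ := norm_le_pi_norm _ a
  rw [Real.norm_eq_abs] at h2 ⊢
  have h3 : |x m a| ≤ |x m a - cm x a| + |cm x a| := by
    have := abs_add_le (x m a - cm x a) (cm x a)
    simpa using this
  linarith

end ScatCaux

open ScatCaux

/-- **The scattering function exists.** (`weak`: `weak_of_rel` with `v = 1`.) -/
theorem exists_scat (hV : Pot V) : ∃ φ : (Fin 3 → R3) → ℝ, Scat V φ := by
  obtain ⟨φ, hc, ht, hp, ⟨C, hC, hb⟩, he⟩ := exists_phi hV
  obtain ⟨hm, h0, hVt, hVp, B, hB, R, hR, hVb, hs⟩ := V3_props hV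
  have hb1 : ∀ x, |φ x| ≤ C / (1 + rad x) ^ 4 := fun x => (hb x).1
  have hb2 : ∀ x m a, |pd φ m a x| ≤ C / (1 + rad x) ^ 5 := fun x => (hb x).2
  have hbb : ∀ x, |φ x| ≤ C := by
    intro x
    refine (hb1 x).trans ?_
    apply div_le_self hC.le
    exact one_le_pow₀ (by linarith [rad_nonneg x])
  have hbb2 : ∀ m a x, |pd φ m a x| ≤ C := by
    intro m a x
    refine (hb2 x m a).trans ?_
    apply div_le_self hC.le
    exact one_le_pow₀ (by linarith [rad_nonneg x])
  have hw : ∀ ζ, TF ζ → rint (gg φ ζ) = rint fun x => V3 V x * (1 - φ x) * ζ x :=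
    fun ζ hζ => phi_weak hV hc ⟨C, hbb⟩ he hζ
  refine ⟨φ, ?_⟩
  refine
    { c1 := hc
      ti := ht
      pi := hp
      nonneg := phi_nonneg hV hc ht hb1 he
      lt_one := phi_lt_one hV hc ht hb1 he
      decay := ⟨C, fun x => (le_abs_self _).trans (hb1 x)⟩
      decay' := ⟨C, hb2⟩
      weak := ?_
      b_eq := b_eq_bM hV hc ht hb1 hb2 hw }
  intro z hz hzs
  have h := weak_of_rel (k := 2) (A := fun m a => pd φ m a) (B := fun x => V3 V x * (1 - φ x))
    (fun m a => (continuous_pd hc m a).measurable) (fun m a => TI_pd ht m a)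
    ⟨C, hbb2⟩ (fun a x => TI_sum_pd ht ((hc.differentiable (by norm_num)) x) a)
    (hm.mul (measurable_const.sub hc.continuous.measurable))
    (fun x v => by beta_reduce; rw [hVt x v, ht x v]) ⟨B * (1 + C), fun x => ?_⟩
    (fun ζ hζ => hw ζ hζ) (v := fun _ => (1 : ℝ)) (z := z) measurable_const ⟨1, fun _ => by simp⟩
    hz hzs
  · simpa only [one_mul, gg] using h
  · rw [abs_mul, abs_of_nonneg (h0 x)]
    have h1 : |1 - φ x| ≤ 1 + C := by
      have := abs_sub (1 : ℝ) (φ x)
      rw [abs_one] at this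
      linarith [hbb x]
    exact mul_le_mul (hVb x) h1 (abs_nonneg _) hB.le

/-- The relative weak equation from `Scat.weak`: approximate; or use that the scattering
function is unique. Test with `z x = ζ x * h (cm x)`, `h ∈ C_c^1(R³)` with `∫ h = 1`;
`gg φ z = h(cm x) gg φ ζ x + ζ gg φ (h ∘ cm)`, the second term vanishes because
`∑_m pd φ m a = 0`; `integral_weight`. -/
theorem Scat.rel {φ : (Fin 3 → R3) → ℝ} (hV : Pot V) (h : Scat V φ) {ζ : (Fin 3 → R3) → ℝ}
    (hζ : TF ζ) : rint (gg φ ζ) = rint fun x => V3 V x * (1 - φ x) * ζ x := by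
  obtain ⟨η, hη, hηs, hη1⟩ := exists_weight
  obtain ⟨hm, h0, hVt, hVp, B, hB, RV, hRV, hVb, hs⟩ := V3_props hV
  obtain ⟨R, hR⟩ := hζ.supp
  have hcm : ContDiff ℝ 1 (fun x : Fin 3 → R3 => η (cm x)) := hη.comp contDiff_cm
  have hz : ContDiff ℝ 1 (fun x => ζ x * η (cm x)) := hζ.c1.mul hcm
  have hzs : HasCompactSupport (fun x => ζ x * η (cm x)) := by
    obtain ⟨D, hD⟩ := hηs.isBounded.exists_norm_le
    apply HasCompactSupport.of_support_subset_isCompact
      (isCompact_closedBall (0 : Fin 3 → R3) (D + R))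
    intro x hx
    have h1 : ζ x ≠ 0 := fun h => hx (by simp [h])
    have h2 : η (cm x) ≠ 0 := fun h => hx (by simp [h])
    have h3 := hR x h1
    have h4 : ‖cm x‖ ≤ D := hD _ (subset_tsupport _ h2)
    rw [mem_closedBall_zero_iff, pi_norm_le_iff_of_nonneg
      (by linarith [norm_nonneg (cm x), rad_nonneg x])]
    intro m
    have := cm_bound x m
    linarith
  have hw := h.weak _ hz hzs
  have e1 : ∀ x, gg φ (fun x => ζ x * η (cm x)) x = η (cm x) * gg φ ζ x := by
    intro x
    rw [gg_mul_right hζ.c1 hcm, gg_comp_cm hη h.c1 h.ti, mul_zero, zero_add]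
  have e2 : ∀ x, V3 V x * (1 - φ x) * (ζ x * η (cm x)) =
      η (cm x) * (V3 V x * (1 - φ x) * ζ x) := by
    intro x
    ring
  simp_rw [e1, e2] at hw
  have hcmv : ∀ (x : Fin 3 → R3) (v : R3), cm (fun m => x m + v) = cm x + v := by
    intro x v
    exact cm_shift (by norm_num) x v
  have hcmm : Measurable (cm : (Fin 3 → R3) → R3) := continuous_cm.measurable
  have hηi : Integrable η := hη.continuous.integrable_of_hasCompactSupport hηs
  have hgc : Continuous (gg φ ζ) := continuous_gg h.c1 hζ.c1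
  have i1 := (integral_weight (k := 2) (F := gg φ ζ) hgc.measurable
    (TI_gg h.ti hζ.ti) (RI_cc hgc (R := R) (gg_support (fun m a x hx =>
      pd_eq_zero_of_rad hζ.c1 hR m a x hx))) hcmm hcmv hηi).2
  have hVm : Measurable (fun x => V3 V x * (1 - φ x) * ζ x) :=
    (hm.mul (measurable_const.sub h.c1.continuous.measurable)).mul hζ.c1.continuous.measurable
  have hVti : TI (fun x => V3 V x * (1 - φ x) * ζ x) := by
    intro x v
    show V3 V _ * (1 - φ _) * ζ _ = _
    rw [hVt x v, h.ti x v, hζ.ti x v]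
  have hVRI : RI (k := 2) (fun x => V3 V x * (1 - φ x) * ζ x) := by
    have := RI_V hV (F := fun x => (1 - φ x) * ζ x)
      ((continuous_const.sub h.c1.continuous).mul hζ.c1.continuous)
    simpa only [mul_assoc] using this
  have i2 := (integral_weight (k := 2) (F := fun x => V3 V x * (1 - φ x) * ζ x) hVm hVti hVRI
    hcmm hcmv hηi).2
  rw [i1, i2, hη1, one_mul, one_mul] at hw
  exact hw


namespace ScatCaux

/-- The Laplacian. -/
noncomputable def lap {k : ℕ} (χ : (Fin k → R3) → ℝ) (x : Fin k → R3) : ℝ :=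
  ∑ m, ∑ a, pd (fun x => pd χ m a x) m a x

theorem contDiff_pd1 {k : ℕ} {χ : (Fin k → R3) → ℝ} (hχ : ContDiff ℝ 2 χ) (m : Fin k)
    (a : Fin 3) : ContDiff ℝ 1 (fun x => pd χ m a x) := by
  have h := contDiff_pd (n := 1) (φ := χ) (by
    have e : ((1 : ℕ) : WithTop ℕ∞) + 1 = 2 := by norm_num
    rw [e]; exact hχ) m a
  simpa using h

theorem lap_cont {k : ℕ} {χ : (Fin k → R3) → ℝ} (hχ : ContDiff ℝ 2 χ) : Continuous (lap χ) := by
  unfold lap
  refine continuous_finsetSum _ fun m _ => continuous_finsetSum _ fun a _ => ?_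
  exact continuous_pd (contDiff_pd1 hχ m a) m a

theorem lap_TI {k : ℕ} {χ : (Fin k → R3) → ℝ} (ht : TI χ) : TI (lap χ) := by
  intro x v
  unfold lap
  refine Finset.sum_congr rfl fun m _ => Finset.sum_congr rfl fun a _ => ?_
  exact TI_pd (TI_pd ht m a) m a x v

theorem lap_PI {k : ℕ} {χ : (Fin k → R3) → ℝ} (hχ : ContDiff ℝ 2 χ) (hp : PI χ) :
    PI (lap χ) := by
  intro σ x
  have hχ1 : ContDiff ℝ 1 χ := hχ.of_le (by norm_num)
  have h1 : ∀ m a (y : Fin k → R3), pd χ m a y = pd χ (σ.symm m) a (y ∘ σ) := by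
    intro m a y
    have h2 := pd_perm (φ := χ) (x := y) σ ((hχ1.differentiable (by norm_num)) _) m a
    rw [← h2]
    congr 1
    funext z
    exact (hp σ z).symm
  have h3 : ∀ m a, pd (fun x => pd χ m a x) m a x =
      pd (fun x => pd χ (σ.symm m) a x) (σ.symm m) a (x ∘ σ) := by
    intro m a
    have h4 := pd_perm (φ := fun x => pd χ (σ.symm m) a x) (x := x) σ
      (((contDiff_pd1 hχ (σ.symm m) a).differentiable (by norm_num)) _) m a
    rw [← h4]
    congr 1
    funext z
    exact h1 m a z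
  have h5 : lap χ x = ∑ m, ∑ a, pd (fun x => pd χ (σ.symm m) a x) (σ.symm m) a (x ∘ σ) := by
    unfold lap
    exact Finset.sum_congr rfl fun m _ => Finset.sum_congr rfl fun a _ => h3 m a
  rw [h5]
  unfold lap
  exact (Equiv.sum_comp σ.symm
    (fun m => ∑ a, pd (fun x => pd χ m a x) m a (x ∘ σ))).symm

theorem pd_support {k : ℕ} {g : (Fin k → R3) → ℝ} {S : Set (Fin k → R3)} (hS : IsClosed S)
    (h : ∀ x, g x ≠ 0 → x ∈ S) (m : Fin k) (a : Fin 3) (x : Fin k → R3)
    (hx : pd g m a x ≠ 0) : x ∈ S := by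
  by_contra hc
  apply hx
  have h1 : g =ᶠ[𝓝 x] fun _ => 0 := by
    filter_upwards [hS.isOpen_compl.mem_nhds hc] with y hy
    by_contra h2
    exact hy (h y h2)
  unfold pd
  rw [h1.fderiv_eq]
  simp

theorem lap_support {k : ℕ} {χ : (Fin k → R3) → ℝ} {R R' : ℝ}
    (h : ∀ m a x, pd χ m a x ≠ 0 → R ≤ rad x ∧ rad x ≤ R') (x : Fin k → R3)
    (hx : lap χ x ≠ 0) : R ≤ rad x ∧ rad x ≤ R' := by
  by_contra hc
  apply hx
  unfold lap
  apply Finset.sum_eq_zero
  intro m _
  apply Finset.sum_eq_zero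
  intro a _
  by_contra h0
  apply hc
  have hS : IsClosed {x : Fin k → R3 | R ≤ rad x ∧ rad x ≤ R'} :=
    (isClosed_le continuous_const continuous_rad).inter
      (isClosed_le continuous_rad continuous_const)
  exact pd_support hS (fun x hx => h m a x hx) m a x h0

theorem rel_trunc (hV : Pot V) {φ : (Fin 3 → R3) → ℝ} (h : Scat V φ) {χ : (Fin 3 → R3) → ℝ}
    (hχ : ContDiff ℝ 2 χ) (hχt : TI χ) (hχV : ∀ x, V3 V x ≠ 0 → χ x = 1)
    {ζ : (Fin 3 → R3) → ℝ} (hζ : TF ζ) :
    rint (gg (fun x => φ x * χ x) ζ) =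
      rint fun x => (V3 V x * (1 - φ x * χ x) - (2 * gg φ χ x + φ x * lap χ x)) * ζ x := by
  have hχ1 : ContDiff ℝ 1 χ := hχ.of_le (by norm_num)
  have t1 : TF (fun x => χ x * ζ x) := TF.mul hζ hχ1 hχt
  have t2 : TF (fun x => φ x * ζ x) := TF.mul hζ h.c1 h.ti
  have A1 := Scat.rel hV h t1
  have A2 := rint_gg_eq (k := 2) hχ hχt t2
  obtain ⟨R, hR⟩ := hζ.supp
  obtain ⟨R1, hR1⟩ := t1.supp
  obtain ⟨R2, hR2⟩ := t2.supp
  have p1 : ∀ x, gg (fun x => φ x * χ x) ζ x =
      gg φ (fun x => χ x * ζ x) x + gg χ (fun x => φ x * ζ x) x - 2 * (gg φ χ x * ζ x) := by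
    intro x
    rw [gg_comm, gg_mul_right h.c1 hχ1, gg_mul_right hχ1 hζ.c1, gg_mul_right h.c1 hζ.c1,
      gg_comm (φ := ζ) (ψ := χ), gg_comm (φ := ζ) (ψ := φ), gg_comm (φ := χ) (ψ := φ)]
    ring
  have r1 : RI (k := 2) (gg φ (fun x => χ x * ζ x)) :=
    RI_cc (continuous_gg h.c1 t1.c1) (gg_support fun m a x hx =>
      pd_eq_zero_of_rad t1.c1 hR1 m a x hx)
  have r2 : RI (k := 2) (gg χ (fun x => φ x * ζ x)) :=
    RI_cc (continuous_gg hχ1 t2.c1) (gg_support fun m a x hx =>
      pd_eq_zero_of_rad t2.c1 hR2 m a x hx)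
  have r3 : RI (k := 2) (fun x => gg φ χ x * ζ x) := by
    refine RI_cc ((continuous_gg h.c1 hχ1).mul hζ.c1.continuous) (R := R) ?_
    intro x hx
    exact hR x fun h0 => hx (by simp [h0])
  have r3' := r3.const_mul 2
  have r4 : RI (k := 2) (fun x => V3 V x * (1 - φ x) * (χ x * ζ x)) := by
    have := RI_V hV (F := fun x => (1 - φ x) * (χ x * ζ x))
      ((continuous_const.sub h.c1.continuous).mul t1.c1.continuous)
    simpa only [mul_assoc] using this
  have r5 : RI (k := 2) (fun x => lap χ x * (φ x * ζ x)) := by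
    refine RI_cc ((lap_cont hχ).mul t2.c1.continuous) (R := R) ?_
    intro x hx
    exact hR x fun h0 => hx (by simp [h0])
  have e1 : rint (gg (fun x => φ x * χ x) ζ) =
      rint (gg φ (fun x => χ x * ζ x)) + rint (gg χ (fun x => φ x * ζ x)) -
        rint (fun x => 2 * (gg φ χ x * ζ x)) := by
    rw [← rint_add r1 r2, ← rint_sub (r1.add r2) r3']
    congr 1
    funext x
    exact p1 x
  have e2 : (fun x => (V3 V x * (1 - φ x * χ x) - (2 * gg φ χ x + φ x * lap χ x)) * ζ x) =
      fun x => V3 V x * (1 - φ x) * (χ x * ζ x) - lap χ x * (φ x * ζ x) -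
        2 * (gg φ χ x * ζ x) := by
    funext x
    by_cases hv : V3 V x = 0
    · rw [hv]
      ring
    · rw [hχV x hv]
      ring
  rw [e1, e2, rint_sub (r4.sub r5) r3', rint_sub r4 r5, A1, A2]
  unfold lap
  ring

end ScatCaux

/-- **The truncated scattering functions.** `φ_r = φ χ` with the cutoff of radius `r/2`,
`w = 2 gg φ χ + φ Δχ` (`Δχ = ∑ pd pd χ`); for `r` so large that `χ = 1` on the support of `V`:
for `ζ` a test function, `rint (gg (φχ) ζ) = rint (gg φ (χζ)) - rint (ζ gg φ χ) + rint (φ gg χ ζ)`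
and `rint (φ gg χ ζ) = rint (gg χ (φζ)) - rint (ζ gg χ φ)
= - rint (Δχ φ ζ) - rint (ζ gg φ χ)` (`rint_gg_eq` with `G = χ`). Hence the relative weak
equation `rint (gg φ_r ζ) = rint ((V (1-φ_r) - w) ζ)`; `weak_of_rel` gives the full one.
`rint w = b`: take `ζ` a cutoff which is `1` on `rad ≤ r`. `a_bd`: take `ζ = φ_r`:
`rint (gg φ_r φ_r + V (1-φ_r)²) = rint (V (1-φ_r)) - rint (w φ_r) ≤ b + C r^{-6} r^{-4} r^6`. -/
theorem exists_data3 (hV : Pot V) {φ : (Fin 3 → R3) → ℝ} (h : Scat V φ) :
    ∃ K > 0, ∃ r0 > 0, ∀ r ≥ r0, ∃ φr w : (Fin 3 → R3) → ℝ, Data3 V (bM V) K r φr w ∧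
      (∀ x, 0 ≤ φr x ∧ φr x ≤ φ x) ∧ (∀ x, rad x ≤ r / 2 → φr x = φ x) ∧
      (∀ x, |φ x - φr x| ≤ K / (1 + rad x) ^ 4) ∧
      (∀ x m a, |pd φ m a x - pd φr m a x| ≤ K / (1 + rad x) ^ 5) := by
  obtain ⟨hVm, hV0, hVt, hVp, B, hB, RV, hRV, hVb, hVs⟩ := V3_props hV
  obtain ⟨Cc, hCc, hcut⟩ := exists_cutoff 3
  obtain ⟨Cv, hCv, hball⟩ := rint_ball_le (k := 2)
  obtain ⟨C1', hC1'⟩ := h.decay
  obtain ⟨C2', hC2'⟩ := h.decay'
  obtain ⟨C1, hC1pos, hC1⟩ : ∃ C1 > 0, ∀ x, |φ x| ≤ C1 / (1 + rad x) ^ 4 := by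
    refine ⟨|C1'| + 1, by positivity, fun x => ?_⟩
    have hr := rad_nonneg x
    rw [abs_of_nonneg (h.nonneg x)]
    refine (hC1' x).trans ?_
    apply div_le_div_of_nonneg_right _ (by positivity)
    linarith [le_abs_self C1']
  obtain ⟨C2, hC2pos, hC2⟩ : ∃ C2 > 0, ∀ x m a, |pd φ m a x| ≤ C2 / (1 + rad x) ^ 5 := by
    refine ⟨|C2'| + 1, by positivity, fun x m a => ?_⟩
    have hr := rad_nonneg x
    refine (hC2' x m a).trans ?_
    apply div_le_div_of_nonneg_right _ (by positivity)
    linarith [le_abs_self C2']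
  clear hC1' hC2'
  set Kw : ℝ := 1152 * (C2 * Cc) + 576 * (C1 * Cc) with hKw
  have hKwpos : 0 < Kw := by positivity
  set K : ℝ := C1 + C2 + 4 * (C1 * Cc) + Kw + Kw * (16 * C1) * Cv with hK
  have hKpos : 0 < K := by positivity
  have hKK : 0 < Kw * (16 * C1) * Cv := by positivity
  have hCC : 0 < C1 * Cc := by positivity
  refine ⟨K, hKpos, 2 * RV + 1, by positivity, fun r hr => ?_⟩
  have hr1 : 1 ≤ r := by linarith
  have hr0 : 0 < r := by linarith
  obtain ⟨χ, hχ2, hχt, hχp, hχ01, hχ1, hχ0, hχd, hχdd, hχs⟩ := hcut (r / 2) (by positivity)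
  have hχc1 : ContDiff ℝ 1 χ := hχ2.of_le (by norm_num)
  have e2r : 2 * (r / 2) = r := by ring
  rw [e2r] at hχ0
  have hχs' : ∀ m a x, pd χ m a x ≠ 0 → r / 2 ≤ rad x ∧ rad x ≤ r := by
    intro m a x hx
    have := hχs m a x hx
    rwa [e2r] at this
  have hχV : ∀ x, V3 V x ≠ 0 → χ x = 1 := by
    intro x hx
    apply hχ1
    linarith [hVs x hx]
  -- the function
  have hφr1 : ContDiff ℝ 1 (fun x => φ x * χ x) := h.c1.mul hχc1
  have hφrt : TI (fun x => φ x * χ x) := by
    intro x v
    show φ _ * χ _ = _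
    rw [h.ti x v, hχt x v]
  have hφrs : ∀ x, φ x * χ x ≠ 0 → rad x ≤ r := by
    intro x hx
    by_contra hc
    apply hx
    rw [hχ0 x (by linarith), mul_zero]
  have hpd : ∀ m a x, pd (fun x => φ x * χ x) m a x =
      φ x * pd χ m a x + pd φ m a x * χ x := by
    intro m a x
    exact pd_mul ((h.c1.differentiable (by norm_num)) x) ((hχc1.differentiable (by norm_num)) x)
      m a
  have hfar : ∀ x, r / 2 ≤ rad x → |φ x| ≤ 16 * C1 / r ^ 4 := by
    intro x hx
    refine (hC1 x).trans ?_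
    have h1 : (r / 2) ^ 4 ≤ (1 + rad x) ^ 4 :=
      pow_le_pow_left₀ (by positivity) (by linarith) 4
    have h2 : C1 / (1 + rad x) ^ 4 ≤ C1 / (r / 2) ^ 4 :=
      div_le_div_of_nonneg_left hC1pos.le (by positivity) h1
    refine h2.trans (le_of_eq ?_)
    field_simp
    norm_num
  have hfar' : ∀ x, r / 2 ≤ rad x → ∀ m a, |pd φ m a x| ≤ 32 * C2 / r ^ 5 := by
    intro x hx m a
    refine (hC2 x m a).trans ?_
    have h1 : (r / 2) ^ 5 ≤ (1 + rad x) ^ 5 :=
      pow_le_pow_left₀ (by positivity) (by linarith) 5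
    have h2 : C2 / (1 + rad x) ^ 5 ≤ C2 / (r / 2) ^ 5 :=
      div_le_div_of_nonneg_left hC2pos.le (by positivity) h1
    refine h2.trans (le_of_eq ?_)
    field_simp
    norm_num
  have hmix : ∀ m a x, |φ x * pd χ m a x| ≤ 4 * (C1 * Cc) / (1 + rad x) ^ 5 := by
    intro m a x
    have hx0 := rad_nonneg x
    by_cases hx : pd χ m a x = 0
    · rw [hx, mul_zero, abs_zero]
      positivity
    · obtain ⟨h1, h2⟩ := hχs' m a x hx
      rw [abs_mul]
      have h3 : |pd χ m a x| ≤ 4 * Cc / (1 + rad x) := by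
        refine (hχd m a x).trans ?_
        rw [div_le_div_iff₀ (by positivity) (by positivity)]
        nlinarith
      refine (mul_le_mul (hC1 x) h3 (abs_nonneg _) (by positivity)).trans (le_of_eq ?_)
      field_simp
  have hbd' : ∀ x m a, |pd (fun x => φ x * χ x) m a x| ≤ K / (1 + rad x) ^ 5 := by
    intro x m a
    have hx0 := rad_nonneg x
    rw [hpd]
    have h1 := hmix m a x
    have h2 : |pd φ m a x * χ x| ≤ C2 / (1 + rad x) ^ 5 := by
      rw [abs_mul, abs_of_nonneg (hχ01 x).1]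
      exact (mul_le_of_le_one_right (abs_nonneg _) (hχ01 x).2).trans (hC2 x m a)
    refine (abs_add_le _ _).trans ((add_le_add h1 h2).trans ?_)
    rw [← add_div]
    apply div_le_div_of_nonneg_right _ (by positivity)
    linarith
  have hφC1 : ∀ x, |φ x| ≤ C1 := by
    intro x
    refine (hC1 x).trans (div_le_self hC1pos.le ?_)
    exact one_le_pow₀ (by linarith [rad_nonneg x])
  -- the soft charge
  have hlapb : ∀ x, |lap χ x| ≤ 36 * Cc / r ^ 2 := by
    intro x
    unfold lap
    have h1 : ∀ m ∈ (Finset.univ : Finset (Fin 3)), |∑ a, pd (fun x => pd χ m a x) m a x| ≤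
        3 * (Cc / (r / 2) ^ 2) := by
      intro m _
      refine (Finset.abs_sum_le_sum_abs _ _).trans ?_
      refine (Finset.sum_le_card_nsmul _ _ _ fun a _ => hχdd m a m a x).trans ?_
      simp
    refine (Finset.abs_sum_le_sum_abs _ _).trans ?_
    refine (Finset.sum_le_card_nsmul _ _ _ h1).trans (le_of_eq ?_)
    simp only [Finset.card_univ, Fintype.card_fin, nsmul_eq_mul]
    push_cast
    field_simp
    ring
  have hwc : Continuous (fun x => 2 * gg φ χ x + φ x * lap χ x) :=
    (continuous_const.mul (continuous_gg h.c1 hχc1)).add (h.c1.continuous.mul (lap_cont hχ2))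
  have hggs : ∀ x, gg φ χ x ≠ 0 → r / 2 ≤ rad x ∧ rad x ≤ r := by
    intro x hx
    by_contra hc
    apply hx
    unfold gg
    apply Finset.sum_eq_zero
    intro m _
    apply Finset.sum_eq_zero
    intro a _
    have : pd χ m a x = 0 := by
      by_contra h0
      exact hc (hχs' m a x h0)
    rw [this, mul_zero]
  have hws : ∀ x, 2 * gg φ χ x + φ x * lap χ x ≠ 0 → r / 2 ≤ rad x ∧ rad x ≤ r := by
    intro x hx
    by_contra hc
    apply hx
    have h1 : gg φ χ x = 0 := by
      by_contra h0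
      exact hc (hggs x h0)
    have h2 : lap χ x = 0 := by
      by_contra h0
      exact hc (lap_support hχs' x h0)
    rw [h1, h2]
    ring
  have hwb : ∀ x, |2 * gg φ χ x + φ x * lap χ x| ≤ Kw / r ^ 6 := by
    intro x
    by_cases hx : r / 2 ≤ rad x
    · have h1 : |gg φ χ x| ≤ 3 * (3 : ℕ) * (32 * C2 / r ^ 5 * (Cc / (r / 2))) :=
        abs_gg_le (hfar' x hx) (fun m a => hχd m a x)
      have h2 : |φ x * lap χ x| ≤ 16 * C1 / r ^ 4 * (36 * Cc / r ^ 2) := by
        rw [abs_mul]
        exact mul_le_mul (hfar x hx) (hlapb x) (abs_nonneg _) (by positivity)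
      have h3 : |2 * gg φ χ x| = 2 * |gg φ χ x| := by
        rw [abs_mul, abs_of_pos (by norm_num : (0 : ℝ) < 2)]
      refine (abs_add_le _ _).trans ?_
      rw [h3]
      refine (add_le_add (mul_le_mul_of_nonneg_left h1 (by norm_num)) h2).trans (le_of_eq ?_)
      rw [hKw]
      push_cast
      field_simp
      ring
    · have h1 : 2 * gg φ χ x + φ x * lap χ x = 0 := by
        by_contra h0
        exact hx (hws x h0).1
      rw [h1, abs_zero]
      positivity
  have hwt : TI (fun x => 2 * gg φ χ x + φ x * lap χ x) := by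
    intro x v
    show 2 * gg φ χ _ + φ _ * lap χ _ = _
    rw [TI_gg h.ti hχt x v, h.ti x v, lap_TI hχt x v]
  have hwRI : RI (k := 2) (fun x => 2 * gg φ χ x + φ x * lap χ x) :=
    RI_cc hwc (R := r) fun x hx => (hws x hx).2
  have hVφ : ∀ x, V3 V x * (1 - φ x * χ x) = V3 V x * (1 - φ x) := by
    intro x
    by_cases hv : V3 V x = 0
    · rw [hv]
      ring
    · rw [hχV x hv, mul_one]
  have hVRI : RI (k := 2) (fun x => V3 V x * (1 - φ x)) :=
    RI_V hV (continuous_const.sub h.c1.continuous)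
  have hwint : rint (k := 2) (fun x => 2 * gg φ χ x + φ x * lap χ x) = bM V := by
    obtain ⟨χ', hχ2', hχt', hχp', hχ01', hχ1', hχ0', hχd', hχdd', hχs2⟩ :=
      hcut (2 * r) (by positivity)
    have hTF : TF χ' := by
      refine ⟨hχ2'.of_le (by norm_num), hχt', 2 * (2 * r), fun x hx => ?_⟩
      by_contra hc
      exact hx (hχ0' x (by linarith))
    have h1 := rel_trunc hV h hχ2 hχt hχV hTF
    have h2 : gg (fun x => φ x * χ x) χ' = fun _ => 0 := by
      funext x
      unfold gg
      apply Finset.sum_eq_zero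
      intro m _
      apply Finset.sum_eq_zero
      intro a _
      by_contra h0
      have h3 : pd (fun x => φ x * χ x) m a x ≠ 0 := fun h4 => h0 (by rw [h4, zero_mul])
      have h4 : pd χ' m a x ≠ 0 := fun h4 => h0 (by rw [h4, mul_zero])
      have h5 := pd_eq_zero_of_rad hφr1 hφrs m a x h3
      have h6 := (hχs2 m a x h4).1
      linarith
    have h3 : (fun x => (V3 V x * (1 - φ x * χ x) - (2 * gg φ χ x + φ x * lap χ x)) * χ' x) =
        fun x => V3 V x * (1 - φ x) - (2 * gg φ χ x + φ x * lap χ x) := by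
      funext x
      by_cases hx : rad x ≤ r
      · rw [hχ1' x (by linarith), mul_one, hVφ]
      · have h4 : V3 V x = 0 := by
          by_contra h0
          exact hx (by linarith [hVs x h0])
        have h5 : 2 * gg φ χ x + φ x * lap χ x = 0 := by
          by_contra h0
          exact hx (hws x h0).2
        rw [h4, h5]
        ring
    rw [h2, h3, rint_sub hVRI hwRI, h.b_eq] at h1
    have h4 : rint (k := 2) (fun _ : Fin 3 → R3 => (0 : ℝ)) = 0 := by
      unfold rint
      simp
    rw [h4] at h1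
    linarith
  have hTFr : TF (fun x => φ x * χ x) := ⟨hφr1, hφrt, r, hφrs⟩
  refine ⟨fun x => φ x * χ x, fun x => 2 * gg φ χ x + φ x * lap χ x, ?_, ?_, ?_, ?_, ?_⟩
  · refine
      { c1 := hφr1
        ti := hφrt
        pi := ?_
        supp := hφrs
        bd := ?_
        bd' := hbd'
        w_meas := hwc.measurable
        w_ti := hwt
        w_pi := ?_
        w_supp := fun x hx => (hws x hx).2
        w_bd := ?_
        w_int := hwint
        weak := ?_
        a_bd := ?_ }
    · intro σ x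
      show φ _ * χ _ = _
      rw [h.pi σ x, hχp σ x]
    · intro x
      have hx0 := rad_nonneg x
      show |φ x * χ x| ≤ _
      rw [abs_mul, abs_of_nonneg (hχ01 x).1]
      refine (mul_le_of_le_one_right (abs_nonneg _) (hχ01 x).2).trans ((hC1 x).trans ?_)
      apply div_le_div_of_nonneg_right _ (by positivity)
      linarith
    · intro σ x
      show 2 * gg φ χ _ + φ _ * lap χ _ = _
      rw [PI_gg h.pi hχp h.c1 hχc1 σ x, h.pi σ x, lap_PI hχ2 hχp σ x]
    · intro x
      refine (hwb x).trans ?_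
      apply div_le_div_of_nonneg_right _ (by positivity)
      linarith
    · intro v z hv hvb hz hzs
      have hw := weak_of_rel (k := 2) (A := fun m a => pd (fun x => φ x * χ x) m a)
        (B := fun x => V3 V x * (1 - φ x * χ x) - (2 * gg φ χ x + φ x * lap χ x))
        (fun m a => (continuous_pd hφr1 m a).measurable) (fun m a => TI_pd hφrt m a)
        ⟨K, fun m a x => (hbd' x m a).trans (div_le_self hKpos.le
          (one_le_pow₀ (by linarith [rad_nonneg x])))⟩
        (fun a x => TI_sum_pd hφrt ((hφr1.differentiable (by norm_num)) x) a)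
        ((hVm.mul (measurable_const.sub hφr1.continuous.measurable)).sub hwc.measurable)
        (fun x u => by
          have e1 := hwt x u
          have e2 := hφrt x u
          beta_reduce at e1 e2 ⊢
          rw [hVt x u, e1, e2])
        ⟨B * (1 + C1) + Kw / r ^ 6, fun x => ?_⟩
        (fun ζ hζ => rel_trunc hV h hχ2 hχt hχV hζ) hv hvb hz hzs
      · simpa only [gg] using hw
      · rw [hVφ]
        refine (abs_sub _ _).trans (add_le_add ?_ (hwb x))
        rw [abs_mul, abs_of_nonneg (hV0 x)]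
        have h1 : |1 - φ x| ≤ 1 + C1 := by
          have := abs_sub (1 : ℝ) (φ x)
          rw [abs_one] at this
          linarith [hφC1 x]
        exact mul_le_mul (hVb x) h1 (abs_nonneg _) hB.le
    · have h1 := rel_trunc hV h hχ2 hχt hχV hTFr
      have hggRI : RI (k := 2) (gg (fun x => φ x * χ x) (fun x => φ x * χ x)) :=
        RI_cc (continuous_gg hφr1 hφr1) (R := r) (gg_support fun m a x hx =>
          pd_eq_zero_of_rad hφr1 hφrs m a x hx)
      have hV2 : RI (k := 2) (fun x => V3 V x * (1 - φ x * χ x) ^ 2) :=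
        RI_V hV ((continuous_const.sub hφr1.continuous).pow 2)
      have hwφ : RI (k := 2) (fun x => (2 * gg φ χ x + φ x * lap χ x) * (φ x * χ x)) := by
        refine RI_cc (hwc.mul hφr1.continuous) (R := r) fun x hx => ?_
        exact hφrs x fun h0 => hx (by rw [h0, mul_zero])
      have hVφRI : RI (k := 2) (fun x =>
          (V3 V x * (1 - φ x * χ x) - (2 * gg φ χ x + φ x * lap χ x)) * (φ x * χ x)) := by
        have h2 : RI (k := 2) (fun x => V3 V x * ((1 - φ x * χ x) * (φ x * χ x))) :=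
          RI_V hV ((continuous_const.sub hφr1.continuous).mul hφr1.continuous)
        have h3 := h2.sub hwφ
        have h4 : (fun x => (V3 V x * (1 - φ x * χ x) - (2 * gg φ χ x + φ x * lap χ x)) *
            (φ x * χ x)) = fun x => V3 V x * ((1 - φ x * χ x) * (φ x * χ x)) -
              (2 * gg φ χ x + φ x * lap χ x) * (φ x * χ x) := by
          funext x
          ring
        rw [h4]
        exact h3
      rw [rint_add hggRI hV2, h1, ← rint_add hVφRI hV2]
      have h5 : (fun x => (V3 V x * (1 - φ x * χ x) - (2 * gg φ χ x + φ x * lap χ x)) *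
          (φ x * χ x) + V3 V x * (1 - φ x * χ x) ^ 2) =
          fun x => V3 V x * (1 - φ x) - (2 * gg φ χ x + φ x * lap χ x) * (φ x * χ x) := by
        funext x
        rw [← hVφ]
        ring
      rw [h5, rint_sub hVRI hwφ, h.b_eq]
      have h6 : |rint (k := 2) (fun x => (2 * gg φ χ x + φ x * lap χ x) * (φ x * χ x))| ≤
          rint (k := 2) (fun x => (Kw / r ^ 6 * (16 * C1 / r ^ 4)) *
            if rad x ≤ r then (1 : ℝ) else 0) := by
        apply abs_rint_le
        · exact (RI_ball r).const_mul _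
        · intro x
          by_cases hx : 2 * gg φ χ x + φ x * lap χ x = 0
          · rw [hx, zero_mul, abs_zero]
            split_ifs <;> positivity
          · obtain ⟨h7, h8⟩ := hws x hx
            rw [if_pos h8, mul_one, abs_mul]
            apply mul_le_mul (hwb x) _ (abs_nonneg _) (by positivity)
            rw [abs_mul, abs_of_nonneg (hχ01 x).1]
            exact (mul_le_of_le_one_right (abs_nonneg _) (hχ01 x).2).trans (hfar x h7)
      rw [rint_const_mul] at h6
      have h7 : (Kw / r ^ 6 * (16 * C1 / r ^ 4)) *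
          rint (k := 2) (fun x => if rad x ≤ r then (1 : ℝ) else 0) ≤ K / r ^ 4 := by
        refine (mul_le_mul_of_nonneg_left (hball r hr0) (by positivity)).trans ?_
        have e : Kw / r ^ 6 * (16 * C1 / r ^ 4) * (Cv * r ^ (3 * 2)) =
            (Kw * (16 * C1) * Cv) / r ^ 4 := by
          field_simp
        rw [e]
        apply div_le_div_of_nonneg_right _ (by positivity)
        linarith
      have h8 := neg_abs_le (rint (k := 2)
        (fun x => (2 * gg φ χ x + φ x * lap χ x) * (φ x * χ x)))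
      linarith
  · intro x
    exact ⟨mul_nonneg (h.nonneg x) (hχ01 x).1, mul_le_of_le_one_right (h.nonneg x) (hχ01 x).2⟩
  · intro x hx
    show φ x * χ x = φ x
    rw [hχ1 x hx, mul_one]
  · intro x
    have hx0 := rad_nonneg x
    have h1 : φ x - φ x * χ x = φ x * (1 - χ x) := by ring
    show |φ x - φ x * χ x| ≤ _
    rw [h1, abs_mul, abs_of_nonneg (by linarith [(hχ01 x).2] : (0 : ℝ) ≤ 1 - χ x)]
    refine (mul_le_of_le_one_right (abs_nonneg _) (by linarith [(hχ01 x).1])).trans
      ((hC1 x).trans ?_)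
    apply div_le_div_of_nonneg_right _ (by positivity)
    linarith
  · intro x m a
    have hx0 := rad_nonneg x
    rw [hpd]
    have h1 : pd φ m a x - (φ x * pd χ m a x + pd φ m a x * χ x) =
        pd φ m a x * (1 - χ x) - φ x * pd χ m a x := by ring
    rw [h1]
    have h2 : |pd φ m a x * (1 - χ x)| ≤ C2 / (1 + rad x) ^ 5 := by
      rw [abs_mul, abs_of_nonneg (by linarith [(hχ01 x).2] : (0 : ℝ) ≤ 1 - χ x)]
      exact (mul_le_of_le_one_right (abs_nonneg _) (by linarith [(hχ01 x).1])).trans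
        (hC2 x m a)
    refine (abs_sub _ _).trans ((add_le_add h2 (hmix m a x)).trans ?_)
    rw [← add_div]
    apply div_le_div_of_nonneg_right _ (by positivity)
    linarith

end Pool.Agent.Lib.MP_5db8e2_mp
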