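import Pool.Agent.Lib.MP_5db8e2_mp.TrialB2
import Pool.Agent.Lib.MP_5db8e2_mp.ScatC

/-!
# From real functions to the ground state energy; the case `b = 0`
-/

set_option autoImplicit false

open MeasureTheory Filter Topology

namespace Pool.Agent.Lib.MP_5db8e2_mp

namespace FinalAAux

theorem isCompact_box (L : ℝ) (N : ℕ) : IsCompact (box L N) := by
  apply Metric.isCompact_of_isClosed_isBounded
  · have : box L N = ⋂ (i : Fin N) (a : Fin 3), {x : Fin N → R3 | |x i a| ≤ L / 2} := by
      ext x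
      simp [box]
    rw [this]
    refine isClosed_iInter fun i => isClosed_iInter fun a => ?_
    exact isClosed_le (by fun_prop) continuous_const
  · refine (Metric.isBounded_closedBall (x := (0 : Fin N → R3)) (r := |L / 2|)).subset
      fun x hx => ?_
    rw [mem_closedBall_zero_iff]
    refine (pi_norm_le_iff_of_nonneg (abs_nonneg _)).2 fun i => ?_
    refine (pi_norm_le_iff_of_nonneg (abs_nonneg _)).2 fun a => ?_
    exact (hx i a).trans (le_abs_self _)

theorem measurableSet_box (L : ℝ) (N : ℕ) : MeasurableSet (box L N) :=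
  (isCompact_box L N).isClosed.measurableSet

variable {V : R3 → R3 → ℝ} {N : ℕ}

theorem measurable_term (hV : Pot V) (i j k : Fin N) :
    Measurable fun x : Fin N → R3 => V (x i - x j) (x i - x k) := by
  have h : Measurable (fun x : Fin N → R3 => (x i - x j, x i - x k)) := by fun_prop
  exact hV.meas.comp h

theorem measurable_pot (hV : Pot V) : Measurable (pot V : (Fin N → R3) → ℝ) := by
  unfold pot
  refine Finset.measurable_fun_sum _ fun i _ => Finset.measurable_fun_sum _ fun j _ =>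
    Finset.measurable_fun_sum _ fun k _ => ?_
  by_cases h : i < j ∧ j < k
  · simp only [if_pos h]
    exact measurable_term hV i j k
  · simp only [if_neg h]
    exact measurable_const

theorem pot_nonneg (hV : Pot V) (x : Fin N → R3) : 0 ≤ pot V x := by
  unfold pot
  refine Finset.sum_nonneg fun i _ => Finset.sum_nonneg fun j _ => Finset.sum_nonneg fun k _ => ?_
  split_ifs
  · exact hV.nonneg _ _
  · exact le_rfl

theorem pot_bdd (hV : Pot V) (N : ℕ) : ∃ C, 0 ≤ C ∧ ∀ x : Fin N → R3, |pot V x| ≤ C := by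
  obtain ⟨C, hC⟩ := hV.bdd
  have hC0 : 0 ≤ C := (hV.nonneg 0 0).trans (hC 0 0)
  refine ⟨∑ _i : Fin N, ∑ _j : Fin N, ∑ _k : Fin N, C, by positivity, fun x => ?_⟩
  rw [abs_of_nonneg (pot_nonneg hV x)]
  unfold pot
  refine Finset.sum_le_sum fun i _ => Finset.sum_le_sum fun j _ => Finset.sum_le_sum fun k _ => ?_
  split_ifs
  · exact hC _ _
  · exact hC0

/-- The energy density is integrable on the box. -/
theorem integrableOn_density {E : Type*} [NormedAddCommGroup E] [NormedSpace ℝ E] (hV : Pot V)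
    (L : ℝ) {Ψ : (Fin N → R3) → E} (h1 : ContDiff ℝ 1 Ψ) :
    IntegrableOn (fun x => ∑ i, ∑ a, ‖pd Ψ i a x‖ ^ 2 + pot V x * ‖Ψ x‖ ^ 2) (box L N) := by
  have hpd : ∀ i a, Continuous (pd Ψ i a) := by
    intro i a
    unfold pd
    exact (h1.continuous_fderiv one_ne_zero).clm_apply continuous_const
  have hc1 : Continuous fun x => ∑ i, ∑ a, ‖pd Ψ i a x‖ ^ 2 :=
    continuous_finsetSum _ fun i _ => continuous_finsetSum _ fun a _ => (hpd i a).norm.pow 2
  have hc2 : Continuous fun x => ‖Ψ x‖ ^ 2 := h1.continuous.norm.pow 2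
  obtain ⟨C, _, hC⟩ := pot_bdd hV N
  refine Integrable.add (hc1.continuousOn.integrableOn_compact (isCompact_box L N)) ?_
  exact (hc2.continuousOn.integrableOn_compact (isCompact_box L N)).bdd_mul (c := C)
    (measurable_pot hV).aestronglyMeasurable (Eventually.of_forall fun x => hC x)

theorem energy_nonneg {E : Type*} [NormedAddCommGroup E] [NormedSpace ℝ E] (hV : Pot V)
    (L : ℝ) (Ψ : (Fin N → R3) → E) : 0 ≤ energy V L Ψ := by
  unfold energy
  refine integral_nonneg fun x => ?_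
  have := pot_nonneg hV x
  positivity

theorem integral_box_one {L : ℝ} (hL : 0 < L) (N : ℕ) :
    ∫ _x in box L N, (1 : ℝ) = (L ^ 3) ^ N := by
  have := isProb_muL hL
  have h1 := integral_PP (N := N) hL (fun _ => (1 : ℝ))
  have h2 : ∫ _x : Fin N → R3, (1 : ℝ) ∂(PP (muL L) N) = 1 := by
    rw [integral_const, probReal_univ, one_smul]
  rw [h2] at h1
  have h3 : 0 < (L ^ 3) ^ N := by positivity
  field_simp at h1
  exact h1.symm

/-- The constant wave function. -/
theorem const_mem {L : ℝ} (hL : 0 < L) (N : ℕ) : ∃ c : ℝ,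
    ∫ _x in box L N, ‖((c : ℝ) : ℂ)‖ ^ 2 = 1 ∧ ∫ _x in box L N, c ^ 2 = 1 := by
  have h3 : 0 < (L ^ 3) ^ N := by positivity
  have key : ∫ _x in box L N, (Real.sqrt ((L ^ 3) ^ N)⁻¹) ^ 2 = 1 := by
    rw [Real.sq_sqrt (by positivity)]
    have := integral_box_one hL N
    calc ∫ _x in box L N, ((L ^ 3) ^ N)⁻¹ = ((L ^ 3) ^ N)⁻¹ * ∫ _x in box L N, (1 : ℝ) := by
          rw [← integral_const_mul]
          simp
      _ = 1 := by
          rw [this]
          exact inv_mul_cancel₀ h3.ne'
  refine ⟨Real.sqrt ((L ^ 3) ^ N)⁻¹, ?_, key⟩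
  have e : ‖((Real.sqrt ((L ^ 3) ^ N)⁻¹ : ℝ) : ℂ)‖ ^ 2 = (Real.sqrt ((L ^ 3) ^ N)⁻¹) ^ 2 := by
    rw [Complex.norm_real, Real.norm_eq_abs, sq_abs]
  rw [e]
  exact key

theorem gs_set_nonempty {L : ℝ} (V : R3 → R3 → ℝ) (hL : 0 < L) (N : ℕ) :
    {E : ℝ | ∃ Ψ : (Fin N → R3) → ℂ, ContDiff ℝ 1 Ψ ∧
    (∀ (σ : Equiv.Perm (Fin N)) (x : Fin N → R3), Ψ (x ∘ σ) = Ψ x) ∧
    ∫ x in box L N, ‖Ψ x‖ ^ 2 = 1 ∧ E = energy V L Ψ}.Nonempty := by
  obtain ⟨c, hc, _⟩ := const_mem hL N
  exact ⟨energy V L (fun _ : Fin N → R3 => (c : ℂ)), fun _ => (c : ℂ), contDiff_const,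
    fun _ _ => rfl, hc, rfl⟩

end FinalAAux

open FinalAAux ScatCaux

/-- The energy of a complex function is the sum of the energies of its real and imaginary parts. -/
theorem energy_re_im {V : R3 → R3 → ℝ} (hV : Pot V) {N : ℕ} {L : ℝ} {Ψ : (Fin N → R3) → ℂ}
    (h1 : ContDiff ℝ 1 Ψ) :
    energy V L Ψ = energy V L (fun x => (Ψ x).re) + energy V L (fun x => (Ψ x).im) ∧
    ∫ x in box L N, ‖Ψ x‖ ^ 2 = (∫ x in box L N, (Ψ x).re ^ 2) + ∫ x in box L N, (Ψ x).im ^ 2 := by
  have hre : ContDiff ℝ 1 (fun x => (Ψ x).re) := Complex.reCLM.contDiff.comp h1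
  have him : ContDiff ℝ 1 (fun x => (Ψ x).im) := Complex.imCLM.contDiff.comp h1
  have hd : ∀ x, HasFDerivAt Ψ (fderiv ℝ Ψ x) x := fun x =>
    (h1.differentiable one_ne_zero x).hasFDerivAt
  have hpre : ∀ i a x, pd (fun x => (Ψ x).re) i a x = (pd Ψ i a x).re := by
    intro i a x
    unfold pd
    have := (Complex.reCLM.hasFDerivAt.comp x (hd x)).fderiv
    have e : (fun x => (Ψ x).re) = (fun z => Complex.reCLM z) ∘ Ψ := rfl
    rw [e, this]
    rfl
  have hpim : ∀ i a x, pd (fun x => (Ψ x).im) i a x = (pd Ψ i a x).im := by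
    intro i a x
    unfold pd
    have := (Complex.imCLM.hasFDerivAt.comp x (hd x)).fderiv
    have e : (fun x => (Ψ x).im) = (fun z => Complex.imCLM z) ∘ Ψ := rfl
    rw [e, this]
    rfl
  have hnorm : ∀ z : ℂ, ‖z‖ ^ 2 = z.re ^ 2 + z.im ^ 2 := by
    intro z
    rw [Complex.sq_norm, Complex.normSq_apply]
    ring
  constructor
  · unfold energy
    rw [← integral_add (integrableOn_density hV L hre) (integrableOn_density hV L him)]
    congr 1
    funext x
    simp only [hpre, hpim, Real.norm_eq_abs, sq_abs, hnorm, Finset.sum_add_distrib]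
    ring
  · have c1 : IntegrableOn (fun x => (Ψ x).re ^ 2) (box L N) :=
      (hre.continuous.pow 2).continuousOn.integrableOn_compact (isCompact_box L N)
    have c2 : IntegrableOn (fun x => (Ψ x).im ^ 2) (box L N) :=
      (him.continuous.pow 2).continuousOn.integrableOn_compact (isCompact_box L N)
    rw [← integral_add c1 c2]
    congr 1
    funext x
    exact hnorm _

/-- A lower bound for real `C¹` functions is a lower bound for the ground state energy. (The set of
the energies is nonempty: the normalised constant.) -/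
theorem gs_ge {V : R3 → R3 → ℝ} (hV : Pot V) {N : ℕ} {L E : ℝ} (hL : 0 < L)
    (h : ∀ Ψ : (Fin N → R3) → ℝ, ContDiff ℝ 1 Ψ →
      E * ∫ x in box L N, Ψ x ^ 2 ≤ energy V L Ψ) : E ≤ gs V N L := by
  unfold gs
  refine le_csInf (gs_set_nonempty V hL N) ?_
  rintro e ⟨Ψ, h1, _, hn, rfl⟩
  obtain ⟨e1, e2⟩ := energy_re_im (L := L) hV h1
  have h2 := h _ (Complex.reCLM.contDiff.comp h1)
  have h3 := h _ (Complex.imCLM.contDiff.comp h1)
  have h4 : E * (∫ x in box L N, (Ψ x).re ^ 2) ≤ energy V L (fun x => (Ψ x).re) := h2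
  have h5 : E * (∫ x in box L N, (Ψ x).im ^ 2) ≤ energy V L (fun x => (Ψ x).im) := h3
  rw [e1]
  rw [e2] at hn
  have h6 : E = E * ((∫ x in box L N, (Ψ x).re ^ 2) + ∫ x in box L N, (Ψ x).im ^ 2) := by
    rw [hn, mul_one]
  rw [h6, mul_add]
  exact add_le_add h4 h5

theorem gs_nonneg {V : R3 → R3 → ℝ} (hV : Pot V) {N : ℕ} {L : ℝ} (hL : 0 < L) :
    0 ≤ gs V N L := by
  refine gs_ge hV hL fun Ψ _ => ?_
  rw [zero_mul]
  exact energy_nonneg hV L Ψ

/-- If `bM V = 0` then `V = 0` almost everywhere and all the ground state energies vanish: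
`rint (V3 V (1 - φ)) = bM V = 0` and `1 - φ ≥ c > 0` give `rint (V3 V) = 0`, hence
`E[V3 V (x∘e)] ≤ L^{-6} rint (V3 V) = 0` (`expect_le_rint`), so the constant function has energy
zero (`pot_eq`, `integral_PP`). -/
theorem gs_eq_zero {V : R3 → R3 → ℝ} (hV : Pot V) (hb : bM V = 0) {N : ℕ} {L : ℝ} (hL : 0 < L) :
    gs V N L = 0 := by
  have := isProb_muL hL
  obtain ⟨φ, hφ⟩ := exists_scat hV
  obtain ⟨c, hc, hlt⟩ := hφ.lt_one
  obtain ⟨CV, hCV⟩ := hV.bdd
  have hV3m : Measurable (V3 V) := by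
    exact measurable_term hV (0 : Fin 3) 1 2
  have hV30 : ∀ x, 0 ≤ V3 V x := fun x => hV.nonneg _ _
  have hV3t : TI (V3 V) := by
    intro x v
    unfold V3
    simp
  have hRI : RI (k := 2) (V3 V) := by
    have := RI_V hV (F := fun _ => (1 : ℝ)) continuous_const
    simpa using this
  have hRI2 : RI (k := 2) (fun x => V3 V x * (1 - φ x)) :=
    RI_V hV (continuous_const.sub hφ.c1.continuous)
  have h0 : rint (k := 2) (V3 V) ≤ 0 := by
    have h1 : rint (k := 2) (fun x => c * V3 V x) ≤ rint (k := 2) (fun x => V3 V x * (1 - φ x)) :=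
      rint_mono (hRI.const_mul c) hRI2 fun x => by
        have := hlt x
        have := hV30 x
        nlinarith
    rw [hφ.b_eq, hb, rint_const_mul] at h1
    by_contra hcon
    push Not at hcon
    have := mul_pos hc hcon
    linarith
  -- every triple has zero expectation
  have hE : ∀ e : Fin 3 → Fin N, Function.Injective e →
      ∫ x, V3 V (x ∘ e) ∂(PP (muL L) N) = 0 := by
    intro e he
    have h1 := expect_le_rint hL hV3m ⟨CV, fun x => by
      rw [abs_of_nonneg (hV30 x)]
      exact hCV _ _⟩ hV30 hV3t hRI he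
    have h2 : ((L ^ 3)⁻¹) ^ 2 * rint (k := 2) (V3 V) ≤ 0 :=
      mul_nonpos_of_nonneg_of_nonpos (by positivity) h0
    exact le_antisymm (h1.trans h2) (integral_nonneg fun x => hV30 _)
  have hterm : ∀ i j k : Fin N, Integrable (fun x : Fin N → R3 =>
      if i < j ∧ j < k then V (x i - x j) (x i - x k) else 0) (PP (muL L) N) := by
    intro i j k
    by_cases hc : i < j ∧ j < k
    · simp only [if_pos hc]
      refine (integrable_const CV).mono' (measurable_term hV i j k).aestronglyMeasurable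
        (Eventually.of_forall fun x => ?_)
      rw [Real.norm_of_nonneg (hV.nonneg _ _)]
      exact hCV _ _
    · simp only [if_neg hc]
      exact integrable_zero _ _ _
  have hpot : ∫ x, pot V x ∂(PP (muL L) N) = 0 := by
    unfold pot
    rw [integral_finsetSum _ fun i _ => integrable_finsetSum _ fun j _ =>
      integrable_finsetSum _ fun k _ => hterm i j k]
    refine Finset.sum_eq_zero fun i _ => ?_
    rw [integral_finsetSum _ fun j _ => integrable_finsetSum _ fun k _ => hterm i j k]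
    refine Finset.sum_eq_zero fun j _ => ?_
    rw [integral_finsetSum _ fun k _ => hterm i j k]
    refine Finset.sum_eq_zero fun k _ => ?_
    by_cases hc : i < j ∧ j < k
    · simp only [if_pos hc]
      have hinj : Function.Injective (![i, j, k] : Fin 3 → Fin N) := by
        intro p q hpq
        have n1 := hc.1.ne
        have n2 := hc.2.ne
        have n3 := (hc.1.trans hc.2).ne
        fin_cases p <;> fin_cases q <;> simp_all
      exact hE _ hinj
    · simp only [if_neg hc]
      exact integral_zero _ _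
  have hbox : ∫ x in box L N, pot V x = 0 := by
    have h1 := integral_PP (N := N) hL (pot V)
    rw [hpot] at h1
    have h3 : 0 < ((L ^ 3) ^ N)⁻¹ := by positivity
    rcases mul_eq_zero.1 h1.symm with h4 | h4
    · exact absurd h4 h3.ne'
    · exact h4
  obtain ⟨c', hc', _⟩ := const_mem hL N
  have hen : energy V L (fun _ : Fin N → R3 => (c' : ℂ)) = 0 := by
    unfold energy
    have e : (fun x : Fin N → R3 => ∑ i, ∑ a, ‖pd (fun _ : Fin N → R3 => (c' : ℂ)) i a x‖ ^ 2 +
        pot V x * ‖(c' : ℂ)‖ ^ 2) = fun x => ‖(c' : ℂ)‖ ^ 2 * pot V x := by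
      funext x
      have : ∀ i a, pd (fun _ : Fin N → R3 => (c' : ℂ)) i a x = 0 := by
        intro i a
        unfold pd
        simp
      simp only [this, norm_zero, ne_eq, OfNat.ofNat_ne_zero, not_false_eq_true, zero_pow,
        Finset.sum_const_zero, zero_add]
      ring
    rw [e, integral_const_mul, hbox, mul_zero]
  refine le_antisymm ?_ (gs_nonneg hV hL)
  rw [← hen]
  unfold gs
  refine csInf_le ⟨0, ?_⟩ ⟨fun _ => (c' : ℂ), contDiff_const, fun _ _ => rfl, hc', rfl⟩
  rintro e ⟨Ψ, _, _, _, rfl⟩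
  exact energy_nonneg hV L Ψ

theorem bM_nonneg {V : R3 → R3 → ℝ} (hV : Pot V) : 0 ≤ bM V := by
  unfold bM
  refine Real.sInf_nonneg ?_
  rintro e ⟨φ, _, _, rfl⟩
  refine integral_nonneg fun p => ?_
  refine add_nonneg (mul_nonneg (by norm_num) (Finset.sum_nonneg fun a _ => ?_))
    (mul_nonneg (hV.nonneg _ _) (sq_nonneg _))
  nlinarith [sq_nonneg (fderiv ℝ φ p (Pi.single a 1, 0) + fderiv ℝ φ p (0, Pi.single a 1)),
    sq_nonneg (fderiv ℝ φ p (Pi.single a 1, 0)), sq_nonneg (fderiv ℝ φ p (0, Pi.single a 1))]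

end Pool.Agent.Lib.MP_5db8e2_mp
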