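import Pool.Agent.Lib.MP_5db8e2_mp.NewtA

/-!
# The weak maximum principle
-/

set_option autoImplicit false

open MeasureTheory Filter Topology

namespace Pool.Agent.Lib.MP_5db8e2_mp

variable {k : ℕ}

theorem hasDerivAt_sq_pos (c t : ℝ) :
    HasDerivAt (fun t : ℝ => max (t - c) 0 ^ 2) (2 * max (t - c) 0) t := by
  rcases lt_trichotomy t c with h | h | h
  · have h1 : (fun t : ℝ => max (t - c) 0 ^ 2) =ᶠ[𝓝 t] fun _ => 0 := by
      filter_upwards [eventually_lt_nhds h] with s hs
      rw [max_eq_right (by linarith)]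
      norm_num
    rw [max_eq_right (by linarith), mul_zero]
    exact (hasDerivAt_const t (0 : ℝ)).congr_of_eventuallyEq h1
  · subst h
    rw [sub_self, max_self, mul_zero, hasDerivAt_iff_isLittleO_nhds_zero]
    simp only [add_sub_cancel_left, sub_self, max_self, smul_zero, sub_zero]
    have h2 : (fun h : ℝ => max h 0 ^ 2 - 0 ^ 2) =O[𝓝 0] fun h : ℝ => h ^ 2 := by
      refine Asymptotics.IsBigO.of_bound 1 (Eventually.of_forall fun s => ?_)
      rw [one_mul, Real.norm_eq_abs, Real.norm_eq_abs, zero_pow (by norm_num), sub_zero,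
        abs_of_nonneg (sq_nonneg _), abs_of_nonneg (sq_nonneg _)]
      have h3 : |max s 0| ≤ |s| := by
        rcases le_total s 0 with hs | hs
        · rw [max_eq_right hs, abs_zero]
          exact abs_nonneg _
        · rw [max_eq_left hs]
      exact sq_le_sq.mpr h3
    refine h2.trans_isLittleO ?_
    have := Asymptotics.isLittleO_pow_id (𝕜 := ℝ) (n := 2) (by norm_num)
    exact this
  · have h1 : (fun t : ℝ => max (t - c) 0 ^ 2) =ᶠ[𝓝 t] fun t => (t - c) ^ 2 := by
      filter_upwards [eventually_gt_nhds h] with s hs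
      rw [max_eq_left (by linarith)]
    rw [max_eq_left (by linarith)]
    have h2 : HasDerivAt (fun t : ℝ => (t - c) ^ 2) (2 * (t - c)) t := by
      have := ((hasDerivAt_id t).sub_const c).fun_pow 2
      simpa using this
    exact h2.congr_of_eventuallyEq h1

theorem deriv_sq_pos (c t : ℝ) : deriv (fun t : ℝ => max (t - c) 0 ^ 2) t = 2 * max (t - c) 0 :=
  (hasDerivAt_sq_pos c t).deriv

/-- `t ↦ (max (t - c) 0)²` is `C¹` with the derivative `2 max (t - c) 0`. -/
theorem contDiff_sq_pos (c : ℝ) : ContDiff ℝ 1 (fun t : ℝ => max (t - c) 0 ^ 2) := by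
  rw [contDiff_one_iff_deriv]
  refine ⟨fun t => (hasDerivAt_sq_pos c t).differentiableAt, ?_⟩
  have : deriv (fun t : ℝ => max (t - c) 0 ^ 2) = fun t => 2 * max (t - c) 0 := by
    funext t
    exact deriv_sq_pos c t
  rw [this]
  fun_prop

/-- **Weak maximum principle.** `z = ((g - ε)⁺)²` is a test function;
`gg g z = 2 (g-ε)⁺ gg g g ≥ 0` is continuous with integral `≤ 0`, hence `gg g z = 0`, hence
`gg z z = 4 ((g-ε)⁺)² gg g g = 0`, so `z` is constant, and it vanishes far away. -/
theorem le_zero_of_weak (hk : 0 < k) {g : (Fin (k + 1) → R3) → ℝ} (hg : ContDiff ℝ 1 g)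
    (ht : TI g) (hinf : ∀ ε > 0, ∃ R, ∀ x, ε < g x → rad x ≤ R)
    (h : ∀ ε > 0, rint (gg g fun x => max (g x - ε) 0 ^ 2) ≤ 0) (x : Fin (k + 1) → R3) :
    g x ≤ 0 := by
  by_contra hx
  push Not at hx
  set ε : ℝ := g x / 2 with hε
  have hε0 : 0 < ε := by positivity
  obtain ⟨R, hR⟩ := hinf ε hε0
  set z : (Fin (k + 1) → R3) → ℝ := fun x => max (g x - ε) 0 ^ 2 with hz
  have hz1 : ContDiff ℝ 1 z := (contDiff_sq_pos ε).comp hg
  have hF : ∀ y, gg g z y = 2 * max (g y - ε) 0 * gg g g y := by
    intro y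
    rw [hz, gg_comp_right hg (contDiff_sq_pos ε), deriv_sq_pos]
  have hFc : Continuous (gg g z) := continuous_gg hg hz1
  have hzt : TI z := by
    intro y v
    simp only [hz]
    rw [ht y v]
  have hFt : TI (gg g z) := TI_gg ht hzt
  have hF0 : ∀ y, 0 ≤ gg g z y := by
    intro y
    rw [hF]
    have := gg_self_nonneg (φ := g) y
    have h2 : 0 ≤ max (g y - ε) 0 := le_max_right _ _
    positivity
  have hsupp : ∀ y, max (g y - ε) 0 ≠ 0 → rad y ≤ R := by
    intro y hy
    refine hR y ?_
    by_contra h'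
    push Not at h'
    exact hy (max_eq_right (by linarith))
  have hFI : RI (gg g z) := by
    unfold RI
    refine Continuous.integrable_of_hasCompactSupport (hFc.comp continuous_cons0) ?_
    refine HasCompactSupport.intro (isCompact_closedBall (0 : Fin k → R3) (2 * R)) ?_
    intro y hy
    by_contra h'
    refine hy ?_
    rw [mem_closedBall_zero_iff]
    have h1 : gg g z (Fin.cons 0 y) ≠ 0 := h'
    rw [hF] at h1
    have h2 : max (g (Fin.cons 0 y : Fin (k + 1) → R3) - ε) 0 ≠ 0 := by
      intro h3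
      rw [h3] at h1
      simp at h1
    have h3 := hsupp _ h2
    have h4 := norm_le_rad_cons y
    linarith
  have hzero : ∀ y, gg g z y = 0 := fun y => eq_zero_of_rint_eq_zero hFc hFt hF0 hFI (h ε hε0) y
  have hpd : ∀ m a y, pd z m a y = 0 := by
    intro m a y
    have h1 : pd z m a y = 2 * max (g y - ε) 0 * pd g m a y := by
      rw [hz, pd_comp (h := fun t : ℝ => max (t - ε) 0 ^ 2)
        (hg.differentiable (by norm_num)).differentiableAt
        ((contDiff_sq_pos ε).differentiable (by norm_num)).differentiableAt, deriv_sq_pos]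
    rw [h1]
    by_cases h2 : max (g y - ε) 0 = 0
    · rw [h2]; ring
    · have h3 := hzero y
      rw [hF] at h3
      have h4 : gg g g y = 0 := by
        rcases mul_eq_zero.mp h3 with h5 | h5
        · exfalso
          apply h2
          linarith
        · exact h5
      unfold gg at h4
      have h5 : ∑ a', pd g m a' y * pd g m a' y = 0 := by
        refine (Finset.sum_eq_zero_iff_of_nonneg ?_).mp h4 m (Finset.mem_univ m)
        intro i _
        exact Finset.sum_nonneg (fun j _ => mul_self_nonneg _)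
      have h6 : pd g m a y * pd g m a y = 0 :=
        (Finset.sum_eq_zero_iff_of_nonneg (fun j _ => mul_self_nonneg _)).mp h5 a
          (Finset.mem_univ a)
      rw [mul_self_eq_zero.mp h6, mul_zero]
  -- a point far away
  set y : Fin k → R3 := fun _ _ => 2 * |R| + 1 with hy
  have hfar : R < rad (Fin.cons 0 y : Fin (k + 1) → R3) := by
    have h1 := norm_le_rad_cons y
    have h2 : 2 * |R| + 1 ≤ ‖y‖ := by
      have h3 : ‖y ⟨0, hk⟩ 0‖ ≤ ‖y‖ := (norm_le_pi_norm (y ⟨0, hk⟩) 0).trans (norm_le_pi_norm y ⟨0, hk⟩)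
      have h4 : ‖y ⟨0, hk⟩ 0‖ = 2 * |R| + 1 := by
        rw [hy, Real.norm_eq_abs, abs_of_nonneg (by positivity)]
      rw [← h4]
      exact h3
    have h5 := le_abs_self R
    linarith
  have hz0 : z (Fin.cons 0 y) = 0 := by
    by_contra h'
    have h2 : max (g (Fin.cons 0 y : Fin (k + 1) → R3) - ε) 0 ≠ 0 := by
      intro h3
      apply h'
      simp only [hz, h3]
      norm_num
    have := hsupp _ h2
    linarith
  have hzx : z x = z (Fin.cons 0 y) := eq_of_pd_eq_zero hz1 hpd x _
  rw [hz0] at hzx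
  have h1 : z x = ε ^ 2 := by
    simp only [hz]
    rw [max_eq_left (by linarith)]
    congr 1
    rw [hε]
    ring
  rw [h1] at hzx
  have : ε = 0 := by simpa using hzx
  linarith

theorem V3_eq_of_distinct {V : R3 → R3 → ℝ} (hV : Pot V) (x : Fin 3 → R3) :
    ∀ i j l : Fin 3, i ≠ j → i ≠ l → j ≠ l →
      V (x i - x j) (x i - x l) = V (x 0 - x 1) (x 0 - x 2) := by
  have h1 := (hV.symm3 (x 0) (x 1) (x 2)).1
  have h2 := (hV.symm3 (x 0) (x 1) (x 2)).2
  intro i j l hij hil hjl
  fin_cases i <;> fin_cases j <;> fin_cases l <;>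
    first
      | exact absurd rfl hij
      | exact absurd rfl hil
      | exact absurd rfl hjl
      | rfl
      | exact hV.symm _ _
      | exact h1.symm
      | exact (hV.symm _ _).trans h1.symm
      | exact h2.symm.trans h1.symm
      | exact (hV.symm _ _).trans (h2.symm.trans h1.symm)

/-- Properties of `V3`. -/
theorem V3_props {V : R3 → R3 → ℝ} (hV : Pot V) : Measurable (V3 V) ∧ (∀ x, 0 ≤ V3 V x) ∧
    TI (V3 V) ∧ PI (V3 V) ∧ ∃ B > 0, ∃ R > 0, (∀ x, V3 V x ≤ B) ∧
      ∀ x, V3 V x ≠ 0 → rad x ≤ R := by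
  refine ⟨?_, fun x => hV.nonneg _ _, ?_, ?_, ?_⟩
  · have h1 : Measurable fun x : Fin 3 → R3 => ((x 0 - x 1, x 0 - x 2) : R3 × R3) := by
      refine Measurable.prodMk ?_ ?_
      · exact (measurable_pi_apply 0).sub (measurable_pi_apply 1)
      · exact (measurable_pi_apply 0).sub (measurable_pi_apply 2)
    exact hV.meas.comp h1
  · intro x v
    unfold V3
    simp only [add_sub_add_right_eq_sub]
  · intro σ x
    unfold V3
    simp only [Function.comp_apply]
    refine V3_eq_of_distinct hV x (σ 0) (σ 1) (σ 2) ?_ ?_ ?_ <;>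
    · intro h
      have := σ.injective h
      simp at this
  · obtain ⟨C, hC⟩ := hV.bdd
    obtain ⟨R0, hR0⟩ := hV.supp
    refine ⟨|C| + 1, by positivity, 3 * (3 : ℕ) * (2 * (|R0| + 1)), by positivity, ?_, ?_⟩
    · intro x
      have := hC (x 0 - x 1) (x 0 - x 2)
      have h2 := le_abs_self C
      unfold V3
      linarith
    · intro x hx
      obtain ⟨h1, h2⟩ := hR0 _ _ hx
      have h3 := le_abs_self R0
      have h12 : ‖x 1 - x 2‖ ≤ 2 * (|R0| + 1) := by
        have : x 1 - x 2 = (x 0 - x 2) - (x 0 - x 1) := by abel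
        rw [this]
        refine (norm_sub_le _ _).trans ?_
        linarith
      have h01 : ‖x 0 - x 1‖ ≤ 2 * (|R0| + 1) := by
        have := abs_nonneg R0
        linarith
      have h02 : ‖x 0 - x 2‖ ≤ 2 * (|R0| + 1) := by
        have := abs_nonneg R0
        linarith
      refine rad_le_of_norm_sub_le (by positivity) ?_
      intro m m'
      have hz : ∀ y : R3, ‖y - y‖ ≤ 2 * (|R0| + 1) := by
        intro y
        rw [sub_self, norm_zero]
        positivity
      fin_cases m <;> fin_cases m' <;>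
        first
          | exact hz _
          | exact h01
          | exact h02
          | exact h12
          | (rw [norm_sub_rev]; exact h01)
          | (rw [norm_sub_rev]; exact h02)
          | (rw [norm_sub_rev]; exact h12)

/-- The charge of a bounded function. -/
theorem chg_V3_mul {V : R3 → R3 → ℝ} (hV : Pot V) : ∃ B > 0, ∃ R > 0,
    ∀ (C : ℝ) (h : (Fin 3 → R3) → ℝ), Measurable h → (∀ x, |h x| ≤ C) →
      Chg (B * C) R (fun x => V3 V x * h x) := by
  obtain ⟨hm, h0, -, -, B, hB, R, hR, hVB, hVR⟩ := V3_props hV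
  refine ⟨B, hB, R, hR, fun C h hhm hC => ⟨hm.mul hhm, fun x => ?_, fun x hx => ?_⟩⟩
  · rw [abs_mul, abs_of_nonneg (h0 x)]
    exact mul_le_mul (hVB x) (hC x) (abs_nonneg _) hB.le
  · exact hVR x (left_ne_zero_of_mul hx)

end Pool.Agent.Lib.MP_5db8e2_mp
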