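import Pool.Agent.Lib.MP_5db8e2_mp.FourB1
import Pool.Agent.Lib.MP_5db8e2_mp.SolveA

/-!
# The primal four-body problem: symmetric near-optimal trial functions
-/

set_option autoImplicit false

open MeasureTheory Filter Topology

namespace Pool.Agent.Lib.MP_5db8e2_mp

variable {V : R3 → R3 → ℝ} {φ : (Fin 3 → R3) → ℝ}

namespace PrimA3aux

open FourB1aux

theorem sub4_comp (σ : Equiv.Perm (Fin 4)) (l : Fin 4) :
    ∃ τ : Equiv.Perm (Fin 3), ∀ x : Fin 4 → R3, sub4 l (x ∘ σ) = sub4 (σ l) x ∘ τ := by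
  have h1 : ∀ m : Fin 3, ∃ j : Fin 3, (σ l).succAbove j = σ (l.succAbove m) := by
    intro m
    apply Fin.exists_succAbove_eq
    intro h
    exact Fin.succAbove_ne l m (σ.injective h)
  choose τ hτ using h1
  have hinj : Function.Injective τ := by
    intro a b hab
    have h2 : σ (l.succAbove a) = σ (l.succAbove b) := by rw [← hτ, ← hτ, hab]
    exact Fin.succAbove_right_injective (σ.injective h2)
  refine ⟨Equiv.ofBijective τ (Finite.injective_iff_bijective.mp hinj), fun x => ?_⟩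
  funext m
  unfold sub4
  simp only [Function.comp_apply, Equiv.ofBijective_apply, hτ]

theorem comp_sub4 {F : (Fin 3 → R3) → ℝ} (hF : PI F) (σ : Equiv.Perm (Fin 4)) (l : Fin 4)
    (x : Fin 4 → R3) : F (sub4 l (x ∘ σ)) = F (sub4 (σ l) x) := by
  obtain ⟨τ, hτ⟩ := sub4_comp σ l
  rw [hτ, hF]

theorem V4_comp (hV : Pot V) (σ : Equiv.Perm (Fin 4)) (l : Fin 4) (x : Fin 4 → R3) :
    V4 V l (x ∘ σ) = V4 V (σ l) x := comp_sub4 (V3_props hV).2.2.2.1 σ l x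

theorem s0_comp (hφ : PI φ) (σ : Equiv.Perm (Fin 4)) (l : Fin 4) (x : Fin 4 → R3) :
    s0 φ l (x ∘ σ) = s0 φ (σ l) x := by
  unfold s0 ph
  have h1 : ∀ l', φ (sub4 l' (x ∘ σ)) = φ (sub4 (σ l') x) := fun l' => comp_sub4 hφ σ l' x
  simp only [h1]
  refine Finset.sum_bij (fun l' _ => σ l') ?_ ?_ ?_ ?_
  · intro a ha
    simp only [Finset.mem_erase, Finset.mem_univ, and_true, ne_eq] at ha ⊢
    exact fun h => ha (σ.injective h)
  · intro a _ b _ h
    exact σ.injective h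
  · intro b hb
    refine ⟨σ.symm b, ?_, by simp⟩
    simp only [Finset.mem_erase, Finset.mem_univ, and_true, ne_eq] at hb ⊢
    intro h
    apply hb
    rw [← h]
    simp
  · intro a _
    rfl

/-- The integrand. -/
noncomputable def FF (V : R3 → R3 → ℝ) (φ : (Fin 3 → R3) → ℝ) (z : (Fin 4 → R3) → ℝ)
    (x : Fin 4 → R3) : ℝ :=
  2 * ∑ l, V4 V l x * s0 φ l x * z x - gg z z x - ∑ l, V4 V l x * z x ^ 2

theorem gg_comp {z : (Fin 4 → R3) → ℝ} (hz : ContDiff ℝ 1 z) (σ : Equiv.Perm (Fin 4))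
    (x : Fin 4 → R3) : gg (fun x => z (x ∘ σ)) (fun x => z (x ∘ σ)) x = gg z z (x ∘ σ) := by
  unfold gg
  rw [← Equiv.sum_comp σ.symm (fun m => ∑ a, pd z m a (x ∘ σ) * pd z m a (x ∘ σ))]
  refine Finset.sum_congr rfl fun m _ => Finset.sum_congr rfl fun a _ => ?_
  rw [pd_perm σ (hz.differentiable (by norm_num)).differentiableAt]

theorem FF_comp (hV : Pot V) (hφ : PI φ) {z : (Fin 4 → R3) → ℝ} (hz : ContDiff ℝ 1 z)
    (σ : Equiv.Perm (Fin 4)) (x : Fin 4 → R3) :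
    FF V φ (fun x => z (x ∘ σ)) x = FF V φ z (x ∘ σ) := by
  unfold FF
  rw [gg_comp hz]
  simp only [V4_comp hV, s0_comp hφ]
  rw [Equiv.sum_comp σ (fun l => V4 V l x * s0 φ l x * z (x ∘ σ)),
    Equiv.sum_comp σ (fun l => V4 V l x * z (x ∘ σ) ^ 2)]

theorem TF_comp {z : (Fin 4 → R3) → ℝ} (hz : TF z) (σ : Equiv.Perm (Fin 4)) :
    TF (fun x => z (x ∘ σ)) := by
  refine ⟨?_, fun x v => hz.ti (x ∘ σ) v, ?_⟩
  · have h1 : ContDiff ℝ 1 (fun x : Fin 4 → R3 => x ∘ σ) :=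
      contDiff_pi.mpr fun i => contDiff_apply ℝ R3 (σ i)
    exact hz.c1.comp h1
  · obtain ⟨R, hR⟩ := hz.supp
    refine ⟨R, fun x hx => ?_⟩
    have := hR _ hx
    rwa [PI_rad σ x] at this

theorem J4_comp (hV : Pot V) (hφ : PI φ) (hm : Measurable φ) (hti : TI φ)
    {z : (Fin 4 → R3) → ℝ} (hz : TF z)
    (σ : Equiv.Perm (Fin 4)) : J4 V φ (fun x => z (x ∘ σ)) = J4 V φ z := by
  obtain ⟨B, hB0, R, hR0, h⟩ := V4_props hV
  have e : (fun x => FF V φ (fun x => z (x ∘ σ)) x) = fun x => FF V φ z (x ∘ σ) := by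
    funext x
    exact FF_comp hV hφ hz.c1 σ x
  have hmeas : Measurable (FF V φ z) := by
    unfold FF
    refine ((measurable_const.mul (Finset.measurable_sum _ fun l _ => ?_)).sub
      (continuous_gg hz.c1 hz.c1).measurable).sub (Finset.measurable_sum _ fun l _ => ?_)
    · exact ((h l).1.mul (measurable_s0 hm l)).mul hz.c1.continuous.measurable
    · exact (h l).1.mul (hz.c1.continuous.measurable.pow_const 2)
  have hTI : TI (FF V φ z) := by
    intro x v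
    unfold FF
    rw [TI_gg hz.ti hz.ti x v, hz.ti x v]
    have h1 : ∀ l, V4 V l (fun m => x m + v) = V4 V l x := fun l => (h l).2.1 x v
    have h2 : ∀ l, s0 φ l (fun m => x m + v) = s0 φ l x := by
      intro l
      unfold s0
      exact Finset.sum_congr rfl fun l' _ => TI_ph hti l' x v
    simp only [h1, h2]
  have h1 : J4 V φ (fun x => z (x ∘ σ)) = rint (fun x => FF V φ (fun x => z (x ∘ σ)) x) := rfl
  have h2 : J4 V φ z = rint (FF V φ z) := rfl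
  rw [h1, h2, e]
  exact rint_perm hmeas hTI σ

theorem TF_sum {ι : Type*} (s : Finset ι) (f : ι → (Fin 4 → R3) → ℝ) (hf : ∀ i ∈ s, TF (f i)) :
    TF (fun x => ∑ i ∈ s, f i x) := by
  classical
  induction s using Finset.induction_on with
  | empty =>
    simp only [Finset.sum_empty]
    exact TF_zero
  | insert i s hi ih =>
    simp only [Finset.sum_insert hi]
    exact (hf i (Finset.mem_insert_self i s)).add
      (ih fun j hj => hf j (Finset.mem_insert_of_mem hj))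

/-- The average over the permutations. -/
noncomputable def symAvg (z : (Fin 4 → R3) → ℝ) (x : Fin 4 → R3) : ℝ :=
  (Fintype.card (Equiv.Perm (Fin 4)) : ℝ)⁻¹ * ∑ σ : Equiv.Perm (Fin 4), z (x ∘ σ)

theorem TF_symAvg {z : (Fin 4 → R3) → ℝ} (hz : TF z) : TF (symAvg z) := by
  unfold symAvg
  exact (TF_sum Finset.univ (fun (σ : Equiv.Perm (Fin 4)) x => z (x ∘ σ))
    fun σ _ => TF_comp hz σ).const_mul _

theorem PI_symAvg (z : (Fin 4 → R3) → ℝ) : PI (symAvg z) := by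
  intro τ x
  unfold symAvg
  congr 1
  rw [← Equiv.sum_comp (Equiv.mulLeft τ) (fun σ : Equiv.Perm (Fin 4) => z (x ∘ σ))]
  refine Finset.sum_congr rfl fun σ _ => ?_
  rfl

theorem sq_mean_le {ι : Type*} [Fintype ι] [Nonempty ι] (f : ι → ℝ) :
    ((Fintype.card ι : ℝ)⁻¹ * ∑ i, f i) ^ 2 ≤ (Fintype.card ι : ℝ)⁻¹ * ∑ i, f i ^ 2 := by
  have hc : (0 : ℝ) < Fintype.card ι := by exact_mod_cast Fintype.card_pos
  have h1 : (∑ i, f i) ^ 2 ≤ (Fintype.card ι : ℝ) * ∑ i, f i ^ 2 := by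
    have := sq_sum_le_card_mul_sum_sq (s := (Finset.univ : Finset ι)) (f := f)
    rwa [Finset.card_univ] at this
  calc ((Fintype.card ι : ℝ)⁻¹ * ∑ i, f i) ^ 2
      = (Fintype.card ι : ℝ)⁻¹ * ((Fintype.card ι : ℝ)⁻¹ * (∑ i, f i) ^ 2) := by ring
    _ ≤ (Fintype.card ι : ℝ)⁻¹ * ((Fintype.card ι : ℝ)⁻¹
        * ((Fintype.card ι : ℝ) * ∑ i, f i ^ 2)) := by gcongr
    _ = (Fintype.card ι : ℝ)⁻¹ * ∑ i, f i ^ 2 := by
        rw [inv_mul_cancel_left₀ hc.ne']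

theorem pd_symAvg {z : (Fin 4 → R3) → ℝ} (hz : TF z) (m : Fin 4) (a : Fin 3) (x : Fin 4 → R3) :
    pd (symAvg z) m a x = (Fintype.card (Equiv.Perm (Fin 4)) : ℝ)⁻¹
      * ∑ σ : Equiv.Perm (Fin 4), pd (fun x => z (x ∘ σ)) m a x := by
  have hd : ∀ σ : Equiv.Perm (Fin 4), DifferentiableAt ℝ (fun x => z (x ∘ σ)) x := fun σ =>
    ((TF_comp hz σ).c1.differentiable (by norm_num)).differentiableAt
  unfold symAvg
  rw [pd_const_mul, pd_sum Finset.univ (fun (σ : Equiv.Perm (Fin 4)) x => z (x ∘ σ))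
    (fun σ _ => hd σ)]
  exact ((TF_sum Finset.univ (fun (σ : Equiv.Perm (Fin 4)) x => z (x ∘ σ))
    fun σ _ => TF_comp hz σ).c1.differentiable (by norm_num)).differentiableAt

theorem gg_symAvg {z : (Fin 4 → R3) → ℝ} (hz : TF z) (x : Fin 4 → R3) :
    gg (symAvg z) (symAvg z) x ≤ (Fintype.card (Equiv.Perm (Fin 4)) : ℝ)⁻¹
      * ∑ σ : Equiv.Perm (Fin 4), gg (fun x => z (x ∘ σ)) (fun x => z (x ∘ σ)) x := by
  have e : (Fintype.card (Equiv.Perm (Fin 4)) : ℝ)⁻¹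
      * ∑ σ : Equiv.Perm (Fin 4), gg (fun x => z (x ∘ σ)) (fun x => z (x ∘ σ)) x
      = ∑ m, ∑ a, (Fintype.card (Equiv.Perm (Fin 4)) : ℝ)⁻¹
        * ∑ σ : Equiv.Perm (Fin 4), pd (fun x => z (x ∘ σ)) m a x ^ 2 := by
    unfold gg
    rw [Finset.sum_comm]
    rw [Finset.mul_sum]
    refine Finset.sum_congr rfl fun m _ => ?_
    rw [Finset.sum_comm, Finset.mul_sum]
    refine Finset.sum_congr rfl fun a _ => ?_
    congr 1
    refine Finset.sum_congr rfl fun σ _ => ?_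
    ring
  rw [e]
  unfold gg
  refine Finset.sum_le_sum fun m _ => Finset.sum_le_sum fun a _ => ?_
  rw [pd_symAvg hz, ← sq]
  exact sq_mean_le _

theorem FF_symAvg (hV : Pot V) {z : (Fin 4 → R3) → ℝ} (hz : TF z) (x : Fin 4 → R3) :
    (Fintype.card (Equiv.Perm (Fin 4)) : ℝ)⁻¹
      * ∑ σ : Equiv.Perm (Fin 4), FF V φ (fun x => z (x ∘ σ)) x ≤ FF V φ (symAvg z) x := by
  obtain ⟨B, hB0, R, hR0, h⟩ := V4_props hV
  set c : ℝ := (Fintype.card (Equiv.Perm (Fin 4)) : ℝ)⁻¹ with hc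
  have hW : 0 ≤ ∑ l, V4 V l x := Finset.sum_nonneg fun l _ => ((h l).2.2.1 x).1
  have e1 : ∀ t : ℝ, ∑ l, V4 V l x * s0 φ l x * t = (∑ l, V4 V l x * s0 φ l x) * t := by
    intro t
    rw [Finset.sum_mul]
  have e2 : ∀ t : ℝ, ∑ l, V4 V l x * t ^ 2 = (∑ l, V4 V l x) * t ^ 2 := by
    intro t
    rw [Finset.sum_mul]
  have h1 := gg_symAvg hz x
  have h2 : (symAvg z x) ^ 2 ≤ c * ∑ σ : Equiv.Perm (Fin 4), z (x ∘ σ) ^ 2 :=
    sq_mean_le (fun σ : Equiv.Perm (Fin 4) => z (x ∘ σ))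
  unfold FF
  simp only [e1, e2]
  rw [Finset.sum_sub_distrib, Finset.sum_sub_distrib]
  have e3 : ∑ σ : Equiv.Perm (Fin 4), 2 * ((∑ l, V4 V l x * s0 φ l x) * z (x ∘ σ))
      = 2 * ((∑ l, V4 V l x * s0 φ l x) * ∑ σ : Equiv.Perm (Fin 4), z (x ∘ σ)) := by
    rw [Finset.mul_sum, Finset.mul_sum]
  have e4 : ∑ σ : Equiv.Perm (Fin 4), (∑ l, V4 V l x) * z (x ∘ σ) ^ 2
      = (∑ l, V4 V l x) * ∑ σ : Equiv.Perm (Fin 4), z (x ∘ σ) ^ 2 := by
    rw [Finset.mul_sum]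
  rw [e3, e4]
  have e5 : symAvg z x = c * ∑ σ : Equiv.Perm (Fin 4), z (x ∘ σ) := rfl
  have h3 : (∑ l, V4 V l x) * (symAvg z x) ^ 2
      ≤ (∑ l, V4 V l x) * (c * ∑ σ : Equiv.Perm (Fin 4), z (x ∘ σ) ^ 2) :=
    mul_le_mul_of_nonneg_left h2 hW
  have e6 : 2 * ((∑ l, V4 V l x * s0 φ l x) * symAvg z x)
      = c * (2 * ((∑ l, V4 V l x * s0 φ l x) * ∑ σ : Equiv.Perm (Fin 4), z (x ∘ σ))) := by
    rw [e5]
    ring
  rw [e6]
  linarith

end PrimA3aux

open FourB1aux PrimA3aux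

/-- **Symmetric near-optimal trial functions.** `J4 V φ (z ∘ σ) = J4 V φ z` (`φ` and `V3 V` are
permutation invariant; `sub4 l (x ∘ σ)` is a permutation of `sub4 (σ l) x`; `rint_perm`) and `J4`
is concave, so the average of `z ∘ σ` over the `24` permutations is at least as good. Concavity:
`J4` is a linear functional minus a nonnegative quadratic form (for instance by induction from
`J4 ((z+z')/2) ≥ (J4 z + J4 z')/2`, or Cauchy–Schwarz pointwise: for `z̄` the average,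
`gg z̄ z̄ ≤ (1/24) ∑ gg (z∘σ) (z∘σ)`). -/
theorem exists_opt_symm (hV : Pot V) (h : Scat V φ) {η : ℝ} (hη : 0 < η) :
    ∃ z, TF z ∧ PI z ∧ calS V φ - η ≤ J4 V φ z := by
  obtain ⟨C, hC⟩ := h.decay
  have hb : ∀ x, |φ x| ≤ C / (1 + rad x) ^ 4 := fun x => by
    rw [abs_of_nonneg (h.nonneg x)]
    exact hC x
  have hm : Measurable φ := h.c1.continuous.measurable
  have hne : {J | ∃ ψ, TF ψ ∧ J = J4 V φ ψ}.Nonempty := ⟨_, _, TF_zero, rfl⟩
  obtain ⟨J, ⟨z, hz, rfl⟩, hJ⟩ := exists_lt_of_lt_csSup hne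
    (show calS V φ - η < sSup {J | ∃ ψ, TF ψ ∧ J = J4 V φ ψ} by
      have : calS V φ = sSup {J | ∃ ψ, TF ψ ∧ J = J4 V φ ψ} := rfl
      linarith)
  refine ⟨symAvg z, TF_symAvg hz, PI_symAvg z, hJ.le.trans ?_⟩
  set c : ℝ := (Fintype.card (Equiv.Perm (Fin 4)) : ℝ)⁻¹ with hc
  have hcard : (0 : ℝ) < Fintype.card (Equiv.Perm (Fin 4)) := by
    exact_mod_cast Fintype.card_pos
  have hRI : ∀ σ : Equiv.Perm (Fin 4), RI (k := 3) fun x => FF V φ (fun x => z (x ∘ σ)) x :=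
    fun σ => RI_J hV hm hb (TF_comp hz σ)
  have hRIs : RI (k := 3) fun x => ∑ σ : Equiv.Perm (Fin 4), FF V φ (fun x => z (x ∘ σ)) x := by
    unfold RI
    exact integrable_finset_sum _ fun σ _ => hRI σ
  have h1 : (rint (k := 3) fun x => c * ∑ σ : Equiv.Perm (Fin 4), FF V φ (fun x => z (x ∘ σ)) x)
      ≤ J4 V φ (symAvg z) := by
    refine rint_mono (hRIs.const_mul c) (RI_J hV hm hb (TF_symAvg hz)) fun x => ?_
    exact FF_symAvg hV hz x
  rw [rint_const_mul, rint_sum _ _ fun σ _ => hRI σ] at h1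
  have h2 : ∑ σ : Equiv.Perm (Fin 4), (rint (k := 3) fun x => FF V φ (fun x => z (x ∘ σ)) x)
      = ∑ _σ : Equiv.Perm (Fin 4), J4 V φ z :=
    Finset.sum_congr rfl fun σ _ => J4_comp hV h.pi hm h.ti hz σ
  rw [h2, Finset.sum_const, Finset.card_univ, nsmul_eq_mul, hc, inv_mul_cancel_left₀ hcard.ne'] at h1
  exact h1

end Pool.Agent.Lib.MP_5db8e2_mp
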