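import Pool.Agent.Lib.MP_5db8e2_mp.PrimA2
import Pool.Agent.Lib.MP_5db8e2_mp.PrimA3

/-!
# The primal four-body problem: truncation
-/

set_option autoImplicit false

open MeasureTheory Filter Topology

namespace Pool.Agent.Lib.MP_5db8e2_mp

variable {V : R3 → R3 → ℝ} {φ : (Fin 3 → R3) → ℝ}

/-- The smooth truncation `G_c`: `t` for `t ≥ 2c`, `c + t²/(4c)` for `0 ≤ t ≤ 2c`, `c` for
`t ≤ 0`. -/
noncomputable def Gc (c t : ℝ) : ℝ := if 2 * c ≤ t then t else if 0 ≤ t then c + t ^ 2 / (4 * c) else c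

namespace PrimC1Aux

theorem hasDerivAt_possq (t : ℝ) : HasDerivAt (fun t : ℝ => max t 0 ^ 2) (2 * max t 0) t := by
  rcases lt_trichotomy t 0 with h | h | h
  · rw [max_eq_right h.le, mul_zero]
    have e : (fun t : ℝ => max t 0 ^ 2) =ᶠ[𝓝 t] fun _ => 0 := by
      filter_upwards [Iio_mem_nhds h] with s hs
      rw [max_eq_right (le_of_lt hs)]
      norm_num
    exact (hasDerivAt_const t (0 : ℝ)).congr_of_eventuallyEq e
  · subst h
    rw [max_self, mul_zero, hasDerivAt_iff_isLittleO]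
    simp only [max_self, sub_zero, smul_zero, ne_eq, OfNat.ofNat_ne_zero, not_false_eq_true,
      zero_pow]
    have h2 : (fun x : ℝ => x ^ 2) =o[𝓝 0] fun x : ℝ => x := by
      simpa using (Asymptotics.isLittleO_pow_id (𝕜 := ℝ) (n := 2) (by norm_num))
    refine Asymptotics.IsBigO.trans_isLittleO ?_ h2
    refine Asymptotics.IsBigO.of_bound 1 (Filter.Eventually.of_forall fun x => ?_)
    rw [one_mul, Real.norm_eq_abs, Real.norm_eq_abs, abs_of_nonneg (sq_nonneg _),
      abs_of_nonneg (sq_nonneg _)]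
    rcases le_total x 0 with hx | hx
    · rw [max_eq_right hx]
      nlinarith [sq_nonneg x]
    · rw [max_eq_left hx]
  · rw [max_eq_left h.le]
    have e : (fun t : ℝ => max t 0 ^ 2) =ᶠ[𝓝 t] fun t => t ^ 2 := by
      filter_upwards [Ioi_mem_nhds h] with s hs
      rw [max_eq_left (le_of_lt hs)]
    have h1 : HasDerivAt (fun t : ℝ => t ^ 2) (2 * t) t := by
      simpa using hasDerivAt_pow 2 t
    exact h1.congr_of_eventuallyEq e

theorem Gc_eq {c : ℝ} (hc : 0 < c) (t : ℝ) :
    Gc c t = c + (max t 0 ^ 2 - max (t - 2 * c) 0 ^ 2) / (4 * c) := by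
  unfold Gc
  split_ifs with h1 h2
  · rw [max_eq_left (by linarith), max_eq_left (by linarith)]
    field_simp
    ring
  · rw [max_eq_left h2, max_eq_right (by linarith)]
    ring
  · rw [max_eq_right (by linarith), max_eq_right (by linarith)]
    ring

theorem hasDerivAt_Gc {c : ℝ} (hc : 0 < c) (t : ℝ) :
    HasDerivAt (Gc c) ((2 * max t 0 - 2 * max (t - 2 * c) 0) / (4 * c)) t := by
  have e : Gc c = fun t => c + (max t 0 ^ 2 - max (t - 2 * c) 0 ^ 2) / (4 * c) :=
    funext fun t => Gc_eq hc t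
  rw [e]
  have h1 := hasDerivAt_possq t
  have h2 : HasDerivAt (fun t : ℝ => max (t - 2 * c) 0 ^ 2) (2 * max (t - 2 * c) 0) t := by
    have h3 := (hasDerivAt_possq (t - 2 * c)).comp t ((hasDerivAt_id t).sub_const (2 * c))
    rw [mul_one] at h3
    exact h3
  exact ((h1.sub h2).div_const (4 * c)).const_add c

end PrimC1Aux

open PrimC1Aux

theorem Gc_props {c : ℝ} (hc : 0 < c) : ContDiff ℝ 1 (Gc c) ∧ (∀ t, c ≤ Gc c t) ∧
    (∀ t, 2 * c ≤ t → Gc c t = t) ∧ (∀ t, 0 ≤ deriv (Gc c) t ∧ deriv (Gc c) t ≤ 1) ∧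
    (∀ t, t ≤ 2 * c → Gc c t ≤ 2 * c) := by
  have hd : deriv (Gc c) = fun t => (2 * max t 0 - 2 * max (t - 2 * c) 0) / (4 * c) :=
    funext fun t => (hasDerivAt_Gc hc t).deriv
  refine ⟨?_, fun t => ?_, fun t ht => ?_, fun t => ?_, fun t ht => ?_⟩
  · rw [contDiff_one_iff_deriv]
    refine ⟨fun t => (hasDerivAt_Gc hc t).differentiableAt, ?_⟩
    rw [hd]
    fun_prop
  · unfold Gc
    split_ifs with h1 h2
    · linarith
    · have : 0 ≤ t ^ 2 / (4 * c) := by positivity
      linarith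
    · exact le_rfl
  · unfold Gc
    rw [if_pos ht]
  · rw [hd]
    simp only
    rw [div_le_one (by positivity)]
    rcases le_total t 0 with h1 | h1
    · rw [max_eq_right h1, max_eq_right (by linarith : t - 2 * c ≤ 0)]
      constructor
      · simp
      · linarith
    · rw [max_eq_left h1]
      rcases le_total t (2 * c) with h2 | h2
      · rw [max_eq_right (by linarith : t - 2 * c ≤ 0)]
        refine ⟨?_, by linarith⟩
        rw [mul_zero, sub_zero]
        positivity
      · rw [max_eq_left (by linarith : 0 ≤ t - 2 * c)]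
        refine ⟨?_, by linarith⟩
        apply div_nonneg <;> linarith
  · unfold Gc
    split_ifs with h1 h2
    · exact ht
    · have h3 : t ^ 2 ≤ (2 * c) ^ 2 := pow_le_pow_left₀ h2 ht 2
      have h4 : t ^ 2 / (4 * c) ≤ c := by
        rw [div_le_iff₀ (by positivity)]
        nlinarith
      linarith
    · linarith

namespace PrimC1Aux

theorem exists_sub4_perm (σ : Equiv.Perm (Fin 4)) (l : Fin 4) : ∃ τ : Equiv.Perm (Fin 3),
    ∀ m, (σ l).succAbove (τ m) = σ (l.succAbove m) := by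
  have h1 : ∀ m : Fin 3, ∃ j : Fin 3, (σ l).succAbove j = σ (l.succAbove m) := by
    intro m
    have h2 : σ (l.succAbove m) ≠ σ l := by
      intro h
      exact Fin.succAbove_ne l m (σ.injective h)
    exact Fin.exists_succAbove_eq h2
  choose f hf using h1
  have hinj : Function.Injective f := by
    intro m m' h
    have h3 : σ (l.succAbove m) = σ (l.succAbove m') := by
      rw [← hf m, ← hf m', h]
    exact Fin.succAbove_right_injective (σ.injective h3)
  refine ⟨Equiv.ofBijective f (Finite.injective_iff_bijective.1 hinj), fun m => ?_⟩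
  exact hf m

theorem ph_perm (h : PI φ) (σ : Equiv.Perm (Fin 4)) (l : Fin 4) (x : Fin 4 → R3) :
    ph φ l (x ∘ σ) = ph φ (σ l) x := by
  obtain ⟨τ, hτ⟩ := exists_sub4_perm σ l
  have e : sub4 l (x ∘ σ) = sub4 (σ l) x ∘ τ := by
    funext m
    unfold sub4
    simp only [Function.comp_apply, hτ m]
  unfold ph
  rw [e, h τ]

end PrimC1Aux

theorem PI_Phi4 (h : PI φ) : PI (Phi4 φ) := by
  intro σ x
  unfold Phi4
  simp only [ph_perm h]
  exact Equiv.sum_comp σ fun l => ph φ l x

theorem PI_Pf (h : PI φ) : PI (Pf φ) := by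
  intro σ x
  unfold Pf
  simp only [ph_perm h]
  exact Equiv.prod_comp σ fun l => 1 - ph φ l x

/-- Lower bounds: `Pf φ ≥ c⁴` and, far away, `1 - Φ ≥ c/2`. (`φ ≤ 1 - c`; if `rad x` is large then
at most one `rad (sub4 l x)` is small by `rad_le_sub4_add`.) -/
theorem far_pos (h : Scat V φ) : ∃ c > 0, c ≤ 1 ∧ (∀ x, c ≤ Pf φ x ∧ Pf φ x ≤ 1) ∧
    ∃ R > 0, ∀ x, R ≤ rad x → c ≤ 1 - Phi4 φ x := by
  obtain ⟨c0, hc0, hle⟩ := h.lt_one
  obtain ⟨C, hC⟩ := h.decay
  have hn := h.nonneg
  have hc1 : c0 ≤ 1 := by linarith [hn 0, hle 0]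
  have hc4 : c0 ^ 4 ≤ c0 := by
    calc c0 ^ 4 ≤ c0 ^ 1 := pow_le_pow_of_le_one hc0.le hc1 (by norm_num)
      _ = c0 := pow_one _
  have hC0 : 0 ≤ C := by
    have h1 := (hn 0).trans (hC 0)
    have h2 : (0 : ℝ) < (1 + rad (0 : Fin 3 → R3)) ^ 4 := by
      have := rad_nonneg (0 : Fin 3 → R3)
      positivity
    by_contra hc
    push Not at hc
    have h3 := div_neg_of_neg_of_pos hc h2
    linarith
  refine ⟨c0 ^ 4 / 2, by positivity, by linarith, fun x => ⟨?_, ?_⟩, ?_⟩
  · have h1 : ∏ _l : Fin 4, c0 ≤ Pf φ x := by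
      unfold Pf
      refine Finset.prod_le_prod (fun l _ => hc0.le) fun l _ => ?_
      have := hle (sub4 l x)
      unfold ph
      linarith
    rw [Finset.prod_const, Finset.card_univ, Fintype.card_fin] at h1
    have h2 : 0 < c0 ^ 4 := by positivity
    linarith
  · unfold Pf
    refine Finset.prod_le_one (fun l _ => ?_) fun l _ => ?_
    · have := hle (sub4 l x)
      unfold ph
      linarith
    · have := hn (sub4 l x)
      unfold ph
      linarith
  · refine ⟨200 * (6 * C / c0 + 1), by positivity, fun x hx => ?_⟩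
    set ρ : ℝ := 6 * C / c0 with hρ
    have hρ0 : 0 ≤ ρ := by positivity
    -- small values
    have hsm : ∀ l : Fin 4, ρ ≤ rad (sub4 l x) → ph φ l x ≤ c0 / 6 := by
      intro l hl
      unfold ph
      refine (hC (sub4 l x)).trans ?_
      have h1 : 1 + ρ ≤ (1 + rad (sub4 l x)) ^ 4 := by
        calc 1 + ρ ≤ 1 + rad (sub4 l x) := by linarith
          _ = (1 + rad (sub4 l x)) ^ 1 := (pow_one _).symm
          _ ≤ (1 + rad (sub4 l x)) ^ 4 :=
            pow_le_pow_right₀ (by linarith [rad_nonneg (sub4 l x)]) (by norm_num)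
      calc C / (1 + rad (sub4 l x)) ^ 4 ≤ C / (1 + ρ) :=
            div_le_div_of_nonneg_left hC0 (by positivity) h1
        _ ≤ c0 / 6 := by
            rw [div_le_div_iff₀ (by positivity) (by norm_num)]
            have : c0 * ρ = 6 * C := by
              rw [hρ]
              field_simp
            nlinarith
    have hall : ∀ l l' : Fin 4, l ≠ l' → ρ ≤ rad (sub4 l x) ∨ ρ ≤ rad (sub4 l' x) := by
      intro l l' hne
      by_contra hcon
      push Not at hcon
      have h1 := rad_le_sub4_add l l' hne x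
      linarith [hcon.1, hcon.2]
    have hbig : ∀ l : Fin 4, ph φ l x ≤ 1 - c0 := fun l => hle (sub4 l x)
    have hex : ∃ l : Fin 4, ∀ l' : Fin 4, l' ≠ l → ρ ≤ rad (sub4 l' x) := by
      by_cases hs : ∃ l : Fin 4, rad (sub4 l x) < ρ
      · obtain ⟨l, hl⟩ := hs
        refine ⟨l, fun l' hl' => ?_⟩
        rcases hall l' l hl' with h1 | h1
        · exact h1
        · linarith
      · push Not at hs
        exact ⟨0, fun l' _ => hs l'⟩
    obtain ⟨l, hl⟩ := hex
    have hsum : Phi4 φ x ≤ (1 - c0) + 3 * (c0 / 6) := by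
      unfold Phi4
      rw [← Finset.add_sum_erase Finset.univ (fun l => ph φ l x) (Finset.mem_univ l)]
      refine add_le_add (hbig l) ?_
      calc ∑ l' ∈ Finset.univ.erase l, ph φ l' x ≤ ∑ _l' ∈ Finset.univ.erase l, c0 / 6 :=
            Finset.sum_le_sum fun l' hl' => hsm l' (hl l' (Finset.ne_of_mem_erase hl'))
        _ = 3 * (c0 / 6) := by
            rw [Finset.sum_const, Finset.card_erase_of_mem (Finset.mem_univ l), Finset.card_univ,
              Fintype.card_fin, nsmul_eq_mul]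
            norm_num
    linarith

namespace PrimC1Aux

theorem dens4_trunc_le {c B R : ℝ} (hc : 0 < c) (hB : ∀ l x, 0 ≤ V4 V l x ∧ V4 V l x ≤ B)
    {F : (Fin 4 → R3) → ℝ} (hF : ContDiff ℝ 1 F) (hR : ∀ x, F x < 2 * c → rad x ≤ R)
    (x : Fin 4 → R3) : dens4 V φ (fun x => Gc c (F x)) x ≤
      dens4 V φ F x + 16 * c ^ 2 * B * (if rad x ≤ R then (1 : ℝ) else 0) := by
  obtain ⟨g1, g2, g3, g4, g5⟩ := Gc_props hc
  have hB0 : 0 ≤ B := (hB 0 0).1.trans (hB 0 0).2
  have hgg : gg (fun x => Gc c (F x)) (fun x => Gc c (F x)) x ≤ gg F F x := by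
    have h1 : gg (fun x => Gc c (F x)) (fun x => Gc c (F x)) x =
        deriv (Gc c) (F x) * (deriv (Gc c) (F x) * gg F F x) := by
      rw [gg_comp_right hF g1, gg_comm, gg_comp_right hF g1]
    rw [h1]
    have h2 := g4 (F x)
    have h3 := gg_self_nonneg (φ := F) x
    have h4 : deriv (Gc c) (F x) * gg F F x ≤ 1 * gg F F x :=
      mul_le_mul_of_nonneg_right h2.2 h3
    have h5 : 0 ≤ deriv (Gc c) (F x) * gg F F x := mul_nonneg h2.1 h3
    calc deriv (Gc c) (F x) * (deriv (Gc c) (F x) * gg F F x)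
        ≤ 1 * (deriv (Gc c) (F x) * gg F F x) := mul_le_mul_of_nonneg_right h2.2 h5
      _ ≤ gg F F x := by linarith
  have hS0 : 0 ≤ ∑ l, V4 V l x := Finset.sum_nonneg fun l _ => (hB l x).1
  have hS1 : ∑ l, V4 V l x ≤ 4 * B := by
    calc ∑ l, V4 V l x ≤ ∑ _l : Fin 4, B := Finset.sum_le_sum fun l _ => (hB l x).2
      _ = 4 * B := by
          rw [Finset.sum_const, Finset.card_univ, Fintype.card_fin, nsmul_eq_mul]
          norm_num
  have hsq : (∑ l, V4 V l x) * Gc c (F x) ^ 2 ≤ (∑ l, V4 V l x) * F x ^ 2 +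
      16 * c ^ 2 * B * (if rad x ≤ R then (1 : ℝ) else 0) := by
    rcases le_or_gt (2 * c) (F x) with h1 | h1
    · rw [g3 _ h1]
      have : 0 ≤ 16 * c ^ 2 * B * (if rad x ≤ R then (1 : ℝ) else 0) := by
        split_ifs <;> positivity
      linarith
    · rw [if_pos (hR x h1), mul_one]
      have h2 : Gc c (F x) ^ 2 ≤ (2 * c) ^ 2 :=
        pow_le_pow_left₀ (hc.le.trans (g2 _)) (g5 _ h1.le) 2
      have h3 : (∑ l, V4 V l x) * Gc c (F x) ^ 2 ≤ (4 * B) * (2 * c) ^ 2 :=
        mul_le_mul hS1 h2 (sq_nonneg _) (by positivity)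
      have h4 : 0 ≤ (∑ l, V4 V l x) * F x ^ 2 := mul_nonneg hS0 (sq_nonneg _)
      nlinarith
  unfold dens4
  linarith

end PrimC1Aux

/-- **Truncation.** For `z` a symmetric test function and `F = 1 - Φ + z`, `F' = G_c(F)` with `c`
small: `F' - F` is a test function (it vanishes where `F ≥ 2c`, in particular far away), so
`X = z + (F' - F)` is a symmetric test function with `1 - Φ + X = F' ≥ c`, and
`dens4 F' ≤ dens4 F + 4c² (∑ V4) 1_{F < 2c}` pointwise, the last term is supported in a fixed ball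
(`{F < c₀} ⊆ {rad ≤ R}`, `c₀` from `far_pos`, for all `2c ≤ c₀`). -/
theorem exists_trunc (hV : Pot V) (h : Scat V φ) {η : ℝ} (hη : 0 < η) : ∃ X : (Fin 4 → R3) → ℝ,
    TF X ∧ PI X ∧ (∃ c > 0, ∀ x, c ≤ 1 - Phi4 φ x + X x) ∧
    rint (dens4 V φ fun x => 1 - Phi4 φ x + X x) ≤ b4 V φ + η := by
  obtain ⟨z, hz, hzp, hJ⟩ := exists_opt_symm hV h (half_pos hη)
  obtain ⟨c0, hc0, -, -, R0, hR0, hfar⟩ := far_pos h
  obtain ⟨Rz, hRz⟩ := hz.supp
  obtain ⟨B, hB, R1, hR1, hp⟩ := V4_props hV
  set R : ℝ := max R0 Rz with hR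
  set vol : ℝ := rint fun x : Fin 4 → R3 => if rad x ≤ R then (1 : ℝ) else 0 with hvol
  have hvol0 : 0 ≤ vol := rint_nonneg fun x => by split_ifs <;> norm_num
  set c : ℝ := min (min (c0 / 2) 1) (η / (32 * B * (vol + 1))) with hcdef
  have hc : 0 < c := by
    rw [hcdef]
    refine lt_min (lt_min (by positivity) one_pos) (by positivity)
  have hc2 : 2 * c ≤ c0 := by
    have : c ≤ c0 / 2 := (min_le_left _ _).trans (min_le_left _ _)
    linarith
  have hc1 : c ≤ 1 := (min_le_left _ _).trans (min_le_right _ _)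
  have hcη : 16 * c ^ 2 * B * vol ≤ η / 2 := by
    have h1 : c ≤ η / (32 * B * (vol + 1)) := min_le_right _ _
    rw [le_div_iff₀ (by positivity)] at h1
    have h2 : c ^ 2 ≤ c := by nlinarith
    have h3 : 0 ≤ B * vol := by positivity
    have h4 : 16 * c ^ 2 * B * vol ≤ 16 * c * (B * vol) := by nlinarith
    have h5 : 0 ≤ c * B := by positivity
    nlinarith
  have hΦ : ContDiff ℝ 1 (Phi4 φ) := by
    unfold Phi4
    exact ContDiff.sum fun l _ => contDiff_ph h.c1 l
  have hΦt : TI (Phi4 φ) := by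
    intro x v
    unfold Phi4
    exact Finset.sum_congr rfl fun l _ => TI_ph h.ti l x v
  set F : (Fin 4 → R3) → ℝ := fun x => 1 - Phi4 φ x + z x with hF
  have hFc : ContDiff ℝ 1 F := (contDiff_const.sub hΦ).add hz.c1
  have hFt : TI F := by
    intro x v
    simp only [hF]
    rw [hΦt x v, hz.ti x v]
  have hFp : PI F := by
    intro σ x
    simp only [hF]
    rw [PI_Phi4 h.pi σ x, hzp σ x]
  have hFR : ∀ x, F x < 2 * c → rad x ≤ R := by
    intro x hx
    by_contra hcon
    push Not at hcon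
    have h1 : R0 ≤ rad x := (le_max_left _ _).trans hcon.le
    have h2 : z x = 0 := by
      by_contra hz0
      have := hRz x hz0
      have h3 : Rz ≤ R := le_max_right _ _
      linarith
    have h3 := hfar x h1
    simp only [hF, h2] at hx
    linarith
  obtain ⟨g1, g2, g3, g4, g5⟩ := Gc_props hc
  have hX : ∀ x, 1 - Phi4 φ x + (Gc c (F x) - 1 + Phi4 φ x) = Gc c (F x) := fun x => by ring
  have hXTF : TF fun x => Gc c (F x) - 1 + Phi4 φ x := by
    refine ⟨((g1.comp hFc).sub contDiff_const).add hΦ, ?_, R, fun x hx => ?_⟩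
    · intro x v
      simp only
      rw [hΦt x v, hFt x v]
    · by_contra hcon
      push Not at hcon
      have h1 : 2 * c ≤ F x := by
        by_contra h2
        push Not at h2
        exact absurd (hFR x h2) (not_le.2 hcon)
      have h2 : z x = 0 := by
        by_contra hz0
        have := hRz x hz0
        have h3 : Rz ≤ R := le_max_right _ _
        linarith
      apply hx
      rw [g3 _ h1]
      simp only [hF, h2]
      ring
  refine ⟨fun x => Gc c (F x) - 1 + Phi4 φ x, hXTF, ?_, ⟨c, hc, fun x => ?_⟩, ?_⟩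
  · intro σ x
    simp only
    rw [PI_Phi4 h.pi σ x, hFp σ x]
  · rw [hX]
    exact g2 _
  · obtain ⟨i1, -⟩ := linear_value hV h hXTF
    obtain ⟨i2, e2⟩ := linear_value hV h hz
    simp only [hX] at i1 ⊢
    have h1 : (rint (dens4 V φ fun x => Gc c (F x))) ≤
        rint fun x => dens4 V φ F x + 16 * c ^ 2 * B * (if rad x ≤ R then (1 : ℝ) else 0) :=
      rint_mono i1 (i2.add ((RI_ball R).const_mul _))
        (dens4_trunc_le hc (fun l x => (hp l).2.2.1 x) hFc hFR)
    rw [rint_add i2 ((RI_ball R).const_mul _), rint_const_mul] at h1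
    have h2 : b4 V φ = (rint fun x => ∑ l, V4 V l x * s0 φ l x ^ 2) - A1 φ - calS V φ := rfl
    rw [h2]
    have h3 : rint (dens4 V φ F) =
        (rint fun x => ∑ l, V4 V l x * s0 φ l x ^ 2) - A1 φ - J4 V φ z := e2
    rw [h3] at h1
    linarith

end Pool.Agent.Lib.MP_5db8e2_mp
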