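import Pool.Agent.Lib.MP_5db8e2_mp.PrimB2
import Pool.Agent.Lib.MP_5db8e2_mp.PrimC1

/-!
# The primal four-body problem: the four-body factor of the trial state
-/

set_option autoImplicit false

open MeasureTheory Filter Topology

namespace Pool.Agent.Lib.MP_5db8e2_mp

variable {V : R3 → R3 → ℝ} {φ : (Fin 3 → R3) → ℝ}

namespace PrimC2Aux

open FourA2Aux PrimB1Aux PrimB2Aux

theorem PB.mono {C C' : ℝ} (hC : C ≤ C') {φ : (Fin 3 → R3) → ℝ} (h : PB C φ) : PB C' φ where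
  c1 := h.c1
  ti := h.ti
  bd := fun x => (h.bd x).trans (by
    have := rad_nonneg x
    gcongr)
  bd' := fun x m a => (h.bd' x m a).trans (by
    have := rad_nonneg x
    gcongr)

theorem XB.mono {C C' : ℝ} (hC : C ≤ C') {X : (Fin 4 → R3) → ℝ} (h : XB C X) : XB C' X where
  c1 := h.c1
  ti := h.ti
  bd := fun x => (h.bd x).trans (mul_le_mul_of_nonneg_right hC (k0_nonneg x))
  bd' := fun x m a => (h.bd' x m a).trans (mul_le_mul_of_nonneg_right hC (k1_nonneg x))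

theorem exists_PB (h : Scat V φ) : ∃ C > 0, PB C φ := by
  obtain ⟨C1, h1⟩ := h.decay
  obtain ⟨C2, h2⟩ := h.decay'
  refine ⟨max (max C1 C2) 1, by positivity, h.c1, h.ti, fun x => ?_, fun x m a => ?_⟩
  · rw [abs_of_nonneg (h.nonneg x)]
    refine (h1 x).trans ?_
    have := rad_nonneg x
    gcongr
    exact (le_max_left _ _).trans (le_max_left _ _)
  · refine (h2 x m a).trans ?_
    have := rad_nonneg x
    gcongr
    exact (le_max_right _ _).trans (le_max_left _ _)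

theorem contDiff_Pf (hφ : ContDiff ℝ 1 φ) : ContDiff ℝ 1 (Pf φ) := by
  unfold Pf
  exact contDiff_prod fun l _ => contDiff_const.sub (contDiff_ph hφ l)

theorem TI_Pf (h : TI φ) : TI (Pf φ) := by
  intro x v
  unfold Pf
  simp only [TI_ph h _ x v]

theorem TI_Phi4 (h : TI φ) : TI (Phi4 φ) := by
  intro x v
  unfold Phi4
  simp only [TI_ph h _ x v]

/-- `k0 / (1 + rad) ≤ k1`. -/
theorem k0_div_le (x : Fin 4 → R3) : k0 x / (1 + rad x) ≤ k1 x := by
  have h0 := rad_nonneg x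
  unfold k0 k1
  rw [Finset.sum_div]
  refine Finset.sum_le_sum fun l _ => ?_
  rw [Finset.sum_div]
  refine Finset.sum_le_sum fun l' _ => ?_
  unfold kab
  have h1 := rad_nonneg (sub4 l x)
  have h2 := rad_nonneg (sub4 l' x)
  have h3 := rad_sub4_le l x
  have h4 : ((1 + rad (sub4 l x)) ^ 4)⁻¹ / (1 + rad x) ≤ ((1 + rad (sub4 l x)) ^ 5)⁻¹ := by
    rw [div_eq_mul_inv, ← mul_inv, pow_succ _ 4]
    gcongr
  calc ((1 + rad (sub4 l x)) ^ 4)⁻¹ * ((1 + rad (sub4 l' x)) ^ 4)⁻¹ / (1 + rad x)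
      = ((1 + rad (sub4 l x)) ^ 4)⁻¹ / (1 + rad x) * ((1 + rad (sub4 l' x)) ^ 4)⁻¹ := by ring
    _ ≤ _ := mul_le_mul_of_nonneg_right h4 (by positivity)

/-- The interpolations satisfy uniform bounds. -/
theorem XB_interp {C0 C1 Cc : ℝ} (hC0 : 0 ≤ C0) (hC1 : 0 ≤ C1) (hCc : 0 ≤ Cc)
    {X X0 : (Fin 4 → R3) → ℝ} (hX : XB C1 X) (hX0 : XB C0 X0) {R : ℝ} (hR : 1 ≤ R)
    {θ : (Fin 4 → R3) → ℝ} (hθ : ContDiff ℝ 2 θ) (hθt : TI θ) (hθ01 : ∀ x, 0 ≤ θ x ∧ θ x ≤ 1)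
    (hθd : ∀ m a x, |pd θ m a x| ≤ Cc / R)
    (hθs : ∀ m a x, pd θ m a x ≠ 0 → R ≤ rad x ∧ rad x ≤ 2 * R) :
    XB ((3 * Cc + 1) * (C1 + C0)) (fun x => θ x * X x + (1 - θ x) * X0 x) := by
  have hθ1 : ContDiff ℝ 1 θ := hθ.of_le (by norm_num)
  have hR0 : 0 < R := by linarith
  refine ⟨(hθ1.mul hX.c1).add ((contDiff_const.sub hθ1).mul hX0.c1), ?_, fun x => ?_,
    fun x m a => ?_⟩
  · intro x v
    simp only [hθt x v, hX.ti x v, hX0.ti x v]
  · have h1 := hX.bd x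
    have h2 := hX0.bd x
    have h3 := hθ01 x
    have hk := k0_nonneg x
    have h4 : |θ x * X x + (1 - θ x) * X0 x| ≤ (C1 + C0) * k0 x := by
      refine (abs_add_le _ _).trans ?_
      rw [abs_mul, abs_mul, abs_of_nonneg h3.1, abs_of_nonneg (sub_nonneg.2 h3.2)]
      have h5 : θ x * |X x| ≤ 1 * (C1 * k0 x) :=
        mul_le_mul h3.2 h1 (abs_nonneg _) zero_le_one
      have h6 : (1 - θ x) * |X0 x| ≤ 1 * (C0 * k0 x) :=
        mul_le_mul (by linarith) h2 (abs_nonneg _) zero_le_one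
      linarith
    refine h4.trans ?_
    have h5 : 0 ≤ 3 * Cc * ((C1 + C0) * k0 x) := by positivity
    nlinarith
  · have d1 : DifferentiableAt ℝ θ x := hθ1.differentiable one_ne_zero x
    have d2 : DifferentiableAt ℝ X x := hX.c1.differentiable one_ne_zero x
    have d3 : DifferentiableAt ℝ X0 x := hX0.c1.differentiable one_ne_zero x
    have d4 : DifferentiableAt ℝ (fun x => 1 - θ x) x := (differentiableAt_const _).sub d1
    have d5 : DifferentiableAt ℝ (fun x => θ x * X x) x := d1.mul d2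
    have d6 : DifferentiableAt ℝ (fun x => (1 - θ x) * X0 x) x := d4.mul d3
    have h2 : pd (fun x => θ x * X x + (1 - θ x) * X0 x) m a x =
        pd θ m a x * (X x - X0 x) + (θ x * pd X m a x + (1 - θ x) * pd X0 m a x) := by
      rw [pd_add d5 d6, pd_mul d1 d2, pd_mul d4 d3, pd_sub (differentiableAt_const _) d1, pd_const]
      ring
    rw [h2]
    have h3 := hθ01 x
    have hk := k1_nonneg x
    have hk0 := k0_nonneg x
    have e1 : |θ x * pd X m a x + (1 - θ x) * pd X0 m a x| ≤ (C1 + C0) * k1 x := by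
      refine (abs_add_le _ _).trans ?_
      rw [abs_mul, abs_mul, abs_of_nonneg h3.1, abs_of_nonneg (sub_nonneg.2 h3.2)]
      have h5 : θ x * |pd X m a x| ≤ 1 * (C1 * k1 x) :=
        mul_le_mul h3.2 (hX.bd' x m a) (abs_nonneg _) zero_le_one
      have h6 : (1 - θ x) * |pd X0 m a x| ≤ 1 * (C0 * k1 x) :=
        mul_le_mul (by linarith) (hX0.bd' x m a) (abs_nonneg _) zero_le_one
      linarith
    have e2 : |pd θ m a x * (X x - X0 x)| ≤ 3 * Cc * ((C1 + C0) * k1 x) := by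
      by_cases hz : pd θ m a x = 0
      · rw [hz, zero_mul, abs_zero]
        positivity
      · have h4 := hθs m a x hz
        have hr := rad_nonneg x
        have h5 : |X x - X0 x| ≤ (C1 + C0) * k0 x := by
          have := abs_sub (X x) (X0 x)
          have := hX.bd x
          have := hX0.bd x
          linarith
        have h6 : Cc / R ≤ 3 * Cc / (1 + rad x) := by
          rw [div_le_div_iff₀ hR0 (by positivity)]
          nlinarith
        rw [abs_mul]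
        have h7 := mul_le_mul ((hθd m a x).trans h6) h5 (abs_nonneg _) (by positivity)
        refine h7.trans ?_
        have h8 := k0_div_le x
        calc 3 * Cc / (1 + rad x) * ((C1 + C0) * k0 x)
            = 3 * Cc * ((C1 + C0) * (k0 x / (1 + rad x))) := by ring
          _ ≤ _ := by gcongr
    have e3 := abs_add_le (pd θ m a x * (X x - X0 x)) (θ x * pd X m a x + (1 - θ x) * pd X0 m a x)
    linarith

theorem abs_Pf_le {C : ℝ} {ψ : (Fin 3 → R3) → ℝ} (h : PB C ψ) (x : Fin 4 → R3) :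
    |Pf ψ x| ≤ (1 + C) ^ 4 := by
  have hC := PB_nonneg h
  unfold Pf
  rw [Finset.abs_prod]
  have h1 : ∀ l : Fin 4, |1 - ph ψ l x| ≤ 1 + C := by
    intro l
    have h5 := abs_sub (1 : ℝ) (ph ψ l x)
    have h6 := abs_ph_le h l x
    have h7 := mul_le_of_le_one_right hC (inv_le_one' l 4 x).2
    rw [abs_one] at h5
    linarith
  calc ∏ l, |1 - ph ψ l x| ≤ ∏ _l : Fin 4, (1 + C) :=
        Finset.prod_le_prod (fun l _ => abs_nonneg _) fun l _ => h1 l
    _ = _ := by simp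

/-- The product with a test function. -/
theorem XB_Pf_mul (C : ℝ) (hC : 0 ≤ C) {z : (Fin 4 → R3) → ℝ} (hz : TF z) : ∃ C' > 0,
    ∀ ψ : (Fin 3 → R3) → ℝ, PB C ψ → XB C' fun x => Pf ψ x * z x := by
  obtain ⟨Cp, hCp, hP⟩ := XB_prod C
  obtain ⟨C1, hC1, h1⟩ := XB_of_TF hz
  obtain ⟨R, hR⟩ := hz.supp
  obtain ⟨C2, hC2, h2⟩ := dom_aux 5 4 hz.c1.continuous hz.ti hR
  -- the derivative of the product is bounded
  have hk1 : ∀ x, k1 x ≤ 12 := by
    intro x
    unfold k1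
    have := sum_sum_const_le (f := fun l l' => kab 5 4 l l' x) (B := 1) fun l l' _ => by
      unfold kab
      have a1 := inv_le_one' l 5 x
      have a2 := inv_le_one' l' 4 x
      exact mul_le_one₀ a1.2 a2.1.le a2.2
    linarith
  have hd : ∀ ψ : (Fin 3 → R3) → ℝ, PB C ψ → ∀ x m a, |pd (Pf ψ) m a x| ≤ 12 * Cp + 4 * C := by
    intro ψ hψ x m a
    have c1 := (hP ψ hψ).c1
    have c2 := contDiff_Phi4 hψ.c1
    have e : Pf ψ = fun x => ((Pf ψ x - 1 + Phi4 ψ x) - Phi4 ψ x) + 1 := by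
      funext x
      ring
    have d1 : DifferentiableAt ℝ (fun x => Pf ψ x - 1 + Phi4 ψ x) x :=
      c1.differentiable one_ne_zero x
    have d2 : DifferentiableAt ℝ (Phi4 ψ) x := c2.differentiable one_ne_zero x
    have d3 : DifferentiableAt ℝ (fun x => (Pf ψ x - 1 + Phi4 ψ x) - Phi4 ψ x) x := d1.sub d2
    rw [e, pd_add d3 (differentiableAt_const _), pd_sub d1 d2, pd_const, add_zero]
    have e1 := (hP ψ hψ).bd' x m a
    have e2 : |pd (Phi4 ψ) m a x| ≤ 4 * C := by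
      have e3 : pd (Phi4 ψ) m a x = ∑ l, pd (ph ψ l) m a x := by
        unfold Phi4
        exact pd_sum _ _ (fun l _ => (contDiff_ph hψ.c1 l).differentiable one_ne_zero x) m a
      rw [e3]
      refine (Finset.abs_sum_le_sum_abs _ _).trans ?_
      calc ∑ l, |pd (ph ψ l) m a x| ≤ ∑ _l : Fin 4, C := Finset.sum_le_sum fun l _ =>
            (abs_pd_ph_le hψ l m a x).trans (mul_le_of_le_one_right hC (inv_le_one' l 5 x).2)
        _ = 4 * C := by simp
    have e4 := abs_sub (pd (fun x => Pf ψ x - 1 + Phi4 ψ x) m a x) (pd (Phi4 ψ) m a x)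
    have e5 := mul_le_mul_of_nonneg_left (hk1 x) hCp.le
    linarith
  refine ⟨(1 + C) ^ 4 * C1 + (12 * Cp + 4 * C) * C2 + 1, by positivity, fun ψ hψ => ?_⟩
  refine ⟨(contDiff_Pf hψ.c1).mul hz.c1, ?_, fun x => ?_, fun x m a => ?_⟩
  · intro x v
    simp only [TI_Pf hψ.ti x v, hz.ti x v]
  · rw [abs_mul]
    have a1 := mul_le_mul (abs_Pf_le hψ x) (h1.bd x) (abs_nonneg _) (by positivity)
    have a2 := k0_nonneg x
    have a3 : 0 ≤ ((12 * Cp + 4 * C) * C2 + 1) * k0 x := by positivity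
    nlinarith
  · have d1 : DifferentiableAt ℝ (Pf ψ) x := (contDiff_Pf hψ.c1).differentiable one_ne_zero x
    have d2 : DifferentiableAt ℝ z x := hz.c1.differentiable one_ne_zero x
    rw [pd_mul d1 d2]
    have a1 := mul_le_mul (abs_Pf_le hψ x) (h1.bd' x m a) (abs_nonneg _) (by positivity)
    have a2 := mul_le_mul (hd ψ hψ x m a) (h2 x) (abs_nonneg _) (by positivity)
    have a3 := abs_add_le (Pf ψ x * pd z m a x) (pd (Pf ψ) m a x * z x)
    rw [abs_mul, abs_mul] at a3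
    have a4 := k1_nonneg x
    have a5 : (∑ l, ∑ l' ∈ Finset.univ.erase l, kab 5 4 l l' x) = k1 x := rfl
    rw [a5] at a2
    nlinarith

end PrimC2Aux

open FourA2Aux PrimB1Aux PrimB2Aux PrimC2Aux

/-- **The interpolation.** `X₀ = Pf - 1 + Φ`, `θ` the cutoff of radius `R`,
`h4 = 1 + θ ((1 - Φ + X)/Pf - 1)`, so `Pf h4 = 1 - Φ + θ X + (1-θ) X₀`. All the functions
`θ X + (1-θ) X₀` satisfy `XB C'` with one `C'` for all `R ≥ 1` (`|∇θ| ≤ C/R ≤ C'/(1+rad)` on the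
support of `∇θ`, `k0/(1+rad) ≤ k1`), and they agree with `X` for `rad < R`; `dens4_close`. -/
theorem exists_h4 (hV : Pot V) (h : Scat V φ) {η : ℝ} (hη : 0 < η) : ∃ h4 : (Fin 4 → R3) → ℝ,
    ContDiff ℝ 1 h4 ∧ TI h4 ∧ PI h4 ∧ (∃ R > 0, ∀ x, h4 x ≠ 1 → rad x ≤ R) ∧
    (∃ c > 0, ∀ x, c ≤ h4 x) ∧
    rint (dens4 V φ fun x => Pf φ x * h4 x) ≤ b4 V φ + η := by
  obtain ⟨Cφ, hCφ, hPB⟩ := exists_PB h
  obtain ⟨X, hX, hXp, ⟨c, hc, hcX⟩, hval⟩ := exists_trunc hV h (η := η / 2) (by positivity)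
  obtain ⟨c0, hc0, _, hPf, _⟩ := far_pos h
  obtain ⟨C0, hC0, hX0⟩ := XB_prod Cφ
  have hX0 := hX0 φ hPB
  obtain ⟨C1, hC1, hX1⟩ := XB_of_TF hX
  obtain ⟨Cc, hCc, hcut⟩ := exists_cutoff 4
  obtain ⟨C', hC'⟩ : ∃ C', C' = max Cφ ((3 * Cc + 1) * (C1 + C0)) := ⟨_, rfl⟩
  obtain ⟨r1, hr1, hclose⟩ := dens4_close hV C' (η := η / 2) (by positivity)
  have hR : 0 < max (2 * r1) 1 := by positivity
  obtain ⟨θ, hθ2, hθt, hθp, hθ01, hθ1, hθ0, hθd, _, hθs⟩ := hcut (max (2 * r1) 1) hR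
  have hθc : ContDiff ℝ 1 θ := hθ2.of_le (by norm_num)
  have hPfpos : ∀ x, 0 < Pf φ x := fun x => lt_of_lt_of_le hc0 (hPf x).1
  have hPBm : PB C' φ := PB.mono (by rw [hC']; exact le_max_left _ _) hPB
  have hYB : XB C' (fun x => θ x * X x + (1 - θ x) * (Pf φ x - 1 + Phi4 φ x)) :=
    XB.mono (by rw [hC']; exact le_max_right _ _)
      (XB_interp hC0.le hC1.le hCc.le hX1 hX0 (le_max_right _ _) hθ2 hθt hθ01 hθd hθs)
  have hXB : XB C' X := by
    refine XB.mono ?_ hX1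
    rw [hC']
    refine le_trans ?_ (le_max_right _ _)
    nlinarith
  have hcl := (hclose r1 le_rfl φ φ X (fun x => θ x * X x + (1 - θ x) * (Pf φ x - 1 + Phi4 φ x))
    hPBm hPBm hXB hYB (fun _ _ => rfl) (fun x hx => by
      rw [hθ1 x (hx.le.trans (le_max_left _ _))]
      ring)).2.2
  refine ⟨fun x => 1 + θ x * ((1 - Phi4 φ x + X x) / Pf φ x - 1), ?_, ?_, ?_, ?_, ?_, ?_⟩
  · exact contDiff_const.add (hθc.mul (((contDiff_F h.c1 hX.c1).div (contDiff_Pf h.c1)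
      fun x => (hPfpos x).ne').sub contDiff_const))
  · intro x v
    simp only [hθt x v, TI_Phi4 h.ti x v, hX.ti x v, TI_Pf h.ti x v]
  · intro σ x
    simp only [hθp σ x, PI_Phi4 h.pi σ x, hXp σ x, PI_Pf h.pi σ x]
  · refine ⟨2 * max (2 * r1) 1, by positivity, fun x hx => ?_⟩
    by_contra hcon
    push Not at hcon
    apply hx
    simp only [hθ0 x hcon.le, zero_mul, add_zero]
  · refine ⟨min 1 c, lt_min one_pos hc, fun x => ?_⟩
    have h1 := hθ01 x
    have h2 : min 1 c ≤ (1 - Phi4 φ x + X x) / Pf φ x := by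
      refine (min_le_right 1 c).trans ?_
      rw [le_div_iff₀ (hPfpos x)]
      have := hcX x
      have := (hPf x).2
      nlinarith
    have h3 : min 1 c ≤ 1 := min_le_left 1 c
    nlinarith [mul_le_mul_of_nonneg_left h2 h1.1, mul_le_mul_of_nonneg_left h3
      (sub_nonneg.2 h1.2)]
  · have e : (fun x => Pf φ x * (1 + θ x * ((1 - Phi4 φ x + X x) / Pf φ x - 1))) =
        fun x => 1 - Phi4 φ x + (θ x * X x + (1 - θ x) * (Pf φ x - 1 + Phi4 φ x)) := by
      funext x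
      have := (hPfpos x).ne'
      field_simp
      ring
    rw [e]
    have h1 := (abs_le.1 hcl).2
    linarith

/-- **The primal four-body function for the truncated three-body functions.**
`Pf ψ h4 = 1 - Φ_ψ + X_ψ` with `X_ψ = Pf ψ h4 - 1 + Φ_ψ`; `XB C' X_ψ` with one `C'` (`h4 - 1` is a
test function); `dens4_close`. -/
theorem exists_primal (hV : Pot V) (h : Scat V φ) {C : ℝ} (hC : PB C φ) {η : ℝ} (hη : 0 < η) :
    ∃ h4 : (Fin 4 → R3) → ℝ,
    ContDiff ℝ 1 h4 ∧ TI h4 ∧ PI h4 ∧ (∃ R > 0, ∀ x, h4 x ≠ 1 → rad x ≤ R) ∧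
    (∃ c > 0, ∀ x, c ≤ h4 x) ∧
    ∃ r1 > 0, ∀ r ≥ r1, ∀ ψ : (Fin 3 → R3) → ℝ, PB C ψ → (∀ x, rad x ≤ r / 2 → ψ x = φ x) →
      RI (dens4 V ψ fun x => Pf ψ x * h4 x) ∧
      rint (dens4 V ψ fun x => Pf ψ x * h4 x) ≤ b4 V φ + η := by
  obtain ⟨h4, h4c, h4t, h4p, ⟨R, hR, hRs⟩, hpos, hval⟩ := exists_h4 hV h (η := η / 2) (by positivity)
  refine ⟨h4, h4c, h4t, h4p, ⟨R, hR, hRs⟩, hpos, ?_⟩
  have hC0 := PB_nonneg hC
  have hz : TF fun x => h4 x - 1 := by
    refine ⟨h4c.sub contDiff_const, fun x v => ?_, R, fun x hx => hRs x fun hcon => hx ?_⟩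
    · simp only [h4t x v]
    · rw [hcon, sub_self]
  obtain ⟨Ca, hCa, ha⟩ := XB_prod C
  obtain ⟨Cb, hCb, hb⟩ := XB_Pf_mul C hC0 hz
  have hXB : ∀ ψ : (Fin 3 → R3) → ℝ, PB C ψ → XB (Ca + Cb)
      fun x => Pf ψ x * h4 x - 1 + Phi4 ψ x := by
    intro ψ hψ
    have e : (fun x => Pf ψ x * h4 x - 1 + Phi4 ψ x) =
        fun x => (Pf ψ x - 1 + Phi4 ψ x) + Pf ψ x * (h4 x - 1) := by
      funext x
      ring
    have h1 := ha ψ hψ
    have h2 := hb ψ hψ
    rw [e]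
    refine ⟨h1.c1.add h2.c1, fun x v => ?_, fun x => ?_, fun x m a => ?_⟩
    · exact congrArg₂ (· + ·) (h1.ti x v) (h2.ti x v)
    · have e1 := h1.bd x
      have e2 := h2.bd x
      have e3 := abs_add_le (Pf ψ x - 1 + Phi4 ψ x) (Pf ψ x * (h4 x - 1))
      linarith
    · have e1 := h1.bd' x m a
      have e2 := h2.bd' x m a
      rw [pd_add (h1.c1.differentiable one_ne_zero x) (h2.c1.differentiable one_ne_zero x)]
      have e3 := abs_add_le (pd (fun x => Pf ψ x - 1 + Phi4 ψ x) m a x)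
        (pd (fun x => Pf ψ x * (h4 x - 1)) m a x)
      linarith
  obtain ⟨C', hC'⟩ : ∃ C', C' = max C (Ca + Cb) := ⟨_, rfl⟩
  obtain ⟨r1, hr1, hclose⟩ := dens4_close hV C' (η := η / 2) (by positivity)
  refine ⟨8 * r1, by positivity, fun r hr ψ hψ hψφ => ?_⟩
  have hr0 : 0 < r := lt_of_lt_of_le (by positivity) hr
  have m1 : C ≤ C' := by rw [hC']; exact le_max_left _ _
  have m2 : Ca + Cb ≤ C' := by rw [hC']; exact le_max_right _ _
  have hag : ∀ x : Fin 3 → R3, rad x < 2 * (r / 8) → ψ x = φ x := fun x hx =>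
    hψφ x (by linarith)
  obtain ⟨_, hI, hcl⟩ := hclose (r / 8) (by linarith) φ ψ
    (fun x => Pf φ x * h4 x - 1 + Phi4 φ x) (fun x => Pf ψ x * h4 x - 1 + Phi4 ψ x)
    (PB.mono m1 hC) (PB.mono m1 hψ) (XB.mono m2 (hXB φ hC)) (XB.mono m2 (hXB ψ hψ)) hag
    (fun x hx => by
      have e1 : ∀ l, ph ψ l x = ph φ l x := fun l =>
        hag _ (lt_of_le_of_lt (rad_sub4_le l x) hx)
      unfold Pf Phi4
      simp only [e1])
  have e : ∀ χ : (Fin 3 → R3) → ℝ, (fun x => 1 - Phi4 χ x + (Pf χ x * h4 x - 1 + Phi4 χ x)) =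
      fun x => Pf χ x * h4 x := by
    intro χ
    funext x
    ring
  rw [e ψ] at hI hcl
  rw [e φ] at hcl
  refine ⟨hI, ?_⟩
  have h1 := (abs_le.1 hcl).2
  linarith

end Pool.Agent.Lib.MP_5db8e2_mp
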