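import Mathlib

/-!
# Numbers for the upper bound

Elementary estimates used in `upper_bound` (file TrialD2), separated to keep the contexts small.
-/

set_option autoImplicit false

open Filter Topology

namespace Pool.Agent.Lib.MP_5db8e2_mp

theorem choose4_le (N : ℕ) {p Z : ℝ} (hp : 0 < p) :
    (N.choose 4 : ℝ) * p ^ 4 * Z ≤ (N * p) ^ 4 / 24 * Z + |Z| * ((N * p) ^ 3 * p) / 4 := by
  have hN : (0 : ℝ) ≤ N := Nat.cast_nonneg N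
  have h24 : (N.choose 4 : ℝ) * 24 = (N.descFactorial 4 : ℝ) := by
    have := Nat.descFactorial_eq_factorial_mul_choose N 4
    rw [this]
    push_cast
    norm_num [Nat.factorial]
    ring
  have hup : (N.choose 4 : ℝ) * 24 ≤ (N : ℝ) ^ 4 := by
    rw [h24]
    exact_mod_cast Nat.descFactorial_le_pow N 4
  have hlo : (N : ℝ) ^ 4 - 6 * (N : ℝ) ^ 3 ≤ (N.choose 4 : ℝ) * 24 := by
    rw [h24]
    rcases Nat.lt_or_ge N 4 with hN4 | hN4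
    · rw [Nat.descFactorial_eq_zero_iff_lt.2 hN4]
      have : (N : ℝ) ≤ 3 := by exact_mod_cast Nat.lt_succ_iff.1 hN4
      have h3 : 0 ≤ (N : ℝ) ^ 3 := by positivity
      have h5 : (N : ℝ) * (N : ℝ) ^ 3 ≤ 3 * (N : ℝ) ^ 3 := mul_le_mul_of_nonneg_right this h3
      have h6 : (N : ℝ) ^ 4 = (N : ℝ) * (N : ℝ) ^ 3 := by ring
      push_cast
      linarith
    · have e : N.descFactorial 4 = N * (N - 1) * (N - 2) * (N - 3) := by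
        simp [Nat.descFactorial]
        ring
      rw [e]
      push_cast [Nat.cast_sub (show 1 ≤ N by omega), Nat.cast_sub (show 2 ≤ N by omega),
        Nat.cast_sub (show 3 ≤ N by omega)]
      have h4 : (4 : ℝ) ≤ N := by exact_mod_cast hN4
      have h5 : 0 ≤ (N : ℝ) * (11 * (N : ℝ) - 6) := mul_nonneg hN (by linarith)
      have h6 : (N : ℝ) * ((N : ℝ) - 1) * ((N : ℝ) - 2) * ((N : ℝ) - 3) =
          (N : ℝ) ^ 4 - 6 * (N : ℝ) ^ 3 + (N : ℝ) * (11 * (N : ℝ) - 6) := by ring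
      linarith
  have hp4 : 0 < p ^ 4 := by positivity
  rcases le_total 0 Z with hZ | hZ
  · have : (N.choose 4 : ℝ) * p ^ 4 * Z ≤ (N : ℝ) ^ 4 / 24 * p ^ 4 * Z := by
      refine mul_le_mul_of_nonneg_right (mul_le_mul_of_nonneg_right ?_ hp4.le) hZ
      linarith
    have h2 : 0 ≤ |Z| * ((N * p) ^ 3 * p) / 4 := by positivity
    calc (N.choose 4 : ℝ) * p ^ 4 * Z ≤ (N : ℝ) ^ 4 / 24 * p ^ 4 * Z := this
      _ = (N * p) ^ 4 / 24 * Z := by ring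
      _ ≤ _ := by linarith
  · rw [abs_of_nonpos hZ]
    have : (N.choose 4 : ℝ) * p ^ 4 * Z ≤ ((N : ℝ) ^ 4 - 6 * (N : ℝ) ^ 3) / 24 * p ^ 4 * Z := by
      refine mul_le_mul_of_nonpos_right (mul_le_mul_of_nonneg_right ?_ hp4.le) hZ
      linarith
    calc (N.choose 4 : ℝ) * p ^ 4 * Z ≤ ((N : ℝ) ^ 4 - 6 * (N : ℝ) ^ 3) / 24 * p ^ 4 * Z := this
      _ = _ := by ring

theorem choose3_le (N : ℕ) {p a : ℝ} (hp : 0 < p) (ha : 0 ≤ a) :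
    (N.choose 3 : ℝ) * p ^ 3 * a ≤ (N * p) ^ 3 / 6 * a := by
  have h6 : (N.choose 3 : ℝ) * 6 = (N.descFactorial 3 : ℝ) := by
    have := Nat.descFactorial_eq_factorial_mul_choose N 3
    rw [this]
    push_cast
    norm_num [Nat.factorial]
    ring
  have hup : (N.choose 3 : ℝ) * 6 ≤ (N : ℝ) ^ 3 := by
    rw [h6]
    exact_mod_cast Nat.descFactorial_le_pow N 3
  have hp3 : 0 < p ^ 3 := by positivity
  calc (N.choose 3 : ℝ) * p ^ 3 * a ≤ (N : ℝ) ^ 3 / 6 * p ^ 3 * a :=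
        mul_le_mul_of_nonneg_right (mul_le_mul_of_nonneg_right (by linarith) hp3.le) ha
    _ = _ := by ring

/-- The arithmetic of the upper bound at the limit point. -/
theorem ub_arith {b a3 bb ε K3 C' ρ r : ℝ} (hρ : 0 < ρ) (hε : 0 < ε) (hK3 : 0 < K3)
    (hC' : 0 < C') (hr_four : (r ^ 4)⁻¹ = ρ * ρ ^ (3 / 5 : ℝ))
    (hr_sq : ρ * r ^ 2 = ρ ^ (1 / 5 : ℝ)) (hS3 : ρ ^ (3 / 5 : ℝ) < ε / (4 * K3))
    (hS4 : ρ ^ (1 / 5 : ℝ) < ε / (4 * C')) (ha3 : a3 ≤ b + K3 / r ^ 4) :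
    ρ ^ 3 / 6 * a3 + ρ ^ 4 / 24 * (bb + 2 * ε) + C' * (ρ ^ 5 * r ^ 2) <
      b * ρ ^ 3 / 6 + bb * ρ ^ 4 / 24 + ε * ρ ^ 4 := by
  set x : ℝ := ρ ^ (3 / 5 : ℝ) with hx
  set y : ℝ := ρ ^ (1 / 5 : ℝ) with hy
  have hx0 : 0 < x := Real.rpow_pos_of_pos hρ _
  have e1 : K3 / r ^ 4 = K3 * (ρ * x) := by rw [div_eq_mul_inv, hr_four]
  have e2 : ρ ^ 5 * r ^ 2 = ρ ^ 4 * y := by rw [← hr_sq]; ring
  have hρ3 : 0 < ρ ^ 3 := pow_pos hρ 3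
  have hρ4 : 0 < ρ ^ 4 := pow_pos hρ 4
  have b1 : K3 * x < ε / 4 := by
    have := mul_lt_mul_of_pos_left hS3 hK3
    calc K3 * x < K3 * (ε / (4 * K3)) := this
      _ = ε / 4 := by field_simp
  have b2 : C' * y < ε / 4 := by
    have := mul_lt_mul_of_pos_left hS4 hC'
    calc C' * y < C' * (ε / (4 * C')) := this
      _ = ε / 4 := by field_simp
  have h1 : ρ ^ 3 / 6 * a3 ≤ ρ ^ 3 / 6 * (b + K3 * (ρ * x)) := by
    rw [← e1]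
    exact mul_le_mul_of_nonneg_left ha3 (by linarith)
  have h2 : ρ ^ 3 / 6 * (b + K3 * (ρ * x)) = b * ρ ^ 3 / 6 + ρ ^ 4 * (K3 * x) / 6 := by ring
  have h3 : ρ ^ 4 * (K3 * x) ≤ ρ ^ 4 * (ε / 4) := mul_le_mul_of_nonneg_left b1.le hρ4.le
  have h4 : C' * (ρ ^ 5 * r ^ 2) = ρ ^ 4 * (C' * y) := by rw [e2]; ring
  have h5 : ρ ^ 4 * (C' * y) ≤ ρ ^ 4 * (ε / 4) := mul_le_mul_of_nonneg_left b2.le hρ4.le
  have h6 : 0 < ε * ρ ^ 4 := mul_pos hε hρ4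
  have e4 : ρ ^ 4 / 24 * (bb + 2 * ε) = bb * ρ ^ 4 / 24 + ε * ρ ^ 4 / 12 := by ring
  have e5 : ρ ^ 4 * (ε / 4) = ε * ρ ^ 4 / 4 := by ring
  linarith

/-- The choice of the density and of the range `r = ρ^{-2/5}`. -/
theorem ub_rho {C' K3 ε r2 : ℝ} (hC' : 0 < C') (hK3 : 0 < K3) (hε : 0 < ε) (hr2pos : 0 < r2) :
    ∃ ρ0 > (0 : ℝ), ∀ ρ : ℝ, 0 < ρ → ρ < ρ0 → ∃ r : ℝ, r2 ≤ r ∧
      (r ^ 4)⁻¹ = ρ * ρ ^ (3 / 5 : ℝ) ∧ ρ * r ^ 2 = ρ ^ (1 / 5 : ℝ) ∧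
      ρ ^ (3 / 5 : ℝ) < ε / (4 * K3) ∧ ρ ^ (1 / 5 : ℝ) < ε / (4 * C') ∧
      ρ ^ (1 / 5 : ℝ) < C'⁻¹ := by
  have hpow : ∀ {a : ℝ}, 0 < a → ∀ {B : ℝ}, 0 < B →
      ∃ s > (0 : ℝ), ∀ ρ : ℝ, 0 < ρ → ρ < s → ρ ^ a < B := by
    intro a ha B hB
    refine ⟨B ^ (1 / a), Real.rpow_pos_of_pos hB _, fun ρ hρ hρs => ?_⟩
    have : ρ ^ a < (B ^ (1 / a)) ^ a := Real.rpow_lt_rpow hρ.le hρs ha
    rwa [← Real.rpow_mul hB.le, one_div, inv_mul_cancel₀ ha.ne', Real.rpow_one] at this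
  obtain ⟨s1, hs1, hS1⟩ := hpow (a := 2 / 5) (by norm_num) (B := r2⁻¹) (inv_pos.2 hr2pos)
  obtain ⟨s2, hs2, hS2⟩ := hpow (a := 1 / 5) (by norm_num) (B := C'⁻¹) (inv_pos.2 hC')
  obtain ⟨s3, hs3, hS3⟩ := hpow (a := 3 / 5) (by norm_num) (B := ε / (4 * K3)) (by positivity)
  obtain ⟨s4, hs4, hS4⟩ := hpow (a := 1 / 5) (by norm_num) (B := ε / (4 * C')) (by positivity)
  refine ⟨min (min s1 s2) (min s3 s4), lt_min (lt_min hs1 hs2) (lt_min hs3 hs4),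
    fun ρ hρ hρlt => ?_⟩
  have hS1' := hS1 ρ hρ (hρlt.trans_le ((min_le_left _ _).trans (min_le_left _ _)))
  refine ⟨ρ ^ (-(2 / 5) : ℝ), ?_, ?_, ?_,
    hS3 ρ hρ (hρlt.trans_le ((min_le_right _ _).trans (min_le_left _ _))),
    hS4 ρ hρ (hρlt.trans_le ((min_le_right _ _).trans (min_le_right _ _))),
    hS2 ρ hρ (hρlt.trans_le ((min_le_left _ _).trans (min_le_right _ _)))⟩
  · rw [Real.rpow_neg hρ.le, le_inv_comm₀ hr2pos (Real.rpow_pos_of_pos hρ _)]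
    exact hS1'.le
  · rw [← Real.rpow_natCast, ← Real.rpow_mul hρ.le, ← Real.rpow_neg hρ.le]
    nth_rewrite 2 [← Real.rpow_one ρ]
    rw [← Real.rpow_add hρ]
    norm_num
  · rw [← Real.rpow_natCast, ← Real.rpow_mul hρ.le]
    nth_rewrite 1 [← Real.rpow_one ρ]
    rw [← Real.rpow_add hρ]
    norm_num

/-- The limit of a large box, by continuity. -/
theorem ub_lim {a3 Z T C' ρ r L1 : ℝ} (hρ : 0 < ρ) (hr_sq : ρ * r ^ 2 = ρ ^ (1 / 5 : ℝ))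
    (hC' : 0 < C') (hS2 : ρ ^ (1 / 5 : ℝ) < C'⁻¹) (ha30 : 0 ≤ a3)
    (hT : ρ ^ 3 / 6 * a3 + ρ ^ 4 / 24 * Z + C' * (ρ ^ 5 * r ^ 2) < T) :
    ∃ L0 > (0 : ℝ), L1 ≤ L0 ∧ ∃ δ > (0 : ℝ), ∀ L : ℝ, L ≥ L0 → ∀ N : ℕ,
      |(N : ℝ) / L ^ 3 - ρ| ≤ δ →
      0 < L ∧ 4 ≤ N ∧ (N : ℝ) * (L ^ 3)⁻¹ * (C' * r ^ 2) ≤ 1 ∧
      ∀ E : ℝ, E ≤ ((L ^ 3)⁻¹) ^ 3 * Z →
        (N.choose 3 : ℝ) * ((L ^ 3)⁻¹) ^ 3 * a3 + (N.choose 4 : ℝ) * (L ^ 3)⁻¹ * E +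
          C' * ((N * (L ^ 3)⁻¹) ^ 5 * r ^ 2) ≤ T := by
  let G : ℝ × ℝ → ℝ := fun q => q.1 ^ 3 / 6 * a3 + (q.1 ^ 4 / 24 * Z +
    |Z| * (q.1 ^ 3 * q.2) / 4) + C' * (q.1 ^ 5 * r ^ 2)
  have hGc : Continuous G := by fun_prop
  have hG0 : G (ρ, 0) < T := by
    have e3 : G (ρ, 0) = ρ ^ 3 / 6 * a3 + ρ ^ 4 / 24 * Z + C' * (ρ ^ 5 * r ^ 2) := by
      simp only [G]; ring
    rw [e3]
    exact hT
  have hcond0 : ρ * (C' * r ^ 2) < 1 := by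
    have : ρ * (C' * r ^ 2) = C' * ρ ^ (1 / 5 : ℝ) := by rw [← hr_sq]; ring
    rw [this]
    have := mul_lt_mul_of_pos_left hS2 hC'
    calc C' * ρ ^ (1 / 5 : ℝ) < C' * C'⁻¹ := this
      _ = 1 := mul_inv_cancel₀ hC'.ne'
  have hev1 : ∀ᶠ q in 𝓝 ((ρ, 0) : ℝ × ℝ), G q < T := hGc.continuousAt.eventually_lt
    continuousAt_const hG0
  have hev2 : ∀ᶠ q in 𝓝 ((ρ, 0) : ℝ × ℝ), q.1 * (C' * r ^ 2) < 1 :=
    (continuous_fst.mul continuous_const).continuousAt.eventually_lt continuousAt_const hcond0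
  obtain ⟨δ, hδ, hball⟩ := Metric.eventually_nhds_iff.1 (hev1.and hev2)
  have hδ2 : 0 < δ / 2 := by linarith
  have hρ2 : 0 < ρ / 2 := by linarith
  refine ⟨max (max 1 L1) (max (2 / δ) (8 / ρ)),
    lt_of_lt_of_le one_pos ((le_max_left _ _).trans (le_max_left _ _)),
    (le_max_right _ _).trans (le_max_left _ _), min (δ / 2) (ρ / 2), lt_min hδ2 hρ2,
    fun L hL N hN => ?_⟩
  have hL1' : 1 ≤ L := ((le_max_left _ _).trans (le_max_left _ _)).trans hL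
  have hLpos : 0 < L := by linarith
  have hL3 : 0 < L ^ 3 := pow_pos hLpos 3
  have hLL3 : L ≤ L ^ 3 := le_self_pow₀ hL1' (by norm_num)
  have hδL : 2 / δ ≤ L ^ 3 := (((le_max_left _ _).trans (le_max_right _ _)).trans hL).trans hLL3
  have hρL : 8 / ρ ≤ L ^ 3 := (((le_max_right _ _).trans (le_max_right _ _)).trans hL).trans hLL3
  clear hL
  generalize hp : (L ^ 3)⁻¹ = p
  have hppos : 0 < p := by rw [← hp]; exact inv_pos.2 hL3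
  have hpL : L ^ 3 * p = 1 := by rw [← hp]; exact mul_inv_cancel₀ hL3.ne'
  rw [div_eq_mul_inv, hp] at hN
  generalize ht : (N : ℝ) * p = t
  rw [ht] at hN
  have hp_le : p < δ := by
    have h2 : p ≤ δ / 2 := by
      rw [← hp, inv_le_comm₀ hL3 hδ2]
      calc (δ / 2)⁻¹ = 2 / δ := by rw [inv_div]
        _ ≤ L ^ 3 := hδL
    linarith
  have htδ : |t - ρ| < δ := lt_of_le_of_lt (hN.trans (min_le_left _ _)) (by linarith)
  have hdist : dist ((t, p) : ℝ × ℝ) (ρ, 0) < δ := by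
    rw [Prod.dist_eq]
    refine max_lt ?_ ?_
    · rw [Real.dist_eq]; exact htδ
    · rw [Real.dist_eq, sub_zero, abs_of_pos hppos]; exact hp_le
  obtain ⟨hGt, hct⟩ := hball hdist
  have ht_ge : ρ / 2 ≤ t := by
    have := (abs_le.1 (hN.trans (min_le_right _ _))).1
    linarith
  have hN4 : 4 ≤ N := by
    have h2 : (4 : ℝ) ≤ N := by
      have h3 : (N : ℝ) = t * L ^ 3 := by
        rw [← ht, mul_assoc, mul_comm p, hpL, mul_one]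
      rw [h3]
      calc (4 : ℝ) = ρ / 2 * (8 / ρ) := by field_simp; norm_num
        _ ≤ t * L ^ 3 := mul_le_mul ht_ge hρL (by positivity) (by linarith)
    exact_mod_cast h2
  refine ⟨hLpos, hN4, hct.le, fun E hE => ?_⟩
  have hT2 : (N.choose 4 : ℝ) * p * E ≤ t ^ 4 / 24 * Z + |Z| * (t ^ 3 * p) / 4 := by
    calc (N.choose 4 : ℝ) * p * E ≤ (N.choose 4 : ℝ) * p * (p ^ 3 * Z) :=
          mul_le_mul_of_nonneg_left hE (mul_nonneg (Nat.cast_nonneg _) hppos.le)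
      _ = (N.choose 4 : ℝ) * p ^ 4 * Z := by ring
      _ ≤ _ := by rw [← ht]; exact choose4_le N hppos
  have hT1 : (N.choose 3 : ℝ) * p ^ 3 * a3 ≤ t ^ 3 / 6 * a3 := by
    rw [← ht]; exact choose3_le N hppos ha30
  have hfin : (N.choose 3 : ℝ) * p ^ 3 * a3 + (N.choose 4 : ℝ) * p * E +
      C' * (t ^ 5 * r ^ 2) ≤ G (t, p) := by
    simp only [G]
    linarith
  exact hfin.trans hGt.le

end Pool.Agent.Lib.MP_5db8e2_mp
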