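import Pool.Agent.Lib.MP_5db8e2_mp.TrialD1
import Pool.Agent.Lib.MP_5db8e2_mp.TrialNum
import Pool.Agent.Lib.MP_5db8e2_mp.PrimC2

/-!
# The upper bound
-/

set_option autoImplicit false

open MeasureTheory Filter Topology

namespace Pool.Agent.Lib.MP_5db8e2_mp

theorem TD3.mono {c c' K K' r : ℝ} {φ : (Fin 3 → R3) → ℝ} (h : TD3 c K r φ) (hc : c' ≤ c)
    (hK : K ≤ K') : TD3 c' K' r φ where
  c1 := h.c1
  ti := h.ti
  pi := h.pi
  nonneg := h.nonneg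
  le x := (h.le x).trans (by linarith)
  bd x := (h.bd x).trans (div_le_div_of_nonneg_right hK (by have := rad_nonneg x; positivity))
  bd' x m a := (h.bd' x m a).trans
    (div_le_div_of_nonneg_right hK (by have := rad_nonneg x; positivity))
  supp := h.supp

theorem TD4.mono {c c' M K R : ℝ} {h4 : (Fin 4 → R3) → ℝ} (h : TD4 c M K R h4) (hc : c' ≤ c) :
    TD4 c' M K R h4 where
  c1 := h.c1
  ti := h.ti
  pi := h.pi
  ge x := hc.trans (h.ge x)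
  le := h.le
  bd' := h.bd'
  supp := h.supp

theorem TD5.mono {c c' M K R R5 : ℝ} {h5 : (Fin 5 → R3) → ℝ} (h : TD5 c M K R R5 h5)
    (hc : c' ≤ c) : TD5 c' M K R R5 h5 where
  c1 := h.c1
  ti := h.ti
  pi := h.pi
  ge x := hc.trans (h.ge x)
  le := h.le
  bd' := h.bd'
  supp := h.supp
  core := h.core

theorem measurable_dens4 {V : R3 → R3 → ℝ} (hV : Pot V) {ψ : (Fin 3 → R3) → ℝ}
    (h1 : ContDiff ℝ 1 ψ) {F : (Fin 4 → R3) → ℝ} (hF : ContDiff ℝ 1 F) :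
    Measurable (dens4 V ψ F) := by
  obtain ⟨B, hB, R, hR, hV4⟩ := V4_props hV
  unfold dens4
  have hsub : ∀ l : Fin 4, Measurable (sub4 l) := fun l => fa1_measurable_sub4 l
  refine ((continuous_gg hF hF).measurable.add
    ((Finset.measurable_sum _ fun l _ => (hV4 l).1).mul (hF.continuous.measurable.pow_const 2))).sub
    (Finset.measurable_sum _ fun l _ => ?_)
  refine ((continuous_gg h1 h1).measurable.comp (hsub l)).add ((hV4 l).1.mul ?_)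
  exact (measurable_const.sub (h1.continuous.measurable.comp (hsub l))).pow_const 2

theorem TI_dens4 {V : R3 → R3 → ℝ} (hV : Pot V) {ψ : (Fin 3 → R3) → ℝ}
    (ht : TI ψ) {F : (Fin 4 → R3) → ℝ} (hF : TI F) :
    TI (dens4 V ψ F) := by
  obtain ⟨B, hB, R, hR, hV4⟩ := V4_props hV
  intro x v
  have hg : TI (gg ψ ψ) := TI_gg ht ht
  unfold dens4
  have h1 := TI_gg hF hF x v
  have h2 : ∀ l, V4 V l (fun m => x m + v) = V4 V l x := fun l => (hV4 l).2.1 x v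
  have h3 := hF x v
  have h4 : ∀ l, gg ψ ψ (sub4 l fun m => x m + v) = gg ψ ψ (sub4 l x) := fun l =>
    hg (sub4 l x) v
  have h5 : ∀ l, ph ψ l (fun m => x m + v) = ph ψ l x := fun l => TI_ph ht l x v
  simp only [h1, h2, h3, h4, h5]

theorem contDiff_Pf {ψ : (Fin 3 → R3) → ℝ} (h1 : ContDiff ℝ 1 ψ) : ContDiff ℝ 1 (Pf ψ) := by
  unfold Pf
  exact contDiff_prod fun l _ => contDiff_const.sub (contDiff_ph h1 l)

theorem TI_Pf {ψ : (Fin 3 → R3) → ℝ} (ht : TI ψ) : TI (Pf ψ) := by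
  intro x v
  unfold Pf
  exact Finset.prod_congr rfl fun l _ => by rw [TI_ph ht l x v]

/-- **The upper bound.** Given `ε` take `h4` from `exists_primal` (for a common `C`), `h5` from
`exists_td5`, `φ = φr r` from `exists_data3` with `r = ρ^{-2/5}` and `ρ` small; `a3 ≤ b + K r^{-4}`
(`Data3.a_bd`), `r^{-4} = ρ^{8/5}`, `ρ⁵ r² = ρ^{21/5}`; `L³·³ E[dens4] → rint dens4 ≤ b4 + ε'`
(`expect_tendsto`), and `C(N,4) L^{-12} → ρ⁴/24`, `C(N,3) L^{-9} → ρ³/6` as `L → ∞`,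
`N/L³ → ρ`. -/
theorem upper_bound {V : R3 → R3 → ℝ} (hV : Pot V) {φ : (Fin 3 → R3) → ℝ} (h : Scat V φ) {ε : ℝ}
    (hε : 0 < ε) : ∃ ρ0 > (0 : ℝ), ∀ ρ : ℝ, 0 < ρ → ρ < ρ0 → ∃ L0 > (0 : ℝ), ∃ δ > 0, ∀ (L : ℝ), L ≥ L0 → ∀ N : ℕ,
      |(N : ℝ) / L ^ 3 - ρ| ≤ δ →
      gs V N L / L ^ 3 ≤ bM V * ρ ^ 3 / 6 + b4 V φ * ρ ^ 4 / 24 + ε * ρ ^ 4 := by
  obtain ⟨K3, hK3, r0, hr0, hd⟩ := exists_data3 hV h
  obtain ⟨C1, hC1⟩ := h.decay
  obtain ⟨C2, hC2⟩ := h.decay'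
  obtain ⟨c0, hc0, hφ1⟩ := h.lt_one
  set C : ℝ := max K3 (max C1 C2) with hCdef
  have hCpos : 0 < C := lt_of_lt_of_le hK3 (le_max_left _ _)
  have hCK : K3 ≤ C := le_max_left _ _
  have hCC1 : C1 ≤ C := (le_max_left _ _).trans (le_max_right _ _)
  have hCC2 : C2 ≤ C := (le_max_right _ _).trans (le_max_right _ _)
  have hPB : PB C φ := by
    refine ⟨h.c1, h.ti, fun x => ?_, fun x m a => ?_⟩
    · rw [abs_of_nonneg (h.nonneg x)]
      exact (hC1 x).trans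
        (div_le_div_of_nonneg_right hCC1 (by have := rad_nonneg x; positivity))
    · exact (hC2 x m a).trans
        (div_le_div_of_nonneg_right hCC2 (by have := rad_nonneg x; positivity))
  obtain ⟨h4, h41, h4t, h4p, ⟨R, hR, h4R⟩, ⟨c4, hc4, h4c⟩, r1, hr1, hprim⟩ :=
    exists_primal hV h hPB hε
  obtain ⟨M, hM, K4, hK4, hTD4⟩ := exists_td4 h41 h4t h4p h4R h4c
  obtain ⟨c5, hc5, K5, hK5, R5, hR5, h5, hTD5⟩ := exists_td5 hM hR
  set c : ℝ := min (min c0 c4) (min c5 1) with hcdef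
  have hc : 0 < c := lt_min (lt_min hc0 hc4) (lt_min hc5 one_pos)
  have hcc0 : c ≤ c0 := (min_le_left _ _).trans (min_le_left _ _)
  have hcc4 : c ≤ c4 := (min_le_left _ _).trans (min_le_right _ _)
  have hcc5 : c ≤ c5 := (min_le_right _ _).trans (min_le_left _ _)
  have hcc1 : c ≤ 1 := (min_le_right _ _).trans (min_le_right _ _)
  obtain ⟨C', hC', htr⟩ := trial_energy hV hc hcc1 hCpos hM hK4 hR hK5 hR5
    (hTD4.mono hcc4) (hTD5.mono hcc5)
  have hr2pos : 0 < max 1 (max r0 r1) := lt_of_lt_of_le one_pos (le_max_left _ _)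
  obtain ⟨ρ0, hρ0, hrho⟩ := ub_rho (C' := C') (K3 := K3) (ε := ε) hC' hK3 hε hr2pos
  refine ⟨ρ0, hρ0, fun ρ hρ hρlt => ?_⟩
  obtain ⟨r, hr_ge, hr_four, hr_sq, hS3, hS4, hS2⟩ := hrho ρ hρ hρlt
  have hr_one : 1 ≤ r := (le_max_left _ _).trans hr_ge
  have hr_r0 : r0 ≤ r := ((le_max_left _ _).trans (le_max_right _ _)).trans hr_ge
  have hr_r1 : r1 ≤ r := ((le_max_right _ _).trans (le_max_right _ _)).trans hr_ge
  obtain ⟨φr, w, hD3, hφr, hφeq, -, -⟩ := hd r hr_r0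
  have hPBr : PB C φr := by
    refine ⟨hD3.c1, hD3.ti, fun x => ?_, fun x m a => ?_⟩
    · exact (hD3.bd x).trans
        (div_le_div_of_nonneg_right hCK (by have := rad_nonneg x; positivity))
    · exact (hD3.bd' x m a).trans
        (div_le_div_of_nonneg_right hCK (by have := rad_nonneg x; positivity))
  have hTD3 : TD3 c C r φr := by
    refine ⟨hD3.c1, hD3.ti, hD3.pi, fun x => (hφr x).1, fun x => ?_, fun x => ?_, hPBr.bd',
      hD3.supp⟩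
    · exact ((hφr x).2.trans (hφ1 x)).trans (by linarith)
    · have := hPBr.bd x
      rwa [abs_of_nonneg (hφr x).1] at this
  obtain ⟨hRI, hval⟩ := hprim r hr_r1 φr hPBr hφeq
  have hF1 : ContDiff ℝ 1 (fun y => Pf φr y * h4 y) := (contDiff_Pf hD3.c1).mul h41
  have hFt : TI (fun y => Pf φr y * h4 y) := fun x v => by
    change Pf φr _ * h4 _ = _
    rw [TI_Pf hD3.ti x v, h4t x v]
  obtain ⟨L1, hL1, hexp⟩ := expect_tendsto (k := 3) (measurable_dens4 hV hD3.c1 hF1)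
    (TI_dens4 hV hD3.ti hFt) hRI (η := ε) hε
  have ha3' : (rint fun x => gg φr φr x + V3 V x * (1 - φr x) ^ 2) ≤ bM V + K3 / r ^ 4 :=
    hD3.a_bd
  have ha30 : 0 ≤ rint fun x => gg φr φr x + V3 V x * (1 - φr x) ^ 2 := by
    obtain ⟨-, hV0, -⟩ := V3_props hV
    exact rint_nonneg fun x => add_nonneg (gg_self_nonneg x) (mul_nonneg (hV0 x) (sq_nonneg _))
  obtain ⟨L0, hL0, hLL, δ, hδ, hlim⟩ := ub_lim (L1 := L1) hρ hr_sq hC' hS2 ha30
    (ub_arith (bb := b4 V φ) hρ hε hK3 hC' hr_four hr_sq hS3 hS4 ha3')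
  refine ⟨L0, hL0, δ, hδ, fun L hL N hN => ?_⟩
  obtain ⟨hLpos, hN4, hct, hfin⟩ := hlim L hL N hN
  have key := htr r φr hr_one hTD3 L hLpos N hN4 hct
  refine key.trans (hfin _ ?_)
  have h1 := hexp L (hLL.trans hL) 4 id Function.injective_id
  have h2 := (abs_le.1 h1).2
  simp only [Function.comp_id] at h2
  have hp3 : 0 ≤ ((L ^ 3)⁻¹) ^ 3 := by positivity
  have h3 := mul_le_mul_of_nonneg_left hval hp3
  have h5 : ((L ^ 3)⁻¹) ^ 3 * (b4 V φ + 2 * ε) =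
      ((L ^ 3)⁻¹) ^ 3 * (b4 V φ + ε) + ((L ^ 3)⁻¹) ^ 3 * ε := by ring
  rw [h5]
  linarith

end Pool.Agent.Lib.MP_5db8e2_mp
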