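import Pool.Agent.Lib.MP_5db8e2_mp.FinalA
import Pool.Agent.Lib.MP_5db8e2_mp.TrialD2

/-!
# The main theorem
-/

set_option autoImplicit false

open MeasureTheory Filter Topology

namespace Pool.Agent.Lib.MP_5db8e2_mp

/-- The lower bound (statement). -/
def LBStmt (V : R3 → R3 → ℝ) (φ : (Fin 3 → R3) → ℝ) : Prop :=
  ∀ ε > (0 : ℝ), ∃ ρ0 > (0 : ℝ), ∀ ρ : ℝ, 0 < ρ → ρ < ρ0 → ∃ L0 > (0 : ℝ), ∃ δ > (0 : ℝ),
    ∀ L : ℝ, L ≥ L0 → ∀ N : ℕ, |(N : ℝ) / L ^ 3 - ρ| ≤ δ → ∀ Ψ : (Fin N → R3) → ℝ,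
      ContDiff ℝ 1 Ψ →
      L ^ 3 * (bM V * ρ ^ 3 / 6 + b4 V φ * ρ ^ 4 / 24 - ε * ρ ^ 4) * ∫ x in box L N, Ψ x ^ 2 ≤
        energy V L Ψ

/-- The product form of the main theorem for one potential. -/
def ProdForm (V : R3 → R3 → ℝ) (C : ℝ) : Prop :=
  ∀ ε > (0 : ℝ), ∃ ρ0 > (0 : ℝ), ∀ ρ : ℝ, 0 < ρ → ρ < ρ0 →
    ∀ (N : ℕ → ℕ) (L : ℕ → ℝ), (∀ k, 0 < L k) → Tendsto N atTop atTop →
      Tendsto (fun k => (N k : ℝ) / L k ^ 3) atTop (𝓝 ρ) →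
      ∀ᶠ k in atTop, |gs V (N k) (L k) / L k ^ 3 - 1 / 6 * ρ ^ 3 * bM V * (1 + C * ρ)| ≤
        ε * (bM V * ρ ^ 4)

/-- The boxes grow. -/
theorem tendsto_L {N : ℕ → ℕ} {L : ℕ → ℝ} {ρ : ℝ} (hρ : 0 < ρ) (hL : ∀ k, 0 < L k)
    (hN : Tendsto N atTop atTop)
    (h : Tendsto (fun k => (N k : ℝ) / L k ^ 3) atTop (𝓝 ρ)) : Tendsto L atTop atTop := by
  have hNr : Tendsto (fun k => (N k : ℝ)) atTop atTop := tendsto_natCast_atTop_atTop.comp hN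
  rw [tendsto_atTop]
  intro b
  have h1 : ∀ᶠ k in atTop, (N k : ℝ) / L k ^ 3 < ρ + 1 := (tendsto_order.1 h).2 _ (by linarith)
  have h2 : ∀ᶠ k in atTop, (ρ + 1) * |b| ^ 3 ≤ (N k : ℝ) := (tendsto_atTop.1 hNr) _
  filter_upwards [h1, h2] with k hk1 hk2
  have hL3 : 0 < L k ^ 3 := pow_pos (hL k) 3
  have h3 : (N k : ℝ) < (ρ + 1) * L k ^ 3 := (div_lt_iff₀ hL3).1 hk1
  have h4 : |b| ^ 3 < L k ^ 3 := by
    have : (ρ + 1) * |b| ^ 3 < (ρ + 1) * L k ^ 3 := lt_of_le_of_lt hk2 h3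
    exact lt_of_mul_lt_mul_left this (by linarith)
  have h5 : |b| < L k := lt_of_pow_lt_pow_left₀ 3 (hL k).le h4
  exact (le_abs_self b).trans h5.le

/-- `C = b4/(4 b)`. Case `b > 0`: apply `upper_bound` and `LBStmt` (with `gs_ge`) with `ε b`;
`L k → ∞` because `N k → ∞` and `N k / L k³` converges. Case `b = 0`: `gs_eq_zero`, `C = 0`. -/
theorem prodForm {V : R3 → R3 → ℝ} (hV : Pot V) {φ : (Fin 3 → R3) → ℝ} (h : Scat V φ)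
    (hLB : 0 < bM V → LBStmt V φ) : ∃ C, ProdForm V C := by
  rcases (bM_nonneg hV).eq_or_lt with hb | hb
  · refine ⟨0, fun ε _ => ⟨1, one_pos, fun ρ _ _ N L hL _ _ => Eventually.of_forall fun k => ?_⟩⟩
    rw [gs_eq_zero hV hb.symm (hL k), ← hb]
    simp
  · refine ⟨b4 V φ / (4 * bM V), fun ε hε => ?_⟩
    have hεb : 0 < ε * bM V := mul_pos hε hb
    obtain ⟨ρ1, hρ1, hU⟩ := upper_bound hV h hεb
    obtain ⟨ρ2, hρ2, hD⟩ := hLB hb (ε * bM V) hεb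
    refine ⟨min ρ1 ρ2, lt_min hρ1 hρ2, fun ρ hρ hρlt N L hL hN hNL => ?_⟩
    obtain ⟨L1, hL1, δ1, hδ1, hU⟩ := hU ρ hρ (lt_of_lt_of_le hρlt (min_le_left _ _))
    obtain ⟨L2, hL2, δ2, hδ2, hD⟩ := hD ρ hρ (lt_of_lt_of_le hρlt (min_le_right _ _))
    have hLt := tendsto_L hρ hL hN hNL
    have e1 : ∀ᶠ k in atTop, |(N k : ℝ) / L k ^ 3 - ρ| < min δ1 δ2 := by
      have := (Metric.tendsto_nhds.1 hNL) (min δ1 δ2) (lt_min hδ1 hδ2)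
      simpa [Real.dist_eq] using this
    have e2 : ∀ᶠ k in atTop, max L1 L2 ≤ L k := (tendsto_atTop.1 hLt) _
    filter_upwards [e1, e2] with k hk1 hk2
    have hL3 : 0 < L k ^ 3 := pow_pos (hL k) 3
    have up := hU (L k) ((le_max_left _ _).trans hk2) (N k) (hk1.le.trans (min_le_left _ _))
    have lo := gs_ge hV (N := N k) (hL k)
      (E := L k ^ 3 * (bM V * ρ ^ 3 / 6 + b4 V φ * ρ ^ 4 / 24 - ε * bM V * ρ ^ 4))
      (fun Ψ hΨ => hD (L k) ((le_max_right _ _).trans hk2) (N k)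
        (hk1.le.trans (min_le_right _ _)) Ψ hΨ)
    have lo' : bM V * ρ ^ 3 / 6 + b4 V φ * ρ ^ 4 / 24 - ε * bM V * ρ ^ 4 ≤
        gs V (N k) (L k) / L k ^ 3 := by
      rw [le_div_iff₀ hL3]
      linarith
    have key : 1 / 6 * ρ ^ 3 * bM V * (1 + b4 V φ / (4 * bM V) * ρ) =
        bM V * ρ ^ 3 / 6 + b4 V φ * ρ ^ 4 / 24 := by
      field_simp
      ring
    rw [key, abs_le]
    constructor <;> nlinarith [up, lo']

/-- The quotient form: if `e ρ` is the thermodynamic limit for every `ρ > 0` (take the sequences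
`N k = k`, `L k = (k/ρ)^{1/3}` for `k ≥ 1`), then
`|6 e(ρ)/(ρ³ b) - 1 - C ρ| ≤ 6 ε ρ` for small `ρ`. -/
theorem quotForm {V : R3 → R3 → ℝ} {C : ℝ} (hb : 0 < bM V) (h : ProdForm V C) (e : ℝ → ℝ)
    (he : ∀ᶠ ρ in 𝓝[>] 0, IsTL V ρ (e ρ)) :
    Tendsto (fun ρ => ρ⁻¹ * (6 * e ρ / (ρ ^ 3 * bM V) - 1)) (𝓝[>] 0) (𝓝 C) := by
  rw [Metric.tendsto_nhds]
  intro ε hε
  obtain ⟨ρ0, hρ0, hP⟩ := h (ε / 12) (by positivity)
  have h1 : ∀ᶠ ρ in 𝓝[>] (0 : ℝ), ρ < ρ0 :=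
    nhdsWithin_le_nhds (Iio_mem_nhds hρ0)
  have h2 : ∀ᶠ ρ in 𝓝[>] (0 : ℝ), 0 < ρ := self_mem_nhdsWithin
  filter_upwards [he, h1, h2] with ρ hTL hlt hpos
  -- a sequence
  let N : ℕ → ℕ := fun k => k + 1
  let L : ℕ → ℝ := fun k => (((k : ℝ) + 1) / ρ) ^ (1 / 3 : ℝ)
  have hL : ∀ k, 0 < L k := fun k => Real.rpow_pos_of_pos (by positivity) _
  have hL3 : ∀ k, L k ^ 3 = ((k : ℝ) + 1) / ρ := fun k => by
    have h0 : (0 : ℝ) ≤ ((k : ℝ) + 1) / ρ := by positivity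
    change ((((k : ℝ) + 1) / ρ) ^ (1 / 3 : ℝ)) ^ 3 = _
    rw [← Real.rpow_natCast, ← Real.rpow_mul h0]
    norm_num
  have hN : Tendsto N atTop atTop := tendsto_add_atTop_nat 1
  have hNL : Tendsto (fun k => (N k : ℝ) / L k ^ 3) atTop (𝓝 ρ) := by
    have : (fun k => (N k : ℝ) / L k ^ 3) = fun _ => ρ := by
      funext k
      rw [hL3 k]
      have : ((k : ℝ) + 1) ≠ 0 := by positivity
      simp only [N]
      push_cast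
      field_simp
    rw [this]
    exact tendsto_const_nhds
  have ht := hTL N L hL hN hNL
  have hev := hP ρ hpos hlt N L hL hN hNL
  have hlim : |e ρ - 1 / 6 * ρ ^ 3 * bM V * (1 + C * ρ)| ≤ ε / 12 * (bM V * ρ ^ 4) := by
    refine le_of_tendsto ((ht.sub_const _).abs) ?_
    exact hev
  have hb4 : 0 < bM V * ρ ^ 4 := by positivity
  rw [Real.dist_eq]
  have key : ρ⁻¹ * (6 * e ρ / (ρ ^ 3 * bM V) - 1) - C =
      6 / (bM V * ρ ^ 4) * (e ρ - 1 / 6 * ρ ^ 3 * bM V * (1 + C * ρ)) := by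
    field_simp
    ring
  rw [key, abs_mul, abs_of_pos (by positivity)]
  calc 6 / (bM V * ρ ^ 4) * |e ρ - 1 / 6 * ρ ^ 3 * bM V * (1 + C * ρ)|
      ≤ 6 / (bM V * ρ ^ 4) * (ε / 12 * (bM V * ρ ^ 4)) :=
        mul_le_mul_of_nonneg_left hlim (by positivity)
    _ = ε / 2 := by field_simp; norm_num
    _ < ε := by linarith

end Pool.Agent.Lib.MP_5db8e2_mp
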