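import Pool.Agent.Lib.MP_5db8e2_mp.RintB

/-!
# Integrals of radial functions
-/

set_option autoImplicit false

open MeasureTheory Filter Topology

namespace Pool.Agent.Lib.MP_5db8e2_mp

variable {k : ℕ}

/-! ### Integrals of radial functions -/

namespace RintDaux

theorem finrank_cfg (k : ℕ) : Module.finrank ℝ (Fin k → R3) = 3 * k := by
  rw [Module.finrank_pi_fintype]
  simp [mul_comm]

theorem continuous_rad_cons :
    Continuous fun y : Fin k → R3 => rad (Fin.cons 0 y : Fin (k + 1) → R3) :=
  continuous_rad.comp continuous_cons0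

theorem rad_cons_zero : rad (Fin.cons 0 (0 : Fin k → R3) : Fin (k + 1) → R3) = 0 := by
  have h := rad_cons_le (0 : Fin k → R3)
  rw [norm_zero, mul_zero] at h
  exact le_antisymm h (rad_nonneg _)

theorem measurable_rad : Measurable (rad : (Fin k → R3) → ℝ) := continuous_rad.measurable

end RintDaux

open RintDaux

/-- `(1 + rad)^{-p}` is relatively integrable for `p > 3k`. (Mathlib: `integrable_one_add_norm`;
`rad (0,y) ≥ ‖y‖/2`.) -/
theorem RI_one_add_rad {p : ℝ} (hp : 3 * k < p) :
    RI fun x : Fin (k + 1) → R3 => (1 + rad x) ^ (-p) := by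
  have hp0 : 0 < p := lt_of_le_of_lt (by positivity) hp
  have h1 : Integrable (fun y : Fin k → R3 => (1 + ‖y‖) ^ (-p)) := by
    apply integrable_one_add_norm
    rw [finrank_cfg]
    push_cast
    exact hp
  have h2 : Integrable (fun y : Fin k → R3 => (2 : ℝ) ^ p * (1 + ‖y‖) ^ (-p)) :=
    h1.const_mul _
  unfold RI
  refine h2.mono' ?_ ?_
  · apply Measurable.aestronglyMeasurable
    exact (measurable_const.add continuous_rad_cons.measurable).pow_const _
  · refine Eventually.of_forall fun y => ?_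
    have hr := rad_nonneg (Fin.cons 0 y : Fin (k + 1) → R3)
    have hn := norm_le_rad_cons y
    have hy := norm_nonneg y
    rw [Real.norm_eq_abs, abs_of_nonneg (by positivity)]
    beta_reduce
    rw [Real.rpow_neg (by positivity), Real.rpow_neg (by positivity), ← div_eq_mul_inv,
      ← Real.inv_rpow (by positivity), ← Real.div_rpow (by norm_num) (by positivity)]
    apply Real.rpow_le_rpow (by positivity) _ hp0.le
    rw [inv_eq_one_div, div_le_div_iff₀ (by positivity) (by positivity)]
    linarith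

/-- `rad^{-p}` is locally integrable for `p < 3k`: there is a `C` with
`rint (1_{rad ≤ R} rad^{-p}) ≤ C R^{3k-p}` for all `R > 0`.
(`MeasureTheory.integrable_fun_norm_addHaar` for the integrability and `rint_smul` for the
scaling.) -/
theorem RI_rad_inv (hk : 0 < k) {p : ℕ} (hp : p < 3 * k) (R : ℝ) :
    RI fun x : Fin (k + 1) → R3 => if rad x ≤ R then (rad x ^ p)⁻¹ else 0 := by
  have : Nonempty (Fin k) := ⟨⟨0, hk⟩⟩
  have h1 : Integrable (fun y : Fin k → R3 =>
      (fun r : ℝ => if r ≤ 2 * R then (r ^ p)⁻¹ else 0) ‖y‖) := by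
    rw [MeasureTheory.integrable_fun_norm_addHaar volume
      (f := fun r : ℝ => if r ≤ 2 * R then (r ^ p)⁻¹ else 0), finrank_cfg]
    have hb : IntegrableOn (fun r : ℝ => r ^ (3 * k - 1 - p)) (Set.Ioc 0 (2 * R)) := by
      apply Continuous.integrableOn_Ioc
      fun_prop
    have hs : (fun r : ℝ => r ^ (3 * k - 1) • (if r ≤ 2 * R then (r ^ p)⁻¹ else (0 : ℝ))) =ᵐ[
        volume.restrict (Set.Ioi 0)]
        (Set.Ioc 0 (2 * R)).indicator (fun r : ℝ => r ^ (3 * k - 1 - p)) := by
      filter_upwards [ae_restrict_mem measurableSet_Ioi] with r hr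
      have hr' : (0 : ℝ) < r := hr
      by_cases h : r ≤ 2 * R
      · rw [Set.indicator_of_mem (show r ∈ Set.Ioc 0 (2 * R) from ⟨hr', h⟩), if_pos h, smul_eq_mul,
          ← div_eq_mul_inv, div_eq_iff (pow_ne_zero _ hr'.ne'), ← pow_add]
        congr 1
        omega
      · rw [Set.indicator_of_notMem (fun hh => h hh.2), if_neg h, smul_zero]
    rw [IntegrableOn, integrable_congr hs, integrable_indicator_iff measurableSet_Ioc]
    exact hb.mono_measure Measure.restrict_le_self |>.mono_set le_rfl
  have h2 := h1.const_mul ((2 : ℝ) ^ p)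
  unfold RI
  refine h2.mono' ?_ ?_
  · apply Measurable.aestronglyMeasurable
    apply Measurable.ite
    · exact measurableSet_le continuous_rad_cons.measurable measurable_const
    · exact (continuous_rad_cons.measurable.pow_const _).inv
    · exact measurable_const
  · refine Eventually.of_forall fun y => ?_
    have hr := rad_nonneg (Fin.cons 0 y : Fin (k + 1) → R3)
    have hn := norm_le_rad_cons y
    have hy := norm_nonneg y
    by_cases h : rad (Fin.cons 0 y : Fin (k + 1) → R3) ≤ R
    · have h' : ‖y‖ ≤ 2 * R := by linarith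
      simp only [if_pos h, if_pos h']
      rw [Real.norm_eq_abs, abs_of_nonneg (by positivity)]
      rcases hy.eq_or_lt with h0 | h0
      · have hy0 : y = 0 := norm_eq_zero.mp h0.symm
        subst hy0
        rw [rad_cons_zero, norm_zero]
        have : (0 : ℝ) ≤ ((0 : ℝ) ^ p)⁻¹ := by positivity
        exact le_mul_of_one_le_left this (one_le_pow₀ (by norm_num))
      · have hr0 : 0 < rad (Fin.cons 0 y : Fin (k + 1) → R3) := by linarith
        rw [← div_eq_mul_inv, inv_eq_one_div, div_le_div_iff₀ (by positivity) (by positivity),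
          one_mul, ← mul_pow]
        exact pow_le_pow_left₀ hy hn p
    · simp only [if_neg h, norm_zero]
      split_ifs <;> positivity

namespace RintDaux

theorem rint_scaled (p : ℕ) {R : ℝ} (hR : 0 < R) :
    (rint fun x : Fin (k + 1) → R3 => if rad x ≤ R then (rad x ^ p)⁻¹ else 0) =
      R ^ (3 * k) * (R ^ p)⁻¹ *
        rint fun x : Fin (k + 1) → R3 => if rad x ≤ 1 then (rad x ^ p)⁻¹ else 0 := by
  have h := rint_smul (k := k) (fun x : Fin (k + 1) → R3 =>
    if rad x ≤ 1 then (rad x ^ p)⁻¹ else 0) (c := R⁻¹) (by positivity)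
  have h2 : (fun x : Fin (k + 1) → R3 => if rad x ≤ R then (rad x ^ p)⁻¹ else 0) =
      fun x : Fin (k + 1) → R3 => (R ^ p)⁻¹ *
        (if rad (R⁻¹ • x) ≤ 1 then (rad (R⁻¹ • x) ^ p)⁻¹ else 0) := by
    funext x
    have hx : rad (R⁻¹ • x) = R⁻¹ * rad x := by
      rw [rad_smul, abs_of_pos (by positivity)]
    rw [hx]
    have hiff : R⁻¹ * rad x ≤ 1 ↔ rad x ≤ R := by
      rw [inv_mul_le_iff₀ hR, mul_one]
    by_cases hc : rad x ≤ R
    · rw [if_pos hc, if_pos (hiff.mpr hc), mul_pow, mul_inv, inv_pow, inv_inv, ← mul_assoc,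
        inv_mul_cancel₀ (pow_ne_zero _ hR.ne'), one_mul]
    · rw [if_neg hc, if_neg (fun hh => hc (hiff.mp hh)), mul_zero]
  rw [h2, rint_const_mul, h, inv_pow, inv_inv]
  ring

theorem rint_unit_nonneg (p : ℕ) :
    0 ≤ rint fun x : Fin (k + 1) → R3 => if rad x ≤ 1 then (rad x ^ p)⁻¹ else 0 := by
  apply rint_nonneg
  intro x
  have := rad_nonneg x
  split_ifs <;> positivity

end RintDaux

theorem rint_rad_inv_le (hk : 0 < k) {p : ℕ} (hp : p < 3 * k) : ∃ C > 0, ∀ R > 0,
    (rint fun x : Fin (k + 1) → R3 => if rad x ≤ R then (rad x ^ p)⁻¹ else 0) ≤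
      C * R ^ (3 * k - p) := by
  refine ⟨(rint fun x : Fin (k + 1) → R3 => if rad x ≤ 1 then (rad x ^ p)⁻¹ else 0) + 1,
    by linarith [rint_unit_nonneg (k := k) p], fun R hR => ?_⟩
  rw [rint_scaled p hR]
  have h1 : R ^ (3 * k) * (R ^ p)⁻¹ = R ^ (3 * k - p) := by
    rw [← div_eq_mul_inv, div_eq_iff (pow_ne_zero _ hR.ne'), ← pow_add]
    congr 1
    omega
  rw [h1, mul_comm]
  exact mul_le_mul_of_nonneg_right (by linarith) (by positivity)

/-- Volume of the balls. -/
theorem rint_ball_le : ∃ C > 0, ∀ R > 0,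
    (rint fun x : Fin (k + 1) → R3 => if rad x ≤ R then (1 : ℝ) else 0) ≤ C * R ^ (3 * k) := by
  refine ⟨(rint fun x : Fin (k + 1) → R3 => if rad x ≤ 1 then (rad x ^ 0)⁻¹ else 0) + 1,
    by linarith [rint_unit_nonneg (k := k) 0], fun R hR => ?_⟩
  have h := rint_scaled (k := k) 0 hR
  simp only [pow_zero, inv_one, mul_one] at h ⊢
  rw [h, mul_comm]
  exact mul_le_mul_of_nonneg_right (by linarith) (by positivity)

theorem RI_ball (R : ℝ) : RI fun x : Fin (k + 1) → R3 => if rad x ≤ R then (1 : ℝ) else 0 := by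
  refine RI_of_bdd (B := 1) (R := R) ?_ ?_ ?_
  · exact Measurable.ite (measurableSet_le measurable_rad measurable_const) measurable_const
      measurable_const
  · intro x
    split_ifs <;> simp
  · intro x hx
    by_contra h
    exact hx (if_neg h)

end Pool.Agent.Lib.MP_5db8e2_mp
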