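import Pool.Agent.Lib.MP_5db8e2_mp.GeoD
import Pool.Agent.Lib.MP_5db8e2_mp.RintD

/-!
# Four-body kernels: potentials and slab integrals
-/

set_option autoImplicit false

open MeasureTheory Filter Topology

namespace Pool.Agent.Lib.MP_5db8e2_mp

variable {V : R3 → R3 → ℝ} {φ : (Fin 3 → R3) → ℝ}

theorem fa1_continuous_sub4 (l : Fin 4) : Continuous (sub4 l) := by
  unfold sub4
  fun_prop

theorem fa1_measurable_sub4 (l : Fin 4) : Measurable (sub4 l) := (fa1_continuous_sub4 l).measurable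

/-- Properties of the potentials of the sub-clusters. -/
theorem V4_props (hV : Pot V) : ∃ B > 0, ∃ R > 0, ∀ l, Measurable (V4 V l) ∧ TI (V4 V l) ∧
    (∀ x, 0 ≤ V4 V l x ∧ V4 V l x ≤ B) ∧ ∀ x, V4 V l x ≠ 0 → rad (sub4 l x) ≤ R := by
  obtain ⟨C, hC⟩ := hV.bdd
  obtain ⟨R0, hR0⟩ := hV.supp
  refine ⟨|C| + 1, by positivity, 3 * 3 * (2 * |R0|) + 1, by positivity, fun l => ⟨?_, ?_, ?_, ?_⟩⟩
  · have h1 : Measurable fun x : Fin 4 → R3 => (sub4 l x 0 - sub4 l x 1, sub4 l x 0 - sub4 l x 2) := by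
      unfold sub4
      fun_prop
    exact hV.meas.comp h1
  · intro x v
    unfold V4 V3 sub4
    simp only [add_sub_add_right_eq_sub]
  · intro x
    exact ⟨hV.nonneg _ _, (hC _ _).trans ((le_abs_self C).trans (by linarith))⟩
  · intro x hx
    obtain ⟨h1, h2⟩ := hR0 _ _ hx
    have h0 : R0 ≤ |R0| := le_abs_self _
    have ha := abs_nonneg R0
    have h12 : ‖sub4 l x 1 - sub4 l x 2‖ ≤ 2 * |R0| := by
      have e : sub4 l x 1 - sub4 l x 2 = (sub4 l x 0 - sub4 l x 2) - (sub4 l x 0 - sub4 l x 1) := by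
        abel
      rw [e]
      refine (norm_sub_le _ _).trans ?_
      linarith
    have key : rad (sub4 l x) ≤ 3 * (3 : ℕ) * (2 * |R0|) := by
      refine rad_le_of_norm_sub_le (by positivity) ?_
      intro m m'
      fin_cases m <;> fin_cases m' <;> simp only [Fin.zero_eta, Fin.mk_one, Fin.reduceFinMk, Fin.isValue]
      · simp
      · linarith
      · linarith
      · rw [norm_sub_rev]; linarith
      · simp
      · exact h12
      · rw [norm_sub_rev]; linarith
      · rw [norm_sub_rev]; exact h12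
      · simp
    push_cast at key
    linarith

theorem TI_s0 (h : TI φ) (l : Fin 4) : TI (s0 φ l) := by
  intro x v
  unfold s0
  exact Finset.sum_congr rfl fun l' _ => TI_ph h l' x v

theorem measurable_s0 (h : Measurable φ) (l : Fin 4) : Measurable (s0 φ l) := by
  unfold s0 ph
  exact Finset.measurable_sum _ fun l' _ => h.comp (fa1_measurable_sub4 l')

/-- The permutation which moves the last place to `l`. -/
def fa1Perm (l : Fin 4) : Equiv.Perm (Fin 4) :=
  (finSuccEquiv' (Fin.last 3)).trans (finSuccEquiv' l).symm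

theorem fa1Perm_last (l : Fin 4) : fa1Perm l (Fin.last 3) = l := by
  simp [fa1Perm]

theorem fa1Perm_succAbove (l : Fin 4) (m : Fin 3) :
    fa1Perm l ((Fin.last 3).succAbove m) = l.succAbove m := by
  unfold fa1Perm
  rw [Equiv.trans_apply, finSuccEquiv'_succAbove, finSuccEquiv'_symm_some]

theorem fa1_slab_last {G : (Fin 3 → R3) → ℝ} {H : R3 → ℝ} (hGI : RI G) (hHI : Integrable H) :
    RI (fun x : Fin 4 → R3 => G (sub4 (Fin.last 3) x) *
        H (x (Fin.last 3) - x ((Fin.last 3).succAbove 0))) ∧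
      rint (fun x : Fin 4 → R3 => G (sub4 (Fin.last 3) x) *
        H (x (Fin.last 3) - x ((Fin.last 3).succAbove 0))) = rint G * ∫ t, H t := by
  have hmp := MeasureTheory.volume_preserving_piFinSuccAbove (fun _ : Fin 3 => R3) (Fin.last 2)
  have e : (fun y : Fin 3 → R3 => G (sub4 (Fin.last 3) (Fin.cons 0 y)) *
        H ((Fin.cons 0 y : Fin 4 → R3) (Fin.last 3) - (Fin.cons 0 y : Fin 4 → R3) ((Fin.last 3).succAbove 0)))
      = (fun q : R3 × (Fin 2 → R3) => H q.1 * G (Fin.cons 0 q.2)) ∘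
        (MeasurableEquiv.piFinSuccAbove (fun _ : Fin 3 => R3) (Fin.last 2)) := by
    funext y
    have e1 : (Fin.cons 0 y : Fin 4 → R3) (Fin.last 3) = y (Fin.last 2) := rfl
    have e2 : (Fin.cons 0 y : Fin 4 → R3) ((Fin.last 3).succAbove 0) = 0 := rfl
    have e3 : sub4 (Fin.last 3) (Fin.cons 0 y) =
        Fin.cons 0 (fun j => y ((Fin.last 2).succAbove j)) := by
      funext m
      refine Fin.cases ?_ (fun j => ?_) m
      · rfl
      · unfold sub4
        fin_cases j <;> rfl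
    rw [e1, e2, e3, sub_zero, mul_comm]
    rfl
  constructor
  · unfold RI
    rw [e]
    rw [hmp.integrable_comp_emb (MeasurableEquiv.measurableEmbedding _)]
    exact Integrable.mul_prod hHI hGI
  · unfold rint
    rw [e]
    have h1 := hmp.integral_comp (MeasurableEquiv.measurableEmbedding _)
      (fun q : R3 × (Fin 2 → R3) => H q.1 * G (Fin.cons 0 q.2))
    refine Eq.trans h1 ?_
    have h2 := MeasureTheory.integral_prod_mul (μ := (volume : Measure R3))
      (ν := (volume : Measure (Fin 2 → R3))) H (fun y => G (Fin.cons 0 y))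
    rw [mul_comm]
    exact h2

/-- Reduction of a relative integral of four particles to the one where the particle `l` is the
last one: `rint_perm` with the permutation which moves `l` to the place `3`. In coordinates:
`F` invariant, `F x = G (sub4 l x) (x l - x (l.succAbove 0))`. Then
`rint F = ∫ y : Fin 2 → R3, ∫ t : R3, G (0,y) t`, in the form of an upper bound (or an equality)
for nonnegative measurable `G` which is translation invariant in the first argument. -/
theorem rint_slab_le (l : Fin 4) {G : (Fin 3 → R3) → ℝ} {H : R3 → ℝ} (hG : Measurable G)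
    (hGt : TI G) (hH : Measurable H) (hG0 : ∀ x, 0 ≤ G x) (hH0 : ∀ t, 0 ≤ H t)
    (hGI : RI G) (hHI : Integrable H) :
    RI (fun x : Fin 4 → R3 => G (sub4 l x) * H (x l - x (l.succAbove 0))) ∧
      rint (fun x : Fin 4 → R3 => G (sub4 l x) * H (x l - x (l.succAbove 0))) =
        rint G * ∫ t, H t := by
  obtain ⟨h1, h2⟩ := fa1_slab_last hGI hHI
  set F : (Fin 4 → R3) → ℝ := fun x : Fin 4 → R3 => G (sub4 (Fin.last 3) x) *
        H (x (Fin.last 3) - x ((Fin.last 3).succAbove 0)) with hF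
  have e : (fun x : Fin 4 → R3 => G (sub4 l x) * H (x l - x (l.succAbove 0))) =
      fun x => F (x ∘ fa1Perm l) := by
    funext x
    simp only [hF, Function.comp_apply, fa1Perm_last, fa1Perm_succAbove]
    have : sub4 (Fin.last 3) (x ∘ fa1Perm l) = sub4 l x := by
      funext m
      unfold sub4
      rw [Function.comp_apply, fa1Perm_succAbove]
    rw [this]
  have hFm : Measurable F := by
    have m1 : Measurable fun x : Fin 4 → R3 => G (sub4 (Fin.last 3) x) :=
      hG.comp (fa1_measurable_sub4 _)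
    have m2 : Measurable fun x : Fin 4 → R3 =>
        H (x (Fin.last 3) - x ((Fin.last 3).succAbove 0)) := by
      refine hH.comp ?_
      fun_prop
    exact m1.mul m2
  have hFt : TI F := by
    intro x v
    simp only [hF]
    have : sub4 (Fin.last 3) (fun m => x m + v) = fun m => sub4 (Fin.last 3) x m + v := rfl
    rw [this, hGt, add_sub_add_right_eq_sub]
  rw [e]
  exact ⟨RI_perm hFm hFt h1 _, by rw [rint_perm hFm hFt]; exact h2⟩

theorem fa1_kernel_integrable : Integrable fun t : R3 => 16 * (1 + ‖t‖) ^ (-(4 : ℝ)) := by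
  refine Integrable.const_mul (integrable_one_add_norm ?_) _
  simp
  norm_num

theorem fa1_slab_bound (l : Fin 4) (x : Fin 4 → R3) {p : ℕ} (hp : 4 ≤ p) :
    ((1 + rad x) ^ p)⁻¹ ≤ 16 * (1 + ‖x l - x (l.succAbove 0)‖) ^ (-(4 : ℝ)) := by
  have h0 := rad_nonneg x
  have h1 := norm_sub_le_rad x l (l.succAbove 0)
  set n := ‖x l - x (l.succAbove 0)‖ with hn
  have hn0 : 0 ≤ n := norm_nonneg _
  rw [Real.rpow_neg (by linarith)]
  have e : (1 + n) ^ (4 : ℝ) = (1 + n) ^ (4 : ℕ) := by
    rw [← Real.rpow_natCast]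
    norm_num
  rw [e]
  have h2 : (1 + rad x) ^ 4 ≤ (1 + rad x) ^ p := pow_le_pow_right₀ (by linarith) hp
  have h3 : ((1 + n) / 2) ^ 4 ≤ (1 + rad x) ^ 4 := by
    apply pow_le_pow_left₀ (by positivity)
    linarith
  have h4 : 0 < ((1 + n) / 2) ^ 4 := by positivity
  calc ((1 + rad x) ^ p)⁻¹ ≤ (((1 + n) / 2) ^ 4)⁻¹ := inv_anti₀ h4 (h3.trans h2)
    _ = 16 * ((1 + n) ^ 4)⁻¹ := by
      rw [div_pow, inv_div]
      ring

theorem fa1_measurable_slab (l : Fin 4) (R : ℝ) (p : ℕ) :
    Measurable fun x : Fin 4 → R3 => if rad (sub4 l x) ≤ R then ((1 + rad x) ^ p)⁻¹ else 0 := by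
  refine Measurable.ite ?_ ?_ measurable_const
  · exact measurableSet_le (continuous_rad.measurable.comp (fa1_measurable_sub4 l)) measurable_const
  · exact ((measurable_const.add continuous_rad.measurable).pow_const p).inv

/-- Slab integrals: the triple without `l` is bounded, the particle `l` is free:
`1 + rad x ≥ (1 + ‖x l - x (l.succAbove 0)‖)/2`, `∫ (1+‖t‖)^{-p} dt < ∞` for `p ≥ 4`;
`rint_slab_le`. -/
theorem RI_slab (l : Fin 4) (R : ℝ) {p : ℕ} (hp : 4 ≤ p) :
    RI fun x : Fin 4 → R3 => if rad (sub4 l x) ≤ R then ((1 + rad x) ^ p)⁻¹ else 0 := by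
  have hGm : Measurable fun z : Fin 3 → R3 => if rad z ≤ R then (1 : ℝ) else 0 := by
    refine Measurable.ite ?_ measurable_const measurable_const
    exact measurableSet_le continuous_rad.measurable measurable_const
  have hGt : TI fun z : Fin 3 → R3 => if rad z ≤ R then (1 : ℝ) else 0 := by
    intro z v
    simp only
    rw [TI_rad z v]
  have hHm : Measurable fun t : R3 => 16 * (1 + ‖t‖) ^ (-(4 : ℝ)) := by
    fun_prop
  have h := (rint_slab_le l hGm hGt hHm (fun z => by split_ifs <;> norm_num)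
    (fun t => by positivity) (RI_ball R) fa1_kernel_integrable).1
  refine RI.mono h (fa1_measurable_slab l R p) ?_
  intro x
  have h0 := rad_nonneg x
  split_ifs with hr
  · rw [abs_of_nonneg (by positivity), one_mul]
    exact fa1_slab_bound l x hp
  · simp

/-- On the support of `V4 l` the other three-body functions are small: by `rad_le_sub4_add`,
`rad (sub4 l' x) ≥ rad x / 100 - R`. The constant depends only on `C` and `V`. -/
theorem s0_decay (hV : Pot V) (C : ℝ) : ∃ C' > 0, ∀ φ : (Fin 3 → R3) → ℝ,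
    (∀ x, |φ x| ≤ C / (1 + rad x) ^ 4) → ∀ l x, V4 V l x ≠ 0 →
      |s0 φ l x| ≤ C' / (1 + rad x) ^ 4 := by
  obtain ⟨B, hB, R, hR, hp⟩ := V4_props hV
  refine ⟨3 * (|C| * (100 * (1 + R)) ^ 4) + 1, by positivity, ?_⟩
  intro φ hφ l x hx
  have hRl := (hp l).2.2.2 x hx
  have h0 := rad_nonneg x
  have hterm : ∀ l' ∈ Finset.univ.erase l, |ph φ l' x| ≤
      (|C| * (100 * (1 + R)) ^ 4) / (1 + rad x) ^ 4 := by
    intro l' hl'
    have hne : l ≠ l' := (Finset.ne_of_mem_erase hl').symm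
    have h1 := rad_le_sub4_add l l' hne x
    have h2 := rad_nonneg (sub4 l' x)
    have h3 : (1 + rad x) / (100 * (1 + R)) ≤ 1 + rad (sub4 l' x) := by
      rw [div_le_iff₀ (by positivity)]
      nlinarith
    have h4 : ((1 + rad x) / (100 * (1 + R))) ^ 4 ≤ (1 + rad (sub4 l' x)) ^ 4 :=
      pow_le_pow_left₀ (by positivity) h3 4
    calc |ph φ l' x| ≤ C / (1 + rad (sub4 l' x)) ^ 4 := hφ _
      _ ≤ |C| / (1 + rad (sub4 l' x)) ^ 4 := by gcongr; exact le_abs_self C
      _ ≤ |C| / ((1 + rad x) / (100 * (1 + R))) ^ 4 := by gcongr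
      _ = _ := by
        rw [div_pow, div_div_eq_mul_div]
  have hcard : (Finset.univ.erase l : Finset (Fin 4)).card = 3 := by
    rw [Finset.card_erase_of_mem (Finset.mem_univ _)]
    simp
  calc |s0 φ l x| ≤ ∑ l' ∈ Finset.univ.erase l, |ph φ l' x| := Finset.abs_sum_le_sum_abs _ _
    _ ≤ ∑ _l' ∈ Finset.univ.erase l, (|C| * (100 * (1 + R)) ^ 4) / (1 + rad x) ^ 4 :=
      Finset.sum_le_sum hterm
    _ = 3 * ((|C| * (100 * (1 + R)) ^ 4) / (1 + rad x) ^ 4) := by
      rw [Finset.sum_const, hcard, nsmul_eq_mul]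
      norm_num
    _ ≤ _ := by
      rw [← mul_div_assoc]
      gcongr
      linarith

/-- The pointwise bound of `V_l s_l²`. -/
theorem fa1_V4_s0_sq_le (hV : Pot V) (C : ℝ) : ∃ D > 0, ∃ R > 0, ∀ φ : (Fin 3 → R3) → ℝ,
    (∀ x, |φ x| ≤ C / (1 + rad x) ^ 4) → ∀ l x, 0 ≤ V4 V l x * s0 φ l x ^ 2 ∧
      V4 V l x * s0 φ l x ^ 2 ≤
        D * (if rad (sub4 l x) ≤ R then ((1 + rad x) ^ 8)⁻¹ else 0) := by
  obtain ⟨B, hB, R, hR, hp⟩ := V4_props hV
  obtain ⟨C', hC', hs⟩ := s0_decay hV C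
  refine ⟨B * C' ^ 2, by positivity, R, hR, ?_⟩
  intro φ hφ l x
  have h0 := rad_nonneg x
  have hV0 := (hp l).2.2.1 x
  refine ⟨mul_nonneg hV0.1 (sq_nonneg _), ?_⟩
  by_cases hx : V4 V l x = 0
  · rw [hx, zero_mul]
    split_ifs <;> positivity
  · rw [if_pos ((hp l).2.2.2 x hx)]
    have h1 := hs φ hφ l x hx
    have h2 : s0 φ l x ^ 2 ≤ (C' / (1 + rad x) ^ 4) ^ 2 := by
      rw [← sq_abs]
      exact pow_le_pow_left₀ (abs_nonneg _) h1 2
    calc V4 V l x * s0 φ l x ^ 2 ≤ B * (C' / (1 + rad x) ^ 4) ^ 2 :=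
          mul_le_mul hV0.2 h2 (sq_nonneg _) hB.le
      _ = _ := by
        rw [div_pow, ← pow_mul]
        ring

/-- `V_l s_l²` is integrable (slab integral with `p = 8`), with a common bound. -/
theorem RI_V4_s0_sq (hV : Pot V) {C : ℝ} (hm : Measurable φ)
    (hb : ∀ x, |φ x| ≤ C / (1 + rad x) ^ 4) (l : Fin 4) :
    RI fun x => V4 V l x * s0 φ l x ^ 2 := by
  obtain ⟨D, hD, R, hR, h⟩ := fa1_V4_s0_sq_le hV C
  obtain ⟨B, hB, R', hR', hp⟩ := V4_props hV
  refine RI.mono ((RI_slab l R (p := 8) (by norm_num)).const_mul D) ?_ ?_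
  · exact ((hp l).1).mul ((measurable_s0 hm l).pow_const 2)
  · intro x
    rw [abs_of_nonneg (h φ hb l x).1]
    exact (h φ hb l x).2

/-- The tail of `V_l s_l²` is small. -/
theorem tail_V4_s0_sq (hV : Pot V) {C : ℝ} (hm : Measurable φ)
    (hb : ∀ x, |φ x| ≤ C / (1 + rad x) ^ 4) {η : ℝ} (hη : 0 < η) : ∃ R0, ∀ R ≥ R0, ∀ l,
    rint (fun x => if rad x ≤ R then 0 else V4 V l x * s0 φ l x ^ 2) ≤ η := by
  obtain ⟨D, hD, R', hR', h⟩ := fa1_V4_s0_sq_le hV C
  set M : Fin 4 → ℝ := fun l => rint (fun x : Fin 4 → R3 =>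
    if rad (sub4 l x) ≤ R' then ((1 + rad x) ^ 7)⁻¹ else 0) with hM
  have hM0 : ∀ l, 0 ≤ M l := by
    intro l
    refine rint_nonneg fun x => ?_
    have h0 := rad_nonneg x
    split_ifs <;> positivity
  have hMs : ∀ l, M l ≤ ∑ l', M l' := fun l =>
    Finset.single_le_sum (fun l' _ => hM0 l') (Finset.mem_univ l)
  have hS0 : 0 ≤ ∑ l', M l' := Finset.sum_nonneg fun l' _ => hM0 l'
  refine ⟨D * (∑ l', M l') / η, ?_⟩
  intro R hR l
  have hR0 : 0 ≤ R := le_trans (by positivity) hR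
  have hRI7 := RI_slab l R' (p := 7) (by norm_num)
  have hle : rint (fun x => if rad x ≤ R then 0 else V4 V l x * s0 φ l x ^ 2) ≤
      rint (fun x : Fin 4 → R3 => (D / (1 + R)) *
        (if rad (sub4 l x) ≤ R' then ((1 + rad x) ^ 7)⁻¹ else 0)) := by
    have hdom : ∀ x : Fin 4 → R3, |if rad x ≤ R then 0 else V4 V l x * s0 φ l x ^ 2| ≤
        (D / (1 + R)) * (if rad (sub4 l x) ≤ R' then ((1 + rad x) ^ 7)⁻¹ else 0) := by
      intro x
      have h0 := rad_nonneg x
      split_ifs with h1 h2 h3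
      · simp; positivity
      · simp
      · rw [abs_of_nonneg (h φ hb l x).1]
        refine (h φ hb l x).2.trans ?_
        rw [if_pos h3]
        rw [not_le] at h1
        have e : ((1 + rad x) ^ 8)⁻¹ = (1 + rad x)⁻¹ * ((1 + rad x) ^ 7)⁻¹ := by
          rw [← mul_inv]
          congr 1
          ring
        rw [e, ← mul_assoc]
        have h4 : D * (1 + rad x)⁻¹ ≤ D / (1 + R) := by
          rw [← div_eq_mul_inv]
          gcongr
        exact mul_le_mul_of_nonneg_right h4 (by positivity)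
      · rw [abs_of_nonneg (h φ hb l x).1]
        refine (h φ hb l x).2.trans ?_
        rw [if_neg h3]
        simp
    exact (le_abs_self _).trans (abs_rint_le (hRI7.const_mul _) hdom)
  refine hle.trans ?_
  rw [rint_const_mul]
  have h5 : D / (1 + R) * M l ≤ η := by
    rw [div_mul_eq_mul_div, div_le_iff₀ (by positivity)]
    have h6 : D * (∑ l', M l') ≤ η * R := by
      have := (div_le_iff₀ hη).mp hR
      linarith
    have h7 : D * M l ≤ D * ∑ l', M l' := mul_le_mul_of_nonneg_left (hMs l) hD.le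
    nlinarith
  exact h5

end Pool.Agent.Lib.MP_5db8e2_mp
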