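import Pool.Agent.Lib.MP_5db8e2_mp.FourA1

/-!
# Four-body kernels: cross terms
-/

set_option autoImplicit false

open MeasureTheory Filter Topology

namespace Pool.Agent.Lib.MP_5db8e2_mp

variable {V : R3 → R3 → ℝ} {φ : (Fin 3 → R3) → ℝ}

namespace FourA2Aux

theorem continuous_sub4 (l : Fin 4) : Continuous (sub4 l) :=
  continuous_pi fun m => continuous_apply (l.succAbove m)

theorem TI_comp_sub4 {E : Type*} {F : (Fin 3 → R3) → E} (h : TI F) (l : Fin 4) :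
    TI fun x : Fin 4 → R3 => F (sub4 l x) := fun x v => h (sub4 l x) v

/-- The radius of a sub-cluster in symmetric form. -/
theorem rsq_sub4 (l : Fin 4) (x : Fin 4 → R3) :
    rsq (sub4 l x) = ∑ a, ((∑ m, x m a ^ 2 - x l a ^ 2) - (∑ m, x m a - x l a) ^ 2 / 3) := by
  rw [rsq_eq, Finset.sum_comm, Finset.mul_sum, ← Finset.sum_sub_distrib]
  refine Finset.sum_congr rfl fun a _ => ?_
  have h1 : ∑ m, x m a ^ 2 = x l a ^ 2 + ∑ j : Fin 3, sub4 l x j a ^ 2 :=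
    Fin.sum_univ_succAbove (fun m => x m a ^ 2) l
  have h2 : ∑ m, x m a = x l a + ∑ j : Fin 3, sub4 l x j a :=
    Fin.sum_univ_succAbove (fun m => x m a) l
  have h3 : cm (sub4 l x) a = (∑ j : Fin 3, sub4 l x j a) / 3 := by
    simp [cm]
  rw [h1, h2, h3]
  push_cast
  ring

theorem rad_sub4_perm (σ : Equiv.Perm (Fin 4)) (l : Fin 4) (x : Fin 4 → R3) :
    rad (sub4 l (x ∘ σ)) = rad (sub4 (σ l) x) := by
  unfold rad
  rw [rsq_sub4, rsq_sub4]
  congr 1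
  refine Finset.sum_congr rfl fun a _ => ?_
  simp only [Function.comp_apply]
  rw [Equiv.sum_comp σ fun m => x m a ^ 2, Equiv.sum_comp σ fun m => x m a]

theorem exists_perm {l l' : Fin 4} (h : l ≠ l') : ∃ σ : Equiv.Perm (Fin 4), σ 3 = l ∧ σ 2 = l' := by
  refine ⟨Equiv.swap 3 l * Equiv.swap 2 (Equiv.swap 3 l l'), ?_, ?_⟩
  · have h1 : Equiv.swap 3 l l' ≠ 3 := by
      intro h2
      have h3 : Equiv.swap 3 l (Equiv.swap 3 l l') = Equiv.swap 3 l 3 := by rw [h2]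
      rw [Equiv.swap_apply_self, Equiv.swap_apply_left] at h3
      exact h h3.symm
    rw [Equiv.Perm.mul_apply, Equiv.swap_apply_of_ne_of_ne (by decide) h1.symm,
      Equiv.swap_apply_left]
  · rw [Equiv.Perm.mul_apply, Equiv.swap_apply_left, Equiv.swap_apply_self]

/-- The cross kernel. -/
noncomputable def CK (l l' : Fin 4) (x : Fin 4 → R3) : ℝ :=
  ((1 + rad (sub4 l x)) ^ 5)⁻¹ * ((1 + rad (sub4 l' x)) ^ 5)⁻¹

theorem measurable_CK (l l' : Fin 4) : Measurable (CK l l') := by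
  have h1 : ∀ l : Fin 4, Measurable fun x : Fin 4 → R3 => ((1 + rad (sub4 l x)) ^ 5)⁻¹ := by
    intro l
    exact (((continuous_rad.comp (continuous_sub4 l)).measurable.const_add 1).pow_const 5).inv
  exact (h1 l).mul (h1 l')

theorem TI_CK (l l' : Fin 4) : TI (CK l l') := by
  intro x v
  unfold CK
  have h1 := TI_comp_sub4 TI_rad l x v
  have h2 := TI_comp_sub4 TI_rad l' x v
  simp only at h1 h2
  rw [h1, h2]

/-- The bound of one factor. -/
theorem inv_pow_le {r D z : ℝ} (hD : 0 ≤ D) (hz : 0 ≤ z) (h1 : D ≤ 2 * r)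
    (h2 : z ≤ 2 * r) :
    ((1 + r) ^ 5)⁻¹ ≤ 4 ^ 5 * ((1 + D) ^ (-(7 / 4) : ℝ) * (1 + z) ^ (-(13 / 4) : ℝ)) := by
  have h3 : (1 + D + z) / 4 ≤ 1 + r := by linarith
  have h4 : 0 < 1 + D + z := by linarith
  have h5 : ((1 + r) ^ 5)⁻¹ ≤ (((1 + D + z) / 4) ^ 5)⁻¹ :=
    inv_anti₀ (by positivity) (pow_le_pow_left₀ (by positivity) h3 5)
  have h6 : (((1 + D + z) / 4) ^ 5)⁻¹ = 4 ^ 5 * ((1 + D + z) ^ (5 : ℕ))⁻¹ := by
    rw [div_pow, inv_div]
    ring
  have h7 : ((1 + D + z) ^ (5 : ℕ))⁻¹ =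
      (1 + D + z) ^ (-(7 / 4) : ℝ) * (1 + D + z) ^ (-(13 / 4) : ℝ) := by
    rw [← Real.rpow_add h4, ← Real.rpow_natCast, ← Real.rpow_neg h4.le]
    norm_num
  rw [h6, h7] at h5
  refine h5.trans (mul_le_mul_of_nonneg_left ?_ (by positivity))
  refine mul_le_mul ?_ ?_ (by positivity) (by positivity)
  · exact Real.rpow_le_rpow_of_nonpos (by linarith) (by linarith) (by norm_num)
  · exact Real.rpow_le_rpow_of_nonpos (by linarith) (by linarith) (by norm_num)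

theorem RI_CK32 : RI (CK 3 2) := by
  let f : Fin 3 → R3 → ℝ := ![fun t => (1 + ‖t‖) ^ (-(7 / 2) : ℝ),
    fun t => (1 + ‖t‖) ^ (-(13 / 4) : ℝ), fun t => (1 + ‖t‖) ^ (-(13 / 4) : ℝ)]
  have hfr : (Module.finrank ℝ R3 : ℝ) = 3 := by
    simp [R3]
  have hf : ∀ i, Integrable (f i) := by
    intro i
    fin_cases i
    · exact integrable_one_add_norm (by rw [hfr]; norm_num)
    · exact integrable_one_add_norm (by rw [hfr]; norm_num)
    · exact integrable_one_add_norm (by rw [hfr]; norm_num)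
  have hprod : Integrable fun y : Fin 3 → R3 => ∏ i, f i (y i) :=
    Integrable.fintype_prod hf
  unfold RI
  refine Integrable.mono' (hprod.const_mul (4 ^ 5 * 4 ^ 5))
    ((measurable_CK 3 2).comp measurable_cons0).aestronglyMeasurable
    (Eventually.of_forall fun y => ?_)
  rw [Real.norm_eq_abs]
  have hr0 : ∀ l : Fin 4, 0 ≤ rad (sub4 l (Fin.cons 0 y : Fin 4 → R3)) := fun l => rad_nonneg _
  have hnn : 0 ≤ CK 3 2 (Fin.cons 0 y) := by
    unfold CK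
    have := hr0 3
    have := hr0 2
    positivity
  rw [abs_of_nonneg hnn]
  obtain ⟨r, hr⟩ : ∃ r, r = rad (sub4 3 (Fin.cons 0 y : Fin 4 → R3)) := ⟨_, rfl⟩
  obtain ⟨r', hr'⟩ : ∃ r', r' = rad (sub4 2 (Fin.cons 0 y : Fin 4 → R3)) := ⟨_, rfl⟩
  have h1 : ‖y 0‖ ≤ 2 * r := by
    have := norm_sub_le_rad (sub4 3 (Fin.cons 0 y : Fin 4 → R3)) 1 0
    rw [hr]
    refine le_trans (le_of_eq ?_) this
    have e1 : sub4 3 (Fin.cons 0 y : Fin 4 → R3) 1 = y 0 := rfl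
    have e2 : sub4 3 (Fin.cons 0 y : Fin 4 → R3) 0 = 0 := rfl
    rw [e1, e2, sub_zero]
  have h2 : ‖y 1‖ ≤ 2 * r := by
    have := norm_sub_le_rad (sub4 3 (Fin.cons 0 y : Fin 4 → R3)) 2 0
    rw [hr]
    refine le_trans (le_of_eq ?_) this
    have e1 : sub4 3 (Fin.cons 0 y : Fin 4 → R3) 2 = y 1 := rfl
    have e2 : sub4 3 (Fin.cons 0 y : Fin 4 → R3) 0 = 0 := rfl
    rw [e1, e2, sub_zero]
  have h3 : ‖y 0‖ ≤ 2 * r' := by
    have := norm_sub_le_rad (sub4 2 (Fin.cons 0 y : Fin 4 → R3)) 1 0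
    rw [hr']
    refine le_trans (le_of_eq ?_) this
    have e1 : sub4 2 (Fin.cons 0 y : Fin 4 → R3) 1 = y 0 := rfl
    have e2 : sub4 2 (Fin.cons 0 y : Fin 4 → R3) 0 = 0 := rfl
    rw [e1, e2, sub_zero]
  have h4 : ‖y 2‖ ≤ 2 * r' := by
    have := norm_sub_le_rad (sub4 2 (Fin.cons 0 y : Fin 4 → R3)) 2 0
    rw [hr']
    refine le_trans (le_of_eq ?_) this
    have e1 : sub4 2 (Fin.cons 0 y : Fin 4 → R3) 2 = y 2 := rfl
    have e2 : sub4 2 (Fin.cons 0 y : Fin 4 → R3) 0 = 0 := rfl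
    rw [e1, e2, sub_zero]
  have hp1 := inv_pow_le (norm_nonneg _) (norm_nonneg _) h1 h2
  have hp2 := inv_pow_le (norm_nonneg _) (norm_nonneg _) h3 h4
  have h5 : CK 3 2 (Fin.cons 0 y) = ((1 + r) ^ 5)⁻¹ * ((1 + r') ^ 5)⁻¹ := by
    rw [hr, hr']
    rfl
  rw [h5]
  have h6 : ∏ i, f i (y i) = (1 + ‖y 0‖) ^ (-(7 / 2) : ℝ) * (1 + ‖y 1‖) ^ (-(13 / 4) : ℝ) *
      (1 + ‖y 2‖) ^ (-(13 / 4) : ℝ) := by
    rw [Fin.prod_univ_three]
    rfl
  rw [h6]
  have h7 : (1 + ‖y 0‖) ^ (-(7 / 2) : ℝ) =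
      (1 + ‖y 0‖) ^ (-(7 / 4) : ℝ) * (1 + ‖y 0‖) ^ (-(7 / 4) : ℝ) := by
    rw [← Real.rpow_add (by positivity)]
    norm_num
  rw [h7]
  have hr1 : 0 ≤ r := by rw [hr]; exact hr0 3
  have hr2 : 0 ≤ r' := by rw [hr']; exact hr0 2
  calc ((1 + r) ^ 5)⁻¹ * ((1 + r') ^ 5)⁻¹
      ≤ (4 ^ 5 * ((1 + ‖y 0‖) ^ (-(7 / 4) : ℝ) * (1 + ‖y 1‖) ^ (-(13 / 4) : ℝ))) *
        (4 ^ 5 * ((1 + ‖y 0‖) ^ (-(7 / 4) : ℝ) * (1 + ‖y 2‖) ^ (-(13 / 4) : ℝ))) :=
        mul_le_mul hp1 hp2 (by positivity) (by positivity)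
    _ = _ := by ring

theorem integral_ball {ρ : ℝ} (hρ : 0 ≤ ρ) :
    Integrable (fun t : R3 => if ‖t‖ ≤ 2 * ρ then (1 : ℝ) else 0) ∧
      ∫ t : R3, (if ‖t‖ ≤ 2 * ρ then (1 : ℝ) else 0) = 64 * ρ ^ 3 := by
  have h1 : (fun t : R3 => if ‖t‖ ≤ 2 * ρ then (1 : ℝ) else 0) =
      (Metric.closedBall (0 : R3) (2 * ρ)).indicator 1 := by
    funext t
    by_cases h : ‖t‖ ≤ 2 * ρ
    · rw [if_pos h, Set.indicator_of_mem (mem_closedBall_zero_iff.2 h)]
      rfl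
    · rw [if_neg h, Set.indicator_of_notMem (fun h' => h (mem_closedBall_zero_iff.1 h'))]
  rw [h1]
  have h2 : MeasurableSet (Metric.closedBall (0 : R3) (2 * ρ)) :=
    Metric.isClosed_closedBall.measurableSet
  constructor
  · rw [integrable_indicator_iff h2]
    have h3 : IntegrableOn (fun _ : R3 => (1 : ℝ)) (Metric.closedBall (0 : R3) (2 * ρ)) :=
      integrableOn_const measure_closedBall_lt_top.ne
    exact h3
  · rw [integral_indicator_one h2, Measure.real, Real.volume_pi_closedBall _ (by positivity),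
      ENNReal.toReal_ofReal (by positivity), Fintype.card_fin]
    ring

/-- The three-body factor. -/
theorem exists_G_le : ∃ C > 0, ∀ ρ ≥ (1 : ℝ),
    RI (fun x : Fin 3 → R3 => if rad x ≤ ρ then ((1 + rad x) ^ 4)⁻¹ else 0) ∧
    rint (fun x : Fin 3 → R3 => if rad x ≤ ρ then ((1 + rad x) ^ 4)⁻¹ else 0) ≤ C * ρ ^ 2 := by
  obtain ⟨C1, hC1, h1⟩ := rint_rad_inv_le (k := 2) (by norm_num) (p := 4) (by norm_num)
  obtain ⟨C2, hC2, h2⟩ := rint_ball_le (k := 2)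
  refine ⟨C1 + C2, by positivity, fun ρ hρ => ?_⟩
  have hm : Measurable fun x : Fin 3 → R3 => if rad x ≤ ρ then ((1 + rad x) ^ 4)⁻¹ else 0 :=
    Measurable.ite (measurableSet_le continuous_rad.measurable measurable_const)
      ((continuous_rad.measurable.const_add 1).pow_const 4).inv measurable_const
  have hle1 : ∀ x : Fin 3 → R3, ((1 + rad x) ^ 4)⁻¹ ≤ 1 := by
    intro x
    have := rad_nonneg x
    exact inv_le_one_of_one_le₀ (one_le_pow₀ (by linarith))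
  have hRI : RI fun x : Fin 3 → R3 => if rad x ≤ ρ then ((1 + rad x) ^ 4)⁻¹ else 0 := by
    refine RI_of_bdd (B := 1) (R := ρ) hm (fun x => ?_) (fun x hx => ?_)
    · split_ifs
      · rw [abs_of_nonneg]
        · exact hle1 x
        · have := rad_nonneg x
          positivity
      · simp
    · by_contra hcon
      exact hx (if_neg hcon)
  refine ⟨hRI, ?_⟩
  have hI1 := RI_rad_inv (k := 2) (by norm_num) (p := 4) (by norm_num) ρ
  have hI2 := RI_ball (k := 2) 1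
  have h3 : rint (fun x : Fin 3 → R3 => if rad x ≤ ρ then ((1 + rad x) ^ 4)⁻¹ else 0) ≤
      rint (fun x : Fin 3 → R3 => (if rad x ≤ ρ then (rad x ^ 4)⁻¹ else 0) +
        (if rad x ≤ 1 then (1 : ℝ) else 0)) := by
    refine rint_mono hRI (hI1.add hI2) fun x => ?_
    have h0 := rad_nonneg x
    by_cases hx : rad x ≤ 1
    · rw [if_pos hx, if_pos (hx.trans hρ), if_pos (hx.trans hρ)]
      have : 0 ≤ (rad x ^ 4)⁻¹ := by positivity
      linarith [hle1 x]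
    · rw [if_neg hx, add_zero]
      push Not at hx
      split_ifs
      · exact inv_anti₀ (by positivity) (pow_le_pow_left₀ h0 (by linarith) 4)
      · exact le_rfl
  rw [rint_add hI1 hI2] at h3
  have h4 := h1 ρ (by linarith)
  have h5 := h2 1 one_pos
  have h6 : C1 * ρ ^ (3 * 2 - 4) = C1 * ρ ^ 2 := by norm_num
  rw [h6] at h4
  have h7 : (1 : ℝ) ≤ ρ ^ 2 := one_le_pow₀ hρ
  have h8 : C2 * 1 ^ (3 * 2) ≤ C2 * ρ ^ 2 := by
    rw [one_pow]
    exact mul_le_mul_of_nonneg_left h7 hC2.le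
  linarith

end FourA2Aux

open FourA2Aux

/-- The cross kernel `(1+rad_l)^{-5} (1+rad_{l'})^{-5}` is integrable. Let `p, q` be the two common
particles, `D = ‖x_p - x_q‖`, `z = x_{l'} - x_p`, `z' = x_l - x_p`. Then
`1 + rad (sub4 l x) ≥ (1 + D + ‖z‖)/4`, `1 + rad (sub4 l' x) ≥ (1 + D + ‖z'‖)/4`, and
`(1 + D + ‖z‖)^{-5} ≤ (1+D)^{-7/4} (1+‖z‖)^{-13/4}`; the product is integrable in
`(x_q - x_p, z, z')` (exponents `7/2 > 3` and `13/4 > 3`). Use `rint_perm` to reduce to a fixed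
pair, e.g. `l = 3, l' = 2`, `p = 0`, `q = 1`. -/
theorem RI_cross {l l' : Fin 4} (h : l ≠ l') :
    RI fun x : Fin 4 → R3 => ((1 + rad (sub4 l x)) ^ 5)⁻¹ * ((1 + rad (sub4 l' x)) ^ 5)⁻¹ := by
  obtain ⟨σ, hσ1, hσ2⟩ := exists_perm h
  have h1 := RI_perm (measurable_CK 3 2) (TI_CK 3 2) RI_CK32 σ
  have h2 : (fun x : Fin 4 → R3 => CK 3 2 (x ∘ σ)) =
      fun x => ((1 + rad (sub4 l x)) ^ 5)⁻¹ * ((1 + rad (sub4 l' x)) ^ 5)⁻¹ := by
    funext x
    unfold CK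
    rw [rad_sub4_perm, rad_sub4_perm, hσ1, hσ2]
  rw [h2] at h1
  exact h1

/-- The pointwise bound of the cross terms. -/
theorem abs_gg_ph_le {C : ℝ} (h1 : ContDiff ℝ 1 φ) {ψ : (Fin 3 → R3) → ℝ} (h2 : ContDiff ℝ 1 ψ)
    {C' : ℝ} (hb : ∀ x m a, |pd φ m a x| ≤ C / (1 + rad x) ^ 5)
    (hb' : ∀ x m a, |pd ψ m a x| ≤ C' / (1 + rad x) ^ 5) (l l' : Fin 4) (x : Fin 4 → R3) :
    |gg (ph φ l) (ph ψ l') x| ≤
      12 * C * C' * (((1 + rad (sub4 l x)) ^ 5)⁻¹ * ((1 + rad (sub4 l' x)) ^ 5)⁻¹) := by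
  have key : ∀ {χ : (Fin 3 → R3) → ℝ} {D : ℝ}, ContDiff ℝ 1 χ →
      (∀ x m a, |pd χ m a x| ≤ D / (1 + rad x) ^ 5) → ∀ (l : Fin 4) (m : Fin 4) (a : Fin 3),
      |pd (ph χ l) m a x| ≤ D / (1 + rad (sub4 l x)) ^ 5 := by
    intro χ D hχ hD l m a
    rcases Fin.eq_self_or_eq_succAbove l m with hm | ⟨j, hj⟩
    · rw [hm, pd_ph_self hχ, abs_zero]
      exact (abs_nonneg _).trans (hD (sub4 l x) 0 a)
    · rw [hj, pd_ph hχ]
      exact hD _ _ _
  refine (abs_gg_le (key h1 hb l) (key h2 hb' l')).trans (le_of_eq ?_)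
  push_cast
  rw [div_eq_mul_inv, div_eq_mul_inv]
  ring

/-- The integral of `φ_l` over a ball: `∫_{rad ≤ ρ} (1+rad_l)^{-4} ≤ C ρ² ρ³`. -/
theorem rint_ph_ball_le : ∃ C > 0, ∀ ρ ≥ 1, ∀ l : Fin 4,
    RI (fun x : Fin 4 → R3 => if rad x ≤ ρ then ((1 + rad (sub4 l x)) ^ 4)⁻¹ else 0) ∧
    rint (fun x : Fin 4 → R3 => if rad x ≤ ρ then ((1 + rad (sub4 l x)) ^ 4)⁻¹ else 0) ≤
      C * ρ ^ 5 := by
  obtain ⟨C, hC, hG⟩ := exists_G_le
  refine ⟨C * 64, by positivity, fun ρ hρ l => ?_⟩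
  obtain ⟨hGI, hGle⟩ := hG ρ hρ
  obtain ⟨hHI, hHeq⟩ := integral_ball (ρ := ρ) (by linarith)
  have hGm : Measurable fun x : Fin 3 → R3 => if rad x ≤ ρ then ((1 + rad x) ^ 4)⁻¹ else 0 :=
    Measurable.ite (measurableSet_le continuous_rad.measurable measurable_const)
      ((continuous_rad.measurable.const_add 1).pow_const 4).inv measurable_const
  have hHm : Measurable fun t : R3 => if ‖t‖ ≤ 2 * ρ then (1 : ℝ) else 0 :=
    Measurable.ite (measurableSet_le measurable_norm measurable_const)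
      measurable_const measurable_const
  have hGt : TI fun x : Fin 3 → R3 => if rad x ≤ ρ then ((1 + rad x) ^ 4)⁻¹ else 0 := by
    intro x v
    simp only [TI_rad x v]
  obtain ⟨hI, heq⟩ := rint_slab_le l hGm hGt hHm
    (fun x => by
      have := rad_nonneg x
      split_ifs <;> positivity)
    (fun t => by
      split_ifs <;> norm_num) hGI hHI
  have hFm : Measurable fun x : Fin 4 → R3 =>
      if rad x ≤ ρ then ((1 + rad (sub4 l x)) ^ 4)⁻¹ else 0 :=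
    Measurable.ite (measurableSet_le continuous_rad.measurable measurable_const)
      (((continuous_rad.comp (continuous_sub4 l)).measurable.const_add 1).pow_const 4).inv
      measurable_const
  have hnn : ∀ x : Fin 4 → R3, 0 ≤ (if rad x ≤ ρ then ((1 + rad (sub4 l x)) ^ 4)⁻¹ else 0) := by
    intro x
    have := rad_nonneg (sub4 l x)
    split_ifs <;> positivity
  have hle : ∀ x : Fin 4 → R3, (if rad x ≤ ρ then ((1 + rad (sub4 l x)) ^ 4)⁻¹ else 0) ≤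
      (fun x : Fin 3 → R3 => if rad x ≤ ρ then ((1 + rad x) ^ 4)⁻¹ else 0) (sub4 l x) *
        (fun t : R3 => if ‖t‖ ≤ 2 * ρ then (1 : ℝ) else 0) (x l - x (l.succAbove 0)) := by
    intro x
    simp only
    by_cases hx : rad x ≤ ρ
    · have h1 : rad (sub4 l x) ≤ ρ := (rad_sub4_le l x).trans hx
      have h2 : ‖x l - x (l.succAbove 0)‖ ≤ 2 * ρ := by
        have := norm_sub_le_rad x l (l.succAbove 0)
        linarith
      rw [if_pos hx, if_pos h1, if_pos h2, mul_one]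
    · rw [if_neg hx]
      have := rad_nonneg (sub4 l x)
      refine mul_nonneg ?_ ?_
      · split_ifs <;> positivity
      · split_ifs <;> norm_num
  have hFI : RI fun x : Fin 4 → R3 =>
      if rad x ≤ ρ then ((1 + rad (sub4 l x)) ^ 4)⁻¹ else 0 :=
    hI.mono hFm fun x => by
      rw [abs_of_nonneg (hnn x)]
      exact hle x
  refine ⟨hFI, (rint_mono hFI hI hle).trans ?_⟩
  rw [heq, hHeq]
  calc _ ≤ C * ρ ^ 2 * (64 * ρ ^ 3) := by
        refine mul_le_mul_of_nonneg_right hGle ?_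
        have : (0 : ℝ) ≤ ρ := by linarith
        positivity
    _ = C * 64 * ρ ^ 5 := by ring

end Pool.Agent.Lib.MP_5db8e2_mp
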