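import Pool.Agent.Lib.MP_5db8e2_mp.RintC
import Pool.Agent.Lib.MP_5db8e2_mp.FourA1

/-!
# Hardy inequality, test functions, relative weak equation
-/

set_option autoImplicit false

open MeasureTheory Filter Topology

namespace Pool.Agent.Lib.MP_5db8e2_mp

variable {V : R3 → R3 → ℝ} {φ : (Fin 3 → R3) → ℝ}

/-! ### Auxiliary lemmas -/

namespace FourA3Aux

variable {k : ℕ}

theorem bdd_on_rad_le {F : (Fin (k + 1) → R3) → ℝ} (hF : Continuous F) (ht : TI F) (M : ℝ) :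
    ∃ C, 0 ≤ C ∧ ∀ x, rad x ≤ M → |F x| ≤ C := by
  have hc : Continuous fun y : Fin k → R3 => F (Fin.cons 0 y) := hF.comp continuous_cons0
  obtain ⟨C, hC⟩ := (isCompact_closedBall (0 : Fin k → R3) (2 * M)).exists_bound_of_continuousOn
    hc.continuousOn
  refine ⟨max C 0, le_max_right _ _, fun x hx => ?_⟩
  have h1 : rad (Fin.cons 0 (fun m => x m.succ - x 0) : Fin (k + 1) → R3) ≤ M := by
    rw [← TI_eq_cons TI_rad x]
    exact hx
  have h2 := norm_le_rad_cons (fun m => x m.succ - x 0)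
  rw [TI_eq_cons ht x]
  refine (hC _ ?_).trans (le_max_left _ _)
  rw [mem_closedBall_zero_iff]
  linarith

theorem bdd_of_cont {F : (Fin (k + 1) → R3) → ℝ} (hF : Continuous F) (ht : TI F) {M : ℝ}
    (hM : ∀ x, F x ≠ 0 → rad x ≤ M) : ∃ C, 0 ≤ C ∧ ∀ x, |F x| ≤ C := by
  obtain ⟨C, hC0, hC⟩ := bdd_on_rad_le hF ht M
  refine ⟨C, hC0, fun x => ?_⟩
  by_cases hx : F x = 0
  · rw [hx, abs_zero]
    exact hC0
  · exact hC x (hM x hx)

theorem RI_of_cont {F : (Fin (k + 1) → R3) → ℝ} (hF : Continuous F) (ht : TI F) {M : ℝ}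
    (hM : ∀ x, F x ≠ 0 → rad x ≤ M) : RI F := by
  obtain ⟨C, -, hC⟩ := bdd_of_cont hF ht hM
  exact RI_of_bdd hF.measurable hC hM

theorem TF.bdd {ζ : (Fin (k + 1) → R3) → ℝ} (hζ : TF ζ) : ∃ C, 0 ≤ C ∧ ∀ x, |ζ x| ≤ C := by
  obtain ⟨M, hM⟩ := hζ.supp
  exact bdd_of_cont hζ.c1.continuous hζ.ti hM

theorem TF.pd_bdd {ζ : (Fin (k + 1) → R3) → ℝ} (hζ : TF ζ) (m : Fin (k + 1)) (a : Fin 3) :
    ∃ C, 0 ≤ C ∧ ∀ x, |pd ζ m a x| ≤ C := by
  obtain ⟨M, hM⟩ := hζ.supp
  exact bdd_of_cont (continuous_pd hζ.c1 m a) (TI_pd hζ.ti m a)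
    (fun x => pd_eq_zero_of_rad hζ.c1 hM m a x)

/-- Bounded times test function. -/
theorem RI_TF' {ζ : (Fin (k + 1) → R3) → ℝ} (hζ : TF ζ) {F : (Fin (k + 1) → R3) → ℝ}
    (hF : Measurable F) {B : ℝ} (hB : ∀ x, |F x| ≤ B) : RI (fun x => F x * ζ x) := by
  obtain ⟨M, hM⟩ := hζ.supp
  obtain ⟨C, hC0, hC⟩ := TF.bdd hζ
  have hB0 : 0 ≤ B := (abs_nonneg _).trans (hB 0)
  refine RI_of_bdd (B := B * C) (R := M) (hF.mul hζ.c1.continuous.measurable) (fun x => ?_)
    (fun x hx => hM x fun h => hx (by simp [h]))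
  rw [abs_mul]
  exact mul_le_mul (hB x) (hC x) (abs_nonneg _) hB0

/-- Bounded times a derivative of a test function. -/
theorem RI_TF_pd {ζ : (Fin (k + 1) → R3) → ℝ} (hζ : TF ζ) {F : (Fin (k + 1) → R3) → ℝ}
    (hF : Measurable F) {B : ℝ} (hB : ∀ x, |F x| ≤ B) (m : Fin (k + 1)) (a : Fin 3) :
    RI (fun x => F x * pd ζ m a x) := by
  obtain ⟨M, hM⟩ := hζ.supp
  obtain ⟨C, hC0, hC⟩ := TF.pd_bdd hζ m a
  have hB0 : 0 ≤ B := (abs_nonneg _).trans (hB 0)
  refine RI_of_bdd (B := B * C) (R := M) (hF.mul (continuous_pd hζ.c1 m a).measurable)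
    (fun x => ?_) (fun x hx => pd_eq_zero_of_rad hζ.c1 hM m a x fun h => hx (by simp [h]))
  rw [abs_mul]
  exact mul_le_mul (hB x) (hC x) (abs_nonneg _) hB0

theorem RI_sum {ι : Type*} (s : Finset ι) (F : ι → (Fin (k + 1) → R3) → ℝ)
    (hF : ∀ i ∈ s, RI (F i)) : RI (fun x => ∑ i ∈ s, F i x) := by
  unfold RI
  exact integrable_finset_sum s hF

/-- The gradient of a function of a sub-cluster. -/
theorem gg_ph_ph {φ ψ : (Fin 3 → R3) → ℝ} (hφ : ContDiff ℝ 1 φ) (hψ : ContDiff ℝ 1 ψ)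
    (l : Fin 4) (x : Fin 4 → R3) : gg (ph φ l) (ph ψ l) x = gg φ ψ (sub4 l x) := by
  unfold gg
  rw [Fin.sum_univ_succAbove _ l]
  simp only [pd_ph_self hφ, pd_ph hφ, pd_ph hψ, zero_mul, Finset.sum_const_zero, zero_add]

theorem contDiff_ph' {φ : (Fin 3 → R3) → ℝ} {n : WithTop ℕ∞} (h : ContDiff ℝ n φ) (l : Fin 4) :
    ContDiff ℝ n (ph φ l) := by
  have : ph φ l = φ ∘ (sub4L l) := rfl
  rw [this]
  exact h.comp (sub4L l).contDiff

theorem rsq_sub4 (l : Fin 4) : (fun x : Fin 4 → R3 => rsq (sub4 l x)) = ph rsq l := rfl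

/-- The Laplacian of a function of a sub-cluster. -/
theorem lap_ph {φ : (Fin 3 → R3) → ℝ} (hφ : ContDiff ℝ 2 φ) (l : Fin 4) (x : Fin 4 → R3) :
    ∑ m, ∑ a, pd (fun x => pd (ph φ l) m a x) m a x =
      ∑ m, ∑ a, pd (fun x => pd φ m a x) m a (sub4 l x) := by
  have h1 : ContDiff ℝ 1 φ := hφ.of_le (by norm_num)
  rw [Fin.sum_univ_succAbove _ l]
  have h2 : ∀ a, (fun x => pd (ph φ l) l a x) = fun _ => (0 : ℝ) := by
    intro a
    funext x
    exact pd_ph_self h1 l a x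
  have h3 : ∀ j a, (fun x => pd (ph φ l) (l.succAbove j) a x) = ph (fun x => pd φ j a x) l := by
    intro j a
    funext x
    exact pd_ph h1 l j a x
  simp only [h2, h3, pd_const, Finset.sum_const_zero, zero_add]
  refine Finset.sum_congr rfl fun j _ => Finset.sum_congr rfl fun a _ => ?_
  exact pd_ph (contDiff_pd (n := 1) (hφ.of_le (by norm_num)) j a) l j a x

end FourA3Aux

open FourA3Aux

/-- **Hardy's inequality.** With `S = rsq (sub4 l x)` and the field
`F_{m,a} = (x_m a - cm (sub4 l x) a)/(1+S)` for `m ≠ l`, `F_{l,a} = 0`, one has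
`div F = 6/(1+S) - 2S/(1+S)² ≥ 4/(1+S)` and `|F|² = S/(1+S)² ≤ 1/(1+S)`, so
`4 ∫ ζ²/(1+S) ≤ ∫ div F ζ² = -2 ∫ ζ F·∇ζ ≤ 2 (∫ ζ²/(1+S))^{1/2} (∫ |∇ζ|²)^{1/2}`. -/
theorem hardy (l : Fin 4) {ζ : (Fin 4 → R3) → ℝ} (hζ : TF ζ) :
    4 * rint (fun x => ζ x ^ 2 / (1 + rsq (sub4 l x))) ≤ rint (gg ζ ζ) := by
  -- the function `S`
  set S : (Fin 4 → R3) → ℝ := ph rsq l with hS
  have hSx : ∀ x, rsq (sub4 l x) = S x := fun x => rfl
  have hS0 : ∀ x, 0 ≤ S x := fun x => rsq_nonneg _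
  have hSc : ∀ {n : WithTop ℕ∞}, ContDiff ℝ n S := fun {n} => contDiff_ph' contDiff_rsq l
  have hSti : TI S := TI_ph TI_rsq l
  have hSgg : ∀ x, gg S S x = 4 * S x := fun x => by
    rw [hS, gg_ph_ph contDiff_rsq contDiff_rsq, gg_rsq]
    rfl
  have hSlap : ∀ x, ∑ m, ∑ a, pd (fun x => pd S m a x) m a x = 12 := fun x => by
    rw [hS, lap_ph contDiff_rsq, lap_rsq (k := 2)]
    norm_num
  have h1S : ∀ x, 0 < 1 + S x := fun x => by linarith [hS0 x]
  -- the function `G = log (1 + S)`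
  set G : (Fin 4 → R3) → ℝ := fun x => Real.log (1 + S x) with hG
  have hGc : ContDiff ℝ 2 G := (contDiff_const.add hSc).log fun x => (h1S x).ne'
  have hGti : TI G := by
    intro x v
    simp only [hG, hSti x v]
  have hSd : ∀ x, DifferentiableAt ℝ S x := fun x => (hSc (n := 1)).differentiable one_ne_zero x
  have hpdG : ∀ m a x, pd G m a x = (1 + S x)⁻¹ * pd S m a x := by
    intro m a x
    have hlog : HasDerivAt (fun t : ℝ => Real.log (1 + t)) (1 + S x)⁻¹ (S x) := by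
      have := ((hasDerivAt_id (S x)).const_add 1).log (h1S x).ne'
      simpa using this
    have h := pd_comp (h := fun t => Real.log (1 + t)) (hSd x) hlog.differentiableAt m a
    rw [hG, h, hlog.deriv]
  have hggG : ∀ x, gg G G x = 4 * S x * ((1 + S x)⁻¹) ^ 2 := by
    intro x
    rw [← hSgg]
    unfold gg
    simp only [hpdG, Finset.sum_mul]
    refine Finset.sum_congr rfl fun m _ => Finset.sum_congr rfl fun a _ => ?_
    ring
  have hlapG : ∀ x, ∑ m, ∑ a, pd (fun x => pd G m a x) m a x =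
      12 * (1 + S x)⁻¹ - 4 * S x * ((1 + S x)⁻¹) ^ 2 := by
    intro x
    have h1 : ∀ m a, pd (fun x => pd G m a x) m a x =
        (1 + S x)⁻¹ * pd (fun x => pd S m a x) m a x -
          ((1 + S x)⁻¹) ^ 2 * (pd S m a x * pd S m a x) := by
      intro m a
      have e1 : (fun x => pd G m a x) = fun x => (fun x => (1 + S x)⁻¹) x * (pd S m a) x := by
        funext x
        exact hpdG m a x
      have hinv : HasDerivAt (fun t : ℝ => (1 + t)⁻¹) (-1 / (1 + S x) ^ 2) (S x) := by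
        have := ((hasDerivAt_id' (S x)).const_add 1).fun_inv (h1S x).ne'
        simpa using this
      have e2 : DifferentiableAt ℝ (fun x => (1 + S x)⁻¹) x := by
        have := hinv.differentiableAt.comp x (hSd x)
        exact this
      have e3 : DifferentiableAt ℝ (pd S m a) x :=
        (contDiff_pd (n := 1) hSc m a).differentiable one_ne_zero x
      have e4 : pd (fun x => (1 + S x)⁻¹) m a x = -1 / (1 + S x) ^ 2 * pd S m a x := by
        rw [pd_comp (h := fun t => (1 + t)⁻¹) (hSd x) hinv.differentiableAt m a, hinv.deriv]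
      rw [e1, pd_mul e2 e3, e4]
      have := (h1S x).ne'
      field_simp
      ring
    simp only [h1, Finset.sum_sub_distrib, ← Finset.mul_sum]
    rw [hSlap x]
    have := hSgg x
    unfold gg at this
    rw [this]
    ring
  -- the weight
  have hw0 : ∀ x, 0 < (1 + S x)⁻¹ := fun x => inv_pos.mpr (h1S x)
  have hw1 : ∀ x, (1 + S x)⁻¹ ≤ 1 := fun x => inv_le_one_of_one_le₀ (by linarith [hS0 x])
  have hSw : ∀ x, S x * (1 + S x)⁻¹ ≤ 1 := fun x => by
    rw [← div_eq_mul_inv, div_le_one (h1S x)]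
    linarith
  have hwm : Measurable fun x => (1 + S x)⁻¹ :=
    (measurable_const.add (hSc (n := 0)).continuous.measurable).inv
  have hSm : Measurable S := (hSc (n := 0)).continuous.measurable
  -- the square of `ζ`
  have hζ2 : TF fun x => ζ x * ζ x := TF.mul hζ hζ.c1 hζ.ti
  have hparts := rint_gg_eq hGc hGti hζ2
  have hgg2 : ∀ x, gg G (fun x => ζ x * ζ x) x = 2 * ζ x * gg G ζ x := by
    intro x
    rw [gg_mul_right hζ.c1 hζ.c1]
    ring
  -- integrability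
  have I1 : RI fun x => (1 + S x)⁻¹ * (ζ x * ζ x) := RI_TF' hζ2 hwm (B := 1) fun x => by
    rw [abs_of_pos (hw0 x)]
    exact hw1 x
  have I2 : RI fun x => (12 * (1 + S x)⁻¹ - 4 * S x * ((1 + S x)⁻¹) ^ 2) * (ζ x * ζ x) := by
    refine RI_TF' hζ2 ((hwm.const_mul 12).sub ((hSm.const_mul 4).mul (hwm.pow_const 2)))
      (B := 12) fun x => ?_
    have h1 := hw0 x
    have h2 := hw1 x
    have h3 := hSw x
    have h4 := hS0 x
    have h5 : 0 ≤ S x * (1 + S x)⁻¹ := mul_nonneg h4 h1.le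
    have h6 : S x * (1 + S x)⁻¹ ^ 2 ≤ (1 + S x)⁻¹ := by nlinarith
    have h7 : 0 ≤ S x * (1 + S x)⁻¹ ^ 2 := by positivity
    rw [abs_le]
    constructor <;> nlinarith
  have I3 : RI (gg G fun x => ζ x * ζ x) := by
    obtain ⟨M, hM⟩ := hζ2.supp
    refine RI_of_cont (M := M) (continuous_gg (hGc.of_le (by norm_num)) hζ2.c1)
      (TI_gg hGti hζ2.ti) fun x hx => ?_
    by_contra hc
    apply hx
    unfold gg
    refine Finset.sum_eq_zero fun m _ => Finset.sum_eq_zero fun a _ => ?_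
    have : pd (fun x => ζ x * ζ x) m a x = 0 := by
      by_contra h
      exact hc (pd_eq_zero_of_rad hζ2.c1 hM m a x h)
    rw [this, mul_zero]
  have I4 : RI (gg ζ ζ) := by
    obtain ⟨M, hM⟩ := hζ.supp
    refine RI_of_cont (M := M) (continuous_gg hζ.c1 hζ.c1)
      (TI_gg hζ.ti hζ.ti) fun x hx => ?_
    by_contra hc
    apply hx
    unfold gg
    refine Finset.sum_eq_zero fun m _ => Finset.sum_eq_zero fun a _ => ?_
    have : pd ζ m a x = 0 := by
      by_contra h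
      exact hc (pd_eq_zero_of_rad hζ.c1 hM m a x h)
    rw [this, mul_zero]
  -- the pointwise inequality
  have key : ∀ x, 4 * ((1 + S x)⁻¹ * (ζ x * ζ x)) ≤
      ((12 * (1 + S x)⁻¹ - 4 * S x * ((1 + S x)⁻¹) ^ 2) * (ζ x * ζ x) +
        gg G (fun x => ζ x * ζ x) x) + gg ζ ζ x := by
    intro x
    have h1 : 0 ≤ ∑ m, ∑ a, (ζ x * pd G m a x + pd ζ m a x) ^ 2 :=
      Finset.sum_nonneg fun m _ => Finset.sum_nonneg fun a _ => sq_nonneg _
    have h2 : ∑ m, ∑ a, (ζ x * pd G m a x + pd ζ m a x) ^ 2 =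
        ζ x * ζ x * gg G G x + 2 * ζ x * gg G ζ x + gg ζ ζ x := by
      unfold gg
      simp only [Finset.mul_sum, ← Finset.sum_add_distrib]
      refine Finset.sum_congr rfl fun m _ => Finset.sum_congr rfl fun a _ => ?_
      ring
    rw [h2, hggG] at h1
    rw [hgg2]
    have h3 : S x * (1 + S x)⁻¹ ^ 2 ≤ (1 + S x)⁻¹ := by
      have := hw0 x
      have := hSw x
      nlinarith
    have h4 : 0 ≤ ζ x * ζ x := mul_self_nonneg _
    nlinarith [mul_le_mul_of_nonneg_right h3 h4]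
  have hint := rint_mono (I1.const_mul 4) ((I2.add I3).add I4) key
  rw [rint_add (I2.add I3) I4, rint_add I2 I3, rint_const_mul, hparts] at hint
  simp only [hlapG] at hint
  have hfin : (fun x => ζ x ^ 2 / (1 + rsq (sub4 l x))) = fun x => (1 + S x)⁻¹ * (ζ x * ζ x) := by
    funext x
    rw [hSx]
    ring
  rw [hfin]
  linarith

theorem hardyV (hV : Pot V) : ∃ C > 0, ∀ ζ : (Fin 4 → R3) → ℝ, TF ζ → ∀ l,
    rint (fun x => V4 V l x * ζ x ^ 2) ≤ C * rint (gg ζ ζ) := by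
  obtain ⟨B, hB, R, hR, hVp⟩ := V4_props hV
  refine ⟨B * (1 + R ^ 2), by positivity, fun ζ hζ l => ?_⟩
  obtain ⟨hm, hti, hb, hs⟩ := hVp l
  have hζ2 : TF fun x => ζ x * ζ x := TF.mul hζ hζ.c1 hζ.ti
  have hSm : Measurable fun x : Fin 4 → R3 => (1 + rsq (sub4 l x))⁻¹ :=
    (measurable_const.add (contDiff_ph' (n := 0) contDiff_rsq l).continuous.measurable).inv
  have I1 : RI fun x => V4 V l x * (ζ x * ζ x) := RI_TF' hζ2 hm (B := B) fun x => by
    rw [abs_of_nonneg (hb x).1]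
    exact (hb x).2
  have I2 : RI fun x => (1 + rsq (sub4 l x))⁻¹ * (ζ x * ζ x) := RI_TF' hζ2 hSm (B := 1) fun x => by
    have := rsq_nonneg (sub4 l x)
    rw [abs_of_nonneg (by positivity)]
    exact inv_le_one_of_one_le₀ (by linarith)
  have h1 : rint (fun x => V4 V l x * (ζ x * ζ x)) ≤
      rint (fun x => B * (1 + R ^ 2) * ((1 + rsq (sub4 l x))⁻¹ * (ζ x * ζ x))) := by
    refine rint_mono I1 (I2.const_mul _) fun x => ?_
    have h4 : 0 ≤ ζ x * ζ x := mul_self_nonneg _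
    rw [← mul_assoc (B * (1 + R ^ 2))]
    refine mul_le_mul_of_nonneg_right ?_ h4
    have h0 := rsq_nonneg (sub4 l x)
    by_cases hx : V4 V l x = 0
    · rw [hx]
      positivity
    · have h5 := hs x hx
      have h6 : rsq (sub4 l x) ≤ R ^ 2 := by
        rw [← rad_sq]
        exact pow_le_pow_left₀ (rad_nonneg _) h5 2
      have h7 : 1 ≤ (1 + R ^ 2) * (1 + rsq (sub4 l x))⁻¹ := by
        rw [← div_eq_mul_inv, le_div_iff₀ (by positivity)]
        linarith
      calc V4 V l x ≤ B := (hb x).2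
        _ = B * 1 := (mul_one B).symm
        _ ≤ B * ((1 + R ^ 2) * (1 + rsq (sub4 l x))⁻¹) := mul_le_mul_of_nonneg_left h7 hB.le
        _ = _ := by ring
  rw [rint_const_mul] at h1
  have h2 := hardy l hζ
  have h3 : (fun x => ζ x ^ 2 / (1 + rsq (sub4 l x))) =
      fun x => (1 + rsq (sub4 l x))⁻¹ * (ζ x * ζ x) := by
    funext x
    ring
  rw [h3] at h2
  have h4 : 0 ≤ rint (fun x => (1 + rsq (sub4 l x))⁻¹ * (ζ x * ζ x)) := rint_nonneg fun x => by
    have := rsq_nonneg (sub4 l x)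
    have h4 : 0 ≤ ζ x * ζ x := mul_self_nonneg _
    positivity
  have h5 : (fun x => V4 V l x * ζ x ^ 2) = fun x => V4 V l x * (ζ x * ζ x) := by
    funext x
    ring
  rw [h5]
  refine h1.trans ?_
  refine mul_le_mul_of_nonneg_left ?_ (by positivity)
  linarith

/-- Test functions are relatively integrable with everything bounded. -/
theorem RI_TF {ζ : (Fin 4 → R3) → ℝ} (hζ : TF ζ) {F : (Fin 4 → R3) → ℝ} (hF : Measurable F)
    {B : ℝ} (hB : ∀ x, |F x| ≤ B) : RI (fun x => F x * ζ x) :=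
  RI_TF' hζ hF hB

theorem RI_gg_TF {ζ ψ : (Fin 4 → R3) → ℝ} (hζ : TF ζ) (hψ : ContDiff ℝ 1 ψ) (ht : TI ψ) :
    RI (gg ψ ζ) := by
  obtain ⟨M, hM⟩ := hζ.supp
  refine RI_of_cont (M := M) (continuous_gg hψ hζ.c1) (TI_gg ht hζ.ti) fun x hx => ?_
  by_contra hc
  apply hx
  unfold gg
  refine Finset.sum_eq_zero fun m _ => Finset.sum_eq_zero fun a _ => ?_
  have : pd ζ m a x = 0 := by
    by_contra h
    exact hc (pd_eq_zero_of_rad hζ.c1 hM m a x h)
  rw [this, mul_zero]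

namespace FourA3Aux

/-- A smooth function of compact support and integral one. -/
theorem exists_bump : ∃ h : R3 → ℝ, ContDiff ℝ 1 h ∧ HasCompactSupport h ∧ Integrable h ∧
    ∫ c, h c = 1 := by
  let f : ContDiffBump (0 : R3) := ⟨1, 2, one_pos, one_lt_two⟩
  refine ⟨f.normed volume, f.contDiff_normed, f.hasCompactSupport_normed, ?_, f.integral_normed⟩
  exact f.integrable_normed

theorem norm_le_cm_rad {k : ℕ} (x : Fin (k + 1) → R3) : ‖x‖ ≤ ‖cm x‖ + rad x := by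
  rw [pi_norm_le_iff_of_nonneg (by positivity [norm_nonneg (cm x), rad_nonneg x])]
  intro m
  rw [pi_norm_le_iff_of_nonneg (by positivity [norm_nonneg (cm x), rad_nonneg x])]
  intro a
  have h1 := abs_sub_cm_le x m a
  have h2 := norm_le_pi_norm (cm x) a
  rw [Real.norm_eq_abs] at h2 ⊢
  have h3 : x m a = cm x a + (x m a - cm x a) := by ring
  rw [h3]
  exact (abs_add_le _ _).trans (add_le_add h2 h1)

theorem pd_comp_cm {k : ℕ} {h : R3 → ℝ} (hh : ContDiff ℝ 1 h) (m : Fin (k + 1)) (a : Fin 3)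
    (x : Fin (k + 1) → R3) :
    pd (fun x : Fin (k + 1) → R3 => h (cm x)) m a x =
      ((k + 1 : ℕ) : ℝ)⁻¹ * fderiv ℝ h (cm x) (Pi.single a 1) := by
  have h1 : HasFDerivAt h (fderiv ℝ h (cm x)) (cm x) :=
    (hh.differentiable one_ne_zero).differentiableAt.hasFDerivAt
  have h2 : DifferentiableAt ℝ (cm : (Fin (k + 1) → R3) → R3) x :=
    ((contDiff_cm (n := 1)).differentiable one_ne_zero) x
  have h3 : HasFDerivAt (fun x : Fin (k + 1) → R3 => h (cm x))
      ((fderiv ℝ h (cm x)).comp (fderiv ℝ cm x)) x := h1.comp x h2.hasFDerivAt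
  unfold pd
  rw [h3.fderiv, ContinuousLinearMap.comp_apply, ← smul_eq_mul, ← map_smul]
  congr 1
  funext a'
  have h4 : fderiv ℝ (cm : (Fin (k + 1) → R3) → R3) x (Pi.single m (Pi.single a 1)) a' =
      pd (fun x : Fin (k + 1) → R3 => cm x a') m a x := by
    unfold pd
    have h5 : HasFDerivAt (fun x : Fin (k + 1) → R3 => cm x a')
        ((ContinuousLinearMap.proj a').comp (fderiv ℝ cm x)) x := by
      have := (ContinuousLinearMap.proj (R := ℝ) (φ := fun _ : Fin 3 => ℝ) a').hasFDerivAt.comp x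
        h2.hasFDerivAt
      exact this
    rw [h5.fderiv]
    rfl
  rw [h4, pd_cm]
  by_cases h6 : a' = a
  · subst h6
    simp
  · simp [h6]

end FourA3Aux

/-- The relative weak equation from the full one: test with `z x = ζ x * h (cm x)`,
`h ∈ C_c^1`, `∫ h = 1`; `∑_m A_m·∇_m (ζ h(cm)) = h(cm) A·∇ζ + ζ (∑_m A_m)·(∇h)(cm)/(k+1)` and
`∑_m A_m = 0`; then `integral_weight`. -/
theorem rel_of_weak {k : ℕ} {A : Fin (k + 1) → Fin 3 → (Fin (k + 1) → R3) → ℝ}
    {B : (Fin (k + 1) → R3) → ℝ} (hAm : ∀ m a, Measurable (A m a)) (hAt : ∀ m a, TI (A m a))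
    (hAb : ∃ C, ∀ m a x, |A m a x| ≤ C) (hA0 : ∀ a x, ∑ m, A m a x = 0)
    (hBm : Measurable B) (hBt : TI B) (hBb : ∃ C, ∀ x, |B x| ≤ C)
    (h : ∀ z : (Fin (k + 1) → R3) → ℝ, ContDiff ℝ 1 z → HasCompactSupport z →
      ∫ x, ∑ m, ∑ a, A m a x * pd z m a x = ∫ x, B x * z x)
    {ζ : (Fin (k + 1) → R3) → ℝ} (hζ : TF ζ) :
    (rint fun x => ∑ m, ∑ a, A m a x * pd ζ m a x) = rint fun x => B x * ζ x := by
  obtain ⟨η, hη1, hηs, hηi, hη⟩ := exists_bump
  obtain ⟨CA, hCA⟩ := hAb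
  obtain ⟨CB, hCB⟩ := hBb
  have hcmc : ContDiff ℝ 1 (fun x : Fin (k + 1) → R3 => η (cm x)) := hη1.comp contDiff_cm
  have hz1 : ContDiff ℝ 1 fun x => η (cm x) * ζ x := hcmc.mul hζ.c1
  have hzs : HasCompactSupport fun x => η (cm x) * ζ x := by
    obtain ⟨R, hR⟩ := hζ.supp
    obtain ⟨R', hR'⟩ := hηs.isCompact.isBounded.exists_norm_le
    refine HasCompactSupport.intro (isCompact_closedBall (0 : Fin (k + 1) → R3) (R' + R))
      fun x hx => ?_
    by_contra hne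
    apply hx
    rw [mem_closedBall_zero_iff]
    have h1 : η (cm x) ≠ 0 := left_ne_zero_of_mul hne
    have h2 : ζ x ≠ 0 := right_ne_zero_of_mul hne
    have h3 := hR' (cm x) (subset_tsupport _ h1)
    have h4 := hR x h2
    exact (norm_le_cm_rad x).trans (add_le_add h3 h4)
  have h0 := h _ hz1 hzs
  have e1 : (fun x => ∑ m, ∑ a, A m a x * pd (fun x => η (cm x) * ζ x) m a x) =
      fun x => η (cm x) * ∑ m, ∑ a, A m a x * pd ζ m a x := by
    funext x
    have e2 : ∀ m a, A m a x * pd (fun x => η (cm x) * ζ x) m a x =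
        η (cm x) * (A m a x * pd ζ m a x) + A m a x *
          (((k + 1 : ℕ) : ℝ)⁻¹ * fderiv ℝ η (cm x) (Pi.single a 1) * ζ x) := by
      intro m a
      rw [pd_mul (hcmc.differentiable one_ne_zero x) (hζ.c1.differentiable one_ne_zero x),
        pd_comp_cm hη1]
      ring
    simp only [e2, Finset.sum_add_distrib, ← Finset.mul_sum]
    have e3 : ∑ m, ∑ a, A m a x *
        (((k + 1 : ℕ) : ℝ)⁻¹ * fderiv ℝ η (cm x) (Pi.single a 1) * ζ x) = 0 := by
      rw [Finset.sum_comm]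
      refine Finset.sum_eq_zero fun a _ => ?_
      rw [← Finset.sum_mul, hA0, zero_mul]
    rw [e3, add_zero]
  have e4 : (fun x => B x * (η (cm x) * ζ x)) = fun x => η (cm x) * (B x * ζ x) := by
    funext x
    ring
  rw [e1, e4] at h0
  have hcmm : Measurable (cm : (Fin (k + 1) → R3) → R3) := continuous_cm.measurable
  have hcms : ∀ (x : Fin (k + 1) → R3) (v : R3), cm (fun m => x m + v) = cm x + v :=
    fun x v => cm_shift (Nat.succ_ne_zero k) x v
  have hF1 : Measurable fun x => ∑ m, ∑ a, A m a x * pd ζ m a x :=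
    Finset.measurable_sum _ fun m _ => Finset.measurable_sum _ fun a _ =>
      (hAm m a).mul (continuous_pd hζ.c1 m a).measurable
  have hF1t : TI fun x => ∑ m, ∑ a, A m a x * pd ζ m a x := by
    intro x v
    refine Finset.sum_congr rfl fun m _ => Finset.sum_congr rfl fun a _ => ?_
    rw [hAt m a x v, TI_pd hζ.ti m a x v]
  have hF1i : RI fun x => ∑ m, ∑ a, A m a x * pd ζ m a x :=
    RI_sum _ _ fun m _ => RI_sum _ _ fun a _ => RI_TF_pd hζ (hAm m a) (hCA m a) m a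
  have hF2t : TI fun x => B x * ζ x := by
    intro x v
    show B _ * ζ _ = _
    rw [hBt x v, hζ.ti x v]
  have r1 := (integral_weight hF1 hF1t hF1i hcmm hcms hηi).2
  have hF2 : Measurable fun x => B x * ζ x := hBm.mul hζ.c1.continuous.measurable
  have r2 := (integral_weight hF2 hF2t (RI_TF' hζ hBm hCB) hcmm hcms hηi).2
  rw [hη, one_mul] at r1 r2
  rw [← r1, ← r2]
  exact h0

end Pool.Agent.Lib.MP_5db8e2_mp
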