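import Pool.Agent.Lib.MP_5db8e2_mp.FourA3

/-!
# The four-body variational problem
-/

set_option autoImplicit false

open MeasureTheory Filter Topology

namespace Pool.Agent.Lib.MP_5db8e2_mp

variable {V : R3 → R3 → ℝ} {φ : (Fin 3 → R3) → ℝ}

/-- The energy norm. -/
noncomputable def EE (V : R3 → R3 → ℝ) (ζ : (Fin 4 → R3) → ℝ) : ℝ :=
  rint fun x => gg ζ ζ x + ∑ l, V4 V l x * ζ x ^ 2

/-- The residual functional of the trial function `z`. -/
noncomputable def ell (V : R3 → R3 → ℝ) (φ : (Fin 3 → R3) → ℝ) (z ζ : (Fin 4 → R3) → ℝ) : ℝ :=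
  rint fun x => ∑ l, V4 V l x * s0 φ l x * ζ x - gg z ζ x - ∑ l, V4 V l x * z x * ζ x

namespace FourB1aux

theorem abs_s0_le {C : ℝ} (hb : ∀ x, |φ x| ≤ C / (1 + rad x) ^ 4) (l : Fin 4)
    (x : Fin 4 → R3) : |s0 φ l x| ≤ 3 * |C| := by
  have h1 : ∀ y : Fin 3 → R3, |φ y| ≤ |C| := by
    intro y
    refine (hb y).trans ?_
    have hr := rad_nonneg y
    have h2 : (1 : ℝ) ≤ (1 + rad y) ^ 4 := one_le_pow₀ (by linarith)
    calc C / (1 + rad y) ^ 4 ≤ |C| / (1 + rad y) ^ 4 := by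
          gcongr
          exact le_abs_self C
      _ ≤ |C| / 1 := by
          gcongr
      _ = |C| := div_one _
  unfold s0
  refine (Finset.abs_sum_le_sum_abs _ _).trans ?_
  refine (Finset.sum_le_card_nsmul _ _ |C| fun l' _ => h1 _).trans (le_of_eq ?_)
  rw [Finset.card_erase_of_mem (Finset.mem_univ l), Finset.card_univ, Fintype.card_fin]
  simp

theorem RI_Vs (hV : Pot V) {C : ℝ} (hm : Measurable φ)
    (hb : ∀ x, |φ x| ≤ C / (1 + rad x) ^ 4) {ζ : (Fin 4 → R3) → ℝ} (hζ : TF ζ) :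
    RI (k := 3) fun x => ∑ l, V4 V l x * s0 φ l x * ζ x := by
  obtain ⟨B, hB0, R, hR0, h⟩ := V4_props hV
  have h1 : RI (k := 3) fun x => (∑ l, V4 V l x * s0 φ l x) * ζ x := by
    refine RI_TF hζ (B := 4 * (B * (3 * |C|))) ?_ fun x => ?_
    · refine Finset.measurable_sum _ fun l _ => ?_
      exact (h l).1.mul (measurable_s0 hm l)
    · refine (Finset.abs_sum_le_sum_abs _ _).trans ?_
      refine (Finset.sum_le_card_nsmul _ _ (B * (3 * |C|)) fun l _ => ?_).trans (le_of_eq ?_)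
      · rw [abs_mul, abs_of_nonneg ((h l).2.2.1 x).1]
        exact mul_le_mul ((h l).2.2.1 x).2 (abs_s0_le hb l x) (abs_nonneg _) hB0.le
      · rw [Finset.card_univ, Fintype.card_fin]
        simp
  have e : (fun x => (∑ l, V4 V l x * s0 φ l x) * ζ x)
      = fun x => ∑ l, V4 V l x * s0 φ l x * ζ x := by
    funext x
    rw [Finset.sum_mul]
  rwa [e] at h1

theorem RI_Vz (hV : Pot V) {z ζ : (Fin 4 → R3) → ℝ} (hz : TF z) (hζ : TF ζ) (l : Fin 4) :
    RI (k := 3) fun x => V4 V l x * z x * ζ x := by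
  obtain ⟨B, hB0, R, hR0, h⟩ := V4_props hV
  obtain ⟨Rz, hRz⟩ := hz.supp
  obtain ⟨M, hM0, hM⟩ := rc_exists_bound_of_TI hz.c1.continuous hz.ti hRz
  refine RI_TF hζ (B := B * M) ((h l).1.mul hz.c1.continuous.measurable) fun x => ?_
  rw [abs_mul, abs_of_nonneg ((h l).2.2.1 x).1]
  exact mul_le_mul ((h l).2.2.1 x).2 (hM x) (abs_nonneg _) hB0.le

theorem RI_Vz_sum (hV : Pot V) {z ζ : (Fin 4 → R3) → ℝ} (hz : TF z) (hζ : TF ζ) :
    RI (k := 3) fun x => ∑ l, V4 V l x * z x * ζ x := by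
  unfold RI
  exact integrable_finset_sum _ fun l _ => RI_Vz hV hz hζ l

theorem RI_gg' {z ζ : (Fin 4 → R3) → ℝ} (hz : TF z) (hζ : TF ζ) : RI (k := 3) (gg z ζ) :=
  RI_gg_TF hζ hz.c1 hz.ti

theorem RI_E (hV : Pot V) {ζ : (Fin 4 → R3) → ℝ} (hζ : TF ζ) :
    RI (k := 3) fun x => gg ζ ζ x + ∑ l, V4 V l x * ζ x ^ 2 := by
  have h := RI_Vz_sum hV hζ hζ
  have e : (fun x => ∑ l, V4 V l x * ζ x * ζ x) = fun x => ∑ l, V4 V l x * ζ x ^ 2 := by
    funext x
    refine Finset.sum_congr rfl fun l _ => ?_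
    ring
  rw [e] at h
  exact (RI_gg' hζ hζ).add h

theorem RI_ell (hV : Pot V) {C : ℝ} (hm : Measurable φ)
    (hb : ∀ x, |φ x| ≤ C / (1 + rad x) ^ 4) {z ζ : (Fin 4 → R3) → ℝ} (hz : TF z) (hζ : TF ζ) :
    RI (k := 3) fun x => ∑ l, V4 V l x * s0 φ l x * ζ x - gg z ζ x
      - ∑ l, V4 V l x * z x * ζ x :=
  ((RI_Vs hV hm hb hζ).sub (RI_gg' hz hζ)).sub (RI_Vz_sum hV hz hζ)

theorem RI_J (hV : Pot V) {C : ℝ} (hm : Measurable φ)
    (hb : ∀ x, |φ x| ≤ C / (1 + rad x) ^ 4) {z : (Fin 4 → R3) → ℝ} (hz : TF z) :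
    RI (k := 3) fun x => 2 * ∑ l, V4 V l x * s0 φ l x * z x - gg z z x
      - ∑ l, V4 V l x * z x ^ 2 := by
  have h := RI_Vz_sum hV hz hz
  have e : (fun x => ∑ l, V4 V l x * z x * z x) = fun x => ∑ l, V4 V l x * z x ^ 2 := by
    funext x
    refine Finset.sum_congr rfl fun l _ => ?_
    ring
  rw [e] at h
  exact (((RI_Vs hV hm hb hz).const_mul 2).sub (RI_gg' hz hz)).sub h

theorem TF_zero : TF (fun _ : Fin 4 → R3 => (0 : ℝ)) :=
  ⟨contDiff_const, fun _ _ => rfl, 0, fun _ hx => absurd rfl hx⟩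

theorem EE_nonneg (hV : Pot V) (ζ : (Fin 4 → R3) → ℝ) : 0 ≤ EE V ζ := by
  obtain ⟨B, hB0, R, hR0, h⟩ := V4_props hV
  refine rint_nonneg fun x => add_nonneg (gg_self_nonneg x) ?_
  exact Finset.sum_nonneg fun l _ => mul_nonneg ((h l).2.2.1 x).1 (sq_nonneg _)

end FourB1aux

open FourB1aux

/-- The functional is bounded above: `2 V s ψ - V ψ² ≤ V s²`. -/
theorem calS_bdd (hV : Pot V) {C : ℝ} (hm : Measurable φ)
    (hb : ∀ x, |φ x| ≤ C / (1 + rad x) ^ 4) :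
    BddAbove {J | ∃ ψ, TF ψ ∧ J = J4 V φ ψ} := by
  obtain ⟨B, hB0, R, hR0, h⟩ := V4_props hV
  have hs : RI (k := 3) fun x => ∑ l, V4 V l x * s0 φ l x ^ 2 := by
    unfold RI
    exact integrable_finset_sum _ fun l _ => RI_V4_s0_sq hV hm hb l
  refine ⟨rint (k := 3) fun x => ∑ l, V4 V l x * s0 φ l x ^ 2, ?_⟩
  rintro J ⟨ψ, hψ, rfl⟩
  refine rint_mono (RI_J hV hm hb hψ) hs fun x => ?_
  have h1 := gg_self_nonneg (φ := ψ) x
  have h2 : 2 * ∑ l, V4 V l x * s0 φ l x * ψ x - ∑ l, V4 V l x * ψ x ^ 2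
      ≤ ∑ l, V4 V l x * s0 φ l x ^ 2 := by
    rw [Finset.mul_sum, ← Finset.sum_sub_distrib]
    refine Finset.sum_le_sum fun l _ => ?_
    have := mul_nonneg ((h l).2.2.1 x).1 (sq_nonneg (s0 φ l x - ψ x))
    nlinarith
  linarith

/-- `J4 (z + tζ) = J4 z + 2 t ell z ζ - t² EE ζ`. -/
theorem J4_add (hV : Pot V) {C : ℝ} (hm : Measurable φ)
    (hb : ∀ x, |φ x| ≤ C / (1 + rad x) ^ 4) {z ζ : (Fin 4 → R3) → ℝ} (hz : TF z) (hζ : TF ζ)
    (t : ℝ) : J4 V φ (fun x => z x + t * ζ x) = J4 V φ z + 2 * t * ell V φ z ζ - t ^ 2 * EE V ζ := by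
  have e : (fun x => 2 * ∑ l, V4 V l x * s0 φ l x * (z x + t * ζ x)
        - gg (fun x => z x + t * ζ x) (fun x => z x + t * ζ x) x
        - ∑ l, V4 V l x * (z x + t * ζ x) ^ 2)
      = fun x => ((2 * ∑ l, V4 V l x * s0 φ l x * z x - gg z z x - ∑ l, V4 V l x * z x ^ 2)
        + (2 * t) * (∑ l, V4 V l x * s0 φ l x * ζ x - gg z ζ x - ∑ l, V4 V l x * z x * ζ x))
        - t ^ 2 * (gg ζ ζ x + ∑ l, V4 V l x * ζ x ^ 2) := by
    funext x
    have hc : ContDiff ℝ 1 (fun x => t * ζ x) := contDiff_const.mul hζ.c1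
    have hc2 : ContDiff ℝ 1 (fun x => z x + t * ζ x) := hz.c1.add hc
    have g1 : gg (fun x => z x + t * ζ x) (fun x => z x + t * ζ x) x
        = gg z z x + 2 * t * gg z ζ x + t ^ 2 * gg ζ ζ x := by
      rw [gg_add_left hz.c1 hc, gg_add_right hz.c1 hc, gg_add_right hz.c1 hc,
        gg_const_mul_right hζ.c1, gg_const_mul_left hζ.c1, gg_const_mul_left hζ.c1,
        gg_const_mul_right hζ.c1, gg_comm (φ := ζ) (ψ := z)]
      ring
    have s1 : ∑ l, V4 V l x * s0 φ l x * (z x + t * ζ x)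
        = ∑ l, V4 V l x * s0 φ l x * z x + t * ∑ l, V4 V l x * s0 φ l x * ζ x := by
      rw [Finset.mul_sum, ← Finset.sum_add_distrib]
      refine Finset.sum_congr rfl fun l _ => ?_
      ring
    have s2 : ∑ l, V4 V l x * (z x + t * ζ x) ^ 2
        = ∑ l, V4 V l x * z x ^ 2 + 2 * t * ∑ l, V4 V l x * z x * ζ x
          + t ^ 2 * ∑ l, V4 V l x * ζ x ^ 2 := by
      rw [Finset.mul_sum, Finset.mul_sum, ← Finset.sum_add_distrib, ← Finset.sum_add_distrib]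
      refine Finset.sum_congr rfl fun l _ => ?_
      ring
    rw [g1, s1, s2]
    ring
  have r1 := RI_J hV hm hb hz
  have r2 := RI_ell hV hm hb hz hζ
  have r3 := RI_E hV hζ
  unfold J4 ell EE
  rw [e, rint_sub (r1.add (r2.const_mul (2 * t))) (r3.const_mul (t ^ 2)),
    rint_add r1 (r2.const_mul (2 * t)), rint_const_mul, rint_const_mul]

/-- `J4 z = 2 ell z z + EE z`. -/
theorem J4_eq (hV : Pot V) {C : ℝ} (hm : Measurable φ)
    (hb : ∀ x, |φ x| ≤ C / (1 + rad x) ^ 4) {z : (Fin 4 → R3) → ℝ} (hz : TF z) :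
    J4 V φ z = 2 * ell V φ z z + EE V z := by
  have r2 := RI_ell hV hm hb hz hz
  have r3 := RI_E hV hz
  unfold J4 ell EE
  rw [← rint_const_mul, ← rint_add (r2.const_mul 2) r3]
  congr 1
  funext x
  have s2 : ∑ l, V4 V l x * z x * z x = ∑ l, V4 V l x * z x ^ 2 := by
    refine Finset.sum_congr rfl fun l _ => ?_
    ring
  rw [s2]
  ring

/-- **Near-optimal trial functions.** Take `z` with `J4 z ≥ calS - η'`; from
`J4 (z + tζ) ≤ calS` for all `t`: `ell z ζ² ≤ η' EE ζ ≤ η' (1 + 4C) rint (gg ζ ζ)` (`hardyV`);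
`EE z = J4 z - 2 ell z z` and `|ell z z| ≤ (η' EE z)^{1/2}`. -/
theorem exists_opt (hV : Pot V) {C : ℝ} (hm : Measurable φ)
    (hb : ∀ x, |φ x| ≤ C / (1 + rad x) ^ 4) {η : ℝ} (hη : 0 < η) : ∃ z, TF z ∧
      (∀ ζ, TF ζ → ell V φ z ζ ^ 2 ≤ η * rint (gg ζ ζ)) ∧ |EE V z - calS V φ| ≤ η := by
  obtain ⟨Ch, hCh, hH⟩ := hardyV hV
  have hbd := calS_bdd hV hm hb
  set S := calS V φ with hS
  have hne : {J | ∃ ψ, TF ψ ∧ J = J4 V φ ψ}.Nonempty := ⟨_, _, TF_zero, rfl⟩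
  set η' : ℝ := min (min (η / (1 + 4 * Ch)) (η / 2)) (min 1 (η ^ 2 / (16 * (2 * |S| + 4))))
    with hη'
  have hη'0 : 0 < η' := by
    have := abs_nonneg S
    refine lt_min (lt_min ?_ ?_) (lt_min one_pos ?_) <;> positivity
  have e1 : η' ≤ η / (1 + 4 * Ch) := (min_le_left _ _).trans (min_le_left _ _)
  have e2 : η' ≤ η / 2 := (min_le_left _ _).trans (min_le_right _ _)
  have e3 : η' ≤ 1 := (min_le_right _ _).trans (min_le_left _ _)
  have e4 : η' ≤ η ^ 2 / (16 * (2 * |S| + 4)) := (min_le_right _ _).trans (min_le_right _ _)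
  obtain ⟨J, ⟨z, hz, rfl⟩, hJ⟩ := exists_lt_of_lt_csSup hne (show S - η' < sSup _ by
    rw [hS]; unfold calS at *; linarith)
  have hle : ∀ ψ, TF ψ → J4 V φ ψ ≤ S := fun ψ hψ => le_csSup hbd ⟨ψ, hψ, rfl⟩
  have hell : ∀ ζ, TF ζ → ell V φ z ζ ^ 2 ≤ η' * EE V ζ := by
    intro ζ hζ
    have hq : ∀ t : ℝ, 0 ≤ EE V ζ * (t * t) + (-2 * ell V φ z ζ) * t + η' := by
      intro t
      have h1 := hle _ (hz.add (hζ.const_mul t))
      rw [J4_add hV hm hb hz hζ] at h1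
      nlinarith
    have hd := discrim_le_zero hq
    unfold discrim at hd
    nlinarith
  have hE : ∀ ζ, TF ζ → EE V ζ ≤ (1 + 4 * Ch) * rint (k := 3) (gg ζ ζ) := by
    intro ζ hζ
    have hr : ∀ l, RI (k := 3) fun x => V4 V l x * ζ x ^ 2 := by
      intro l
      have h := RI_Vz hV hζ hζ l
      have e : (fun x => V4 V l x * ζ x * ζ x) = fun x => V4 V l x * ζ x ^ 2 := by
        funext x
        ring
      rwa [e] at h
    have hr' : RI (k := 3) fun x => ∑ l, V4 V l x * ζ x ^ 2 := by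
      unfold RI
      exact integrable_finset_sum _ fun l _ => hr l
    unfold EE
    rw [rint_add (RI_gg' hζ hζ) hr', rint_sum _ _ fun l _ => hr l]
    have h2 : ∑ l : Fin 4, (rint (k := 3) fun x => V4 V l x * ζ x ^ 2)
        ≤ 4 * (Ch * rint (k := 3) (gg ζ ζ)) := by
      refine (Finset.sum_le_card_nsmul _ _ _ fun l _ => hH ζ hζ l).trans (le_of_eq ?_)
      rw [Finset.card_univ, Fintype.card_fin]
      simp
    linarith
  refine ⟨z, hz, fun ζ hζ => ?_, ?_⟩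
  · have hg : 0 ≤ rint (k := 3) (gg ζ ζ) := rint_nonneg fun x => gg_self_nonneg x
    calc ell V φ z ζ ^ 2 ≤ η' * EE V ζ := hell ζ hζ
      _ ≤ η' * ((1 + 4 * Ch) * rint (k := 3) (gg ζ ζ)) :=
          mul_le_mul_of_nonneg_left (hE ζ hζ) hη'0.le
      _ ≤ (η / (1 + 4 * Ch)) * ((1 + 4 * Ch) * rint (k := 3) (gg ζ ζ)) := by
          gcongr
      _ = η * rint (k := 3) (gg ζ ζ) := by
          field_simp
  · have hJe := J4_eq hV hm hb hz
    have hzle := hle z hz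
    have hEn := EE_nonneg hV z
    have hl := hell z hz
    set a := ell V φ z z with ha
    set E := EE V z with hEd
    have hSle := le_abs_self S
    have hSn := abs_nonneg S
    have h1 : E ≤ 2 * |S| + 4 := by
      have h2 : a ^ 2 ≤ E := hl.trans (by nlinarith)
      nlinarith [sq_nonneg (a + 2), sq_nonneg (a - 2)]
    have h3 : 4 * a ^ 2 ≤ (η / 2) ^ 2 := by
      have h4 : η' * E ≤ η ^ 2 / (16 * (2 * |S| + 4)) * (2 * |S| + 4) :=
        mul_le_mul e4 h1 hEn (by positivity)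
      have h5 : η ^ 2 / (16 * (2 * |S| + 4)) * (2 * |S| + 4) = η ^ 2 / 16 := by
        field_simp
      nlinarith
    have h6 : |2 * a| ≤ η / 2 := by
      apply abs_le_of_sq_le_sq _ (by positivity)
      nlinarith
    rw [abs_le] at h6 ⊢
    constructor <;> linarith

end Pool.Agent.Lib.MP_5db8e2_mp
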