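import Pool.Agent.Lib.MP_5db8e2_mp.NewtB

/-!
# The Newton potential: decay, positivity, symmetry
-/

set_option autoImplicit false

open MeasureTheory Filter Topology

namespace Pool.Agent.Lib.MP_5db8e2_mp

variable {k : ℕ}

/-- General decay estimate for a kernel bounded by a power of the radius. -/
theorem NewtC_decay_aux (hk : 0 < k) {R : ℝ} (hR : 0 ≤ R) {p : ℕ} (hp : p < 3 * k) {A : ℝ}
    (hA : 0 < A) : ∃ C > 0, ∀ (B : ℝ) (ϱ K : (Fin (k + 1) → R3) → ℝ), Chg B R ϱ →
      (∀ z, |K z| ≤ A * (rad z ^ p)⁻¹) → ∀ x,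
      |rint fun y => K (x - y) * ϱ y| ≤ C * B / (1 + rad x) ^ p := by
  obtain ⟨C1, hC1, h1⟩ := rint_rad_inv_le hk hp
  obtain ⟨C2, hC2, h2⟩ := rint_ball_le (k := k)
  set R1 : ℝ := R + 1 with hR1
  have hR1p : 0 < R1 := by linarith
  refine ⟨A * C1 * (3 * R1) ^ (3 * k - p) * (1 + 2 * R1) ^ p + A * 3 ^ p * (C2 * R1 ^ (3 * k)),
    by positivity, ?_⟩
  intro B ϱ K hϱ hK x
  have hB : 0 ≤ B := (abs_nonneg _).trans (hϱ.bd x)
  have hx0 := rad_nonneg x
  have hpos : 0 < (1 + rad x) ^ p := by positivity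
  rw [le_div_iff₀ hpos]
  by_cases hx : rad x ≤ 2 * R1
  · -- near
    set g : (Fin (k + 1) → R3) → ℝ := fun z => if rad z ≤ 3 * R1 then (rad z ^ p)⁻¹ else 0 with hg
    have hgRI : RI g := RI_rad_inv hk hp (3 * R1)
    have hgTI : TI g := by
      intro z v
      simp only [hg]
      rw [TI_rad z v]
    have hg0 : ∀ z, 0 ≤ g z := by
      intro z
      simp only [hg]
      have := rad_nonneg z
      split_ifs <;> positivity
    have hb : ∀ y, |K (x - y) * ϱ y| ≤ (A * B) * g (y + -x) := by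
      intro y
      by_cases hy : ϱ y = 0
      · rw [hy, mul_zero, abs_zero]
        have := hg0 (y + -x)
        positivity
      · have hyR := hϱ.supp y hy
        have hr : rad (x - y) ≤ 3 * R1 := by
          have h := rad_add_le x (-y)
          rw [rad_neg, ← sub_eq_add_neg] at h
          linarith
        have e : g (y + -x) = (rad (x - y) ^ p)⁻¹ := by
          simp only [hg]
          rw [← sub_eq_add_neg, rad_sub_comm y x, if_pos hr]
        rw [e, abs_mul]
        have h3 : (0 : ℝ) ≤ (rad (x - y) ^ p)⁻¹ := by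
          have := rad_nonneg (x - y)
          positivity
        calc |K (x - y)| * |ϱ y| ≤ (A * (rad (x - y) ^ p)⁻¹) * B :=
              mul_le_mul (hK _) (hϱ.bd y) (abs_nonneg _) (by positivity)
          _ = _ := by ring
    have hRI : RI fun y => (A * B) * g (y + -x) := (RI_add_right hgTI hgRI (-x)).const_mul _
    have h4 := abs_rint_le hRI hb
    rw [rint_const_mul, rint_add_right hgTI] at h4
    have h5 := h1 (3 * R1) (by positivity)
    have h6 : (1 + rad x) ^ p ≤ (1 + 2 * R1) ^ p := by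
      apply pow_le_pow_left₀ (by linarith)
      linarith
    have h7 : |rint fun y => K (x - y) * ϱ y| ≤ A * B * (C1 * (3 * R1) ^ (3 * k - p)) :=
      h4.trans (mul_le_mul_of_nonneg_left h5 (by positivity))
    calc |rint fun y => K (x - y) * ϱ y| * (1 + rad x) ^ p
        ≤ (A * B * (C1 * (3 * R1) ^ (3 * k - p))) * (1 + 2 * R1) ^ p :=
          mul_le_mul h7 h6 hpos.le (by positivity)
      _ ≤ _ := by
          have : 0 ≤ A * 3 ^ p * (C2 * R1 ^ (3 * k)) * B := by positivity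
          nlinarith
  · -- far
    rw [not_le] at hx
    set g : (Fin (k + 1) → R3) → ℝ := fun z => if rad z ≤ R1 then (1 : ℝ) else 0 with hg
    have hgRI : RI g := RI_ball R1
    have hg0 : ∀ z, 0 ≤ g z := by
      intro z
      simp only [hg]
      split_ifs <;> norm_num
    have hb : ∀ y, |K (x - y) * ϱ y| ≤ (A * B * (3 ^ p / (1 + rad x) ^ p)) * g y := by
      intro y
      by_cases hy : ϱ y = 0
      · rw [hy, mul_zero, abs_zero]
        have := hg0 y
        positivity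
      · have hyR := hϱ.supp y hy
        have hyR1 : rad y ≤ R1 := by linarith
        have hr : (1 + rad x) / 3 ≤ rad (x - y) := by
          have h := rad_add_le (x - y) y
          rw [sub_add_cancel] at h
          linarith
        have e : g y = 1 := by
          simp only [hg]
          rw [if_pos hyR1]
        rw [e, abs_mul, mul_one]
        have h3 : (rad (x - y) ^ p)⁻¹ ≤ 3 ^ p / (1 + rad x) ^ p := by
          have h31 : ((1 + rad x) / 3) ^ p ≤ rad (x - y) ^ p :=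
            pow_le_pow_left₀ (by positivity) hr p
          have h32 : 0 < ((1 + rad x) / 3) ^ p := by positivity
          calc (rad (x - y) ^ p)⁻¹ ≤ (((1 + rad x) / 3) ^ p)⁻¹ := inv_anti₀ h32 h31
            _ = _ := by rw [div_pow, inv_div]
        have h30 : (0 : ℝ) ≤ (rad (x - y) ^ p)⁻¹ := by
          have := rad_nonneg (x - y)
          positivity
        calc |K (x - y)| * |ϱ y| ≤ (A * (rad (x - y) ^ p)⁻¹) * B :=
              mul_le_mul (hK _) (hϱ.bd y) (abs_nonneg _) (by positivity)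
          _ = A * B * (rad (x - y) ^ p)⁻¹ := by ring
          _ ≤ _ := mul_le_mul_of_nonneg_left h3 (by positivity)
    have h4 := abs_rint_le (hgRI.const_mul _) hb
    rw [rint_const_mul] at h4
    have h5 := h2 R1 hR1p
    have h7 : |rint fun y => K (x - y) * ϱ y| ≤
        A * B * (3 ^ p / (1 + rad x) ^ p) * (C2 * R1 ^ (3 * k)) :=
      h4.trans (mul_le_mul_of_nonneg_left h5 (by positivity))
    calc |rint fun y => K (x - y) * ϱ y| * (1 + rad x) ^ p
        ≤ (A * B * (3 ^ p / (1 + rad x) ^ p) * (C2 * R1 ^ (3 * k))) * (1 + rad x) ^ p :=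
          mul_le_mul_of_nonneg_right h7 hpos.le
      _ = A * 3 ^ p * (C2 * R1 ^ (3 * k)) * B := by
          field_simp
      _ ≤ _ := by
          have : 0 ≤ A * C1 * (3 * R1) ^ (3 * k - p) * (1 + 2 * R1) ^ p * B := by positivity
          nlinarith

theorem NewtC_abs_GE (hk : 0 < k) (z : Fin (k + 1) → R3) :
    |GE 0 z| ≤ cN k * (rad z ^ (3 * k - 2))⁻¹ := by
  rcases (rad_nonneg z).lt_or_eq with h | h
  · exact GE_le hk 0 h
  · unfold GE
    rw [radE_zero, ← h, zero_pow (by omega)]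
    simp

theorem NewtC_abs_DE (hk : 0 < k) (m : Fin (k + 1)) (a : Fin 3) (z : Fin (k + 1) → R3) :
    |DE 0 m a z| ≤ cN k * (3 * k) * (rad z ^ (3 * k - 1))⁻¹ := by
  rcases (rad_nonneg z).lt_or_eq with h | h
  · exact abs_DE_le hk 0 h m a
  · unfold DE
    rw [radE_zero, ← h, zero_pow (by omega), zero_pow (by omega)]
    simp

theorem NewtC_GE_nonneg (hk : 0 < k) (z : Fin (k + 1) → R3) : 0 ≤ GE 0 z := by
  unfold GE
  have h1 := cN_pos hk
  rw [radE_zero]
  have h2 := rad_nonneg z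
  positivity

/-- Decay of the potential and of its gradient. For `rad x ≥ 2R`, `rad (x - y) ≥ rad x / 2` on the
support; for `rad x ≤ 2R` use the local integrability of the kernels (`rint_rad_inv_le`). -/
theorem Newt_decay (hk : 0 < k) {R : ℝ} (hR : 0 ≤ R) : ∃ C > 0, ∀ (B : ℝ)
    (ϱ : (Fin (k + 1) → R3) → ℝ), Chg B R ϱ → ∀ x,
      |Newt ϱ x| ≤ C * B / (1 + rad x) ^ (3 * k - 2) ∧
      ∀ m a, |pd (Newt ϱ) m a x| ≤ C * B / (1 + rad x) ^ (3 * k - 1) := by
  have hc := cN_pos hk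
  obtain ⟨C1, hC1, h1⟩ := NewtC_decay_aux hk hR (p := 3 * k - 2) (by omega) hc
  have hk' : (0 : ℝ) < k := by exact_mod_cast hk
  obtain ⟨C2, hC2, h2⟩ := NewtC_decay_aux hk hR (p := 3 * k - 1) (by omega)
    (A := cN k * (3 * k)) (by positivity)
  refine ⟨max C1 C2, lt_max_of_lt_left hC1, ?_⟩
  intro B ϱ hϱ x
  have hB : 0 ≤ B := (abs_nonneg _).trans (hϱ.bd x)
  have hx0 := rad_nonneg x
  constructor
  · refine (h1 B ϱ (GE 0) hϱ (NewtC_abs_GE hk) x).trans ?_
    gcongr
    exact le_max_left _ _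
  · intro m a
    rw [(contDiff_Newt hk hϱ).2 m a x]
    refine (h2 B ϱ (DE 0 m a) hϱ (NewtC_abs_DE hk m a) x).trans ?_
    gcongr
    exact le_max_right _ _

theorem Newt_nonneg (hk : 0 < k) {ϱ : (Fin (k + 1) → R3) → ℝ} (h : ∀ x, 0 ≤ ϱ x)
    (x : Fin (k + 1) → R3) : 0 ≤ Newt ϱ x := by
  unfold Newt NewtE
  exact rint_nonneg fun y => mul_nonneg (NewtC_GE_nonneg hk _) (h y)

theorem Newt_mono (hk : 0 < k) {B R : ℝ} {ϱ ϱ' : (Fin (k + 1) → R3) → ℝ} (h : Chg B R ϱ)
    (h' : Chg B R ϱ') (hle : ∀ x, ϱ x ≤ ϱ' x) (x : Fin (k + 1) → R3) :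
    Newt ϱ x ≤ Newt ϱ' x := by
  unfold Newt NewtE
  exact rint_mono (RI_GE_mul hk 0 h x) (RI_GE_mul hk 0 h' x) fun y =>
    mul_le_mul_of_nonneg_left (hle y) (NewtC_GE_nonneg hk _)

theorem Newt_add (hk : 0 < k) {B R : ℝ} {ϱ ϱ' : (Fin (k + 1) → R3) → ℝ} (h : Chg B R ϱ)
    (h' : Chg B R ϱ') (x : Fin (k + 1) → R3) :
    Newt (fun y => ϱ y + ϱ' y) x = Newt ϱ x + Newt ϱ' x := by
  unfold Newt NewtE
  rw [← rint_add (RI_GE_mul hk 0 h x) (RI_GE_mul hk 0 h' x)]
  congr 1
  funext y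
  ring

theorem Newt_const_mul (c : ℝ) (ϱ : (Fin (k + 1) → R3) → ℝ) (x : Fin (k + 1) → R3) :
    Newt (fun y => c * ϱ y) x = c * Newt ϱ x := by
  unfold Newt NewtE
  rw [← rint_const_mul]
  congr 1
  funext y
  ring

theorem Newt_perm {ϱ : (Fin (k + 1) → R3) → ℝ} (hm : Measurable ϱ) (ht : TI ϱ) (σ : Equiv.Perm (Fin (k + 1)))
    (x : Fin (k + 1) → R3) : Newt ϱ (x ∘ σ) = Newt (fun y => ϱ (y ∘ σ)) x := by
  unfold Newt NewtE
  have hF : Measurable fun z : Fin (k + 1) → R3 => GE 0 (x ∘ σ - z) * ϱ z :=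
    ((measurable_GE 0).comp (measurable_const.sub measurable_id)).mul hm
  have hT : TI fun z : Fin (k + 1) → R3 => GE 0 (x ∘ σ - z) * ϱ z := by
    intro z v
    have e1 := ht z v
    have e2 := TI_GE 0 (x ∘ σ - z) (-v)
    have e3 : (x ∘ σ - fun m => z m + v) = fun m => (x ∘ σ - z) m + -v := by
      funext m
      simp only [Pi.sub_apply]
      abel
    simp only [e1, e3, e2]
  rw [← rint_perm hF hT σ]
  congr 1
  funext y
  have e4 : (x ∘ σ - y ∘ σ) = (x - y) ∘ σ := rfl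
  rw [e4]
  congr 1
  unfold GE radE
  rw [PI_rsq σ (x - y)]

end Pool.Agent.Lib.MP_5db8e2_mp
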