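import Pool.Agent.Lib.MP_5db8e2_mp.NewtA

/-!
# The Newton potential is continuously differentiable
-/

set_option autoImplicit false

open MeasureTheory Filter Topology

namespace Pool.Agent.Lib.MP_5db8e2_mp

variable {k : ℕ}

/-! ### Linear forms -/

/-- The linear form with given coefficients. -/
noncomputable def clF {n : ℕ} (c : Fin n → Fin 3 → ℝ) : (Fin n → R3) →L[ℝ] ℝ :=
  ∑ m, ∑ a, c m a • (ContinuousLinearMap.proj a : R3 →L[ℝ] ℝ).comp
    (ContinuousLinearMap.proj m : (Fin n → R3) →L[ℝ] R3)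

theorem clF_apply {n : ℕ} (c : Fin n → Fin 3 → ℝ) (v : Fin n → R3) :
    clF c v = ∑ m, ∑ a, c m a * v m a := by
  simp [clF]

theorem clF_single {n : ℕ} (c : Fin n → Fin 3 → ℝ) (m : Fin n) (a : Fin 3) :
    clF c (Pi.single m (Pi.single a 1)) = c m a := by
  rw [clF_apply, Finset.sum_eq_single m, Finset.sum_eq_single a]
  · simp
  · intro b _ hb
    simp [Pi.single_eq_of_ne hb]
  · simp
  · intro j _ hj
    refine Finset.sum_eq_zero fun b _ => ?_
    simp [Pi.single_eq_of_ne hj]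
  · simp

theorem eq_clF {n : ℕ} (L : (Fin n → R3) →L[ℝ] ℝ) :
    L = clF (fun m a => L (Pi.single m (Pi.single a 1))) := by
  ext v
  have hv : v = ∑ m : Fin n, ∑ a : Fin 3,
      v m a • (Pi.single m (Pi.single a (1 : ℝ) : R3) : Fin n → R3) := by
    funext i
    rw [Finset.sum_apply, Finset.sum_eq_single i]
    · funext b
      rw [Finset.sum_apply, Finset.sum_apply, Finset.sum_eq_single b]
      · simp
      · intro c _ hc
        simp [Pi.single_eq_of_ne (Ne.symm hc)]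
      · simp
    · intro j _ hj
      rw [Finset.sum_apply]
      refine Finset.sum_eq_zero (fun c _ => ?_)
      simp [Pi.single_eq_of_ne (Ne.symm hj)]
    · simp
  rw [clF_apply]
  conv_lhs => rw [hv]
  rw [map_sum]
  refine Finset.sum_congr rfl (fun m _ => ?_)
  rw [map_sum]
  refine Finset.sum_congr rfl (fun a _ => ?_)
  rw [map_smul, smul_eq_mul, mul_comm]

theorem norm_clF_le {n : ℕ} (c : Fin n → Fin 3 → ℝ) : ‖clF c‖ ≤ ∑ m, ∑ a, |c m a| := by
  refine ContinuousLinearMap.opNorm_le_bound _ (Finset.sum_nonneg fun _ _ =>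
    Finset.sum_nonneg fun _ _ => abs_nonneg _) fun v => ?_
  rw [clF_apply, Finset.sum_mul]
  refine (norm_sum_le _ _).trans (Finset.sum_le_sum fun m _ => ?_)
  rw [Finset.sum_mul]
  refine (norm_sum_le _ _).trans (Finset.sum_le_sum fun a _ => ?_)
  rw [norm_mul, Real.norm_eq_abs]
  exact mul_le_mul_of_nonneg_left ((norm_le_pi_norm (v m) a).trans (norm_le_pi_norm v m))
    (abs_nonneg _)

theorem clF_sub {n : ℕ} (c d : Fin n → Fin 3 → ℝ) :
    clF c - clF d = clF fun m a => c m a - d m a := by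
  ext v
  rw [sub_apply, clF_apply, clF_apply, clF_apply, ← Finset.sum_sub_distrib]
  refine Finset.sum_congr rfl fun m _ => ?_
  rw [← Finset.sum_sub_distrib]
  exact Finset.sum_congr rfl fun a _ => by ring

theorem fderiv_eq_clF {n : ℕ} (φ : (Fin n → R3) → ℝ) (x : Fin n → R3) :
    fderiv ℝ φ x = clF fun m a => pd φ m a x := eq_clF _

theorem continuous_clF {n : ℕ} {X : Type*} [TopologicalSpace X] {g : Fin n → Fin 3 → X → ℝ}
    (hg : ∀ m a, Continuous (g m a)) : Continuous fun x => clF fun m a => g m a x := by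
  unfold clF
  exact continuous_finsetSum _ fun m _ => continuous_finsetSum _ fun a _ =>
    (hg m a).smul continuous_const

theorem contDiff_of_clF {n : ℕ} {u : (Fin n → R3) → ℝ} {g : Fin n → Fin 3 → (Fin n → R3) → ℝ}
    (h : ∀ x, HasFDerivAt u (clF fun m a => g m a x) x) (hg : ∀ m a, Continuous (g m a)) :
    ContDiff ℝ 1 u ∧ ∀ m a x, pd u m a x = g m a x := by
  constructor
  · rw [contDiff_one_iff_fderiv]
    refine ⟨fun x => (h x).differentiableAt, ?_⟩
    have h1 : fderiv ℝ u = fun x => clF fun m a => g m a x := funext fun x => (h x).fderiv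
    rw [h1]
    exact continuous_clF hg
  · intro m a x
    unfold pd
    rw [(h x).fderiv, clF_single]

/-! ### Bounds -/

theorem abs_GE_bdd (hk : 0 < k) {ε : ℝ} (hε : 0 < ε) (x : Fin (k + 1) → R3) :
    |GE ε x| ≤ cN k * (ε ^ (3 * k - 2))⁻¹ := by
  have h1 := le_radE hε.le x
  have h2 := cN_pos hk
  have h3 := radE_pos hε x
  unfold GE
  rw [abs_of_nonneg (by positivity)]
  gcongr

theorem abs_DE_bdd (hk : 0 < k) {ε : ℝ} (hε : 0 < ε) (m : Fin (k + 1)) (a : Fin 3)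
    (x : Fin (k + 1) → R3) : |DE ε m a x| ≤ cN k * (3 * k) * (ε ^ (3 * k - 1))⁻¹ := by
  have h1 := le_radE hε.le x
  have h2 := cN_pos hk
  have h3 := radE_pos hε x
  have h4 := (abs_sub_cm_le x m a).trans (rad_le_radE ε x)
  have h5 := three_k_sub_pos hk
  unfold DE
  rw [abs_mul, abs_mul, abs_neg, abs_of_pos (by positivity : 0 < cN k * (3 * (k : ℝ) - 2)),
    abs_of_nonneg (by positivity : 0 ≤ (radE ε x ^ (3 * k))⁻¹)]
  calc cN k * (3 * k - 2) * |x m a - cm x a| * (radE ε x ^ (3 * k))⁻¹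
      ≤ cN k * (3 * k) * radE ε x * (radE ε x ^ (3 * k))⁻¹ := by
        gcongr
        linarith
    _ = cN k * (3 * k) * (radE ε x ^ (3 * k - 1))⁻¹ := by
      obtain ⟨j, hj⟩ : ∃ j, 3 * k = j + 1 := ⟨3 * k - 1, by omega⟩
      rw [hj, Nat.add_sub_cancel, pow_succ, mul_inv]
      field_simp
    _ ≤ cN k * (3 * k) * (ε ^ (3 * k - 1))⁻¹ := by gcongr

theorem radE_neg_arg (ε : ℝ) (x : Fin (k + 1) → R3) : radE (-ε) x = radE ε x := by
  unfold radE
  rw [neg_sq]

theorem radE_abs_arg (ε : ℝ) (x : Fin (k + 1) → R3) : radE |ε| x = radE ε x := by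
  unfold radE
  rw [sq_abs]

theorem GE_abs_arg (ε : ℝ) (x : Fin (k + 1) → R3) : GE |ε| x = GE ε x := by
  unfold GE
  rw [radE_abs_arg]

theorem DE_abs_arg (ε : ℝ) (m : Fin (k + 1)) (a : Fin 3) (x : Fin (k + 1) → R3) :
    DE |ε| m a x = DE ε m a x := by
  unfold DE
  rw [radE_abs_arg]

theorem abs_GE_zero (hk : 0 < k) (x : Fin (k + 1) → R3) :
    |GE 0 x| ≤ cN k * (rad x ^ (3 * k - 2))⁻¹ := by
  unfold GE
  have h2 := cN_pos hk
  have h3 := rad_nonneg x
  rw [radE_zero, abs_of_nonneg (by positivity)]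

theorem abs_DE_zero (hk : 0 < k) (m : Fin (k + 1)) (a : Fin 3) (x : Fin (k + 1) → R3) :
    |DE 0 m a x| ≤ cN k * (3 * k) * (rad x ^ (3 * k - 1))⁻¹ := by
  rcases (rad_nonneg x).eq_or_lt with h | h
  · unfold DE
    have h2 := cN_pos hk
    rw [radE_zero, ← h, zero_pow (by omega), inv_zero, mul_zero, abs_zero]
    positivity
  · exact abs_DE_le hk 0 h m a

theorem TI_DE (ε : ℝ) (m : Fin (k + 1)) (a : Fin 3) :
    TI (DE ε m a : (Fin (k + 1) → R3) → ℝ) := by
  intro x v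
  unfold DE
  rw [TI_radE ε x v, cm_shift (Nat.succ_ne_zero k)]
  simp

theorem radE_neg (ε : ℝ) (x : Fin (k + 1) → R3) : radE ε (-x) = radE ε x := by
  unfold radE
  rw [← rad_sq, ← rad_sq, rad_neg]

theorem GE_neg (ε : ℝ) (x : Fin (k + 1) → R3) : GE ε (-x) = GE ε x := by
  unfold GE
  rw [radE_neg]

theorem DE_neg (ε : ℝ) (m : Fin (k + 1)) (a : Fin 3) (x : Fin (k + 1) → R3) :
    DE ε m a (-x) = - DE ε m a x := by
  unfold DE
  rw [radE_neg, cm_neg]
  simp only [Pi.neg_apply]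
  ring

/-! ### Integrability -/

theorem Chg.B_nonneg {B R : ℝ} {ϱ : (Fin (k + 1) → R3) → ℝ} (h : Chg B R ϱ) : 0 ≤ B :=
  (abs_nonneg _).trans (h.bd 0)

theorem Chg.RI {B R : ℝ} {ϱ : (Fin (k + 1) → R3) → ℝ} (h : Chg B R ϱ) : RI ϱ :=
  RI_of_bdd h.meas h.bd h.supp

theorem RI_bdd_mul {B R : ℝ} {ϱ : (Fin (k + 1) → R3) → ℝ} (h : Chg B R ϱ)
    {F : (Fin (k + 1) → R3) → ℝ} (hF : Measurable F) {C : ℝ} (hC : ∀ x, |F x| ≤ C)
    (x : Fin (k + 1) → R3) : RI fun y => F (x - y) * ϱ y := by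
  refine RI_of_bdd (B := C * B) (R := R) ?_ ?_ ?_
  · exact (hF.comp (measurable_const.sub measurable_id)).mul h.meas
  · intro y
    rw [abs_mul]
    exact mul_le_mul (hC _) (h.bd y) (abs_nonneg _) ((abs_nonneg _).trans (hC 0))
  · intro y hy
    exact h.supp y (right_ne_zero_of_mul hy)

theorem TI_ball_inv (p : ℕ) (A : ℝ) :
    TI fun z : Fin (k + 1) → R3 => if rad z ≤ A then (rad z ^ p)⁻¹ else 0 := by
  intro z v
  simp only [TI_rad z v]

theorem RI_sing_mul (hk : 0 < k) {B R : ℝ} {ϱ : (Fin (k + 1) → R3) → ℝ} (h : Chg B R ϱ)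
    {F : (Fin (k + 1) → R3) → ℝ} (hF : Measurable F) {C : ℝ} {p : ℕ} (hp : p < 3 * k)
    (hC : ∀ x, |F x| ≤ C * (rad x ^ p)⁻¹)
    (x : Fin (k + 1) → R3) : RI fun y => F (x - y) * ϱ y := by
  have h1 := (RI_add_right (TI_ball_inv (k := k) p (R + rad x)) (RI_rad_inv hk hp _) (-x)).const_mul
    (C * B)
  refine h1.mono ((hF.comp (measurable_const.sub measurable_id)).mul h.meas) fun y => ?_
  have h0 : 0 ≤ C * (rad (x - y) ^ p)⁻¹ := (abs_nonneg _).trans (hC _)
  rw [← sub_eq_add_neg, ← rad_sub_comm x y]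
  by_cases hy : ϱ y = 0
  · rw [hy, mul_zero, abs_zero]
    split_ifs
    · have := mul_nonneg h0 h.B_nonneg
      linarith
    · simp
  · have h2 := h.supp y hy
    have h3 : rad (x - y) ≤ R + rad x := by
      have := rad_add_le x (-y)
      rw [rad_neg, ← sub_eq_add_neg] at this
      linarith
    rw [if_pos h3, abs_mul]
    have h4 := mul_le_mul (hC (x - y)) (h.bd y) (abs_nonneg _) h0
    linarith

/-- Integrability of the kernels against a charge. -/
theorem RI_GE_mul (hk : 0 < k) (ε : ℝ) {B R : ℝ} {ϱ : (Fin (k + 1) → R3) → ℝ} (h : Chg B R ϱ)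
    (x : Fin (k + 1) → R3) : RI fun y => GE ε (x - y) * ϱ y := by
  by_cases hε : ε = 0
  · subst hε
    exact RI_sing_mul hk h (measurable_GE 0) (p := 3 * k - 2) (by omega) (abs_GE_zero hk) x
  · refine RI_bdd_mul h (measurable_GE ε) (C := cN k * (|ε| ^ (3 * k - 2))⁻¹) (fun z => ?_) x
    rw [← GE_abs_arg]
    exact abs_GE_bdd hk (abs_pos.2 hε) z

theorem RI_DE_mul (hk : 0 < k) (ε : ℝ) {B R : ℝ} {ϱ : (Fin (k + 1) → R3) → ℝ} (h : Chg B R ϱ)
    (m : Fin (k + 1)) (a : Fin 3) (x : Fin (k + 1) → R3) :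
    RI fun y => DE ε m a (x - y) * ϱ y := by
  by_cases hε : ε = 0
  · subst hε
    exact RI_sing_mul hk h (measurable_DE 0 m a) (p := 3 * k - 1) (by omega) (abs_DE_zero hk m a) x
  · refine RI_bdd_mul h (measurable_DE ε m a)
      (C := cN k * (3 * k) * (|ε| ^ (3 * k - 1))⁻¹) (fun z => ?_) x
    rw [← DE_abs_arg]
    exact abs_DE_bdd hk (abs_pos.2 hε) m a z

/-! ### The regularised potential -/

theorem continuous_DNewtE (hk : 0 < k) {ε : ℝ} (hε : 0 < ε) {B R : ℝ}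
    {ϱ : (Fin (k + 1) → R3) → ℝ} (h : Chg B R ϱ) (m : Fin (k + 1)) (a : Fin 3) :
    Continuous (DNewtE ε ϱ m a) := by
  unfold DNewtE rint
  have hI : Integrable fun y : Fin k → R3 => ϱ (Fin.cons 0 y) := h.RI
  apply continuous_of_dominated
    (bound := fun y => cN k * (3 * k) * (ε ^ (3 * k - 1))⁻¹ * |ϱ (Fin.cons 0 y)|)
  · intro x
    exact (RI_DE_mul hk ε h m a x).aestronglyMeasurable
  · intro x
    filter_upwards with y
    rw [norm_mul]
    exact mul_le_mul_of_nonneg_right (abs_DE_bdd hk hε m a _) (norm_nonneg _)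
  · exact hI.norm.const_mul _
  · filter_upwards with y
    exact ((continuous_DE hε m a).comp (continuous_id.sub continuous_const)).mul continuous_const

/-- The bound of the derivative of the kernel. -/
noncomputable def bdE (k : ℕ) (ε : ℝ) : ℝ :=
  ∑ _m : Fin (k + 1), ∑ _a : Fin 3, cN k * (3 * k) * (ε ^ (3 * k - 1))⁻¹

/-- The derivative of the kernel as a linear form. -/
noncomputable def dG (ε : ℝ) (z : Fin (k + 1) → R3) : (Fin (k + 1) → R3) →L[ℝ] ℝ :=
  clF fun m a => DE ε m a z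

theorem norm_dG_le (hk : 0 < k) {ε : ℝ} (hε : 0 < ε) (z : Fin (k + 1) → R3) :
    ‖dG ε z‖ ≤ bdE k ε :=
  (norm_clF_le _).trans (Finset.sum_le_sum fun m _ => Finset.sum_le_sum fun a _ =>
      abs_DE_bdd hk hε m a z)

theorem continuous_dG {ε : ℝ} (hε : 0 < ε) :
    Continuous fun z : Fin (k + 1) → R3 => dG ε z :=
  continuous_clF fun m a => continuous_DE hε m a

theorem hasFDerivAt_GE (hk : 0 < k) {ε : ℝ} (hε : 0 < ε) (z : Fin (k + 1) → R3) :
    HasFDerivAt (GE ε) (dG ε z) z := by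
  have h3 := ((contDiff_GE (k := k) hε (n := 1)).differentiable one_ne_zero z).hasFDerivAt
  rw [fderiv_eq_clF] at h3
  simp only [pd_GE hk hε] at h3
  exact h3

theorem hasFDerivAt_int {ε : ℝ} (hk : 0 < k) (hε : 0 < ε) (c z : Fin (k + 1) → R3) (r : ℝ) :
    HasFDerivAt (fun z => GE ε (z - c) * r) (r • dG ε (z - c)) z := by
  have h2 := hasFDerivAt_GE hk hε (z - c)
  have h3 : HasFDerivAt (fun z : Fin (k + 1) → R3 => z - c)
      (ContinuousLinearMap.id ℝ (Fin (k + 1) → R3)) z := (hasFDerivAt_id z).sub_const c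
  have h4 := (h2.comp z h3).mul_const r
  rw [ContinuousLinearMap.comp_id] at h4
  exact h4

theorem meas_dG {ε : ℝ} (hε : 0 < ε) {B R : ℝ} {ϱ : (Fin (k + 1) → R3) → ℝ} (h : Chg B R ϱ)
    (x : Fin (k + 1) → R3) : AEStronglyMeasurable (fun y : Fin k → R3 =>
      ϱ (Fin.cons 0 y) • dG ε (x - Fin.cons 0 y)) volume := by
  have hI : Integrable fun y : Fin k → R3 => ϱ (Fin.cons 0 y) := h.RI
  exact hI.aestronglyMeasurable.smul
    ((continuous_dG hε).comp (continuous_const.sub continuous_cons0)).aestronglyMeasurable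

theorem norm_smul_dG (hk : 0 < k) {ε : ℝ} (hε : 0 < ε) (r : ℝ) (z : Fin (k + 1) → R3) :
    ‖r • dG ε z‖ ≤ ‖r‖ * bdE k ε := by
  rw [norm_smul]
  exact mul_le_mul_of_nonneg_left (norm_dG_le hk hε _) (norm_nonneg _)

theorem int_dG (hk : 0 < k) {ε : ℝ} (hε : 0 < ε) {B R : ℝ} {ϱ : (Fin (k + 1) → R3) → ℝ}
    (h : Chg B R ϱ) (x : Fin (k + 1) → R3) : Integrable (fun y : Fin k → R3 =>
      ϱ (Fin.cons 0 y) • dG ε (x - Fin.cons 0 y)) := by
  have hI : Integrable fun y : Fin k → R3 => ϱ (Fin.cons 0 y) := h.RI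
  exact (hI.norm.mul_const (bdE k ε)).mono' (meas_dG hε h x)
    (Eventually.of_forall fun y => norm_smul_dG hk hε _ _)

theorem integral_dG (hk : 0 < k) {ε : ℝ} (hε : 0 < ε) {B R : ℝ} {ϱ : (Fin (k + 1) → R3) → ℝ}
    (h : Chg B R ϱ) (x : Fin (k + 1) → R3) :
    ∫ y : Fin k → R3, ϱ (Fin.cons 0 y) • dG ε (x - Fin.cons 0 y) =
      clF fun m a => DNewtE ε ϱ m a x := by
  have h0 : ∀ m a, (∫ y : Fin k → R3, ϱ (Fin.cons 0 y) • dG ε (x - Fin.cons 0 y))
      (Pi.single m (Pi.single a 1)) = DNewtE ε ϱ m a x := by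
    intro m a
    rw [ContinuousLinearMap.integral_apply (int_dG hk hε h x)]
    unfold DNewtE rint
    congr 1
    funext y
    unfold dG
    rw [smul_apply, clF_single, smul_eq_mul, mul_comm]
  refine (eq_clF _).trans ?_
  congr 1
  funext m a
  exact h0 m a

/-- The integrand. -/
noncomputable def Fk (ε : ℝ) (ϱ : (Fin (k + 1) → R3) → ℝ) (x : Fin (k + 1) → R3)
    (y : Fin k → R3) : ℝ := GE ε (x - Fin.cons 0 y) * ϱ (Fin.cons 0 y)

/-- The derivative of the integrand. -/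
noncomputable def Fk' (ε : ℝ) (ϱ : (Fin (k + 1) → R3) → ℝ) (x : Fin (k + 1) → R3)
    (y : Fin k → R3) : (Fin (k + 1) → R3) →L[ℝ] ℝ := ϱ (Fin.cons 0 y) • dG ε (x - Fin.cons 0 y)

/-- The bound of the derivative of the integrand. -/
noncomputable def bk (ε : ℝ) (ϱ : (Fin (k + 1) → R3) → ℝ) (y : Fin k → R3) : ℝ :=
  ‖ϱ (Fin.cons 0 y)‖ * bdE k ε

theorem hasFDerivAt_NewtE (hk : 0 < k) {ε : ℝ} (hε : 0 < ε) {B R : ℝ}
    {ϱ : (Fin (k + 1) → R3) → ℝ} (h : Chg B R ϱ) (x : Fin (k + 1) → R3) :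
    HasFDerivAt (NewtE ε ϱ) (clF fun m a => DNewtE ε ϱ m a x) x := by
  have hI : Integrable fun y : Fin k → R3 => ϱ (Fin.cons 0 y) := h.RI
  have h1 : ∀ x' : Fin (k + 1) → R3, Integrable (Fk ε ϱ x') := fun x' => RI_GE_mul hk ε h x'
  have h2 : ∀ x' : Fin (k + 1) → R3, AEStronglyMeasurable (Fk' ε ϱ x') volume := fun x' =>
    meas_dG hε h x'
  have h3 : ∀ (y : Fin k → R3) (x' : Fin (k + 1) → R3), ‖Fk' ε ϱ x' y‖ ≤ bk ε ϱ y := fun y x' =>
    norm_smul_dG hk hε _ _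
  have h4 : Integrable (bk ε ϱ) := hI.norm.mul_const _
  have h5 : ∀ (y : Fin k → R3) (x' : Fin (k + 1) → R3),
      HasFDerivAt (fun x => Fk ε ϱ x y) (Fk' ε ϱ x' y) x' := fun y x' =>
    hasFDerivAt_int hk hε _ x' _
  have h6 : ∫ y : Fin k → R3, Fk' ε ϱ x y = clF fun m a => DNewtE ε ϱ m a x :=
    integral_dG hk hε h x
  rw [← h6]
  have h7 : HasFDerivAt (fun x : Fin (k + 1) → R3 => ∫ y : Fin k → R3, Fk ε ϱ x y)
      (∫ y : Fin k → R3, Fk' ε ϱ x y) x :=
    hasFDerivAt_integral_of_dominated_of_fderiv_le (μ := (volume : Measure (Fin k → R3)))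
      (𝕜 := ℝ) (F := Fk ε ϱ) (F' := Fk' ε ϱ) (bound := bk ε ϱ) (s := Set.univ) (x₀ := x)
      univ_mem (Eventually.of_forall fun x' => (h1 x').aestronglyMeasurable) (h1 x) (h2 x)
      (Eventually.of_forall fun y x' _ => h3 y x') h4
      (Eventually.of_forall fun y x' _ => h5 y x')
  exact h7

/-- For `ε > 0` differentiation under the integral sign. -/
theorem contDiff_NewtE (hk : 0 < k) {ε : ℝ} (hε : 0 < ε) {B R : ℝ}
    {ϱ : (Fin (k + 1) → R3) → ℝ} (h : Chg B R ϱ) :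
    ContDiff ℝ 1 (NewtE ε ϱ) ∧ ∀ m a x, pd (NewtE ε ϱ) m a x = DNewtE ε ϱ m a x :=
  contDiff_of_clF (hasFDerivAt_NewtE hk hε h) (continuous_DNewtE hk hε h)

/-! ### Convergence -/

theorem ae_rad_pos (hk : 0 < k) :
    ∀ᵐ y : Fin k → R3, 0 < rad (Fin.cons 0 y : Fin (k + 1) → R3) := by
  have : Nonempty (Fin k) := ⟨⟨0, hk⟩⟩
  have h1 : (volume : Measure (Fin k → R3)) {0} = 0 := measure_singleton _
  have h2 : ∀ᵐ y : Fin k → R3, y ≠ 0 := by
    rw [ae_iff]
    simpa only [ne_eq, not_not, Set.ofPred_eq_eq_singleton] using h1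
  filter_upwards [h2] with y hy
  have h3 := norm_le_rad_cons y
  have h4 := norm_pos_iff.2 hy
  linarith

theorem unif_conv (hk : 0 < k) {F : ℝ → (Fin (k + 1) → R3) → ℝ} (hFm : ∀ ε, Measurable (F ε))
    (hFt : ∀ ε, TI (F ε)) {p : ℕ} (hp : p < 3 * k) {C : ℝ}
    (hb : ∀ ε x, 0 < rad x → |F ε x| ≤ C * (rad x ^ p)⁻¹)
    (hl : ∀ x, 0 < rad x → Tendsto (fun ε => F ε x) (𝓝 0) (𝓝 (F 0 x)))
    (hs : ∀ ε x, |F ε (-x) - F 0 (-x)| = |F ε x - F 0 x|) {B R : ℝ}
    {ϱ : (Fin (k + 1) → R3) → ℝ} (h : Chg B R ϱ)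
    (hI : ∀ ε x, RI fun y => F ε (x - y) * ϱ y) (M : ℝ) {δ : ℝ} (hδ : 0 < δ) :
    ∀ᶠ ε : ℝ in 𝓝[>] 0, ∀ x, rad x ≤ M →
      |(rint fun y => F ε (x - y) * ϱ y) - rint fun y => F 0 (x - y) * ϱ y| ≤ δ := by
  set H : ℝ → (Fin (k + 1) → R3) → ℝ := fun ε z => if rad z ≤ M + R then |F ε z - F 0 z| else 0
    with hH
  have hHm : ∀ ε, Measurable (H ε) := fun ε =>
    Measurable.ite (measurableSet_le continuous_rad.measurable measurable_const)
      ((hFm ε).sub (hFm 0)).norm measurable_const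
  have hHt : ∀ ε, TI (H ε) := by
    intro ε x v
    simp only [hH, TI_rad x v, hFt ε x v, hFt 0 x v]
  have hdom : Integrable fun y : Fin k → R3 => 2 * C *
      (if rad (Fin.cons 0 y : Fin (k + 1) → R3) ≤ M + R then
        (rad (Fin.cons 0 y : Fin (k + 1) → R3) ^ p)⁻¹ else 0) :=
    (RI_rad_inv hk hp (M + R)).const_mul (2 * C)
  have hle : ∀ ε (y : Fin k → R3), 0 < rad (Fin.cons 0 y : Fin (k + 1) → R3) →
      ‖H ε (Fin.cons 0 y)‖ ≤ 2 * C * (if rad (Fin.cons 0 y : Fin (k + 1) → R3) ≤ M + R then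
        (rad (Fin.cons 0 y : Fin (k + 1) → R3) ^ p)⁻¹ else 0) := by
    intro ε y hy
    simp only [hH]
    split_ifs
    · rw [Real.norm_eq_abs, abs_abs]
      have h1 := hb ε _ hy
      have h2 := hb 0 _ hy
      have h3 := abs_sub (F ε (Fin.cons 0 y)) (F 0 (Fin.cons 0 y))
      linarith
    · simp
  have hRI : ∀ ε, RI (H ε) := by
    intro ε
    refine hdom.mono' ((hHm ε).comp measurable_cons0).aestronglyMeasurable ?_
    filter_upwards [ae_rad_pos hk] with y hy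
    exact hle ε y hy
  have hlim : Tendsto (fun ε => rint (H ε)) (𝓝[>] 0) (𝓝 0) := by
    have h0 : ∫ _y : Fin k → R3, (0 : ℝ) = 0 := by simp
    have h1 := tendsto_integral_filter_of_dominated_convergence (l := 𝓝[>] (0 : ℝ))
      (μ := (volume : Measure (Fin k → R3))) (F := fun ε y => H ε (Fin.cons 0 y))
      (f := fun _ => (0 : ℝ)) _
      (Eventually.of_forall fun ε => ((hHm ε).comp measurable_cons0).aestronglyMeasurable)
      (Eventually.of_forall fun ε => by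
        filter_upwards [ae_rad_pos hk] with y hy
        exact hle ε y hy) hdom (by
        filter_upwards [ae_rad_pos hk] with y hy
        simp only [hH]
        split_ifs
        · have h2 := ((hl _ hy).sub_const (F 0 (Fin.cons 0 y))).norm
          rw [sub_self, norm_zero] at h2
          exact h2.mono_left nhdsWithin_le_nhds
        · exact tendsto_const_nhds)
    rw [h0] at h1
    exact h1
  have hlim2 := hlim.const_mul B
  rw [mul_zero] at hlim2
  filter_upwards [hlim2.eventually (gt_mem_nhds hδ)] with ε hε x hx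
  rw [← rint_sub (hI ε x) (hI 0 x)]
  have h1 : RI fun y => B * H ε (y + -x) := (RI_add_right (hHt ε) (hRI ε) (-x)).const_mul B
  refine (abs_rint_le h1 fun y => ?_).trans ?_
  · rw [← sub_mul, abs_mul]
    have h5 : |F ε (x - y) - F 0 (x - y)| = |F ε (y + -x) - F 0 (y + -x)| := by
      rw [← hs ε (y + -x)]
      congr 2 <;> congr 1 <;> simp [sub_eq_add_neg]
    by_cases hy : ϱ y = 0
    · rw [hy, abs_zero, mul_zero]
      refine mul_nonneg h.B_nonneg ?_
      simp only [hH]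
      split_ifs
      · exact abs_nonneg _
      · exact le_rfl
    · have h2 := h.supp y hy
      have h3 : rad (y + -x) ≤ M + R := by
        have := rad_add_le y (-x)
        rw [rad_neg] at this
        linarith
      simp only [hH, if_pos h3]
      rw [h5, mul_comm]
      exact mul_le_mul_of_nonneg_right (h.bd y) (abs_nonneg _)
  · rw [rint_const_mul, rint_add_right (hHt ε)]
    exact hε.le

theorem tendsto_radE (x : Fin (k + 1) → R3) : Tendsto (fun ε => radE ε x) (𝓝 0) (𝓝 (rad x)) := by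
  have h : Continuous fun ε => radE ε x := by unfold radE; fun_prop
  have := h.tendsto 0
  rwa [radE_zero] at this

theorem tendsto_GE {x : Fin (k + 1) → R3} (hx : 0 < rad x) :
    Tendsto (fun ε => GE ε x) (𝓝 0) (𝓝 (GE 0 x)) := by
  unfold GE
  rw [radE_zero]
  exact tendsto_const_nhds.mul (((tendsto_radE x).pow _).inv₀ (pow_pos hx _).ne')

theorem tendsto_DE {x : Fin (k + 1) → R3} (hx : 0 < rad x) (m : Fin (k + 1)) (a : Fin 3) :
    Tendsto (fun ε => DE ε m a x) (𝓝 0) (𝓝 (DE 0 m a x)) := by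
  unfold DE
  rw [radE_zero]
  exact tendsto_const_nhds.mul (((tendsto_radE x).pow _).inv₀ (pow_pos hx _).ne')

/-- Locally uniform convergence: on `{rad x ≤ M}` the difference is at most
`B rint (1_{rad ≤ M + R} |GE ε - GE 0|)`, which tends to zero by dominated convergence
(`|GE ε - GE 0| ≤ 2 GE 0`); the same for `DE`. (The substitution `z = x - y` is `rint_neg` and
`rint_add_right`.) -/
theorem tendsto_NewtE (hk : 0 < k) {B R : ℝ} {ϱ : (Fin (k + 1) → R3) → ℝ} (h : Chg B R ϱ)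
    (M : ℝ) {δ : ℝ} (hδ : 0 < δ) : ∃ ε0 > 0, ∀ ε, 0 < ε → ε < ε0 → ∀ x, rad x ≤ M →
      |NewtE ε ϱ x - NewtE 0 ϱ x| ≤ δ ∧
      ∀ m a, |DNewtE ε ϱ m a x - DNewtE 0 ϱ m a x| ≤ δ := by
  have h1 := unif_conv hk (F := GE) measurable_GE TI_GE (p := 3 * k - 2) (by omega)
    (fun ε x hx => GE_le hk ε hx) (fun x hx => tendsto_GE hx)
    (fun ε x => by rw [GE_neg, GE_neg]) h (fun ε x => RI_GE_mul hk ε h x) M hδ
  have h2 : ∀ m a, ∀ᶠ ε : ℝ in 𝓝[>] 0, ∀ x, rad x ≤ M →
      |(rint fun y => DE ε m a (x - y) * ϱ y) - rint fun y => DE 0 m a (x - y) * ϱ y| ≤ δ :=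
    fun m a => unif_conv hk (F := fun ε => DE ε m a) (fun ε => measurable_DE ε m a)
      (fun ε => TI_DE ε m a) (p := 3 * k - 1) (by omega)
      (fun ε x hx => abs_DE_le hk ε hx m a) (fun x hx => tendsto_DE hx m a)
      (fun ε x => by rw [DE_neg, DE_neg, neg_sub_neg, abs_sub_comm]) h
      (fun ε x => RI_DE_mul hk ε h m a x) M hδ
  have h3 : ∀ᶠ ε : ℝ in 𝓝[>] 0, ∀ m a, ∀ x, rad x ≤ M →
      |(rint fun y => DE ε m a (x - y) * ϱ y) - rint fun y => DE 0 m a (x - y) * ϱ y| ≤ δ :=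
    eventually_all.2 fun m => eventually_all.2 fun a => h2 m a
  have h4 := h1.and h3
  obtain ⟨ε0, hε0, hsub⟩ := mem_nhdsGT_iff_exists_Ioo_subset.1 h4
  refine ⟨ε0, hε0, fun ε hε hε' x hx => ?_⟩
  have h5 := hsub ⟨hε, hε'⟩
  exact ⟨h5.1 x hx, fun m a => h5.2 m a x hx⟩

theorem TI_Newt (ϱ : (Fin (k + 1) → R3) → ℝ) : TI (Newt ϱ) := by
  intro x v
  unfold Newt NewtE
  congr 1
  funext y
  have h1 : (fun m => x m + v) - y = fun m => (x - y) m + v := by
    funext m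
    simp only [Pi.sub_apply]
    abel
  rw [h1, TI_GE 0 (x - y) v]

theorem hasFDerivAt_Newt (hk : 0 < k) {B R : ℝ} {ϱ : (Fin (k + 1) → R3) → ℝ} (h : Chg B R ϱ)
    (x : Fin (k + 1) → R3) : HasFDerivAt (Newt ϱ) (clF fun m a => DNewtE 0 ϱ m a x) x := by
  have hopen : IsOpen {y : Fin (k + 1) → R3 | rad y < rad x + 1} :=
    isOpen_lt continuous_rad continuous_const
  have hseq : ∀ e > 0, ∀ᶠ n : ℕ in atTop, (((n : ℝ) + 1)⁻¹) < e := by
    intro e he
    have := tendsto_one_div_add_atTop_nhds_zero_nat (𝕜 := ℝ)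
    simp only [one_div] at this
    exact this.eventually (gt_mem_nhds he)
  refine hasFDerivAt_of_tendstoUniformlyOn (l := atTop)
    (f := fun (n : ℕ) => NewtE (((n : ℝ) + 1)⁻¹) ϱ)
    (f' := fun (n : ℕ) y => clF fun m a => DNewtE (((n : ℝ) + 1)⁻¹) ϱ m a y)
    (g' := fun y => clF fun m a => DNewtE 0 ϱ m a y) hopen ?_ ?_ ?_
    (show rad x < rad x + 1 by linarith)
  · rw [Metric.tendstoUniformlyOn_iff]
    intro e he
    obtain ⟨ε0, hε0, hε1⟩ := tendsto_NewtE hk h (rad x + 1)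
      (δ := e / (3 * (k + 1) + 1)) (by positivity)
    filter_upwards [hseq ε0 hε0] with n hn y hy
    rw [dist_eq_norm, clF_sub]
    refine (norm_clF_le _).trans_lt ?_
    have h1 := (hε1 _ (by positivity) hn y (le_of_lt hy)).2
    calc ∑ m : Fin (k + 1), ∑ a : Fin 3,
          |DNewtE 0 ϱ m a y - DNewtE (((n : ℝ) + 1)⁻¹) ϱ m a y|
        ≤ ∑ _m : Fin (k + 1), ∑ _a : Fin 3, e / (3 * (k + 1) + 1) :=
          Finset.sum_le_sum fun m _ => Finset.sum_le_sum fun a _ => by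
            rw [abs_sub_comm]
            exact h1 m a
      _ < e := by
        simp only [Finset.sum_const, Finset.card_univ, Fintype.card_fin, nsmul_eq_mul]
        push_cast
        rw [← mul_assoc, mul_div_assoc', div_lt_iff₀ (by positivity)]
        nlinarith
  · intro n y _
    exact hasFDerivAt_NewtE hk (by positivity) h y
  · intro y hy
    rw [Metric.tendsto_nhds]
    intro e he
    obtain ⟨ε0, hε0, hε1⟩ := tendsto_NewtE hk h (rad x + 1) (δ := e / 2) (by positivity)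
    filter_upwards [hseq ε0 hε0] with n hn
    have h1 := (hε1 _ (by positivity) hn y (le_of_lt hy)).1
    rw [Real.dist_eq]
    exact lt_of_le_of_lt h1 (by linarith)

theorem continuous_DNewt (hk : 0 < k) {B R : ℝ} {ϱ : (Fin (k + 1) → R3) → ℝ} (h : Chg B R ϱ)
    (m : Fin (k + 1)) (a : Fin 3) : Continuous (DNewtE 0 ϱ m a) := by
  rw [continuous_iff_continuousAt]
  intro x
  have hopen : IsOpen {y : Fin (k + 1) → R3 | rad y < rad x + 1} :=
    isOpen_lt continuous_rad continuous_const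
  have h1 : TendstoUniformlyOn (fun ε : ℝ => DNewtE ε ϱ m a) (DNewtE 0 ϱ m a) (𝓝[>] 0)
      {y : Fin (k + 1) → R3 | rad y < rad x + 1} := by
    rw [Metric.tendstoUniformlyOn_iff]
    intro e he
    obtain ⟨ε0, hε0, hε1⟩ := tendsto_NewtE hk h (rad x + 1) (δ := e / 2) (by positivity)
    filter_upwards [Ioo_mem_nhdsGT hε0] with ε hε y hy
    have h2 := (hε1 ε hε.1 hε.2 y (le_of_lt hy)).2 m a
    rw [dist_comm, Real.dist_eq]
    exact lt_of_le_of_lt h2 (by linarith)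
  have h2 : ContinuousOn (DNewtE 0 ϱ m a) {y : Fin (k + 1) → R3 | rad y < rad x + 1} := by
    refine h1.continuousOn (Eventually.frequently ?_)
    filter_upwards [self_mem_nhdsWithin] with ε hε
    exact (continuous_DNewtE hk hε h m a).continuousOn
  exact h2.continuousAt (hopen.mem_nhds (show rad x < rad x + 1 by linarith))

/-- The Newton potential is `C¹` (limit of `NewtE ε`, `hasFDerivAt_of_tendstoUniformlyOn`). -/
theorem contDiff_Newt (hk : 0 < k) {B R : ℝ} {ϱ : (Fin (k + 1) → R3) → ℝ} (h : Chg B R ϱ) :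
    ContDiff ℝ 1 (Newt ϱ) ∧ ∀ m a x, pd (Newt ϱ) m a x = DNewtE 0 ϱ m a x :=
  contDiff_of_clF (hasFDerivAt_Newt hk h) (continuous_DNewt hk h)

end Pool.Agent.Lib.MP_5db8e2_mp
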