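import Pool.Agent.Lib.MP_5db8e2_mp.RintC
import Pool.Agent.Lib.MP_5db8e2_mp.NewtB

/-!
# The Newton potential: Poisson equation
-/

set_option autoImplicit false

open MeasureTheory Filter Topology

namespace Pool.Agent.Lib.MP_5db8e2_mp

variable {k : ℕ}

/-! ### Auxiliary lemmas -/

namespace NewtDAux

theorem bdd_on_rad_le {F : (Fin (k + 1) → R3) → ℝ} (hF : Continuous F) (ht : TI F) (M : ℝ) :
    ∃ C, 0 ≤ C ∧ ∀ x, rad x ≤ M → |F x| ≤ C := by
  have hc : Continuous fun y : Fin k → R3 => F (Fin.cons 0 y) := hF.comp continuous_cons0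
  obtain ⟨C, hC⟩ := (isCompact_closedBall (0 : Fin k → R3) (2 * M)).exists_bound_of_continuousOn
    hc.continuousOn
  refine ⟨max C 0, le_max_right _ _, fun x hx => ?_⟩
  have h1 : rad (Fin.cons 0 (fun m => x m.succ - x 0) : Fin (k + 1) → R3) ≤ M := by
    rw [← TI_eq_cons TI_rad x]
    exact hx
  have h2 := norm_le_rad_cons (fun m => x m.succ - x 0)
  rw [TI_eq_cons ht x]
  refine (hC _ ?_).trans (le_max_left _ _)
  rw [mem_closedBall_zero_iff]
  linarith

theorem bdd_of_cont {F : (Fin (k + 1) → R3) → ℝ} (hF : Continuous F) (ht : TI F) {M : ℝ}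
    (hM : ∀ x, F x ≠ 0 → rad x ≤ M) : ∃ C, 0 ≤ C ∧ ∀ x, |F x| ≤ C := by
  obtain ⟨C, hC0, hC⟩ := bdd_on_rad_le hF ht M
  refine ⟨C, hC0, fun x => ?_⟩
  by_cases hx : F x = 0
  · rw [hx, abs_zero]
    exact hC0
  · exact hC x (hM x hx)

theorem RI_of_cont {F : (Fin (k + 1) → R3) → ℝ} (hF : Continuous F) (ht : TI F) {M : ℝ}
    (hM : ∀ x, F x ≠ 0 → rad x ≤ M) : RI F := by
  obtain ⟨C, -, hC⟩ := bdd_of_cont hF ht hM
  exact RI_of_bdd hF.measurable hC hM

theorem continuous_DE (hk : 0 < k) {ε : ℝ} (hε : 0 < ε) (m : Fin (k + 1)) (a : Fin 3) :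
    Continuous (DE ε m a : (Fin (k + 1) → R3) → ℝ) := by
  have h1 : (DE ε m a : (Fin (k + 1) → R3) → ℝ) = pd (GE ε) m a := by
    funext x
    rw [pd_GE hk hε]
  rw [h1]
  exact continuous_pd (contDiff_GE hε) m a

theorem TI_DE' (hk : 0 < k) {ε : ℝ} (hε : 0 < ε) (m : Fin (k + 1)) (a : Fin 3) :
    TI (DE ε m a : (Fin (k + 1) → R3) → ℝ) := by
  have h1 : (DE ε m a : (Fin (k + 1) → R3) → ℝ) = pd (GE ε) m a := by
    funext x
    rw [pd_GE hk hε]
  rw [h1]
  exact TI_pd (TI_GE ε) m a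

theorem TI_sub_right {E : Type*} {F : (Fin (k + 1) → R3) → E} (h : TI F) (y : Fin (k + 1) → R3) :
    TI fun x => F (x - y) := by
  intro x v
  show F (_ - y) = F (x - y)
  rw [← h (x - y) v]
  congr 1
  funext m
  simp only [Pi.sub_apply]
  abel

theorem TI_NewtE (ε : ℝ) (ϱ : (Fin (k + 1) → R3) → ℝ) : TI (NewtE ε ϱ) := by
  intro x v
  unfold NewtE
  congr 1
  funext y
  have h := TI_sub_right (TI_GE (k := k) ε) y x v
  simp only at h
  rw [h]

/-- The integral kernel of the Fubini argument. -/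
noncomputable def KD (ε : ℝ) (ϱ ζ : (Fin (k + 1) → R3) → ℝ) (m : Fin (k + 1)) (a : Fin 3)
    (x y : Fin k → R3) : ℝ :=
  DE ε m a ((Fin.cons 0 x : Fin (k + 1) → R3) - Fin.cons 0 y) * ϱ (Fin.cons 0 y) *
    pd ζ m a (Fin.cons 0 x)

theorem integrable_KD (hk : 0 < k) {ε : ℝ} (hε : 0 < ε) {B R : ℝ}
    {ϱ : (Fin (k + 1) → R3) → ℝ} (h : Chg B R ϱ) {ζ : (Fin (k + 1) → R3) → ℝ} (hζ : TF ζ)
    (m : Fin (k + 1)) (a : Fin 3) :
    Integrable (fun p : (Fin k → R3) × (Fin k → R3) => KD ε ϱ ζ m a p.1 p.2)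
      (volume.prod volume) := by
  obtain ⟨M, hM⟩ := hζ.supp
  have hpds : ∀ x, pd ζ m a x ≠ 0 → rad x ≤ M := pd_eq_zero_of_rad hζ.c1 hM m a
  obtain ⟨C1, hC10, hC1⟩ := bdd_of_cont (continuous_pd hζ.c1 m a) (TI_pd hζ.ti m a) hpds
  obtain ⟨C2, hC20, hC2⟩ := bdd_on_rad_le (continuous_DE hk hε m a) (TI_DE' hk hε m a) (M + R)
  have hB : 0 ≤ B := (abs_nonneg _).trans (h.bd 0)
  have hmeas : Measurable fun p : (Fin k → R3) × (Fin k → R3) => KD ε ϱ ζ m a p.1 p.2 := by
    have hc1 : Measurable fun p : (Fin k → R3) × (Fin k → R3) =>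
        (Fin.cons 0 p.1 : Fin (k + 1) → R3) := measurable_cons0.comp measurable_fst
    have hc2 : Measurable fun p : (Fin k → R3) × (Fin k → R3) =>
        (Fin.cons 0 p.2 : Fin (k + 1) → R3) := measurable_cons0.comp measurable_snd
    exact (((measurable_DE ε m a).comp (hc1.sub hc2)).mul (h.meas.comp hc2)).mul
      ((continuous_pd hζ.c1 m a).measurable.comp hc1)
  have hbd : ∀ p : (Fin k → R3) × (Fin k → R3), ‖KD ε ϱ ζ m a p.1 p.2‖ ≤ C2 * B * C1 := by
    intro p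
    rw [Real.norm_eq_abs]
    unfold KD
    by_cases h1 : pd ζ m a (Fin.cons 0 p.1) = 0
    · rw [h1, mul_zero, abs_zero]
      positivity
    by_cases h2 : ϱ (Fin.cons 0 p.2) = 0
    · rw [h2, mul_zero, zero_mul, abs_zero]
      positivity
    have h3 : rad ((Fin.cons 0 p.1 : Fin (k + 1) → R3) - Fin.cons 0 p.2) ≤ M + R := by
      have h4 := rad_add_le (Fin.cons 0 p.1 : Fin (k + 1) → R3) (-(Fin.cons 0 p.2))
      rw [rad_neg, ← sub_eq_add_neg] at h4
      linarith [hpds _ h1, h.supp _ h2]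
    rw [abs_mul, abs_mul]
    exact mul_le_mul (mul_le_mul (hC2 _ h3) (h.bd _) (abs_nonneg _) hC20) (hC1 _) (abs_nonneg _)
      (by positivity)
  have hsupp : Function.support (fun p : (Fin k → R3) × (Fin k → R3) => KD ε ϱ ζ m a p.1 p.2) ⊆
      Metric.closedBall 0 (2 * M) ×ˢ Metric.closedBall 0 (2 * R) := by
    intro p hp
    rw [Function.mem_support] at hp
    unfold KD at hp
    have h1 : pd ζ m a (Fin.cons 0 p.1) ≠ 0 := right_ne_zero_of_mul hp
    have h2 : ϱ (Fin.cons 0 p.2) ≠ 0 := right_ne_zero_of_mul (left_ne_zero_of_mul hp)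
    have h3 := norm_le_rad_cons p.1
    have h4 := norm_le_rad_cons p.2
    rw [Set.mem_prod, mem_closedBall_zero_iff, mem_closedBall_zero_iff]
    constructor
    · linarith [hpds _ h1]
    · linarith [h.supp _ h2]
  rw [← integrableOn_iff_integrable_of_support_subset hsupp]
  refine Measure.integrableOn_of_bounded ?_ hmeas.aestronglyMeasurable
    (Eventually.of_forall hbd)
  rw [Measure.prod_prod]
  exact ENNReal.mul_ne_top measure_closedBall_lt_top.ne measure_closedBall_lt_top.ne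

/-- The inner integral. -/
theorem sum_rint_DE (hk : 0 < k) {ε : ℝ} (hε : 0 < ε) {ζ : (Fin (k + 1) → R3) → ℝ} (hζ : TF ζ)
    (y : Fin (k + 1) → R3) :
    ∑ m, ∑ a, rint (fun x => DE ε m a (x - y) * pd ζ m a x) =
      rint fun x => dE ε (x - y) * ζ x := by
  obtain ⟨M, hM⟩ := hζ.supp
  have hG2 : ContDiff ℝ 2 fun x => GE (k := k) ε (x - y) :=
    (contDiff_GE hε).comp (contDiff_id.sub contDiff_const)
  have hGt : TI fun x => GE (k := k) ε (x - y) := TI_sub_right (TI_GE ε) y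
  have hpdG : ∀ m a, pd (fun x => GE (k := k) ε (x - y)) m a = fun x => DE ε m a (x - y) := by
    intro m a
    funext x
    rw [pd_comp_sub, pd_GE hk hε]
  have hRI : ∀ m a, RI fun x => DE ε m a (x - y) * pd ζ m a x := by
    intro m a
    refine RI_of_cont (M := M) (((continuous_DE hk hε m a).comp (continuous_id.sub
      continuous_const)).mul (continuous_pd hζ.c1 m a)) ?_ ?_
    · intro x v
      have h1 := TI_sub_right (TI_DE' hk hε m a) y x v
      have h2 := TI_pd hζ.ti m a x v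
      simp only at h1 ⊢
      rw [h1, h2]
    · intro x hx
      exact pd_eq_zero_of_rad hζ.c1 hM m a x (right_ne_zero_of_mul hx)
  have h1 : rint (gg (fun x => GE (k := k) ε (x - y)) ζ) =
      ∑ m, ∑ a, rint (fun x => DE ε m a (x - y) * pd ζ m a x) := by
    have h2 : gg (fun x => GE (k := k) ε (x - y)) ζ =
        fun x => ∑ m, ∑ a, DE ε m a (x - y) * pd ζ m a x := by
      funext x
      unfold gg
      simp only [hpdG]
    rw [h2, rint_sum]
    · refine Finset.sum_congr rfl fun m _ => ?_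
      rw [rint_sum]
      exact fun a _ => hRI m a
    · intro m _
      have : RI fun x => ∑ a, DE ε m a (x - y) * pd ζ m a x := by
        unfold RI
        exact integrable_finsetSum _ fun a _ => hRI m a
      exact this
  rw [← h1, rint_gg_eq hG2 hGt hζ, ← rint_neg']
  congr 1
  funext x
  have h3 : ∀ m a, pd (fun x => pd (fun x => GE (k := k) ε (x - y)) m a x) m a x =
      pd (fun x => pd (GE ε) m a x) m a (x - y) := by
    intro m a
    have h4 : (fun x => pd (fun x => GE (k := k) ε (x - y)) m a x) =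
        fun x => (fun x => pd (GE ε) m a x) (x - y) := by
      funext x
      rw [pd_comp_sub]
    rw [h4, pd_comp_sub]
  simp only [h3]
  rw [lap_GE hk hε]
  ring

theorem rint_gg_NewtE (hk : 0 < k) {ε : ℝ} (hε : 0 < ε) {B R : ℝ}
    {ϱ : (Fin (k + 1) → R3) → ℝ} (h : Chg B R ϱ) {ζ : (Fin (k + 1) → R3) → ℝ} (hζ : TF ζ) :
    rint (gg (NewtE ε ϱ) ζ) = rint fun y => ϱ y * rint fun x => dE ε (x - y) * ζ x := by
  have hK := fun m a => integrable_KD hk hε h hζ m a
  have h1 : ∀ x, gg (NewtE ε ϱ) ζ (Fin.cons 0 x) = ∑ m, ∑ a, ∫ y, KD ε ϱ ζ m a x y := by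
    intro x
    unfold gg
    refine Finset.sum_congr rfl fun m _ => Finset.sum_congr rfl fun a _ => ?_
    rw [(contDiff_NewtE hk hε h).2 m a]
    unfold DNewtE rint KD
    rw [integral_mul_const]
  have h2 : rint (gg (NewtE ε ϱ) ζ) = ∑ m, ∑ a, ∫ x, ∫ y, KD ε ϱ ζ m a x y := by
    unfold rint
    simp only [h1]
    rw [integral_finsetSum]
    · refine Finset.sum_congr rfl fun m _ => ?_
      rw [integral_finsetSum]
      exact fun a _ => (hK m a).integral_prod_left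
    · intro m _
      exact integrable_finsetSum _ fun a _ => (hK m a).integral_prod_left
  have h3 : ∀ m a, ∫ x, ∫ y, KD ε ϱ ζ m a x y = ∫ y, ∫ x, KD ε ϱ ζ m a x y := by
    intro m a
    exact integral_integral_swap (hK m a)
  rw [h2]
  simp only [h3]
  have h4 : ∑ m, ∑ a, ∫ y, ∫ x, KD ε ϱ ζ m a x y = ∫ y, ∑ m, ∑ a, ∫ x, KD ε ϱ ζ m a x y := by
    rw [integral_finsetSum]
    · refine Finset.sum_congr rfl fun m _ => ?_
      rw [integral_finsetSum]
      exact fun a _ => (hK m a).integral_prod_right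
    · intro m _
      exact integrable_finsetSum _ fun a _ => (hK m a).integral_prod_right
  rw [h4]
  unfold rint
  refine integral_congr_ae (Eventually.of_forall fun y => ?_)
  simp only
  have h5 := sum_rint_DE hk hε hζ (Fin.cons 0 y)
  unfold rint at h5
  rw [← h5, Finset.mul_sum]
  refine Finset.sum_congr rfl fun m _ => ?_
  rw [Finset.mul_sum]
  refine Finset.sum_congr rfl fun a _ => ?_
  rw [← integral_const_mul]
  refine integral_congr_ae (Eventually.of_forall fun x => ?_)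
  simp only [KD]
  ring

theorem radE_smul {ε : ℝ} (hε : 0 < ε) (x : Fin (k + 1) → R3) :
    radE ε (ε • x) = ε * radE 1 x := by
  unfold radE
  rw [rsq_smul, show ε ^ 2 * rsq x + ε ^ 2 = ε ^ 2 * (rsq x + 1 ^ 2) by ring,
    Real.sqrt_mul (sq_nonneg ε), Real.sqrt_sq hε.le]

theorem radE_pos {ε : ℝ} (hε : 0 < ε) (x : Fin (k + 1) → R3) : 0 < radE ε x := by
  unfold radE
  refine Real.sqrt_pos.2 ?_
  have := rsq_nonneg x
  positivity

theorem dE_smul {ε : ℝ} (hε : 0 < ε) (x : Fin (k + 1) → R3) :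
    dE ε (ε • x) = (ε ^ (3 * k))⁻¹ * dE 1 x := by
  have h1 := radE_pos (k := k) one_pos x
  unfold dE
  rw [radE_smul hε, mul_pow, pow_add]
  field_simp

theorem TI_radE (ε : ℝ) : TI (radE ε : (Fin (k + 1) → R3) → ℝ) := by
  intro x v
  unfold radE
  rw [TI_rsq x v]

theorem TI_dE (ε : ℝ) : TI (dE ε : (Fin (k + 1) → R3) → ℝ) := by
  intro x v
  unfold dE
  rw [TI_radE ε x v]

/-- The substitution in the inner integral. -/
theorem rint_dE_mul {ε : ℝ} (hε : 0 < ε) {ζ : (Fin (k + 1) → R3) → ℝ} (ht : TI ζ)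
    (y : Fin (k + 1) → R3) :
    rint (fun x => dE ε (x - y) * ζ x) = rint fun x => dE 1 x * ζ (ε • x + y) := by
  have hT : TI fun x => dE (k := k) ε (x - y) * ζ x := by
    intro x v
    have h1 := TI_sub_right (TI_dE (k := k) ε) y x v
    simp only at h1 ⊢
    rw [h1, ht x v]
  rw [← rint_add_right hT y]
  have h2 := rint_smul (k := k) (fun x => dE ε (x + y - y) * ζ (x + y)) hε
  have h3 : (fun x : Fin (k + 1) → R3 => dE ε (ε • x + y - y) * ζ (ε • x + y)) =
      fun x => (ε ^ (3 * k))⁻¹ * (dE 1 x * ζ (ε • x + y)) := by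
    funext x
    rw [add_sub_cancel_right, dE_smul hε]
    ring
  rw [h3, rint_const_mul] at h2
  have h4 : (ε ^ (3 * k))⁻¹ ≠ 0 := by positivity
  exact (mul_left_cancel₀ h4 h2).symm

/-- The limit of the right side. -/
theorem tendsto_rhs (hk : 0 < k) {B R : ℝ} {ϱ : (Fin (k + 1) → R3) → ℝ} (h : Chg B R ϱ)
    {ζ : (Fin (k + 1) → R3) → ℝ} (hζ : TF ζ) :
    Tendsto (fun ε : ℝ => rint fun y => ϱ y * rint fun x => dE ε (x - y) * ζ x) (𝓝[>] 0)
      (𝓝 (rint fun y => ϱ y * ζ y)) := by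
  obtain ⟨M, hM⟩ := hζ.supp
  obtain ⟨C, hC0, hC⟩ := bdd_of_cont hζ.c1.continuous hζ.ti hM
  obtain ⟨hdI, hd1⟩ := rint_dE (k := k) hk one_pos
  have hϱI : RI ϱ := RI_of_bdd h.meas h.bd h.supp
  unfold RI at hdI hϱI
  -- the double integral
  let F : ℝ → (Fin k → R3) × (Fin k → R3) → ℝ := fun ε p =>
    ϱ (Fin.cons 0 p.1) * dE 1 (Fin.cons 0 p.2) *
      ζ (ε • (Fin.cons 0 p.2 : Fin (k + 1) → R3) + Fin.cons 0 p.1)
  have hcont : ∀ ε : ℝ, Continuous fun p : (Fin k → R3) × (Fin k → R3) =>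
      ζ (ε • (Fin.cons 0 p.2 : Fin (k + 1) → R3) + Fin.cons 0 p.1) := by
    intro ε
    exact hζ.c1.continuous.comp (((continuous_cons0.comp continuous_snd).const_smul ε).add
      (continuous_cons0.comp continuous_fst))
  have hprod : Integrable (fun p : (Fin k → R3) × (Fin k → R3) =>
      ϱ (Fin.cons 0 p.1) * dE 1 (Fin.cons 0 p.2)) (volume.prod volume) := hϱI.mul_prod hdI
  have hbound : ∀ (ε : ℝ) (p : (Fin k → R3) × (Fin k → R3)),
      ‖F ε p‖ ≤ ‖ϱ (Fin.cons 0 p.1) * dE 1 (Fin.cons 0 p.2)‖ * C := by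
    intro ε p
    show ‖_ * _‖ ≤ _
    rw [norm_mul]
    exact mul_le_mul_of_nonneg_left (hC _) (norm_nonneg _)
  have hFm : ∀ ε, AEStronglyMeasurable (F ε) (volume.prod volume) := fun ε =>
    hprod.aestronglyMeasurable.mul (hcont ε).aestronglyMeasurable
  have hFI : ∀ ε, Integrable (F ε) (volume.prod volume) := fun ε =>
    Integrable.mono' (hprod.norm.mul_const C) (hFm ε) (Eventually.of_forall (hbound ε))
  have hlim : Tendsto (fun ε => ∫ p, F ε p ∂(volume.prod volume)) (𝓝[>] 0)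
      (𝓝 (∫ p, F 0 p ∂(volume.prod volume))) := by
    refine tendsto_integral_filter_of_dominated_convergence
      (fun p => ‖ϱ (Fin.cons 0 p.1) * dE 1 (Fin.cons 0 p.2)‖ * C) (Eventually.of_forall hFm)
      (Eventually.of_forall fun ε => Eventually.of_forall (hbound ε)) (hprod.norm.mul_const C)
      (Eventually.of_forall fun p => ?_)
    have h1 : Continuous fun ε : ℝ => F ε p := by
      show Continuous fun ε : ℝ => ϱ (Fin.cons 0 p.1) * dE 1 (Fin.cons 0 p.2) *
        ζ (ε • (Fin.cons 0 p.2 : Fin (k + 1) → R3) + Fin.cons 0 p.1)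
      exact continuous_const.mul (hζ.c1.continuous.comp
        ((continuous_id.smul continuous_const).add continuous_const))
    exact (h1.tendsto 0).mono_left nhdsWithin_le_nhds
  have h0 : ∫ p, F 0 p ∂(volume.prod volume) = rint fun y => ϱ y * ζ y := by
    have h1 : F 0 = fun p : (Fin k → R3) × (Fin k → R3) =>
        (ϱ (Fin.cons 0 p.1) * ζ (Fin.cons 0 p.1)) * dE 1 (Fin.cons 0 p.2) := by
      funext p
      show ϱ (Fin.cons 0 p.1) * dE 1 (Fin.cons 0 p.2) *
        ζ ((0 : ℝ) • (Fin.cons 0 p.2 : Fin (k + 1) → R3) + Fin.cons 0 p.1) = _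
      rw [zero_smul, zero_add]
      ring
    rw [h1, integral_prod_mul (μ := (volume : Measure (Fin k → R3)))
      (ν := (volume : Measure (Fin k → R3)))
      (fun y : Fin k → R3 => ϱ (Fin.cons 0 y) * ζ (Fin.cons 0 y))
      (fun z : Fin k → R3 => dE 1 (Fin.cons 0 z))]
    unfold rint at hd1 ⊢
    rw [hd1, mul_one]
  rw [← h0]
  refine hlim.congr' ?_
  filter_upwards [self_mem_nhdsWithin] with ε hε
  rw [integral_prod _ (hFI ε)]
  unfold rint
  refine integral_congr_ae (Eventually.of_forall fun y => ?_)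
  have h2 := rint_dE_mul (k := k) hε hζ.ti (Fin.cons 0 y)
  unfold rint at h2
  simp only
  rw [h2, ← integral_const_mul]
  refine integral_congr_ae (Eventually.of_forall fun x => ?_)
  show ϱ (Fin.cons 0 y) * dE 1 (Fin.cons 0 x) *
    ζ (ε • (Fin.cons 0 x : Fin (k + 1) → R3) + Fin.cons 0 y) = _
  simp only
  ring

/-- The limit of the left side. -/
theorem tendsto_lhs (hk : 0 < k) {B R : ℝ} {ϱ : (Fin (k + 1) → R3) → ℝ} (h : Chg B R ϱ)
    {ζ : (Fin (k + 1) → R3) → ℝ} (hζ : TF ζ) :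
    Tendsto (fun ε : ℝ => rint (gg (NewtE ε ϱ) ζ)) (𝓝[>] 0) (𝓝 (rint (gg (Newt ϱ) ζ))) := by
  obtain ⟨M, hM⟩ := hζ.supp
  have hpds : ∀ m a x, pd ζ m a x ≠ 0 → rad x ≤ M := pd_eq_zero_of_rad hζ.c1 hM
  have hggs : ∀ (φ : (Fin (k + 1) → R3) → ℝ) x, gg φ ζ x ≠ 0 → rad x ≤ M := by
    intro φ x hx
    by_contra hcon
    apply hx
    unfold gg
    refine Finset.sum_eq_zero fun m _ => Finset.sum_eq_zero fun a _ => ?_
    have : pd ζ m a x = 0 := by
      by_contra h1
      exact hcon (hpds m a x h1)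
    rw [this, mul_zero]
  have hRI0 : RI (gg (Newt ϱ) ζ) := RI_of_cont (M := M)
    (continuous_gg (contDiff_Newt hk h).1 hζ.c1) (TI_gg (TI_Newt ϱ) hζ.ti) (hggs _)
  have hRIE : ∀ ε : ℝ, 0 < ε → RI (gg (NewtE ε ϱ) ζ) := fun ε hε => RI_of_cont (M := M)
    (continuous_gg (contDiff_NewtE hk hε h).1 hζ.c1) (TI_gg (TI_NewtE ε ϱ) hζ.ti) (hggs _)
  have hRIp : ∀ m a, RI (fun x => |pd ζ m a x|) := by
    intro m a
    refine RI_of_cont (M := M) (continuous_pd hζ.c1 m a).abs ?_ ?_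
    · intro x v
      show |pd ζ m a _| = |pd ζ m a x|
      rw [TI_pd hζ.ti m a x v]
    · intro x hx
      exact hpds m a x (abs_ne_zero.1 hx)
  have hRIs : RI (fun x => ∑ m, ∑ a, |pd ζ m a x|) := by
    unfold RI
    exact integrable_finsetSum _ fun m _ => integrable_finsetSum _ fun a _ => hRIp m a
  obtain ⟨S, hS⟩ : ∃ S, S = rint fun x => ∑ m, ∑ a, |pd ζ m a x| := ⟨_, rfl⟩
  have hS0 : 0 ≤ S := by
    rw [hS]
    exact rint_nonneg fun x => Finset.sum_nonneg fun m _ => Finset.sum_nonneg fun a _ =>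
      abs_nonneg _
  rw [Metric.tendsto_nhdsWithin_nhds]
  intro δ hδ
  obtain ⟨δ', hδ'⟩ : ∃ δ', δ' = δ / (2 * (S + 1)) := ⟨_, rfl⟩
  have hδ'0 : 0 < δ' := by
    rw [hδ']
    positivity
  obtain ⟨ε0, hε0, hconv⟩ := tendsto_NewtE hk h M hδ'0
  refine ⟨ε0, hε0, fun {ε} hε hεd => ?_⟩
  have hε1 : 0 < ε := hε
  have hε2 : ε < ε0 := by
    rw [Real.dist_eq, sub_zero, abs_of_pos hε1] at hεd
    exact hεd
  rw [Real.dist_eq, ← rint_sub (hRIE ε hε1) hRI0]
  have hle : |rint fun x => gg (NewtE ε ϱ) ζ x - gg (Newt ϱ) ζ x| ≤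
      rint fun x => δ' * ∑ m, ∑ a, |pd ζ m a x| := by
    refine abs_rint_le (hRIs.const_mul δ') fun x => ?_
    have h1 : gg (NewtE ε ϱ) ζ x - gg (Newt ϱ) ζ x =
        ∑ m, ∑ a, (DNewtE ε ϱ m a x - DNewtE 0 ϱ m a x) * pd ζ m a x := by
      unfold gg
      simp only [(contDiff_NewtE hk hε1 h).2, (contDiff_Newt hk h).2]
      rw [← Finset.sum_sub_distrib]
      refine Finset.sum_congr rfl fun m _ => ?_
      rw [← Finset.sum_sub_distrib]
      refine Finset.sum_congr rfl fun a _ => ?_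
      ring
    rw [h1, Finset.mul_sum]
    refine (Finset.abs_sum_le_sum_abs _ _).trans (Finset.sum_le_sum fun m _ => ?_)
    rw [Finset.mul_sum]
    refine (Finset.abs_sum_le_sum_abs _ _).trans (Finset.sum_le_sum fun a _ => ?_)
    rw [abs_mul]
    by_cases hz : pd ζ m a x = 0
    · rw [hz, abs_zero, mul_zero, mul_zero]
    · exact mul_le_mul_of_nonneg_right ((hconv ε hε1 hε2 x (hpds m a x hz)).2 m a)
        (abs_nonneg _)
  rw [rint_const_mul, ← hS] at hle
  refine hle.trans_lt ?_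
  rw [hδ', div_mul_eq_mul_div, div_lt_iff₀ (by positivity)]
  nlinarith

end NewtDAux

open NewtDAux

/-- **The Poisson equation** in the weak form. Proof: for `ε > 0`, Fubini and `rint_gg_eq`,
`lap_GE` give `rint (gg (NewtE ε ϱ) ζ) = ∫_y ϱ(y) rint_x (dE ε (x - y) ζ(x))`, and
`rint_x (dE ε (x-y) ζ(x)) = rint_x (dE 1 x ζ(ε x + y)) → ζ(y)`, bounded by `sup |ζ|`; let `ε → 0`,
using the locally uniform convergence of the gradients on the left side. -/
theorem Newt_weak (hk : 0 < k) {B R : ℝ} {ϱ : (Fin (k + 1) → R3) → ℝ} (h : Chg B R ϱ)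
    {ζ : (Fin (k + 1) → R3) → ℝ} (hζ : TF ζ) :
    rint (gg (Newt ϱ) ζ) = rint fun x => ϱ x * ζ x := by
  have h1 := tendsto_lhs hk h hζ
  have h2 := tendsto_rhs hk h hζ
  refine tendsto_nhds_unique (h1.congr' ?_) h2
  filter_upwards [self_mem_nhdsWithin] with ε hε
  exact rint_gg_NewtE hk hε h hζ

end Pool.Agent.Lib.MP_5db8e2_mp
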