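import Pool.Agent.Lib.MP_5db8e2_mp.FourB1
import Pool.Agent.Lib.MP_5db8e2_mp.NewtC
import Pool.Agent.Lib.MP_5db8e2_mp.NewtD

/-!
# The four-body variational problem: correction of the trial function
-/

set_option autoImplicit false

open MeasureTheory Filter Topology

namespace Pool.Agent.Lib.MP_5db8e2_mp

variable {V : R3 → R3 → ℝ} {φ : (Fin 3 → R3) → ℝ}

/-- The truncated charge. -/
noncomputable def rhoR (V : R3 → R3 → ℝ) (φ : (Fin 3 → R3) → ℝ) (z : (Fin 4 → R3) → ℝ) (R : ℝ)
    (x : Fin 4 → R3) : ℝ :=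
  ∑ l, V4 V l x * (z x - if rad x ≤ R then s0 φ l x else 0)

/-! ### Auxiliary lemmas -/

namespace FourB2Aux

theorem C_nonneg {k : ℕ} {f : (Fin k → R3) → ℝ} {C : ℝ} {p : ℕ}
    (hb : ∀ x, |f x| ≤ C / (1 + rad x) ^ p) : 0 ≤ C := by
  have h1 := hb 0
  have h2 := rad_nonneg (0 : Fin k → R3)
  have h3 : 0 ≤ C / (1 + rad (0 : Fin k → R3)) ^ p := (abs_nonneg _).trans h1
  have h4 : 0 < (1 + rad (0 : Fin k → R3)) ^ p := by positivity
  rcases lt_or_ge C 0 with hC | hC
  · exact absurd (div_neg_of_neg_of_pos hC h4) (not_lt.mpr h3)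
  · exact hC

theorem div_pow_le {k : ℕ} {C : ℝ} (hC : 0 ≤ C) (p : ℕ) (x : Fin k → R3) :
    C / (1 + rad x) ^ p ≤ C := by
  have h2 := rad_nonneg x
  exact div_le_self hC (one_le_pow₀ (by linarith))

theorem abs_s0_le {C : ℝ} (hb : ∀ x, |φ x| ≤ C / (1 + rad x) ^ 4) (l : Fin 4) (x : Fin 4 → R3) :
    |s0 φ l x| ≤ 3 * C := by
  have hC := C_nonneg hb
  unfold s0
  refine (Finset.abs_sum_le_sum_abs _ _).trans ?_
  refine (Finset.sum_le_sum (g := fun _ => C) fun l' _ => ?_).trans ?_
  · exact (hb _).trans (div_pow_le hC 4 _)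
  · rw [Finset.sum_const, Finset.card_erase_of_mem (Finset.mem_univ l)]
    simp only [Finset.card_univ, Fintype.card_fin, nsmul_eq_mul]
    norm_num

theorem measurable_cut {F : (Fin 4 → R3) → ℝ} (hF : Measurable F) (R : ℝ) :
    Measurable fun x : Fin 4 → R3 => if rad x ≤ R then F x else 0 :=
  Measurable.ite (measurableSet_le continuous_rad.measurable measurable_const) hF
    measurable_const

theorem measurable_cut' {F : (Fin 4 → R3) → ℝ} (hF : Measurable F) (R : ℝ) :
    Measurable fun x : Fin 4 → R3 => if rad x ≤ R then 0 else F x :=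
  Measurable.ite (measurableSet_le continuous_rad.measurable measurable_const)
    measurable_const hF

theorem RI_inv_pow {k : ℕ} {p : ℕ} (hp : 3 * k < p) :
    RI fun x : Fin (k + 1) → R3 => ((1 + rad x) ^ p)⁻¹ := by
  have h1 := RI_one_add_rad (k := k) (p := (p : ℝ)) (by exact_mod_cast hp)
  have h2 : (fun x : Fin (k + 1) → R3 => ((1 + rad x) ^ p)⁻¹) =
      fun x => (1 + rad x) ^ (-(p : ℝ)) := by
    funext x
    have := rad_nonneg x
    rw [Real.rpow_neg (by linarith), Real.rpow_natCast]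
  rw [h2]
  exact h1

end FourB2Aux

open FourB2Aux

theorem chg_rhoR (hV : Pot V) {C : ℝ} (hm : Measurable φ) (ht : TI φ)
    (hb : ∀ x, |φ x| ≤ C / (1 + rad x) ^ 4) {z : (Fin 4 → R3) → ℝ} (hz : TF z) {R : ℝ}
    (hR : ∀ x, z x ≠ 0 → rad x ≤ R) :
    TI (rhoR V φ z R) ∧ ∃ B > 0, Chg B R (rhoR V φ z R) := by
  obtain ⟨B, hB, R0, hR0, hp⟩ := V4_props hV
  have hC := C_nonneg hb
  obtain ⟨Z, hZ0, hZ⟩ := NewtDAux.bdd_of_cont (k := 3) hz.c1.continuous hz.ti hR
  refine ⟨?_, 4 * (B * (Z + 3 * C)) + 1, by positivity, ?_, ?_, ?_⟩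
  · intro x v
    unfold rhoR
    have h1 : rad (fun m => x m + v) = rad x := TI_rad x v
    rw [h1, hz.ti x v]
    refine Finset.sum_congr rfl fun l _ => ?_
    rw [(hp l).2.1 x v, TI_s0 ht l x v]
  · unfold rhoR
    refine Finset.measurable_sum _ fun l _ => ?_
    exact (hp l).1.mul (hz.c1.continuous.measurable.sub (measurable_cut (measurable_s0 hm l) R))
  · intro x
    unfold rhoR
    refine (Finset.abs_sum_le_sum_abs _ _).trans ?_
    refine (Finset.sum_le_sum (g := fun _ => B * (Z + 3 * C)) fun l _ => ?_).trans ?_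
    · rw [abs_mul]
      have h1 := (hp l).2.2.1 x
      rw [abs_of_nonneg h1.1]
      refine mul_le_mul h1.2 ?_ (abs_nonneg _) hB.le
      refine (abs_sub _ _).trans (add_le_add (hZ x) ?_)
      split_ifs
      · exact abs_s0_le hb l x
      · rw [abs_zero]
        positivity
    · rw [Finset.sum_const]
      simp only [Finset.card_univ, Fintype.card_fin, nsmul_eq_mul]
      push_cast
      linarith
  · intro x hx
    by_contra hc
    apply hx
    have h1 : z x = 0 := by
      by_contra h2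
      exact hc (hR x h2)
    unfold rhoR
    refine Finset.sum_eq_zero fun l _ => ?_
    rw [h1, if_neg hc, sub_zero, mul_zero]

/-- A `C¹` invariant function with the decay of a potential whose weak Laplacian is small has a
small gradient. Proof: `ζ = u χ` with cutoffs of radius `n`; `rint (gg u (uχ)) → rint (gg u u)`
and `rint (gg (uχ) (uχ)) → rint (gg u u)` (the errors are `≤ C n^{-7} n^{-8} n^{-1} n^9`). -/
theorem small_gg {u : (Fin 4 → R3) → ℝ} (hu : ContDiff ℝ 1 u) (ht : TI u) {C δ : ℝ}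
    (hδ : 0 ≤ δ) (hb : ∀ x, |u x| ≤ C / (1 + rad x) ^ 7)
    (hb' : ∀ x m a, |pd u m a x| ≤ C / (1 + rad x) ^ 8)
    (h : ∀ ζ, TF ζ → rint (gg u ζ) ^ 2 ≤ δ * rint (gg ζ ζ)) :
    RI (gg u u) ∧ rint (gg u u) ≤ δ := by
  have hC := C_nonneg hb
  set G : (Fin 4 → R3) → ℝ := fun x => ((1 + rad x) ^ 14)⁻¹ with hG
  have hGI : RI G := RI_inv_pow (k := 3) (by norm_num)
  have hG0 : ∀ x, 0 ≤ G x := fun x => by
    have := rad_nonneg x
    rw [hG]
    positivity
  have hGp : ∀ x, ∀ p : ℕ, 14 ≤ p → ((1 + rad x) ^ p)⁻¹ ≤ G x := fun x p hp => by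
    have := rad_nonneg x
    exact inv_anti₀ (by positivity) (pow_le_pow_right₀ (by linarith) hp)
  have hguu : ∀ x, |gg u u x| ≤ 12 * C ^ 2 * ((1 + rad x) ^ 16)⁻¹ := fun x => by
    have h1 := abs_gg_le (k := 4) (hb' x) (hb' x)
    refine h1.trans (le_of_eq ?_)
    push_cast
    have h2 := rad_nonneg x
    field_simp
    ring
  have hgm : Measurable (gg u u) := (continuous_gg hu hu).measurable
  have hI : RI (gg u u) := by
    refine RI.mono (k := 3) (hGI.const_mul (12 * C ^ 2)) hgm fun x => ?_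
    exact (hguu x).trans (mul_le_mul_of_nonneg_left (hGp x 16 (by norm_num)) (by positivity))
  refine ⟨hI, ?_⟩
  obtain ⟨C1, hC1, hcut⟩ := exists_cutoff 4
  -- the total error constant
  set K : ℝ := 12 * C ^ 2 + 24 * C ^ 2 * C1 + 12 * C ^ 2 * C1 ^ 2 with hK
  have hK0 : 0 ≤ K := by positivity
  set A : ℝ := rint (gg u u) with hA
  have hA0 : 0 ≤ A := rint_nonneg (k := 3) fun x => gg_self_nonneg x
  have key : ∀ n : ℕ, ∃ a b : ℝ, |a - A| ≤ K * rint G / ((n : ℝ) + 1) ∧
      b ≤ A + K * rint G / ((n : ℝ) + 1) ∧ a ^ 2 ≤ δ * b := by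
    intro n
    have hn : (0 : ℝ) < (n : ℝ) + 1 := by positivity
    have hn1 : (1 : ℝ) ≤ (n : ℝ) + 1 := by
      have : (0 : ℝ) ≤ (n : ℝ) := n.cast_nonneg
      linarith
    obtain ⟨χ, hc2, hcti, -, hc01, hc1, hc0, hcp, -, hcs⟩ := hcut ((n : ℝ) + 1) hn
    have hχ1 : ContDiff ℝ 1 χ := hc2.of_le (by norm_num)
    have hζ : TF fun x => u x * χ x := by
      refine ⟨hu.mul hχ1, fun x v => ?_, 2 * ((n : ℝ) + 1), fun x hx => ?_⟩
      · rw [ht x v, hcti x v]
      · by_contra h2
        exact hx (by rw [hc0 x (not_le.mp h2).le, mul_zero])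
    refine ⟨_, _, ?_, ?_, h _ hζ⟩
    · -- the first error
      have e1 : rint (gg u fun x => u x * χ x) - A =
          rint fun x => gg u (fun x => u x * χ x) x - gg u u x :=
        (rint_sub (k := 3) (RI_gg_TF hζ hu ht) hI).symm
      rw [e1]
      have e2 : K * rint G / ((n : ℝ) + 1) = rint fun x => K / ((n : ℝ) + 1) * G x := by
        rw [rint_const_mul (k := 3)]
        ring
      rw [e2]
      refine abs_rint_le (k := 3) (hGI.const_mul _) fun x => ?_
      have hx0 := rad_nonneg x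
      rw [gg_mul_right hu hχ1]
      have e3 : u x * gg u χ x + χ x * gg u u x - gg u u x =
          u x * gg u χ x - (1 - χ x) * gg u u x := by ring
      rw [e3]
      refine (abs_sub _ _).trans ?_
      have t1 : |u x * gg u χ x| ≤ 12 * C ^ 2 * C1 / ((n : ℝ) + 1) * G x := by
        rw [abs_mul]
        have h1 := abs_gg_le (k := 4) (hb' x) (fun m a => hcp m a x)
        have h2 : |u x| * |gg u χ x| ≤ C / (1 + rad x) ^ 7 *
            (3 * (4 : ℕ) * (C / (1 + rad x) ^ 8 * (C1 / ((n : ℝ) + 1)))) :=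
          mul_le_mul (hb x) h1 (abs_nonneg _) (by positivity)
        refine h2.trans ?_
        have h3 : C / (1 + rad x) ^ 7 *
            (3 * (4 : ℕ) * (C / (1 + rad x) ^ 8 * (C1 / ((n : ℝ) + 1)))) =
            12 * C ^ 2 * C1 / ((n : ℝ) + 1) * ((1 + rad x) ^ 15)⁻¹ := by
          push_cast
          field_simp
          ring
        rw [h3]
        exact mul_le_mul_of_nonneg_left (hGp x 15 (by norm_num)) (by positivity)
      have t2 : |(1 - χ x) * gg u u x| ≤ 12 * C ^ 2 / ((n : ℝ) + 1) * G x := by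
        by_cases hx : rad x ≤ (n : ℝ) + 1
        · rw [hc1 x hx]
          simp only [sub_self, zero_mul, abs_zero]
          have := hG0 x
          positivity
        · rw [abs_mul]
          have h1 : |1 - χ x| ≤ 1 := by
            have := hc01 x
            rw [abs_le]
            constructor <;> linarith
          have h2 : |1 - χ x| * |gg u u x| ≤ 1 * (12 * C ^ 2 * ((1 + rad x) ^ 16)⁻¹) :=
            mul_le_mul h1 (hguu x) (abs_nonneg _) zero_le_one
          refine h2.trans ?_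
          rw [one_mul]
          have h3 : ((1 + rad x) ^ 16)⁻¹ ≤ ((n : ℝ) + 1)⁻¹ * G x := by
            have h4 : ((1 + rad x) ^ 16)⁻¹ = (1 + rad x)⁻¹ * ((1 + rad x) ^ 15)⁻¹ := by
              field_simp
            rw [h4]
            refine mul_le_mul ?_ (hGp x 15 (by norm_num)) (by positivity) (by positivity)
            exact inv_anti₀ hn (by linarith [not_le.mp hx])
          calc 12 * C ^ 2 * ((1 + rad x) ^ 16)⁻¹ ≤ 12 * C ^ 2 * (((n : ℝ) + 1)⁻¹ * G x) :=
                mul_le_mul_of_nonneg_left h3 (by positivity)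
            _ = 12 * C ^ 2 / ((n : ℝ) + 1) * G x := by ring
      have t3 : 12 * C ^ 2 * C1 / ((n : ℝ) + 1) * G x + 12 * C ^ 2 / ((n : ℝ) + 1) * G x ≤
          K / ((n : ℝ) + 1) * G x := by
        rw [← add_mul, ← add_div]
        refine mul_le_mul_of_nonneg_right ?_ (hG0 x)
        refine div_le_div_of_nonneg_right ?_ hn.le
        rw [hK]
        have : 0 ≤ C ^ 2 * C1 := by positivity
        have : 0 ≤ C ^ 2 * C1 ^ 2 := by positivity
        linarith
      linarith
    · -- the second error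
      have e2 : A + K * rint G / ((n : ℝ) + 1) =
          rint fun x => gg u u x + K / ((n : ℝ) + 1) * G x := by
        rw [rint_add (k := 3) hI (hGI.const_mul _), rint_const_mul (k := 3)]
        ring
      rw [e2]
      refine rint_mono (k := 3) (RI_gg_TF hζ hζ.c1 hζ.ti) (hI.add (hGI.const_mul _)) fun x => ?_
      have hx0 := rad_nonneg x
      have hχ2 : ContDiff ℝ 1 fun x => χ x ^ 2 := hχ1.pow 2
      rw [gg_mul_self hu hχ1, gg_mul_right hu hχ2]
      have e4 : gg u (fun x => χ x ^ 2) x = 2 * χ x * gg u χ x := by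
        have e5 : (fun x => χ x ^ 2) = fun x => χ x * χ x := by
          funext x
          ring
        rw [e5, gg_mul_right hχ1 hχ1]
        ring
      rw [e4]
      have hch := hc01 x
      have t0 : χ x ^ 2 * gg u u x ≤ gg u u x := by
        have h1 : χ x ^ 2 ≤ 1 := pow_le_one₀ hch.1 hch.2
        have h2 := gg_self_nonneg (φ := u) x
        nlinarith
      have t1 : u x * (2 * χ x * gg u χ x) ≤ 24 * C ^ 2 * C1 / ((n : ℝ) + 1) * G x := by
        refine (le_abs_self _).trans ?_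
        rw [abs_mul, abs_mul]
        have h1 := abs_gg_le (k := 4) (hb' x) (fun m a => hcp m a x)
        have h0 : |2 * χ x| ≤ 2 := by
          rw [abs_le]
          constructor <;> linarith
        have h2 : |u x| * (|2 * χ x| * |gg u χ x|) ≤ C / (1 + rad x) ^ 7 *
            (2 * (3 * (4 : ℕ) * (C / (1 + rad x) ^ 8 * (C1 / ((n : ℝ) + 1))))) := by
          refine mul_le_mul (hb x) ?_ (by positivity) (by positivity)
          exact mul_le_mul h0 h1 (abs_nonneg _) (by norm_num)
        refine h2.trans ?_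
        have h3 : C / (1 + rad x) ^ 7 *
            (2 * (3 * (4 : ℕ) * (C / (1 + rad x) ^ 8 * (C1 / ((n : ℝ) + 1))))) =
            24 * C ^ 2 * C1 / ((n : ℝ) + 1) * ((1 + rad x) ^ 15)⁻¹ := by
          push_cast
          field_simp
          ring
        rw [h3]
        exact mul_le_mul_of_nonneg_left (hGp x 15 (by norm_num)) (by positivity)
      have t2 : u x ^ 2 * gg χ χ x ≤ 12 * C ^ 2 * C1 ^ 2 / ((n : ℝ) + 1) * G x := by
        have h1 := abs_gg_le (k := 4) (fun m a => hcp m a x) (fun m a => hcp m a x)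
        have h2 : u x ^ 2 ≤ (C / (1 + rad x) ^ 7) ^ 2 := by
          rw [← sq_abs]
          exact pow_le_pow_left₀ (abs_nonneg _) (hb x) 2
        have h3 : u x ^ 2 * gg χ χ x ≤ (C / (1 + rad x) ^ 7) ^ 2 *
            (3 * (4 : ℕ) * (C1 / ((n : ℝ) + 1) * (C1 / ((n : ℝ) + 1)))) := by
          refine mul_le_mul h2 ((le_abs_self _).trans h1) (gg_self_nonneg x) (by positivity)
        refine h3.trans ?_
        have h4 : (C / (1 + rad x) ^ 7) ^ 2 *
            (3 * (4 : ℕ) * (C1 / ((n : ℝ) + 1) * (C1 / ((n : ℝ) + 1)))) =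
            12 * C ^ 2 * C1 ^ 2 / ((n : ℝ) + 1) * (((n : ℝ) + 1)⁻¹ * ((1 + rad x) ^ 14)⁻¹) := by
          push_cast
          field_simp
          ring
        rw [h4]
        refine mul_le_mul_of_nonneg_left ?_ (by positivity)
        have h5 : ((n : ℝ) + 1)⁻¹ ≤ 1 := inv_le_one_of_one_le₀ hn1
        have h6 := hG0 x
        calc ((n : ℝ) + 1)⁻¹ * ((1 + rad x) ^ 14)⁻¹ ≤ 1 * G x :=
              mul_le_mul_of_nonneg_right h5 h6
          _ = G x := one_mul _
      have t3 : 24 * C ^ 2 * C1 / ((n : ℝ) + 1) * G x +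
          12 * C ^ 2 * C1 ^ 2 / ((n : ℝ) + 1) * G x ≤ K / ((n : ℝ) + 1) * G x := by
        rw [← add_mul, ← add_div]
        refine mul_le_mul_of_nonneg_right ?_ (hG0 x)
        refine div_le_div_of_nonneg_right ?_ hn.le
        rw [hK]
        have : 0 ≤ C ^ 2 := by positivity
        linarith
      linarith
  -- the limit
  choose a b ha hb2 hab using key
  have hlim : Tendsto (fun n : ℕ => K * rint G / ((n : ℝ) + 1)) atTop (𝓝 0) :=
    tendsto_const_div_atTop_nhds_zero_nat (K * rint G) |>.comp (tendsto_add_atTop_nat 1) |>.congr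
      fun n => by simp
  have hla : Tendsto a atTop (𝓝 A) := by
    rw [tendsto_iff_dist_tendsto_zero]
    refine squeeze_zero (fun n => dist_nonneg) (fun n => ?_) hlim
    rw [Real.dist_eq]
    exact ha n
  have h1 : Tendsto (fun n => a n ^ 2) atTop (𝓝 (A ^ 2)) := hla.pow 2
  have h2 : Tendsto (fun n : ℕ => δ * (A + K * rint G / ((n : ℝ) + 1))) atTop (𝓝 (δ * (A + 0))) :=
    (tendsto_const_nhds.add hlim).const_mul δ
  have h3 : A ^ 2 ≤ δ * (A + 0) := le_of_tendsto_of_tendsto' h1 h2 fun n =>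
    (hab n).trans (mul_le_mul_of_nonneg_left (hb2 n) hδ)
  rw [add_zero] at h3
  rcases hA0.eq_or_lt with h4 | h4
  · rw [← h4]
    exact hδ
  · nlinarith

/-- **The corrected trial function.** With `v = Newt (rhoR V φ z R)`, `u = z + v`:
`rint (gg u ζ) = - ell z ζ + rint (∑ V_l s_l 1_{rad > R} ζ)`; the first term is small by
`exists_opt`, the second one by `tail_V4_s0_sq`, Cauchy–Schwarz and `hardyV`; `small_gg`. -/
theorem exists_corr (hV : Pot V) {C : ℝ} (hm : Measurable φ) (ht : TI φ)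
    (hb : ∀ x, |φ x| ≤ C / (1 + rad x) ^ 4) {η : ℝ} (hη : 0 < η) :
    ∃ z, ∃ R > 0, TF z ∧ (∀ x, z x ≠ 0 → rad x ≤ R) ∧ |EE V z - calS V φ| ≤ η ∧
      (∀ l, rint (fun x => if rad x ≤ R then 0 else V4 V l x * s0 φ l x ^ 2) ≤ η) ∧
      ∃ v : (Fin 4 → R3) → ℝ, ContDiff ℝ 1 v ∧ TI v ∧
        (∃ C', ∀ x, |v x| ≤ C' / (1 + rad x) ^ 7 ∧
          ∀ m a, |pd v m a x| ≤ C' / (1 + rad x) ^ 8) ∧
        (∀ ζ, TF ζ → rint (gg v ζ) = rint fun x => rhoR V φ z R x * ζ x) ∧
        RI (gg (fun x => z x + v x) fun x => z x + v x) ∧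
        rint (gg (fun x => z x + v x) fun x => z x + v x) ≤ η := by
  obtain ⟨B, hB, R0, hR0, hp⟩ := V4_props hV
  obtain ⟨H, hH, hhardy⟩ := hardyV hV
  have hC := C_nonneg hb
  obtain ⟨z, hz, hzell, hzE⟩ := exists_opt hV hm hb (η := η / 4) (by positivity)
  obtain ⟨Rz, hRz⟩ := hz.supp
  obtain ⟨Rt, hRt⟩ := tail_V4_s0_sq hV hm hb (η := min η (η / (64 * H)))
    (lt_min hη (by positivity))
  set R : ℝ := max 1 (max Rz Rt) with hR
  have hR1 : 0 < R := lt_of_lt_of_le one_pos (le_max_left _ _)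
  have hRRz : Rz ≤ R := (le_max_left _ _).trans (le_max_right _ _)
  have hRRt : Rt ≤ R := (le_max_right _ _).trans (le_max_right _ _)
  have hzR : ∀ x, z x ≠ 0 → rad x ≤ R := fun x hx => (hRz x hx).trans hRRz
  have htail := hRt R hRRt
  obtain ⟨hρt, B1, hB1, hρ⟩ := chg_rhoR hV hm ht hb hz hzR
  have hk : 0 < 3 := by norm_num
  obtain ⟨D, hD, hdec⟩ := Newt_decay (k := 3) hk hR1.le
  have hdec' := hdec B1 (rhoR V φ z R) hρ
  obtain ⟨hv1, hv2⟩ := contDiff_Newt hk hρ
  have hvt : TI (Newt (k := 3) (rhoR V φ z R)) := TI_Newt _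
  obtain ⟨v, hv⟩ : ∃ v : (Fin 4 → R3) → ℝ, v = Newt (k := 3) (rhoR V φ z R) := ⟨_, rfl⟩
  rw [← hv] at hvt hv1 hdec'
  have hweak : ∀ ζ, TF ζ → rint (gg v ζ) = rint fun x => rhoR V φ z R x * ζ x := fun ζ hζ => by
    rw [hv]
    exact Newt_weak hk hρ hζ
  -- bounds of `z`
  obtain ⟨Z, hZ0, hZ⟩ := NewtDAux.bdd_of_cont (k := 3) hz.c1.continuous hz.ti hzR
  have hz' : ∃ Z', 0 ≤ Z' ∧ ∀ x m a, |pd z m a x| ≤ Z' := by
    have h1 : ∀ m a, ∃ Z', 0 ≤ Z' ∧ ∀ x, |pd z m a x| ≤ Z' := fun m a =>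
      NewtDAux.bdd_of_cont (k := 3) (continuous_pd hz.c1 m a) (TI_pd hz.ti m a)
        (pd_eq_zero_of_rad hz.c1 hzR m a)
    choose Zf hZf0 hZf using h1
    refine ⟨∑ m, ∑ a, Zf m a, Finset.sum_nonneg fun m _ => Finset.sum_nonneg fun a _ => hZf0 m a,
      fun x m a => (hZf m a x).trans ?_⟩
    refine (Finset.single_le_sum (f := fun a => Zf m a) (fun a _ => hZf0 m a)
      (Finset.mem_univ a)).trans ?_
    exact Finset.single_le_sum (f := fun m => ∑ a, Zf m a)
      (fun m _ => Finset.sum_nonneg fun a _ => hZf0 m a) (Finset.mem_univ m)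
  obtain ⟨Z', hZ'0, hZ'⟩ := hz'
  set E : ℝ := D * B1 + Z * (1 + R) ^ 7 + Z' * (1 + R) ^ 8 with hE
  have hE0 : 0 ≤ E := by positivity
  have hcpt : ∀ (x : Fin 4 → R3) (p : ℕ) (Y y : ℝ), 0 ≤ Y → |y| ≤ Y → (y ≠ 0 → rad x ≤ R) →
      |y| ≤ Y * (1 + R) ^ p / (1 + rad x) ^ p := by
    intro x p Y y hY0 hyY hyR
    have hx0 := rad_nonneg x
    by_cases hy : y = 0
    · rw [hy, abs_zero]
      positivity
    · rw [le_div_iff₀ (by positivity)]
      refine mul_le_mul hyY ?_ (by positivity) hY0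
      exact pow_le_pow_left₀ (by positivity) (by linarith [hyR hy]) p
  have hu1 : ∀ x, |z x + v x| ≤ E / (1 + rad x) ^ 7 := by
    intro x
    have hx0 := rad_nonneg x
    refine (abs_add_le _ _).trans ?_
    have h1 := hcpt x 7 Z (z x) hZ0 (hZ x) (hzR x)
    have h2 : |v x| ≤ D * B1 / (1 + rad x) ^ 7 := (hdec' x).1
    have h3 : Z * (1 + R) ^ 7 / (1 + rad x) ^ 7 + D * B1 / (1 + rad x) ^ 7 ≤
        E / (1 + rad x) ^ 7 := by
      rw [← add_div]
      refine div_le_div_of_nonneg_right ?_ (by positivity)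
      have : 0 ≤ Z' * (1 + R) ^ 8 := by positivity
      rw [hE]
      linarith
    linarith
  have hu2 : ∀ x m a, |pd (fun x => z x + v x) m a x| ≤ E / (1 + rad x) ^ 8 := by
    intro x m a
    have hx0 := rad_nonneg x
    rw [pd_add (hz.c1.differentiable one_ne_zero x) (hv1.differentiable one_ne_zero x)]
    refine (abs_add_le _ _).trans ?_
    have h1 := hcpt x 8 Z' (pd z m a x) hZ'0 (hZ' x m a) (pd_eq_zero_of_rad hz.c1 hzR m a x)
    have h2 : |pd v m a x| ≤ D * B1 / (1 + rad x) ^ 8 := (hdec' x).2 m a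
    have h3 : Z' * (1 + R) ^ 8 / (1 + rad x) ^ 8 + D * B1 / (1 + rad x) ^ 8 ≤
        E / (1 + rad x) ^ 8 := by
      rw [← add_div]
      refine div_le_div_of_nonneg_right ?_ (by positivity)
      have : 0 ≤ Z * (1 + R) ^ 7 := by positivity
      rw [hE]
      linarith
    linarith
  -- the weak smallness
  have hsmall : ∀ ζ, TF ζ → rint (gg (fun x => z x + v x) ζ) ^ 2 ≤ η * rint (gg ζ ζ) := by
    intro ζ hζ
    have hζζ : 0 ≤ rint (gg ζ ζ) := rint_nonneg (k := 3) fun x => gg_self_nonneg x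
    -- the pieces
    have hVs : ∀ l x, |V4 V l x * s0 φ l x| ≤ B * (3 * C) := fun l x => by
      rw [abs_mul, abs_of_nonneg ((hp l).2.2.1 x).1]
      exact mul_le_mul ((hp l).2.2.1 x).2 (abs_s0_le hb l x) (abs_nonneg _) hB.le
    have hVsm : ∀ l, Measurable fun x => V4 V l x * s0 φ l x := fun l =>
      (hp l).1.mul (measurable_s0 hm l)
    have i1 : ∀ l, RI fun x => V4 V l x * s0 φ l x * ζ x := fun l => RI_TF hζ (hVsm l) (hVs l)
    have i2 : ∀ l, RI fun x => V4 V l x * z x * ζ x := fun l => by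
      refine RI_TF hζ ((hp l).1.mul hz.c1.continuous.measurable) (B := B * Z) fun x => ?_
      rw [abs_mul, abs_of_nonneg ((hp l).2.2.1 x).1]
      exact mul_le_mul ((hp l).2.2.1 x).2 (hZ x) (abs_nonneg _) hB.le
    have i3 : ∀ l, RI fun x => (if rad x ≤ R then 0 else V4 V l x * s0 φ l x) * ζ x := fun l => by
      refine RI_TF hζ (measurable_cut' (hVsm l) R) (B := B * (3 * C)) fun x => ?_
      split_ifs
      · rw [abs_zero]
        positivity
      · exact hVs l x
    have i4 : RI (gg z ζ) := RI_gg_TF hζ hz.c1 hz.ti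
    have i5 : RI (gg v ζ) := RI_gg_TF hζ hv1 hvt
    have isum : ∀ {F : Fin 4 → (Fin 4 → R3) → ℝ}, (∀ l, RI (k := 3) (F l)) →
        RI (k := 3) fun x => ∑ l, F l x := fun {F} hF =>
      MeasureTheory.integrable_finsetSum _ fun l _ => hF l
    have e1 : rint (gg (fun x => z x + v x) ζ) = rint (gg z ζ) + rint (gg v ζ) := by
      rw [← rint_add (k := 3) i4 i5]
      congr 1
      funext x
      exact gg_add_left hz.c1 hv1 x
    have e2 : rint (fun x => rhoR V φ z R x * ζ x) =
        rint (fun x => ∑ l, V4 V l x * z x * ζ x) - rint (fun x => ∑ l, V4 V l x * s0 φ l x * ζ x) +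
          rint (fun x => ∑ l, (if rad x ≤ R then 0 else V4 V l x * s0 φ l x) * ζ x) := by
      rw [← rint_sub (k := 3) (isum i2) (isum i1),
        ← rint_add (k := 3) ((isum i2).sub (isum i1)) (isum i3)]
      congr 1
      funext x
      unfold rhoR
      rw [Finset.sum_mul, ← Finset.sum_sub_distrib, ← Finset.sum_add_distrib]
      refine Finset.sum_congr rfl fun l _ => ?_
      split_ifs <;> ring
    have e3 : ell V φ z ζ = rint (fun x => ∑ l, V4 V l x * s0 φ l x * ζ x) - rint (gg z ζ) -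
        rint (fun x => ∑ l, V4 V l x * z x * ζ x) := by
      unfold ell
      rw [rint_sub (k := 3) ((isum i1).sub i4) (isum i2), rint_sub (k := 3) (isum i1) i4]
    have e4 : rint (gg (fun x => z x + v x) ζ) = - ell V φ z ζ +
        ∑ l, rint (fun x => (if rad x ≤ R then 0 else V4 V l x * s0 φ l x) * ζ x) := by
      rw [e1, hweak ζ hζ, e2, e3, ← rint_sum (k := 3) _ _ fun l _ => i3 l]
      ring
    -- the tail
    have t1 : ∀ l, rint (fun x => (if rad x ≤ R then 0 else V4 V l x * s0 φ l x) * ζ x) ^ 2 ≤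
        η / 64 * rint (gg ζ ζ) := by
      intro l
      set F : (Fin 4 → R3) → ℝ := fun x => if rad x ≤ R then 0 else
        Real.sqrt (V4 V l x) * s0 φ l x with hF
      set G : (Fin 4 → R3) → ℝ := fun x => Real.sqrt (V4 V l x) * ζ x with hG
      have hsm : Measurable fun x => Real.sqrt (V4 V l x) := (hp l).1.sqrt
      have hFm : Measurable F := measurable_cut' (hsm.mul (measurable_s0 hm l)) R
      have hGm : Measurable G := hsm.mul hζ.c1.continuous.measurable
      have hsq : ∀ x, Real.sqrt (V4 V l x) ^ 2 = V4 V l x := fun x =>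
        Real.sq_sqrt ((hp l).2.2.1 x).1
      have hFF : (fun x => F x ^ 2) = fun x => if rad x ≤ R then 0 else
          V4 V l x * s0 φ l x ^ 2 := by
        funext x
        rw [hF]
        beta_reduce
        split_ifs
        · ring
        · rw [mul_pow, hsq]
      have hGG : (fun x => G x ^ 2) = fun x => V4 V l x * ζ x ^ 2 := by
        funext x
        rw [hG]
        beta_reduce
        rw [mul_pow, hsq]
      have hFG : (fun x => (if rad x ≤ R then 0 else V4 V l x * s0 φ l x) * ζ x) =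
          fun x => F x * G x := by
        funext x
        rw [hF, hG]
        beta_reduce
        split_ifs
        · ring
        · calc V4 V l x * s0 φ l x * ζ x = Real.sqrt (V4 V l x) ^ 2 * s0 φ l x * ζ x := by
                rw [hsq]
            _ = _ := by ring
      have hF2 : RI (k := 3) fun x => F x ^ 2 := by
        rw [hFF]
        refine RI.mono (k := 3) (RI_V4_s0_sq hV hm hb l)
          (measurable_cut' ((hp l).1.mul ((measurable_s0 hm l).pow_const 2)) R) fun x => ?_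
        have h1 : 0 ≤ V4 V l x * s0 φ l x ^ 2 :=
          mul_nonneg ((hp l).2.2.1 x).1 (sq_nonneg _)
        split_ifs
        · rw [abs_zero]
          exact h1
        · rw [abs_of_nonneg h1]
      obtain ⟨Rζ, hRζ⟩ := hζ.supp
      obtain ⟨Y, hY0, hY⟩ := NewtDAux.bdd_of_cont (k := 3) hζ.c1.continuous hζ.ti hRζ
      have hG2 : RI (k := 3) fun x => G x ^ 2 := by
        rw [hGG]
        have h1 := RI_TF hζ (F := fun x => V4 V l x * ζ x) (B := B * Y)
          ((hp l).1.mul hζ.c1.continuous.measurable) fun x => by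
            rw [abs_mul, abs_of_nonneg ((hp l).2.2.1 x).1]
            exact mul_le_mul ((hp l).2.2.1 x).2 (hY x) (abs_nonneg _) hB.le
        have h2 : (fun x => V4 V l x * ζ x ^ 2) = fun x => V4 V l x * ζ x * ζ x := by
          funext x
          ring
        rw [h2]
        exact h1
      rw [hFG]
      refine (rint_mul_sq_le (k := 3) hFm hGm hF2 hG2).trans ?_
      rw [hFF, hGG]
      have h1 := (htail l).trans (min_le_right _ _)
      have h2 := hhardy ζ hζ l
      have h3 : 0 ≤ rint fun x => V4 V l x * ζ x ^ 2 := rint_nonneg (k := 3) fun x =>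
        mul_nonneg ((hp l).2.2.1 x).1 (sq_nonneg _)
      calc _ ≤ η / (64 * H) * (H * rint (gg ζ ζ)) := mul_le_mul h1 h2 h3 (by positivity)
        _ = η / 64 * rint (gg ζ ζ) := by
          field_simp
    have t2 : (∑ l, rint (fun x => (if rad x ≤ R then 0 else V4 V l x * s0 φ l x) * ζ x)) ^ 2 ≤
        η / 4 * rint (gg ζ ζ) := by
      have h1 := sq_sum_le_card_mul_sum_sq (s := (Finset.univ : Finset (Fin 4)))
        (f := fun l => rint fun x => (if rad x ≤ R then 0 else V4 V l x * s0 φ l x) * ζ x)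
      refine h1.trans ?_
      simp only [Finset.card_univ, Fintype.card_fin]
      have h2 := Finset.sum_le_sum (s := (Finset.univ : Finset (Fin 4))) fun l _ => t1 l
      rw [Finset.sum_const, Finset.card_univ, Fintype.card_fin, nsmul_eq_mul] at h2
      push_cast at h2 ⊢
      linarith
    have t3 := hzell ζ hζ
    rw [e4]
    nlinarith [sq_nonneg (ell V φ z ζ +
      ∑ l, rint (fun x => (if rad x ≤ R then 0 else V4 V l x * s0 φ l x) * ζ x))]
  obtain ⟨hfin1, hfin2⟩ := small_gg (u := fun x => z x + v x) (hz.c1.add hv1)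
    (fun x w => by
      beta_reduce
      rw [hz.ti x w, hvt x w]) hη.le hu1 hu2 hsmall
  refine ⟨z, R, hR1, hz, hzR, hzE.trans (by linarith), fun l => (htail l).trans (min_le_left _ _),
    v, hv1, hvt, ⟨D * B1, fun x => ⟨(hdec' x).1, (hdec' x).2⟩⟩, hweak, hfin1, hfin2⟩

end Pool.Agent.Lib.MP_5db8e2_mp
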