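import Pool.Agent.Lib.MP_5db8e2_mp.FourA2
import Pool.Agent.Lib.MP_5db8e2_mp.FourA3

/-!
# The value of the four-body data
-/

set_option autoImplicit false

open MeasureTheory Filter Topology

namespace Pool.Agent.Lib.MP_5db8e2_mp

variable {V : R3 → R3 → ℝ} {φ : (Fin 3 → R3) → ℝ}

/-- `Φ = ∑_l φ_l`. -/
noncomputable def Phi4 (φ : (Fin 3 → R3) → ℝ) (x : Fin 4 → R3) : ℝ := ∑ l, ph φ l x

/-- The cross terms of the three-body functions. -/
noncomputable def A1 (φ : (Fin 3 → R3) → ℝ) : ℝ :=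
  rint fun x => ∑ l, ∑ l' ∈ Finset.univ.erase l, gg (ph φ l) (ph φ l') x

/-- Bounded measurable functions supported in a ball. -/
private structure BS (F : (Fin 4 → R3) → ℝ) : Prop where
  m : Measurable F
  b : ∃ B, ∀ x, |F x| ≤ B
  s : ∃ R, ∀ x, F x ≠ 0 → rad x ≤ R

private theorem BS.ri {F : (Fin 4 → R3) → ℝ} (h : BS F) : RI F := by
  obtain ⟨B, hB⟩ := h.b
  obtain ⟨R, hR⟩ := h.s
  exact RI_of_bdd h.m hB hR

private theorem BS.zero : BS (fun _ => 0) :=
  ⟨measurable_const, ⟨0, by simp⟩, ⟨0, by simp⟩⟩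

private theorem BS.add {F G : (Fin 4 → R3) → ℝ} (h : BS F) (h' : BS G) :
    BS (fun x => F x + G x) := by
  obtain ⟨B, hB⟩ := h.b
  obtain ⟨R, hR⟩ := h.s
  obtain ⟨B', hB'⟩ := h'.b
  obtain ⟨R', hR'⟩ := h'.s
  refine ⟨h.m.add h'.m, ⟨B + B', fun x => (abs_add_le _ _).trans (add_le_add (hB x) (hB' x))⟩,
    ⟨max R R', fun x hx => ?_⟩⟩
  by_cases h0 : F x = 0
  · have : G x ≠ 0 := by
      intro h1
      exact hx (by rw [h0, h1, add_zero])
    exact (hR' x this).trans (le_max_right _ _)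
  · exact (hR x h0).trans (le_max_left _ _)

private theorem BS.sum {ι : Type*} (s : Finset ι) {F : ι → (Fin 4 → R3) → ℝ}
    (h : ∀ i ∈ s, BS (F i)) : BS (fun x => ∑ i ∈ s, F i x) := by
  classical
  induction s using Finset.induction_on with
  | empty => simpa using BS.zero
  | insert i s hi ih =>
    have h1 : BS (fun x => F i x + ∑ j ∈ s, F j x) :=
      BS.add (h i (Finset.mem_insert_self _ _)) (ih fun j hj => h j (Finset.mem_insert_of_mem hj))
    have : (fun x => ∑ j ∈ insert i s, F j x) = fun x => F i x + ∑ j ∈ s, F j x := by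
      funext x
      exact Finset.sum_insert hi
    rw [this]
    exact h1

private theorem BS.mul {F G : (Fin 4 → R3) → ℝ} (h : BS F) (hm : Measurable G)
    (hb : ∃ B, ∀ x, |G x| ≤ B) : BS (fun x => F x * G x) := by
  obtain ⟨B, hB⟩ := h.b
  obtain ⟨R, hR⟩ := h.s
  obtain ⟨B', hB'⟩ := hb
  refine ⟨h.m.mul hm, ⟨B * B', fun x => ?_⟩, ⟨R, fun x hx => hR x fun h0 => hx (by rw [h0, zero_mul])⟩⟩
  rw [abs_mul]
  exact mul_le_mul (hB x) (hB' x) (abs_nonneg _) ((abs_nonneg _).trans (hB x))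

private theorem BS.mul_left {F G : (Fin 4 → R3) → ℝ} (h : BS F) (hm : Measurable G)
    (hb : ∃ B, ∀ x, |G x| ≤ B) : BS (fun x => G x * F x) := by
  have := h.mul hm hb
  simpa only [mul_comm] using this

private theorem div_pow_le {C t : ℝ} (hC : 0 ≤ C) (ht : 0 ≤ t) (n : ℕ) :
    C / (1 + t) ^ n ≤ C :=
  div_le_self hC (one_le_pow₀ (by linarith))

private theorem rint_congr' {F G : (Fin 4 → R3) → ℝ} (h : ∀ x, F x = G x) : rint F = rint G := by
  have : F = G := funext h
  rw [this]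

/-- **The value of the four-body data.** The relative weak equation
`rint (g·∇ζ) = - rint ((∑ V_l s_l + w) ζ)` (`rel_of_weak`) holds for `ζ = χ` and `ζ = Φ χ` with a
cutoff `χ = 1` on the supports of `g, s, w`: hence `W = - rint (∑ V_l s_l)` and
`∑_l rint (∇φ_l·g) = - rint (∑ V_l s_l Φ) - rint (w Φ)`. Insert this into `QQ_eq`:
`2W - QQ = - A1 + 2 ∑ V s (Φ - φ_l) - ∑ V s² - |g|² + 2 w Φ` (all integrated), and
`Φ - φ_l = s0 φ l`, `2 s s⁰ - s² = (s⁰)² - (s - s⁰)²`. -/
theorem val_eq (hV : Pot V) {C K R r W QQ : ℝ} (h1 : ContDiff ℝ 1 φ) (ht : TI φ)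
    (hb : ∀ x, |φ x| ≤ C / (1 + rad x) ^ 4) (hb' : ∀ x m a, |pd φ m a x| ≤ C / (1 + rad x) ^ 5)
    {g : Fin 4 → Fin 3 → (Fin 4 → R3) → ℝ} {s : Fin 4 → (Fin 4 → R3) → ℝ}
    {w : (Fin 4 → R3) → ℝ} (hd : Data4 V φ K R r W QQ g s w) :
    2 * W - QQ = - A1 φ + (∑ l, rint fun x => V4 V l x * s0 φ l x ^ 2)
      - (∑ l, rint fun x => V4 V l x * (s l x - s0 φ l x) ^ 2)
      - (rint fun x => ∑ m, ∑ a, g m a x ^ 2) + 2 * rint fun x => w x * Phi4 φ x := by
  classical
  have hC : 0 ≤ C := by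
    have h := (abs_nonneg _).trans (hb 0)
    by_contra hneg
    push Not at hneg
    have : C / (1 + rad (0 : Fin 3 → R3)) ^ 4 < 0 :=
      div_neg_of_neg_of_pos hneg (pow_pos (by linarith [rad_nonneg (0 : Fin 3 → R3)]) _)
    linarith
  have hφb : ∀ x, |φ x| ≤ C := fun x => (hb x).trans (div_pow_le hC (rad_nonneg x) 4)
  have hφb' : ∀ x m a, |pd φ m a x| ≤ C := fun x m a =>
    (hb' x m a).trans (div_pow_le hC (rad_nonneg x) 5)
  have hφm : Measurable φ := h1.continuous.measurable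
  -- the functions `ph φ l`
  have phc : ∀ l, ContDiff ℝ 1 (ph φ l) := fun l => contDiff_ph h1 l
  have phm : ∀ l, Measurable (ph φ l) := fun l => (phc l).continuous.measurable
  have phb : ∀ l, ∃ B, ∀ x, |ph φ l x| ≤ B := fun l => ⟨C, fun x => hφb _⟩
  have pdm : ∀ l m a, Measurable (pd (ph φ l) m a) := fun l m a =>
    (continuous_pd (phc l) m a).measurable
  have pdb : ∀ l m a, ∃ B, ∀ x, |pd (ph φ l) m a x| ≤ B := by
    intro l m a
    refine ⟨C, fun x => ?_⟩
    rcases Fin.eq_self_or_eq_succAbove l m with h | ⟨j, h⟩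
    · rw [h, pd_ph_self h1, abs_zero]
      exact hC
    · rw [h, pd_ph h1]
      exact hφb' _ _ _
  -- `Phi4`
  have Pc : ContDiff ℝ 1 (Phi4 φ) := by
    unfold Phi4
    exact ContDiff.sum fun l _ => phc l
  have Pm : Measurable (Phi4 φ) := Pc.continuous.measurable
  have Pb : ∃ B, ∀ x, |Phi4 φ x| ≤ B := by
    refine ⟨4 * C, fun x => ?_⟩
    unfold Phi4
    refine (Finset.abs_sum_le_sum_abs _ _).trans ?_
    refine (Finset.sum_le_sum fun l _ => hφb (sub4 l x)).trans ?_
    simp
  have Pti : TI (Phi4 φ) := by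
    intro x v
    unfold Phi4
    exact Finset.sum_congr rfl fun l _ => TI_ph ht l x v
  have Ps0 : ∀ l x, Phi4 φ x = ph φ l x + s0 φ l x := by
    intro l x
    unfold Phi4 s0
    exact (Finset.add_sum_erase Finset.univ (fun l => ph φ l x) (Finset.mem_univ l)).symm
  have s0m : ∀ l, Measurable (s0 φ l) := fun l => measurable_s0 hφm l
  have s0b : ∀ l, ∃ B, ∀ x, |s0 φ l x| ≤ B := by
    intro l
    refine ⟨5 * C, fun x => ?_⟩
    obtain ⟨B, hB⟩ := Pb
    have h2 : s0 φ l x = Phi4 φ x - ph φ l x := by rw [Ps0 l x]; ring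
    have h3 : |Phi4 φ x| ≤ 4 * C := by
      unfold Phi4
      refine (Finset.abs_sum_le_sum_abs _ _).trans ?_
      refine (Finset.sum_le_sum fun l _ => hφb (sub4 l x)).trans ?_
      simp
    rw [h2]
    refine (abs_sub _ _).trans ?_
    have h4 := hφb (sub4 l x)
    unfold ph
    linarith
  -- the data
  obtain ⟨BV, hBV, RV, hRV, hVp⟩ := V4_props hV
  have V4m : ∀ l, Measurable (V4 V l) := fun l => (hVp l).1
  have V4b : ∀ l, ∃ B, ∀ x, |V4 V l x| ≤ B := fun l =>
    ⟨BV, fun x => by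
      have := (hVp l).2.2.1 x
      rw [abs_of_nonneg this.1]
      exact this.2⟩
  have sBS : ∀ l, BS (s l) := fun l =>
    ⟨hd.s_meas l, ⟨K, hd.s_bd l⟩, ⟨R, hd.s_supp l⟩⟩
  have wBS : BS w := ⟨hd.w_meas, ⟨K / r ^ 9, hd.w_bd⟩, ⟨r, hd.w_supp⟩⟩
  have hK : 0 ≤ K := (abs_nonneg _).trans (hd.s_bd 0 0)
  have gBS : ∀ m a, BS (g m a) := fun m a =>
    ⟨hd.g_meas m a, ⟨K, fun x => (hd.g_bd m a x).trans (div_pow_le hK (rad_nonneg x) 8)⟩,
      ⟨r, hd.g_supp m a⟩⟩
  have VsBS : ∀ l, BS (fun x => V4 V l x * s l x) := fun l => (sBS l).mul_left (V4m l) (V4b l)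
  have SVs : BS (fun x => ∑ l, V4 V l x * s l x) := BS.sum _ fun l _ => VsBS l
  -- the relative weak equation
  have rel : ∀ ζ : (Fin 4 → R3) → ℝ, TF ζ →
      (rint fun x => ∑ m, ∑ a, g m a x * pd ζ m a x) =
        rint fun x => (-(∑ l, V4 V l x * s l x + w x)) * ζ x := by
    intro ζ hζ
    refine rel_of_weak (A := g) (B := fun x => -(∑ l, V4 V l x * s l x + w x)) hd.g_meas hd.g_ti
      ?_ hd.g_sum (SVs.m.add wBS.m).neg ?_ ?_ ?_ hζ
    · exact ⟨K, fun m a x => (hd.g_bd m a x).trans (div_pow_le hK (rad_nonneg x) 8)⟩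
    · intro x v
      have e1 : ∀ l, V4 V l (fun m => x m + v) = V4 V l x := fun l => (hVp l).2.1 x v
      have e2 : ∀ l, s l (fun m => x m + v) = s l x := fun l => hd.s_ti l x v
      have e3 : w (fun m => x m + v) = w x := hd.w_ti x v
      simp only [e1, e2, e3]
    · obtain ⟨B, hB⟩ := (SVs.add wBS).b
      exact ⟨B, fun x => by rw [abs_neg]; exact hB x⟩
    · intro z hz hzs
      have := hd.weak (fun _ => 1) z measurable_const ⟨1, by simp⟩ hz hzs
      simp only [one_mul] at this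
      rw [this, ← integral_neg]
      refine integral_congr_ae (Eventually.of_forall fun x => ?_)
      change -((∑ l, V4 V l x * s l x + w x) * z x) =
        (-((∑ l, V4 V l x * s l x) + w x)) * z x
      ring
  -- the cutoff
  obtain ⟨C0, hC0, hcut⟩ := exists_cutoff 4
  set R0 : ℝ := max (max r R) 0 + 1 with hR0
  have hR0pos : 0 < R0 := by
    have := le_max_right (max r R) 0
    linarith
  have hrR0 : r < R0 := by
    have h1 := le_max_left (max r R) 0
    have h2 := le_max_left r R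
    linarith
  have hRR0 : R < R0 := by
    have h1 := le_max_left (max r R) 0
    have h2 := le_max_right r R
    linarith
  obtain ⟨χ, hχc, hχt, -, -, hχ1, hχ0, -, -, hχs⟩ := hcut R0 hR0pos
  have hχ : TF χ := ⟨hχc.of_le (by norm_num), hχt, ⟨2 * R0, fun x hx => by
    by_contra h
    push Not at h
    exact hx (hχ0 x h.le)⟩⟩
  have gχ : ∀ m a x, g m a x * pd χ m a x = 0 := by
    intro m a x
    by_cases h0 : g m a x = 0
    · rw [h0, zero_mul]
    · by_cases h2 : pd χ m a x = 0
      · rw [h2, mul_zero]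
      · have h3 := hd.g_supp m a x h0
        have h4 := (hχs m a x h2).1
        linarith
  have Bχ : ∀ x, (-(∑ l, V4 V l x * s l x + w x)) * χ x = -(∑ l, V4 V l x * s l x + w x) := by
    intro x
    by_cases hx : rad x ≤ R0
    · rw [hχ1 x hx, mul_one]
    · push Not at hx
      have e1 : ∀ l, s l x = 0 := fun l => by
        by_contra h
        have := hd.s_supp l x h
        linarith
      have e2 : w x = 0 := by
        by_contra h
        have := hd.w_supp x h
        linarith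
      simp [e1, e2]
  have gχ1 : ∀ m a x, g m a x * χ x = g m a x := by
    intro m a x
    by_cases h0 : g m a x = 0
    · rw [h0, zero_mul]
    · have h3 := hd.g_supp m a x h0
      rw [hχ1 x (by linarith), mul_one]
  -- first consequence
  have c1 : rint (fun x => ∑ l, V4 V l x * s l x) + W = 0 := by
    have h := rel χ hχ
    have e1 : (rint fun x => ∑ m, ∑ a, g m a x * pd χ m a x) = 0 := by
      have : (fun x : Fin 4 → R3 => ∑ m, ∑ a, g m a x * pd χ m a x) = fun _ => 0 := by
        funext x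
        exact Finset.sum_eq_zero fun m _ => Finset.sum_eq_zero fun a _ => gχ m a x
      rw [this]
      simp [rint]
    rw [e1, rint_congr' Bχ, rint_neg', rint_add SVs.ri wBS.ri, hd.w_int] at h
    linarith
  -- second consequence
  have hPχ : TF (fun x => Phi4 φ x * χ x) := hχ.mul Pc Pti
  have pdP : ∀ m a x, pd (Phi4 φ) m a x = ∑ l, pd (ph φ l) m a x := by
    intro m a x
    have := pd_sum (x := x) Finset.univ (fun l => ph φ l)
      (fun l _ => (phc l).differentiable (by norm_num) x) m a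
    exact this
  have c2 : (rint fun x => ∑ l, ∑ m, ∑ a, pd (ph φ l) m a x * g m a x) =
      -(rint fun x => ∑ l, V4 V l x * s l x * Phi4 φ x) - rint fun x => w x * Phi4 φ x := by
    have h := rel _ hPχ
    have e1 : ∀ x, (∑ m, ∑ a, g m a x * pd (fun x => Phi4 φ x * χ x) m a x) =
        ∑ l, ∑ m, ∑ a, pd (ph φ l) m a x * g m a x := by
      intro x
      have e3 : ∀ m a, g m a x * pd (fun x => Phi4 φ x * χ x) m a x =
          ∑ l, pd (ph φ l) m a x * g m a x := by
        intro m a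
        rw [pd_mul (Pc.differentiable (by norm_num) x) (hχ.c1.differentiable (by norm_num) x),
          mul_add]
        have e4 : g m a x * (Phi4 φ x * pd χ m a x) = 0 := by
          have := gχ m a x
          linear_combination (Phi4 φ x) * this
        have e5 : g m a x * (pd (Phi4 φ) m a x * χ x) = pd (Phi4 φ) m a x * g m a x := by
          have := gχ1 m a x
          linear_combination (pd (Phi4 φ) m a x) * this
        rw [e4, e5, pdP, Finset.sum_mul, zero_add]
      simp only [e3]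
      have e6 : ∀ m : Fin 4, ∑ a, ∑ l, pd (ph φ l) m a x * g m a x =
          ∑ l, ∑ a, pd (ph φ l) m a x * g m a x := fun m => Finset.sum_comm
      simp only [e6]
      rw [Finset.sum_comm]
    have e2 : ∀ x, (-(∑ l, V4 V l x * s l x + w x)) * (Phi4 φ x * χ x) =
        -((∑ l, V4 V l x * s l x * Phi4 φ x) + w x * Phi4 φ x) := by
      intro x
      have := Bχ x
      rw [← Finset.sum_mul]
      linear_combination (Phi4 φ x) * this
    rw [rint_congr' e1, rint_congr' e2, rint_neg', rint_add] at h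
    · rw [h]; ring
    · exact (BS.sum _ fun l _ => (VsBS l).mul Pm Pb).ri
    · exact (wBS.mul Pm Pb).ri
  -- the cross terms
  have RIg : ∀ l l', l ≠ l' → RI (gg (ph φ l) (ph φ l')) := by
    intro l l' hl
    have hc := (RI_cross hl).const_mul (12 * C * C)
    exact RI.mono hc (continuous_gg (phc l) (phc l')).measurable
      fun x => abs_gg_ph_le h1 h1 hb' hb' l l' x
  have RIA : RI (fun x => ∑ l, ∑ l' ∈ Finset.univ.erase l, gg (ph φ l) (ph φ l') x) := by
    have key : ∀ (t : Finset (Fin 4)) (F : Fin 4 → (Fin 4 → R3) → ℝ), (∀ i ∈ t, RI (F i)) →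
        RI (fun x => ∑ i ∈ t, F i x) := by
      intro t F
      induction t using Finset.induction_on with
      | empty => intro _; simpa using BS.zero.ri
      | insert i t hi ih =>
        intro h
        have : (fun x => ∑ j ∈ insert i t, F j x) = fun x => F i x + ∑ j ∈ t, F j x := by
          funext x
          exact Finset.sum_insert hi
        rw [this]
        exact RI.add (h i (Finset.mem_insert_self _ _))
          (ih fun j hj => h j (Finset.mem_insert_of_mem hj))
    refine key _ _ fun l _ => key _ _ fun l' hl' => RIg l l' ?_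
    exact (Finset.ne_of_mem_erase hl').symm
  have RI2 : BS (fun x => ∑ l, ∑ m, ∑ a, pd (ph φ l) m a x * g m a x) :=
    BS.sum _ fun l _ => BS.sum _ fun m _ => BS.sum _ fun a _ =>
      (gBS m a).mul_left (pdm l m a) (pdb l m a)
  have RI3 : BS (fun x => ∑ m, ∑ a, g m a x ^ 2) := by
    refine BS.sum _ fun m _ => BS.sum _ fun a _ => ?_
    simpa only [sq] using (gBS m a).mul (gBS m a).m (gBS m a).b
  have Vs2 : ∀ l, BS (fun x => V4 V l x * s l x ^ 2) := by
    intro l
    have := (VsBS l).mul (sBS l).m (sBS l).b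
    have e : (fun x => V4 V l x * s l x * s l x) = fun x => V4 V l x * s l x ^ 2 := by
      funext x; ring
    rwa [e] at this
  have Vsp : ∀ l, BS (fun x => V4 V l x * s l x * ph φ l x) := fun l =>
    (VsBS l).mul (phm l) (phb l)
  have VsP : ∀ l, BS (fun x => V4 V l x * s l x * Phi4 φ x) := fun l => (VsBS l).mul Pm Pb
  have Vss : ∀ l, BS (fun x => V4 V l x * s l x * s0 φ l x) := fun l =>
    (VsBS l).mul (s0m l) (s0b l)
  have hq : QQ = A1 φ + 2 * (rint fun x => ∑ l, ∑ m, ∑ a, pd (ph φ l) m a x * g m a x) +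
      (rint fun x => ∑ m, ∑ a, g m a x ^ 2) +
      (∑ l, ((rint fun x => V4 V l x * s l x ^ 2) - 2 * (rint fun x => V4 V l x * s l x) +
        2 * rint fun x => V4 V l x * s l x * ph φ l x)) := by
    rw [← hd.QQ_eq]
    have e1 : ∀ x, (∑ l, ∑ l' ∈ Finset.univ.erase l, gg (ph φ l) (ph φ l') x +
        2 * ∑ l, ∑ m, ∑ a, pd (ph φ l) m a x * g m a x + ∑ m, ∑ a, g m a x ^ 2 +
        ∑ l, V4 V l x * (s l x ^ 2 - 2 * (1 - ph φ l x) * s l x)) =
        (((∑ l, ∑ l' ∈ Finset.univ.erase l, gg (ph φ l) (ph φ l') x) +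
          2 * (∑ l, ∑ m, ∑ a, pd (ph φ l) m a x * g m a x)) + ∑ m, ∑ a, g m a x ^ 2) +
        ∑ l, ((V4 V l x * s l x ^ 2 - 2 * (V4 V l x * s l x)) +
          2 * (V4 V l x * s l x * ph φ l x)) := by
      intro x
      congr 1
      exact Finset.sum_congr rfl fun l _ => by ring
    rw [rint_congr' e1]
    have hr4 : ∀ l, RI (fun x => (V4 V l x * s l x ^ 2 - 2 * (V4 V l x * s l x)) +
          2 * (V4 V l x * s l x * ph φ l x)) := fun l =>
      RI.add (RI.sub (Vs2 l).ri ((VsBS l).ri.const_mul 2)) ((Vsp l).ri.const_mul 2)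
    have hr4s : RI (fun x => ∑ l, ((V4 V l x * s l x ^ 2 - 2 * (V4 V l x * s l x)) +
          2 * (V4 V l x * s l x * ph φ l x))) := by
      have b1 : ∀ l, BS (fun x => (-2) * (V4 V l x * s l x)) := fun l =>
        (VsBS l).mul_left measurable_const ⟨2, by simp⟩
      have b2 : ∀ l, BS (fun x => 2 * (V4 V l x * s l x * ph φ l x)) := fun l =>
        (Vsp l).mul_left measurable_const ⟨2, by simp⟩
      have b3 := BS.sum Finset.univ (fun l _ => ((Vs2 l).add (b1 l)).add (b2 l))
      have e : (fun x => ∑ l, (V4 V l x * s l x ^ 2 + (-2) * (V4 V l x * s l x) +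
          2 * (V4 V l x * s l x * ph φ l x))) = fun x => ∑ l, ((V4 V l x * s l x ^ 2 -
          2 * (V4 V l x * s l x)) + 2 * (V4 V l x * s l x * ph φ l x)) := by
        funext x
        exact Finset.sum_congr rfl fun l _ => by ring
      rw [← e]
      exact b3.ri
    rw [rint_add (RI.add (RI.add RIA (RI2.ri.const_mul 2)) RI3.ri) hr4s,
      rint_add (RI.add RIA (RI2.ri.const_mul 2)) RI3.ri,
      rint_add RIA (RI2.ri.const_mul 2), rint_const_mul,
      rint_sum _ _ fun l _ => hr4 l]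
    unfold A1
    congr 1
    refine Finset.sum_congr rfl fun l _ => ?_
    rw [rint_add (RI.sub (Vs2 l).ri ((VsBS l).ri.const_mul 2)) ((Vsp l).ri.const_mul 2),
      rint_sub (Vs2 l).ri ((VsBS l).ri.const_mul 2), rint_const_mul, rint_const_mul]
  -- the squares
  have hsq : ∀ l, (rint fun x => V4 V l x * s0 φ l x ^ 2) -
      (rint fun x => V4 V l x * (s l x - s0 φ l x) ^ 2) =
      2 * (rint fun x => V4 V l x * s l x * s0 φ l x) - rint fun x => V4 V l x * s l x ^ 2 := by
    intro l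
    have r1 : RI (fun x => V4 V l x * s0 φ l x ^ 2) := RI_V4_s0_sq hV hφm hb l
    have r2 : RI (fun x => 2 * (V4 V l x * s l x * s0 φ l x)) := (Vss l).ri.const_mul 2
    have e : ∀ x, V4 V l x * (s l x - s0 φ l x) ^ 2 =
        (V4 V l x * s l x ^ 2 - 2 * (V4 V l x * s l x * s0 φ l x)) + V4 V l x * s0 φ l x ^ 2 := by
      intro x; ring
    rw [rint_congr' e, rint_add (RI.sub (Vs2 l).ri r2) r1, rint_sub (Vs2 l).ri r2, rint_const_mul]
    ring
  have hVsP : ∀ l, (rint fun x => V4 V l x * s l x * Phi4 φ x) =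
      (rint fun x => V4 V l x * s l x * ph φ l x) +
        rint fun x => V4 V l x * s l x * s0 φ l x := by
    intro l
    have e : ∀ x, V4 V l x * s l x * Phi4 φ x = V4 V l x * s l x * ph φ l x +
        V4 V l x * s l x * s0 φ l x := by
      intro x; rw [Ps0 l x]; ring
    rw [rint_congr' e, rint_add (Vsp l).ri (Vss l).ri]
  have d1 : (rint fun x => ∑ l, V4 V l x * s l x) = ∑ l, rint fun x => V4 V l x * s l x :=
    rint_sum _ _ fun l _ => (VsBS l).ri
  have d2 : (rint fun x => ∑ l, V4 V l x * s l x * Phi4 φ x) =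
      ∑ l, rint fun x => V4 V l x * s l x * Phi4 φ x :=
    rint_sum _ _ fun l _ => (VsP l).ri
  rw [d1] at c1
  rw [d2] at c2
  have hsum : (∑ l, rint fun x => V4 V l x * s0 φ l x ^ 2)
      - (∑ l, rint fun x => V4 V l x * (s l x - s0 φ l x) ^ 2) =
      2 * (∑ l, rint fun x => V4 V l x * s l x * s0 φ l x) -
        ∑ l, rint fun x => V4 V l x * s l x ^ 2 := by
    rw [← Finset.sum_sub_distrib, Finset.mul_sum, ← Finset.sum_sub_distrib]
    exact Finset.sum_congr rfl fun l _ => hsq l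
  have hsP : (∑ l, rint fun x => V4 V l x * s l x * Phi4 φ x) =
      (∑ l, rint fun x => V4 V l x * s l x * ph φ l x) +
        ∑ l, rint fun x => V4 V l x * s l x * s0 φ l x := by
    rw [← Finset.sum_add_distrib]
    exact Finset.sum_congr rfl fun l _ => hVsP l
  rw [Finset.sum_add_distrib, Finset.sum_sub_distrib, ← Finset.mul_sum, ← Finset.mul_sum] at hq
  linarith

end Pool.Agent.Lib.MP_5db8e2_mp
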