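import Pool.Agent.Lib.MP_5db8e2_mp.FourB2

/-!
# Existence of the four-body data
-/

set_option autoImplicit false

open MeasureTheory Filter Topology

namespace Pool.Agent.Lib.MP_5db8e2_mp

variable {V : R3 → R3 → ℝ} {φ : (Fin 3 → R3) → ℝ}

private theorem abs_s0_le {C : ℝ} (hb : ∀ x, |φ x| ≤ C / (1 + rad x) ^ 4) (l : Fin 4)
    (x : Fin 4 → R3) : |s0 φ l x| ≤ 3 * C := by
  have hC : 0 ≤ C := by
    have h := (abs_nonneg _).trans (hb 0)
    have h0 : 0 < (1 + rad (0 : Fin 3 → R3)) ^ 4 := by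
      have := rad_nonneg (0 : Fin 3 → R3)
      positivity
    by_contra hcon
    push Not at hcon
    have := div_neg_of_neg_of_pos hcon h0
    linarith
  unfold s0
  refine (Finset.abs_sum_le_sum_abs _ _).trans ?_
  have h1 : ∀ l' ∈ (Finset.univ : Finset (Fin 4)).erase l, |ph φ l' x| ≤ C := by
    intro l' _
    refine (hb (sub4 l' x)).trans ?_
    refine div_le_self hC (one_le_pow₀ ?_)
    have := rad_nonneg (sub4 l' x)
    linarith
  refine (Finset.sum_le_card_nsmul _ _ _ h1).trans ?_
  rw [Finset.card_erase_of_mem (Finset.mem_univ _)]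
  simp

/-- **The four-body data for a truncated three-body function.** Let `z, R, v` be from
`exists_corr` for `φ`, `θ` the cutoff of radius `r4/2`, `g_{m,a} = θ pd v m a`,
`s_l = 1_{rad ≤ R} s0 φ l - z`, `w = gg θ v`, `r4 ≥ 2R`. Relative weak equation:
`rint (θ gg v ζ) = rint (gg v (θζ)) - rint (ζ gg v θ) = rint (rhoR θ ζ) - rint (w ζ)`,
`rhoR θ = rhoR = - ∑ V_l s_l`; `weak_of_rel`. Constants: `K` bounds `C'`, `sup |s|` and
`12 C' C 2^{10}`. `QQ` is defined by `QQ_eq`. The fields do not depend on the function `ψ`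
(the truncation of `φ`) in the statement; only `QQ` does. -/
theorem exists_data4_aux (hV : Pot V) {C : ℝ} (h1 : ContDiff ℝ 1 φ) (ht : TI φ)
    (hb : ∀ x, |φ x| ≤ C / (1 + rad x) ^ 4) {η : ℝ} (hη : 0 < η) :
    ∃ K > 0, ∃ R > 0, ∃ z, TF z ∧ (∀ x, z x ≠ 0 → rad x ≤ R) ∧ |EE V z - calS V φ| ≤ η ∧
      (∀ l, rint (fun x => if rad x ≤ R then 0 else V4 V l x * s0 φ l x ^ 2) ≤ η) ∧
      ∀ r4 ≥ 2 * R + 1, ∃ g w, 
        (∀ ψ : (Fin 3 → R3) → ℝ, ∃ QQ, Data4 V ψ K R r4 (rint w) QQ g
          (fun l x => (if rad x ≤ R then s0 φ l x else 0) - z x) w) ∧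
        (rint fun x => ∑ m, ∑ a, (g m a x + pd z m a x) ^ 2) ≤ η := by
  obtain ⟨z, R, hR, hz, hzR, hEE, htail, v, hv, hvt, ⟨C', hC'⟩, hveq, hI, hle⟩ :=
    exists_corr hV h1.continuous.measurable ht hb hη
  obtain ⟨hρt, B, hB, hρ⟩ := chg_rhoR hV h1.continuous.measurable ht hb hz hzR
  obtain ⟨Cθ, hCθ, hθ⟩ := exists_cutoff 4
  obtain ⟨Bz, hBz0, hBz⟩ := rc_exists_bound_of_TI hz.c1.continuous hz.ti hzR
  obtain ⟨BV, hBV, RV, hRV, hV4⟩ := V4_props hV
  have hrad : ∀ x : Fin 4 → R3, 0 ≤ rad x := rad_nonneg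
  have hC0 : 0 ≤ C := by
    have h := (abs_nonneg _).trans (abs_s0_le hb 0 (0 : Fin 4 → R3))
    linarith
  have hC'0 : 0 ≤ C' := by
    have h := (abs_nonneg _).trans (hC' 0).1
    have h0 : 0 < (1 + rad (0 : Fin 4 → R3)) ^ 7 := by
      have := hrad 0
      positivity
    by_contra hcon
    push Not at hcon
    have := div_neg_of_neg_of_pos hcon h0
    linarith
  refine ⟨C' + (3 * C + Bz) + 6144 * Cθ * C' + 1, by positivity, R, hR, z, hz, hzR, hEE, htail,
    fun r4 hr4 => ?_⟩
  set K := C' + (3 * C + Bz) + 6144 * Cθ * C' + 1 with hK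
  have hr0 : 0 < r4 := by linarith
  obtain ⟨θ, hθ2, hθt, -, hθ01, hθ1, hθ0, hθd, -, hθs⟩ := hθ (r4 / 2) (by positivity)
  have hθc1 : ContDiff ℝ 1 θ := hθ2.of_le (by norm_num)
  have hθ0' : ∀ x, θ x ≠ 0 → rad x ≤ r4 := by
    intro x hx
    by_contra hcon
    push Not at hcon
    exact hx (hθ0 x (by linarith))
  -- the charge
  have hwc : Continuous (gg θ v) := continuous_gg hθc1 hv
  have hws : ∀ x, gg θ v x ≠ 0 → r4 / 2 ≤ rad x ∧ rad x ≤ r4 := by
    intro x hx
    unfold gg at hx
    obtain ⟨m, -, hm⟩ := Finset.exists_ne_zero_of_sum_ne_zero hx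
    obtain ⟨a, -, ha⟩ := Finset.exists_ne_zero_of_sum_ne_zero hm
    have := hθs m a x (left_ne_zero_of_mul ha)
    exact ⟨this.1, by linarith [this.2]⟩
  have hρR : ∀ x, θ x * rhoR V φ z R x = rhoR V φ z R x := by
    intro x
    by_cases h : rhoR V φ z R x = 0
    · rw [h, mul_zero]
    · rw [hθ1 x (by linarith [hρ.supp x h]), one_mul]
  have hsV : ∀ x, (∑ l, V4 V l x * ((if rad x ≤ R then s0 φ l x else 0) - z x)) =
      - rhoR V φ z R x := by
    intro x
    unfold rhoR
    rw [← Finset.sum_neg_distrib]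
    exact Finset.sum_congr rfl fun l _ => by ring
  -- relative weak equation
  have hrel : ∀ ζ : (Fin 4 → R3) → ℝ, TF ζ →
      (rint fun x => ∑ m, ∑ a, (θ x * pd v m a x) * pd ζ m a x) =
        rint fun x => (rhoR V φ z R x - gg θ v x) * ζ x := by
    intro ζ hζ
    obtain ⟨Rζ, hRζ⟩ := hζ.supp
    have hθζ : TF (fun x => θ x * ζ x) := hζ.mul hθc1 hθt
    have e1 : (fun x => ∑ m, ∑ a, (θ x * pd v m a x) * pd ζ m a x) =
        fun x => gg v (fun x => θ x * ζ x) x - gg θ v x * ζ x := by
      ext x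
      rw [gg_mul_right hθc1 hζ.c1 x, gg_comm (φ := θ)]
      have : (∑ m, ∑ a, (θ x * pd v m a x) * pd ζ m a x) = θ x * gg v ζ x := by
        unfold gg
        rw [Finset.mul_sum]
        refine Finset.sum_congr rfl fun m _ => ?_
        rw [Finset.mul_sum]
        exact Finset.sum_congr rfl fun a _ => by ring
      rw [this]
      ring
    have hI1 : RI (gg v (fun x => θ x * ζ x)) := by
      refine rc_RI_of_cont (continuous_gg hv hθζ.c1) (TI_gg hvt hθζ.ti) (R := Rζ) fun x hx => ?_
      unfold gg at hx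
      obtain ⟨m, -, hm⟩ := Finset.exists_ne_zero_of_sum_ne_zero hx
      obtain ⟨a, -, ha⟩ := Finset.exists_ne_zero_of_sum_ne_zero hm
      exact pd_eq_zero_of_rad hθζ.c1 (fun y hy => hRζ y (right_ne_zero_of_mul hy)) m a x
        (right_ne_zero_of_mul ha)
    have hI2 : RI (fun x => gg θ v x * ζ x) := by
      refine rc_RI_of_cont (hwc.mul hζ.c1.continuous) ?_ (R := Rζ) fun x hx =>
        hRζ x (right_ne_zero_of_mul hx)
      intro x w
      simp only
      rw [TI_gg hθt hvt x w, hζ.ti x w]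
    obtain ⟨Bζ, hBζ0, hBζ⟩ := rc_exists_bound_of_TI hζ.c1.continuous hζ.ti hRζ
    have hI3 : RI (fun x => rhoR V φ z R x * ζ x) := by
      refine RI_of_bdd (hρ.meas.mul hζ.c1.continuous.measurable) (B := B * Bζ) (R := Rζ)
        (fun x => ?_) fun x hx => hRζ x (right_ne_zero_of_mul hx)
      rw [abs_mul]
      exact mul_le_mul (hρ.bd x) (hBζ x) (abs_nonneg _) hB.le
    rw [e1, rint_sub hI1 hI2, hveq _ hθζ]
    have e2 : (fun x => rhoR V φ z R x * (θ x * ζ x)) = fun x => rhoR V φ z R x * ζ x := by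
      ext x
      calc rhoR V φ z R x * (θ x * ζ x) = (θ x * rhoR V φ z R x) * ζ x := by ring
        _ = _ := by rw [hρR]
    rw [e2, ← rint_sub hI3 hI2]
    congr 1
    ext x
    ring
  refine ⟨fun m a x => θ x * pd v m a x, gg θ v, ?_, ?_⟩
  rotate_left
  · -- the final estimate
    have hpt : ∀ x, (∑ m, ∑ a, (θ x * pd v m a x + pd z m a x) ^ 2) ≤
        gg (fun x => z x + v x) (fun x => z x + v x) x := by
      intro x
      unfold gg
      refine Finset.sum_le_sum fun m _ => Finset.sum_le_sum fun a _ => ?_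
      rw [pd_add (hz.c1.differentiable (by norm_num) x) (hv.differentiable (by norm_num) x)]
      by_cases hx : rad x ≤ R
      · rw [hθ1 x (by linarith)]
        apply le_of_eq
        ring
      · have h0 : pd z m a x = 0 := by
          by_contra hcon
          exact hx (pd_eq_zero_of_rad hz.c1 hzR m a x hcon)
        rw [h0, add_zero, zero_add, mul_pow, ← pow_two]
        refine mul_le_of_le_one_left (sq_nonneg _) ?_
        have := hθ01 x
        nlinarith
    have hnn : ∀ x, 0 ≤ (∑ m, ∑ a, (θ x * pd v m a x + pd z m a x) ^ 2) := fun x =>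
      Finset.sum_nonneg fun m _ => Finset.sum_nonneg fun a _ => sq_nonneg _
    have hIL : RI (fun x => ∑ m, ∑ a, (θ x * pd v m a x + pd z m a x) ^ 2) := by
      refine hI.mono ?_ fun x => ?_
      · refine Continuous.measurable ?_
        refine continuous_finsetSum _ fun m _ => continuous_finsetSum _ fun a _ => ?_
        exact ((hθc1.continuous.mul (continuous_pd hv m a)).add (continuous_pd hz.c1 m a)).pow 2
      · rw [abs_of_nonneg (hnn x)]
        exact hpt x
    exact (rint_mono hIL hI hpt).trans hle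
  -- the data
  intro ψ
  refine ⟨_,
    { g_meas := fun m a => (hθc1.continuous.mul (continuous_pd hv m a)).measurable
      g_ti := ?_
      g_sum := ?_
      g_supp := fun m a x hx => hθ0' x (left_ne_zero_of_mul hx)
      g_bd := ?_
      s_meas := ?_
      s_ti := ?_
      s_supp := ?_
      s_bd := ?_
      w_meas := hwc.measurable
      w_ti := TI_gg hθt hvt
      w_supp := fun x hx => (hws x hx).2
      w_bd := ?_
      w_int := rfl
      weak := ?_
      QQ_eq := rfl }⟩
  · intro m a x w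
    simp only
    rw [hθt x w, TI_pd hvt m a x w]
  · intro a x
    rw [← Finset.mul_sum, TI_sum_pd hvt (hv.differentiable (by norm_num) x) a, mul_zero]
  · intro m a x
    rw [abs_mul]
    have hpos : 0 < (1 + rad x) ^ 8 := by have := hrad x; positivity
    have hθa : |θ x| ≤ 1 := by
      rw [abs_of_nonneg (hθ01 x).1]; exact (hθ01 x).2
    calc |θ x| * |pd v m a x| ≤ 1 * |pd v m a x| :=
          mul_le_mul_of_nonneg_right hθa (abs_nonneg _)
      _ = |pd v m a x| := one_mul _
      _ ≤ C' / (1 + rad x) ^ 8 := (hC' x).2 m a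
      _ ≤ K / (1 + rad x) ^ 8 := by
          refine div_le_div_of_nonneg_right ?_ hpos.le
          have : 0 ≤ (3 * C + Bz) + 6144 * Cθ * C' + 1 := by positivity
          rw [hK]
          linarith
  · intro l
    refine Measurable.sub (Measurable.ite ?_ (measurable_s0 h1.continuous.measurable l)
      measurable_const) hz.c1.continuous.measurable
    exact measurableSet_le continuous_rad.measurable measurable_const
  · intro l x w
    simp only
    rw [TI_rad x w, TI_s0 ht l x w, hz.ti x w]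
  · intro l x hx
    by_contra hcon
    apply hx
    have h0 : z x = 0 := by
      by_contra h
      exact hcon (hzR x h)
    rw [if_neg hcon, h0, sub_zero]
  · intro l x
    refine (abs_sub _ _).trans ?_
    have h2 : |if rad x ≤ R then s0 φ l x else 0| ≤ 3 * C := by
      split_ifs
      · exact abs_s0_le hb l x
      · rw [abs_zero]; positivity
    have := hBz x
    have h3 : 0 ≤ 6144 * Cθ * C' := by positivity
    rw [hK]
    linarith
  · intro x
    by_cases hx : gg θ v x = 0
    · rw [hx, abs_zero]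
      positivity
    · obtain ⟨h2, h3⟩ := hws x hx
      have hp : (r4 / 2) ^ 8 ≤ (1 + rad x) ^ 8 :=
        pow_le_pow_left₀ (by positivity) (by linarith) 8
      have h4 : |gg θ v x| ≤ 3 * (4 : ℕ) * (Cθ / (r4 / 2) * (C' / (r4 / 2) ^ 8)) := by
        refine abs_gg_le (fun m a => hθd m a x) (fun m a => ((hC' x).2 m a).trans ?_)
        exact div_le_div_of_nonneg_left hC'0 (by positivity) hp
      refine h4.trans ?_
      have e : 3 * ((4 : ℕ) : ℝ) * (Cθ / (r4 / 2) * (C' / (r4 / 2) ^ 8)) =
          6144 * Cθ * C' / r4 ^ 9 := by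
        field_simp
        ring
      rw [e]
      refine div_le_div_of_nonneg_right ?_ (by positivity)
      have : 0 ≤ C' + (3 * C + Bz) + 1 := by positivity
      rw [hK]
      linarith
  · intro u y hu hub hy hys
    have hAb : ∃ D, ∀ (m : Fin 4) (a : Fin 3) x, |θ x * pd v m a x| ≤ D := by
      refine ⟨C', fun m a x => ?_⟩
      rw [abs_mul]
      have hθa : |θ x| ≤ 1 := by
        rw [abs_of_nonneg (hθ01 x).1]; exact (hθ01 x).2
      calc |θ x| * |pd v m a x| ≤ 1 * |pd v m a x| :=
            mul_le_mul_of_nonneg_right hθa (abs_nonneg _)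
        _ = |pd v m a x| := one_mul _
        _ ≤ C' / (1 + rad x) ^ 8 := (hC' x).2 m a
        _ ≤ C' := div_le_self hC'0 (one_le_pow₀ (by linarith [hrad x]))
    have hwb : ∃ D, ∀ x, |gg θ v x| ≤ D := by
      obtain ⟨D, -, hD⟩ := rc_exists_bound_of_TI hwc (TI_gg hθt hvt) fun x hx => (hws x hx).2
      exact ⟨D, hD⟩
    obtain ⟨D, hD⟩ := hwb
    have hBb : ∃ D, ∀ x, |rhoR V φ z R x - gg θ v x| ≤ D :=
      ⟨B + D, fun x => (abs_sub _ _).trans (add_le_add (hρ.bd x) (hD x))⟩
    have hBt : TI (fun x => rhoR V φ z R x - gg θ v x) := by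
      intro x w
      simp only
      rw [hρt x w, TI_gg hθt hvt x w]
    have h := weak_of_rel (A := fun m a x => θ x * pd v m a x)
      (B := fun x => rhoR V φ z R x - gg θ v x)
      (fun m a => (hθc1.continuous.mul (continuous_pd hv m a)).measurable)
      (fun m a x w => by simp only; rw [hθt x w, TI_pd hvt m a x w]) hAb
      (fun a x => by
        rw [← Finset.mul_sum, TI_sum_pd hvt (hv.differentiable (by norm_num) x) a, mul_zero])
      (hρ.meas.sub hwc.measurable) hBt hBb hrel hu hub hy hys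
    rw [h, ← integral_neg]
    refine integral_congr_ae (Eventually.of_forall fun x => ?_)
    simp only
    rw [hsV]
    ring

end Pool.Agent.Lib.MP_5db8e2_mp
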