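import Pool.Agent.Lib.MP_5db8e2_mp.FourC1
import Pool.Agent.Lib.MP_5db8e2_mp.ScatC
import Pool.Agent.Lib.MP_5db8e2_mp.FourC2

/-!
# Existence of all the data
-/

set_option autoImplicit false

open MeasureTheory Filter Topology

namespace Pool.Agent.Lib.MP_5db8e2_mp

variable {V : R3 → R3 → ℝ} {φ : (Fin 3 → R3) → ℝ}

/-! ### Auxiliary facts -/

/-- The tail of a relatively integrable function is small. -/
theorem fc3_tail_RI {k : ℕ} {F : (Fin (k + 1) → R3) → ℝ} (hm : Measurable F) (hI : RI F) {η : ℝ}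
    (hη : 0 < η) : ∃ R0 : ℝ, ∀ R ≥ R0, rint (fun x => if rad x ≤ R then 0 else F x) ≤ η := by
  have h : Tendsto (fun R : ℝ => rint (fun x : Fin (k + 1) → R3 => if rad x ≤ R then 0 else F x))
      atTop (𝓝 0) := by
    have h0 : (0 : ℝ) = ∫ _y : Fin k → R3, (0 : ℝ) := by simp
    rw [h0]
    unfold rint
    refine tendsto_integral_filter_of_dominated_convergence (fun y => |F (Fin.cons 0 y)|) ?_ ?_
      hI.abs ?_
    · refine Eventually.of_forall fun R => ?_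
      exact ((Measurable.ite (measurableSet_le continuous_rad.measurable measurable_const)
        measurable_const hm).comp measurable_cons0).aestronglyMeasurable
    · refine Eventually.of_forall fun R => Eventually.of_forall fun y => ?_
      dsimp only
      split_ifs
      · simp
      · exact le_rfl
    · refine Eventually.of_forall fun y => ?_
      refine tendsto_const_nhds.congr' ?_
      filter_upwards [eventually_ge_atTop (rad (Fin.cons 0 y))] with R hR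
      rw [if_pos hR]
      exact h0
  obtain ⟨R0, h0⟩ := eventually_atTop.1 (h.eventually (ge_mem_nhds hη))
  exact ⟨R0, h0⟩

theorem fc3_RI_tail {k : ℕ} {F : (Fin (k + 1) → R3) → ℝ} (hm : Measurable F) (hI : RI F) (R : ℝ) :
    RI (fun x => if rad x ≤ R then 0 else F x) := by
  have hI' : RI (fun x => |F x|) := hI.abs
  refine RI.mono (G := fun x => |F x|) hI' ?_ fun x => ?_
  · exact Measurable.ite (measurableSet_le continuous_rad.measurable measurable_const)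
      measurable_const hm
  · split_ifs
    · simp
    · exact le_rfl

theorem fc3_nonneg_of_bd {C : ℝ} {n : ℕ} {x : Fin 3 → R3} {t : ℝ}
    (h : |t| ≤ C / (1 + rad x) ^ n) : 0 ≤ C := by
  have h1 : 0 < (1 + rad x) ^ n := by
    have := rad_nonneg x
    positivity
  have h2 : 0 ≤ C / (1 + rad x) ^ n := (abs_nonneg _).trans h
  by_contra hc
  push Not at hc
  have : C / (1 + rad x) ^ n < 0 := div_neg_of_neg_of_pos hc h1
  linarith

/-- Near the points of small radius the sub-cluster functions agree. -/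
theorem fc3_ph_eventuallyEq {ψ : (Fin 3 → R3) → ℝ} {r : ℝ}
    (h : ∀ x, rad x ≤ r / 2 → ψ x = φ x) (l : Fin 4) {x : Fin 4 → R3} (hx : rad x < r / 2) :
    ph ψ l =ᶠ[𝓝 x] ph φ l := by
  have h1 : ∀ᶠ y in 𝓝 x, rad y < r / 2 := continuous_rad.continuousAt.eventually_lt_const hx
  filter_upwards [h1] with y hy
  exact h _ ((rad_sub4_le l y).trans hy.le)

theorem fc3_gg_eq {ψ : (Fin 3 → R3) → ℝ} {r : ℝ}
    (h : ∀ x, rad x ≤ r / 2 → ψ x = φ x) (l l' : Fin 4) {x : Fin 4 → R3} (hx : rad x < r / 2) :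
    gg (ph ψ l) (ph ψ l') x = gg (ph φ l) (ph φ l') x := by
  unfold gg pd
  rw [(fc3_ph_eventuallyEq h l hx).fderiv_eq, (fc3_ph_eventuallyEq h l' hx).fderiv_eq]

theorem fc3_s0_eq {ψ : (Fin 3 → R3) → ℝ} {r : ℝ}
    (h : ∀ x, rad x ≤ r / 2 → ψ x = φ x) (l : Fin 4) {x : Fin 4 → R3} (hx : rad x ≤ r / 2) :
    s0 ψ l x = s0 φ l x := by
  unfold s0
  exact Finset.sum_congr rfl fun l' _ => h _ ((rad_sub4_le l' x).trans hx)

/-- The total cross kernel. -/
noncomputable def fc3_ker (x : Fin 4 → R3) : ℝ :=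
  ∑ l : Fin 4, ∑ l' ∈ Finset.univ.erase l,
    ((1 + rad (sub4 l x)) ^ 5)⁻¹ * ((1 + rad (sub4 l' x)) ^ 5)⁻¹

theorem fc3_measurable_sub4 (l : Fin 4) : Measurable (sub4 l) := by
  have : Continuous (sub4 l) := by
    have h := (sub4L l).continuous
    exact h
  exact this.measurable

theorem fc3_measurable_ker1 (l : Fin 4) :
    Measurable fun x : Fin 4 → R3 => ((1 + rad (sub4 l x)) ^ 5)⁻¹ :=
  ((measurable_const.add (continuous_rad.measurable.comp (fc3_measurable_sub4 l))).pow_const 5).inv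

theorem fc3_RI_sum {k : ℕ} {ι : Type*} (s : Finset ι) (F : ι → (Fin (k + 1) → R3) → ℝ)
    (hF : ∀ i ∈ s, RI (F i)) : RI (fun x => ∑ i ∈ s, F i x) :=
  integrable_finsetSum s hF

theorem fc3_RI_ker : RI fc3_ker := by
  unfold fc3_ker
  refine fc3_RI_sum _ _ fun l _ => fc3_RI_sum _ _ fun l' hl' => ?_
  exact RI_cross (Finset.ne_of_mem_erase hl').symm

theorem fc3_measurable_ker : Measurable fc3_ker := by
  unfold fc3_ker
  refine Finset.measurable_sum _ fun l _ => Finset.measurable_sum _ fun l' _ => ?_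
  exact (fc3_measurable_ker1 l).mul (fc3_measurable_ker1 l')

/-- The cross terms are relatively integrable. -/
theorem fc3_RI_gg {C : ℝ} (h1 : ContDiff ℝ 1 φ)
    (hb' : ∀ x m a, |pd φ m a x| ≤ C / (1 + rad x) ^ 5) :
    RI fun x => ∑ l, ∑ l' ∈ Finset.univ.erase l, gg (ph φ l) (ph φ l') x := by
  refine fc3_RI_sum _ _ fun l _ => fc3_RI_sum _ _ fun l' hl' => ?_
  refine RI.mono ((RI_cross (Finset.ne_of_mem_erase hl').symm).const_mul (12 * C * C))
    (continuous_gg (contDiff_ph h1 l) (contDiff_ph h1 l')).measurable fun x => ?_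
  exact abs_gg_ph_le h1 h1 hb' hb' l l' x

/-- Convergence of the cross terms and of the potential terms as the truncation goes to infinity
(dominated by `RI_cross` and by the slab integral; on `rad x ≤ r/2` nothing changes since
`rad (sub4 l x) ≤ rad x`). -/
theorem tendsto_A1 (hV : Pot V) {C : ℝ} (h1 : ContDiff ℝ 1 φ) (ht : TI φ)
    (hb : ∀ x, |φ x| ≤ C / (1 + rad x) ^ 4) (hb' : ∀ x m a, |pd φ m a x| ≤ C / (1 + rad x) ^ 5)
    {η : ℝ} (hη : 0 < η) : ∃ r1 > 0, ∀ r ≥ r1, ∀ ψ : (Fin 3 → R3) → ℝ, ContDiff ℝ 1 ψ → TI ψ →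
      (∀ x, |ψ x| ≤ C / (1 + rad x) ^ 4) → (∀ x m a, |pd ψ m a x| ≤ C / (1 + rad x) ^ 5) →
      (∀ x, rad x ≤ r / 2 → ψ x = φ x) →
      |A1 ψ - A1 φ| ≤ η ∧
      ∀ l, |rint (fun x => V4 V l x * s0 ψ l x ^ 2) - rint (fun x => V4 V l x * s0 φ l x ^ 2)| ≤ η := by
  obtain ⟨B, hB, R, hR, hVp⟩ := V4_props hV
  obtain ⟨C', hC', hdec⟩ := s0_decay hV C
  -- the majorants
  have hK1m : Measurable fun x => 24 * C * C * fc3_ker x := fc3_measurable_ker.const_mul _
  have hK1 : RI fun x => 24 * C * C * fc3_ker x := fc3_RI_ker.const_mul _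
  obtain ⟨R1, hR1⟩ := fc3_tail_RI hK1m hK1 hη
  have hSm : ∀ l : Fin 4, Measurable fun x : Fin 4 → R3 => B * C' ^ 2 *
      (if rad (sub4 l x) ≤ R then ((1 + rad x) ^ 8)⁻¹ else 0) := fun l => by
    refine Measurable.const_mul ?_ _
    refine Measurable.ite (measurableSet_le (continuous_rad.measurable.comp
      (fc3_measurable_sub4 l)) measurable_const) ?_ measurable_const
    exact ((measurable_const.add continuous_rad.measurable).pow_const 8).inv
  have hS : ∀ l : Fin 4, RI fun x : Fin 4 → R3 => B * C' ^ 2 *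
      (if rad (sub4 l x) ≤ R then ((1 + rad x) ^ 8)⁻¹ else 0) := fun l =>
    (RI_slab l R (p := 8) (by norm_num)).const_mul _
  choose R2 hR2 using fun l => fc3_tail_RI (hSm l) (hS l) hη
  have hsum0 : ∀ l, |R2 l| ≤ ∑ l, |R2 l| := fun l =>
    Finset.single_le_sum (f := fun l => |R2 l|) (fun _ _ => abs_nonneg _) (Finset.mem_univ l)
  have hsum1 : 0 ≤ ∑ l, |R2 l| := Finset.sum_nonneg fun _ _ => abs_nonneg _
  refine ⟨4 * (|R1| + ∑ l, |R2 l| + 1), by positivity, fun r hr ψ h1ψ htψ hbψ hbψ' heq => ?_⟩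
  have hr0 : 0 < r := lt_of_lt_of_le (by positivity) hr
  have hr4 : r / 4 < r / 2 := by linarith
  have hRa : R1 ≤ r / 4 := by
    have := le_abs_self R1
    linarith
  have hRb : ∀ l, R2 l ≤ r / 4 := fun l => by
    have h2 := le_abs_self (R2 l)
    have h3 := hsum0 l
    have h4 := abs_nonneg R1
    linarith
  constructor
  · have e1 : A1 ψ - A1 φ = rint fun x =>
        (∑ l, ∑ l' ∈ Finset.univ.erase l, gg (ph ψ l) (ph ψ l') x) -
          ∑ l, ∑ l' ∈ Finset.univ.erase l, gg (ph φ l) (ph φ l') x :=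
      (rint_sub (fc3_RI_gg h1ψ hbψ') (fc3_RI_gg h1 hb')).symm
    rw [e1]
    refine (abs_rint_le (fc3_RI_tail hK1m hK1 (r / 4)) fun x => ?_).trans (hR1 _ hRa)
    by_cases hx : rad x ≤ r / 4
    · rw [if_pos hx]
      have : ∀ l l', gg (ph ψ l) (ph ψ l') x = gg (ph φ l) (ph φ l') x := fun l l' =>
        fc3_gg_eq heq l l' (lt_of_le_of_lt hx hr4)
      simp only [this, sub_self, abs_zero, le_refl]
    · rw [if_neg hx]
      have e2 : (∑ l, ∑ l' ∈ Finset.univ.erase l, gg (ph ψ l) (ph ψ l') x) -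
          (∑ l, ∑ l' ∈ Finset.univ.erase l, gg (ph φ l) (ph φ l') x) =
          ∑ l, ∑ l' ∈ Finset.univ.erase l,
            (gg (ph ψ l) (ph ψ l') x - gg (ph φ l) (ph φ l') x) := by
        simp only [Finset.sum_sub_distrib]
      rw [e2]
      unfold fc3_ker
      simp only [Finset.mul_sum]
      refine (Finset.abs_sum_le_sum_abs _ _).trans (Finset.sum_le_sum fun l _ => ?_)
      refine (Finset.abs_sum_le_sum_abs _ _).trans (Finset.sum_le_sum fun l' _ => ?_)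
      have b1 := abs_gg_ph_le h1ψ h1ψ hbψ' hbψ' l l' x
      have b2 := abs_gg_ph_le h1 h1 hb' hb' l l' x
      refine (abs_sub _ _).trans ?_
      linarith
  · intro l
    have hm := h1.continuous.measurable
    have hmψ := h1ψ.continuous.measurable
    rw [← rint_sub (RI_V4_s0_sq hV hmψ hbψ l) (RI_V4_s0_sq hV hm hb l)]
    refine (abs_rint_le (fc3_RI_tail (hSm l) (hS l) (r / 4)) fun x => ?_).trans
      (hR2 l _ (hRb l))
    by_cases hx : rad x ≤ r / 4
    · rw [if_pos hx, fc3_s0_eq heq l (hx.trans hr4.le)]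
      simp
    · rw [if_neg hx]
      by_cases hv : V4 V l x = 0
      · rw [hv]
        simp only [zero_mul, sub_self, abs_zero]
        have := rad_nonneg x
        split_ifs <;> positivity
      · have hRx := (hVp l).2.2.2 x hv
        rw [if_pos hRx]
        have hV0 := (hVp l).2.2.1 x
        have hrx := rad_nonneg x
        have hsq : ∀ χ : (Fin 3 → R3) → ℝ, (∀ x, |χ x| ≤ C / (1 + rad x) ^ 4) →
            0 ≤ V4 V l x * s0 χ l x ^ 2 ∧
              V4 V l x * s0 χ l x ^ 2 ≤ B * C' ^ 2 * ((1 + rad x) ^ 8)⁻¹ := by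
          intro χ hχ
          refine ⟨mul_nonneg hV0.1 (sq_nonneg _), ?_⟩
          have h3 := hdec χ hχ l x hv
          have h4 : s0 χ l x ^ 2 ≤ (C' / (1 + rad x) ^ 4) ^ 2 := by
            rw [← sq_abs]
            exact pow_le_pow_left₀ (abs_nonneg _) h3 2
          calc V4 V l x * s0 χ l x ^ 2 ≤ B * (C' / (1 + rad x) ^ 4) ^ 2 :=
                mul_le_mul hV0.2 h4 (sq_nonneg _) hB.le
            _ = B * C' ^ 2 * ((1 + rad x) ^ 8)⁻¹ := by
                rw [div_pow, ← pow_mul]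
                ring
        have a1 := hsq ψ hbψ
        have a2 := hsq φ hb
        rw [abs_le]
        constructor <;> linarith [a1.1, a1.2, a2.1, a2.2]

/-! ### Facts used for the assembly -/

theorem fc3_RI_TF_sq {z : (Fin 4 → R3) → ℝ} (hz : TF z) {F : (Fin 4 → R3) → ℝ} (hF : Measurable F)
    {B : ℝ} (hB : ∀ x, |F x| ≤ B) : RI fun x => F x * z x ^ 2 := by
  obtain ⟨R, hR⟩ := hz.supp
  obtain ⟨Bz, hBz0, hBz⟩ := rc_exists_bound_of_TI hz.c1.continuous hz.ti hR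
  refine RI_of_bdd (hF.mul (hz.c1.continuous.measurable.pow_const 2)) (B := B * Bz ^ 2) (R := R)
    (fun x => ?_) fun x hx => hR x fun h0 => hx (by rw [h0]; ring)
  rw [abs_mul, abs_pow]
  have hB0 : 0 ≤ B := (abs_nonneg _).trans (hB x)
  exact mul_le_mul (hB x) (pow_le_pow_left₀ (abs_nonneg _) (hBz x) 2) (by positivity) hB0

/-- The pieces of the energy norm. -/
theorem fc3_EE (hV : Pot V) {z : (Fin 4 → R3) → ℝ} (hz : TF z) :
    EE V z = rint (gg z z) + ∑ l, rint fun x => V4 V l x * z x ^ 2 := by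
  obtain ⟨B, hB, R, hR, hVp⟩ := V4_props hV
  have h1 : ∀ l ∈ (Finset.univ : Finset (Fin 4)), RI fun x => V4 V l x * z x ^ 2 := fun l _ =>
    fc3_RI_TF_sq hz (hVp l).1 (B := B) fun x => by
      rw [abs_of_nonneg ((hVp l).2.2.1 x).1]
      exact ((hVp l).2.2.1 x).2
  unfold EE
  rw [rint_add (RI_gg_TF hz hz.c1 hz.ti) (fc3_RI_sum _ _ h1), rint_sum _ _ h1]

theorem fc3_sq_le {a b δ : ℝ} (hδ : 0 < δ) :
    a ^ 2 ≤ (1 + δ) * b ^ 2 + (1 + δ⁻¹) * (a + b) ^ 2 := by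
  have h1 : 0 ≤ (δ * b + (a + b)) ^ 2 * δ⁻¹ := by positivity
  have h2 : (δ * b + (a + b)) ^ 2 * δ⁻¹ =
      δ * b ^ 2 + 2 * b * (a + b) + δ⁻¹ * (a + b) ^ 2 := by
    field_simp
    ring
  nlinarith [h1, h2]

/-- The field term: `|g|² ≤ (1+δ)|∇z|² + (1+1/δ)|g+∇z|²`. -/
theorem fc3_field {ψ : (Fin 3 → R3) → ℝ} {K R r W QQ : ℝ}
    {g : Fin 4 → Fin 3 → (Fin 4 → R3) → ℝ} {s : Fin 4 → (Fin 4 → R3) → ℝ}
    {w : (Fin 4 → R3) → ℝ} (hd : Data4 V ψ K R r W QQ g s w) {z : (Fin 4 → R3) → ℝ} (hz : TF z)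
    {δ η : ℝ} (hδ : 0 < δ)
    (hη : (rint fun x => ∑ m, ∑ a, (g m a x + pd z m a x) ^ 2) ≤ η) :
    (rint fun x => ∑ m, ∑ a, g m a x ^ 2) ≤ (1 + δ) * rint (gg z z) + (1 + δ⁻¹) * η := by
  obtain ⟨Rz, hRz⟩ := hz.supp
  have hpc : ∀ m a, Continuous (pd z m a) := fun m a => continuous_pd hz.c1 m a
  have hpt : ∀ m a, TI (pd z m a) := fun m a => TI_pd hz.ti m a
  have hps : ∀ m a x, pd z m a x ≠ 0 → rad x ≤ Rz := fun m a x hx =>
    pd_eq_zero_of_rad hz.c1 hRz m a x hx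
  have hg2 : ∀ m a, RI fun x => g m a x ^ 2 := fun m a => by
    have hK : ∀ x, |g m a x| ≤ |K| := fun x => by
      refine (hd.g_bd m a x).trans ?_
      have hr := rad_nonneg x
      have h1 : (1 : ℝ) ≤ (1 + rad x) ^ 8 := one_le_pow₀ (by linarith)
      rw [div_le_iff₀ (by positivity)]
      calc K ≤ |K| * 1 := by rw [mul_one]; exact le_abs_self K
        _ ≤ |K| * (1 + rad x) ^ 8 := mul_le_mul_of_nonneg_left h1 (abs_nonneg K)
    refine RI_of_bdd ((hd.g_meas m a).pow_const 2) (B := |K| ^ 2) (R := r) (fun x => ?_)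
      fun x hx => hd.g_supp m a x fun h0 => hx (by rw [h0]; ring)
    rw [abs_pow]
    exact pow_le_pow_left₀ (abs_nonneg _) (hK x) 2
  have hp2 : ∀ m a, RI fun x => pd z m a x ^ 2 := fun m a => by
    obtain ⟨B, hB0, hB⟩ := rc_exists_bound_of_TI (hpc m a) (hpt m a) (hps m a)
    refine RI_of_bdd ((hpc m a).measurable.pow_const 2) (B := B ^ 2) (R := Rz) (fun x => ?_)
      fun x hx => hps m a x fun h0 => hx (by rw [h0]; ring)
    rw [abs_pow]
    exact pow_le_pow_left₀ (abs_nonneg _) (hB x) 2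
  have hgp2 : ∀ m a, RI fun x => (g m a x + pd z m a x) ^ 2 := fun m a => by
    refine RI.mono (((hg2 m a).add (hp2 m a)).const_mul 2)
      (((hd.g_meas m a).add (hpc m a).measurable).pow_const 2) fun x => ?_
    rw [abs_of_nonneg (sq_nonneg _)]
    nlinarith [sq_nonneg (g m a x - pd z m a x)]
  have e1 : (rint fun x => ∑ m, ∑ a, g m a x ^ 2) ≤
      rint fun x => (1 + δ) * gg z z x + (1 + δ⁻¹) * ∑ m, ∑ a, (g m a x + pd z m a x) ^ 2 := by
    refine rint_mono (fc3_RI_sum _ _ fun m _ => fc3_RI_sum _ _ fun a _ => hg2 m a)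
      (((RI_gg_TF hz hz.c1 hz.ti).const_mul _).add
        ((fc3_RI_sum _ _ fun m _ => fc3_RI_sum _ _ fun a _ => hgp2 m a).const_mul _)) fun x => ?_
    unfold gg
    simp only [Finset.mul_sum, ← Finset.sum_add_distrib]
    refine Finset.sum_le_sum fun m _ => Finset.sum_le_sum fun a _ => ?_
    have := fc3_sq_le (a := g m a x) (b := pd z m a x) hδ
    rw [← sq]
    exact this
  refine e1.trans ?_
  rw [rint_add ((RI_gg_TF hz hz.c1 hz.ti).const_mul _)
    ((fc3_RI_sum _ _ fun m _ => fc3_RI_sum _ _ fun a _ => hgp2 m a).const_mul _),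
    rint_const_mul, rint_const_mul]
  have hδ' : 0 ≤ 1 + δ⁻¹ := by positivity
  have := mul_le_mul_of_nonneg_left hη hδ'
  linarith

/-- The term with the soft charge is small. -/
theorem fc3_wPhi {C : ℝ} (hC : 0 ≤ C) {K : ℝ} (hK : 0 ≤ K) : ∃ D > 0, ∀ r4 ≥ (1 : ℝ),
    ∀ ψ : (Fin 3 → R3) → ℝ, (∀ x, |ψ x| ≤ C / (1 + rad x) ^ 4) →
    ∀ w : (Fin 4 → R3) → ℝ, (∀ x, w x ≠ 0 → rad x ≤ r4) → (∀ x, |w x| ≤ K / r4 ^ 9) →
      |rint fun x => w x * Phi4 ψ x| ≤ D / r4 := by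
  obtain ⟨C3, hC3, hball⟩ := rint_ph_ball_le
  refine ⟨4 * K * C * C3 + 1, by positivity, fun r4 hr4 ψ hψ w hws hwb => ?_⟩
  have hr0 : 0 < r4 := lt_of_lt_of_le one_pos hr4
  have hI : ∀ l ∈ (Finset.univ : Finset (Fin 4)), RI (fun x : Fin 4 → R3 =>
      if rad x ≤ r4 then ((1 + rad (sub4 l x)) ^ 4)⁻¹ else 0) := fun l _ => (hball r4 hr4 l).1
  have h1 : |rint fun x => w x * Phi4 ψ x| ≤ rint fun x => K / r4 ^ 9 * C *
      ∑ l : Fin 4, if rad x ≤ r4 then ((1 + rad (sub4 l x)) ^ 4)⁻¹ else 0 := by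
    refine abs_rint_le ((fc3_RI_sum _ _ hI).const_mul _) fun x => ?_
    by_cases hx : rad x ≤ r4
    · simp only [if_pos hx]
      rw [abs_mul]
      have h2 : |Phi4 ψ x| ≤ C * ∑ l : Fin 4, ((1 + rad (sub4 l x)) ^ 4)⁻¹ := by
        unfold Phi4
        rw [Finset.mul_sum]
        refine (Finset.abs_sum_le_sum_abs _ _).trans (Finset.sum_le_sum fun l _ => ?_)
        have := hψ (sub4 l x)
        rw [div_eq_mul_inv] at this
        exact this
      calc |w x| * |Phi4 ψ x| ≤ K / r4 ^ 9 * (C * ∑ l : Fin 4, ((1 + rad (sub4 l x)) ^ 4)⁻¹) :=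
            mul_le_mul (hwb x) h2 (abs_nonneg _) (by positivity)
        _ = K / r4 ^ 9 * C * ∑ l : Fin 4, ((1 + rad (sub4 l x)) ^ 4)⁻¹ := by ring
    · have hw0 : w x = 0 := by
        by_contra h0
        exact hx (hws x h0)
      simp only [if_neg hx]
      rw [hw0]
      simp
  refine h1.trans ?_
  rw [rint_const_mul, rint_sum _ _ hI]
  have h3 : ∑ l : Fin 4, rint (fun x : Fin 4 → R3 =>
      if rad x ≤ r4 then ((1 + rad (sub4 l x)) ^ 4)⁻¹ else 0) ≤ 4 * (C3 * r4 ^ 5) := by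
    have := Finset.sum_le_sum fun l (_ : l ∈ (Finset.univ : Finset (Fin 4))) => (hball r4 hr4 l).2
    simpa using this
  calc K / r4 ^ 9 * C * ∑ l : Fin 4, rint (fun x : Fin 4 → R3 =>
        if rad x ≤ r4 then ((1 + rad (sub4 l x)) ^ 4)⁻¹ else 0)
      ≤ K / r4 ^ 9 * C * (4 * (C3 * r4 ^ 5)) :=
        mul_le_mul_of_nonneg_left h3 (by positivity)
    _ = 4 * K * C * C3 / r4 ^ 4 := by
        field_simp
    _ ≤ (4 * K * C * C3 + 1) / r4 := by
        have h5 : r4 ≤ r4 ^ 4 := le_self_pow₀ hr4 (by norm_num)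
        have h6 : 0 ≤ 4 * K * C * C3 := by positivity
        rw [div_le_div_iff₀ (by positivity) hr0]
        nlinarith [mul_le_mul_of_nonneg_left h5 h6, pow_pos hr0 4]

/-- The potential term with the correction `s`. -/
theorem fc3_pot (hV : Pot V) {C : ℝ} (hφ : Measurable φ)
    (hb : ∀ x, |φ x| ≤ C / (1 + rad x) ^ 4) {ψ : (Fin 3 → R3) → ℝ} (hψ : Measurable ψ)
    (hψ0 : ∀ x, 0 ≤ ψ x ∧ ψ x ≤ φ x) {R r : ℝ} (hr : R ≤ r / 2)
    (heq : ∀ x, rad x ≤ r / 2 → ψ x = φ x) {z : (Fin 4 → R3) → ℝ} (hz : TF z)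
    (hR : ∀ x, z x ≠ 0 → rad x ≤ R) (l : Fin 4) :
    (rint fun x => V4 V l x * (((if rad x ≤ R then s0 φ l x else 0) - z x) - s0 ψ l x) ^ 2) ≤
      (rint fun x => V4 V l x * z x ^ 2) +
        rint fun x => if rad x ≤ R then 0 else V4 V l x * s0 φ l x ^ 2 := by
  obtain ⟨B, hB, RV, hRV, hVp⟩ := V4_props hV
  have hVb : ∀ x, |V4 V l x| ≤ B := fun x => by
    rw [abs_of_nonneg ((hVp l).2.2.1 x).1]
    exact ((hVp l).2.2.1 x).2
  have i1 : RI fun x => V4 V l x * z x ^ 2 := fc3_RI_TF_sq hz (hVp l).1 hVb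
  have i2m : Measurable fun x => V4 V l x * s0 φ l x ^ 2 :=
    (hVp l).1.mul ((measurable_s0 hφ l).pow_const 2)
  have i2 : RI fun x => if rad x ≤ R then 0 else V4 V l x * s0 φ l x ^ 2 :=
    fc3_RI_tail i2m (RI_V4_s0_sq hV hφ hb l) R
  have hpt : ∀ x, 0 ≤ V4 V l x * (((if rad x ≤ R then s0 φ l x else 0) - z x) - s0 ψ l x) ^ 2 ∧
      V4 V l x * (((if rad x ≤ R then s0 φ l x else 0) - z x) - s0 ψ l x) ^ 2 ≤
      V4 V l x * z x ^ 2 + if rad x ≤ R then 0 else V4 V l x * s0 φ l x ^ 2 := by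
    intro x
    have hV0 := ((hVp l).2.2.1 x).1
    refine ⟨mul_nonneg hV0 (sq_nonneg _), ?_⟩
    by_cases hx : rad x ≤ R
    · rw [if_pos hx, if_pos hx, fc3_s0_eq heq l (hx.trans hr)]
      have : s0 φ l x - z x - s0 φ l x = - z x := by ring
      rw [this]
      simp
    · have hz0 : z x = 0 := by
        by_contra h0
        exact hx (hR x h0)
      rw [if_neg hx, if_neg hx, hz0]
      have h1 : 0 ≤ s0 ψ l x := Finset.sum_nonneg fun l' _ => (hψ0 _).1
      have h2 : s0 ψ l x ≤ s0 φ l x := Finset.sum_le_sum fun l' _ => (hψ0 _).2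
      have h3 : s0 ψ l x ^ 2 ≤ s0 φ l x ^ 2 := pow_le_pow_left₀ h1 h2 2
      have h4 := mul_le_mul_of_nonneg_left h3 hV0
      have h5 : ((0 : ℝ) - 0 - s0 ψ l x) ^ 2 = s0 ψ l x ^ 2 := by ring
      rw [h5]
      simp only [ne_eq, OfNat.ofNat_ne_zero, not_false_eq_true, zero_pow, mul_zero, zero_add]
      exact h4
  rw [← rint_add i1 i2]
  refine rint_mono (RI.mono (i1.add i2) ?_ fun x => ?_) (i1.add i2) fun x => (hpt x).2
  · refine (hVp l).1.mul (((Measurable.sub ?_ hz.c1.continuous.measurable).sub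
      (measurable_s0 hψ l)).pow_const 2)
    exact Measurable.ite (measurableSet_le continuous_rad.measurable measurable_const)
      (measurable_s0 hφ l) measurable_const
  · rw [abs_of_nonneg (hpt x).1]
    exact (hpt x).2

/-- **Existence of all the data.** Combine `exists_data3`, `exists_data4_aux`, `val_eq` and
`tendsto_A1`. For `r ≥ 2R`: on `rad x ≤ R` one has `s0 (φr) l x = s0 φ l x`, so
`∑ V (s - s0 φr)² = ∑ V z² + ∑ V (s0 φr)² 1_{rad > R}` and `0 ≤ s0 φr ≤ s0 φ`;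
`rint |g|² ≤ (rint |∇z|² )^{1/2} + η^{1/2})²` (Minkowski / `(a+b)² ≤ (1+δ)a² + (1+1/δ)b²`), and
`rint |∇z|² + ∑ V z² = EE z ≤ calS + η` bounds `rint |∇z|²`;
`|rint (w Φ)| ≤ K r4^{-9} C r4^5` (`rint_ph_ball_le`). -/
theorem exists_data (hV : Pot V) (h : Scat V φ) :
    ∃ K > 0, ∃ r0 > 0, ∃ φr w3 : ℝ → (Fin 3 → R3) → ℝ,
      (∀ r ≥ r0, Data3 V (bM V) K r (φr r) (w3 r) ∧ ∀ x, 0 ≤ φr r x ∧ φr r x ≤ φ x) ∧
      ∀ η > 0, ∃ K' > 0, ∃ R' > 0, ∃ r1 > 0, ∀ r ≥ r1, ∀ r4 ≥ r1, ∃ g s w W QQ,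
        Data4 V (φr r) K' R' r4 W QQ g s w ∧ b4 V φ - η ≤ 2 * W - QQ := by
  obtain ⟨K, hK, r0, hr0, h3⟩ := exists_data3 hV h
  choose! φr w3 hd using h3
  refine ⟨K, hK, r0, hr0, φr, w3, fun r hr => ⟨(hd r hr).1, (hd r hr).2.1⟩, fun η hη => ?_⟩
  -- one constant for all the bounds
  obtain ⟨Ca, hCa⟩ := h.decay
  obtain ⟨Cb, hCb⟩ := h.decay'
  obtain ⟨C, hC⟩ : ∃ C, C = max (max Ca Cb) K := ⟨_, rfl⟩
  have hCa' : Ca ≤ C := hC ▸ (le_max_left Ca Cb).trans (le_max_left _ _)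
  have hCb' : Cb ≤ C := hC ▸ (le_max_right Ca Cb).trans (le_max_left _ _)
  have hKC : K ≤ C := hC ▸ le_max_right _ _
  have hC0 : 0 ≤ C := hK.le.trans hKC
  have hdiv : ∀ {A : ℝ} {n : ℕ} (x : Fin 3 → R3), A ≤ C →
      A / (1 + rad x) ^ n ≤ C / (1 + rad x) ^ n := fun x hA => by
    have := rad_nonneg x
    exact div_le_div_of_nonneg_right hA (by positivity)
  have hb : ∀ x, |φ x| ≤ C / (1 + rad x) ^ 4 := fun x => by
    rw [abs_of_nonneg (h.nonneg x)]
    exact (hCa x).trans (hdiv x hCa')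
  have hb' : ∀ x m a, |pd φ m a x| ≤ C / (1 + rad x) ^ 5 := fun x m a =>
    (hCb x m a).trans (hdiv x hCb')
  have hφm : Measurable φ := h.c1.continuous.measurable
  -- the parameters
  obtain ⟨S, hS⟩ : ∃ S, S = |calS V φ| := ⟨_, rfl⟩
  have hS0 : 0 ≤ S := hS ▸ abs_nonneg _
  have hSle : calS V φ ≤ S := hS ▸ le_abs_self _
  obtain ⟨δ, hδ⟩ : ∃ δ, δ = η / (8 * (S + 1)) := ⟨_, rfl⟩
  have hδ0 : 0 < δ := by rw [hδ]; positivity
  have hδS : δ * (S + 1) ≤ η / 8 := by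
    rw [hδ]
    apply le_of_eq
    field_simp
  obtain ⟨ε, hε⟩ : ∃ ε, ε = min 1 (min (η / 80) (η / (8 * (1 + δ⁻¹)))) := ⟨_, rfl⟩
  have hε0 : 0 < ε := by
    rw [hε]
    have : 0 < δ⁻¹ := inv_pos.2 hδ0
    refine lt_min one_pos (lt_min (by positivity) (by positivity))
  have hε1 : ε ≤ 1 := hε ▸ min_le_left _ _
  have hε2 : ε ≤ η / 80 := hε ▸ (min_le_right _ _).trans (min_le_left _ _)
  have hε3 : (1 + δ⁻¹) * ε ≤ η / 8 := by
    have h1 : ε ≤ η / (8 * (1 + δ⁻¹)) := hε ▸ (min_le_right _ _).trans (min_le_right _ _)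
    have hp : 0 < 1 + δ⁻¹ := by
      have : 0 < δ⁻¹ := inv_pos.2 hδ0
      positivity
    calc (1 + δ⁻¹) * ε ≤ (1 + δ⁻¹) * (η / (8 * (1 + δ⁻¹))) :=
          mul_le_mul_of_nonneg_left h1 hp.le
      _ = η / 8 := by field_simp
  obtain ⟨K4, hK4, R4, hR4, z, hz, hzR, hEE, htail, hd4⟩ := exists_data4_aux hV h.c1 h.ti hb hε0
  obtain ⟨r1, hr1, hA⟩ := tendsto_A1 hV h.c1 h.ti hb hb' hε0
  obtain ⟨D, hD, hwPhi⟩ := fc3_wPhi hC0 hK4.le
  refine ⟨K4, hK4, R4, hR4, r1 + r0 + (2 * R4 + 1) + 8 * D / η, by positivity,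
    fun r hr r4 hr4 => ?_⟩
  have hDη : 0 < 8 * D / η := by positivity
  have hra : r ≥ r0 := by linarith
  have hrb : r ≥ r1 := by linarith
  have hrc : R4 ≤ r / 2 := by linarith
  have hr4a : r4 ≥ 2 * R4 + 1 := by linarith
  have hr4b : (1 : ℝ) ≤ r4 := by linarith
  have hr4c : 8 * D / η ≤ r4 := by linarith
  have hr40 : 0 < r4 := by linarith
  obtain ⟨hd3, hle, heq, -, -⟩ := hd r hra
  obtain ⟨g, w, hgw, hgz⟩ := hd4 r4 hr4a
  obtain ⟨QQ, hQ⟩ := hgw (φr r)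
  have hbr : ∀ x, |φr r x| ≤ C / (1 + rad x) ^ 4 := fun x => (hd3.bd x).trans (hdiv x hKC)
  have hbr' : ∀ x m a, |pd (φr r) m a x| ≤ C / (1 + rad x) ^ 5 := fun x m a =>
    (hd3.bd' x m a).trans (hdiv x hKC)
  refine ⟨g, _, w, rint w, QQ, hQ, ?_⟩
  have hval := val_eq hV hd3.c1 hd3.ti hbr hbr' hQ
  obtain ⟨hA1, hA2⟩ := hA r hrb (φr r) hd3.c1 hd3.ti hbr hbr' heq
  -- the cross terms and the potential terms
  have hb4 : b4 V φ = (∑ l, rint fun x => V4 V l x * s0 φ l x ^ 2) - A1 φ - calS V φ := by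
    unfold b4 A1
    rw [rint_sum _ _ fun l _ => RI_V4_s0_sq hV hφm hb l]
  have t1 : (∑ l, rint fun x => V4 V l x * s0 φ l x ^ 2) - 4 * ε ≤
      ∑ l, rint fun x => V4 V l x * s0 (φr r) l x ^ 2 := by
    have : ∑ l : Fin 4, ((rint fun x => V4 V l x * s0 φ l x ^ 2) - ε) ≤
        ∑ l, rint fun x => V4 V l x * s0 (φr r) l x ^ 2 := by
      refine Finset.sum_le_sum fun l _ => ?_
      have := (abs_le.1 (hA2 l)).1
      linarith
    rw [Finset.sum_sub_distrib] at this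
    simpa using this
  -- the correction terms
  have t2 : (∑ l, rint fun x => V4 V l x *
      (((if rad x ≤ R4 then s0 φ l x else 0) - z x) - s0 (φr r) l x) ^ 2) ≤
      (∑ l, rint fun x => V4 V l x * z x ^ 2) + 4 * ε := by
    have : (∑ l, rint fun x => V4 V l x *
      (((if rad x ≤ R4 then s0 φ l x else 0) - z x) - s0 (φr r) l x) ^ 2) ≤
        ∑ l : Fin 4, ((rint fun x => V4 V l x * z x ^ 2) + ε) := by
      refine Finset.sum_le_sum fun l _ => ?_
      have := fc3_pot hV hφm hb hd3.c1.continuous.measurable hle hrc heq hz hzR l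
      linarith [htail l]
    rw [Finset.sum_add_distrib] at this
    simpa using this
  have t3 := fc3_field hQ hz hδ0 hgz
  have hEEz := fc3_EE hV hz
  have t4 : rint (gg z z) ≤ S + 1 := by
    obtain ⟨B, hB, RV, hRV, hVp⟩ := V4_props hV
    have : 0 ≤ ∑ l, rint fun x => V4 V l x * z x ^ 2 := Finset.sum_nonneg fun l _ =>
      rint_nonneg fun x => mul_nonneg ((hVp l).2.2.1 x).1 (sq_nonneg _)
    have h5 := (abs_le.1 hEE).2
    linarith
  have t5 := hwPhi r4 hr4b (φr r) hbr w hQ.w_supp hQ.w_bd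
  have t6 : D / r4 ≤ η / 8 := by
    rw [div_le_iff₀ hr40]
    rw [div_le_iff₀ hη] at hr4c
    linarith
  have t7 : δ * rint (gg z z) ≤ η / 8 := (mul_le_mul_of_nonneg_left t4 hδ0.le).trans hδS
  have t8 := (abs_le.1 hEE).2
  have t9 := (abs_le.1 t5).1
  have t10 := (abs_le.1 hA1).2
  rw [hb4, hval]
  linarith

end Pool.Agent.Lib.MP_5db8e2_mp
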