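import Pool.Agent.Lib.MP_5db8e2_mp.Defs

/-!
# Geometry of clusters: `cm`, `rsq`, `rad`
-/

set_option autoImplicit false

open MeasureTheory Filter Topology

namespace Pool.Agent.Lib.MP_5db8e2_mp

variable {k : ℕ}

/-! ### Auxiliary lemmas -/

theorem sum_eq_card_mul_cm (x : Fin k → R3) (a : Fin 3) : ∑ m, x m a = k * cm x a := by
  unfold cm
  rcases Nat.eq_zero_or_pos k with hk | hk
  · subst hk
    simp
  · have : (k : ℝ) ≠ 0 := by positivity
    field_simp

theorem cm_add (x y : Fin k → R3) : cm (x + y) = cm x + cm y := by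
  funext a
  simp only [cm, Pi.add_apply, Finset.sum_add_distrib, add_div]

theorem cm_smul (c : ℝ) (x : Fin k → R3) : cm (c • x) = c • cm x := by
  funext a
  simp only [cm, Pi.smul_apply, smul_eq_mul, ← Finset.mul_sum, mul_div_assoc]

theorem cm_neg (x : Fin k → R3) : cm (-x) = -cm x := by
  funext a
  simp only [cm, Pi.neg_apply, Finset.sum_neg_distrib, neg_div]

/-- The vector `x - cm x` as an element of a Euclidean space. -/
noncomputable def toEucl (x : Fin k → R3) : EuclideanSpace ℝ (Fin k × Fin 3) :=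
  WithLp.toLp 2 fun p => x p.1 p.2 - cm x p.2

theorem rad_eq_norm (x : Fin k → R3) : rad x = ‖toEucl x‖ := by
  rw [EuclideanSpace.norm_eq]
  unfold rad rsq toEucl
  congr 1
  rw [Fintype.sum_prod_type]
  simp only [Real.norm_eq_abs, sq_abs]

theorem toEucl_add (x y : Fin k → R3) : toEucl (x + y) = toEucl x + toEucl y := by
  ext p
  simp only [toEucl, cm_add, Pi.add_apply, PiLp.add_apply]
  ring

theorem toEucl_smul (c : ℝ) (x : Fin k → R3) : toEucl (c • x) = c • toEucl x := by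
  ext p
  simp only [toEucl, cm_smul, Pi.smul_apply, PiLp.smul_apply, smul_eq_mul]
  ring

/-! ### Centre of mass and radius -/

theorem cm_shift (hk : k ≠ 0) (x : Fin k → R3) (v : R3) :
    cm (fun m => x m + v) = cm x + v := by
  funext a
  have hk' : (k : ℝ) ≠ 0 := Nat.cast_ne_zero.2 hk
  simp only [cm, Pi.add_apply, Finset.sum_add_distrib, Finset.sum_const, Finset.card_univ,
    Fintype.card_fin, nsmul_eq_mul, add_div]
  field_simp

theorem cm_perm (σ : Equiv.Perm (Fin k)) (x : Fin k → R3) : cm (x ∘ σ) = cm x := by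
  funext a
  simp only [cm, Function.comp_apply]
  rw [Equiv.sum_comp σ fun m => x m a]

theorem TI_rsq : TI (rsq : (Fin k → R3) → ℝ) := by
  intro x v
  rcases Nat.eq_zero_or_pos k with hk | hk
  · subst hk
    simp [rsq]
  · unfold rsq
    rw [cm_shift hk.ne']
    refine Finset.sum_congr rfl fun m _ => Finset.sum_congr rfl fun a _ => ?_
    simp only [Pi.add_apply]
    ring

theorem TI_rad : TI (rad : (Fin k → R3) → ℝ) := by
  intro x v
  unfold rad
  rw [TI_rsq x v]

theorem PI_rsq : PI (rsq : (Fin k → R3) → ℝ) := by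
  intro σ x
  unfold rsq
  rw [cm_perm]
  exact Equiv.sum_comp σ fun m => ∑ a, (x m a - cm x a) ^ 2

theorem PI_rad : PI (rad : (Fin k → R3) → ℝ) := by
  intro σ x
  unfold rad
  rw [PI_rsq σ x]

theorem rsq_nonneg (x : Fin k → R3) : 0 ≤ rsq x :=
  Finset.sum_nonneg fun _ _ => Finset.sum_nonneg fun _ _ => sq_nonneg _

theorem rad_nonneg (x : Fin k → R3) : 0 ≤ rad x := Real.sqrt_nonneg _

theorem rad_sq (x : Fin k → R3) : rad x ^ 2 = rsq x := Real.sq_sqrt (rsq_nonneg x)

/-- Steiner: `∑ |x_m - c|² = rsq + k |cm - c|²`. -/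
theorem sum_sq_sub_eq (x : Fin k → R3) (c : R3) :
    ∑ m, ∑ a, (x m a - c a) ^ 2 = rsq x + k * ∑ a, (cm x a - c a) ^ 2 := by
  unfold rsq
  rw [Finset.sum_comm, Finset.sum_comm (f := fun m a => (x m a - cm x a) ^ 2), Finset.mul_sum,
    ← Finset.sum_add_distrib]
  refine Finset.sum_congr rfl fun a _ => ?_
  have h1 := sum_eq_card_mul_cm x a
  have h2 : ∀ m, (x m a - c a) ^ 2 = (x m a - cm x a) ^ 2 +
      (2 * (cm x a - c a) * x m a + (c a ^ 2 - cm x a ^ 2)) := fun m => by ring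
  simp only [h2]
  rw [Finset.sum_add_distrib, Finset.sum_add_distrib, ← Finset.mul_sum, h1, Finset.sum_const,
    Finset.card_univ, Fintype.card_fin, nsmul_eq_mul]
  ring

/-- Steiner: `∑ |x_m|² = rsq + k |cm|²`. -/
theorem rsq_eq (x : Fin k → R3) :
    rsq x = ∑ m, ∑ a, x m a ^ 2 - k * ∑ a, cm x a ^ 2 := by
  have h := sum_sq_sub_eq x 0
  simp only [Pi.zero_apply, sub_zero] at h
  rw [h]
  ring

/-- The centre of mass minimises the sum of squares. -/
theorem rsq_le_sum_sq (x : Fin k → R3) (c : R3) : rsq x ≤ ∑ m, ∑ a, (x m a - c a) ^ 2 := by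
  rw [sum_sq_sub_eq]
  have : 0 ≤ (k : ℝ) * ∑ a, (cm x a - c a) ^ 2 :=
    mul_nonneg (Nat.cast_nonneg k) (Finset.sum_nonneg fun _ _ => sq_nonneg _)
  linarith

/-- `rad` is a seminorm (the Euclidean norm of `x - cm x`). -/
theorem rad_add_le (x y : Fin k → R3) : rad (x + y) ≤ rad x + rad y := by
  rw [rad_eq_norm, rad_eq_norm, rad_eq_norm, toEucl_add]
  exact norm_add_le _ _

theorem rad_smul (c : ℝ) (x : Fin k → R3) : rad (c • x) = |c| * rad x := by
  rw [rad_eq_norm, rad_eq_norm, toEucl_smul, norm_smul, Real.norm_eq_abs]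

theorem rad_neg (x : Fin k → R3) : rad (-x) = rad x := by
  have h := rad_smul (-1) x
  rw [neg_one_smul] at h
  rw [h]
  simp

theorem rad_sub_comm (x y : Fin k → R3) : rad (x - y) = rad (y - x) := by
  rw [← rad_neg, neg_sub]

theorem rsq_smul (c : ℝ) (x : Fin k → R3) : rsq (c • x) = c ^ 2 * rsq x := by
  rw [← rad_sq, ← rad_sq, rad_smul, mul_pow, sq_abs]

theorem abs_sub_cm_le (x : Fin k → R3) (m : Fin k) (a : Fin 3) : |x m a - cm x a| ≤ rad x := by
  refine Real.abs_le_sqrt ?_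
  unfold rsq
  calc (x m a - cm x a) ^ 2 ≤ ∑ a, (x m a - cm x a) ^ 2 :=
        Finset.single_le_sum (f := fun a => (x m a - cm x a) ^ 2)
          (fun _ _ => sq_nonneg _) (Finset.mem_univ a)
    _ ≤ ∑ m, ∑ a, (x m a - cm x a) ^ 2 :=
        Finset.single_le_sum (f := fun m => ∑ a, (x m a - cm x a) ^ 2)
          (fun _ _ => Finset.sum_nonneg fun _ _ => sq_nonneg _) (Finset.mem_univ m)

theorem abs_sub_le_rad (x : Fin k → R3) (m m' : Fin k) (a : Fin 3) :
    |x m a - x m' a| ≤ 2 * rad x := by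
  have h1 := abs_sub_cm_le x m a
  have h2 := abs_sub_cm_le x m' a
  rw [abs_le] at h1 h2 ⊢
  constructor <;> linarith [h1.1, h1.2, h2.1, h2.2]

theorem norm_sub_le_rad (x : Fin k → R3) (m m' : Fin k) : ‖x m - x m'‖ ≤ 2 * rad x := by
  rw [pi_norm_le_iff_of_nonneg (by linarith [rad_nonneg x])]
  intro a
  rw [Pi.sub_apply, Real.norm_eq_abs]
  exact abs_sub_le_rad x m m' a

/-- `rad x ≤ √(3k) sup_{m,m'} ‖x_m - x_m'‖`, crude form: if all `‖x m - x m'‖ ≤ R` then
`rad x ≤ 3 k R`. -/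
theorem rad_le_of_norm_sub_le {x : Fin k → R3} {R : ℝ} (hR : 0 ≤ R)
    (h : ∀ m m', ‖x m - x m'‖ ≤ R) : rad x ≤ 3 * k * R := by
  rcases Nat.eq_zero_or_pos k with hk | hk
  · subst hk
    simp [rad, rsq]
  have hk1 : (1 : ℝ) ≤ k := by exact_mod_cast hk
  refine Real.sqrt_le_iff.2 ⟨by positivity, ?_⟩
  obtain ⟨m₀⟩ : Nonempty (Fin k) := ⟨⟨0, hk⟩⟩
  have h1 : ∑ m, ∑ a, (x m a - x m₀ a) ^ 2 ≤ 3 * k * R ^ 2 := by
    calc ∑ m, ∑ a, (x m a - x m₀ a) ^ 2 ≤ ∑ _m : Fin k, ∑ _a : Fin 3, R ^ 2 := by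
          refine Finset.sum_le_sum fun m _ => Finset.sum_le_sum fun a _ => ?_
          have h2 : |x m a - x m₀ a| ≤ R := by
            have := norm_le_pi_norm (x m - x m₀) a
            rw [Pi.sub_apply, Real.norm_eq_abs] at this
            exact this.trans (h m m₀)
          rw [← sq_abs]
          exact pow_le_pow_left₀ (abs_nonneg _) h2 2
      _ = 3 * k * R ^ 2 := by
          simp
          ring
  have h3 := rsq_le_sum_sq x (x m₀)
  have h4 : 3 * k * R ^ 2 ≤ (3 * k * R) ^ 2 := by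
    have h5 : (0 : ℝ) ≤ R ^ 2 := sq_nonneg R
    have h6 : (3 : ℝ) * k ≤ (3 * k) ^ 2 := by nlinarith
    calc 3 * k * R ^ 2 ≤ (3 * k) ^ 2 * R ^ 2 := mul_le_mul_of_nonneg_right h6 h5
      _ = (3 * k * R) ^ 2 := by ring
  linarith

theorem norm_le_rad_cons (y : Fin k → R3) :
    ‖y‖ ≤ 2 * rad (Fin.cons 0 y : Fin (k + 1) → R3) := by
  rw [pi_norm_le_iff_of_nonneg (by linarith [rad_nonneg (Fin.cons 0 y : Fin (k + 1) → R3)])]
  intro m
  have h := norm_sub_le_rad (Fin.cons 0 y : Fin (k + 1) → R3) m.succ 0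
  simpa using h

theorem rad_cons_le (y : Fin k → R3) :
    rad (Fin.cons 0 y : Fin (k + 1) → R3) ≤ 6 * (k + 1) * ‖y‖ := by
  have h1 : ∀ m, ‖(Fin.cons 0 y : Fin (k + 1) → R3) m‖ ≤ ‖y‖ := by
    intro m
    refine Fin.cases ?_ (fun m => ?_) m
    · simp
    · simpa using norm_le_pi_norm y m
  have h2 := rad_le_of_norm_sub_le (x := (Fin.cons 0 y : Fin (k + 1) → R3)) (R := 2 * ‖y‖)
    (by positivity) (fun m m' => by
      calc _ ≤ ‖(Fin.cons 0 y : Fin (k + 1) → R3) m‖ + ‖(Fin.cons 0 y : Fin (k + 1) → R3) m'‖ :=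
            norm_sub_le _ _
        _ ≤ 2 * ‖y‖ := by linarith [h1 m, h1 m'])
  push_cast at h2
  linarith

theorem rad_le_norm (x : Fin k → R3) : rad x ≤ 6 * k * ‖x‖ := by
  have h2 := rad_le_of_norm_sub_le (x := x) (R := 2 * ‖x‖) (by positivity) (fun m m' => by
      calc _ ≤ ‖x m‖ + ‖x m'‖ := norm_sub_le _ _
        _ ≤ 2 * ‖x‖ := by linarith [norm_le_pi_norm x m, norm_le_pi_norm x m'])
  linarith

theorem contDiff_cm {n : WithTop ℕ∞} : ContDiff ℝ n (cm : (Fin k → R3) → R3) := by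
  refine contDiff_pi.2 fun a => ?_
  unfold cm
  refine ContDiff.div_const ?_ _
  exact ContDiff.sum fun m _ => contDiff_apply_apply ℝ ℝ m a

theorem continuous_cm : Continuous (cm : (Fin k → R3) → R3) :=
  (contDiff_cm (n := 0)).continuous

theorem contDiff_rsq {n : WithTop ℕ∞} : ContDiff ℝ n (rsq : (Fin k → R3) → ℝ) := by
  unfold rsq
  refine ContDiff.sum fun m _ => ContDiff.sum fun a _ => ?_
  refine ContDiff.pow ?_ 2
  exact (contDiff_apply_apply ℝ ℝ m a).sub (contDiff_pi.1 contDiff_cm a)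

theorem continuous_rsq : Continuous (rsq : (Fin k → R3) → ℝ) :=
  (contDiff_rsq (n := 0)).continuous

theorem continuous_rad : Continuous (rad : (Fin k → R3) → ℝ) :=
  Real.continuous_sqrt.comp continuous_rsq

/-- The map which forgets the centre of mass. -/
theorem rad_sub_cm (hk : k ≠ 0) (x : Fin k → R3) : rad (fun m => x m - cm x) = rad x := by
  have h := TI_rad x (-cm x)
  simpa only [← sub_eq_add_neg] using h

/-- A translation invariant function is a function of the relative coordinates. -/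
theorem TI_eq_cons {E : Type*} {F : (Fin (k + 1) → R3) → E} (h : TI F) (x : Fin (k + 1) → R3) :
    F x = F (Fin.cons 0 fun m => x m.succ - x 0) := by
  rw [← h x (-x 0)]
  congr 1
  funext m
  refine Fin.cases ?_ (fun m => ?_) m
  · simp
  · simp [sub_eq_add_neg]

end Pool.Agent.Lib.MP_5db8e2_mp
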