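import Pool.Agent.Lib.MP_5db8e2_mp.Defs

/-!
# Partial derivatives of functions of a cluster
-/

set_option autoImplicit false

open MeasureTheory Filter Topology

namespace Pool.Agent.Lib.MP_5db8e2_mp

variable {k : ℕ}

/-! ### Partial derivatives -/

section pd

variable {φ ψ : (Fin k → R3) → ℝ} {x : Fin k → R3}

theorem continuous_pd (h : ContDiff ℝ 1 φ) (m : Fin k) (a : Fin 3) : Continuous (pd φ m a) := by
  unfold pd
  exact (h.continuous_fderiv (by norm_num)).clm_apply continuous_const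

theorem contDiff_pd {n : ℕ} (h : ContDiff ℝ (n + 1) φ) (m : Fin k) (a : Fin 3) :
    ContDiff ℝ n (pd φ m a) := by
  unfold pd
  exact (h.fderiv_right le_rfl).clm_apply contDiff_const

theorem pd_add (hφ : DifferentiableAt ℝ φ x) (hψ : DifferentiableAt ℝ ψ x) (m : Fin k)
    (a : Fin 3) : pd (fun x => φ x + ψ x) m a x = pd φ m a x + pd ψ m a x := by
  unfold pd
  rw [fderiv_fun_add hφ hψ]
  rfl

theorem pd_sub (hφ : DifferentiableAt ℝ φ x) (hψ : DifferentiableAt ℝ ψ x) (m : Fin k)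
    (a : Fin 3) : pd (fun x => φ x - ψ x) m a x = pd φ m a x - pd ψ m a x := by
  unfold pd
  rw [fderiv_fun_sub hφ hψ]
  rfl

theorem pd_neg (m : Fin k) (a : Fin 3) : pd (fun x => -φ x) m a x = -pd φ m a x := by
  unfold pd
  rw [fderiv_fun_neg]
  rfl

theorem pd_const (c : ℝ) (m : Fin k) (a : Fin 3) : pd (fun _ : Fin k → R3 => c) m a x = 0 := by
  unfold pd
  rw [fderiv_fun_const]
  rfl

theorem pd_const_mul (hφ : DifferentiableAt ℝ φ x) (c : ℝ) (m : Fin k) (a : Fin 3) :
    pd (fun x => c * φ x) m a x = c * pd φ m a x := by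
  unfold pd
  rw [fderiv_const_mul hφ]
  rfl

theorem pd_mul (hφ : DifferentiableAt ℝ φ x) (hψ : DifferentiableAt ℝ ψ x) (m : Fin k)
    (a : Fin 3) : pd (fun x => φ x * ψ x) m a x = φ x * pd ψ m a x + pd φ m a x * ψ x := by
  unfold pd
  rw [fderiv_fun_mul hφ hψ]
  simp [mul_comm]

theorem pd_comp {h : ℝ → ℝ} (hφ : DifferentiableAt ℝ φ x) (hh : DifferentiableAt ℝ h (φ x))
    (m : Fin k) (a : Fin 3) : pd (fun x => h (φ x)) m a x = deriv h (φ x) * pd φ m a x := by
  unfold pd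
  have h1 : HasFDerivAt (fun x => h (φ x)) (deriv h (φ x) • fderiv ℝ φ x) x :=
    hh.hasDerivAt.comp_hasFDerivAt x hφ.hasFDerivAt
  rw [h1.fderiv]
  simp

theorem pd_sum {ι : Type*} (s : Finset ι) (f : ι → (Fin k → R3) → ℝ)
    (hf : ∀ i ∈ s, DifferentiableAt ℝ (f i) x) (m : Fin k) (a : Fin 3) :
    pd (fun x => ∑ i ∈ s, f i x) m a x = ∑ i ∈ s, pd (f i) m a x := by
  unfold pd
  rw [fderiv_fun_sum hf]
  simp

/-- `pd` of a translate. -/
theorem pd_comp_add (c : Fin k → R3) (m : Fin k) (a : Fin 3) :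
    pd (fun x => φ (x + c)) m a x = pd φ m a (x + c) := by
  unfold pd
  rw [fderiv_comp_add_right]

theorem pd_comp_sub (c : Fin k → R3) (m : Fin k) (a : Fin 3) :
    pd (fun x => φ (x - c)) m a x = pd φ m a (x - c) := by
  simp only [sub_eq_add_neg]
  exact pd_comp_add (-c) m a

theorem pd_smul (c : ℝ) (hφ : DifferentiableAt ℝ φ (c • x)) (m : Fin k) (a : Fin 3) :
    pd (fun x => φ (c • x)) m a x = c * pd φ m a (c • x) := by
  unfold pd
  have h0 : HasFDerivAt (fun x : Fin k → R3 => c • x)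
      (c • ContinuousLinearMap.id ℝ (Fin k → R3)) x :=
    (c • ContinuousLinearMap.id ℝ (Fin k → R3)).hasFDerivAt
  have h1 : HasFDerivAt (fun x => φ (c • x))
      ((fderiv ℝ φ (c • x)).comp (c • ContinuousLinearMap.id ℝ (Fin k → R3))) x :=
    HasFDerivAt.comp x hφ.hasFDerivAt h0
  rw [h1.fderiv]
  simp

theorem pd_perm (σ : Equiv.Perm (Fin k)) (hφ : DifferentiableAt ℝ φ (x ∘ σ)) (m : Fin k)
    (a : Fin 3) : pd (fun x => φ (x ∘ σ)) m a x = pd φ (σ.symm m) a (x ∘ σ) := by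
  unfold pd
  let L : (Fin k → R3) →L[ℝ] (Fin k → R3) :=
    ContinuousLinearMap.pi (fun i => ContinuousLinearMap.proj (σ i))
  have hL : ∀ y : Fin k → R3, L y = y ∘ σ := fun y => by ext i b; simp [L]
  have h0 : HasFDerivAt (fun x : Fin k → R3 => x ∘ σ) L x := by
    have := L.hasFDerivAt (x := x)
    have e : (fun x : Fin k → R3 => x ∘ σ) = L := by funext y; exact (hL y).symm
    rw [e]
    exact this
  have h1 : HasFDerivAt (fun x => φ (x ∘ σ)) ((fderiv ℝ φ (x ∘ σ)).comp L) x :=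
    HasFDerivAt.comp x hφ.hasFDerivAt h0
  rw [h1.fderiv, ContinuousLinearMap.comp_apply, hL]
  congr 1
  funext i
  simp only [Function.comp_apply]
  by_cases hi : i = σ.symm m
  · subst hi
    simp
  · have hi' : σ i ≠ m := fun h => hi (by rw [← h]; simp)
    rw [Pi.single_eq_of_ne hi', Pi.single_eq_of_ne hi]

/-- `|φ x - φ y| ≤ ...`: a function whose partial derivatives all vanish is constant. -/
theorem eq_of_pd_eq_zero (h : ContDiff ℝ 1 φ) (h0 : ∀ m a x, pd φ m a x = 0) (x y : Fin k → R3) :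
    φ x = φ y := by
  refine is_const_of_fderiv_eq_zero (𝕜 := ℝ) (h.differentiable (by norm_num)) (fun z => ?_) x y
  ext v
  have hv : v = ∑ m : Fin k, ∑ a : Fin 3,
      v m a • (Pi.single m (Pi.single a (1 : ℝ) : R3) : Fin k → R3) := by
    funext i
    rw [Finset.sum_apply, Finset.sum_eq_single i]
    · funext b
      rw [Finset.sum_apply, Finset.sum_apply, Finset.sum_eq_single b]
      · simp
      · intro c _ hc
        simp [Pi.single_eq_of_ne (Ne.symm hc)]
      · simp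
    · intro j _ hj
      rw [Finset.sum_apply]
      refine Finset.sum_eq_zero (fun c _ => ?_)
      simp [Pi.single_eq_of_ne (Ne.symm hj)]
    · simp
  have hsum : fderiv ℝ φ z v = ∑ m : Fin k, ∑ a : Fin 3, v m a * pd φ m a z := by
    conv_lhs => rw [hv]
    rw [map_sum]
    refine Finset.sum_congr rfl (fun m _ => ?_)
    rw [map_sum]
    refine Finset.sum_congr rfl (fun a _ => ?_)
    rw [map_smul, smul_eq_mul]
    rfl
  rw [hsum]
  simp [h0]

end pd

theorem TI_pd {φ : (Fin k → R3) → ℝ} (h : TI φ) (m : Fin k) (a : Fin 3) :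
    TI (pd φ m a) := by
  intro x v
  have h1 : (fun y : Fin k → R3 => φ (y + fun _ => v)) = φ := by
    funext y
    exact h y v
  have h2 := pd_comp_add (φ := φ) (x := x) (fun _ => v) m a
  rw [h1] at h2
  exact h2.symm

theorem TI_sum_pd {φ : (Fin k → R3) → ℝ} (h : TI φ) {x : Fin k → R3}
    (hφ : DifferentiableAt ℝ φ x) (a : Fin 3) : ∑ m, pd φ m a x = 0 := by
  have h1 : ∑ m, pd φ m a x = fderiv ℝ φ x (fun _ => Pi.single a 1) := by
    unfold pd
    rw [← map_sum]
    congr 1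
    funext i
    rw [Finset.sum_apply, Finset.sum_eq_single i]
    · simp
    · intro j _ hj
      rw [Pi.single_eq_of_ne (Ne.symm hj)]
    · simp
  rw [h1]
  have h2 : HasDerivAt (fun t : ℝ => x + t • (fun _ => Pi.single a 1 : Fin k → R3))
      (fun _ => Pi.single a 1) 0 := by
    have := ((hasDerivAt_id (0 : ℝ)).smul_const (fun _ => Pi.single a 1 : Fin k → R3)).const_add x
    simpa using this
  have h3 : HasDerivAt (fun t : ℝ => φ (x + t • (fun _ => Pi.single a 1 : Fin k → R3)))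
      (fderiv ℝ φ x (fun _ => Pi.single a 1)) 0 := by
    have hφ' : HasFDerivAt φ (fderiv ℝ φ x)
        (x + (0 : ℝ) • (fun _ => Pi.single a 1 : Fin k → R3)) := by
      simpa using hφ.hasFDerivAt
    exact hφ'.comp_hasDerivAt (0 : ℝ) h2
  have h4 : (fun t : ℝ => φ (x + t • (fun _ => Pi.single a 1 : Fin k → R3))) = fun _ => φ x := by
    funext t
    exact h x (t • Pi.single a 1)
  rw [h4] at h3
  exact h3.unique (hasDerivAt_const _ _)

theorem TI_gg {φ ψ : (Fin k → R3) → ℝ} (h : TI φ) (h' : TI ψ) : TI (gg φ ψ) := by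
  intro x v
  unfold gg
  refine Finset.sum_congr rfl (fun m _ => Finset.sum_congr rfl (fun a _ => ?_))
  rw [TI_pd h m a x v, TI_pd h' m a x v]

theorem PI_gg {φ ψ : (Fin k → R3) → ℝ} (h : PI φ) (h' : PI ψ) (hφ : ContDiff ℝ 1 φ)
    (hψ : ContDiff ℝ 1 ψ) : PI (gg φ ψ) := by
  intro σ x
  have key : ∀ {χ : (Fin k → R3) → ℝ}, PI χ → ContDiff ℝ 1 χ → ∀ m a,
      pd χ (σ.symm m) a (x ∘ σ) = pd χ m a x := by
    intro χ hχ hχ' m a
    have h1 : (fun y : Fin k → R3 => χ (y ∘ σ)) = χ := by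
      funext y
      exact hχ σ y
    have h2 := pd_perm (φ := χ) (x := x) σ (hχ'.differentiable (by norm_num)).differentiableAt m a
    rw [h1] at h2
    exact h2.symm
  unfold gg
  rw [← Equiv.sum_comp σ.symm]
  refine Finset.sum_congr rfl (fun m _ => Finset.sum_congr rfl (fun a _ => ?_))
  rw [key h hφ m a, key h' hψ m a]

end Pool.Agent.Lib.MP_5db8e2_mp
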