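import Pool.Agent.Lib.MP_5db8e2_mp.GeoA
import Pool.Agent.Lib.MP_5db8e2_mp.GeoB

/-!
# The gradient product `gg`
-/

set_option autoImplicit false

open MeasureTheory Filter Topology

namespace Pool.Agent.Lib.MP_5db8e2_mp

variable {k : ℕ}

/-! ### The gradient product -/

section gg

variable {φ ψ χ : (Fin k → R3) → ℝ}

theorem continuous_gg (h : ContDiff ℝ 1 φ) (h' : ContDiff ℝ 1 ψ) : Continuous (gg φ ψ) := by
  unfold gg
  exact continuous_finsetSum _ fun m _ => continuous_finsetSum _ fun a _ =>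
    (continuous_pd h m a).mul (continuous_pd h' m a)

theorem gg_comm (x : Fin k → R3) : gg φ ψ x = gg ψ φ x := by
  unfold gg
  exact Finset.sum_congr rfl fun m _ => Finset.sum_congr rfl fun a _ => mul_comm _ _

theorem gg_self_nonneg (x : Fin k → R3) : 0 ≤ gg φ φ x := by
  unfold gg
  exact Finset.sum_nonneg fun m _ => Finset.sum_nonneg fun a _ => mul_self_nonneg _

theorem gg_eq_prod (x : Fin k → R3) :
    gg φ ψ x = ∑ p : Fin k × Fin 3, pd φ p.1 p.2 x * pd ψ p.1 p.2 x := by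
  unfold gg
  rw [Fintype.sum_prod_type]

theorem gg_sq_le (x : Fin k → R3) : gg φ ψ x ^ 2 ≤ gg φ φ x * gg ψ ψ x := by
  rw [gg_eq_prod, gg_eq_prod, gg_eq_prod]
  have h := Finset.sum_mul_sq_le_sq_mul_sq (Finset.univ : Finset (Fin k × Fin 3))
    (fun p => pd φ p.1 p.2 x) (fun p => pd ψ p.1 p.2 x)
  simpa only [sq] using h

/-- `2 |∇φ·∇ψ| ≤ t|∇φ|² + |∇ψ|²/t`. -/
theorem two_abs_gg_le {t : ℝ} (ht : 0 < t) (x : Fin k → R3) :
    2 * |gg φ ψ x| ≤ t * gg φ φ x + t⁻¹ * gg ψ ψ x := by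
  rw [gg_eq_prod, gg_eq_prod, gg_eq_prod, Finset.mul_sum, Finset.mul_sum, ← Finset.sum_add_distrib]
  refine (mul_le_mul_of_nonneg_left (Finset.abs_sum_le_sum_abs _ _) (by norm_num)).trans ?_
  rw [Finset.mul_sum]
  refine Finset.sum_le_sum fun p _ => ?_
  have ht' : 0 < t⁻¹ := inv_pos.2 ht
  have htt : t * t⁻¹ = 1 := mul_inv_cancel₀ ht.ne'
  obtain ⟨A, hA⟩ : ∃ A, A = pd φ p.1 p.2 x := ⟨_, rfl⟩
  obtain ⟨B, hB⟩ : ∃ B, B = pd ψ p.1 p.2 x := ⟨_, rfl⟩
  rw [← hA, ← hB, abs_mul]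
  have h1 : 0 ≤ t * (|A| - t⁻¹ * |B|) ^ 2 := by positivity
  have h2 : t * (|A| - t⁻¹ * |B|) ^ 2 = t * |A| ^ 2 - 2 * (t * t⁻¹) * (|A| * |B|)
      + (t * t⁻¹) * t⁻¹ * |B| ^ 2 := by ring
  rw [htt, sq_abs, sq_abs] at h2
  nlinarith

theorem gg_add_right (hψ : ContDiff ℝ 1 ψ) (hχ : ContDiff ℝ 1 χ) (x : Fin k → R3) :
    gg φ (fun x => ψ x + χ x) x = gg φ ψ x + gg φ χ x := by
  unfold gg
  simp only [← Finset.sum_add_distrib]
  refine Finset.sum_congr rfl fun m _ => Finset.sum_congr rfl fun a _ => ?_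
  rw [pd_add (hψ.differentiable one_ne_zero x) (hχ.differentiable one_ne_zero x)]
  ring

theorem gg_add_left (hφ : ContDiff ℝ 1 φ) (hψ : ContDiff ℝ 1 ψ) (x : Fin k → R3) :
    gg (fun x => φ x + ψ x) χ x = gg φ χ x + gg ψ χ x := by
  rw [gg_comm, gg_add_right hφ hψ, gg_comm, gg_comm (φ := χ)]

theorem gg_sub_left (hφ : ContDiff ℝ 1 φ) (hψ : ContDiff ℝ 1 ψ) (x : Fin k → R3) :
    gg (fun x => φ x - ψ x) χ x = gg φ χ x - gg ψ χ x := by
  unfold gg
  simp only [← Finset.sum_sub_distrib]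
  refine Finset.sum_congr rfl fun m _ => Finset.sum_congr rfl fun a _ => ?_
  rw [pd_sub (hφ.differentiable one_ne_zero x) (hψ.differentiable one_ne_zero x)]
  ring

theorem gg_const_mul_right (hψ : ContDiff ℝ 1 ψ) (c : ℝ) (x : Fin k → R3) :
    gg φ (fun x => c * ψ x) x = c * gg φ ψ x := by
  unfold gg
  simp only [Finset.mul_sum]
  refine Finset.sum_congr rfl fun m _ => Finset.sum_congr rfl fun a _ => ?_
  rw [pd_const_mul (hψ.differentiable one_ne_zero x)]
  ring

theorem gg_const_mul_left (hφ : ContDiff ℝ 1 φ) (c : ℝ) (x : Fin k → R3) :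
    gg (fun x => c * φ x) ψ x = c * gg φ ψ x := by
  rw [gg_comm, gg_const_mul_right hφ, gg_comm]

theorem gg_mul_right (hψ : ContDiff ℝ 1 ψ) (hχ : ContDiff ℝ 1 χ) (x : Fin k → R3) :
    gg φ (fun x => ψ x * χ x) x = ψ x * gg φ χ x + χ x * gg φ ψ x := by
  unfold gg
  simp only [Finset.mul_sum, ← Finset.sum_add_distrib]
  refine Finset.sum_congr rfl fun m _ => Finset.sum_congr rfl fun a _ => ?_
  rw [pd_mul (hψ.differentiable one_ne_zero x) (hχ.differentiable one_ne_zero x)]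
  ring

theorem gg_comp_right {h : ℝ → ℝ} (hψ : ContDiff ℝ 1 ψ) (hh : ContDiff ℝ 1 h) (x : Fin k → R3) :
    gg φ (fun x => h (ψ x)) x = deriv h (ψ x) * gg φ ψ x := by
  unfold gg
  simp only [Finset.mul_sum]
  refine Finset.sum_congr rfl fun m _ => Finset.sum_congr rfl fun a _ => ?_
  rw [pd_comp (hψ.differentiable one_ne_zero x) (hh.differentiable one_ne_zero _)]
  ring

/-- `∇(φχ)·∇(φχ) = ∇φ·∇(φχ²) + φ²|∇χ|²`. -/
theorem gg_mul_self (hφ : ContDiff ℝ 1 φ) (hχ : ContDiff ℝ 1 χ) (x : Fin k → R3) :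
    gg (fun x => φ x * χ x) (fun x => φ x * χ x) x =
      gg φ (fun x => φ x * χ x ^ 2) x + φ x ^ 2 * gg χ χ x := by
  have h2 : ContDiff ℝ 1 (fun x => χ x ^ 2) := hχ.pow 2
  rw [gg_mul_right hφ h2]
  unfold gg
  simp only [Finset.mul_sum, ← Finset.sum_add_distrib]
  refine Finset.sum_congr rfl fun m _ => Finset.sum_congr rfl fun a _ => ?_
  have h3 : pd (fun x => χ x ^ 2) m a x = 2 * χ x * pd χ m a x := by
    have h4 : (fun x => χ x ^ 2) = fun x => χ x * χ x := by
      funext x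
      ring
    rw [h4, pd_mul (hχ.differentiable one_ne_zero x) (hχ.differentiable one_ne_zero x)]
    ring
  rw [h3, pd_mul (hφ.differentiable one_ne_zero x) (hχ.differentiable one_ne_zero x)]
  ring

/-- A bound of all the derivatives bounds `gg`. -/
theorem abs_gg_le {A B : ℝ} {x : Fin k → R3} (hA : ∀ m a, |pd φ m a x| ≤ A)
    (hB : ∀ m a, |pd ψ m a x| ≤ B) : |gg φ ψ x| ≤ 3 * k * (A * B) := by
  unfold gg
  calc |∑ m, ∑ a, pd φ m a x * pd ψ m a x| ≤ ∑ m, |∑ a, pd φ m a x * pd ψ m a x| :=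
        Finset.abs_sum_le_sum_abs _ _
    _ ≤ ∑ _m : Fin k, ∑ _a : Fin 3, A * B := by
        refine Finset.sum_le_sum fun m _ => (Finset.abs_sum_le_sum_abs _ _).trans
          (Finset.sum_le_sum fun a _ => ?_)
        rw [abs_mul]
        exact mul_le_mul (hA m a) (hB m a) (abs_nonneg _) ((abs_nonneg _).trans (hA m a))
    _ = 3 * k * (A * B) := by
        simp only [Finset.sum_const, Finset.card_univ, Fintype.card_fin, nsmul_eq_mul]
        push_cast
        ring

end gg

/-! ### The radius squared -/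

theorem pd_coord (m' m : Fin k) (a' a : Fin 3) (x : Fin k → R3) :
    pd (fun x : Fin k → R3 => x m' a') m a x = if m' = m ∧ a' = a then 1 else 0 := by
  unfold pd
  have h : (fun x : Fin k → R3 => x m' a') =
      ⇑((ContinuousLinearMap.proj (R := ℝ) (φ := fun _ : Fin 3 => ℝ) a').comp
        (ContinuousLinearMap.proj (R := ℝ) (φ := fun _ : Fin k => R3) m')) := rfl
  rw [h, ContinuousLinearMap.fderiv]
  by_cases h1 : m' = m
  · by_cases h2 : a' = a
    · subst h1 h2
      simp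
    · subst h1
      simp [h2]
  · simp [h1]

theorem differentiableAt_coord (m' : Fin k) (a' : Fin 3) (x : Fin k → R3) :
    DifferentiableAt ℝ (fun x : Fin k → R3 => x m' a') x :=
  ((ContinuousLinearMap.proj (R := ℝ) (φ := fun _ : Fin 3 => ℝ) a').comp
    (ContinuousLinearMap.proj (R := ℝ) (φ := fun _ : Fin k => R3) m')).differentiableAt

theorem cm_eq (a' : Fin 3) : (fun x : Fin k → R3 => cm x a') =
    fun x => (k : ℝ)⁻¹ * ∑ m', x m' a' := by
  funext x
  unfold cm
  rw [div_eq_inv_mul]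

theorem differentiableAt_cm (a' : Fin 3) (x : Fin k → R3) :
    DifferentiableAt ℝ (fun x : Fin k → R3 => cm x a') x := by
  rw [cm_eq]
  exact (DifferentiableAt.fun_sum fun m' _ => differentiableAt_coord m' a' x).const_mul _

theorem pd_cm (m : Fin k) (a' a : Fin 3) (x : Fin k → R3) :
    pd (fun x : Fin k → R3 => cm x a') m a x = if a' = a then (k : ℝ)⁻¹ else 0 := by
  rw [cm_eq, pd_const_mul (DifferentiableAt.fun_sum fun m' _ => differentiableAt_coord m' a' x),
    pd_sum _ _ (fun m' _ => differentiableAt_coord m' a' x)]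
  simp only [pd_coord]
  by_cases h : a' = a
  · simp [h]
  · simp [h]

theorem pd_rsq (m : Fin k) (a : Fin 3) (x : Fin k → R3) :
    pd rsq m a x = 2 * (x m a - cm x a) := by
  have h0 : (rsq : (Fin k → R3) → ℝ) =
      fun x => ∑ m', ∑ a', x m' a' ^ 2 - k * ∑ a', cm x a' ^ 2 := by
    funext x
    exact rsq_eq x
  have hk : (k : ℝ) ≠ 0 := by
    have : 0 < k := Fin.pos m
    positivity
  have d1 : ∀ (m' : Fin k) (a' : Fin 3), DifferentiableAt ℝ (fun x : Fin k → R3 => x m' a' ^ 2) x :=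
    fun m' a' => (differentiableAt_coord m' a' x).pow 2
  have d2 : ∀ a' : Fin 3, DifferentiableAt ℝ (fun x : Fin k → R3 => cm x a' ^ 2) x :=
    fun a' => (differentiableAt_cm a' x).pow 2
  have d3 : ∀ m' : Fin k, DifferentiableAt ℝ (fun x : Fin k → R3 => ∑ a', x m' a' ^ 2) x :=
    fun m' => DifferentiableAt.fun_sum fun a' _ => d1 m' a'
  have d4 : DifferentiableAt ℝ (fun x : Fin k → R3 => ∑ m', ∑ a', x m' a' ^ 2) x :=
    DifferentiableAt.fun_sum fun m' _ => d3 m'
  have d5 : DifferentiableAt ℝ (fun x : Fin k → R3 => ∑ a', cm x a' ^ 2) x :=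
    DifferentiableAt.fun_sum fun a' _ => d2 a'
  have d6 : DifferentiableAt ℝ (fun x : Fin k → R3 => (k : ℝ) * ∑ a', cm x a' ^ 2) x :=
    d5.const_mul _
  rw [h0, pd_sub d4 d6, pd_sum _ _ (fun m' _ => d3 m'), pd_const_mul d5,
    pd_sum _ _ (fun a' _ => d2 a')]
  have e1 : ∀ m' : Fin k, pd (fun x : Fin k → R3 => ∑ a', x m' a' ^ 2) m a x =
      if m' = m then 2 * x m a else 0 := by
    intro m'
    rw [pd_sum _ _ (fun a' _ => d1 m' a')]
    have e2 : ∀ a' : Fin 3, pd (fun x : Fin k → R3 => x m' a' ^ 2) m a x =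
        if a' = a then (if m' = m then 2 * x m a else 0) else 0 := by
      intro a'
      have e3 : (fun x : Fin k → R3 => x m' a' ^ 2) = fun x => x m' a' * x m' a' := by
        funext x
        ring
      rw [e3, pd_mul (differentiableAt_coord m' a' x) (differentiableAt_coord m' a' x), pd_coord]
      by_cases h1 : m' = m
      · by_cases h2 : a' = a
        · subst h1 h2
          simp
          ring
        · simp [h1, h2]
      · simp [h1]
    simp only [e2, Finset.sum_ite_eq', Finset.mem_univ, if_true]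
  have e4 : ∀ a' : Fin 3, pd (fun x : Fin k → R3 => cm x a' ^ 2) m a x =
      if a' = a then 2 * cm x a / k else 0 := by
    intro a'
    have e3 : (fun x : Fin k → R3 => cm x a' ^ 2) = fun x => cm x a' * cm x a' := by
      funext x
      ring
    rw [e3, pd_mul (differentiableAt_cm a' x) (differentiableAt_cm a' x), pd_cm]
    by_cases h2 : a' = a
    · subst h2
      simp
      ring
    · simp [h2]
  simp only [e1, e4, Finset.sum_ite_eq', Finset.mem_univ, if_true]
  field_simp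

theorem gg_rsq (x : Fin k → R3) : gg rsq rsq x = 4 * rsq x := by
  unfold gg
  simp only [pd_rsq]
  unfold rsq
  simp only [Finset.mul_sum]
  refine Finset.sum_congr rfl fun m _ => Finset.sum_congr rfl fun a _ => ?_
  ring

/-- The Laplacian of `rsq` is `2 · 3k` for `k + 1` particles. -/
theorem lap_rsq (x : Fin (k + 1) → R3) :
    ∑ m, ∑ a, pd (fun x => pd rsq m a x) m a x = 6 * k := by
  have h1 : ∀ (m : Fin (k + 1)) (a : Fin 3), pd (fun x => pd rsq m a x) m a x =
      2 * (1 - ((k + 1 : ℕ) : ℝ)⁻¹) := by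
    intro m a
    have h2 : (fun x : Fin (k + 1) → R3 => pd rsq m a x) =
        fun x => 2 * (x m a - cm x a) := by
      funext x
      exact pd_rsq m a x
    rw [h2, pd_const_mul (φ := fun x : Fin (k + 1) → R3 => x m a - cm x a)
        ((differentiableAt_coord m a x).fun_sub (differentiableAt_cm a x)),
      pd_sub (differentiableAt_coord m a x) (differentiableAt_cm a x), pd_coord, pd_cm]
    simp
  simp only [h1, Finset.sum_const, Finset.card_univ, Fintype.card_fin, nsmul_eq_mul]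
  push_cast
  field_simp
  ring

end Pool.Agent.Lib.MP_5db8e2_mp
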