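import Pool.Agent.Lib.MP_5db8e2_mp.Iface
import Pool.Agent.Lib.MP_5db8e2_mp.GeoC

/-!
# Sub-clusters, test functions, cutoffs
-/

set_option autoImplicit false

open MeasureTheory Filter Topology

namespace Pool.Agent.Lib.MP_5db8e2_mp

variable {k : ℕ}

/-! ### Sub-clusters -/

theorem rad_sub4_le (l : Fin 4) (x : Fin 4 → R3) : rad (sub4 l x) ≤ rad x := by
  unfold rad
  apply Real.sqrt_le_sqrt
  refine (rsq_le_sum_sq (sub4 l x) (cm x)).trans ?_
  unfold rsq
  rw [Fin.sum_univ_succAbove (fun m => ∑ a, (x m a - cm x a) ^ 2) l]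
  have h0 : 0 ≤ ∑ a, (x l a - cm x a) ^ 2 := Finset.sum_nonneg fun a _ => sq_nonneg _
  have h1 : ∑ m, ∑ a, (sub4 l x m a - cm x a) ^ 2
      = ∑ i : Fin 3, ∑ a, (x (l.succAbove i) a - cm x a) ^ 2 := rfl
  rw [h1]
  linarith

theorem norm_sub_le_rad_sub4 (l : Fin 4) (x : Fin 4 → R3) (m m' : Fin 4) (hm : m ≠ l)
    (hm' : m' ≠ l) : ‖x m - x m'‖ ≤ 2 * rad (sub4 l x) := by
  obtain ⟨i, rfl⟩ := Fin.exists_succAbove_eq hm
  obtain ⟨j, rfl⟩ := Fin.exists_succAbove_eq hm'
  exact norm_sub_le_rad (sub4 l x) i j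

/-- A cluster of four particles is controlled by two of its sub-clusters. -/
theorem rad_le_sub4_add (l l' : Fin 4) (h : l ≠ l') (x : Fin 4 → R3) :
    rad x ≤ 100 * (rad (sub4 l x) + rad (sub4 l' x)) := by
  have hA := rad_nonneg (sub4 l x)
  have hB := rad_nonneg (sub4 l' x)
  have key : ∀ m m', ‖x m - x m'‖ ≤ 2 * (rad (sub4 l x) + rad (sub4 l' x)) := by
    intro m m'
    by_cases h1 : m ≠ l ∧ m' ≠ l
    · have := norm_sub_le_rad_sub4 l x m m' h1.1 h1.2
      linarith
    by_cases h2 : m ≠ l' ∧ m' ≠ l'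
    · have := norm_sub_le_rad_sub4 l' x m m' h2.1 h2.2
      linarith
    obtain ⟨t, ht1, ht2⟩ : ∃ t : Fin 4, t ≠ l ∧ t ≠ l' := by
      clear h hA hB h1 h2 m m' x
      revert l l'; decide
    have hcase : (m = l ∧ m' = l') ∨ (m = l' ∧ m' = l) := by
      by_cases hm : m = l
      · left
        refine ⟨hm, ?_⟩
        by_contra hc
        exact h2 ⟨by rw [hm]; exact h, hc⟩
      · right
        have hm' : m' = l := by
          by_contra hc
          exact h1 ⟨hm, hc⟩
        refine ⟨?_, hm'⟩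
        by_contra hc
        exact h2 ⟨hc, by rw [hm']; exact h⟩
    have e1 : ‖x l - x t‖ ≤ 2 * rad (sub4 l' x) := norm_sub_le_rad_sub4 l' x l t h ht2
    have e2 : ‖x t - x l'‖ ≤ 2 * rad (sub4 l x) := norm_sub_le_rad_sub4 l x t l' ht1 h.symm
    have e3 : ‖x l - x l'‖ ≤ 2 * (rad (sub4 l x) + rad (sub4 l' x)) := by
      have := norm_add_le (x l - x t) (x t - x l')
      rw [sub_add_sub_cancel] at this
      linarith
    rcases hcase with ⟨rfl, rfl⟩ | ⟨rfl, rfl⟩
    · exact e3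
    · rw [norm_sub_rev]; exact e3
  have := rad_le_of_norm_sub_le (by positivity) key
  push_cast at this
  linarith

theorem TI_ph {φ : (Fin 3 → R3) → ℝ} (h : TI φ) (l : Fin 4) : TI (ph φ l) := by
  intro x v
  exact h (sub4 l x) v

/-- `sub4` as a continuous linear map. -/
noncomputable def sub4L (l : Fin 4) : (Fin 4 → R3) →L[ℝ] (Fin 3 → R3) :=
  ContinuousLinearMap.pi fun m => ContinuousLinearMap.proj (l.succAbove m)

theorem sub4L_apply (l : Fin 4) (x : Fin 4 → R3) : sub4L l x = sub4 l x := rfl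

theorem contDiff_ph {φ : (Fin 3 → R3) → ℝ} (h : ContDiff ℝ 1 φ) (l : Fin 4) :
    ContDiff ℝ 1 (ph φ l) := by
  have : ph φ l = φ ∘ (sub4L l) := rfl
  rw [this]
  exact h.comp (sub4L l).contDiff

theorem fderiv_ph {φ : (Fin 3 → R3) → ℝ} (h : ContDiff ℝ 1 φ) (l : Fin 4)
    (x v : Fin 4 → R3) : fderiv ℝ (ph φ l) x v = fderiv ℝ φ (sub4 l x) (sub4 l v) := by
  have h1 : HasFDerivAt φ (fderiv ℝ φ (sub4 l x)) (sub4L l x) :=
    (h.differentiable one_ne_zero).differentiableAt.hasFDerivAt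
  have h2 : HasFDerivAt (sub4L l) (sub4L l) x := (sub4L l).hasFDerivAt
  have h3 : HasFDerivAt (ph φ l) ((fderiv ℝ φ (sub4 l x)).comp (sub4L l)) x := h1.comp x h2
  rw [h3.fderiv]
  rfl

theorem pd_ph_self {φ : (Fin 3 → R3) → ℝ} (h : ContDiff ℝ 1 φ) (l : Fin 4) (a : Fin 3)
    (x : Fin 4 → R3) : pd (ph φ l) l a x = 0 := by
  unfold pd
  rw [fderiv_ph h]
  have : sub4 l (Pi.single l (Pi.single a 1) : Fin 4 → R3) = 0 := by
    funext m
    unfold sub4
    rw [Pi.single_eq_of_ne (Fin.succAbove_ne l m)]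
    rfl
  rw [this, map_zero]

theorem pd_ph {φ : (Fin 3 → R3) → ℝ} (h : ContDiff ℝ 1 φ) (l : Fin 4) (j : Fin 3) (a : Fin 3)
    (x : Fin 4 → R3) : pd (ph φ l) (l.succAbove j) a x = pd φ j a (sub4 l x) := by
  unfold pd
  rw [fderiv_ph h]
  congr 1
  funext m
  unfold sub4
  by_cases hm : m = j
  · subst hm
    rw [Pi.single_eq_same, Pi.single_eq_same]
  · rw [Pi.single_eq_of_ne hm, Pi.single_eq_of_ne]
    exact fun hc => hm (Fin.succAbove_right_injective hc)

/-- The four-body test functions form a vector space; products with `C¹` invariant functions. -/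
theorem TF.mul {ψ χ : (Fin k → R3) → ℝ} (h : TF ψ) (hc : ContDiff ℝ 1 χ) (ht : TI χ) :
    TF (fun x => χ x * ψ x) := by
  obtain ⟨R, hR⟩ := h.supp
  refine ⟨hc.mul h.c1, ?_, R, fun x hx => hR x fun h0 => hx (by simp [h0])⟩
  intro x v
  show χ _ * ψ _ = _
  rw [ht x v, h.ti x v]

theorem TF.add {ψ χ : (Fin k → R3) → ℝ} (h : TF ψ) (h' : TF χ) : TF (fun x => ψ x + χ x) := by
  obtain ⟨R, hR⟩ := h.supp
  obtain ⟨R', hR'⟩ := h'.supp
  refine ⟨h.c1.add h'.c1, ?_, max R R', fun x hx => ?_⟩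
  · intro x v
    show ψ _ + χ _ = _
    rw [h.ti x v, h'.ti x v]
  · by_cases h0 : ψ x = 0
    · have : χ x ≠ 0 := fun h1 => hx (by simp [h0, h1])
      exact (hR' x this).trans (le_max_right _ _)
    · exact (hR x h0).trans (le_max_left _ _)

theorem TF.const_mul {ψ : (Fin k → R3) → ℝ} (h : TF ψ) (c : ℝ) : TF (fun x => c * ψ x) := by
  obtain ⟨R, hR⟩ := h.supp
  refine ⟨contDiff_const.mul h.c1, ?_, R, fun x hx => hR x fun h0 => hx (by simp [h0])⟩
  intro x v
  show c * ψ _ = _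
  rw [h.ti x v]

/-- The gradient of a test function has its support in the same ball. -/
theorem pd_eq_zero_of_rad {ψ : (Fin k → R3) → ℝ} {R : ℝ} (h : ContDiff ℝ 1 ψ)
    (hR : ∀ x, ψ x ≠ 0 → rad x ≤ R) (m : Fin k) (a : Fin 3) (x : Fin k → R3)
    (hx : pd ψ m a x ≠ 0) : rad x ≤ R := by
  by_contra hc
  push Not at hc
  apply hx
  have h1 : ∀ᶠ y in 𝓝 x, R < rad y := continuous_rad.continuousAt.eventually_const_lt hc
  have h2 : ψ =ᶠ[𝓝 x] fun _ => (0 : ℝ) := by
    filter_upwards [h1] with y hy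
    by_contra h3
    exact absurd (hR y h3) (not_le.mpr hy)
  unfold pd
  rw [h2.fderiv_eq]
  simp

/-! ### Cutoffs -/

/-- The one-dimensional profile. -/
noncomputable def cutProf (t : ℝ) : ℝ := 1 - Real.smoothTransition ((t - 1) / 3)

theorem contDiff_cutProf {n : ℕ∞} : ContDiff ℝ n cutProf := by
  unfold cutProf
  refine contDiff_const.sub (Real.smoothTransition.contDiff.comp ?_)
  exact (contDiff_id.sub contDiff_const).div_const _

theorem cutProf_one {t : ℝ} (h : t ≤ 1) : cutProf t = 1 := by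
  unfold cutProf
  rw [Real.smoothTransition.zero_of_nonpos (by linarith)]
  simp

theorem cutProf_zero {t : ℝ} (h : 4 ≤ t) : cutProf t = 0 := by
  unfold cutProf
  rw [Real.smoothTransition.one_of_one_le (by linarith)]
  simp

theorem cutProf_mem (t : ℝ) : 0 ≤ cutProf t ∧ cutProf t ≤ 1 := by
  unfold cutProf
  exact ⟨by linarith [Real.smoothTransition.le_one ((t - 1) / 3)],
    by linarith [Real.smoothTransition.nonneg ((t - 1) / 3)]⟩

theorem deriv_zero_outside {f : ℝ → ℝ} {c c' : ℝ} (h1 : ∀ t < 1, f t = c)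
    (h4 : ∀ t > 4, f t = c') {t : ℝ} (ht : t < 1 ∨ 4 < t) : deriv f t = 0 := by
  rcases ht with ht | ht
  · have : f =ᶠ[𝓝 t] fun _ => c := by
      filter_upwards [Iio_mem_nhds ht] with s hs using h1 s hs
    rw [this.deriv_eq, deriv_const]
  · have : f =ᶠ[𝓝 t] fun _ => c' := by
      filter_upwards [Ioi_mem_nhds ht] with s hs using h4 s hs
    rw [this.deriv_eq, deriv_const]

theorem deriv_cutProf_zero {t : ℝ} (ht : t < 1 ∨ 4 < t) : deriv cutProf t = 0 :=
  deriv_zero_outside (fun _ h => cutProf_one h.le) (fun _ h => cutProf_zero h.le) ht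

theorem deriv2_cutProf_zero {t : ℝ} (ht : t < 1 ∨ 4 < t) : deriv (deriv cutProf) t = 0 :=
  deriv_zero_outside (fun _ h => deriv_cutProf_zero (Or.inl h))
    (fun _ h => deriv_cutProf_zero (Or.inr h)) ht

theorem bounded_of_zero_outside {f : ℝ → ℝ} (hf : Continuous f)
    (h0 : ∀ t, t < 1 ∨ 4 < t → f t = 0) : ∃ H, 0 ≤ H ∧ ∀ t, |f t| ≤ H := by
  have hc : HasCompactSupport f := by
    apply HasCompactSupport.of_support_subset_isCompact (isCompact_Icc (a := (1 : ℝ)) (b := 4))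
    intro t ht
    rw [Function.mem_support] at ht
    by_contra hc
    rw [Set.mem_Icc, not_and_or, not_le, not_le] at hc
    exact ht (h0 t hc)
  obtain ⟨C, hC⟩ := hc.exists_bound_of_continuous hf
  exact ⟨C, (norm_nonneg _).trans (hC 0), hC⟩

theorem contDiff_deriv_cutProf {n : ℕ} : ContDiff ℝ n (deriv cutProf) := by
  have h : ContDiff ℝ (n + 1) cutProf := contDiff_cutProf (n := ((n + 1 : ℕ) : ℕ∞))
  exact ((contDiff_succ_iff_deriv (n := (n : WithTop ℕ∞))).mp h).2.2

/-- Smooth cutoffs: `χ = 1` for `rad ≤ R`, `χ = 0` for `rad ≥ 2R`, `0 ≤ χ ≤ 1`, with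
`|∇χ| ≤ C/R`, `|Δχ| ≤ C/R²`; one constant `C` for all `R > 0`.
Proof: `χ x = h (rsq x / R²)` with a fixed smooth `h : ℝ → ℝ`, `h = 1` on `(-∞, 1]`, `h = 0` on
`[4, ∞)` (`Real.smoothTransition`); `pd χ = h'(rsq/R²) 2 (x m a - cm x a)/R²`, `h'` has compact
support in `[1,4]`. -/
theorem exists_cutoff (k : ℕ) : ∃ C : ℝ, 0 < C ∧ ∀ R > 0, ∃ χ : (Fin k → R3) → ℝ,
    ContDiff ℝ 2 χ ∧ TI χ ∧ PI χ ∧ (∀ x, 0 ≤ χ x ∧ χ x ≤ 1) ∧ (∀ x, rad x ≤ R → χ x = 1) ∧
    (∀ x, 2 * R ≤ rad x → χ x = 0) ∧ (∀ m a x, |pd χ m a x| ≤ C / R) ∧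
    (∀ m a m' a' x, |pd (fun x => pd χ m a x) m' a' x| ≤ C / R ^ 2) ∧
    (∀ m a x, pd χ m a x ≠ 0 → R ≤ rad x ∧ rad x ≤ 2 * R) := by
  obtain ⟨H1, hH1, hb1⟩ := bounded_of_zero_outside
    (contDiff_deriv_cutProf (n := 0)).continuous (fun t ht => deriv_cutProf_zero ht)
  obtain ⟨H2, hH2, hb2⟩ := bounded_of_zero_outside
    ((contDiff_deriv_cutProf (n := 1)).continuous_deriv le_rfl)
    (fun t ht => deriv2_cutProf_zero ht)
  refine ⟨1 + 4 * H1 + (16 * H2 + 12 * k * H1), by positivity, fun R hR => ?_⟩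
  have hRne : R ≠ 0 := hR.ne'
  have hR2 : (0 : ℝ) < R ^ 2 := by positivity
  -- the function
  set q : (Fin k → R3) → ℝ := fun x => (R ^ 2)⁻¹ * rsq x with hq
  have hqc : ∀ n : WithTop ℕ∞, ContDiff ℝ n q := fun n => contDiff_const.mul contDiff_rsq
  have hqd : ∀ x, DifferentiableAt ℝ q x := fun x =>
    ((hqc 1).differentiable one_ne_zero).differentiableAt
  have hrd : ∀ x : Fin k → R3, DifferentiableAt ℝ rsq x := fun x =>
    ((contDiff_rsq (n := 1)).differentiable one_ne_zero).differentiableAt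
  have hhd : ∀ t, DifferentiableAt ℝ cutProf t := fun t =>
    ((contDiff_cutProf (n := 1)).differentiable (by norm_num)).differentiableAt
  have hhd' : ∀ t, DifferentiableAt ℝ (deriv cutProf) t := fun t =>
    ((contDiff_deriv_cutProf (n := 1)).differentiable (by norm_num)).differentiableAt
  have hqpd : ∀ m a x, pd q m a x = (R ^ 2)⁻¹ * (2 * (x m a - cm x a)) := by
    intro m a x
    rw [hq, pd_const_mul (hrd x), pd_rsq]
  have hpd : ∀ m a x, pd (fun x => cutProf (q x)) m a x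
      = deriv cutProf (q x) * ((R ^ 2)⁻¹ * (2 * (x m a - cm x a))) := by
    intro m a x
    rw [pd_comp (hqd x) (hhd _), hqpd]
  have hq1 : ∀ x, rad x ≤ R → q x ≤ 1 := by
    intro x hx
    have h1 : rsq x ≤ R ^ 2 := by
      rw [← rad_sq]
      exact pow_le_pow_left₀ (rad_nonneg x) hx 2
    rw [hq]
    show (R ^ 2)⁻¹ * rsq x ≤ 1
    rw [inv_mul_le_iff₀ hR2]
    linarith
  have hq4 : ∀ x, 2 * R ≤ rad x → 4 ≤ q x := by
    intro x hx
    have h1 : (2 * R) ^ 2 ≤ rsq x := by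
      rw [← rad_sq]
      exact pow_le_pow_left₀ (by positivity) hx 2
    show 4 ≤ (R ^ 2)⁻¹ * rsq x
    rw [le_inv_mul_iff₀ hR2]
    nlinarith
  have hqrange : ∀ x, ¬ (q x < 1 ∨ 4 < q x) → R ≤ rad x ∧ rad x ≤ 2 * R := by
    intro x hx
    push Not at hx
    obtain ⟨h1, h2⟩ := hx
    have h1' : 1 ≤ (R ^ 2)⁻¹ * rsq x := h1
    have h2' : (R ^ 2)⁻¹ * rsq x ≤ 4 := h2
    rw [le_inv_mul_iff₀ hR2, ← rad_sq] at h1'
    rw [inv_mul_le_iff₀ hR2, ← rad_sq] at h2'
    constructor
    · nlinarith [rad_nonneg x]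
    · nlinarith [rad_nonneg x]
  have hlin : ∀ x : Fin k → R3, rad x ≤ 2 * R → ∀ m a, |(R ^ 2)⁻¹ * (2 * (x m a - cm x a))| ≤ 4 / R := by
    intro x hx m a
    rw [abs_mul, abs_mul, abs_of_pos (inv_pos.mpr hR2), abs_of_pos (by norm_num : (0 : ℝ) < 2)]
    have h1 := (abs_sub_cm_le x m a).trans hx
    rw [inv_mul_le_iff₀ hR2]
    have : R ^ 2 * (4 / R) = 4 * R := by field_simp
    rw [this]
    linarith
  refine ⟨fun x => cutProf (q x), ?_, ?_, ?_, ?_, ?_, ?_, ?_, ?_, ?_⟩
  · exact (contDiff_cutProf (n := 2)).comp (hqc 2)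
  · intro x v
    show cutProf ((R ^ 2)⁻¹ * rsq _) = cutProf ((R ^ 2)⁻¹ * rsq _)
    rw [TI_rsq x v]
  · intro σ x
    show cutProf ((R ^ 2)⁻¹ * rsq _) = cutProf ((R ^ 2)⁻¹ * rsq _)
    rw [PI_rsq σ x]
  · intro x
    exact cutProf_mem _
  · intro x hx
    exact cutProf_one (hq1 x hx)
  · intro x hx
    exact cutProf_zero (hq4 x hx)
  · intro m a x
    rw [hpd]
    by_cases hx : q x < 1 ∨ 4 < q x
    · rw [deriv_cutProf_zero hx, zero_mul, abs_zero]
      positivity
    · rw [abs_mul]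
      have h1 := hlin x (hqrange x hx).2 m a
      calc |deriv cutProf (q x)| * |(R ^ 2)⁻¹ * (2 * (x m a - cm x a))|
          ≤ H1 * (4 / R) := mul_le_mul (hb1 _) h1 (abs_nonneg _) hH1
        _ = (4 * H1) / R := by ring
        _ ≤ _ := by
          apply div_le_div_of_nonneg_right _ hR.le
          nlinarith [mul_nonneg (Nat.cast_nonneg (α := ℝ) k) hH1]
  · intro m a m' a' x
    have hfun : (fun x => pd (fun x => cutProf (q x)) m a x)
        = fun x => deriv cutProf (q x) * ((R ^ 2)⁻¹ * (2 * (x m a - cm x a))) := by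
      funext y; exact hpd m a y
    rw [hfun]
    -- the linear function
    have hlinc : ContDiff ℝ 1 (fun x : Fin k → R3 => (R ^ 2)⁻¹ * (2 * (x m a - cm x a))) := by
      refine contDiff_const.mul (contDiff_const.mul (ContDiff.sub ?_ ?_))
      · exact (contDiff_apply ℝ ℝ a).comp (contDiff_apply ℝ R3 m)
      · exact (contDiff_apply ℝ ℝ a).comp contDiff_cm
    have hlind : DifferentiableAt ℝ (fun x : Fin k → R3 => (R ^ 2)⁻¹ * (2 * (x m a - cm x a))) x :=
      (hlinc.differentiable one_ne_zero).differentiableAt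
    rw [pd_mul (φ := fun x => deriv cutProf (q x)) (((hhd' (q x)).comp x (hqd x))) hlind]
    rw [pd_comp (hqd x) (hhd' _), hqpd]
    have hpl : |pd (fun x : Fin k → R3 => (R ^ 2)⁻¹ * (2 * (x m a - cm x a))) m' a' x|
        ≤ 12 * k / R ^ 2 := by
      set e : Fin k → R3 := Pi.single m' (Pi.single a' 1) with he
      have hcm : ∀ (y : Fin k → R3) (t : ℝ), cm (y + t • e) a = cm y a + t * cm e a := by
        intro y t
        unfold cm
        simp only [Pi.add_apply, Pi.smul_apply, smul_eq_mul, Finset.sum_add_distrib,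
          ← Finset.mul_sum]
        ring
      have h1 : HasDerivAt (fun t : ℝ => (R ^ 2)⁻¹ * (2 * ((x + t • e) m a - cm (x + t • e) a)))
          ((R ^ 2)⁻¹ * (2 * (e m a - cm e a))) 0 := by
        have h2 : (fun t : ℝ => (R ^ 2)⁻¹ * (2 * ((x + t • e) m a - cm (x + t • e) a)))
            = fun t : ℝ => (R ^ 2)⁻¹ * (2 * (x m a - cm x a))
              + t * ((R ^ 2)⁻¹ * (2 * (e m a - cm e a))) := by
          funext t
          rw [hcm]
          simp only [Pi.add_apply, Pi.smul_apply, smul_eq_mul]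
          ring
        rw [h2]
        simpa using ((hasDerivAt_id (0 : ℝ)).mul_const
          ((R ^ 2)⁻¹ * (2 * (e m a - cm e a)))).const_add ((R ^ 2)⁻¹ * (2 * (x m a - cm x a)))
      have h3 : pd (fun x : Fin k → R3 => (R ^ 2)⁻¹ * (2 * (x m a - cm x a))) m' a' x
          = (R ^ 2)⁻¹ * (2 * (e m a - cm e a)) := by
        unfold pd
        have h4 := hlind.hasFDerivAt.hasLineDerivAt e
        exact h4.unique h1
      rw [h3, abs_mul, abs_mul, abs_of_pos (inv_pos.mpr hR2),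
        abs_of_pos (by norm_num : (0 : ℝ) < 2)]
      have h5 : |e m a - cm e a| ≤ 6 * k := by
        have h6 := (abs_sub_cm_le e m a).trans (rad_le_norm e)
        have h7 : ‖e‖ ≤ 1 := by
          rw [he, pi_norm_le_iff_of_nonneg zero_le_one]
          intro i
          rw [pi_norm_le_iff_of_nonneg zero_le_one]
          intro b
          by_cases hi : i = m'
          · subst hi
            rw [Pi.single_eq_same]
            by_cases hb : b = a'
            · subst hb
              rw [Pi.single_eq_same]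
              simp
            · rw [Pi.single_eq_of_ne hb]
              simp
          · rw [Pi.single_eq_of_ne hi]
            simp
        have h8 : (0 : ℝ) ≤ 6 * k := by positivity
        calc |e m a - cm e a| ≤ 6 * k * ‖e‖ := h6
          _ ≤ 6 * k * 1 := mul_le_mul_of_nonneg_left h7 h8
          _ = 6 * k := mul_one _
      rw [inv_mul_le_iff₀ hR2]
      have : R ^ 2 * (12 * k / R ^ 2) = 12 * k := by field_simp
      rw [this]
      linarith
    by_cases hx : q x < 1 ∨ 4 < q x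
    · rw [deriv_cutProf_zero hx, deriv2_cutProf_zero hx]
      simp only [zero_mul, add_zero, abs_zero]
      positivity
    · have h1 := hlin x (hqrange x hx).2 m a
      have h2 := hlin x (hqrange x hx).2 m' a'
      refine (abs_add_le _ _).trans ?_
      rw [abs_mul, abs_mul, abs_mul]
      calc |deriv cutProf (q x)| *
            |pd (fun x : Fin k → R3 => (R ^ 2)⁻¹ * (2 * (x m a - cm x a))) m' a' x| +
            |deriv (deriv cutProf) (q x)| * |(R ^ 2)⁻¹ * (2 * (x m' a' - cm x a'))| *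
              |(R ^ 2)⁻¹ * (2 * (x m a - cm x a))|
          ≤ H1 * (12 * k / R ^ 2) + H2 * (4 / R) * (4 / R) := by
            gcongr
            · exact hb1 _
            · exact hb2 _
        _ = (16 * H2 + 12 * k * H1) / R ^ 2 := by
            field_simp
            ring
        _ ≤ _ := by
          apply div_le_div_of_nonneg_right _ hR2.le
          linarith
  · intro m a x hx
    rw [hpd] at hx
    apply hqrange
    intro hc
    exact hx (by rw [deriv_cutProf_zero hc, zero_mul])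

end Pool.Agent.Lib.MP_5db8e2_mp
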