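import Pool.Agent.Lib.MP_5db8e2_mp.Defs

/-!
# Interfaces

* `sub4 l x`: the three-particle cluster of `x : Fin 4 → R3` without the particle `l`.
* `s0 φ l x = ∑_{l' ≠ l} φ(sub4 l' x)`.
* `J4`, `calS`, `b4`: the four-body constant (soft variational form).
* `Data3`, `Data4`: the data of the lower bound.
-/

set_option autoImplicit false

open MeasureTheory Filter Topology

namespace Pool.Agent.Lib.MP_5db8e2_mp

/-- The sub-cluster without the particle `l`. -/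
def sub4 (l : Fin 4) (x : Fin 4 → R3) : Fin 3 → R3 := fun m => x (l.succAbove m)

/-- `φ` of the sub-cluster without `l`. -/
def ph (φ : (Fin 3 → R3) → ℝ) (l : Fin 4) (x : Fin 4 → R3) : ℝ := φ (sub4 l x)

/-- `s_l = ∑_{l' ≠ l} φ_{l'}`. -/
noncomputable def s0 (φ : (Fin 3 → R3) → ℝ) (l : Fin 4) (x : Fin 4 → R3) : ℝ :=
  ∑ l' ∈ Finset.univ.erase l, ph φ l' x

/-- The potential of the sub-cluster without `l`. -/
def V4 (V : R3 → R3 → ℝ) (l : Fin 4) (x : Fin 4 → R3) : ℝ := V3 V (sub4 l x)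

/-- Test functions: translation invariant, continuously differentiable, compact support in the
relative coordinates. -/
structure TF {k : ℕ} (ψ : (Fin k → R3) → ℝ) : Prop where
  c1 : ContDiff ℝ 1 ψ
  ti : TI ψ
  supp : ∃ R, ∀ x, ψ x ≠ 0 → rad x ≤ R

/-- The four-body functional. -/
noncomputable def J4 (V : R3 → R3 → ℝ) (φ : (Fin 3 → R3) → ℝ) (ψ : (Fin 4 → R3) → ℝ) : ℝ :=
  rint (fun x => 2 * ∑ l, V4 V l x * s0 φ l x * ψ x - gg ψ ψ x - ∑ l, V4 V l x * ψ x ^ 2)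

/-- The supremum of the four-body functional. -/
noncomputable def calS (V : R3 → R3 → ℝ) (φ : (Fin 3 → R3) → ℝ) : ℝ :=
  sSup {J | ∃ ψ, TF ψ ∧ J = J4 V φ ψ}

/-- The four-body constant. -/
noncomputable def b4 (V : R3 → R3 → ℝ) (φ : (Fin 3 → R3) → ℝ) : ℝ :=
  rint (fun x => ∑ l, V4 V l x * s0 φ l x ^ 2) -
    rint (fun x => ∑ l, ∑ l' ∈ Finset.univ.erase l, gg (ph φ l) (ph φ l') x) - calS V φ

/-- Three-body data with correlation range `r`; `K` does not depend on `r`. -/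
structure Data3 (V : R3 → R3 → ℝ) (b K r : ℝ) (φ w : (Fin 3 → R3) → ℝ) : Prop where
  c1 : ContDiff ℝ 1 φ
  ti : TI φ
  pi : PI φ
  supp : ∀ x, φ x ≠ 0 → rad x ≤ r
  bd : ∀ x, |φ x| ≤ K / (1 + rad x) ^ 4
  bd' : ∀ x m a, |pd φ m a x| ≤ K / (1 + rad x) ^ 5
  w_meas : Measurable w
  w_ti : TI w
  w_pi : PI w
  w_supp : ∀ x, w x ≠ 0 → rad x ≤ r
  w_bd : ∀ x, |w x| ≤ K / r ^ 6
  w_int : rint w = b
  weak : ∀ (v : R3 → ℝ) (z : (Fin 3 → R3) → ℝ), Measurable v → (∃ C, ∀ c, |v c| ≤ C) →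
    ContDiff ℝ 1 z → HasCompactSupport z →
    ∫ x, v (cm x) * gg φ z x = ∫ x, v (cm x) * ((V3 V x * (1 - φ x) - w x) * z x)
  a_bd : rint (fun x => gg φ φ x + V3 V x * (1 - φ x) ^ 2) ≤ b + K / r ^ 4

/-- Four-body data (fields `g`, potential parts `s l` for the triple without `l`, soft charge `w`),
for the three-body function `φ` of range `r`; `K` and `R` do not depend on `r`. -/
structure Data4 (V : R3 → R3 → ℝ) (φ : (Fin 3 → R3) → ℝ) (K R r W QQ : ℝ)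
    (g : Fin 4 → Fin 3 → (Fin 4 → R3) → ℝ) (s : Fin 4 → (Fin 4 → R3) → ℝ)
    (w : (Fin 4 → R3) → ℝ) : Prop where
  g_meas : ∀ m a, Measurable (g m a)
  g_ti : ∀ m a, TI (g m a)
  g_sum : ∀ a x, ∑ m, g m a x = 0
  g_supp : ∀ m a x, g m a x ≠ 0 → rad x ≤ r
  g_bd : ∀ m a x, |g m a x| ≤ K / (1 + rad x) ^ 8
  s_meas : ∀ l, Measurable (s l)
  s_ti : ∀ l, TI (s l)
  s_supp : ∀ l x, s l x ≠ 0 → rad x ≤ R
  s_bd : ∀ l x, |s l x| ≤ K
  w_meas : Measurable w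
  w_ti : TI w
  w_supp : ∀ x, w x ≠ 0 → rad x ≤ r
  w_bd : ∀ x, |w x| ≤ K / r ^ 9
  w_int : rint w = W
  weak : ∀ (v : R3 → ℝ) (z : (Fin 4 → R3) → ℝ), Measurable v → (∃ C, ∀ c, |v c| ≤ C) →
    ContDiff ℝ 1 z → HasCompactSupport z →
    ∫ x, v (cm x) * ∑ m, ∑ a, g m a x * pd z m a x =
      - ∫ x, v (cm x) * ((∑ l, V4 V l x * s l x + w x) * z x)
  QQ_eq : rint (fun x => ∑ l, ∑ l' ∈ Finset.univ.erase l, gg (ph φ l) (ph φ l') x +
    2 * ∑ l, ∑ m, ∑ a, pd (ph φ l) m a x * g m a x + ∑ m, ∑ a, g m a x ^ 2 +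
    ∑ l, V4 V l x * (s l x ^ 2 - 2 * (1 - ph φ l x) * s l x)) = QQ

end Pool.Agent.Lib.MP_5db8e2_mp
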