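import Pool.Agent.Lib.MP_5db8e2_mp.GeoC
import Pool.Agent.Lib.MP_5db8e2_mp.RintD

/-!
# The Newton kernel in cluster coordinates

Relative dimension `d = 3k` (for `k + 1` particles). `GE ε x = c_k / (rsq x + ε²)^{(d-2)/2}`,
`-Δ GE = c_k d (d-2) ε² (rsq + ε²)^{-(d+2)/2}`, with relative integral one by the choice of `c_k`.
`Newt ϱ x = ∫ N(x - (0,y)) ϱ(0,y) dy`, `N = GE 0`.
-/

set_option autoImplicit false

open MeasureTheory Filter Topology

namespace Pool.Agent.Lib.MP_5db8e2_mp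

variable {k : ℕ}

/-- The regularised radius. -/
noncomputable def radE (ε : ℝ) (x : Fin (k + 1) → R3) : ℝ := Real.sqrt (rsq x + ε ^ 2)

/-- The normalising constant. -/
noncomputable def cN (k : ℕ) : ℝ :=
  ((3 * k) * (3 * k - 2) * rint (fun x : Fin (k + 1) → R3 => ((radE 1 x) ^ (3 * k + 2))⁻¹))⁻¹

/-- The regularised Newton kernel (`ε = 0`: the Newton kernel). -/
noncomputable def GE (ε : ℝ) (x : Fin (k + 1) → R3) : ℝ := cN k * ((radE ε x) ^ (3 * k - 2))⁻¹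

/-- The gradient of the kernel. -/
noncomputable def DE (ε : ℝ) (m : Fin (k + 1)) (a : Fin 3) (x : Fin (k + 1) → R3) : ℝ :=
  -(cN k * (3 * k - 2)) * (x m a - cm x a) * ((radE ε x) ^ (3 * k))⁻¹

/-- The regularised delta function. -/
noncomputable def dE (ε : ℝ) (x : Fin (k + 1) → R3) : ℝ :=
  cN k * ((3 * k) * (3 * k - 2)) * ε ^ 2 * ((radE ε x) ^ (3 * k + 2))⁻¹

/-- Bounded charges of range `R`. -/
structure Chg (B R : ℝ) (ϱ : (Fin (k + 1) → R3) → ℝ) : Prop where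
  meas : Measurable ϱ
  bd : ∀ x, |ϱ x| ≤ B
  supp : ∀ x, ϱ x ≠ 0 → rad x ≤ R

/-- The regularised Newton potential (`ε = 0`: the Newton potential). -/
noncomputable def NewtE (ε : ℝ) (ϱ : (Fin (k + 1) → R3) → ℝ) (x : Fin (k + 1) → R3) : ℝ :=
  rint fun y => GE ε (x - y) * ϱ y

/-- The Newton potential. -/
noncomputable def Newt (ϱ : (Fin (k + 1) → R3) → ℝ) (x : Fin (k + 1) → R3) : ℝ := NewtE 0 ϱ x

/-- The gradient of the potential. -/
noncomputable def DNewtE (ε : ℝ) (ϱ : (Fin (k + 1) → R3) → ℝ) (m : Fin (k + 1)) (a : Fin 3)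
    (x : Fin (k + 1) → R3) : ℝ :=
  rint fun y => DE ε m a (x - y) * ϱ y

/-! ### The regularised radius -/

theorem radE_nonneg (ε : ℝ) (x : Fin (k + 1) → R3) : 0 ≤ radE ε x := Real.sqrt_nonneg _

theorem radE_sq (ε : ℝ) (x : Fin (k + 1) → R3) : radE ε x ^ 2 = rsq x + ε ^ 2 :=
  Real.sq_sqrt (add_nonneg (rsq_nonneg x) (sq_nonneg ε))

theorem radE_pos {ε : ℝ} (hε : 0 < ε) (x : Fin (k + 1) → R3) : 0 < radE ε x :=
  Real.sqrt_pos.2 (add_pos_of_nonneg_of_pos (rsq_nonneg x) (by positivity))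

theorem radE_zero (x : Fin (k + 1) → R3) : radE 0 x = rad x := by
  unfold radE rad
  rw [zero_pow two_ne_zero, add_zero]

theorem rad_le_radE (ε : ℝ) (x : Fin (k + 1) → R3) : rad x ≤ radE ε x := by
  unfold radE rad
  exact Real.sqrt_le_sqrt (by linarith [sq_nonneg ε])

theorem le_radE {ε : ℝ} (hε : 0 ≤ ε) (x : Fin (k + 1) → R3) : ε ≤ radE ε x := by
  unfold radE
  exact Real.le_sqrt_of_sq_le (by linarith [rsq_nonneg x])

theorem TI_radE (ε : ℝ) : TI (radE ε : (Fin (k + 1) → R3) → ℝ) := by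
  intro x v
  unfold radE
  rw [TI_rsq x v]

theorem continuous_radE (ε : ℝ) : Continuous (radE ε : (Fin (k + 1) → R3) → ℝ) := by
  unfold radE
  exact (continuous_rsq.add continuous_const).sqrt

theorem measurable_radE (ε : ℝ) : Measurable (radE ε : (Fin (k + 1) → R3) → ℝ) :=
  (continuous_radE ε).measurable

theorem contDiff_radE {ε : ℝ} (hε : 0 < ε) {n : WithTop ℕ∞} :
    ContDiff ℝ n (radE ε : (Fin (k + 1) → R3) → ℝ) := by
  unfold radE
  refine (contDiff_rsq.add contDiff_const).sqrt fun x => ?_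
  have := rsq_nonneg x
  positivity

theorem radE_smul {ε : ℝ} (hε : 0 < ε) (x : Fin (k + 1) → R3) :
    radE ε (ε • x) = ε * radE 1 x := by
  unfold radE
  rw [rsq_smul, one_pow, ← mul_add_one, Real.sqrt_mul (by positivity), Real.sqrt_sq hε.le]

/-- `1 + rad ≤ C radE`. -/
theorem one_add_rad_le {ε : ℝ} (hε : 0 < ε) (x : Fin (k + 1) → R3) :
    1 + rad x ≤ Real.sqrt (2 * (1 + (ε ^ 2)⁻¹)) * radE ε x := by
  unfold radE
  have h0 : 0 < (ε ^ 2)⁻¹ := by positivity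
  rw [← Real.sqrt_mul (by positivity)]
  apply Real.le_sqrt_of_sq_le
  have h1 := rad_sq x
  have h2 : (ε ^ 2)⁻¹ * ε ^ 2 = 1 := inv_mul_cancel₀ (by positivity)
  have h3 := rsq_nonneg x
  nlinarith [sq_nonneg (1 - rad x), mul_nonneg h0.le h3, sq_nonneg ε]

theorem inv_radE_le {ε : ℝ} (hε : 0 < ε) (n : ℕ) (x : Fin (k + 1) → R3) :
    (radE ε x ^ n)⁻¹ ≤ Real.sqrt (2 * (1 + (ε ^ 2)⁻¹)) ^ n * (1 + rad x) ^ (-(n : ℝ)) := by
  have h1 := radE_pos hε x
  have h2 := rad_nonneg x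
  have h3 := one_add_rad_le hε x
  rw [Real.rpow_neg (by positivity), Real.rpow_natCast, ← div_eq_mul_inv, inv_eq_one_div,
    div_le_div_iff₀ (by positivity) (by positivity), one_mul, ← mul_pow]
  exact pow_le_pow_left₀ (by positivity) h3 n

theorem RI_inv_radE {ε : ℝ} (hε : 0 < ε) {n : ℕ} (hn : 3 * k < n) :
    RI fun x : Fin (k + 1) → R3 => (radE ε x ^ n)⁻¹ := by
  have h1 : RI fun x : Fin (k + 1) → R3 => (1 + rad x) ^ (-(n : ℝ)) :=
    RI_one_add_rad (by exact_mod_cast hn)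
  refine (h1.const_mul (Real.sqrt (2 * (1 + (ε ^ 2)⁻¹)) ^ n)).mono
    ((measurable_radE ε).pow_const n).inv fun x => ?_
  have h2 := radE_pos hε x
  rw [abs_of_pos (by positivity)]
  exact inv_radE_le hε n x

theorem rint_inv_radE_pos {n : ℕ} (hn : 3 * k < n) :
    0 < rint fun x : Fin (k + 1) → R3 => (radE 1 x ^ n)⁻¹ := by
  by_contra hcon
  have h1 : ∀ x : Fin (k + 1) → R3, (radE 1 x ^ n)⁻¹ = 0 := fun x =>
    eq_zero_of_rint_eq_zero (F := fun x => (radE 1 x ^ n)⁻¹)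
      (((continuous_radE 1).pow n).inv₀ fun x => (pow_pos (radE_pos one_pos x) n).ne')
      (fun x v => by simp only [TI_radE 1 x v]) (fun x => by
        have := radE_pos one_pos x
        positivity) (RI_inv_radE one_pos hn) (not_lt.1 hcon) x
  have h2 := h1 0
  have h3 := radE_pos one_pos (0 : Fin (k + 1) → R3)
  have h4 : (0 : ℝ) < (radE 1 (0 : Fin (k + 1) → R3) ^ n)⁻¹ := by positivity
  exact h4.ne' h2

theorem three_k_sub_pos (hk : 0 < k) : (0 : ℝ) < 3 * k - 2 := by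
  have : (1 : ℝ) ≤ k := by exact_mod_cast hk
  linarith

theorem cast_three_k (hk : 0 < k) : ((3 * k - 2 : ℕ) : ℝ) = 3 * k - 2 := by
  rw [Nat.cast_sub (by omega)]
  push_cast
  ring

theorem cN_pos (hk : 0 < k) : 0 < cN k := by
  unfold cN
  have h1 := rint_inv_radE_pos (k := k) (n := 3 * k + 2) (by omega)
  have h2 := three_k_sub_pos hk
  have h3 : (0 : ℝ) < k := by exact_mod_cast hk
  positivity

theorem contDiff_GE {ε : ℝ} (hε : 0 < ε) {n : WithTop ℕ∞} :
    ContDiff ℝ n (GE ε : (Fin (k + 1) → R3) → ℝ) := by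
  unfold GE
  exact contDiff_const.mul (((contDiff_radE hε).pow _).inv fun x =>
    (pow_pos (radE_pos hε x) _).ne')

theorem TI_GE (ε : ℝ) : TI (GE ε : (Fin (k + 1) → R3) → ℝ) := by
  intro x v
  unfold GE
  rw [TI_radE ε x v]

theorem measurable_GE (ε : ℝ) : Measurable (GE ε : (Fin (k + 1) → R3) → ℝ) := by
  unfold GE
  exact (((measurable_radE ε).pow_const _).inv).const_mul _

theorem measurable_DE (ε : ℝ) (m : Fin (k + 1)) (a : Fin 3) :
    Measurable (DE ε m a : (Fin (k + 1) → R3) → ℝ) := by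
  unfold DE
  have h1 : Measurable fun x : Fin (k + 1) → R3 => x m a - cm x a :=
    ((measurable_pi_apply a).comp (measurable_pi_apply m)).sub
      ((measurable_pi_apply a).comp continuous_cm.measurable)
  exact (h1.const_mul _).mul ((measurable_radE ε).pow_const _).inv

theorem continuous_DE {ε : ℝ} (hε : 0 < ε) (m : Fin (k + 1)) (a : Fin 3) :
    Continuous (DE ε m a : (Fin (k + 1) → R3) → ℝ) := by
  unfold DE
  have h1 : Continuous fun x : Fin (k + 1) → R3 => x m a - cm x a :=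
    ((continuous_apply a).comp (continuous_apply m)).sub
      ((continuous_apply a).comp continuous_cm)
  exact (continuous_const.mul h1).mul (((continuous_radE ε).pow _).inv₀ fun x =>
    (pow_pos (radE_pos hε x) _).ne')

theorem hasDerivAt_inv_sqrt (n : ℕ) {ε s : ℝ} (hs : 0 < s + ε ^ 2) :
    HasDerivAt (fun s : ℝ => (Real.sqrt (s + ε ^ 2) ^ n)⁻¹)
      (-(n / 2 : ℝ) * (Real.sqrt (s + ε ^ 2) ^ (n + 2))⁻¹) s := by
  have h0 : 0 < Real.sqrt (s + ε ^ 2) := Real.sqrt_pos.2 hs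
  have h1 := (((hasDerivAt_id s).add_const (ε ^ 2)).sqrt hs.ne').pow n
  have h2 := h1.inv (pow_pos h0 n).ne'
  refine (h2.congr_deriv ?_)
  cases n with
  | zero => simp
  | succ j =>
    simp only [Nat.add_sub_cancel, Pi.pow_apply, id]
    field_simp
    ring

theorem pd_inv_radE (n : ℕ) {ε : ℝ} (hε : 0 < ε) (m : Fin (k + 1)) (a : Fin 3)
    (x : Fin (k + 1) → R3) :
    pd (fun x => (radE ε x ^ n)⁻¹) m a x = -n * (radE ε x ^ (n + 2))⁻¹ * (x m a - cm x a) := by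
  have h0 : 0 < rsq x + ε ^ 2 := add_pos_of_nonneg_of_pos (rsq_nonneg x) (by positivity)
  have h1 := hasDerivAt_inv_sqrt n h0
  have h2 := pd_comp (φ := rsq) (x := x) (h := fun s => (Real.sqrt (s + ε ^ 2) ^ n)⁻¹)
    ((contDiff_rsq (n := 1)).differentiable one_ne_zero x) h1.differentiableAt m a
  rw [h1.deriv, pd_rsq] at h2
  unfold radE
  rw [h2]
  ring

theorem pd_GE (hk : 0 < k) {ε : ℝ} (hε : 0 < ε) (m : Fin (k + 1)) (a : Fin 3)
    (x : Fin (k + 1) → R3) : pd (GE ε) m a x = DE ε m a x := by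
  have h1 : (GE ε : (Fin (k + 1) → R3) → ℝ) = fun x => cN k * (radE ε x ^ (3 * k - 2))⁻¹ := rfl
  rw [h1, pd_const_mul, pd_inv_radE _ hε, cast_three_k hk]
  · unfold DE
    rw [show 3 * k - 2 + 2 = 3 * k by omega]
    ring
  · exact (((contDiff_radE (n := 1) hε).pow _).inv fun x =>
      (pow_pos (radE_pos hε x) _).ne').differentiable one_ne_zero x

/-- `-Δ GE = dE` (uses `∑ ∂_{m,a}(x_{m,a} - cm_a) = 3k` and `∑ (x_{m,a} - cm_a)² = rsq`). -/
theorem lap_GE (hk : 0 < k) {ε : ℝ} (hε : 0 < ε) (x : Fin (k + 1) → R3) :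
    ∑ m, ∑ a, pd (fun x => pd (GE ε) m a x) m a x = - dE ε x := by
  have h1 : ∀ (m : Fin (k + 1)) (a : Fin 3), pd (fun x => pd (GE ε) m a x) m a x =
      -(cN k * (3 * k - 2)) / 2 * ((radE ε x ^ (3 * k))⁻¹ * pd (fun x => pd rsq m a x) m a x) -
      (cN k * (3 * k - 2)) / 2 * (-(3 * k) * (radE ε x ^ (3 * k + 2))⁻¹ / 2) *
        (pd rsq m a x * pd rsq m a x) := by
    intro m a
    have h2 : (fun x => pd (GE ε) m a x) = fun x : Fin (k + 1) → R3 =>
        (-(cN k * (3 * k - 2)) / 2) * (pd rsq m a x * (radE ε x ^ (3 * k))⁻¹) := by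
      funext x
      rw [pd_GE hk hε, pd_rsq]
      unfold DE
      ring
    have h3 : DifferentiableAt ℝ (fun x : Fin (k + 1) → R3 => pd rsq m a x) x := by
      have h4 : ContDiff ℝ ((1 : ℕ) : WithTop ℕ∞) (pd (rsq : (Fin (k + 1) → R3) → ℝ) m a) :=
        contDiff_pd contDiff_rsq m a
      exact h4.differentiable (by norm_num) x
    have h5 : DifferentiableAt ℝ (fun x : Fin (k + 1) → R3 => (radE ε x ^ (3 * k))⁻¹) x :=
      (((contDiff_radE (n := 1) hε).pow _).inv fun x =>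
        (pow_pos (radE_pos hε x) _).ne').differentiable one_ne_zero x
    have h6 : DifferentiableAt ℝ (fun x : Fin (k + 1) → R3 =>
        pd rsq m a x * (radE ε x ^ (3 * k))⁻¹) x := h3.mul h5
    rw [h2, pd_const_mul h6, pd_mul h3 h5, pd_inv_radE _ hε]
    push_cast
    rw [pd_rsq m a x]
    ring
  simp only [h1]
  simp only [Finset.sum_sub_distrib, ← Finset.mul_sum]
  rw [lap_rsq x]
  have h6 : ∑ m, ∑ a, pd rsq m a x * pd rsq m a x = 4 * rsq x := gg_rsq x
  rw [h6]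
  have h7 : rsq x = radE ε x ^ 2 - ε ^ 2 := by rw [radE_sq]; ring
  have h8 := radE_pos hε x
  rw [h7]
  unfold dE
  rw [pow_add]
  field_simp
  ring

/-- Bounds uniform in `ε`. -/
theorem GE_le (hk : 0 < k) (ε : ℝ) {x : Fin (k + 1) → R3} (hx : 0 < rad x) :
    |GE ε x| ≤ cN k * (rad x ^ (3 * k - 2))⁻¹ := by
  have h1 := rad_le_radE ε x
  have h2 := cN_pos hk
  have h3 := radE_nonneg ε x
  unfold GE
  rw [abs_of_nonneg (by positivity)]
  gcongr

theorem abs_DE_le (hk : 0 < k) (ε : ℝ) {x : Fin (k + 1) → R3} (hx : 0 < rad x) (m : Fin (k + 1))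
    (a : Fin 3) : |DE ε m a x| ≤ cN k * (3 * k) * (rad x ^ (3 * k - 1))⁻¹ := by
  have h1 := rad_le_radE ε x
  have h2 := cN_pos hk
  have h3 := radE_nonneg ε x
  have h4 := abs_sub_cm_le x m a
  have h5 := three_k_sub_pos hk
  unfold DE
  rw [abs_mul, abs_mul, abs_neg, abs_of_pos (by positivity : 0 < cN k * (3 * (k : ℝ) - 2)),
    abs_of_nonneg (by positivity : 0 ≤ (radE ε x ^ (3 * k))⁻¹)]
  calc cN k * (3 * k - 2) * |x m a - cm x a| * (radE ε x ^ (3 * k))⁻¹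
      ≤ cN k * (3 * k) * rad x * (rad x ^ (3 * k))⁻¹ := by
        gcongr
        linarith
    _ = cN k * (3 * k) * (rad x ^ (3 * k - 1))⁻¹ := by
      obtain ⟨j, hj⟩ : ∃ j, 3 * k = j + 1 := ⟨3 * k - 1, by omega⟩
      rw [hj, Nat.add_sub_cancel, pow_succ, mul_inv]
      field_simp

/-- The relative integral of `dE` is one: scaling (`rint_smul`) reduces to `ε = 1`. -/
theorem rint_dE (hk : 0 < k) {ε : ℝ} (hε : 0 < ε) :
    RI (dE ε : (Fin (k + 1) → R3) → ℝ) ∧ rint (dE ε : (Fin (k + 1) → R3) → ℝ) = 1 := by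
  have hR : ∀ {ε : ℝ}, 0 < ε → RI (dE ε : (Fin (k + 1) → R3) → ℝ) := by
    intro ε hε
    exact (RI_inv_radE hε (n := 3 * k + 2) (by omega)).const_mul
      (cN k * ((3 * k) * (3 * k - 2)) * ε ^ 2)
  refine ⟨hR hε, ?_⟩
  have h1 : (rint (dE 1 : (Fin (k + 1) → R3) → ℝ)) = 1 := by
    have h2 : (dE 1 : (Fin (k + 1) → R3) → ℝ) = fun x =>
      (cN k * ((3 * k) * (3 * k - 2)) * 1 ^ 2) * (radE 1 x ^ (3 * k + 2))⁻¹ := rfl
    rw [h2, rint_const_mul]
    have h3 := rint_inv_radE_pos (k := k) (n := 3 * k + 2) (by omega)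
    have h4 := three_k_sub_pos hk
    have h5 : (0 : ℝ) < k := by exact_mod_cast hk
    unfold cN
    generalize (rint fun x : Fin (k + 1) → R3 => (radE 1 x ^ (3 * k + 2))⁻¹) = I at h3 ⊢
    field_simp
  have h2 := rint_smul (dE ε : (Fin (k + 1) → R3) → ℝ) hε
  have h3 : (fun x : Fin (k + 1) → R3 => dE ε (ε • x)) = fun x => (ε ^ (3 * k))⁻¹ * dE 1 x := by
    funext x
    unfold dE
    rw [radE_smul hε]
    have := radE_pos one_pos x
    rw [mul_pow, pow_add ε (3 * k) 2]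
    field_simp
  rw [h3, rint_const_mul, h1] at h2
  have h4 : 0 < (ε ^ (3 * k))⁻¹ := by positivity
  exact (mul_left_cancel₀ h4.ne' h2).symm

end Pool.Agent.Lib.MP_5db8e2_mp
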