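import Pool.Agent.Lib.MP_5db8e2_mp.FourC1

/-!
# The primal four-body problem: weak equations of the three-body functions
-/

set_option autoImplicit false

open MeasureTheory Filter Topology

namespace Pool.Agent.Lib.MP_5db8e2_mp

variable {V : R3 → R3 → ℝ} {φ : (Fin 3 → R3) → ℝ}

namespace PrimA1aux

/-- The configuration with the particle `l` at `t`. -/
def ins (l : Fin 4) (t : R3) (y : Fin 3 → R3) : Fin 4 → R3 := Fin.insertNth l t y

theorem ins_self (l : Fin 4) (t : R3) (y : Fin 3 → R3) : ins l t y l = t := by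
  simp [ins]

theorem ins_succ (l : Fin 4) (t : R3) (y : Fin 3 → R3) (j : Fin 3) :
    ins l t y (l.succAbove j) = y j := by
  simp [ins]

theorem sub4_ins (l : Fin 4) (t : R3) (y : Fin 3 → R3) : sub4 l (ins l t y) = y := by
  funext j
  exact ins_succ l t y j

/-- The linear part of `ins l t`. -/
noncomputable def insL (l : Fin 4) : (Fin 3 → R3) →L[ℝ] (Fin 4 → R3) :=
  ContinuousLinearMap.pi (fun i : Fin 4 =>
    (Fin.insertNth (α := fun _ : Fin 4 => ((Fin 3 → R3) →L[ℝ] R3)) l 0
      (fun j => ContinuousLinearMap.proj (R := ℝ) (φ := fun _ : Fin 3 => R3) j)) i)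

theorem insL_self (l : Fin 4) (y : Fin 3 → R3) : insL l y l = 0 := by
  simp [insL]

theorem insL_succ (l : Fin 4) (y : Fin 3 → R3) (j : Fin 3) :
    insL l y (l.succAbove j) = y j := by
  simp [insL]

theorem ins_eq (l : Fin 4) (t : R3) (y : Fin 3 → R3) :
    ins l t y = insL l y + (Pi.single l t : Fin 4 → R3) := by
  funext i
  rcases Fin.eq_self_or_eq_succAbove l i with h | ⟨j, h⟩
  · rw [h, ins_self, Pi.add_apply, insL_self, Pi.single_eq_same, zero_add]
  · rw [h, ins_succ, Pi.add_apply, insL_succ, Pi.single_eq_of_ne (Fin.succAbove_ne l j), add_zero]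

theorem insL_single (l : Fin 4) (j : Fin 3) (v : R3) :
    insL l (Pi.single j v) = Pi.single (l.succAbove j) v := by
  funext i
  rcases Fin.eq_self_or_eq_succAbove l i with h | ⟨j', h⟩
  · rw [h, insL_self, Pi.single_eq_of_ne (Fin.succAbove_ne l j).symm]
  · rw [h, insL_succ]
    by_cases hj : j' = j
    · subst hj
      rw [Pi.single_eq_same, Pi.single_eq_same]
    · rw [Pi.single_eq_of_ne hj, Pi.single_eq_of_ne]
      exact fun hc => hj (Fin.succAbove_right_injective hc)

theorem contDiff_ins (l : Fin 4) (t : R3) : ContDiff ℝ 1 (ins l t) := by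
  have : ins l t = fun y => insL l y + (Pi.single l t : Fin 4 → R3) := by
    funext y
    exact ins_eq l t y
  rw [this]
  exact (insL l).contDiff.add contDiff_const

theorem pd_ins {z : (Fin 4 → R3) → ℝ} (hz : ContDiff ℝ 1 z) (l : Fin 4) (t : R3) (j : Fin 3)
    (a : Fin 3) (y : Fin 3 → R3) :
    pd (fun y => z (ins l t y)) j a y = pd z (l.succAbove j) a (ins l t y) := by
  have h1 : HasFDerivAt z (fderiv ℝ z (ins l t y)) (ins l t y) :=
    (hz.differentiable one_ne_zero).differentiableAt.hasFDerivAt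
  have h2 : HasFDerivAt (ins l t) (insL l) y := by
    have : ins l t = fun y => insL l y + (Pi.single l t : Fin 4 → R3) := by
      funext y
      exact ins_eq l t y
    rw [this]
    exact ((insL l).hasFDerivAt).add_const _
  have h3 : HasFDerivAt (fun y => z (ins l t y)) ((fderiv ℝ z (ins l t y)).comp (insL l)) y :=
    h1.comp y h2
  unfold pd
  rw [h3.fderiv]
  change fderiv ℝ z (ins l t y) (insL l (Pi.single j (Pi.single a 1))) = _
  rw [insL_single]

theorem norm_le_ins (l : Fin 4) (t : R3) (y : Fin 3 → R3) : ‖y‖ ≤ ‖ins l t y‖ := by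
  rw [pi_norm_le_iff_of_nonneg (norm_nonneg _)]
  intro j
  rw [← ins_succ l t y j]
  exact norm_le_pi_norm (ins l t y) (l.succAbove j)

/-- Fubini. -/
theorem fubini (l : Fin 4) {F : (Fin 4 → R3) → ℝ} (hF : Integrable F) :
    ∫ x, F x = ∫ t : R3, ∫ y : Fin 3 → R3, F (ins l t y) := by
  have hmp := (volume_preserving_piFinSuccAbove (fun _ : Fin 4 => R3) l).symm
  have e : ∀ p : R3 × (Fin 3 → R3),
      (MeasurableEquiv.piFinSuccAbove (fun _ : Fin 4 => R3) l).symm p = ins l p.1 p.2 := by
    intro p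
    rfl
  have h1 := hmp.integral_comp' (g := F)
  have h2 : Integrable (fun p : R3 × (Fin 3 → R3) => F (ins l p.1 p.2)) := by
    have := (hmp.integrable_comp_emb (MeasurableEquiv.measurableEmbedding _)).2 hF
    exact this
  rw [← h1]
  have h3 := integral_prod (μ := (volume : Measure R3)) (ν := (volume : Measure (Fin 3 → R3)))
    (fun p : R3 × (Fin 3 → R3) => F (ins l p.1 p.2)) h2
  exact h3

/-- The full weak equation of `φ_l`. -/
theorem full_weak (hV : Pot V) (h : Scat V φ) (l : Fin 4) {z : (Fin 4 → R3) → ℝ}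
    (hz : ContDiff ℝ 1 z) (hs : HasCompactSupport z) :
    ∫ x, ∑ m, ∑ a, pd (ph φ l) m a x * pd z m a x =
      ∫ x, (V4 V l x * (1 - ph φ l x)) * z x := by
  obtain ⟨B, hB0, R, hR0, hp⟩ := V4_props hV
  obtain ⟨c, hc0, hc⟩ := h.lt_one
  have hzi : Integrable z := hz.continuous.integrable_of_hasCompactSupport hs
  -- integrability
  have i1 : Integrable (fun x => ∑ m, ∑ a, pd (ph φ l) m a x * pd z m a x) := by
    refine integrable_finsetSum _ fun m _ => integrable_finsetSum _ fun a _ => ?_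
    have hc1 : Continuous (fun x => pd (ph φ l) m a x * pd z m a x) :=
      (continuous_pd (contDiff_ph h.c1 l) m a).mul (continuous_pd hz m a)
    refine hc1.integrable_of_hasCompactSupport ?_
    have : HasCompactSupport (pd z m a) := hs.fderiv_apply (𝕜 := ℝ) _
    exact this.mul_left
  have hb : ∀ x, |V4 V l x * (1 - ph φ l x)| ≤ B := by
    intro x
    have h1 := (hp l).2.2.1 x
    have h2 : 0 ≤ 1 - ph φ l x := by
      have := hc (sub4 l x)
      unfold ph
      linarith
    have h3 : 1 - ph φ l x ≤ 1 := by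
      have := h.nonneg (sub4 l x)
      unfold ph
      linarith
    rw [abs_of_nonneg (mul_nonneg h1.1 h2)]
    calc V4 V l x * (1 - ph φ l x) ≤ B * 1 := mul_le_mul h1.2 h3 h2 hB0.le
      _ = B := mul_one B
  have hm : Measurable (fun x => V4 V l x * (1 - ph φ l x)) :=
    (hp l).1.mul (measurable_const.sub (contDiff_ph h.c1 l).continuous.measurable)
  have i2 : Integrable (fun x => (V4 V l x * (1 - ph φ l x)) * z x) := by
    refine Integrable.mono' (hzi.abs.const_mul B)
      ((hm.mul hz.continuous.measurable).aestronglyMeasurable) (Eventually.of_forall fun x => ?_)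
    rw [Real.norm_eq_abs, abs_mul]
    exact mul_le_mul_of_nonneg_right (hb x) (abs_nonneg _)
  rw [fubini l i1, fubini l i2]
  congr 1
  funext t
  -- the slice
  have hzt : ContDiff ℝ 1 (fun y => z (ins l t y)) := hz.comp (contDiff_ins l t)
  have hst : HasCompactSupport (fun y => z (ins l t y)) := by
    obtain ⟨M, hM⟩ := hs.isCompact.isBounded.exists_norm_le
    refine HasCompactSupport.intro (isCompact_closedBall (0 : Fin 3 → R3) M) fun y hy => ?_
    by_contra hne
    apply hy
    rw [mem_closedBall_zero_iff]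
    exact (norm_le_ins l t y).trans (hM _ (subset_tsupport _ hne))
  have hw := h.weak _ hzt hst
  have e1 : ∀ y, (∑ m, ∑ a, pd (ph φ l) m a (ins l t y) * pd z m a (ins l t y)) =
      gg φ (fun y => z (ins l t y)) y := by
    intro y
    unfold gg
    rw [Fin.sum_univ_succAbove _ l]
    simp only [pd_ph_self h.c1, zero_mul, Finset.sum_const_zero, zero_add, pd_ph h.c1,
      sub4_ins, pd_ins hz]
  have e2 : ∀ y, V4 V l (ins l t y) * (1 - ph φ l (ins l t y)) * z (ins l t y) =
      V3 V y * (1 - φ y) * z (ins l t y) := by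
    intro y
    unfold V4 ph
    rw [sub4_ins]
  simp only [e1, e2]
  exact hw

end PrimA1aux

open PrimA1aux

/-- The equation of `φ_l` tested with a four-body test function. Proof: choose the gauge `x_l = 0`
(`rint_perm` with a transposition, or `integral_weight`): the relative integral of a translation
invariant `F` is `∫ F (x with x_l = 0)` over the positions of the other three particles. For fixed
`x_l = 0` the function `ζ` of the other three particles is `C¹` with compact support (its support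
has `rad ≤ R`), `gg (ph φ l) ζ` is `gg φ ζ(·, x_l = 0)` on the three particles (`pd_ph`,
`pd_ph_self`), so `Scat.weak` applies. -/
theorem ph_weak (hV : Pot V) (h : Scat V φ) (l : Fin 4) {ζ : (Fin 4 → R3) → ℝ} (hζ : TF ζ) :
    rint (gg (ph φ l) ζ) = rint fun x => V4 V l x * (1 - ph φ l x) * ζ x := by
  obtain ⟨B, hB0, R, hR0, hp⟩ := V4_props hV
  obtain ⟨c, hc0, hc⟩ := h.lt_one
  obtain ⟨C, hC⟩ := h.decay'
  have hCn : 0 ≤ C := by
    have h1 := (abs_nonneg _).trans (hC 0 0 0)
    have h2 : (0 : ℝ) < (1 + rad (0 : Fin 3 → R3)) ^ 5 := by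
      have := rad_nonneg (0 : Fin 3 → R3)
      positivity
    by_contra hneg
    push Not at hneg
    have := div_neg_of_neg_of_pos hneg h2
    linarith
  have hpdb : ∀ m a x, |pd (ph φ l) m a x| ≤ C := by
    intro m a x
    rcases Fin.eq_self_or_eq_succAbove l m with hm | ⟨j, hm⟩
    · rw [hm, pd_ph_self h.c1, abs_zero]
      exact hCn
    · rw [hm, pd_ph h.c1]
      refine (hC _ _ _).trans (div_le_self hCn (one_le_pow₀ ?_))
      have := rad_nonneg (sub4 l x)
      linarith
  have hb : ∀ x, |V4 V l x * (1 - ph φ l x)| ≤ B := by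
    intro x
    have h1 := (hp l).2.2.1 x
    have h2 : 0 ≤ 1 - ph φ l x := by
      have := hc (sub4 l x)
      unfold ph
      linarith
    have h3 : 1 - ph φ l x ≤ 1 := by
      have := h.nonneg (sub4 l x)
      unfold ph
      linarith
    rw [abs_of_nonneg (mul_nonneg h1.1 h2)]
    calc V4 V l x * (1 - ph φ l x) ≤ B * 1 := mul_le_mul h1.2 h3 h2 hB0.le
      _ = B := mul_one B
  have hc1 := contDiff_ph h.c1 l
  exact rel_of_weak (A := fun m a => pd (ph φ l) m a)
    (B := fun x => V4 V l x * (1 - ph φ l x))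
    (fun m a => (continuous_pd hc1 m a).measurable)
    (fun m a => TI_pd (TI_ph h.ti l) m a) ⟨C, hpdb⟩
    (fun a x => TI_sum_pd (TI_ph h.ti l) (hc1.differentiable one_ne_zero x) a)
    ((hp l).1.mul (measurable_const.sub hc1.continuous.measurable))
    (fun x v => by
      have e1 := (hp l).2.1 x v
      have e2 := TI_ph h.ti l x v
      simp only [e1, e2])
    ⟨B, hb⟩ (fun z hz hs => full_weak hV h l hz hs) hζ

namespace PrimA1aux

/-- Relative integrability of the potential terms. -/
theorem RI_V_cross (hV : Pot V) (h : Scat V φ) {l l' : Fin 4} (hl : l ≠ l') :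
    RI (k := 3) (fun x => V4 V l x * (1 - ph φ l x) * ph φ l' x) := by
  obtain ⟨B, hB0, R, hR0, hp⟩ := V4_props hV
  obtain ⟨c, hc0, hc⟩ := h.lt_one
  obtain ⟨C, hC⟩ := h.decay
  have hab : ∀ x, |φ x| ≤ C / (1 + rad x) ^ 4 := fun x => by
    rw [abs_of_nonneg (h.nonneg x)]
    exact hC x
  obtain ⟨C', hC'0, hC'⟩ := s0_decay hV C
  have hs := hC' φ hab
  have hm : Measurable (fun x => V4 V l x * (1 - ph φ l x) * ph φ l' x) :=
    ((hp l).1.mul (measurable_const.sub (contDiff_ph h.c1 l).continuous.measurable)).mul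
      (contDiff_ph h.c1 l').continuous.measurable
  refine RI.mono ((RI_slab l R (p := 4) le_rfl).const_mul (B * C')) hm fun x => ?_
  have h0 : 0 ≤ ph φ l' x := h.nonneg _
  have h2 : 0 ≤ 1 - ph φ l x := by
    have := hc (sub4 l x)
    unfold ph
    linarith
  have h3 : 1 - ph φ l x ≤ 1 := by
    have := h.nonneg (sub4 l x)
    unfold ph
    linarith
  have h1 := (hp l).2.2.1 x
  rw [abs_of_nonneg (mul_nonneg (mul_nonneg h1.1 h2) h0)]
  by_cases hV0 : V4 V l x = 0
  · rw [hV0, zero_mul, zero_mul]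
    have : 0 ≤ (if rad (sub4 l x) ≤ R then ((1 + rad x) ^ 4)⁻¹ else 0) := by
      split_ifs
      · have := rad_nonneg x
        positivity
      · exact le_rfl
    exact mul_nonneg (mul_nonneg hB0.le hC'0.le) this
  · rw [if_pos ((hp l).2.2.2 x hV0)]
    have h4 : ph φ l' x ≤ s0 φ l x := by
      unfold s0
      exact Finset.single_le_sum (f := fun i => ph φ i x) (fun i _ => h.nonneg _)
        (Finset.mem_erase.2 ⟨hl.symm, Finset.mem_univ _⟩)
    have h5 := (le_abs_self _).trans (hs l x hV0)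
    have h6 : ph φ l' x ≤ C' * ((1 + rad x) ^ 4)⁻¹ := by
      rw [← div_eq_mul_inv]
      exact h4.trans h5
    calc V4 V l x * (1 - ph φ l x) * ph φ l' x ≤ (B * 1) * (C' * ((1 + rad x) ^ 4)⁻¹) :=
          mul_le_mul (mul_le_mul h1.2 h3 h2 hB0.le) h6 h0 (by positivity)
      _ = B * C' * ((1 + rad x) ^ 4)⁻¹ := by ring

theorem RI_gg_cross (h : Scat V φ) {l l' : Fin 4} (hl : l ≠ l') :
    RI (k := 3) (gg (ph φ l) (ph φ l')) := by
  obtain ⟨C, hC⟩ := h.decay'
  exact RI.mono ((RI_cross hl).const_mul (12 * C * C))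
    (continuous_gg (contDiff_ph h.c1 l) (contDiff_ph h.c1 l')).measurable
    fun x => abs_gg_ph_le h.c1 h.c1 hC hC l l' x

end PrimA1aux

/-- The equation of `φ_l` tested with `φ_{l'}`. Proof: `ζ = φ_{l'} χ` with the cutoffs of radius
`n → ∞`; the error is `|rint (φ_{l'} gg φ_l χ)| ≤ (C/n) ∫_{n ≤ rad ≤ 2n} (1+rad_l)^{-5}
(1+rad_{l'})^{-4}`; on `rad x ≤ 2n` one has `1/n ≤ C/(1+rad x) ≤ C/(1+rad_{l'})`, so the error is
`≤ C ∫_{rad ≥ n} (1+rad_l)^{-5} (1+rad_{l'})^{-5} → 0` (`RI_cross`, `fc3_tail_RI` in FourC3 is the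
statement for tails of integrable functions: copy it or use dominated convergence). -/
theorem cross_eq (hV : Pot V) (h : Scat V φ) {l l' : Fin 4} (hl : l ≠ l') :
    rint (gg (ph φ l) (ph φ l')) = rint fun x => V4 V l x * (1 - ph φ l x) * ph φ l' x := by
  obtain ⟨K, hK0, hcut⟩ := exists_cutoff 4
  have hcut' : ∀ n : ℕ, ∃ χ : (Fin 4 → R3) → ℝ, TF χ ∧ (∀ x, 0 ≤ χ x ∧ χ x ≤ 1) ∧
      (∀ x, rad x ≤ (n : ℝ) + 1 → χ x = 1) ∧ (∀ m a x, |pd χ m a x| ≤ K / ((n : ℝ) + 1)) ∧
      (∀ m a x, pd χ m a x ≠ 0 → (n : ℝ) + 1 ≤ rad x ∧ rad x ≤ 2 * ((n : ℝ) + 1)) := by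
    intro n
    obtain ⟨χ, hχc, hχt, -, h01, hχ1, hχ0, hb, -, hχs⟩ := hcut ((n : ℝ) + 1) (by positivity)
    exact ⟨χ, ⟨hχc.of_le (by norm_num), hχt, ⟨2 * ((n : ℝ) + 1), fun x hx => by
      by_contra h
      push Not at h
      exact hx (hχ0 x h.le)⟩⟩, h01, hχ1, hb, hχs⟩
  choose χ hTF h01 hχ1 hχb hχs using hcut'
  obtain ⟨C, hC⟩ := h.decay
  obtain ⟨C5, hC5⟩ := h.decay'
  have hCn : 0 ≤ C := by
    have h1 := (h.nonneg 0).trans (hC 0)
    have h2 : (0 : ℝ) < (1 + rad (0 : Fin 3 → R3)) ^ 4 := by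
      have := rad_nonneg (0 : Fin 3 → R3)
      positivity
    by_contra hneg
    push Not at hneg
    have := div_neg_of_neg_of_pos hneg h2
    linarith
  have hC5n : 0 ≤ C5 := by
    have h1 := (abs_nonneg _).trans (hC5 0 0 0)
    have h2 : (0 : ℝ) < (1 + rad (0 : Fin 3 → R3)) ^ 5 := by
      have := rad_nonneg (0 : Fin 3 → R3)
      positivity
    by_contra hneg
    push Not at hneg
    have := div_neg_of_neg_of_pos hneg h2
    linarith
  have c1 := contDiff_ph h.c1 l
  have c1' := contDiff_ph h.c1 l'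
  -- the equation with the cutoff
  have heq : ∀ n, rint (gg (ph φ l) (fun x => ph φ l' x * χ n x)) =
      rint fun x => V4 V l x * (1 - ph φ l x) * (ph φ l' x * χ n x) := fun n =>
    ph_weak hV h l ((hTF n).mul c1' (TI_ph h.ti l'))
  -- pointwise bound
  have hgχ : ∀ n x, |ph φ l' x * gg (ph φ l) (χ n) x| ≤
      (12 * C5 * K * C * 3) * (((1 + rad (sub4 l x)) ^ 5)⁻¹ * ((1 + rad (sub4 l' x)) ^ 5)⁻¹) := by
    intro n x
    have hr0 := rad_nonneg x
    have hrl := rad_nonneg (sub4 l x)
    have hrl' := rad_nonneg (sub4 l' x)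
    by_cases hz : ∀ m a, pd (χ n) m a x = 0
    · have : gg (ph φ l) (χ n) x = 0 := by
        unfold gg
        exact Finset.sum_eq_zero fun m _ => Finset.sum_eq_zero fun a _ => by rw [hz, mul_zero]
      rw [this, mul_zero, abs_zero]
      positivity
    · push Not at hz
      obtain ⟨m, a, hma⟩ := hz
      have h2 := (hχs n m a x hma).2
      have h3 : 1 + rad (sub4 l' x) ≤ 3 * ((n : ℝ) + 1) := by
        have := rad_sub4_le l' x
        have hn : (0 : ℝ) ≤ n := Nat.cast_nonneg n
        linarith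
      have h4 : K / ((n : ℝ) + 1) ≤ K * 3 * (1 + rad (sub4 l' x))⁻¹ := by
        rw [div_le_iff₀ (by positivity)]
        have h5 : (1 + rad (sub4 l' x))⁻¹ * (1 + rad (sub4 l' x)) = 1 :=
          inv_mul_cancel₀ (by positivity)
        have h6 : (1 + rad (sub4 l' x))⁻¹ * (1 + rad (sub4 l' x)) ≤
            (1 + rad (sub4 l' x))⁻¹ * (3 * ((n : ℝ) + 1)) :=
          mul_le_mul_of_nonneg_left h3 (by positivity)
        rw [h5] at h6
        calc K = K * 1 := (mul_one K).symm
          _ ≤ K * ((1 + rad (sub4 l' x))⁻¹ * (3 * ((n : ℝ) + 1))) :=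
            mul_le_mul_of_nonneg_left h6 hK0.le
          _ = K * 3 * (1 + rad (sub4 l' x))⁻¹ * ((n : ℝ) + 1) := by ring
      have hpd1 : ∀ m a, |pd (ph φ l) m a x| ≤ C5 / (1 + rad (sub4 l x)) ^ 5 := by
        intro m a
        rcases Fin.eq_self_or_eq_succAbove l m with hm | ⟨j, hm⟩
        · rw [hm, pd_ph_self h.c1, abs_zero]
          positivity
        · rw [hm, pd_ph h.c1]
          exact hC5 _ _ _
      have hpd2 : ∀ m a, |pd (χ n) m a x| ≤ K * 3 * (1 + rad (sub4 l' x))⁻¹ := fun m a =>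
        (hχb n m a x).trans h4
      have h7 := abs_gg_le hpd1 hpd2
      have h8 : |ph φ l' x| ≤ C / (1 + rad (sub4 l' x)) ^ 4 := by
        unfold ph
        rw [abs_of_nonneg (h.nonneg _)]
        exact hC _
      rw [abs_mul]
      refine (mul_le_mul h8 h7 (abs_nonneg _) (by positivity)).trans (le_of_eq ?_)
      have e1 : ((1 + rad (sub4 l' x)) ^ 5)⁻¹ =
          ((1 + rad (sub4 l' x)) ^ 4)⁻¹ * (1 + rad (sub4 l' x))⁻¹ := by
        rw [← mul_inv, ← pow_succ]
      rw [e1, div_eq_mul_inv, div_eq_mul_inv]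
      push_cast
      ring
  -- limit of the left side
  have hggn : ∀ n x, gg (ph φ l) (fun x => ph φ l' x * χ n x) x =
      ph φ l' x * gg (ph φ l) (χ n) x + χ n x * gg (ph φ l) (ph φ l') x := fun n x =>
    gg_mul_right c1' (hTF n).c1 x
  have hRI1 := RI_gg_cross h hl
  have hRI2 := (RI_cross hl).const_mul (12 * C5 * K * C * 3)
  have hRI3 := RI_V_cross hV h hl
  have lim1 : Tendsto (fun n => rint (gg (ph φ l) (fun x => ph φ l' x * χ n x))) atTop
      (𝓝 (rint (gg (ph φ l) (ph φ l')))) := by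
    unfold rint
    refine tendsto_integral_of_dominated_convergence
      (fun y => (12 * C5 * K * C * 3) * (((1 + rad (sub4 l (Fin.cons 0 y))) ^ 5)⁻¹ *
        ((1 + rad (sub4 l' (Fin.cons 0 y))) ^ 5)⁻¹) +
          |gg (ph φ l) (ph φ l') (Fin.cons 0 y)|) ?_ ?_ ?_ ?_
    · intro n
      have := continuous_gg c1 (c1'.mul (hTF n).c1)
      exact (this.measurable.comp measurable_cons0).aestronglyMeasurable
    · exact Integrable.add hRI2 hRI1.abs
    · intro n
      refine Eventually.of_forall fun y => ?_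
      rw [Real.norm_eq_abs, hggn]
      refine (abs_add_le _ _).trans (add_le_add (hgχ n _) ?_)
      rw [abs_mul, abs_of_nonneg (h01 n _).1]
      exact mul_le_of_le_one_left (abs_nonneg _) (h01 n _).2
    · refine Eventually.of_forall fun y => ?_
      refine tendsto_const_nhds.congr' ?_
      filter_upwards [eventually_gt_atTop ⌈rad (Fin.cons 0 y : Fin 4 → R3)⌉₊] with n hn
      have hn' : rad (Fin.cons 0 y : Fin 4 → R3) < (n : ℝ) + 1 := by
        have h1 := Nat.le_ceil (rad (Fin.cons 0 y : Fin 4 → R3))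
        have h2 : ((⌈rad (Fin.cons 0 y : Fin 4 → R3)⌉₊ : ℕ) : ℝ) < n := by exact_mod_cast hn
        linarith
      rw [hggn, hχ1 n _ hn'.le]
      have : gg (ph φ l) (χ n) (Fin.cons 0 y) = 0 := by
        unfold gg
        refine Finset.sum_eq_zero fun m _ => Finset.sum_eq_zero fun a _ => ?_
        by_cases hz : pd (χ n) m a (Fin.cons 0 y) = 0
        · rw [hz, mul_zero]
        · have := (hχs n m a _ hz).1
          linarith
      rw [this]
      ring
  have lim2 : Tendsto (fun n => rint fun x => V4 V l x * (1 - ph φ l x) * (ph φ l' x * χ n x))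
      atTop (𝓝 (rint fun x => V4 V l x * (1 - ph φ l x) * ph φ l' x)) := by
    unfold rint
    refine tendsto_integral_of_dominated_convergence
      (fun y => |V4 V l (Fin.cons 0 y) * (1 - ph φ l (Fin.cons 0 y)) * ph φ l' (Fin.cons 0 y)|)
      ?_ ?_ ?_ ?_
    · intro n
      obtain ⟨B, hB0, R, hR0, hp⟩ := V4_props hV
      have hm : Measurable (fun x => V4 V l x * (1 - ph φ l x) * (ph φ l' x * χ n x)) :=
        ((hp l).1.mul (measurable_const.sub c1.continuous.measurable)).mul
          (c1'.continuous.measurable.mul (hTF n).c1.continuous.measurable)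
      exact (hm.comp measurable_cons0).aestronglyMeasurable
    · exact hRI3.abs
    · intro n
      refine Eventually.of_forall fun y => ?_
      rw [Real.norm_eq_abs]
      change |V4 V l (Fin.cons 0 y) * (1 - ph φ l (Fin.cons 0 y)) *
        (ph φ l' (Fin.cons 0 y) * χ n (Fin.cons 0 y))| ≤ _
      rw [← mul_assoc, abs_mul _ (χ n _), abs_of_nonneg (h01 n _).1]
      exact mul_le_of_le_one_right (abs_nonneg _) (h01 n _).2
    · refine Eventually.of_forall fun y => ?_
      refine tendsto_const_nhds.congr' ?_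
      filter_upwards [eventually_gt_atTop ⌈rad (Fin.cons 0 y : Fin 4 → R3)⌉₊] with n hn
      have hn' : rad (Fin.cons 0 y : Fin 4 → R3) < (n : ℝ) + 1 := by
        have h1 := Nat.le_ceil (rad (Fin.cons 0 y : Fin 4 → R3))
        have h2 : ((⌈rad (Fin.cons 0 y : Fin 4 → R3)⌉₊ : ℕ) : ℝ) < n := by exact_mod_cast hn
        linarith
      rw [hχ1 n _ hn'.le, mul_one]
  simp only [heq] at lim1
  exact tendsto_nhds_unique lim1 lim2

theorem A1_eq (hV : Pot V) (h : Scat V φ) :
    A1 φ = ∑ l, rint fun x => V4 V l x * (1 - ph φ l x) * s0 φ l x := by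
  unfold A1
  have hRI : ∀ l, ∀ l' ∈ Finset.univ.erase l, RI (k := 3) (gg (ph φ l) (ph φ l')) :=
    fun l l' hl' => RI_gg_cross h (Finset.ne_of_mem_erase hl').symm
  have hRI' : ∀ l, ∀ l' ∈ Finset.univ.erase l,
      RI (k := 3) (fun x => V4 V l x * (1 - ph φ l x) * ph φ l' x) :=
    fun l l' hl' => RI_V_cross hV h (Finset.ne_of_mem_erase hl').symm
  have hs : ∀ l, RI (k := 3) (fun x => ∑ l' ∈ Finset.univ.erase l, gg (ph φ l) (ph φ l') x) := by
    intro l
    exact integrable_finsetSum _ (hRI l)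
  rw [rint_sum _ _ fun l _ => hs l]
  refine Finset.sum_congr rfl fun l _ => ?_
  rw [rint_sum _ _ (hRI l)]
  have e : (fun x => V4 V l x * (1 - ph φ l x) * s0 φ l x) =
      fun x => ∑ l' ∈ Finset.univ.erase l, V4 V l x * (1 - ph φ l x) * ph φ l' x := by
    funext x
    unfold s0
    rw [Finset.mul_sum]
  rw [e, rint_sum _ _ (hRI' l)]
  refine Finset.sum_congr rfl fun l' hl' => ?_
  exact cross_eq hV h (Finset.ne_of_mem_erase hl').symm

end Pool.Agent.Lib.MP_5db8e2_mp
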