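import Pool.Agent.Lib.MP_5db8e2_mp.PrimA1
import Pool.Agent.Lib.MP_5db8e2_mp.FourC3

/-!
# The primal four-body problem: the linear trial function
-/

set_option autoImplicit false

open MeasureTheory Filter Topology

namespace Pool.Agent.Lib.MP_5db8e2_mp

variable {V : R3 → R3 → ℝ} {φ : (Fin 3 → R3) → ℝ}

/-- The energy density of a four-body function minus the three-body energies. -/
noncomputable def dens4 (V : R3 → R3 → ℝ) (φ : (Fin 3 → R3) → ℝ) (F : (Fin 4 → R3) → ℝ)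
    (x : Fin 4 → R3) : ℝ :=
  gg F F x + (∑ l, V4 V l x) * F x ^ 2 -
    ∑ l, (gg φ φ (sub4 l x) + V4 V l x * (1 - ph φ l x) ^ 2)

/-- The product of the three-body functions. -/
noncomputable def Pf (φ : (Fin 3 → R3) → ℝ) (x : Fin 4 → R3) : ℝ := ∏ l, (1 - ph φ l x)

private theorem pa2_pd (hφ : ContDiff ℝ 1 φ) {X : (Fin 4 → R3) → ℝ} (hX : ContDiff ℝ 1 X)
    (x : Fin 4 → R3) (m : Fin 4) (a : Fin 3) :
    pd (fun x => 1 - Phi4 φ x + X x) m a x = pd X m a x - ∑ l, pd (ph φ l) m a x := by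
  have h0 : ∀ l, DifferentiableAt ℝ (ph φ l) x := fun l =>
    (contDiff_ph hφ l).differentiable one_ne_zero x
  have hP : ContDiff ℝ 1 (fun x => Phi4 φ x) := by
    unfold Phi4
    exact ContDiff.sum fun l _ => contDiff_ph hφ l
  have h1 : DifferentiableAt ℝ (fun x => Phi4 φ x) x := hP.differentiable one_ne_zero x
  have h2 : pd (fun x => Phi4 φ x) m a x = ∑ l, pd (ph φ l) m a x :=
    pd_sum Finset.univ (fun l => ph φ l) (fun l _ => h0 l) m a
  have h3 : DifferentiableAt ℝ (fun x => 1 - Phi4 φ x) x := (differentiableAt_const 1).sub h1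
  rw [pd_add h3 (hX.differentiable one_ne_zero x), pd_sub (differentiableAt_const 1) h1,
    pd_const, h2]
  ring

private theorem pa2_swap {α β γ : Type*} [Fintype α] [Fintype β] [Fintype γ]
    (f : α → β → γ → ℝ) : ∑ m, ∑ a, ∑ l, f m a l = ∑ l, ∑ m, ∑ a, f m a l :=
  calc ∑ m, ∑ a, ∑ l, f m a l = ∑ m, ∑ l, ∑ a, f m a l :=
        Finset.sum_congr rfl fun _ _ => Finset.sum_comm
    _ = ∑ l, ∑ m, ∑ a, f m a l := Finset.sum_comm

private theorem pa2_gg (hφ : ContDiff ℝ 1 φ) {X : (Fin 4 → R3) → ℝ} (hX : ContDiff ℝ 1 X)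
    (x : Fin 4 → R3) : gg (fun x => 1 - Phi4 φ x + X x) (fun x => 1 - Phi4 φ x + X x) x =
      (∑ l, ∑ l', gg (ph φ l) (ph φ l') x) - 2 * (∑ l, gg (ph φ l) X x) + gg X X x := by
  have h1 : ∀ m a, pd (fun x => 1 - Phi4 φ x + X x) m a x *
      pd (fun x => 1 - Phi4 φ x + X x) m a x =
      (∑ l, ∑ l', pd (ph φ l) m a x * pd (ph φ l') m a x)
        - 2 * (∑ l, pd (ph φ l) m a x * pd X m a x) + pd X m a x * pd X m a x := by
    intro m a
    rw [pa2_pd hφ hX, ← Finset.sum_mul_sum, ← Finset.sum_mul]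
    ring
  have e1 : ∑ m, ∑ a, ∑ l, ∑ l', pd (ph φ l) m a x * pd (ph φ l') m a x
      = ∑ l, ∑ l', gg (ph φ l) (ph φ l') x := by
    rw [pa2_swap (fun m a l => ∑ l', pd (ph φ l) m a x * pd (ph φ l') m a x)]
    refine Finset.sum_congr rfl fun l _ => ?_
    exact pa2_swap (fun m a l' => pd (ph φ l) m a x * pd (ph φ l') m a x)
  have e2 : ∑ m, ∑ a, ∑ l, pd (ph φ l) m a x * pd X m a x = ∑ l, gg (ph φ l) X x :=
    pa2_swap (fun m a l => pd (ph φ l) m a x * pd X m a x)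
  have e3 : gg (fun x => 1 - Phi4 φ x + X x) (fun x => 1 - Phi4 φ x + X x) x =
      ∑ m, ∑ a, ((∑ l, ∑ l', pd (ph φ l) m a x * pd (ph φ l') m a x)
        - 2 * (∑ l, pd (ph φ l) m a x * pd X m a x) + pd X m a x * pd X m a x) :=
    Finset.sum_congr rfl fun m _ => Finset.sum_congr rfl fun a _ => h1 m a
  have e4 : ∑ m, ∑ a, 2 * (∑ l, pd (ph φ l) m a x * pd X m a x) =
      2 * ∑ m, ∑ a, ∑ l, pd (ph φ l) m a x * pd X m a x := by
    rw [Finset.mul_sum]
    exact Finset.sum_congr rfl fun m _ => (Finset.mul_sum _ _ _).symm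
  rw [e3]
  simp only [Finset.sum_add_distrib, Finset.sum_sub_distrib]
  rw [e4, e1, e2]
  rfl

private theorem pa2_gg_ph (hφ : ContDiff ℝ 1 φ) (l : Fin 4) (x : Fin 4 → R3) :
    gg (ph φ l) (ph φ l) x = gg φ φ (sub4 l x) := by
  unfold gg
  rw [Fin.sum_univ_succAbove _ l]
  simp only [pd_ph_self hφ, pd_ph hφ, mul_zero, Finset.sum_const_zero, zero_add]

/-- Expansion: with `F = 1 - Φ + X`. -/
theorem dens4_eq (hφ : ContDiff ℝ 1 φ) {X : (Fin 4 → R3) → ℝ} (hX : ContDiff ℝ 1 X)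
    (x : Fin 4 → R3) : dens4 V φ (fun x => 1 - Phi4 φ x + X x) x =
      (∑ l, ∑ l' ∈ Finset.univ.erase l, gg (ph φ l) (ph φ l') x) - 2 * ∑ l, gg (ph φ l) X x +
      gg X X x + ∑ l, V4 V l x * (-2 * (1 - ph φ l x) * (s0 φ l x - X x) +
        (s0 φ l x - X x) ^ 2) := by
  have h1 : ∀ l, (∑ l' ∈ Finset.univ.erase l, gg (ph φ l) (ph φ l') x) =
      (∑ l', gg (ph φ l) (ph φ l') x) - gg φ φ (sub4 l x) := by
    intro l
    rw [← pa2_gg_ph hφ, Finset.sum_erase_eq_sub (Finset.mem_univ l)]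
  have h2 : ∀ l, 1 - Phi4 φ x + X x = (1 - ph φ l x) - (s0 φ l x - X x) := by
    intro l
    have h3 : Phi4 φ x = ph φ l x + s0 φ l x := by
      unfold Phi4 s0
      exact (Finset.add_sum_erase Finset.univ (fun l' => ph φ l' x) (Finset.mem_univ l)).symm
    rw [h3]
    ring
  have h4 : (∑ l, V4 V l x) * (1 - Phi4 φ x + X x) ^ 2 =
      (∑ l, V4 V l x * (1 - ph φ l x) ^ 2) +
      ∑ l, V4 V l x * (-2 * (1 - ph φ l x) * (s0 φ l x - X x) + (s0 φ l x - X x) ^ 2) := by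
    rw [Finset.sum_mul, ← Finset.sum_add_distrib]
    refine Finset.sum_congr rfl fun l _ => ?_
    rw [h2 l]
    ring
  unfold dens4
  rw [pa2_gg hφ hX, h4]
  simp only [h1, Finset.sum_add_distrib, Finset.sum_sub_distrib]
  ring

/-- **The value of the linear trial function** `1 - Φ + z`: by `dens4_eq`, `ph_weak` (tested with
`z`) and `A1_eq`: `rint dens4 = A1 - 2 ∑ V f s⁰ + ∑ V (s⁰)² - J4 z = ∑ V (s⁰)² - A1 - J4 z`. -/
theorem linear_value (hV : Pot V) (h : Scat V φ) {z : (Fin 4 → R3) → ℝ} (hz : TF z) :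
    RI (dens4 V φ fun x => 1 - Phi4 φ x + z x) ∧
    rint (dens4 V φ fun x => 1 - Phi4 φ x + z x) =
      (rint fun x => ∑ l, V4 V l x * s0 φ l x ^ 2) - A1 φ - J4 V φ z := by
  obtain ⟨C, hC⟩ := h.decay
  obtain ⟨C', hC'⟩ := h.decay'
  obtain ⟨c, hc, hlt⟩ := h.lt_one
  have hb : ∀ x, |φ x| ≤ C / (1 + rad x) ^ 4 := fun x => by
    rw [abs_of_nonneg (h.nonneg x)]
    exact hC x
  have hm : Measurable φ := h.c1.continuous.measurable
  have hph : ∀ l, Measurable (ph φ l) := fun l => (contDiff_ph h.c1 l).continuous.measurable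
  have hph1 : ∀ l x, |1 - ph φ l x| ≤ 1 := by
    intro l x
    have h1 := h.nonneg (sub4 l x)
    have h2 := hlt (sub4 l x)
    show |1 - φ (sub4 l x)| ≤ 1
    rw [abs_le]
    constructor <;> linarith
  obtain ⟨B, hB, R, hR, hprop⟩ := V4_props hV
  obtain ⟨C1, hC1, hs0⟩ := s0_decay hV C
  have hC0 : 0 ≤ C := by
    have h1 := (h.nonneg 0).trans (hC 0)
    have h2 : (0 : ℝ) < (1 + rad (0 : Fin 3 → R3)) ^ 4 := by
      have := rad_nonneg (0 : Fin 3 → R3)
      positivity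
    by_contra hneg
    exact absurd h1 (not_le.2 (div_neg_of_neg_of_pos (not_le.1 hneg) h2))
  have hs0C : ∀ l x, |s0 φ l x| ≤ 3 * C := by
    intro l x
    unfold s0
    refine (Finset.abs_sum_le_sum_abs _ _).trans ?_
    have h1 : ∀ l' ∈ Finset.univ.erase l, |ph φ l' x| ≤ C := by
      intro l' _
      refine (hb (sub4 l' x)).trans (div_le_self hC0 (one_le_pow₀ ?_))
      have := rad_nonneg (sub4 l' x)
      linarith
    refine (Finset.sum_le_card_nsmul _ _ _ h1).trans ?_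
    rw [Finset.card_erase_of_mem (Finset.mem_univ l), Finset.card_univ, Fintype.card_fin,
      nsmul_eq_mul]
    norm_num
  -- the five kinds of terms
  have r1 : RI (fun x => ∑ l, V4 V l x * s0 φ l x ^ 2) :=
    fc3_RI_sum Finset.univ _ fun l _ => RI_V4_s0_sq hV hm hb l
  have r2 : RI (fun x => ∑ l, ∑ l' ∈ Finset.univ.erase l, gg (ph φ l) (ph φ l') x) :=
    fc3_RI_gg h.c1 hC'
  have r3 : ∀ l, RI (gg (ph φ l) z) := fun l => RI_gg_TF hz (contDiff_ph h.c1 l) (TI_ph h.ti l)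
  have r4 : ∀ l, RI (fun x => V4 V l x * (1 - ph φ l x) * s0 φ l x) := by
    intro l
    refine RI.mono ((RI_slab l R (p := 4) le_rfl).const_mul (B * C1)) ?_ ?_
    · exact (((hprop l).1.mul (measurable_const.sub (hph l))).mul (measurable_s0 hm l))
    · intro x
      by_cases h0 : V4 V l x = 0
      · rw [h0, zero_mul, zero_mul, abs_zero]
        have h1 : (0 : ℝ) ≤ if rad (sub4 l x) ≤ R then ((1 + rad x) ^ 4)⁻¹ else 0 := by
          split_ifs
          · have := rad_nonneg x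
            positivity
          · exact le_rfl
        positivity
      · have h1 := (hprop l).2.2.2 x h0
        have h2 := hs0 φ hb l x h0
        have h3 := (hprop l).2.2.1 x
        rw [if_pos h1, abs_mul, abs_mul, abs_of_nonneg h3.1]
        have h4 : V4 V l x * |1 - ph φ l x| ≤ B * 1 :=
          mul_le_mul h3.2 (hph1 l x) (abs_nonneg _) hB.le
        calc V4 V l x * |1 - ph φ l x| * |s0 φ l x|
            ≤ (B * 1) * (C1 / (1 + rad x) ^ 4) :=
              mul_le_mul h4 h2 (abs_nonneg _) (by linarith)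
          _ = B * C1 * ((1 + rad x) ^ 4)⁻¹ := by
              rw [div_eq_mul_inv]
              ring
  have r5 : ∀ l, RI (fun x => V4 V l x * (1 - ph φ l x) * z x) := by
    intro l
    refine RI_TF hz (B := B) ((hprop l).1.mul (measurable_const.sub (hph l))) ?_
    intro x
    have h3 := (hprop l).2.2.1 x
    rw [abs_mul, abs_of_nonneg h3.1]
    have h4 : V4 V l x * |1 - ph φ l x| ≤ B * 1 :=
      mul_le_mul h3.2 (hph1 l x) (abs_nonneg _) hB.le
    linarith
  have r6 : RI (fun x => 2 * ∑ l, V4 V l x * s0 φ l x * z x - gg z z x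
      - ∑ l, V4 V l x * z x ^ 2) := by
    refine ((RI.const_mul (fc3_RI_sum Finset.univ _ fun l _ => ?_) 2).sub
      (RI_gg_TF hz hz.c1 hz.ti)).sub (fc3_RI_sum Finset.univ _ fun l _ => ?_)
    · refine RI_TF hz (B := B * (3 * C)) ((hprop l).1.mul (measurable_s0 hm l)) ?_
      intro x
      have h3 := (hprop l).2.2.1 x
      rw [abs_mul, abs_of_nonneg h3.1]
      exact mul_le_mul h3.2 (hs0C l x) (abs_nonneg _) hB.le
    · exact fc3_RI_TF_sq hz (hprop l).1 (B := B) fun x => by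
        have h3 := (hprop l).2.2.1 x
        rw [abs_of_nonneg h3.1]
        exact h3.2
  have r3' : RI (fun x => ∑ l, gg (ph φ l) z x) := fc3_RI_sum Finset.univ _ fun l _ => r3 l
  have r4' : RI (fun x => ∑ l, V4 V l x * (1 - ph φ l x) * s0 φ l x) :=
    fc3_RI_sum Finset.univ _ fun l _ => r4 l
  have r5' : RI (fun x => ∑ l, V4 V l x * (1 - ph φ l x) * z x) :=
    fc3_RI_sum Finset.univ _ fun l _ => r5 l
  have hdens : dens4 V φ (fun x => 1 - Phi4 φ x + z x) = fun x =>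
      (∑ l, V4 V l x * s0 φ l x ^ 2)
      + (∑ l, ∑ l' ∈ Finset.univ.erase l, gg (ph φ l) (ph φ l') x)
      - 2 * (∑ l, gg (ph φ l) z x)
      - 2 * (∑ l, V4 V l x * (1 - ph φ l x) * s0 φ l x)
      + 2 * (∑ l, V4 V l x * (1 - ph φ l x) * z x)
      - (2 * ∑ l, V4 V l x * s0 φ l x * z x - gg z z x - ∑ l, V4 V l x * z x ^ 2) := by
    funext x
    rw [dens4_eq h.c1 hz.c1]
    have h1 : ∑ l, V4 V l x * (-2 * (1 - ph φ l x) * (s0 φ l x - z x) +
        (s0 φ l x - z x) ^ 2) = (∑ l, V4 V l x * s0 φ l x ^ 2)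
        - 2 * (∑ l, V4 V l x * (1 - ph φ l x) * s0 φ l x)
        + 2 * (∑ l, V4 V l x * (1 - ph φ l x) * z x)
        - 2 * (∑ l, V4 V l x * s0 φ l x * z x) + ∑ l, V4 V l x * z x ^ 2 := by
      simp only [Finset.mul_sum, ← Finset.sum_add_distrib, ← Finset.sum_sub_distrib]
      refine Finset.sum_congr rfl fun l _ => ?_
      ring
    rw [h1]
    ring
  have q1 := r1.add r2
  have q2 := q1.sub (r3'.const_mul 2)
  have q3 := q2.sub (r4'.const_mul 2)
  have q4 := q3.add (r5'.const_mul 2)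
  rw [hdens]
  refine ⟨q4.sub r6, ?_⟩
  have hw : (rint fun x => ∑ l, gg (ph φ l) z x) =
      rint fun x => ∑ l, V4 V l x * (1 - ph φ l x) * z x := by
    rw [rint_sum Finset.univ _ fun l _ => r3 l, rint_sum Finset.univ _ fun l _ => r5 l]
    exact Finset.sum_congr rfl fun l _ => ph_weak hV h l hz
  have hA : A1 φ = rint fun x => ∑ l, V4 V l x * (1 - ph φ l x) * s0 φ l x := by
    rw [A1_eq hV h, rint_sum Finset.univ _ fun l _ => r4 l]
  rw [rint_sub q4 r6, rint_add q3 (r5'.const_mul 2), rint_sub q2 (r4'.const_mul 2),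
    rint_sub q1 (r3'.const_mul 2), rint_add r1 r2, rint_const_mul, rint_const_mul, rint_const_mul,
    hw, ← hA]
  unfold J4
  have hA' : (rint fun x => ∑ l, ∑ l' ∈ Finset.univ.erase l, gg (ph φ l) (ph φ l') x) = A1 φ := rfl
  rw [hA']
  ring

end Pool.Agent.Lib.MP_5db8e2_mp
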