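import Pool.Agent.Lib.MP_5db8e2_mp.PrimA2

/-!
# The primal four-body problem: kernels and bounds
-/

set_option autoImplicit false

open MeasureTheory Filter Topology

namespace Pool.Agent.Lib.MP_5db8e2_mp

variable {V : R3 → R3 → ℝ} {φ : (Fin 3 → R3) → ℝ}

/-- The kernel `(1+rad_l)^{-a} (1+rad_{l'})^{-b}`. -/
noncomputable def kab (a b : ℕ) (l l' : Fin 4) (x : Fin 4 → R3) : ℝ :=
  ((1 + rad (sub4 l x)) ^ a)⁻¹ * ((1 + rad (sub4 l' x)) ^ b)⁻¹

namespace PrimB1Aux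

open FourA2Aux

theorem measurable_kab (a b : ℕ) (l l' : Fin 4) : Measurable (kab a b l l') := by
  have h1 : ∀ (a : ℕ) (l : Fin 4),
      Measurable fun x : Fin 4 → R3 => ((1 + rad (sub4 l x)) ^ a)⁻¹ := by
    intro a l
    exact (((continuous_rad.comp (continuous_sub4 l)).measurable.const_add 1).pow_const a).inv
  exact (h1 a l).mul (h1 b l')

theorem TI_kab (a b : ℕ) (l l' : Fin 4) : TI (kab a b l l') := by
  intro x v
  unfold kab
  have h1 := TI_comp_sub4 TI_rad l x v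
  have h2 := TI_comp_sub4 TI_rad l' x v
  simp only at h1 h2
  rw [h1, h2]

/-- The bound of one factor. -/
theorem inv_pow_le' {a : ℕ} (ha : 4 ≤ a) {r D z : ℝ} (hD : 0 ≤ D) (hz : 0 ≤ z) (h1 : D ≤ 2 * r)
    (h2 : z ≤ 2 * r) :
    ((1 + r) ^ a)⁻¹ ≤ 4 ^ a * ((1 + D) ^ (-((a : ℝ) - 13 / 4)) * (1 + z) ^ (-(13 / 4) : ℝ)) := by
  have ha' : (4 : ℝ) ≤ a := by exact_mod_cast ha
  have h3 : (1 + D + z) / 4 ≤ 1 + r := by linarith
  have h4 : 0 < 1 + D + z := by linarith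
  have h5 : ((1 + r) ^ a)⁻¹ ≤ (((1 + D + z) / 4) ^ a)⁻¹ :=
    inv_anti₀ (by positivity) (pow_le_pow_left₀ (by positivity) h3 a)
  have h6 : (((1 + D + z) / 4) ^ a)⁻¹ = 4 ^ a * ((1 + D + z) ^ a)⁻¹ := by
    rw [div_pow, inv_div]
    ring
  have h7 : ((1 + D + z) ^ a)⁻¹ =
      (1 + D + z) ^ (-((a : ℝ) - 13 / 4)) * (1 + D + z) ^ (-(13 / 4) : ℝ) := by
    rw [← Real.rpow_add h4, ← Real.rpow_natCast, ← Real.rpow_neg h4.le]
    congr 1
    ring
  rw [h6, h7] at h5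
  refine h5.trans (mul_le_mul_of_nonneg_left ?_ (by positivity))
  refine mul_le_mul ?_ ?_ (by positivity) (by positivity)
  · exact Real.rpow_le_rpow_of_nonpos (by linarith) (by linarith) (by linarith)
  · exact Real.rpow_le_rpow_of_nonpos (by linarith) (by linarith) (by norm_num)

theorem RI_kab32 {a b : ℕ} (ha : 4 ≤ a) (hb : 4 ≤ b) (hab : 10 ≤ a + b) : RI (kab a b 3 2) := by
  have ha' : (4 : ℝ) ≤ a := by exact_mod_cast ha
  have hb' : (4 : ℝ) ≤ b := by exact_mod_cast hb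
  have hab' : (10 : ℝ) ≤ a + b := by exact_mod_cast hab
  let f : Fin 3 → R3 → ℝ := ![fun t => (1 + ‖t‖) ^ (-((a : ℝ) + b - 13 / 2)),
    fun t => (1 + ‖t‖) ^ (-(13 / 4) : ℝ), fun t => (1 + ‖t‖) ^ (-(13 / 4) : ℝ)]
  have hfr : (Module.finrank ℝ R3 : ℝ) = 3 := by
    simp [R3]
  have hf : ∀ i, Integrable (f i) := by
    intro i
    fin_cases i
    · exact integrable_one_add_norm (by rw [hfr]; linarith)
    · exact integrable_one_add_norm (by rw [hfr]; norm_num)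
    · exact integrable_one_add_norm (by rw [hfr]; norm_num)
  have hprod : Integrable fun y : Fin 3 → R3 => ∏ i, f i (y i) :=
    Integrable.fintype_prod hf
  unfold RI
  refine Integrable.mono' (hprod.const_mul (4 ^ a * 4 ^ b))
    ((measurable_kab a b 3 2).comp measurable_cons0).aestronglyMeasurable
    (Eventually.of_forall fun y => ?_)
  rw [Real.norm_eq_abs]
  have hr0 : ∀ l : Fin 4, 0 ≤ rad (sub4 l (Fin.cons 0 y : Fin 4 → R3)) := fun l => rad_nonneg _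
  have hnn : 0 ≤ kab a b 3 2 (Fin.cons 0 y) := by
    unfold kab
    have := hr0 3
    have := hr0 2
    positivity
  rw [abs_of_nonneg hnn]
  obtain ⟨r, hr⟩ : ∃ r, r = rad (sub4 3 (Fin.cons 0 y : Fin 4 → R3)) := ⟨_, rfl⟩
  obtain ⟨r', hr'⟩ : ∃ r', r' = rad (sub4 2 (Fin.cons 0 y : Fin 4 → R3)) := ⟨_, rfl⟩
  have h1 : ‖y 0‖ ≤ 2 * r := by
    have := norm_sub_le_rad (sub4 3 (Fin.cons 0 y : Fin 4 → R3)) 1 0
    rw [hr]
    refine le_trans (le_of_eq ?_) this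
    have e1 : sub4 3 (Fin.cons 0 y : Fin 4 → R3) 1 = y 0 := rfl
    have e2 : sub4 3 (Fin.cons 0 y : Fin 4 → R3) 0 = 0 := rfl
    rw [e1, e2, sub_zero]
  have h2 : ‖y 1‖ ≤ 2 * r := by
    have := norm_sub_le_rad (sub4 3 (Fin.cons 0 y : Fin 4 → R3)) 2 0
    rw [hr]
    refine le_trans (le_of_eq ?_) this
    have e1 : sub4 3 (Fin.cons 0 y : Fin 4 → R3) 2 = y 1 := rfl
    have e2 : sub4 3 (Fin.cons 0 y : Fin 4 → R3) 0 = 0 := rfl
    rw [e1, e2, sub_zero]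
  have h3 : ‖y 0‖ ≤ 2 * r' := by
    have := norm_sub_le_rad (sub4 2 (Fin.cons 0 y : Fin 4 → R3)) 1 0
    rw [hr']
    refine le_trans (le_of_eq ?_) this
    have e1 : sub4 2 (Fin.cons 0 y : Fin 4 → R3) 1 = y 0 := rfl
    have e2 : sub4 2 (Fin.cons 0 y : Fin 4 → R3) 0 = 0 := rfl
    rw [e1, e2, sub_zero]
  have h4 : ‖y 2‖ ≤ 2 * r' := by
    have := norm_sub_le_rad (sub4 2 (Fin.cons 0 y : Fin 4 → R3)) 2 0
    rw [hr']
    refine le_trans (le_of_eq ?_) this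
    have e1 : sub4 2 (Fin.cons 0 y : Fin 4 → R3) 2 = y 2 := rfl
    have e2 : sub4 2 (Fin.cons 0 y : Fin 4 → R3) 0 = 0 := rfl
    rw [e1, e2, sub_zero]
  have hp1 := inv_pow_le' ha (norm_nonneg _) (norm_nonneg _) h1 h2
  have hp2 := inv_pow_le' hb (norm_nonneg _) (norm_nonneg _) h3 h4
  have h5 : kab a b 3 2 (Fin.cons 0 y) = ((1 + r) ^ a)⁻¹ * ((1 + r') ^ b)⁻¹ := by
    rw [hr, hr']
    rfl
  rw [h5]
  have h6 : ∏ i, f i (y i) = (1 + ‖y 0‖) ^ (-((a : ℝ) + b - 13 / 2)) *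
      (1 + ‖y 1‖) ^ (-(13 / 4) : ℝ) * (1 + ‖y 2‖) ^ (-(13 / 4) : ℝ) := by
    rw [Fin.prod_univ_three]
    rfl
  rw [h6]
  have h7 : (1 + ‖y 0‖) ^ (-((a : ℝ) + b - 13 / 2)) =
      (1 + ‖y 0‖) ^ (-((a : ℝ) - 13 / 4)) * (1 + ‖y 0‖) ^ (-((b : ℝ) - 13 / 4)) := by
    rw [← Real.rpow_add (by positivity)]
    congr 1
    ring
  rw [h7]
  have hr1 : 0 ≤ r := by rw [hr]; exact hr0 3
  have hr2 : 0 ≤ r' := by rw [hr']; exact hr0 2
  calc ((1 + r) ^ a)⁻¹ * ((1 + r') ^ b)⁻¹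
      ≤ (4 ^ a * ((1 + ‖y 0‖) ^ (-((a : ℝ) - 13 / 4)) * (1 + ‖y 1‖) ^ (-(13 / 4) : ℝ))) *
        (4 ^ b * ((1 + ‖y 0‖) ^ (-((b : ℝ) - 13 / 4)) * (1 + ‖y 2‖) ^ (-(13 / 4) : ℝ))) :=
        mul_le_mul hp1 hp2 (by positivity) (by positivity)
    _ = _ := by ring

end PrimB1Aux

open FourA2Aux PrimB1Aux

/-- Integrability for `a, b ≥ 4`, `a + b ≥ 10` (the proof of `RI_cross` with
`(1+D+‖z‖)^{-a} ≤ (1+D)^{-(a-13/4)} (1+‖z‖)^{-13/4}`; the exponents of `1+D` add up to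
`a + b - 13/2 ≥ 7/2 > 3`). -/
theorem RI_kab {a b : ℕ} (ha : 4 ≤ a) (hb : 4 ≤ b) (hab : 10 ≤ a + b) {l l' : Fin 4}
    (h : l ≠ l') : RI (kab a b l l') := by
  obtain ⟨σ, hσ1, hσ2⟩ := exists_perm h
  have h1 := RI_perm (measurable_kab a b 3 2) (TI_kab a b 3 2) (RI_kab32 ha hb hab) σ
  have h2 : (fun x : Fin 4 → R3 => kab a b 3 2 (x ∘ σ)) = kab a b l l' := by
    funext x
    unfold kab
    rw [rad_sub4_perm, rad_sub4_perm, hσ1, hσ2]
  rw [h2] at h1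
  exact h1

/-- Pair kernels. -/
noncomputable def k0 (x : Fin 4 → R3) : ℝ := ∑ l, ∑ l' ∈ Finset.univ.erase l, kab 4 4 l l' x

noncomputable def k1 (x : Fin 4 → R3) : ℝ := ∑ l, ∑ l' ∈ Finset.univ.erase l, kab 5 4 l l' x

/-- The bounds of the corrections. -/
structure XB (C : ℝ) (X : (Fin 4 → R3) → ℝ) : Prop where
  c1 : ContDiff ℝ 1 X
  ti : TI X
  bd : ∀ x, |X x| ≤ C * k0 x
  bd' : ∀ x m a, |pd X m a x| ≤ C * k1 x

/-- The bounds of the three-body functions. -/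
structure PB (C : ℝ) (φ : (Fin 3 → R3) → ℝ) : Prop where
  c1 : ContDiff ℝ 1 φ
  ti : TI φ
  bd : ∀ x, |φ x| ≤ C / (1 + rad x) ^ 4
  bd' : ∀ x m a, |pd φ m a x| ≤ C / (1 + rad x) ^ 5

namespace PrimB1Aux

theorem kab_nonneg (a b : ℕ) (l l' : Fin 4) (x : Fin 4 → R3) : 0 ≤ kab a b l l' x := by
  unfold kab
  have := rad_nonneg (sub4 l x)
  have := rad_nonneg (sub4 l' x)
  positivity

theorem kab_le_sum (a b : ℕ) {l l' : Fin 4} (h : l ≠ l') (x : Fin 4 → R3) :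
    kab a b l l' x ≤ ∑ l, ∑ l' ∈ Finset.univ.erase l, kab a b l l' x := by
  calc kab a b l l' x ≤ ∑ l' ∈ Finset.univ.erase l, kab a b l l' x :=
        Finset.single_le_sum (f := fun l' => kab a b l l' x) (fun i _ => kab_nonneg a b l i x)
          (Finset.mem_erase.2 ⟨h.symm, Finset.mem_univ _⟩)
    _ ≤ _ := Finset.single_le_sum (f := fun l => ∑ l' ∈ Finset.univ.erase l, kab a b l l' x)
          (fun i _ => Finset.sum_nonneg fun j _ => kab_nonneg a b i j x) (Finset.mem_univ _)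

theorem le_kab {a b : ℕ} {R : ℝ} (hR : 0 ≤ R) {x : Fin 4 → R3} (hx : rad x ≤ R) (l l' : Fin 4) :
    ((1 + R) ^ (a + b))⁻¹ ≤ kab a b l l' x := by
  unfold kab
  have h1 := rad_nonneg (sub4 l x)
  have h2 := rad_nonneg (sub4 l' x)
  have h3 := (rad_sub4_le l x).trans hx
  have h4 := (rad_sub4_le l' x).trans hx
  rw [pow_add, mul_inv]
  gcongr

/-- Bounded functions with bounded relative support are dominated by the kernels. -/
theorem dom_aux (a b : ℕ) {F : (Fin 4 → R3) → ℝ} (hF : Continuous F) (ht : TI F) {R : ℝ}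
    (hR : ∀ x, F x ≠ 0 → rad x ≤ R) : ∃ C, 0 ≤ C ∧ ∀ x,
      |F x| ≤ C * ∑ l, ∑ l' ∈ Finset.univ.erase l, kab a b l l' x := by
  obtain ⟨B, hB0, hB⟩ := rc_exists_bound_of_TI hF ht hR
  have hR' : 0 ≤ max R 0 := le_max_right _ _
  refine ⟨B * (1 + max R 0) ^ (a + b), by positivity, fun x => ?_⟩
  have hs : 0 ≤ ∑ l, ∑ l' ∈ Finset.univ.erase l, kab a b l l' x :=
    Finset.sum_nonneg fun i _ => Finset.sum_nonneg fun j _ => kab_nonneg a b i j x
  by_cases hx : F x = 0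
  · rw [hx, abs_zero]
    positivity
  · have h1 := (hR x hx).trans (le_max_left R 0)
    have h2 : ((1 + max R 0) ^ (a + b))⁻¹ ≤
        ∑ l, ∑ l' ∈ Finset.univ.erase l, kab a b l l' x :=
      (le_kab hR' h1 0 1).trans (kab_le_sum a b (by decide) x)
    have h3 : (1 + max R 0) ^ (a + b) * ((1 + max R 0) ^ (a + b))⁻¹ = 1 :=
      mul_inv_cancel₀ (by positivity)
    calc |F x| ≤ B := hB x
      _ = B * ((1 + max R 0) ^ (a + b) * ((1 + max R 0) ^ (a + b))⁻¹) := by rw [h3, mul_one]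
      _ ≤ B * ((1 + max R 0) ^ (a + b) *
          ∑ l, ∑ l' ∈ Finset.univ.erase l, kab a b l l' x) := by gcongr
      _ = _ := by ring

theorem k0_nonneg (x : Fin 4 → R3) : 0 ≤ k0 x :=
  Finset.sum_nonneg fun i _ => Finset.sum_nonneg fun j _ => kab_nonneg 4 4 i j x

theorem k1_nonneg (x : Fin 4 → R3) : 0 ≤ k1 x :=
  Finset.sum_nonneg fun i _ => Finset.sum_nonneg fun j _ => kab_nonneg 5 4 i j x

/-- The product expansion. -/
theorem prod_sub (a b c d : ℝ) : (1 - a) * (1 - b) * (1 - c) * (1 - d) - 1 + (a + b + c + d) =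
    a * b * ((1 - c) * (1 - d)) + (1 - a - b) * (c * d) + (a + b) * (c + d) := by ring

theorem abs_prod_sub_le {C a b c d : ℝ} (ha : |a| ≤ C) (hb : |b| ≤ C) (hc : |c| ≤ C)
    (hd : |d| ≤ C) : |(1 - a) * (1 - b) * (1 - c) * (1 - d) - 1 + (a + b + c + d)| ≤
      (1 + C) ^ 2 * (|a| * |b| + |c| * |d| + (|a| + |b|) * (|c| + |d|)) := by
  have hC : 0 ≤ C := (abs_nonneg _).trans ha
  have h1 : ∀ {t : ℝ}, |t| ≤ C → |1 - t| ≤ 1 + C := by
    intro t ht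
    have := abs_sub (1 : ℝ) t
    rw [abs_one] at this
    linarith
  rw [prod_sub]
  have e1 : |a * b * ((1 - c) * (1 - d))| ≤ (1 + C) ^ 2 * (|a| * |b|) := by
    rw [abs_mul, abs_mul, abs_mul, sq, mul_comm (|a| * |b|)]
    have := mul_le_mul (h1 hc) (h1 hd) (abs_nonneg _) (by linarith)
    exact mul_le_mul_of_nonneg_right this (by positivity)
  have e2 : |(1 - a - b) * (c * d)| ≤ (1 + C) ^ 2 * (|c| * |d|) := by
    rw [abs_mul, abs_mul]
    have h2 : |1 - a - b| ≤ (1 + C) ^ 2 := by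
      have h3 := abs_sub (1 - a) b
      have h4 := h1 ha
      nlinarith
    exact mul_le_mul_of_nonneg_right h2 (by positivity)
  have e3 : |(a + b) * (c + d)| ≤ (1 + C) ^ 2 * ((|a| + |b|) * (|c| + |d|)) := by
    rw [abs_mul]
    have h3 := mul_le_mul (abs_add_le a b) (abs_add_le c d) (abs_nonneg _) (by positivity)
    have h4 : (1 : ℝ) ≤ (1 + C) ^ 2 := one_le_pow₀ (by linarith)
    have h5 : 0 ≤ (|a| + |b|) * (|c| + |d|) := by positivity
    nlinarith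
  have h6 := abs_add_three (a * b * ((1 - c) * (1 - d))) ((1 - a - b) * (c * d))
    ((a + b) * (c + d))
  have h7 : (1 + C) ^ 2 * (|a| * |b| + |c| * |d| + (|a| + |b|) * (|c| + |d|)) =
      (1 + C) ^ 2 * (|a| * |b|) + (1 + C) ^ 2 * (|c| * |d|) +
        (1 + C) ^ 2 * ((|a| + |b|) * (|c| + |d|)) := by ring
  rw [h7]
  linarith

theorem abs_one_sub_le {C a b c : ℝ} (ha : |a| ≤ C) (hb : |b| ≤ C) (_hc : |c| ≤ C) :
    |1 - (1 - a) * (1 - b) * (1 - c)| ≤ (1 + C) ^ 2 * (|a| + |b| + |c|) := by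
  have hC : 0 ≤ C := (abs_nonneg _).trans ha
  have h1 : ∀ {t : ℝ}, |t| ≤ C → |1 - t| ≤ 1 + C := by
    intro t ht
    have := abs_sub (1 : ℝ) t
    rw [abs_one] at this
    linarith
  have h0 : 1 - (1 - a) * (1 - b) * (1 - c) = a + (1 - a) * b + (1 - a) * (1 - b) * c := by ring
  rw [h0]
  have h2 := abs_add_three a ((1 - a) * b) ((1 - a) * (1 - b) * c)
  have h3 : |(1 - a) * b| ≤ (1 + C) ^ 2 * |b| := by
    rw [abs_mul]
    have := h1 ha
    have h4 : 1 + C ≤ (1 + C) ^ 2 := by nlinarith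
    exact mul_le_mul_of_nonneg_right (this.trans h4) (abs_nonneg _)
  have h4 : |(1 - a) * (1 - b) * c| ≤ (1 + C) ^ 2 * |c| := by
    rw [abs_mul, abs_mul, sq]
    exact mul_le_mul_of_nonneg_right (mul_le_mul (h1 ha) (h1 hb) (abs_nonneg _) (by linarith))
      (abs_nonneg _)
  have h5 : |a| ≤ (1 + C) ^ 2 * |a| := by
    have h6 : (1 : ℝ) ≤ (1 + C) ^ 2 := one_le_pow₀ (by linarith)
    nlinarith [abs_nonneg a]
  linarith

/-- Bound of the derivative of a three-body function. -/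
theorem abs_pd_ph_le {C : ℝ} {φ : (Fin 3 → R3) → ℝ} (h : PB C φ) (l m : Fin 4) (a : Fin 3)
    (x : Fin 4 → R3) : |pd (ph φ l) m a x| ≤ C * ((1 + rad (sub4 l x)) ^ 5)⁻¹ := by
  rw [← div_eq_mul_inv]
  rcases Fin.eq_self_or_eq_succAbove l m with hm | ⟨j, hj⟩
  · rw [hm, pd_ph_self h.c1, abs_zero]
    exact (abs_nonneg _).trans (h.bd' (sub4 l x) 0 a)
  · rw [hj, pd_ph h.c1]
    exact h.bd' _ _ _

theorem abs_ph_le {C : ℝ} {φ : (Fin 3 → R3) → ℝ} (h : PB C φ) (l : Fin 4)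
    (x : Fin 4 → R3) : |ph φ l x| ≤ C * ((1 + rad (sub4 l x)) ^ 4)⁻¹ := by
  rw [← div_eq_mul_inv]
  exact h.bd (sub4 l x)

theorem PB_nonneg {C : ℝ} {φ : (Fin 3 → R3) → ℝ} (h : PB C φ) : 0 ≤ C := by
  have h1 := (abs_nonneg _).trans (h.bd 0)
  have h2 : (0 : ℝ) < (1 + rad (0 : Fin 3 → R3)) ^ 4 := by
    have := rad_nonneg (0 : Fin 3 → R3)
    positivity
  by_contra hc
  push Not at hc
  have := div_neg_of_neg_of_pos hc h2
  linarith

theorem inv_le_one' (l : Fin 4) (n : ℕ) (x : Fin 4 → R3) :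
    0 < ((1 + rad (sub4 l x)) ^ n)⁻¹ ∧ ((1 + rad (sub4 l x)) ^ n)⁻¹ ≤ 1 := by
  have h := rad_nonneg (sub4 l x)
  exact ⟨by positivity, inv_le_one_of_one_le₀ (one_le_pow₀ (by linarith))⟩

end PrimB1Aux

/-- Test functions satisfy the bounds (`k0, k1 ≥ c > 0` on bounded sets). -/
theorem XB_of_TF {X : (Fin 4 → R3) → ℝ} (h : TF X) : ∃ C > 0, XB C X := by
  obtain ⟨R, hR⟩ := h.supp
  obtain ⟨C0, hC0, h0⟩ := dom_aux 4 4 h.c1.continuous h.ti hR
  have h1 : ∀ m a, ∃ C, 0 ≤ C ∧ ∀ x, |pd X m a x| ≤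
      C * ∑ l, ∑ l' ∈ Finset.univ.erase l, kab 5 4 l l' x := fun m a =>
    dom_aux 5 4 (continuous_pd h.c1 m a) (TI_pd h.ti m a)
      (fun x hx => pd_eq_zero_of_rad h.c1 hR m a x hx)
  choose C1 hC1 h1 using h1
  have hS : 0 ≤ ∑ m, ∑ a, C1 m a := Finset.sum_nonneg fun m _ =>
    Finset.sum_nonneg fun a _ => hC1 m a
  refine ⟨C0 + ∑ m, ∑ a, C1 m a + 1, by positivity, h.c1, h.ti, fun x => ?_, fun x m a => ?_⟩
  · refine (h0 x).trans (mul_le_mul_of_nonneg_right ?_ (k0_nonneg x))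
    linarith
  · refine (h1 m a x).trans (mul_le_mul_of_nonneg_right ?_ (k1_nonneg x))
    have h2 : C1 m a ≤ ∑ m, ∑ a, C1 m a :=
      (Finset.single_le_sum (f := fun a => C1 m a) (fun i _ => hC1 m i) (Finset.mem_univ a)).trans
        (Finset.single_le_sum (f := fun m => ∑ a, C1 m a)
          (fun i _ => Finset.sum_nonneg fun j _ => hC1 i j) (Finset.mem_univ m))
    linarith

/-- The product minus the linear part: `|∏ f_l - 1 + ∑ φ_l| ≤ C ∑ φ_l φ_{l'}`,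
`∇(∏ f_l + Φ) = ∑_l ∇φ_l (1 - ∏_{l'≠l} f_{l'})`. (`φ` bounded by `C`.) -/
theorem XB_prod (C : ℝ) : ∃ C' > 0, ∀ φ : (Fin 3 → R3) → ℝ, PB C φ →
    XB C' (fun x => Pf φ x - 1 + Phi4 φ x) := by
  refine ⟨(1 + C) ^ 2 * C ^ 2 + 1, by positivity, fun φ h => ?_⟩
  have hC := PB_nonneg h
  have hc1 : ∀ l, ContDiff ℝ 1 (ph φ l) := fun l => contDiff_ph h.c1 l
  have hd : ∀ l x, DifferentiableAt ℝ (ph φ l) x := fun l x =>
    (hc1 l).differentiable one_ne_zero x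
  have hfun : (fun x => Pf φ x - 1 + Phi4 φ x) = fun x =>
      (1 - ph φ 0 x) * (1 - ph φ 1 x) * (1 - ph φ 2 x) * (1 - ph φ 3 x) - 1 +
        (ph φ 0 x + ph φ 1 x + ph φ 2 x + ph φ 3 x) := by
    funext x
    unfold Pf Phi4
    rw [Fin.prod_univ_four, Fin.sum_univ_four]
  have hb : ∀ l x, |ph φ l x| ≤ C := fun l x =>
    (abs_ph_le h l x).trans (mul_le_of_le_one_right hC (inv_le_one' l 4 x).2)
  refine ⟨?_, ?_, fun x => ?_, fun x m a => ?_⟩
  · rw [hfun]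
    have h1 : ∀ l, ContDiff ℝ 1 fun x => 1 - ph φ l x := fun l => contDiff_const.sub (hc1 l)
    exact (((((h1 0).mul (h1 1)).mul (h1 2)).mul (h1 3)).sub contDiff_const).add
      ((((hc1 0).add (hc1 1)).add (hc1 2)).add (hc1 3))
  · intro x v
    rw [hfun]
    simp only [TI_ph h.ti _ x v]
  · have h1 := abs_prod_sub_le (hb 0 x) (hb 1 x) (hb 2 x) (hb 3 x)
    have h2 : Pf φ x - 1 + Phi4 φ x =
      (1 - ph φ 0 x) * (1 - ph φ 1 x) * (1 - ph φ 2 x) * (1 - ph φ 3 x) - 1 +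
        (ph φ 0 x + ph φ 1 x + ph φ 2 x + ph φ 3 x) := congrFun hfun x
    rw [h2]
    refine h1.trans ?_
    have h3 : ∀ l l', |ph φ l x| * |ph φ l' x| ≤ C ^ 2 * kab 4 4 l l' x := by
      intro l l'
      have := mul_le_mul (abs_ph_le h l x) (abs_ph_le h l' x) (abs_nonneg _)
        (mul_nonneg hC (inv_le_one' l 4 x).1.le)
      unfold kab
      linarith
    have h4 : |ph φ 0 x| * |ph φ 1 x| + |ph φ 2 x| * |ph φ 3 x| +
        (|ph φ 0 x| + |ph φ 1 x|) * (|ph φ 2 x| + |ph φ 3 x|) ≤ C ^ 2 * k0 x := by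
      unfold k0
      simp only [Fin.sum_univ_four, Finset.sum_erase_eq_sub (Finset.mem_univ _)]
      have e01 := h3 0 1
      have e23 := h3 2 3
      have e02 := h3 0 2
      have e03 := h3 0 3
      have e12 := h3 1 2
      have e13 := h3 1 3
      have n10 := mul_nonneg (sq_nonneg C) (kab_nonneg 4 4 1 0 x)
      have n20 := mul_nonneg (sq_nonneg C) (kab_nonneg 4 4 2 0 x)
      have n30 := mul_nonneg (sq_nonneg C) (kab_nonneg 4 4 3 0 x)
      have n21 := mul_nonneg (sq_nonneg C) (kab_nonneg 4 4 2 1 x)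
      have n31 := mul_nonneg (sq_nonneg C) (kab_nonneg 4 4 3 1 x)
      have n32 := mul_nonneg (sq_nonneg C) (kab_nonneg 4 4 3 2 x)
      nlinarith
    have h5 := mul_le_mul_of_nonneg_left h4 (by positivity : 0 ≤ (1 + C) ^ 2)
    have h6 := k0_nonneg x
    nlinarith
  · have h2 : pd (fun x => Pf φ x - 1 + Phi4 φ x) m a x =
        pd (ph φ 0) m a x * (1 - (1 - ph φ 1 x) * (1 - ph φ 2 x) * (1 - ph φ 3 x)) +
        pd (ph φ 1) m a x * (1 - (1 - ph φ 0 x) * (1 - ph φ 2 x) * (1 - ph φ 3 x)) +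
        pd (ph φ 2) m a x * (1 - (1 - ph φ 0 x) * (1 - ph φ 1 x) * (1 - ph φ 3 x)) +
        pd (ph φ 3) m a x * (1 - (1 - ph φ 0 x) * (1 - ph φ 1 x) * (1 - ph φ 2 x)) := by
      rw [hfun]
      have d1 : ∀ l, DifferentiableAt ℝ (fun x => 1 - ph φ l x) x := fun l =>
        (differentiableAt_const _).sub (hd l x)
      have d2 : DifferentiableAt ℝ (fun x => (1 - ph φ 0 x) * (1 - ph φ 1 x)) x :=
        (d1 0).mul (d1 1)
      have d3 : DifferentiableAt ℝ (fun x => (1 - ph φ 0 x) * (1 - ph φ 1 x) * (1 - ph φ 2 x)) x :=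
        d2.mul (d1 2)
      have d4 : DifferentiableAt ℝ (fun x =>
          (1 - ph φ 0 x) * (1 - ph φ 1 x) * (1 - ph φ 2 x) * (1 - ph φ 3 x)) x :=
        d3.mul (d1 3)
      have d5 : DifferentiableAt ℝ (fun x =>
          (1 - ph φ 0 x) * (1 - ph φ 1 x) * (1 - ph φ 2 x) * (1 - ph φ 3 x) - 1) x :=
        d4.sub (differentiableAt_const _)
      have s1 : DifferentiableAt ℝ (fun x => ph φ 0 x + ph φ 1 x) x := (hd 0 x).add (hd 1 x)
      have s2 : DifferentiableAt ℝ (fun x => ph φ 0 x + ph φ 1 x + ph φ 2 x) x := s1.add (hd 2 x)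
      have s3 : DifferentiableAt ℝ (fun x => ph φ 0 x + ph φ 1 x + ph φ 2 x + ph φ 3 x) x :=
        s2.add (hd 3 x)
      have p1 : ∀ l, pd (fun x => 1 - ph φ l x) m a x = - pd (ph φ l) m a x := by
        intro l
        rw [pd_sub (differentiableAt_const _) (hd l x), pd_const, zero_sub]
      rw [pd_add d5 s3, pd_sub d4 (differentiableAt_const _), pd_const, pd_mul d3 (d1 3),
        pd_mul d2 (d1 2), pd_mul (d1 0) (d1 1), pd_add s2 (hd 3 x), pd_add s1 (hd 2 x),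
        pd_add (hd 0 x) (hd 1 x)]
      simp only [p1]
      ring
    rw [h2]
    have h3 : ∀ l l', ((1 + rad (sub4 l x)) ^ 5)⁻¹ * |ph φ l' x| ≤ C * kab 5 4 l l' x := by
      intro l l'
      have := mul_le_mul_of_nonneg_left (abs_ph_le h l' x) (inv_le_one' l 5 x).1.le
      unfold kab
      linarith
    have h4 : ∀ l i j n : Fin 4, |pd (ph φ l) m a x *
        (1 - (1 - ph φ i x) * (1 - ph φ j x) * (1 - ph φ n x))| ≤
        (1 + C) ^ 2 * C ^ 2 * (kab 5 4 l i x + kab 5 4 l j x + kab 5 4 l n x) := by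
      intro l i j n
      rw [abs_mul]
      have g1 := abs_pd_ph_le h l m a x
      have g2 := abs_one_sub_le (hb i x) (hb j x) (hb n x)
      have g3 := mul_le_mul g1 g2 (abs_nonneg _) (mul_nonneg hC (inv_le_one' l 5 x).1.le)
      refine g3.trans ?_
      have g4 := h3 l i
      have g5 := h3 l j
      have g6 := h3 l n
      have g7 : 0 ≤ (1 + C) ^ 2 * C := by positivity
      have g8 := mul_le_mul_of_nonneg_left (add_le_add (add_le_add g4 g5) g6) g7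
      linarith
    have h5 := h4 0 1 2 3
    have h6 := h4 1 0 2 3
    have h7 := h4 2 0 1 3
    have h8 := h4 3 0 1 2
    have h9 : ∀ p q r t : ℝ, |p + q + r + t| ≤ |p| + |q| + |r| + |t| := fun p q r t =>
      (abs_add_le _ _).trans (add_le_add ((abs_add_le _ _).trans
        (add_le_add (abs_add_le _ _) le_rfl)) le_rfl)
    refine (h9 _ _ _ _).trans ?_
    have h10 : k1 x = (kab 5 4 0 1 x + kab 5 4 0 2 x + kab 5 4 0 3 x) +
        (kab 5 4 1 0 x + kab 5 4 1 2 x + kab 5 4 1 3 x) +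
        (kab 5 4 2 0 x + kab 5 4 2 1 x + kab 5 4 2 3 x) +
        (kab 5 4 3 0 x + kab 5 4 3 1 x + kab 5 4 3 2 x) := by
      unfold k1
      simp only [Fin.sum_univ_four, Finset.sum_erase_eq_sub (Finset.mem_univ _)]
      ring
    have h11 := k1_nonneg x
    have h12 : (1 + C) ^ 2 * C ^ 2 * k1 x ≤ ((1 + C) ^ 2 * C ^ 2 + 1) * k1 x := by nlinarith
    refine le_trans ?_ h12
    rw [h10]
    linarith

end Pool.Agent.Lib.MP_5db8e2_mp
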