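import Pool.Agent.Lib.MP_5db8e2_mp.PrimB1

/-!
# The primal four-body problem: domination
-/

set_option autoImplicit false

open MeasureTheory Filter Topology

namespace Pool.Agent.Lib.MP_5db8e2_mp

variable {V : R3 → R3 → ℝ} {φ : (Fin 3 → R3) → ℝ}

namespace PrimB2Aux

open FourA2Aux PrimB1Aux

/-- The sum of the kernels. -/
noncomputable def SK (a b : ℕ) (x : Fin 4 → R3) : ℝ :=
  ∑ l, ∑ l' ∈ Finset.univ.erase l, kab a b l l' x

theorem SK_nonneg (a b : ℕ) (x : Fin 4 → R3) : 0 ≤ SK a b x :=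
  Finset.sum_nonneg fun i _ => Finset.sum_nonneg fun j _ => kab_nonneg a b i j x

theorem kab_le_SK (a b : ℕ) {l l' : Fin 4} (h : l ≠ l') (x : Fin 4 → R3) :
    kab a b l l' x ≤ SK a b x := kab_le_sum a b h x

theorem RI_SK {a b : ℕ} (ha : 4 ≤ a) (hb : 4 ≤ b) (hab : 10 ≤ a + b) : RI (SK a b) := by
  unfold SK
  refine fc3_RI_sum _ _ fun l _ => fc3_RI_sum _ _ fun l' hl' => ?_
  exact RI_kab ha hb hab (Finset.ne_of_mem_erase hl').symm

theorem measurable_SK (a b : ℕ) : Measurable (SK a b) := by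
  unfold SK
  exact Finset.measurable_fun_sum _ fun l _ => Finset.measurable_fun_sum _ fun l' _ =>
    measurable_kab a b l l'

theorem sum_sum_const_le {f : Fin 4 → Fin 4 → ℝ} {B : ℝ}
    (h : ∀ l l', l ≠ l' → f l l' ≤ B) :
    ∑ l, ∑ l' ∈ Finset.univ.erase l, f l l' ≤ 12 * B := by
  calc ∑ l, ∑ l' ∈ Finset.univ.erase l, f l l'
      ≤ ∑ l : Fin 4, ∑ _l' ∈ Finset.univ.erase l, B :=
        Finset.sum_le_sum fun l _ => Finset.sum_le_sum fun l' hl' =>
          h l l' (Finset.ne_of_mem_erase hl').symm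
    _ = 12 * B := by
        simp only [Finset.sum_const, Finset.card_erase_of_mem (Finset.mem_univ _),
          Finset.card_univ, Fintype.card_fin, nsmul_eq_mul]
        norm_num
        ring

/-- `(1+rad_l)^{-5} k1 ≤ 12 (SK 5 5 + SK 10 4)`. -/
theorem inv_mul_k1_le (l : Fin 4) (x : Fin 4 → R3) :
    ((1 + rad (sub4 l x)) ^ 5)⁻¹ * k1 x ≤ 12 * (SK 5 5 x + SK 10 4 x) := by
  unfold k1
  simp only [Finset.mul_sum]
  refine sum_sum_const_le fun m m' hm => ?_
  have hl := inv_le_one' l 5 x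
  have hm5 := inv_le_one' m 5 x
  have hm4 := inv_le_one' m' 4 x
  by_cases h : l = m
  · subst h
    have h1 : ((1 + rad (sub4 l x)) ^ 5)⁻¹ * kab 5 4 l m' x = kab 10 4 l m' x := by
      unfold kab
      rw [← mul_assoc, ← mul_inv, ← pow_add]
    rw [h1]
    have := kab_le_SK 10 4 hm x
    have := SK_nonneg 5 5 x
    linarith
  · have h1 : ((1 + rad (sub4 l x)) ^ 5)⁻¹ * kab 5 4 m m' x ≤ kab 5 5 l m x := by
      unfold kab
      rw [← mul_assoc]
      exact mul_le_of_le_one_right (mul_nonneg hl.1.le hm5.1.le) hm4.2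
    have := kab_le_SK 5 5 h x
    have := SK_nonneg 10 4 x
    linarith

theorem k1_sq_le (x : Fin 4 → R3) : k1 x ^ 2 ≤ 12 * SK 10 8 x := by
  unfold k1 SK
  have h1 : (∑ l, ∑ l' ∈ Finset.univ.erase l, kab 5 4 l l' x) ^ 2 ≤
      4 * ∑ l, (∑ l' ∈ Finset.univ.erase l, kab 5 4 l l' x) ^ 2 := by
    have := sq_sum_le_card_mul_sum_sq (s := (Finset.univ : Finset (Fin 4)))
      (f := fun l => ∑ l' ∈ Finset.univ.erase l, kab 5 4 l l' x)
    simpa using this
  have h2 : ∀ l : Fin 4, (∑ l' ∈ Finset.univ.erase l, kab 5 4 l l' x) ^ 2 ≤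
      3 * ∑ l' ∈ Finset.univ.erase l, kab 10 8 l l' x := by
    intro l
    have := sq_sum_le_card_mul_sum_sq (s := (Finset.univ : Finset (Fin 4)).erase l)
      (f := fun l' => kab 5 4 l l' x)
    rw [Finset.card_erase_of_mem (Finset.mem_univ _), Finset.card_univ, Fintype.card_fin] at this
    refine this.trans (le_of_eq ?_)
    rw [show ((4 - 1 : ℕ) : ℝ) = 3 by norm_num]
    congr 1
    refine Finset.sum_congr rfl fun l' _ => ?_
    unfold kab
    rw [mul_pow, inv_pow, inv_pow, ← pow_mul, ← pow_mul]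
  calc _ ≤ 4 * ∑ l, (∑ l' ∈ Finset.univ.erase l, kab 5 4 l l' x) ^ 2 := h1
    _ ≤ 4 * ∑ l, 3 * ∑ l' ∈ Finset.univ.erase l, kab 10 8 l l' x := by
      refine mul_le_mul_of_nonneg_left (Finset.sum_le_sum fun l _ => h2 l) (by norm_num)
    _ = _ := by
      rw [← Finset.mul_sum, ← mul_assoc]
      norm_num

/-- On the support of `V4 l` the kernel `k0` decays. -/
theorem k0_le {R : ℝ} (hR : 0 ≤ R) {l : Fin 4} {x : Fin 4 → R3} (hx : rad (sub4 l x) ≤ R) :
    k0 x ≤ 12 * ((100 * (R + 1)) ^ 4 * ((1 + rad x) ^ 4)⁻¹) := by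
  unfold k0
  have h0 := rad_nonneg x
  refine sum_sum_const_le fun m m' hm => ?_
  have key : ∀ n : Fin 4, l ≠ n → ((1 + rad (sub4 n x)) ^ 4)⁻¹ ≤
      (100 * (R + 1)) ^ 4 * ((1 + rad x) ^ 4)⁻¹ := by
    intro n hn
    have h1 := rad_le_sub4_add l n hn x
    have h2 := rad_nonneg (sub4 n x)
    have h3 : 1 + rad x ≤ 100 * (R + 1) * (1 + rad (sub4 n x)) := by nlinarith
    have h4 : (1 + rad x) ^ 4 ≤ (100 * (R + 1)) ^ 4 * (1 + rad (sub4 n x)) ^ 4 := by
      rw [← mul_pow]
      exact pow_le_pow_left₀ (by positivity) h3 4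
    rw [← div_eq_mul_inv, inv_eq_one_div, div_le_div_iff₀ (by positivity) (by positivity), one_mul]
    exact h4
  unfold kab
  by_cases h : l = m
  · subst h
    exact (mul_le_of_le_one_left (inv_le_one' m' 4 x).1.le (inv_le_one' l 4 x).2).trans
      (key m' hm)
  · exact (mul_le_of_le_one_right (inv_le_one' m 4 x).1.le (inv_le_one' m' 4 x).2).trans
      (key m h)

theorem measurable_dens4 (hV : Pot V) (hφ : ContDiff ℝ 1 φ) {F : (Fin 4 → R3) → ℝ}
    (hF : ContDiff ℝ 1 F) : Measurable (dens4 V φ F) := by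
  obtain ⟨B, _, R, _, hV4⟩ := V4_props hV
  unfold dens4
  refine ((continuous_gg hF hF).measurable.add ((Finset.measurable_fun_sum _ fun l _ =>
    (hV4 l).1).mul (hF.continuous.measurable.pow_const 2))).sub
    (Finset.measurable_fun_sum _ fun l _ => ?_)
  exact ((continuous_gg hφ hφ).comp (continuous_sub4 l)).measurable.add ((hV4 l).1.mul
    ((measurable_const.sub (contDiff_ph hφ l).continuous.measurable).pow_const 2))

theorem contDiff_Phi4 (hφ : ContDiff ℝ 1 φ) : ContDiff ℝ 1 (Phi4 φ) := by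
  unfold Phi4
  exact ContDiff.sum fun l _ => contDiff_ph hφ l

theorem contDiff_F (hφ : ContDiff ℝ 1 φ) {X : (Fin 4 → R3) → ℝ} (hX : ContDiff ℝ 1 X) :
    ContDiff ℝ 1 fun x => 1 - Phi4 φ x + X x :=
  (contDiff_const.sub (contDiff_Phi4 hφ)).add hX

end PrimB2Aux

open FourA2Aux PrimB1Aux PrimB2Aux

/-- **Domination.** There is an integrable `D ≥ 0` (depending on `V` and `C`) with
`|dens4 V φ (1 - Φ + X)| ≤ D` for all `φ` with `PB C φ` and all `X` with `XB C X`. By `dens4_eq`: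
the cross terms are `≤ C kab 5 5`; `gg φ_l X`: `(1+rad_l)^{-5} kab 5 4 m m'` is `≤ kab 5 5 l m` if
`l ≠ m` and `≤ kab 10 4 l m'` if `l = m`; `gg X X ≤ C k1² ≤ C ∑ kab 10 8`; on the support of
`V4 l` (`rad (sub4 l x) ≤ R`) `|s0 φ l|` and `k0` are `≤ C (1+rad x)^{-4}` (`s0_decay`,
`rad_le_sub4_add`), slab integral with `p = 4`. -/
theorem dens4_dom (hV : Pot V) (C : ℝ) : ∃ D : (Fin 4 → R3) → ℝ, Measurable D ∧ RI D ∧
    (∀ x, 0 ≤ D x) ∧ ∀ (φ : (Fin 3 → R3) → ℝ) (X : (Fin 4 → R3) → ℝ), PB C φ → XB C X →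
      ∀ x, |dens4 V φ (fun x => 1 - Phi4 φ x + X x) x| ≤ D x := by
  rcases lt_or_ge C 0 with hC | hC
  · refine ⟨fun _ => 0, measurable_const, ?_, fun _ => le_rfl, fun φ X h _ => ?_⟩
    · exact integrable_zero _ _ _
    · have := PB_nonneg h
      linarith
  obtain ⟨B, hB, R, hR, hV4⟩ := V4_props hV
  obtain ⟨C', hC', hs⟩ := s0_decay hV C
  obtain ⟨E, hE⟩ : ∃ E, E = C' + C * (12 * (100 * (R + 1)) ^ 4) := ⟨_, rfl⟩
  have hE0 : 0 ≤ E := by rw [hE]; positivity
  obtain ⟨K4, hK4⟩ : ∃ K4, K4 = B * (2 * (1 + C) * E + E ^ 2) := ⟨_, rfl⟩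
  have hK40 : 0 ≤ K4 := by rw [hK4]; positivity
  obtain ⟨sl, hsl⟩ : ∃ sl : Fin 4 → (Fin 4 → R3) → ℝ, sl = fun l x =>
    if rad (sub4 l x) ≤ R then ((1 + rad x) ^ 4)⁻¹ else 0 := ⟨_, rfl⟩
  have hsl0 : ∀ l x, 0 ≤ sl l x := by
    intro l x
    have := rad_nonneg x
    rw [hsl]
    simp only
    split_ifs <;> positivity
  refine ⟨fun x => 12 * C * C * SK 5 5 x + 2 * (4 * (12 * (C * C) * (12 * (SK 5 5 x + SK 10 4 x)))) +
    12 * (C * C) * (12 * SK 10 8 x) + ∑ l, K4 * sl l x, ?_, ?_, ?_, ?_⟩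
  · have h1 : ∀ l, Measurable fun x => K4 * sl l x := by
      intro l
      rw [hsl]
      exact (fa1_measurable_slab l R 4).const_mul K4
    exact ((((measurable_SK 5 5).const_mul _).add ((((((measurable_SK 5 5).add
      (measurable_SK 10 4)).const_mul _).const_mul _).const_mul _).const_mul _)).add
      (((measurable_SK 10 8).const_mul _).const_mul _)).add
      (Finset.measurable_fun_sum _ fun l _ => h1 l)
  · have r1 := RI_SK (a := 5) (b := 5) (by norm_num) (by norm_num) (by norm_num)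
    have r2 := RI_SK (a := 10) (b := 4) (by norm_num) (by norm_num) (by norm_num)
    have r3 := RI_SK (a := 10) (b := 8) (by norm_num) (by norm_num) (by norm_num)
    have r4 : RI (k := 3) fun x => ∑ l, K4 * sl l x := by
      refine fc3_RI_sum _ _ fun l _ => ?_
      rw [hsl]
      exact (RI_slab l R le_rfl).const_mul K4
    exact (((r1.const_mul _).add (((((r1.add r2).const_mul _).const_mul _).const_mul _).const_mul
      _)).add ((r3.const_mul _).const_mul _)).add r4
  · intro x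
    have s1 := SK_nonneg 5 5 x
    have s2 := SK_nonneg 10 4 x
    have s3 := SK_nonneg 10 8 x
    have s4 : 0 ≤ ∑ l, K4 * sl l x :=
      Finset.sum_nonneg fun l _ => mul_nonneg hK40 (hsl0 l x)
    simp only
    positivity
  · intro φ X hφ hX x
    rw [dens4_eq hφ.c1 hX.c1]
    -- cross terms
    have e1 : |∑ l, ∑ l' ∈ Finset.univ.erase l, gg (ph φ l) (ph φ l') x| ≤
        12 * C * C * SK 5 5 x := by
      unfold SK
      rw [Finset.mul_sum]
      refine (Finset.abs_sum_le_sum_abs _ _).trans (Finset.sum_le_sum fun l _ => ?_)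
      rw [Finset.mul_sum]
      refine (Finset.abs_sum_le_sum_abs _ _).trans (Finset.sum_le_sum fun l' _ => ?_)
      exact abs_gg_ph_le hφ.c1 hφ.c1 hφ.bd' hφ.bd' l l' x
    have e2 : |∑ l, gg (ph φ l) X x| ≤
        4 * (12 * (C * C) * (12 * (SK 5 5 x + SK 10 4 x))) := by
      refine (Finset.abs_sum_le_sum_abs _ _).trans ?_
      have h1 : ∀ l : Fin 4, |gg (ph φ l) X x| ≤
          12 * (C * C) * (12 * (SK 5 5 x + SK 10 4 x)) := by
        intro l
        have h2 := abs_gg_le (fun m a => abs_pd_ph_le hφ l m a x) (fun m a => hX.bd' x m a)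
        have h3 := mul_le_mul_of_nonneg_left (inv_mul_k1_le l x)
          (by positivity : 0 ≤ 12 * (C * C))
        refine h2.trans (le_trans (le_of_eq ?_) h3)
        push_cast
        ring
      calc ∑ l, |gg (ph φ l) X x| ≤ ∑ _l : Fin 4,
            12 * (C * C) * (12 * (SK 5 5 x + SK 10 4 x)) := Finset.sum_le_sum fun l _ => h1 l
        _ = _ := by
          rw [Finset.sum_const, Finset.card_univ, Fintype.card_fin, nsmul_eq_mul]
          norm_num
    have e3 : |gg X X x| ≤ 12 * (C * C) * (12 * SK 10 8 x) := by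
      have h2 := abs_gg_le (fun m a => hX.bd' x m a) (fun m a => hX.bd' x m a)
      have h3 := mul_le_mul_of_nonneg_left (k1_sq_le x) (by positivity : 0 ≤ 12 * (C * C))
      refine h2.trans (le_trans (le_of_eq ?_) h3)
      push_cast
      ring
    have e4 : |∑ l, V4 V l x * (-2 * (1 - ph φ l x) * (s0 φ l x - X x) +
        (s0 φ l x - X x) ^ 2)| ≤ ∑ l, K4 * sl l x := by
      refine (Finset.abs_sum_le_sum_abs _ _).trans (Finset.sum_le_sum fun l _ => ?_)
      by_cases hv : V4 V l x = 0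
      · rw [hv, zero_mul, abs_zero]
        exact mul_nonneg hK40 (hsl0 l x)
      · have hr := (hV4 l).2.2.2 x hv
        have hvb := (hV4 l).2.2.1 x
        have h0 := rad_nonneg x
        obtain ⟨u, hu⟩ : ∃ u, u = ((1 + rad x) ^ 4)⁻¹ := ⟨_, rfl⟩
        have hu0 : 0 < u := by rw [hu]; positivity
        have hu1 : u ≤ 1 := by
          rw [hu]
          exact inv_le_one_of_one_le₀ (one_le_pow₀ (by linarith))
        have h1 : |s0 φ l x| ≤ C' * u := by
          rw [hu, ← div_eq_mul_inv]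
          exact hs φ hφ.bd l x hv
        have h2 : |X x| ≤ C * (12 * (100 * (R + 1)) ^ 4) * u := by
          refine (hX.bd x).trans ?_
          have := mul_le_mul_of_nonneg_left (k0_le hR.le hr) hC
          rw [← hu] at this
          refine this.trans (le_of_eq ?_)
          ring
        have h3 : |s0 φ l x - X x| ≤ E * u := by
          have := abs_sub (s0 φ l x) (X x)
          rw [hE]
          linarith
        have h4 : |1 - ph φ l x| ≤ 1 + C := by
          have h5 := abs_sub (1 : ℝ) (ph φ l x)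
          have h6 := abs_ph_le hφ l x
          have h7 := mul_le_of_le_one_right hC (inv_le_one' l 4 x).2
          rw [abs_one] at h5
          linarith
        have h5 : |-2 * (1 - ph φ l x) * (s0 φ l x - X x) + (s0 φ l x - X x) ^ 2| ≤
            (2 * (1 + C) * E + E ^ 2) * u := by
          have g1 := abs_add_le (-2 * (1 - ph φ l x) * (s0 φ l x - X x)) ((s0 φ l x - X x) ^ 2)
          have g2 : |-2 * (1 - ph φ l x) * (s0 φ l x - X x)| ≤ 2 * (1 + C) * (E * u) := by
            rw [abs_mul, abs_mul, abs_neg, abs_two]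
            exact mul_le_mul (mul_le_mul_of_nonneg_left h4 (by norm_num)) h3 (abs_nonneg _)
              (by positivity)
          have g3 : |(s0 φ l x - X x) ^ 2| ≤ E ^ 2 * u := by
            rw [abs_pow]
            have g4 := pow_le_pow_left₀ (abs_nonneg _) h3 2
            refine g4.trans ?_
            rw [mul_pow]
            exact mul_le_mul_of_nonneg_left (by nlinarith) (sq_nonneg E)
          linarith
        rw [abs_mul, abs_of_nonneg hvb.1, hsl]
        simp only [if_pos hr]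
        rw [← hu, hK4]
        refine (mul_le_mul hvb.2 h5 (abs_nonneg _) hB.le).trans (le_of_eq ?_)
        ring
    have t1 := abs_le.1 e1
    have t2 := abs_le.1 e2
    have t3 := abs_le.1 e3
    have t4 := abs_le.1 e4
    rw [abs_le]
    constructor <;> linarith [t1.1, t1.2, t2.1, t2.2, t3.1, t3.2, t4.1, t4.2]

/-- **Closeness.** If the functions agree near the ball of radius `r` then the integrals are
close, uniformly. (`2 ∫_{rad > r} D`; the densities agree where the functions agree in a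
neighbourhood.) -/
theorem dens4_close (hV : Pot V) (C : ℝ) {η : ℝ} (hη : 0 < η) : ∃ r1 > 0, ∀ r ≥ r1,
    ∀ (φ ψ : (Fin 3 → R3) → ℝ) (X Y : (Fin 4 → R3) → ℝ), PB C φ → PB C ψ → XB C X → XB C Y →
      (∀ x, rad x < 2 * r → ψ x = φ x) → (∀ x, rad x < 2 * r → Y x = X x) →
      RI (dens4 V φ fun x => 1 - Phi4 φ x + X x) ∧
      RI (dens4 V ψ fun x => 1 - Phi4 ψ x + Y x) ∧
      |rint (dens4 V ψ fun x => 1 - Phi4 ψ x + Y x) -
        rint (dens4 V φ fun x => 1 - Phi4 φ x + X x)| ≤ η := by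
  obtain ⟨D, hDm, hDI, hD0, hD⟩ := dens4_dom hV C
  obtain ⟨R0, hR0⟩ := fc3_tail_RI hDm hDI (η := η / 2) (by positivity)
  refine ⟨max R0 1, by positivity, fun r hr φ ψ X Y hφ hψ hX hY hψφ hYX => ?_⟩
  have hr0 : 0 < r := lt_of_lt_of_le one_pos ((le_max_right _ _).trans hr)
  have hI1 : RI (dens4 V φ fun x => 1 - Phi4 φ x + X x) :=
    hDI.mono (measurable_dens4 hV hφ.c1 (contDiff_F hφ.c1 hX.c1)) (hD φ X hφ hX)
  have hI2 : RI (dens4 V ψ fun x => 1 - Phi4 ψ x + Y x) :=
    hDI.mono (measurable_dens4 hV hψ.c1 (contDiff_F hψ.c1 hY.c1)) (hD ψ Y hψ hY)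
  refine ⟨hI1, hI2, ?_⟩
  rw [← rint_sub hI2 hI1]
  have htail : RI (fun x => if rad x ≤ r then 0 else D x) := fc3_RI_tail hDm hDI r
  have heq : ∀ x : Fin 4 → R3, rad x ≤ r →
      dens4 V ψ (fun x => 1 - Phi4 ψ x + Y x) x = dens4 V φ (fun x => 1 - Phi4 φ x + X x) x := by
    intro x hx
    have hsub : ∀ (l : Fin 4) (y : Fin 4 → R3), rad y < 2 * r → rad (sub4 l y) < 2 * r :=
      fun l y hy => lt_of_le_of_lt (rad_sub4_le l y) hy
    have hx2 : rad x < 2 * r := by linarith
    have hph : ∀ (l : Fin 4) (y : Fin 4 → R3), rad y < 2 * r → ph ψ l y = ph φ l y :=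
      fun l y hy => hψφ _ (hsub l y hy)
    have hopen4 : {y : Fin 4 → R3 | rad y < 2 * r} ∈ 𝓝 x :=
      (isOpen_lt continuous_rad continuous_const).mem_nhds hx2
    have hF : (fun x => 1 - Phi4 ψ x + Y x) =ᶠ[𝓝 x] fun x => 1 - Phi4 φ x + X x := by
      filter_upwards [hopen4] with y hy
      unfold Phi4
      rw [hYX y hy, Finset.sum_congr rfl fun l _ => hph l y hy]
    have hgg : gg (fun x => 1 - Phi4 ψ x + Y x) (fun x => 1 - Phi4 ψ x + Y x) x =
        gg (fun x => 1 - Phi4 φ x + X x) (fun x => 1 - Phi4 φ x + X x) x := by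
      unfold gg pd
      rw [hF.fderiv_eq]
    have hgg3 : ∀ l : Fin 4, gg ψ ψ (sub4 l x) = gg φ φ (sub4 l x) := by
      intro l
      have hopen3 : {y : Fin 3 → R3 | rad y < 2 * r} ∈ 𝓝 (sub4 l x) :=
        (isOpen_lt continuous_rad continuous_const).mem_nhds (hsub l x hx2)
      have hE : ψ =ᶠ[𝓝 (sub4 l x)] φ := by
        filter_upwards [hopen3] with y hy
        exact hψφ y hy
      unfold gg pd
      rw [hE.fderiv_eq]
    have hval : 1 - Phi4 ψ x + Y x = 1 - Phi4 φ x + X x := hF.eq_of_nhds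
    unfold dens4
    rw [hgg]
    beta_reduce
    rw [hval]
    congr 1
    refine Finset.sum_congr rfl fun l _ => ?_
    rw [hgg3 l, hph l x hx2]
  have h1 := abs_rint_le (F := fun x => dens4 V ψ (fun x => 1 - Phi4 ψ x + Y x) x -
    dens4 V φ (fun x => 1 - Phi4 φ x + X x) x) (htail.const_mul 2) fun x => ?_
  · rw [rint_const_mul] at h1
    have h2 := hR0 r ((le_max_left _ _).trans hr)
    refine h1.trans ?_
    linarith
  · split_ifs with hx
    · rw [heq x hx, sub_self, abs_zero, mul_zero]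
    · have h3 := hD ψ Y hψ hY x
      have h4 := hD φ X hφ hX x
      have h5 := abs_sub (dens4 V ψ (fun x => 1 - Phi4 ψ x + Y x) x)
        (dens4 V φ (fun x => 1 - Phi4 φ x + X x) x)
      linarith

end Pool.Agent.Lib.MP_5db8e2_mp
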