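import Pool.Agent.Lib.MP_5db8e2_mp.GeoA

/-!
# The relative integral: basic facts
-/

set_option autoImplicit false

open MeasureTheory Filter Topology

namespace Pool.Agent.Lib.MP_5db8e2_mp

variable {k : ℕ}

/-- Integrability of the relative integrand. -/
def RI (F : (Fin (k + 1) → R3) → ℝ) : Prop := Integrable fun y : Fin k → R3 => F (Fin.cons 0 y)

theorem continuous_cons0 :
    Continuous (fun y : Fin k → R3 => (Fin.cons 0 y : Fin (k + 1) → R3)) := by
  refine continuous_pi fun i => ?_
  refine Fin.cases ?_ (fun j => ?_) i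
  · simp only [Fin.cons_zero]
    exact continuous_const
  · simp only [Fin.cons_succ]
    exact continuous_apply j

theorem measurable_cons0 : Measurable (fun y : Fin k → R3 => (Fin.cons 0 y : Fin (k + 1) → R3)) :=
  continuous_cons0.measurable

theorem rint_add {F G : (Fin (k + 1) → R3) → ℝ} (hF : RI F) (hG : RI G) :
    rint (fun x => F x + G x) = rint F + rint G :=
  integral_add hF hG

theorem rint_sub {F G : (Fin (k + 1) → R3) → ℝ} (hF : RI F) (hG : RI G) :
    rint (fun x => F x - G x) = rint F - rint G :=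
  integral_sub hF hG

theorem rint_neg' (F : (Fin (k + 1) → R3) → ℝ) : rint (fun x => -F x) = -rint F :=
  integral_neg _

theorem rint_const_mul (c : ℝ) (F : (Fin (k + 1) → R3) → ℝ) :
    rint (fun x => c * F x) = c * rint F :=
  integral_const_mul c _

theorem rint_sum {ι : Type*} (s : Finset ι) (F : ι → (Fin (k + 1) → R3) → ℝ)
    (hF : ∀ i ∈ s, RI (F i)) : rint (fun x => ∑ i ∈ s, F i x) = ∑ i ∈ s, rint (F i) :=
  integral_finset_sum s hF

theorem rint_mono {F G : (Fin (k + 1) → R3) → ℝ} (hF : RI F) (hG : RI G) (h : ∀ x, F x ≤ G x) :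
    rint F ≤ rint G :=
  integral_mono hF hG fun y => h _

theorem rint_nonneg {F : (Fin (k + 1) → R3) → ℝ} (h : ∀ x, 0 ≤ F x) : 0 ≤ rint F :=
  integral_nonneg fun y => h _

theorem abs_rint_le {F G : (Fin (k + 1) → R3) → ℝ} (hG : RI G) (h : ∀ x, |F x| ≤ G x) :
    |rint F| ≤ rint G :=
  norm_integral_le_of_norm_le (f := fun y : Fin k → R3 => F (Fin.cons 0 y)) hG
    (Filter.Eventually.of_forall fun y => h _)

theorem RI.mono {F G : (Fin (k + 1) → R3) → ℝ} (hG : RI G) (hF : Measurable F)
    (h : ∀ x, |F x| ≤ G x) : RI F :=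
  Integrable.mono' hG (hF.comp measurable_cons0).aestronglyMeasurable
    (Filter.Eventually.of_forall fun y => h _)

theorem RI.add {F G : (Fin (k + 1) → R3) → ℝ} (hF : RI F) (hG : RI G) :
    RI (fun x => F x + G x) :=
  Integrable.add hF hG

theorem RI.sub {F G : (Fin (k + 1) → R3) → ℝ} (hF : RI F) (hG : RI G) :
    RI (fun x => F x - G x) :=
  Integrable.sub hF hG

theorem RI.const_mul {F : (Fin (k + 1) → R3) → ℝ} (hF : RI F) (c : ℝ) :
    RI (fun x => c * F x) :=
  Integrable.const_mul hF c

/-- The set `{rad ≤ R}` has finite relative volume: bounded measurable functions which vanish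
outside it are integrable. (`‖y‖ ≤ 2 rad(0,y)`.) -/
theorem RI_of_bdd {F : (Fin (k + 1) → R3) → ℝ} (hF : Measurable F) {B R : ℝ}
    (hB : ∀ x, |F x| ≤ B) (hR : ∀ x, F x ≠ 0 → rad x ≤ R) : RI F := by
  unfold RI
  have hsupp : Function.support (fun y : Fin k → R3 => F (Fin.cons 0 y))
      ⊆ Metric.closedBall 0 (2 * R) := by
    intro y hy
    rw [Metric.mem_closedBall, dist_zero_right]
    have h1 := norm_le_rad_cons y
    have h2 := hR _ hy
    linarith
  rw [← integrableOn_iff_integrable_of_support_subset hsupp]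
  refine Measure.integrableOn_of_bounded (M := B) measure_closedBall_lt_top.ne
    (hF.comp measurable_cons0).aestronglyMeasurable (Filter.Eventually.of_forall fun y => ?_)
  exact hB _

/-- Cauchy–Schwarz. -/
theorem rint_mul_sq_le {F G : (Fin (k + 1) → R3) → ℝ} (hF : Measurable F) (hG : Measurable G)
    (hF2 : RI fun x => F x ^ 2) (hG2 : RI fun x => G x ^ 2) :
    (rint fun x => F x * G x) ^ 2 ≤ (rint fun x => F x ^ 2) * rint fun x => G x ^ 2 := by
  have hFG : RI fun x => F x * G x := by
    refine RI.mono (G := fun x => F x ^ 2 + G x ^ 2) (hF2.add hG2) (hF.mul hG) fun x => ?_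
    rw [abs_le]
    constructor
    · nlinarith [sq_nonneg (F x + G x), sq_nonneg (F x), sq_nonneg (G x)]
    · nlinarith [sq_nonneg (F x - G x), sq_nonneg (F x), sq_nonneg (G x)]
  have hq : ∀ t : ℝ, 0 ≤ (rint fun x => G x ^ 2) * (t * t)
      + (2 * rint fun x => F x * G x) * t + rint fun x => F x ^ 2 := by
    intro t
    have h0 : 0 ≤ rint fun x => (t * t) * G x ^ 2 + ((2 * t) * (F x * G x) + F x ^ 2) := by
      refine rint_nonneg fun x => ?_
      nlinarith [sq_nonneg (t * G x + F x)]
    rw [rint_add (hG2.const_mul (t * t)) ((hFG.const_mul (2 * t)).add hF2),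
      rint_add (hFG.const_mul (2 * t)) hF2, rint_const_mul, rint_const_mul] at h0
    linarith
  have hd := discrim_le_zero hq
  unfold discrim at hd
  nlinarith

/-- A continuous nonnegative translation invariant function with zero relative integral
vanishes. -/
theorem eq_zero_of_rint_eq_zero {F : (Fin (k + 1) → R3) → ℝ} (hF : Continuous F) (ht : TI F)
    (h0 : ∀ x, 0 ≤ F x) (hI : RI F) (h : rint F ≤ 0) (x : Fin (k + 1) → R3) : F x = 0 := by
  have h1 : rint F = 0 := le_antisymm h (rint_nonneg h0)
  unfold rint at h1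
  rw [integral_eq_zero_iff_of_nonneg (fun y => h0 _) hI] at h1
  have h2 : (fun y : Fin k → R3 => F (Fin.cons 0 y)) = 0 :=
    (Continuous.ae_eq_iff_eq (μ := volume) (hF.comp continuous_cons0) continuous_const).1 h1
  rw [TI_eq_cons ht x]
  exact congrFun h2 _

end Pool.Agent.Lib.MP_5db8e2_mp
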