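import Pool.Agent.Lib.MP_5db8e2_mp.RintA

/-!
# The relative integral: weighted form and invariances
-/

set_option autoImplicit false

open MeasureTheory Filter Topology

namespace Pool.Agent.Lib.MP_5db8e2_mp

variable {k : ℕ}

/-- The change of variables `x ↦ (ℓ x, (x_j - x_0)_j)` preserves the Lebesgue measure. -/
theorem mp_weight {ℓ : (Fin (k + 1) → R3) → R3} (hℓm : Measurable ℓ)
    (hℓ : ∀ x v, ℓ (fun m => x m + v) = ℓ x + v) :
    MeasurePreserving (fun x : Fin (k + 1) → R3 => (ℓ x, fun j : Fin k => x j.succ - x 0))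
      volume volume := by
  have e0 : MeasurePreserving (fun x : Fin (k + 1) → R3 => (x 0, fun j : Fin k => x j.succ))
      volume volume := by
    have h := volume_preserving_piFinSuccAbove (fun _ : Fin (k + 1) => R3) 0
    have hfe : (⇑(MeasurableEquiv.piFinSuccAbove (fun _ : Fin (k + 1) => R3) 0)) =
        fun x : Fin (k + 1) → R3 => (x 0, fun j : Fin k => x j.succ) := by
      funext x
      refine Prod.ext rfl ?_
      funext j
      change x (Fin.succAbove 0 j) = x j.succ
      rw [Fin.succAbove_zero]
    rw [hfe] at h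
    exact h
  have e1 : MeasurePreserving
      (fun p : R3 × (Fin k → R3) => (p.1, fun j : Fin k => p.2 j - p.1)) volume volume := by
    have hgm : Measurable (Function.uncurry
        (fun (c : R3) (z : Fin k → R3) => (fun j : Fin k => z j - c))) := by
      refine measurable_pi_lambda _ fun j => ?_
      exact ((measurable_pi_apply j).comp measurable_snd).sub measurable_fst
    refine (MeasurePreserving.id (volume : Measure R3)).skew_product (μc := volume) (μd := volume)
      hgm (ae_of_all _ fun c => ?_)
    exact (measurePreserving_sub_right (volume : Measure (Fin k → R3)) (fun _ => c)).map_eq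
  have e2 : MeasurePreserving
      (fun p : (Fin k → R3) × R3 => (p.1, p.2 + ℓ (Fin.cons 0 p.1))) volume volume := by
    have hgm : Measurable (Function.uncurry
        (fun (y : Fin k → R3) (c : R3) => c + ℓ (Fin.cons 0 y))) := by
      exact measurable_snd.add (hℓm.comp (measurable_cons0.comp measurable_fst))
    refine (MeasurePreserving.id (volume : Measure (Fin k → R3))).skew_product (μc := volume)
      (μd := volume) hgm (ae_of_all _ fun y => ?_)
    exact (measurePreserving_add_right (volume : Measure R3) (ℓ (Fin.cons 0 y))).map_eq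
  have sw1 : MeasurePreserving (Prod.swap : R3 × (Fin k → R3) → (Fin k → R3) × R3)
      volume volume := Measure.measurePreserving_swap
  have sw2 : MeasurePreserving (Prod.swap : (Fin k → R3) × R3 → R3 × (Fin k → R3))
      volume volume := Measure.measurePreserving_swap
  have := sw2.comp (e2.comp (sw1.comp (e1.comp e0)))
  convert this using 1
  funext x
  simp only [Function.comp_apply, Prod.swap, Prod.mk.injEq, and_true]
  rw [add_comm, ← hℓ]
  congr 1
  funext m
  refine Fin.cases ?_ (fun j => ?_) m
  · simp
  · simp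

theorem TI.eq_cons {F : (Fin (k + 1) → R3) → ℝ} (ht : TI F) (x : Fin (k + 1) → R3) :
    F x = F (Fin.cons 0 (fun j : Fin k => x j.succ - x 0)) := by
  rw [← ht (Fin.cons 0 (fun j : Fin k => x j.succ - x 0)) (x 0)]
  congr 1
  funext m
  refine Fin.cases ?_ (fun j => ?_) m
  · simp
  · simp

/-- **Weighted form.** If `F` is translation invariant and `ℓ` is equivariant, then
`∫ h(ℓ x) F(x) dx = (∫ h) rint F`. Proof: Fubini in `x = (x_0, x')`
(`MeasureTheory.volume_preserving_piFinSuccAbove` or `Fin.consEquiv`), the substitution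
`x' = y + x_0` for fixed `x_0`, `F x = F(0,y)`, `ℓ x = x_0 + ℓ(0,y)`, Fubini again and the
translation invariance of `∫ h(x_0 + c) dx_0`. -/
theorem integral_weight {F : (Fin (k + 1) → R3) → ℝ} (hF : Measurable F) (ht : TI F) (hI : RI F)
    {ℓ : (Fin (k + 1) → R3) → R3} (hℓm : Measurable ℓ)
    (hℓ : ∀ x v, ℓ (fun m => x m + v) = ℓ x + v) {h : R3 → ℝ} (hh : Integrable h) :
    Integrable (fun x => h (ℓ x) * F x) ∧ ∫ x, h (ℓ x) * F x = (∫ c, h c) * rint F := by
  have hT := mp_weight hℓm hℓ
  have hprod : Integrable (fun p : R3 × (Fin k → R3) => h p.1 * F (Fin.cons 0 p.2)) volume := by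
    have := Integrable.mul_prod (μ := (volume : Measure R3)) (ν := (volume : Measure (Fin k → R3)))
      hh hI
    exact this
  have hfun : (fun x : Fin (k + 1) → R3 => h (ℓ x) * F x) =
      (fun p : R3 × (Fin k → R3) => h p.1 * F (Fin.cons 0 p.2)) ∘
        (fun x : Fin (k + 1) → R3 => (ℓ x, fun j : Fin k => x j.succ - x 0)) := by
    funext x
    simp only [Function.comp_apply]
    rw [ht.eq_cons x]
  constructor
  · rw [hfun]
    exact hT.integrable_comp_of_integrable hprod
  · have hae : AEStronglyMeasurable (fun p : R3 × (Fin k → R3) => h p.1 * F (Fin.cons 0 p.2))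
        (Measure.map (fun x : Fin (k + 1) → R3 => (ℓ x, fun j : Fin k => x j.succ - x 0))
          volume) := by
      rw [hT.map_eq]
      exact hprod.aestronglyMeasurable
    have h1 := integral_map hT.measurable.aemeasurable hae
    rw [hT.map_eq] at h1
    have h2 : ∫ x, h (ℓ x) * F x = ∫ x : Fin (k + 1) → R3,
        (fun p : R3 × (Fin k → R3) => h p.1 * F (Fin.cons 0 p.2))
          (ℓ x, fun j : Fin k => x j.succ - x 0) := by
      rw [hfun]
      rfl
    rw [h2, ← h1]
    have h3 := integral_prod_mul (μ := (volume : Measure R3))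
      (ν := (volume : Measure (Fin k → R3))) h (fun y => F (Fin.cons 0 y))
    exact h3

/-- Converse integrability: if `h ≥ 0` has positive integral and `h(x_0) F(x)` is integrable,
then `F` is relatively integrable. -/
theorem RI_of_weight {F : (Fin (k + 1) → R3) → ℝ} (hF : Measurable F) (ht : TI F)
    {ℓ : (Fin (k + 1) → R3) → R3} (hℓm : Measurable ℓ)
    (hℓ : ∀ x v, ℓ (fun m => x m + v) = ℓ x + v) {h : R3 → ℝ} (hhm : Measurable h)
    (h0 : ∀ c, 0 ≤ h c) (hpos : 0 < ∫ c, h c) (hI : Integrable fun x => h (ℓ x) * F x) :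
    RI F := by
  have hT := mp_weight hℓm hℓ
  have hmeas : Measurable (fun p : R3 × (Fin k → R3) => h p.1 * F (Fin.cons 0 p.2)) :=
    (hhm.comp measurable_fst).mul (hF.comp (measurable_cons0.comp measurable_snd))
  have hfun : (fun x : Fin (k + 1) → R3 => h (ℓ x) * F x) =
      (fun p : R3 × (Fin k → R3) => h p.1 * F (Fin.cons 0 p.2)) ∘
        (fun x : Fin (k + 1) → R3 => (ℓ x, fun j : Fin k => x j.succ - x 0)) := by
    funext x
    simp only [Function.comp_apply]
    rw [ht.eq_cons x]
  rw [hfun] at hI
  have hprod : Integrable (fun p : R3 × (Fin k → R3) => h p.1 * F (Fin.cons 0 p.2)) volume := by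
    have := hmeas.aestronglyMeasurable (μ := (volume : Measure (R3 × (Fin k → R3))))
    rw [← hT.map_eq] at this ⊢
    rw [integrable_map_measure this hT.measurable.aemeasurable]
    exact hI
  have hae : ∀ᵐ c : R3, Integrable (fun y : Fin k → R3 => h c * F (Fin.cons 0 y)) := by
    have := Integrable.prod_right_ae (μ := (volume : Measure R3))
      (ν := (volume : Measure (Fin k → R3))) hprod
    exact this
  by_contra hcon
  have hz : ∀ᵐ c : R3, h c = 0 := by
    filter_upwards [hae] with c hc
    by_contra hne
    apply hcon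
    have := hc.const_mul (h c)⁻¹
    refine this.congr (ae_of_all _ fun y => ?_)
    simp only
    rw [← mul_assoc, inv_mul_cancel₀ hne, one_mul]
  have : ∫ c, h c = 0 := by
    rw [integral_congr_ae (g := fun _ => (0 : ℝ)) hz]
    simp
  exact hpos.ne' this

theorem mp_perm (σ : Equiv.Perm (Fin (k + 1))) :
    MeasurePreserving (fun x : Fin (k + 1) → R3 => x ∘ σ) volume volume := by
  have := volume_measurePreserving_piCongrLeft (fun _ : Fin (k + 1) => R3) σ.symm
  convert this using 1
  funext x
  funext i
  have h1 := MeasurableEquiv.piCongrLeft_apply_apply (β := fun _ : Fin (k + 1) => R3)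
    (e := σ.symm) x (σ i)
  rw [Equiv.symm_apply_apply] at h1
  rw [h1]
  rfl

/-- A weight function. -/
noncomputable def wt0 : R3 → ℝ := Set.indicator (Metric.closedBall 0 1) fun _ => 1

theorem wt0_meas : Measurable wt0 := measurable_const.indicator measurableSet_closedBall

theorem wt0_nonneg (c : R3) : 0 ≤ wt0 c := Set.indicator_nonneg (fun _ _ => zero_le_one) c

theorem wt0_int : Integrable wt0 := by
  unfold wt0
  rw [integrable_indicator_iff measurableSet_closedBall]
  exact integrableOn_const (measure_closedBall_lt_top.ne)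

theorem wt0_pos : 0 < ∫ c, wt0 c := by
  unfold wt0
  rw [integral_indicator measurableSet_closedBall]
  simp only [integral_const, MeasurableSet.univ, measureReal_restrict_apply, Set.univ_inter,
    smul_eq_mul, mul_one]
  rw [measureReal_def]
  exact ENNReal.toReal_pos (Metric.measure_closedBall_pos volume _ one_pos).ne'
    measure_closedBall_lt_top.ne

theorem TI.perm {F : (Fin (k + 1) → R3) → ℝ} (ht : TI F) (σ : Equiv.Perm (Fin (k + 1))) :
    TI fun x => F (x ∘ σ) := fun x v => ht (x ∘ σ) v

theorem measurable_comp_perm (σ : Equiv.Perm (Fin (k + 1))) :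
    Measurable fun x : Fin (k + 1) → R3 => x ∘ σ := (mp_perm σ).measurable

theorem RI_perm {F : (Fin (k + 1) → R3) → ℝ} (hF : Measurable F) (ht : TI F) (hI : RI F)
    (σ : Equiv.Perm (Fin (k + 1))) : RI fun x => F (x ∘ σ) := by
  have h1 := integral_weight hF ht hI (ℓ := fun x => x (σ.symm 0)) (measurable_pi_apply _)
    (fun x v => rfl) wt0_int
  refine RI_of_weight (hF.comp (measurable_comp_perm σ)) (ht.perm σ) (ℓ := fun x => x 0)
    (measurable_pi_apply _) (fun x v => rfl) wt0_meas wt0_nonneg wt0_pos ?_
  have h2 := (mp_perm σ).integrable_comp_of_integrable h1.1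
  refine h2.congr (ae_of_all _ fun x => ?_)
  simp only [Function.comp_apply, Equiv.apply_symm_apply]

/-- Invariance under permutations. Proof: `integral_weight` with `ℓ x = x_0`, the invariance of
the Lebesgue measure on `Fin (k+1) → R3` under permutations, and `integral_weight` with
`ℓ x = x_j`; or directly. -/
theorem rint_perm {F : (Fin (k + 1) → R3) → ℝ} (hF : Measurable F) (ht : TI F)
    (σ : Equiv.Perm (Fin (k + 1))) : (rint fun x => F (x ∘ σ)) = rint F := by
  by_cases hI : RI F
  · have h1 := integral_weight hF ht hI (ℓ := fun x => x (σ.symm 0)) (measurable_pi_apply _)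
      (fun x v => rfl) wt0_int
    have h2 := integral_weight (hF.comp (measurable_comp_perm σ)) (ht.perm σ)
      (RI_perm hF ht hI σ) (ℓ := fun x => x 0) (measurable_pi_apply _) (fun x v => rfl) wt0_int
    have h3 : ∫ x : Fin (k + 1) → R3, wt0 (x 0) * F (x ∘ σ) =
        ∫ x : Fin (k + 1) → R3, wt0 (x (σ.symm 0)) * F x := by
      have hae : AEStronglyMeasurable
          (fun x : Fin (k + 1) → R3 => wt0 (x (σ.symm 0)) * F x)
          (Measure.map (fun x : Fin (k + 1) → R3 => x ∘ σ) volume) := by
        rw [(mp_perm σ).map_eq]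
        exact h1.1.aestronglyMeasurable
      have h4 := integral_map (mp_perm σ).measurable.aemeasurable hae
      rw [(mp_perm σ).map_eq] at h4
      rw [h4]
      simp only [Function.comp_apply, Equiv.apply_symm_apply]
    have h5 : (∫ c, wt0 c) * (rint fun x => F (x ∘ σ)) = (∫ c, wt0 c) * rint F := by
      rw [← h1.2, ← h3]
      exact h2.2.symm
    exact mul_left_cancel₀ wt0_pos.ne' h5
  · have hI' : ¬ RI fun x => F (x ∘ σ) := by
      intro h
      apply hI
      have := RI_perm (hF.comp (measurable_comp_perm σ)) (ht.perm σ) h σ.symm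
      have h6 : (fun x : Fin (k + 1) → R3 => F ((x ∘ σ.symm) ∘ σ)) = F := by
        funext x
        congr 1
        funext i
        simp
      have h7 : RI (fun x : Fin (k + 1) → R3 => F ((x ∘ σ.symm) ∘ σ)) := this
      rwa [h6] at h7
    unfold rint
    rw [integral_undef hI, integral_undef hI']

theorem cons_neg0 (y : Fin k → R3) :
    (-(Fin.cons 0 y : Fin (k + 1) → R3)) = Fin.cons 0 (-y) := by
  funext m
  refine Fin.cases ?_ (fun j => ?_) m
  · simp
  · simp

theorem rint_neg (F : (Fin (k + 1) → R3) → ℝ) : (rint fun x => F (-x)) = rint F := by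
  unfold rint
  simp only [cons_neg0]
  exact integral_neg_eq_self (fun y : Fin k → R3 => F (Fin.cons 0 y)) volume

theorem TI.add_right_cons {F : (Fin (k + 1) → R3) → ℝ} (ht : TI F) (c : Fin (k + 1) → R3)
    (y : Fin k → R3) :
    F (Fin.cons 0 y + c) = F (Fin.cons 0 (y + fun j : Fin k => c j.succ - c 0)) := by
  rw [ht.eq_cons]
  congr 2
  funext j
  simp [add_sub_assoc]

theorem rint_add_right {F : (Fin (k + 1) → R3) → ℝ} (ht : TI F) (c : Fin (k + 1) → R3) :
    (rint fun x => F (x + c)) = rint F := by
  unfold rint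
  simp only [ht.add_right_cons c]
  exact integral_add_right_eq_self (μ := (volume : Measure (Fin k → R3)))
    (fun y : Fin k → R3 => F (Fin.cons 0 y)) (fun j : Fin k => c j.succ - c 0)

theorem RI_add_right {F : (Fin (k + 1) → R3) → ℝ} (ht : TI F) (hI : RI F)
    (c : Fin (k + 1) → R3) : RI fun x => F (x + c) := by
  unfold RI
  simp only [ht.add_right_cons c]
  exact Integrable.comp_add_right hI (fun j : Fin k => c j.succ - c 0)

theorem cons_smul0 (c : ℝ) (y : Fin k → R3) :
    (c • (Fin.cons 0 y : Fin (k + 1) → R3)) = Fin.cons 0 (c • y) := by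
  funext m
  refine Fin.cases ?_ (fun j => ?_) m
  · simp
  · simp

theorem rint_smul (F : (Fin (k + 1) → R3) → ℝ) {c : ℝ} (hc : 0 < c) :
    (rint fun x => F (c • x)) = (c ^ (3 * k))⁻¹ * rint F := by
  unfold rint
  simp only [cons_smul0]
  rw [Measure.integral_comp_smul (μ := (volume : Measure (Fin k → R3)))
    (fun y : Fin k → R3 => F (Fin.cons 0 y)) c]
  have hfin : Module.finrank ℝ (Fin k → R3) = 3 * k := by
    rw [Module.finrank_pi_fintype]
    simp [mul_comm]
  rw [hfin, abs_of_pos (inv_pos.mpr (pow_pos hc _)), smul_eq_mul]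

end Pool.Agent.Lib.MP_5db8e2_mp
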