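import Pool.Agent.Lib.MP_5db8e2_mp.GeoD
import Pool.Agent.Lib.MP_5db8e2_mp.RintA

/-!
# The relative integral: integration by parts and averages
-/

set_option autoImplicit false

open MeasureTheory Filter Topology

namespace Pool.Agent.Lib.MP_5db8e2_mp

variable {k : ℕ}

/-- The coordinate vector `e_{m,a}`. -/
private noncomputable def ev (m : Fin k) (a : Fin 3) : Fin k → R3 := Pi.single m (Pi.single a 1)

private theorem pd_eq_ev (φ : (Fin k → R3) → ℝ) (m : Fin k) (a : Fin 3) (x : Fin k → R3) :
    pd φ m a x = fderiv ℝ φ x (ev m a) := rfl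

/-- A continuous translation invariant function with bounded relative support is bounded. -/
theorem rc_exists_bound_of_TI {F : (Fin (k + 1) → R3) → ℝ} (hF : Continuous F) (ht : TI F) {R : ℝ}
    (hR : ∀ x, F x ≠ 0 → rad x ≤ R) : ∃ B, 0 ≤ B ∧ ∀ x, |F x| ≤ B := by
  have hK : IsCompact (Metric.closedBall (0 : Fin k → R3) (2 * R)) := isCompact_closedBall _ _
  obtain ⟨B, hB⟩ := hK.exists_bound_of_continuousOn
    (f := fun y => F (Fin.cons 0 y)) (hF.comp continuous_cons0).continuousOn
  refine ⟨max B 0, le_max_right _ _, fun x => ?_⟩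
  by_cases hx : F x = 0
  · rw [hx, abs_zero]; exact le_max_right _ _
  · rw [TI_eq_cons ht x]
    refine (hB _ ?_).trans (le_max_left _ _)
    rw [mem_closedBall_zero_iff]
    refine (norm_le_rad_cons _).trans ?_
    have h1 : rad (Fin.cons 0 fun m => x m.succ - x 0 : Fin (k + 1) → R3) = rad x :=
      (TI_eq_cons TI_rad x).symm
    rw [h1]
    have := hR x hx
    linarith

theorem rc_RI_of_cont {F : (Fin (k + 1) → R3) → ℝ} (hF : Continuous F) (ht : TI F) {R : ℝ}
    (hR : ∀ x, F x ≠ 0 → rad x ≤ R) : RI F := by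
  obtain ⟨B, -, hB⟩ := rc_exists_bound_of_TI hF ht hR
  exact RI_of_bdd hF.measurable hB hR

/-- The relative integral of a derivative vanishes. For `m = i.succ` this is
`integral_bilinear_hasLineDerivAt_right_eq_neg_left_of_integrable` or Fubini; for `m = 0` use
`∑ m, pd F m a = 0`. -/
theorem rint_pd_eq_zero {F : (Fin (k + 1) → R3) → ℝ} (hF : ContDiff ℝ 1 F) (ht : TI F)
    (hI : RI F) (hI' : ∀ m a, RI (pd F m a)) (m : Fin (k + 1)) (a : Fin 3) :
    rint (pd F m a) = 0 := by
  have hs : ∀ i : Fin k, rint (pd F i.succ a) = 0 := by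
    intro i
    have hd : ∀ y : Fin k → R3, HasLineDerivAt ℝ (fun y : Fin k → R3 => F (Fin.cons 0 y))
        (pd F i.succ a (Fin.cons 0 y)) y (ev i a) := by
      intro y
      have h1 : HasFDerivAt F (fderiv ℝ F (Fin.cons 0 y)) (Fin.cons 0 y) :=
        ((hF.differentiable (by norm_num)) _).hasFDerivAt
      have h2 := h1.hasLineDerivAt (ev i.succ a)
      have e : ∀ t : ℝ, (Fin.cons 0 (y + t • ev i a) : Fin (k + 1) → R3) =
          Fin.cons 0 y + t • ev i.succ a := by
        intro t
        ext j b
        refine Fin.cases ?_ (fun j => ?_) j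
        · simp [ev, (Fin.succ_ne_zero i).symm]
        · simp only [Fin.cons_succ, Pi.add_apply, Pi.smul_apply, ev, Pi.single_apply,
            Fin.succ_inj]
      unfold HasLineDerivAt at h2 ⊢
      simp only [e]
      exact h2
    have h := integral_bilinear_hasLineDerivAt_right_eq_neg_left_of_integrable
      (μ := (volume : Measure (Fin k → R3)))
      (f := fun _ => (1 : ℝ)) (f' := fun _ => 0) (g := fun y : Fin k → R3 => F (Fin.cons 0 y))
      (g' := fun y => pd F i.succ a (Fin.cons 0 y)) (v := ev i a)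
      (B := ContinuousLinearMap.mul ℝ ℝ) (by simp) (by simpa [RI] using hI' i.succ a)
      (by simpa [RI] using hI)
      (fun x _ => by simpa using (hasFDerivAt_const (1 : ℝ) x).hasLineDerivAt (ev i a))
      (fun x _ => hd x)
    simpa [rint] using h
  refine Fin.cases ?_ hs m
  have h0 : pd F 0 a = fun x => -∑ i : Fin k, pd F i.succ a x := by
    ext x
    have := TI_sum_pd ht ((hF.differentiable (by norm_num)) x) a
    rw [Fin.sum_univ_succ] at this
    linarith
  rw [h0, rint_neg', rint_sum _ _ (fun i _ => hI' _ _)]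
  simp [hs]

/-- Integration by parts against a test function. -/
theorem rint_gg_eq {G ζ : (Fin (k + 1) → R3) → ℝ} (hG : ContDiff ℝ 2 G) (hGt : TI G)
    (hζ : TF ζ) :
    rint (gg G ζ) = - rint fun x => (∑ m, ∑ a, pd (fun x => pd G m a x) m a x) * ζ x := by
  obtain ⟨R, hR⟩ := hζ.supp
  have hG2 : ContDiff ℝ ((1 : ℕ) + 1) G := by
    have : (((1 : ℕ) : WithTop ℕ∞) + 1) = 2 := by norm_num
    rw [this]
    exact hG
  have hpG : ∀ m a, ContDiff ℝ 1 (pd G m a) := fun m a => by
    simpa using contDiff_pd (n := 1) hG2 m a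
  have hGd : ∀ m a, TI (pd G m a) := fun m a => TI_pd hGt m a
  -- the products
  have hF1 : ∀ m a, ContDiff ℝ 1 (fun x => pd G m a x * ζ x) := fun m a => (hpG m a).mul hζ.c1
  have hFt : ∀ m a, TI (fun x => pd G m a x * ζ x) := by
    intro m a x v
    simp only
    rw [hGd m a x v, hζ.ti x v]
  have hFs : ∀ m a x, (fun x => pd G m a x * ζ x) x ≠ 0 → rad x ≤ R := by
    intro m a x hx
    exact hR x (right_ne_zero_of_mul hx)
  have hRI : ∀ m a m' a', RI (pd (fun x => pd G m a x * ζ x) m' a') := by
    intro m a m' a'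
    exact rc_RI_of_cont (continuous_pd (hF1 m a) m' a') (TI_pd (hFt m a) m' a')
      (pd_eq_zero_of_rad (hF1 m a) (hFs m a) m' a')
  have hz : ∀ m a, rint (pd (fun x => pd G m a x * ζ x) m a) = 0 := fun m a =>
    rint_pd_eq_zero (hF1 m a) (hFt m a) (rc_RI_of_cont (hF1 m a).continuous (hFt m a) (hFs m a))
      (hRI m a) m a
  have hexp : ∀ m a x, pd (fun x => pd G m a x * ζ x) m a x =
      pd G m a x * pd ζ m a x + pd (fun x => pd G m a x) m a x * ζ x := by
    intro m a x
    exact pd_mul ((hpG m a).differentiable (by norm_num) x)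
      (hζ.c1.differentiable (by norm_num) x) m a
  have hI1 : RI (gg G ζ) := by
    refine rc_RI_of_cont (continuous_gg (hG.of_le (by norm_num)) hζ.c1) (TI_gg hGt hζ.ti) (R := R)
      fun x hx => ?_
    by_contra hcon
    apply hx
    unfold gg
    refine Finset.sum_eq_zero fun m _ => Finset.sum_eq_zero fun a _ => ?_
    have : pd ζ m a x = 0 := by
      by_contra h0
      exact hcon (pd_eq_zero_of_rad hζ.c1 hR m a x h0)
    rw [this, mul_zero]
  have hLt : TI (fun x => (∑ m, ∑ a, pd (fun x => pd G m a x) m a x) * ζ x) := by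
    intro x v
    simp only
    rw [hζ.ti x v]
    congr 1
    refine Finset.sum_congr rfl fun m _ => Finset.sum_congr rfl fun a _ => ?_
    exact TI_pd (hGd m a) m a x v
  have hI2 : RI (fun x => (∑ m, ∑ a, pd (fun x => pd G m a x) m a x) * ζ x) := by
    refine rc_RI_of_cont ?_ hLt (R := R) fun x hx => hR x (right_ne_zero_of_mul hx)
    refine Continuous.mul (continuous_finsetSum _ fun m _ => continuous_finsetSum _ fun a _ => ?_)
      hζ.c1.continuous
    exact continuous_pd (hpG m a) m a
  have hsum : (fun x => gg G ζ x + (∑ m, ∑ a, pd (fun x => pd G m a x) m a x) * ζ x) =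
      fun x => ∑ m, ∑ a, pd (fun x => pd G m a x * ζ x) m a x := by
    ext x
    simp only [hexp]
    unfold gg
    rw [Finset.sum_mul, ← Finset.sum_add_distrib]
    refine Finset.sum_congr rfl fun m _ => ?_
    rw [Finset.sum_mul, ← Finset.sum_add_distrib]
  have h := rint_add hI1 hI2
  rw [hsum] at h
  have h3 : rint (fun x => ∑ m, ∑ a, pd (fun x => pd G m a x * ζ x) m a x) = 0 := by
    rw [rint_sum]
    · refine Finset.sum_eq_zero fun m _ => ?_
      rw [rint_sum]
      · exact Finset.sum_eq_zero fun a _ => hz m a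
      · exact fun a _ => hRI m a m a
    · intro m _
      unfold RI
      exact integrable_finsetSum _ fun a _ => hRI m a m a
  linarith

/-! ### From the relative weak equation to the full one -/

/-- The average `z̄(x) = ∫ v(t) z(x - cm x + t) dt` of a test function over the translations. -/
noncomputable def avg (v : R3 → ℝ) (z : (Fin (k + 1) → R3) → ℝ) (x : Fin (k + 1) → R3) : ℝ :=
  ∫ t, v t * z fun m => x m - cm x + t

/-- The centre of mass as a continuous linear map. -/
private noncomputable def cmL : (Fin (k + 1) → R3) →L[ℝ] R3 :=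
  ContinuousLinearMap.pi fun a =>
    ((k + 1 : ℕ) : ℝ)⁻¹ • ∑ m : Fin (k + 1), (ContinuousLinearMap.proj a : R3 →L[ℝ] ℝ).comp
      (ContinuousLinearMap.proj m : (Fin (k + 1) → R3) →L[ℝ] R3)

private theorem cmL_apply (x : Fin (k + 1) → R3) : cmL x = cm x := by
  ext a
  simp [cmL, cm, div_eq_inv_mul]

/-- The projection which forgets the centre of mass. -/
private noncomputable def pL : (Fin (k + 1) → R3) →L[ℝ] (Fin (k + 1) → R3) :=
  ContinuousLinearMap.id ℝ _ - ContinuousLinearMap.pi fun _ => cmL

private theorem pL_apply (x : Fin (k + 1) → R3) : pL x = fun m => x m - cm x := by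
  ext m a
  simp [pL, cmL_apply]

private noncomputable def sh (x : Fin (k + 1) → R3) (t : R3) : Fin (k + 1) → R3 :=
  fun m => x m - cm x + t

private theorem sh_eq (x : Fin (k + 1) → R3) (t : R3) : sh x t = pL x + fun _ => t := by
  ext m a
  simp [sh, pL_apply]

private theorem cm_sh (x : Fin (k + 1) → R3) (t : R3) : cm (sh x t) = t := by
  unfold sh
  rw [cm_shift (Nat.succ_ne_zero k) (fun m => x m - cm x) t]
  have h : cm (fun m => x m - cm x) = 0 := by
    have := cm_shift (Nat.succ_ne_zero k) x (-cm x)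
    simpa [sub_eq_add_neg] using this
  rw [h, zero_add]

private theorem rad_sh (x : Fin (k + 1) → R3) (t : R3) : rad (sh x t) = rad x := by
  unfold sh
  rw [TI_rad (fun m => x m - cm x) t, rad_sub_cm (Nat.succ_ne_zero k)]

private theorem continuous_sh : Continuous (fun p : (Fin (k + 1) → R3) × R3 => sh p.1 p.2) := by
  simp only [sh_eq]
  exact (pL.continuous.comp continuous_fst).add (continuous_pi fun _ => continuous_snd)

/-- Radius of the support in the translation variable. -/
private theorem exists_tsupp {z : (Fin (k + 1) → R3) → ℝ} (hzs : HasCompactSupport z) :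
    ∃ T : ℝ, ∀ x t, z (sh x t) ≠ 0 → ‖t‖ ≤ T := by
  obtain ⟨T, hT⟩ := hzs.isCompact.exists_bound_of_continuousOn (f := fun x => cm x)
    continuous_cm.continuousOn
  refine ⟨T, fun x t h => ?_⟩
  have := hT (sh x t) (subset_tsupport _ h)
  rwa [cm_sh] at this

private theorem exists_tsupp' {z : (Fin (k + 1) → R3) → ℝ} (hzs : HasCompactSupport z) :
    ∃ T : ℝ, ∀ x t, sh x t ∈ tsupport z → ‖t‖ ≤ T := by
  obtain ⟨T, hT⟩ := hzs.isCompact.exists_bound_of_continuousOn (f := fun x => cm x)
    continuous_cm.continuousOn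
  refine ⟨T, fun x t h => ?_⟩
  have := hT (sh x t) h
  rwa [cm_sh] at this

private theorem integrable_ind (C T : ℝ) :
    Integrable (fun t : R3 => Set.indicator (Metric.closedBall (0 : R3) T) (fun _ => C) t) := by
  rw [integrable_indicator_iff Metric.isClosed_closedBall.measurableSet]
  exact integrableOn_const measure_closedBall_lt_top.ne (by simp)

private theorem avg_integrable {v : R3 → ℝ} {z : (Fin (k + 1) → R3) → ℝ} (hv : Measurable v)
    (hvb : ∃ C, ∀ c, |v c| ≤ C) (hz : Continuous z) (hzs : HasCompactSupport z)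
    (x : Fin (k + 1) → R3) : Integrable (fun t => v t * z (sh x t)) := by
  obtain ⟨C, hC⟩ := hvb
  obtain ⟨T, hT⟩ := exists_tsupp hzs
  obtain ⟨D, hD⟩ := hz.bounded_above_of_compact_support hzs
  have hC0 : 0 ≤ C := (abs_nonneg _).trans (hC 0)
  refine (integrable_ind (C * D) T).mono' ?_ ?_
  · exact (hv.mul (hz.comp (continuous_sh.comp (by fun_prop :
      Continuous fun t : R3 => (x, t)))).measurable).aestronglyMeasurable
  · refine Eventually.of_forall fun t => ?_
    by_cases h : z (sh x t) = 0
    · rw [h, mul_zero, norm_zero]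
      exact Set.indicator_nonneg (fun _ _ => mul_nonneg hC0 ((norm_nonneg _).trans (hD 0))) _
    · rw [Set.indicator_of_mem (by rw [mem_closedBall_zero_iff]; exact hT x t h), norm_mul]
      exact mul_le_mul (hC t) (hD _) (norm_nonneg _) hC0

private noncomputable def avgD (v : R3 → ℝ) (z : (Fin (k + 1) → R3) → ℝ) (x : Fin (k + 1) → R3)
    (t : R3) : (Fin (k + 1) → R3) →L[ℝ] ℝ := v t • (fderiv ℝ z (sh x t)).comp pL

private theorem avgD_bound {v : R3 → ℝ} {z : (Fin (k + 1) → R3) → ℝ}
    (hvb : ∃ C, ∀ c, |v c| ≤ C) (hz : ContDiff ℝ 1 z) (hzs : HasCompactSupport z) :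
    ∃ C T : ℝ, ∀ x t, ‖avgD v z x t‖ ≤
      Set.indicator (Metric.closedBall (0 : R3) T) (fun _ => C) t := by
  obtain ⟨C, hC⟩ := hvb
  obtain ⟨T, hT⟩ := exists_tsupp' hzs
  have hC0 : 0 ≤ C := (abs_nonneg _).trans (hC 0)
  obtain ⟨D, hD⟩ := (hz.continuous_fderiv (by norm_num)).bounded_above_of_compact_support
    (hzs.fderiv (𝕜 := ℝ))
  have hD0 : 0 ≤ D := (norm_nonneg _).trans (hD 0)
  refine ⟨C * (D * ‖(pL : (Fin (k + 1) → R3) →L[ℝ] (Fin (k + 1) → R3))‖), T, fun x t => ?_⟩
  by_cases h : sh x t ∈ tsupport z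
  · rw [Set.indicator_of_mem (by rw [mem_closedBall_zero_iff]; exact hT x t h)]
    unfold avgD
    rw [norm_smul]
    refine mul_le_mul (hC t) ?_ (norm_nonneg _) hC0
    refine (ContinuousLinearMap.opNorm_comp_le _ _).trans ?_
    exact mul_le_mul_of_nonneg_right (hD _) (norm_nonneg _)
  · have h0 : fderiv ℝ z (sh x t) = 0 := by
      by_contra h1
      exact h (support_fderiv_subset ℝ h1)
    unfold avgD
    rw [h0, ContinuousLinearMap.zero_comp, smul_zero, norm_zero]
    exact Set.indicator_nonneg (fun _ _ => by positivity) _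

private theorem avgD_meas {v : R3 → ℝ} {z : (Fin (k + 1) → R3) → ℝ} (hv : Measurable v)
    (hz : ContDiff ℝ 1 z) (x : Fin (k + 1) → R3) :
    AEStronglyMeasurable (avgD v z x) volume := by
  unfold avgD
  refine hv.aestronglyMeasurable.smul ?_
  have h1 : Continuous fun t => fderiv ℝ z (sh x t) :=
    (hz.continuous_fderiv (by norm_num)).comp (continuous_sh.comp (by fun_prop :
      Continuous fun t : R3 => (x, t)))
  exact (h1.clm_comp continuous_const).aestronglyMeasurable

private theorem hasFDerivAt_avg {v : R3 → ℝ} {z : (Fin (k + 1) → R3) → ℝ} (hv : Measurable v)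
    (hvb : ∃ C, ∀ c, |v c| ≤ C) (hz : ContDiff ℝ 1 z) (hzs : HasCompactSupport z)
    (x : Fin (k + 1) → R3) :
    HasFDerivAt (avg v z) (∫ t, avgD v z x t) x := by
  obtain ⟨C, T, hCT⟩ := avgD_bound hvb hz hzs
  have h := hasFDerivAt_integral_of_dominated_of_fderiv_le (𝕜 := ℝ) (μ := (volume : Measure R3))
    (F := fun x t => v t * z (sh x t)) (F' := avgD v z) (x₀ := x) (s := Set.univ)
    (bound := Set.indicator (Metric.closedBall (0 : R3) T) (fun _ => C)) univ_mem
    (Eventually.of_forall fun y =>
      (avg_integrable hv hvb hz.continuous hzs y).aestronglyMeasurable)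
    (avg_integrable hv hvb hz.continuous hzs x) (avgD_meas hv hz x)
    (Eventually.of_forall fun t y _ => hCT y t) (integrable_ind C T)
    (Eventually.of_forall fun t y _ => ?_)
  · exact h
  · have h1 : HasFDerivAt z (fderiv ℝ z (sh y t)) (sh y t) :=
      (hz.differentiable (by norm_num) _).hasFDerivAt
    have h2 : HasFDerivAt (fun y => sh y t) pL y := by
      simp only [sh_eq]
      exact (pL.hasFDerivAt).add_const _
    have h3 := (h1.comp y h2).const_smul (v t)
    exact h3

/-- `z̄` is a test function, with the derivative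
`pd z̄ m a x = ∫ v(t) (pd z m a - (k+1)⁻¹ ∑_{m'} pd z m' a)(x - cm x + t) dt`
(differentiation under the integral; the integrand vanishes for `t` outside a fixed ball, because
`cm (x - cm x + t) = t` and `z` has compact support). -/
theorem TF_avg {v : R3 → ℝ} {z : (Fin (k + 1) → R3) → ℝ} (hv : Measurable v)
    (hvb : ∃ C, ∀ c, |v c| ≤ C) (hz : ContDiff ℝ 1 z) (hzs : HasCompactSupport z) :
    TF (avg v z) := by
  refine ⟨?_, ?_, ?_⟩
  · rw [contDiff_one_iff_fderiv]
    refine ⟨fun x => (hasFDerivAt_avg hv hvb hz hzs x).differentiableAt, ?_⟩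
    have h : fderiv ℝ (avg v z) = fun x => ∫ t, avgD v z x t := by
      ext1 x
      exact (hasFDerivAt_avg hv hvb hz hzs x).fderiv
    rw [h]
    obtain ⟨C, T, hCT⟩ := avgD_bound hvb hz hzs
    refine continuous_of_dominated (fun x => avgD_meas hv hz x)
      (fun x => Eventually.of_forall fun t => hCT x t) (integrable_ind C T)
      (Eventually.of_forall fun t => ?_)
    have h1 : Continuous fun x => fderiv ℝ z (sh x t) :=
      (hz.continuous_fderiv (by norm_num)).comp (continuous_sh.comp (by fun_prop :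
        Continuous fun x : Fin (k + 1) → R3 => (x, t)))
    exact (h1.clm_comp (continuous_const (y := (pL : (Fin (k + 1) → R3) →L[ℝ] _)))).const_smul
      (v t)
  · intro x w
    unfold avg
    congr 1
    ext t
    congr 2
    ext m b
    rw [cm_shift (Nat.succ_ne_zero k) x w]
    simp only [Pi.add_apply, Pi.sub_apply]
    ring
  · obtain ⟨R, hR⟩ := hzs.isCompact.exists_bound_of_continuousOn (f := fun x => rad x)
      continuous_rad.continuousOn
    refine ⟨R, fun x hx => ?_⟩
    by_contra hcon
    apply hx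
    unfold avg
    have h0 : ∀ t, z (fun m => x m - cm x + t) = 0 := by
      intro t
      by_contra h1
      have h2 := hR (sh x t) (subset_tsupport _ h1)
      rw [rad_sh, Real.norm_of_nonneg (rad_nonneg _)] at h2
      exact hcon h2
    simp [h0]

theorem pd_avg {v : R3 → ℝ} {z : (Fin (k + 1) → R3) → ℝ} (hv : Measurable v)
    (hvb : ∃ C, ∀ c, |v c| ≤ C) (hz : ContDiff ℝ 1 z) (hzs : HasCompactSupport z)
    (m : Fin (k + 1)) (a : Fin 3) (x : Fin (k + 1) → R3) :
    pd (avg v z) m a x =
      ∫ t, v t * (pd z m a (fun m => x m - cm x + t) -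
        (∑ m', pd z m' a fun m => x m - cm x + t) / (k + 1)) := by
  rw [pd_eq_ev, (hasFDerivAt_avg hv hvb hz hzs x).fderiv]
  obtain ⟨C, T, hCT⟩ := avgD_bound hvb hz hzs
  have hI : Integrable (avgD v z x) :=
    (integrable_ind C T).mono' (avgD_meas hv hz x) (Eventually.of_forall fun t => hCT x t)
  rw [ContinuousLinearMap.integral_apply hI]
  refine integral_congr_ae (Eventually.of_forall fun t => ?_)
  simp only [avgD, smul_apply, ContinuousLinearMap.comp_apply, smul_eq_mul]
  congr 1
  have h1 : pL (ev m a : Fin (k + 1) → R3) =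
      ev m a - ((k + 1 : ℝ))⁻¹ • ∑ m' : Fin (k + 1), ev m' a := by
    rw [pL_apply]
    ext j b
    simp only [ev, cm, Pi.sub_apply, Pi.smul_apply, Finset.sum_apply, smul_eq_mul]
    rw [div_eq_inv_mul]
    congr 2
    · push_cast; rfl
    · simp only [Pi.single_apply]
      rw [Finset.sum_eq_single m (fun i _ hi => by simp [hi]) (by simp),
        Finset.sum_eq_single j (fun i _ hi => by simp [hi.symm]) (by simp)]
      simp
  rw [h1, map_sub, map_smul, map_sum, smul_eq_mul, div_eq_inv_mul]
  rfl

/-- The shear `(c, y) ↦ (0,y) + c` preserves the measure. -/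
private theorem mp_shear : MeasurePreserving
    (fun p : R3 × (Fin k → R3) => (fun m => (Fin.cons 0 p.2 : Fin (k + 1) → R3) m + p.1))
    ((volume : Measure R3).prod (volume : Measure (Fin k → R3))) volume := by
  have h1 : MeasurePreserving (fun p : R3 × (Fin k → R3) => (p.1, p.2 + fun _ => p.1))
      ((volume : Measure R3).prod (volume : Measure (Fin k → R3)))
      ((volume : Measure R3).prod (volume : Measure (Fin k → R3))) := by
    refine MeasurePreserving.skew_product (f := fun c : R3 => c)
      (g := fun (c : R3) (y : Fin k → R3) => y + fun _ => c)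
      (MeasurePreserving.id _) ?_ (Eventually.of_forall fun c => ?_)
    · exact (measurable_snd.add (measurable_pi_lambda _ fun _ => measurable_fst))
    · exact (measurePreserving_add_right _ _).map_eq
  have h2 := (volume_preserving_piFinSuccAbove (fun _ : Fin (k + 1) => R3) 0).symm
  have h3 := h2.comp h1
  have e : (fun p : R3 × (Fin k → R3) =>
      (fun m => (Fin.cons 0 p.2 : Fin (k + 1) → R3) m + p.1)) =
      ⇑(MeasurableEquiv.piFinSuccAbove (fun _ : Fin (k + 1) => R3) 0).symm ∘
        fun p => (p.1, p.2 + fun _ => p.1) := by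
    ext p m a
    refine Fin.cases ?_ (fun j => ?_) m
    · simp [MeasurableEquiv.piFinSuccAbove]
    · simp [MeasurableEquiv.piFinSuccAbove]
  rw [e]
  exact h3

/-- The key formula. -/
private theorem key {F : (Fin (k + 1) → R3) → ℝ} (hFm : Measurable F) (hFt : TI F)
    (hFb : ∃ C, ∀ x, |F x| ≤ C) {v : R3 → ℝ} {z : (Fin (k + 1) → R3) → ℝ} (hv : Measurable v)
    (hvb : ∃ C, ∀ c, |v c| ≤ C) (hz : Continuous z) (hzs : HasCompactSupport z) :
    Integrable (fun x => v (cm x) * (F x * z x)) ∧
    RI (fun x => F x * avg v z x) ∧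
    ∫ x, v (cm x) * (F x * z x) = rint fun x => F x * avg v z x := by
  obtain ⟨C, hC⟩ := hvb
  obtain ⟨D, hD⟩ := hFb
  have hzi : Integrable z := hz.integrable_of_hasCompactSupport hzs
  have hI : Integrable (fun x => v (cm x) * (F x * z x)) := by
    refine Integrable.mono' ((hzi.norm.const_mul (C * D))) ?_ ?_
    · exact ((hv.comp continuous_cm.measurable).mul (hFm.mul hz.measurable)).aestronglyMeasurable
    · refine Eventually.of_forall fun x => ?_
      rw [norm_mul, norm_mul, mul_assoc]
      refine mul_le_mul (hC _) (mul_le_mul_of_nonneg_right (hD _) (norm_nonneg _))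
        (by positivity) ((abs_nonneg _).trans (hC 0))
  have hS := mp_shear (k := k)
  have hI2 : Integrable (fun p : R3 × (Fin k → R3) =>
      (fun x => v (cm x) * (F x * z x)) (fun m => (Fin.cons 0 p.2 : Fin (k + 1) → R3) m + p.1))
      ((volume : Measure R3).prod (volume : Measure (Fin k → R3))) := by
    exact (hS.integrable_comp hI.aestronglyMeasurable).2 hI
  have hin : ∀ y : Fin k → R3, (∫ c : R3, v (cm (fun m => (Fin.cons 0 y : Fin (k + 1) → R3) m + c)) *
      (F (fun m => (Fin.cons 0 y : Fin (k + 1) → R3) m + c) *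
        z (fun m => (Fin.cons 0 y : Fin (k + 1) → R3) m + c))) =
      F (Fin.cons 0 y) * avg v z (Fin.cons 0 y) := by
    intro y
    unfold avg
    rw [← integral_const_mul, ← integral_sub_right_eq_self _ (cm (Fin.cons 0 y : Fin (k + 1) → R3))]
    refine integral_congr_ae (Eventually.of_forall fun t => ?_)
    simp only
    have e1 : (fun m => (Fin.cons 0 y : Fin (k + 1) → R3) m +
        (t - cm (Fin.cons 0 y : Fin (k + 1) → R3))) = sh (Fin.cons 0 y) t := by
      ext m a
      simp [sh]
      ring
    rw [e1, cm_sh]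
    have e2 : F (sh (Fin.cons 0 y) t) = F (Fin.cons 0 y) := by
      rw [← e1]
      exact hFt _ _
    rw [e2]
    unfold sh
    ring
  refine ⟨hI, ?_, ?_⟩
  · have := hI2.integral_prod_right
    unfold RI
    refine this.congr (Eventually.of_forall fun y => ?_)
    exact hin y
  · have h1 : ∫ x, v (cm x) * (F x * z x) = ∫ p : R3 × (Fin k → R3),
      (fun x => v (cm x) * (F x * z x)) (fun m => (Fin.cons 0 p.2 : Fin (k + 1) → R3) m + p.1)
        ∂((volume : Measure R3).prod (volume : Measure (Fin k → R3))) := by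
      conv_lhs => rw [← hS.map_eq]
      rw [integral_map hS.measurable.aemeasurable]
      rw [hS.map_eq]
      exact hI.aestronglyMeasurable
    rw [h1, integral_prod_symm _ hI2]
    unfold rint
    refine integral_congr_ae (Eventually.of_forall fun y => ?_)
    exact hin y

/-- Let `A` be a bounded translation invariant field with `∑_m A_m = 0` and `B` a bounded
translation invariant charge with `rint (A·∇ζ) = rint (B ζ)` for all test functions `ζ`; then
`∫ v(cm x) A·∇z = ∫ v(cm x) B z` for all `z ∈ C_c^1` and all bounded measurable `v`.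
Proof: by the weighted form in the variables `(cm x, relative coordinates)`,
`∫ v(cm x) B z dx = rint (B z̄)` and `∫ v(cm x) A·∇z dx = rint (A·∇z̄)`. To see
`∫ v(cm x) F(x) z(x) dx = rint (F z̄)` for translation invariant bounded `F`: by Fubini and the
measure preserving shear `x = (0,y) + x_0` the left side is
`∫dy F(0,y) ∫dx_0 v(cm(0,y) + x_0) z((0,y) + x_0)`, and the substitution `t = cm(0,y) + x_0`
gives `z̄(0,y)`. -/
theorem weak_of_rel {A : Fin (k + 1) → Fin 3 → (Fin (k + 1) → R3) → ℝ}
    {B : (Fin (k + 1) → R3) → ℝ} (hAm : ∀ m a, Measurable (A m a)) (hAt : ∀ m a, TI (A m a))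
    (hAb : ∃ C, ∀ m a x, |A m a x| ≤ C) (hA0 : ∀ a x, ∑ m, A m a x = 0)
    (hBm : Measurable B) (hBt : TI B) (hBb : ∃ C, ∀ x, |B x| ≤ C)
    (h : ∀ ζ, TF ζ → (rint fun x => ∑ m, ∑ a, A m a x * pd ζ m a x) = rint fun x => B x * ζ x)
    {v : R3 → ℝ} {z : (Fin (k + 1) → R3) → ℝ} (hv : Measurable v)
    (hvb : ∃ C, ∀ c, |v c| ≤ C) (hz : ContDiff ℝ 1 z) (hzs : HasCompactSupport z) :
    ∫ x, v (cm x) * ∑ m, ∑ a, A m a x * pd z m a x = ∫ x, v (cm x) * (B x * z x) := by
  have hpc : ∀ m a, Continuous (pd z m a) := fun m a => continuous_pd hz m a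
  have hps : ∀ m a, HasCompactSupport (pd z m a) := by
    intro m a
    exact hzs.fderiv_apply (𝕜 := ℝ) (ev m a)
  have hk : ∀ m a, _ := fun m a => key (hAm m a) (hAt m a)
    (hAb.imp fun C hC x => hC m a x) hv hvb (hpc m a) (hps m a)
  rw [(key hBm hBt hBb hv hvb hz.continuous hzs).2.2, ← h _ (TF_avg hv hvb hz hzs)]
  have e1 : (fun x => v (cm x) * ∑ m, ∑ a, A m a x * pd z m a x) =
      fun x => ∑ m, ∑ a, v (cm x) * (A m a x * pd z m a x) := by
    ext x
    rw [Finset.mul_sum]
    refine Finset.sum_congr rfl fun m _ => ?_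
    rw [Finset.mul_sum]
  rw [e1, integral_finsetSum _ fun m _ => integrable_finsetSum _ fun a _ => (hk m a).1]
  have e2 : ∀ m, ∫ x, ∑ a, v (cm x) * (A m a x * pd z m a x) =
      ∑ a, rint fun x => A m a x * avg v (pd z m a) x := by
    intro m
    rw [integral_finsetSum _ fun a _ => (hk m a).1]
    exact Finset.sum_congr rfl fun a _ => (hk m a).2.2
  simp only [e2]
  have e3 : (∑ m, ∑ a, rint fun x => A m a x * avg v (pd z m a) x) =
      rint fun x => ∑ m, ∑ a, A m a x * avg v (pd z m a) x := by
    have hRI : ∀ m, RI fun x => ∑ a, A m a x * avg v (pd z m a) x := by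
      intro m
      unfold RI
      exact integrable_finsetSum _ fun a _ => (hk m a).2.1
    rw [rint_sum _ _ fun m _ => hRI m]
    refine Finset.sum_congr rfl fun m _ => ?_
    rw [rint_sum _ _ fun a _ => (hk m a).2.1]
  rw [e3]
  congr 1
  ext x
  have e4 : ∀ m a, pd (avg v z) m a x =
      avg v (pd z m a) x - (∑ m', avg v (pd z m' a) x) / (k + 1) := by
    intro m a
    rw [pd_avg hv hvb hz hzs]
    unfold avg
    have hi : ∀ m a, Integrable (fun t => v t * pd z m a fun m => x m - cm x + t) := fun m a =>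
      avg_integrable hv hvb (hpc m a) (hps m a) x
    rw [← integral_finsetSum _ fun m' _ => hi m' a, ← integral_div, ← integral_sub (hi m a)
      ((integrable_finsetSum _ fun m' _ => hi m' a).div_const _)]
    refine integral_congr_ae (Eventually.of_forall fun t => ?_)
    simp only
    rw [← Finset.mul_sum]
    ring
  simp only [e4]
  rw [Finset.sum_comm]
  conv_rhs => rw [Finset.sum_comm]
  refine Finset.sum_congr rfl fun a _ => ?_
  simp only [mul_sub, Finset.sum_sub_distrib]
  rw [← Finset.sum_mul, hA0 a x, zero_mul, sub_zero]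

end Pool.Agent.Lib.MP_5db8e2_mp
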