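import Pool.Agent.Lib.MP_5db8e2_mp.SolveB

/-!
# The scattering function: existence and bounds
-/

set_option autoImplicit false

open MeasureTheory Filter Topology

namespace Pool.Agent.Lib.MP_5db8e2_mp

variable {V : R3 → R3 → ℝ}

/-! ### Integrability -/

theorem RI_of_cont {k : ℕ} {F : (Fin (k + 1) → R3) → ℝ} (hF : Continuous F) {R : ℝ}
    (hR : ∀ x, F x ≠ 0 → rad x ≤ R) : RI F := by
  have h1 : Continuous fun y : Fin k → R3 => F (Fin.cons 0 y) := hF.comp continuous_cons0
  refine h1.integrable_of_hasCompactSupport ?_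
  refine HasCompactSupport.intro (isCompact_closedBall (0 : Fin k → R3) (2 * R)) ?_
  intro y hy
  by_contra h
  apply hy
  rw [mem_closedBall_zero_iff]
  have h2 := norm_le_rad_cons y
  have h3 := hR _ h
  linarith

theorem RI_V3_mul (hV : Pot V) {F : (Fin 3 → R3) → ℝ} (hF : Continuous F) {R : ℝ}
    (hR : ∀ x, F x ≠ 0 → rad x ≤ R) : RI fun x => V3 V x * F x := by
  obtain ⟨hm, h0, -, -, B, hB, -, -, hb, -⟩ := V3_props hV
  have h1 : RI (fun x => B * |F x|) := by
    refine RI_of_cont (continuous_const.mul hF.abs) (R := R) ?_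
    intro x hx
    apply hR
    intro h
    apply hx
    rw [h, abs_zero, mul_zero]
  refine RI.mono h1 (hm.mul hF.measurable) ?_
  intro x
  rw [abs_mul, abs_of_nonneg (h0 x)]
  exact mul_le_mul_of_nonneg_right (hb x) (abs_nonneg _)

theorem gg_supp {k : ℕ} {φ z : (Fin k → R3) → ℝ} (hz : ContDiff ℝ 1 z) {R : ℝ}
    (hR : ∀ x, z x ≠ 0 → rad x ≤ R) (x : Fin k → R3) (hx : gg φ z x ≠ 0) : rad x ≤ R := by
  rw [gg] at hx
  obtain ⟨m, -, hm⟩ := Finset.exists_ne_zero_of_sum_ne_zero hx
  obtain ⟨a, -, ha⟩ := Finset.exists_ne_zero_of_sum_ne_zero hm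
  exact pd_eq_zero_of_rad hz hR m a x (right_ne_zero_of_mul ha)

theorem gg_neg_left {k : ℕ} {φ z : (Fin k → R3) → ℝ} (x : Fin k → R3) :
    gg (fun x => -φ x) z x = -gg φ z x := by
  simp only [gg, pd_neg, neg_mul, Finset.sum_neg_distrib]

/-- The truncations are test functions. -/
theorem TF_sq_pos {k : ℕ} {g : (Fin k → R3) → ℝ} (hg : ContDiff ℝ 1 g) (ht : TI g) {ε : ℝ}
    (hinf : ∃ R, ∀ x, ε < g x → rad x ≤ R) : TF fun x => max (g x - ε) 0 ^ 2 := by
  refine ⟨(contDiff_sq_pos ε).comp hg, ?_, ?_⟩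
  · intro x v
    simp only [ht x v]
  · obtain ⟨R, hR⟩ := hinf
    refine ⟨R, fun x hx => hR x ?_⟩
    by_contra h
    apply hx
    rw [max_eq_right (by linarith), zero_pow two_ne_zero]

theorem lt_of_sq_pos_ne {t ε : ℝ} (h : max (t - ε) 0 ^ 2 ≠ 0) : ε < t := by
  by_contra h'
  apply h
  rw [max_eq_right (by linarith), zero_pow two_ne_zero]

/-- Functions with polynomial decay are small far away. -/
theorem rad_le_of_decay {k : ℕ} {g : (Fin k → R3) → ℝ} {C : ℝ}
    (hb : ∀ x, |g x| ≤ C / (1 + rad x) ^ 4) {ε : ℝ} (hε : 0 < ε) (x : Fin k → R3)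
    (hx : ε < g x) : rad x ≤ C / ε := by
  have h0 := rad_nonneg x
  have h1 : ε < C / (1 + rad x) ^ 4 := lt_of_lt_of_le hx ((le_abs_self _).trans (hb x))
  have h2 : 0 < (1 + rad x) ^ 4 := by positivity
  rw [lt_div_iff₀ h2] at h1
  rw [le_div_iff₀ hε]
  have h3 : rad x ≤ (1 + rad x) ^ 4 := by
    have h4 : 1 + rad x ≤ (1 + rad x) ^ 4 := le_self_pow₀ (by linarith) (by norm_num)
    linarith
  nlinarith

/-- The solution as `φ = Newt (V (1 - φ))`, with the elementary properties: `C¹`, invariances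
(`TI_Newt`; `PI` from `Newt_perm` and `unique_f`), decay (`Newt_decay` with `k = 2`). -/
theorem exists_phi (hV : Pot V) : ∃ φ : (Fin 3 → R3) → ℝ, ContDiff ℝ 1 φ ∧ TI φ ∧ PI φ ∧
    (∃ C > 0, ∀ x, |φ x| ≤ C / (1 + rad x) ^ 4 ∧ ∀ m a, |pd φ m a x| ≤ C / (1 + rad x) ^ 5) ∧
    (∀ x, φ x = Newt (fun y => V3 V y * (1 - φ y)) x) := by
  obtain ⟨f, hfc, ⟨C0, hC0⟩, hfe⟩ := exists_f hV
  obtain ⟨hVm, hV0, hVt, hVp, -⟩ := V3_props hV
  obtain ⟨B, hB, R, hR, hchg⟩ := chg_V3_mul hV
  have hC0' : ∀ x, |f x| ≤ |C0| + 1 := fun x => (hC0 x).trans (by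
    have := le_abs_self C0
    linarith)
  have hch : Chg (B * (|C0| + 1)) R (fun x => V3 V x * f x) := hchg _ f hfc.measurable hC0'
  set φ : (Fin 3 → R3) → ℝ := Newt (fun y => V3 V y * f y) with hφ
  have hf1 : ∀ x, 1 - φ x = f x := fun x => (hfe x).symm
  have hft : TI f := by
    intro x v
    rw [hfe, hfe x, hφ, TI_Newt _ x v]
  have hVft : TI (fun x => V3 V x * f x) := fun x v => by
    change V3 V _ * f _ = V3 V x * f x
    rw [hVt x v, hft x v]
  have hfp : PI f := by
    intro σ x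
    have hcont : Continuous fun x : Fin 3 → R3 => x ∘ σ := by
      refine continuous_pi fun m => ?_
      exact continuous_apply (σ m)
    have h1 := unique_f hV hfc ⟨C0, hC0⟩ hfe (f' := fun x => f (x ∘ σ)) (hfc.comp hcont)
      ⟨C0, fun x => hC0 _⟩ ?_ x
    · exact h1.symm
    · intro x
      have hVfm : Measurable (fun x => V3 V x * f x) := hVm.mul hfc.measurable
      rw [hfe, hφ, Newt_perm hVfm hVft]
      congr 2
      funext y
      rw [hVp σ y]
  refine ⟨φ, (contDiff_Newt (by norm_num) hch).1, TI_Newt _, ?_, ?_, ?_⟩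
  · intro σ x
    have h1 := hf1 (x ∘ σ)
    have h2 := hf1 x
    have h3 := hfp σ x
    linarith
  · obtain ⟨C, hC, hd⟩ := Newt_decay (k := 2) (by norm_num) hR.le
    refine ⟨C * (B * (|C0| + 1)), by positivity, fun x => ?_⟩
    exact hd _ _ hch x
  · intro x
    rw [hφ]
    congr 1
    funext y
    rw [← hf1 y]

/-- The relative weak equation, for test functions (`Newt_weak`). -/
theorem phi_weak (hV : Pot V) {φ : (Fin 3 → R3) → ℝ} (hφ : ContDiff ℝ 1 φ)
    (hb : ∃ C, ∀ x, |φ x| ≤ C) (he : ∀ x, φ x = Newt (fun y => V3 V y * (1 - φ y)) x)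
    {ζ : (Fin 3 → R3) → ℝ} (hζ : TF ζ) :
    rint (gg φ ζ) = rint fun x => V3 V x * (1 - φ x) * ζ x := by
  obtain ⟨C, hC⟩ := hb
  obtain ⟨B, hB, R, hR, hchg⟩ := chg_V3_mul hV
  have hch : Chg (B * (1 + C)) R (fun x => V3 V x * (1 - φ x)) := by
    refine hchg _ _ (continuous_const.sub hφ.continuous).measurable ?_
    intro x
    have h1 := abs_sub (1 : ℝ) (φ x)
    have h2 := hC x
    rw [abs_one] at h1
    linarith
  have h1 := Newt_weak (by norm_num) hch hζ
  have h2 : Newt (fun y => V3 V y * (1 - φ y)) = φ := (funext he).symm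
  rw [h2] at h1
  exact h1

/-- `φ ≥ 0`: `le_zero_of_weak` for `g = -φ`: with `z = ((-φ-ε)⁺)²`,
`rint (gg (-φ) z) = -rint (V (1-φ) z) ≤ 0`, because `1 - φ > 1` where `z ≠ 0`. -/
theorem phi_nonneg (hV : Pot V) {φ : (Fin 3 → R3) → ℝ} (hφ : ContDiff ℝ 1 φ) (ht : TI φ)
    {C : ℝ} (hb : ∀ x, |φ x| ≤ C / (1 + rad x) ^ 4)
    (he : ∀ x, φ x = Newt (fun y => V3 V y * (1 - φ y)) x) (x : Fin 3 → R3) : 0 ≤ φ x := by
  obtain ⟨hVm, hV0, -⟩ := V3_props hV
  have hb' : ∀ x, |-φ x| ≤ C / (1 + rad x) ^ 4 := fun x => by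
    rw [abs_neg]
    exact hb x
  have hC : 0 ≤ C := by
    have h1 := (abs_nonneg _).trans (hb x)
    have h2 : 0 < (1 + rad x) ^ 4 := by
      have := rad_nonneg x
      positivity
    by_contra h
    have h3 := div_neg_of_neg_of_pos (not_le.mp h) h2
    linarith
  have hbb : ∃ C, ∀ x, |φ x| ≤ C := ⟨C, fun x => (hb x).trans (by
    have := rad_nonneg x
    exact div_le_self hC (one_le_pow₀ (by linarith)))⟩
  have hinf : ∀ ε > 0, ∃ R, ∀ x, ε < -φ x → rad x ≤ R := fun ε hε =>
    ⟨C / ε, fun x hx => rad_le_of_decay hb' hε x hx⟩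
  have ht' : TI (fun x => -φ x) := fun x v => by
    change -φ _ = -φ x
    rw [ht x v]
  have h := le_zero_of_weak (k := 2) (by norm_num) hφ.neg ht' hinf ?_ x
  · linarith
  · intro ε hε
    have hz := TF_sq_pos hφ.neg ht' (hinf ε hε)
    have h1 : rint (gg (fun x => -φ x) fun x => max (-φ x - ε) 0 ^ 2) =
        -rint (gg φ fun x => max (-φ x - ε) 0 ^ 2) := by
      rw [← rint_neg']
      congr 1
      funext x
      exact gg_neg_left x
    rw [h1, phi_weak hV hφ hbb he hz, neg_nonpos]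
    refine rint_nonneg fun x => ?_
    by_cases h2 : max (-φ x - ε) 0 ^ 2 = 0
    · rw [h2, mul_zero]
    · have h3 := lt_of_sq_pos_ne h2
      have h4 := hV0 x
      have h5 : 0 ≤ 1 - φ x := by linarith
      positivity

/-- `1 - φ ≥ exp (- Newt V)`. Let `u = Newt V`, `q = exp (-u)`, `g = q - (1 - φ) = q - 1 + φ`;
`g → 0` at infinity. With `z = ((g-ε)⁺)²` (a test function) and `q z` (a test function):
`rint (gg u (q z)) = rint (V q z)` and `gg u (q z) = q gg u z - z q gg u u`, `gg q z = - q gg u z`,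
so `rint (gg q z) = - rint (V q z) - rint (z q gg u u) ≤ -rint (V q z)`; together with
`rint (gg φ z) = rint (V (1-φ) z)`: `rint (gg g z) ≤ rint (V (1 - φ - q) z) ≤ 0` because
`1 - φ < q` where `z ≠ 0`. Since `u` is bounded above, `1 - φ ≥ c > 0`. -/
theorem phi_lt_one (hV : Pot V) {φ : (Fin 3 → R3) → ℝ} (hφ : ContDiff ℝ 1 φ) (ht : TI φ)
    {C : ℝ} (hb : ∀ x, |φ x| ≤ C / (1 + rad x) ^ 4)
    (he : ∀ x, φ x = Newt (fun y => V3 V y * (1 - φ y)) x) : ∃ c > 0, ∀ x, φ x ≤ 1 - c := by
  obtain ⟨hVm, hV0, -⟩ := V3_props hV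
  have hC : 0 ≤ C := by
    have h1 := (abs_nonneg _).trans (hb 0)
    have h2 : 0 < (1 + rad (0 : Fin 3 → R3)) ^ 4 := by
      have := rad_nonneg (0 : Fin 3 → R3)
      positivity
    by_contra h
    have h3 := div_neg_of_neg_of_pos (not_le.mp h) h2
    linarith
  have hbb : ∃ C, ∀ x, |φ x| ≤ C := ⟨C, fun x => (hb x).trans (by
    have := rad_nonneg x
    exact div_le_self hC (one_le_pow₀ (by linarith)))⟩
  obtain ⟨B, hB, R, hR, hchg⟩ := chg_V3_mul hV
  have hch : Chg (B * 1) R (fun x => V3 V x * 1) :=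
    hchg 1 (fun _ => 1) measurable_const (fun x => by rw [abs_one])
  set u : (Fin 3 → R3) → ℝ := Newt (fun y => V3 V y * 1) with hu
  obtain ⟨Cu, hCu, hd⟩ := Newt_decay (k := 2) (by norm_num) hR.le
  have hub : ∀ x, |u x| ≤ Cu * (B * 1) / (1 + rad x) ^ 4 := fun x => (hd _ _ hch x).1
  have hu0 : ∀ x, 0 ≤ u x := fun x => Newt_nonneg (by norm_num) (fun y => by
    rw [mul_one]
    exact hV0 y) x
  have huc : ContDiff ℝ 1 u := (contDiff_Newt (by norm_num) hch).1
  have hut : TI u := TI_Newt _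
  set D : ℝ := Cu * (B * 1) with hD
  have hD0 : 0 ≤ D := by positivity
  have huD : ∀ x, u x ≤ D := fun x => (le_abs_self _).trans ((hub x).trans (by
    have := rad_nonneg x
    exact div_le_self hD0 (one_le_pow₀ (by linarith))))
  set q : (Fin 3 → R3) → ℝ := fun x => Real.exp (-u x) with hq
  have hqc : ContDiff ℝ 1 q := Real.contDiff_exp.comp huc.neg
  have hqt : TI q := fun x v => by
    change Real.exp (-u _) = Real.exp (-u x)
    rw [hut x v]
  have hq1 : ∀ x, q x ≤ 1 := fun x => Real.exp_le_one_iff.mpr (neg_nonpos.mpr (hu0 x))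
  have hqu : ∀ x, 1 - q x ≤ u x := fun x => by
    have := Real.add_one_le_exp (-u x)
    change 1 - Real.exp (-u x) ≤ u x
    linarith
  set g : (Fin 3 → R3) → ℝ := fun x => q x + (φ x - 1) with hg
  have hφ1 : ContDiff ℝ 1 (fun x => φ x - 1) := hφ.sub contDiff_const
  have hgc : ContDiff ℝ 1 g := hqc.add hφ1
  have hgt : TI g := fun x v => by
    change q _ + (φ _ - 1) = q x + (φ x - 1)
    rw [hqt x v, ht x v]
  have hgb : ∀ x, |g x| ≤ (D + C) / (1 + rad x) ^ 4 := by
    intro x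
    rw [add_div]
    have h1 : g x = φ x - (1 - q x) := by
      change q x + (φ x - 1) = _
      ring
    rw [h1]
    refine (abs_sub _ _).trans ?_
    have h2 : |1 - q x| ≤ D / (1 + rad x) ^ 4 := by
      rw [abs_of_nonneg (by linarith [hq1 x])]
      exact (hqu x).trans ((le_abs_self _).trans (hub x))
    have h3 := hb x
    linarith
  have hinf : ∀ ε > 0, ∃ R, ∀ x, ε < g x → rad x ≤ R := fun ε hε =>
    ⟨(D + C) / ε, fun x hx => rad_le_of_decay hgb hε x hx⟩
  have hmain : ∀ x, g x ≤ 0 := by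
    refine le_zero_of_weak (k := 2) (by norm_num) hgc hgt hinf ?_
    intro ε hε
    set z : (Fin 3 → R3) → ℝ := fun x => max (g x - ε) 0 ^ 2 with hz
    have hzT : TF z := TF_sq_pos hgc hgt (hinf ε hε)
    obtain ⟨Rz, hRz⟩ := hzT.supp
    have hqz : TF (fun x => q x * z x) := TF.mul hzT hqc hqt
    have hRqz : ∀ x, q x * z x ≠ 0 → rad x ≤ Rz := fun x hx => hRz x (right_ne_zero_of_mul hx)
    have e1 := Newt_weak (k := 2) (by norm_num) hch hqz
    have e2 := phi_weak hV hφ hbb he hzT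
    have hgq : ∀ x, gg q z x = -(q x * gg u z x) := by
      intro x
      have h1 : gg z (fun x => Real.exp (-1 * u x)) x = _ :=
        gg_comp_right (φ := z) (h := fun t => Real.exp (-1 * t)) huc
          (Real.contDiff_exp.comp (contDiff_const.mul contDiff_id)) x
      have h2 : deriv (fun t : ℝ => Real.exp (-1 * t)) (u x) = -Real.exp (-u x) := by
        have h3 : HasDerivAt (fun t : ℝ => Real.exp (-1 * t)) (Real.exp (-1 * u x) * (-1 * 1))
            (u x) := ((hasDerivAt_id (u x)).const_mul (-1)).exp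
        rw [h3.deriv]
        ring_nf
      rw [h2] at h1
      have h4 : (fun x => Real.exp (-1 * u x)) = q := by
        funext y
        rw [neg_one_mul]
      rw [h4] at h1
      rw [gg_comm, h1, gg_comm (φ := z) (ψ := u)]
      change -q x * _ = _
      ring
    have hgq' : ∀ x, gg u q x = -(q x * gg u u x) := by
      intro x
      have h1 : gg u (fun x => Real.exp (-1 * u x)) x = _ :=
        gg_comp_right (φ := u) (h := fun t => Real.exp (-1 * t)) huc
          (Real.contDiff_exp.comp (contDiff_const.mul contDiff_id)) x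
      have h2 : deriv (fun t : ℝ => Real.exp (-1 * t)) (u x) = -Real.exp (-u x) := by
        have h3 : HasDerivAt (fun t : ℝ => Real.exp (-1 * t)) (Real.exp (-1 * u x) * (-1 * 1))
            (u x) := ((hasDerivAt_id (u x)).const_mul (-1)).exp
        rw [h3.deriv]
        ring_nf
      rw [h2] at h1
      have h4 : (fun x => Real.exp (-1 * u x)) = q := by
        funext y
        rw [neg_one_mul]
      rw [h4] at h1
      rw [h1]
      change -q x * _ = _
      ring
    have hgz : ∀ x, gg g z x =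
        (gg φ z x - gg u (fun x => q x * z x) x) - z x * (q x * gg u u x) := by
      intro x
      have h1 : gg g z x = gg q z x + gg (fun x => φ x - 1) z x := gg_add_left hqc hφ1 x
      have h2 : gg (fun x => φ x - 1) z x = gg φ z x - gg (fun _ => (1 : ℝ)) z x :=
        gg_sub_left hφ contDiff_const x
      have h3 : gg (fun _ => (1 : ℝ)) z x = 0 := by
        simp only [gg, pd_const, zero_mul, Finset.sum_const_zero]
      have h4 : gg u (fun x => q x * z x) x = q x * gg u z x + z x * gg u q x :=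
        gg_mul_right hqc hzT.c1 x
      rw [h1, h2, h3, h4, hgq, hgq']
      ring
    have hRI1 : RI (gg φ z) := RI_of_cont (continuous_gg hφ hzT.c1) (gg_supp hzT.c1 hRz)
    have hRI2 : RI (gg u fun x => q x * z x) :=
      RI_of_cont (continuous_gg huc hqz.c1) (gg_supp hqz.c1 hRqz)
    have hRI3 : RI (fun x => z x * (q x * gg u u x)) :=
      RI_of_cont (hzT.c1.continuous.mul (hqc.continuous.mul (continuous_gg huc huc)))
        (fun x hx => hRz x (left_ne_zero_of_mul hx))
    have hRI12 : RI (fun x => gg φ z x - gg u (fun x => q x * z x) x) := hRI1.sub hRI2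
    have e3 : rint (gg g z) = (rint (gg φ z) - rint (gg u fun x => q x * z x)) -
        rint (fun x => z x * (q x * gg u u x)) := by
      rw [← rint_sub hRI1 hRI2, ← rint_sub hRI12 hRI3]
      congr 1
      funext x
      exact hgz x
    have hz0 : ∀ x, 0 ≤ z x := fun x => by
      change 0 ≤ max (g x - ε) 0 ^ 2
      positivity
    have hq0 : ∀ x, 0 ≤ q x := fun x => (Real.exp_pos _).le
    have e4 : 0 ≤ rint (fun x => z x * (q x * gg u u x)) :=
      rint_nonneg fun x => mul_nonneg (hz0 x) (mul_nonneg (hq0 x) (gg_self_nonneg x))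
    have hRI4 : RI (fun x => V3 V x * ((1 - φ x) * z x)) :=
      RI_V3_mul hV ((continuous_const.sub hφ.continuous).mul hzT.c1.continuous)
        (fun x hx => hRz x (right_ne_zero_of_mul hx))
    have hRI5 : RI (fun x => V3 V x * (q x * z x)) :=
      RI_V3_mul hV (hqc.continuous.mul hzT.c1.continuous) hRqz
    have e5 : rint (gg φ z) ≤ rint (gg u fun x => q x * z x) := by
      rw [e1, e2]
      have h1 : (fun x => V3 V x * (1 - φ x) * z x) = fun x => V3 V x * ((1 - φ x) * z x) :=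
        funext fun x => mul_assoc _ _ _
      have h2 : (fun x => V3 V x * 1 * (q x * z x)) = fun x => V3 V x * (q x * z x) :=
        funext fun x => by rw [mul_one]
      rw [h1, h2]
      refine rint_mono hRI4 hRI5 ?_
      intro x
      refine mul_le_mul_of_nonneg_left ?_ (hV0 x)
      by_cases h3 : z x = 0
      · rw [h3, mul_zero, mul_zero]
      · have h4 := lt_of_sq_pos_ne h3
        have h5 : ε < q x + (φ x - 1) := h4
        exact mul_le_mul_of_nonneg_right (by linarith) (hz0 x)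
    rw [e3]
    linarith
  refine ⟨Real.exp (-D), Real.exp_pos _, ?_⟩
  intro x
  have h1 : q x + (φ x - 1) ≤ 0 := hmain x
  have h2 : Real.exp (-D) ≤ q x := Real.exp_le_exp.mpr (neg_le_neg (huD x))
  linarith

end Pool.Agent.Lib.MP_5db8e2_mp
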