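import Pool.Agent.Lib.MP_5db8e2_mp.ScatA

/-!
# The scattering function: energy and scattering length
-/

set_option autoImplicit false

open MeasureTheory Filter Topology

namespace Pool.Agent.Lib.MP_5db8e2_mp

variable {V : R3 → R3 → ℝ}

namespace ScatBaux

theorem one_add_rad_pos {k : ℕ} (x : Fin k → R3) : 0 < 1 + rad x := by
  have := rad_nonneg x
  linarith

theorem RI_pow {n : ℕ} (hn : 6 < n) : RI fun x : Fin (2 + 1) → R3 => ((1 + rad x) ^ n)⁻¹ := by
  have h := RI_one_add_rad (k := 2) (p := (n : ℝ)) (by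
    have : (6 : ℝ) < n := by exact_mod_cast hn
    push_cast
    linarith)
  have e : (fun x : Fin (2 + 1) → R3 => (1 + rad x) ^ (-(n : ℝ)))
      = fun x : Fin (2 + 1) → R3 => ((1 + rad x) ^ n)⁻¹ := by
    funext x
    rw [Real.rpow_neg (one_add_rad_pos x).le, Real.rpow_natCast]
  rwa [e] at h

theorem nonneg_C {φ : (Fin 3 → R3) → ℝ} {C : ℝ} (hb : ∀ x, |φ x| ≤ C / (1 + rad x) ^ 4) :
    0 ≤ C := by
  by_contra hC
  push Not at hC
  have h := (abs_nonneg _).trans (hb 0)
  have h2 : C / (1 + rad (0 : Fin 3 → R3)) ^ 4 < 0 :=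
    div_neg_of_neg_of_pos hC (pow_pos (one_add_rad_pos _) 4)
  linarith

/-- continuous functions which vanish for large `rad` are relatively integrable -/
theorem RI_of_cont {k : ℕ} {F : (Fin (k + 1) → R3) → ℝ} (hF : Continuous F) {R : ℝ}
    (hR : ∀ x, F x ≠ 0 → rad x ≤ R) : RI F := by
  unfold RI
  refine Continuous.integrable_of_hasCompactSupport (hF.comp continuous_cons0) ?_
  refine HasCompactSupport.intro (isCompact_closedBall (0 : Fin k → R3) (2 * R)) ?_
  intro y hy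
  by_contra hne
  apply hy
  rw [Metric.mem_closedBall, dist_zero_right]
  have h1 := norm_le_rad_cons y
  have h2 := hR _ hne
  linarith

theorem RI_V_mul (hV : Pot V) {h : (Fin 3 → R3) → ℝ} (hh : Continuous h) :
    RI (k := 2) fun x => V3 V x * h x := by
  obtain ⟨hm, h0, -, -, B, hB0, R, hR0, hB, hR⟩ := V3_props hV
  unfold RI
  have hsupp : Function.support (fun y : Fin 2 → R3 =>
      V3 V (Fin.cons 0 y) * h (Fin.cons 0 y)) ⊆ Metric.closedBall 0 (2 * R) := by
    intro y hy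
    rw [Metric.mem_closedBall, dist_zero_right]
    have h1 := norm_le_rad_cons y
    have h2 := hR _ (left_ne_zero_of_mul hy)
    linarith
  rw [← integrableOn_iff_integrable_of_support_subset hsupp]
  have hc : Continuous fun y : Fin 2 → R3 => h (Fin.cons 0 y) := hh.comp continuous_cons0
  obtain ⟨M, hM⟩ := (isCompact_closedBall (0 : Fin 2 → R3) (2 * R)).exists_bound_of_continuousOn
    hc.continuousOn
  refine Measure.integrableOn_of_bounded (M := B * M) measure_closedBall_lt_top.ne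
    ((hm.comp measurable_cons0).mul hc.measurable).aestronglyMeasurable ?_
  rw [ae_restrict_iff' Metric.isClosed_closedBall.measurableSet]
  refine Filter.Eventually.of_forall fun y hy => ?_
  rw [norm_mul]
  have h1 := hM y hy
  have h2 : ‖V3 V (Fin.cons 0 y)‖ ≤ B := by
    rw [Real.norm_eq_abs, abs_of_nonneg (h0 _)]
    exact hB _
  exact mul_le_mul h2 h1 (norm_nonneg _) hB0.le

theorem gg_supp {ψ : (Fin 3 → R3) → ℝ} {R : ℝ} (φ : (Fin 3 → R3) → ℝ) (h : ContDiff ℝ 1 ψ)
    (hR : ∀ x, ψ x ≠ 0 → rad x ≤ R) (x : Fin 3 → R3) (hx : gg φ ψ x ≠ 0) : rad x ≤ R := by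
  by_contra hlt
  apply hx
  unfold gg
  refine Finset.sum_eq_zero fun m _ => Finset.sum_eq_zero fun a _ => ?_
  have : pd ψ m a x = 0 := by
    by_contra hne
    exact hlt (pd_eq_zero_of_rad h hR m a x hne)
  rw [this, mul_zero]

theorem RI_gg {φ ψ : (Fin 3 → R3) → ℝ} (hφ : ContDiff ℝ 1 φ) (hψ : TF ψ) :
    RI (k := 2) (gg φ ψ) := by
  obtain ⟨R, hR⟩ := hψ.supp
  exact RI_of_cont (continuous_gg hφ hψ.c1) (gg_supp φ hψ.c1 hR)

/-- A uniform cutoff package. -/
theorem TF_mul_cut {φ χ : (Fin 3 → R3) → ℝ} (hφ : ContDiff ℝ 1 φ) (ht : TI φ)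
    (hχ : ContDiff ℝ 1 χ) (hχt : TI χ) {R : ℝ} (h0 : ∀ x, 2 * R ≤ rad x → χ x = 0) :
    TF (fun x => φ x * χ x) := by
  refine ⟨hφ.mul hχ, fun x v => ?_, 2 * R, fun x hx => ?_⟩
  · show φ _ * χ _ = φ x * χ x
    rw [ht x v, hχt x v]
  · by_contra hlt
    push Not at hlt
    exact hx (by rw [h0 x hlt.le, mul_zero])

end ScatBaux

open ScatBaux

/-- The energy of `φ`: `gg φ φ` is integrable (`|∇φ|² ≤ C (1+rad)^{-10}`, `10 > 6`) and
`rint (gg φ φ) = rint (V (1-φ) φ)`. Proof: test with `φ χ` for the cutoffs `χ` of `exists_cutoff`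
with radius `R → ∞`: `gg φ (φχ) = χ gg φ φ + φ gg φ χ`, and
`rint |φ gg φ χ| ≤ C R^{-4} R^{-5} R^{-1} R^6 → 0`. -/
theorem phi_energy (hV : Pot V) {φ : (Fin 3 → R3) → ℝ} (hφ : ContDiff ℝ 1 φ) (ht : TI φ)
    {C : ℝ} (hb : ∀ x, |φ x| ≤ C / (1 + rad x) ^ 4)
    (hb' : ∀ x m a, |pd φ m a x| ≤ C / (1 + rad x) ^ 5)
    (hw : ∀ ζ, TF ζ → rint (gg φ ζ) = rint fun x => V3 V x * (1 - φ x) * ζ x) :
    RI (gg φ φ) ∧ rint (gg φ φ) = rint fun x => V3 V x * (1 - φ x) * φ x := by
  have hC := nonneg_C hb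
  have hgb : ∀ x, |gg φ φ x| ≤ 9 * C ^ 2 * ((1 + rad x) ^ 10)⁻¹ := by
    intro x
    refine (abs_gg_le (hb' x) (hb' x)).trans (le_of_eq ?_)
    have := (one_add_rad_pos x).ne'
    field_simp
    push_cast
    ring
  have hRI : RI (k := 2) (gg φ φ) :=
    RI.mono ((RI_pow (n := 10) (by norm_num)).const_mul (9 * C ^ 2))
      (continuous_gg hφ hφ).measurable hgb
  refine ⟨hRI, ?_⟩
  obtain ⟨C', hC', hcut⟩ := exists_cutoff 3
  obtain ⟨hm, h0, -, -, B, hB0, R0, hR00, hB, hR0⟩ := V3_props hV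
  have h9 : RI fun x : Fin (2 + 1) → R3 => ((1 + rad x) ^ 9)⁻¹ := RI_pow (by norm_num)
  set I9 := rint fun x : Fin (2 + 1) → R3 => ((1 + rad x) ^ 9)⁻¹ with hI9
  have hI9' : 0 ≤ I9 := rint_nonneg fun x => by
    have := one_add_rad_pos x
    positivity
  have key : ∀ R > R0, |rint (k := 2) (gg φ φ) - rint fun x : Fin (2 + 1) → R3 => V3 V x * (1 - φ x) * φ x|
      ≤ (9 * C ^ 2 * C' + 9 * C ^ 2) * I9 / R := by
    intro R hR
    have hRpos : 0 < R := hR00.trans hR
    obtain ⟨χ, hχ, hχt, -, hχ01, hχ1, hχ0, hχd, -, -⟩ := hcut R hRpos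
    have hχ' : ContDiff ℝ 1 χ := hχ.of_le (by norm_num)
    have hT := TF_mul_cut hφ ht hχ' hχt hχ0
    have h1 := hw _ hT
    have h2 : (rint (k := 2) fun x => V3 V x * (1 - φ x) * (φ x * χ x))
        = rint (k := 2) fun x => V3 V x * (1 - φ x) * φ x := by
      congr 1
      funext x
      by_cases hx : V3 V x = 0
      · simp [hx]
      · rw [hχ1 x ((hR0 x hx).trans hR.le), mul_one]
    rw [h2] at h1
    have h3 : (gg φ fun x => φ x * χ x)
        = fun x => φ x * gg φ χ x + χ x * gg φ φ x := by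
      funext x
      exact gg_mul_right hφ hχ' x
    have hA : RI (k := 2) fun x => φ x * gg φ χ x := by
      refine RI_of_cont (hφ.continuous.mul (continuous_gg hφ hχ')) (R := 2 * R) fun x hx => ?_
      refine ScatBaux.gg_supp φ hχ' (fun x hx => ?_) x (right_ne_zero_of_mul hx)
      by_contra hlt
      push Not at hlt
      exact hx (hχ0 x hlt.le)
    have hB' : RI (k := 2) fun x => χ x * gg φ φ x := by
      refine RI_of_cont (hχ.continuous.mul (continuous_gg hφ hφ)) (R := 2 * R) fun x hx => ?_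
      by_contra hlt
      push Not at hlt
      exact left_ne_zero_of_mul hx (hχ0 x hlt.le)
    rw [h3, rint_add hA hB'] at h1
    have hD : rint (k := 2) (gg φ φ) - (rint (k := 2) fun x => V3 V x * (1 - φ x) * φ x)
        = (rint (k := 2) fun x => gg φ φ x - χ x * gg φ φ x)
          - rint (k := 2) fun x => φ x * gg φ χ x := by
      rw [rint_sub hRI hB', ← h1]
      ring
    rw [hD]
    have hE1 : |rint (k := 2) fun x => gg φ φ x - χ x * gg φ φ x| ≤ 9 * C ^ 2 * I9 / R := by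
      have : 9 * C ^ 2 * I9 / R
          = rint (k := 2) fun x => (9 * C ^ 2 / R) * ((1 + rad x) ^ 9)⁻¹ := by
        rw [rint_const_mul]
        ring
      rw [this]
      refine abs_rint_le (h9.const_mul _) fun x => ?_
      have hp := one_add_rad_pos x
      rcases le_total (rad x) R with hx | hx
      · rw [hχ1 x hx, one_mul, sub_self, abs_zero]
        positivity
      · have e1 : gg φ φ x - χ x * gg φ φ x = (1 - χ x) * gg φ φ x := by ring
        rw [e1, abs_mul]
        have e2 : |1 - χ x| ≤ 1 := by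
          rw [abs_le]
          constructor <;> linarith [(hχ01 x).1, (hχ01 x).2]
        calc |1 - χ x| * |gg φ φ x| ≤ 1 * (9 * C ^ 2 * ((1 + rad x) ^ 10)⁻¹) :=
              mul_le_mul e2 (hgb x) (abs_nonneg _) (by norm_num)
          _ ≤ 9 * C ^ 2 / R * ((1 + rad x) ^ 9)⁻¹ := by
              have e3 : ((1 + rad x) ^ 10)⁻¹ ≤ R⁻¹ * ((1 + rad x) ^ 9)⁻¹ := by
                rw [← mul_inv]
                apply inv_anti₀ (by positivity)
                rw [pow_succ (1 + rad x) 9, mul_comm R]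
                gcongr
                linarith
              calc 1 * (9 * C ^ 2 * ((1 + rad x) ^ 10)⁻¹)
                  ≤ 9 * C ^ 2 * (R⁻¹ * ((1 + rad x) ^ 9)⁻¹) := by
                    rw [one_mul]
                    gcongr
                _ = 9 * C ^ 2 / R * ((1 + rad x) ^ 9)⁻¹ := by
                    rw [div_eq_mul_inv]
                    ring
    have hE2 : |rint (k := 2) fun x => φ x * gg φ χ x| ≤ 9 * C ^ 2 * C' * I9 / R := by
      have : 9 * C ^ 2 * C' * I9 / R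
          = rint (k := 2) fun x => (9 * C ^ 2 * C' / R) * ((1 + rad x) ^ 9)⁻¹ := by
        rw [rint_const_mul]
        ring
      rw [this]
      refine abs_rint_le (h9.const_mul _) fun x => ?_
      have hp := one_add_rad_pos x
      rw [abs_mul]
      calc |φ x| * |gg φ χ x| ≤ C / (1 + rad x) ^ 4 * (3 * (3 : ℕ) * (C / (1 + rad x) ^ 5 * (C' / R))) :=
            mul_le_mul (hb x) (abs_gg_le (hb' x) (fun m a => hχd m a x)) (abs_nonneg _)
              (by positivity)
        _ = (9 * C ^ 2 * C' / R) * ((1 + rad x) ^ 9)⁻¹ := by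
            field_simp
            push_cast
            ring
    calc |(rint (k := 2) fun x => gg φ φ x - χ x * gg φ φ x)
          - rint (k := 2) fun x => φ x * gg φ χ x|
        ≤ |rint (k := 2) fun x => gg φ φ x - χ x * gg φ φ x|
          + |rint (k := 2) fun x => φ x * gg φ χ x| := abs_sub _ _
      _ ≤ 9 * C ^ 2 * I9 / R + 9 * C ^ 2 * C' * I9 / R := add_le_add hE1 hE2
      _ = (9 * C ^ 2 * C' + 9 * C ^ 2) * I9 / R := by ring
  have hlim : Tendsto (fun R : ℝ => (9 * C ^ 2 * C' + 9 * C ^ 2) * I9 / R) atTop (𝓝 0) :=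
    tendsto_const_nhds.div_atTop tendsto_id
  have hle : |rint (k := 2) (gg φ φ) - rint fun x : Fin (2 + 1) → R3 => V3 V x * (1 - φ x) * φ x| ≤ 0 :=
    ge_of_tendsto hlim ((eventually_gt_atTop R0).mono fun R hR => key R hR)
  have := abs_eq_zero.1 (le_antisymm hle (abs_nonneg _))
  linarith

namespace ScatBaux

theorem integral_fin_two (G : R3 × R3 → ℝ) :
    ∫ y : Fin 2 → R3, G (-(y 0), -(y 1)) = ∫ p : R3 × R3, G p := by
  have h1 : ∫ y : Fin 2 → R3, G (-(y 0), -(y 1)) = ∫ y : Fin 2 → R3, G (y 0, y 1) := by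
    exact integral_neg_eq_self (fun y : Fin 2 → R3 => G (y 0, y 1)) volume
  rw [h1]
  have h2 := (volume_preserving_finTwoArrow R3).integral_comp'
    (f := MeasurableEquiv.finTwoArrow) G
  rw [← h2]
  rfl

/-- the relative coordinates as a continuous linear map -/
noncomputable def rel2 : (Fin 3 → R3) →L[ℝ] R3 × R3 :=
  ((ContinuousLinearMap.proj 0 : (Fin 3 → R3) →L[ℝ] R3) - ContinuousLinearMap.proj 1).prod
    ((ContinuousLinearMap.proj 0 : (Fin 3 → R3) →L[ℝ] R3) - ContinuousLinearMap.proj 2)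

theorem rel2_apply (x : Fin 3 → R3) : rel2 x = (x 0 - x 1, x 0 - x 2) := rfl

theorem pd_rel2 {φ' : R3 × R3 → ℝ} (hφ' : ContDiff ℝ 1 φ') (m : Fin 3) (a : Fin 3)
    (x : Fin 3 → R3) :
    pd (fun x => φ' (rel2 x)) m a x = fderiv ℝ φ' (rel2 x) (rel2 (Pi.single m (Pi.single a 1))) := by
  unfold pd
  have h1 : HasFDerivAt φ' (fderiv ℝ φ' (rel2 x)) (rel2 x) :=
    (hφ'.differentiable (by norm_num) _).hasFDerivAt
  have h2 : HasFDerivAt (fun x => φ' (rel2 x)) ((fderiv ℝ φ' (rel2 x)).comp rel2) x :=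
    h1.comp x rel2.hasFDerivAt
  rw [h2.fderiv]
  rfl

theorem gg_rel2 {φ' : R3 × R3 → ℝ} (hφ' : ContDiff ℝ 1 φ') (x : Fin 3 → R3) :
    gg (fun x => φ' (rel2 x)) (fun x => φ' (rel2 x)) x
      = 2 * ∑ a : Fin 3, (fderiv ℝ φ' (rel2 x) (Pi.single a 1, 0) ^ 2
        + fderiv ℝ φ' (rel2 x) (0, Pi.single a 1) ^ 2 +
        fderiv ℝ φ' (rel2 x) (Pi.single a 1, 0) * fderiv ℝ φ' (rel2 x) (0, Pi.single a 1)) := by
  unfold gg
  rw [Finset.sum_comm, Finset.mul_sum]
  refine Finset.sum_congr rfl fun a _ => ?_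
  rw [Fin.sum_univ_three, pd_rel2 hφ', pd_rel2 hφ', pd_rel2 hφ']
  set D := fderiv ℝ φ' (rel2 x) with hD
  have e0 : rel2 (Pi.single (0 : Fin 3) (Pi.single a (1 : ℝ) : R3))
      = ((Pi.single a 1 : R3), (0 : R3)) + ((0 : R3), (Pi.single a 1 : R3)) := by
    rw [rel2_apply]
    simp
  have e1 : rel2 (Pi.single (1 : Fin 3) (Pi.single a (1 : ℝ) : R3))
      = -((Pi.single a 1 : R3), (0 : R3)) := by
    rw [rel2_apply]
    simp
  have e2 : rel2 (Pi.single (2 : Fin 3) (Pi.single a (1 : ℝ) : R3))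
      = -((0 : R3), (Pi.single a 1 : R3)) := by
    rw [rel2_apply]
    simp
  rw [e0, e1, e2, map_add, map_neg, map_neg]
  ring

theorem rint_rel2 {φ' : R3 × R3 → ℝ} (hφ' : ContDiff ℝ 1 φ') :
    (rint (k := 2) fun x => gg (fun x => φ' (rel2 x)) (fun x => φ' (rel2 x)) x
      + V3 V x * (1 - φ' (rel2 x)) ^ 2)
    = ∫ p : R3 × R3,
      (2 * ∑ a : Fin 3, (fderiv ℝ φ' p (Pi.single a 1, 0) ^ 2 + fderiv ℝ φ' p (0, Pi.single a 1) ^ 2 +
        fderiv ℝ φ' p (Pi.single a 1, 0) * fderiv ℝ φ' p (0, Pi.single a 1)) +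
        V p.1 p.2 * (1 - φ' p) ^ 2) := by
  rw [← integral_fin_two]
  unfold rint
  congr 1
  funext y
  beta_reduce
  rw [gg_rel2 hφ']
  have e : rel2 (Fin.cons 0 y : Fin 3 → R3) = (-(y 0), -(y 1)) := by
    rw [rel2_apply]
    have e1 : (Fin.cons 0 y : Fin 3 → R3) 0 = 0 := rfl
    have e2 : (Fin.cons 0 y : Fin 3 → R3) 1 = y 0 := rfl
    have e3 : (Fin.cons 0 y : Fin 3 → R3) 2 = y 1 := rfl
    rw [e1, e2, e3, zero_sub, zero_sub]
  have e' : V3 V (Fin.cons 0 y : Fin 3 → R3) = V (-(y 0)) (-(y 1)) := by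
    have : V3 V (Fin.cons 0 y : Fin 3 → R3) = V (rel2 (Fin.cons 0 y : Fin 3 → R3)).1
      (rel2 (Fin.cons 0 y : Fin 3 → R3)).2 := rfl
    rw [this, e]
  rw [e, e']

end ScatBaux

/-- The energy of a test function of `bM` in cluster coordinates: with
`ψ x = φ' (x 0 - x 1, x 0 - x 2)` one has
`gg ψ ψ = 2 (|∇₁φ'|² + |∇₂φ'|² + ∇₁φ'·∇₂φ')`, and the relative integral is the integral over
`(u,v) = (-y_0, -y_1)`. Conversely every test function `ψ` is of this form with
`φ'(u,v) = ψ (0, -u, -v)`. -/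
theorem bM_eq (hV : Pot V) : bM V = sInf {E : ℝ | ∃ ψ : (Fin 3 → R3) → ℝ, TF ψ ∧
    E = rint fun x => gg ψ ψ x + V3 V x * (1 - ψ x) ^ 2} := by
  unfold bM
  congr 1
  ext E
  constructor
  · rintro ⟨φ', hc, hs, rfl⟩
    refine ⟨fun x => φ' (rel2 x), ⟨hc.comp rel2.contDiff, ?_, ?_⟩, ?_⟩
    · intro x v
      show φ' (rel2 fun m => x m + v) = φ' (rel2 x)
      congr 1
      rw [rel2_apply, rel2_apply]
      simp
    · obtain ⟨M, hM⟩ := hs.isCompact.isBounded.exists_norm_le
      have hM0 : ∀ x : Fin 3 → R3, φ' (rel2 x) ≠ 0 → ‖rel2 x‖ ≤ M := fun x hx =>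
        hM _ (subset_tsupport _ hx)
      refine ⟨3 * (3 : ℕ) * (2 * |M|), fun x hx => ?_⟩
      have hn := (hM0 x hx).trans (le_abs_self M)
      rw [rel2_apply] at hn
      have h1 : ‖x 0 - x 1‖ ≤ |M| := (norm_fst_le (x 0 - x 1, x 0 - x 2)).trans hn
      have h2 : ‖x 0 - x 2‖ ≤ |M| := (norm_snd_le (x 0 - x 1, x 0 - x 2)).trans hn
      have h3 : ∀ m : Fin 3, ‖x 0 - x m‖ ≤ |M| := by
        intro m
        fin_cases m
        · simp
        · exact h1
        · exact h2
      refine rad_le_of_norm_sub_le (by positivity) fun m m' => ?_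
      have e : x m - x m' = (x 0 - x m') - (x 0 - x m) := by abel
      rw [e]
      refine (norm_sub_le _ _).trans ?_
      have h4 := h3 m
      have h5 := h3 m'
      linarith
    · exact (rint_rel2 hc).symm
  · rintro ⟨ψ, hψ, rfl⟩
    have hL : ContDiff ℝ 1 (fun p : R3 × R3 => (Fin.cons 0 ![-p.1, -p.2] : Fin 3 → R3)) := by
      rw [contDiff_pi]
      intro i
      fin_cases i
      · exact contDiff_const
      · exact contDiff_fst.neg
      · exact contDiff_snd.neg
    have hrel : ∀ x : Fin 3 → R3,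
        ψ (Fin.cons 0 ![-(rel2 x).1, -(rel2 x).2] : Fin 3 → R3) = ψ x := by
      intro x
      rw [TI_eq_cons hψ.ti x]
      congr 1
      funext i
      refine Fin.cases rfl (fun j => ?_) i
      rw [Fin.cons_succ, Fin.cons_succ, rel2_apply]
      fin_cases j
      · show -(x 0 - x 1) = x 1 - x 0
        abel
      · show -(x 0 - x 2) = x 2 - x 0
        abel
    refine ⟨fun p => ψ (Fin.cons 0 ![-p.1, -p.2]), hψ.c1.comp hL, ?_, ?_⟩
    · obtain ⟨R, hR⟩ := hψ.supp
      refine HasCompactSupport.intro (isCompact_closedBall (0 : R3 × R3) (2 * R)) fun p hp => ?_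
      by_contra hne
      apply hp
      rw [Metric.mem_closedBall, dist_zero_right]
      have h1 := hR _ hne
      have h2 := norm_le_rad_cons (![-p.1, -p.2] : Fin 2 → R3)
      have h3 : ‖p‖ ≤ ‖(![-p.1, -p.2] : Fin 2 → R3)‖ := by
        rw [Prod.norm_def]
        refine max_le ?_ ?_
        · have := norm_le_pi_norm (![-p.1, -p.2] : Fin 2 → R3) 0
          simpa using this
        · have := norm_le_pi_norm (![-p.1, -p.2] : Fin 2 → R3) 1
          simpa using this
      linarith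
    · have hc : ContDiff ℝ 1 (fun p : R3 × R3 => ψ (Fin.cons 0 ![-p.1, -p.2])) := hψ.c1.comp hL
      refine Eq.trans ?_ (rint_rel2 (V := V) hc)
      have e : (fun x : Fin 3 → R3 => (fun p : R3 × R3 => ψ (Fin.cons 0 ![-p.1, -p.2])) (rel2 x))
          = ψ := by
        funext x
        exact hrel x
      congr 1
      funext x
      rw [e]
      show gg ψ ψ x + V3 V x * (1 - ψ x) ^ 2
        = gg ψ ψ x + V3 V x * (1 - ψ (Fin.cons 0 ![-(rel2 x).1, -(rel2 x).2])) ^ 2
      rw [hrel x]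

/-- `rint (V f) = bM V`. Lower bound: for a test function `ψ`
`rint (gg ψ ψ) ≥ 2 rint (gg φ ψ) - rint (gg φ φ) = 2 rint (V f ψ) - rint (V f φ)` and
`V (1-ψ)² ≥ 2 V f (1-ψ) - V f²`; the sum is `≥ rint (2 V f) - rint (V f (φ + f)) = rint (V f)`.
Upper bound: the energies of `φ χ_R` converge to `rint (gg φ φ + V f²) = rint (V f)` (with
`gg_mul_self`, `rint (φ² gg χ χ) ≤ C R^{-8} R^{-2} R^6`). -/
theorem b_eq_bM (hV : Pot V) {φ : (Fin 3 → R3) → ℝ} (hφ : ContDiff ℝ 1 φ) (ht : TI φ)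
    {C : ℝ} (hb : ∀ x, |φ x| ≤ C / (1 + rad x) ^ 4)
    (hb' : ∀ x m a, |pd φ m a x| ≤ C / (1 + rad x) ^ 5)
    (hw : ∀ ζ, TF ζ → rint (gg φ ζ) = rint fun x => V3 V x * (1 - φ x) * ζ x) :
    rint (fun x => V3 V x * (1 - φ x)) = bM V := by
  obtain ⟨hRI, hen⟩ := phi_energy hV hφ ht hb hb' hw
  have hC := nonneg_C hb
  obtain ⟨hm, h0, -, -, B, hB0, R0, hR00, hB, hR0⟩ := V3_props hV
  have hcφ := hφ.continuous
  rw [bM_eq hV]
  apply le_antisymm
  · apply le_csInf
    · refine ⟨_, fun _ => 0, ⟨contDiff_const, fun _ _ => rfl, 0, fun x hx => absurd rfl hx⟩, rfl⟩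
    · rintro E ⟨ψ, hψ, rfl⟩
      have hcψ := hψ.c1.continuous
      have r1 : RI (k := 2) (gg ψ ψ) := RI_gg hψ.c1 hψ
      have r2 : RI (k := 2) (gg φ ψ) := RI_gg hφ hψ
      have r3 : RI (k := 2) fun x => V3 V x * (1 - ψ x) ^ 2 :=
        RI_V_mul hV ((continuous_const.sub hcψ).pow 2)
      have r4 : RI (k := 2) fun x => V3 V x * ((1 - φ x) * ψ x) :=
        RI_V_mul hV ((continuous_const.sub hcφ).mul hcψ)
      have r5 : RI (k := 2) fun x => V3 V x * ((1 - φ x) * φ x) :=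
        RI_V_mul hV ((continuous_const.sub hcφ).mul hcφ)
      have r6 : RI (k := 2) fun x => V3 V x * (1 - φ x) :=
        RI_V_mul hV (continuous_const.sub hcφ)
      have a4 : (fun x => V3 V x * (1 - φ x) * ψ x) = fun x => V3 V x * ((1 - φ x) * ψ x) := by
        funext x; ring
      have a5 : (fun x => V3 V x * (1 - φ x) * φ x) = fun x => V3 V x * ((1 - φ x) * φ x) := by
        funext x; ring
      have hwψ := hw ψ hψ
      rw [a4] at hwψ
      rw [a5] at hen
      have hmono : (rint (k := 2) fun x => 2 * gg φ ψ x - gg φ φ x)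
          ≤ rint (k := 2) (gg ψ ψ) := by
        refine rint_mono ((r2.const_mul 2).sub hRI) r1 fun x => ?_
        have e1 : gg (fun x => ψ x - φ x) (fun x => ψ x - φ x) x
            = gg ψ ψ x - 2 * gg φ ψ x + gg φ φ x := by
          rw [gg_sub_left hψ.c1 hφ, gg_comm (φ := ψ), gg_comm (φ := φ) (ψ := fun x => ψ x - φ x),
            gg_sub_left hψ.c1 hφ, gg_sub_left hψ.c1 hφ, gg_comm (φ := ψ) (ψ := φ)]
          ring
        have e2 := gg_self_nonneg (φ := fun x => ψ x - φ x) x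
        linarith
      rw [rint_sub (r2.const_mul 2) hRI, rint_const_mul, hwψ, hen] at hmono
      have hmono2 : (rint (k := 2) fun x => 2 * (V3 V x * (1 - φ x))
            - 2 * (V3 V x * ((1 - φ x) * ψ x)) - (V3 V x * (1 - φ x) - V3 V x * ((1 - φ x) * φ x)))
          ≤ rint (k := 2) fun x => V3 V x * (1 - ψ x) ^ 2 := by
        refine rint_mono (((r6.const_mul 2).sub (r4.const_mul 2)).sub (r6.sub r5)) r3 fun x => ?_
        have := mul_nonneg (h0 x) (sq_nonneg (ψ x - φ x))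
        nlinarith
      rw [rint_sub ((r6.const_mul 2).sub (r4.const_mul 2)) (r6.sub r5),
        rint_sub (r6.const_mul 2) (r4.const_mul 2), rint_sub r6 r5, rint_const_mul,
        rint_const_mul] at hmono2
      rw [rint_add r1 r3]
      linarith
  · obtain ⟨C', hC', hcut⟩ := exists_cutoff 3
    have h8 : RI fun x : Fin (2 + 1) → R3 => ((1 + rad x) ^ 8)⁻¹ := RI_pow (by norm_num)
    set I8 := rint fun x : Fin (2 + 1) → R3 => ((1 + rad x) ^ 8)⁻¹ with hI8
    have hbdd : BddBelow {E : ℝ | ∃ ψ : (Fin 3 → R3) → ℝ, TF ψ ∧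
        E = rint fun x => gg ψ ψ x + V3 V x * (1 - ψ x) ^ 2} := by
      refine ⟨0, ?_⟩
      rintro E ⟨ψ, -, rfl⟩
      exact rint_nonneg fun x => add_nonneg (gg_self_nonneg x) (mul_nonneg (h0 x) (sq_nonneg _))
    have key : ∀ R > R0, sInf {E : ℝ | ∃ ψ : (Fin 3 → R3) → ℝ, TF ψ ∧
        E = rint fun x => gg ψ ψ x + V3 V x * (1 - ψ x) ^ 2}
        ≤ (rint (k := 2) fun x => V3 V x * (1 - φ x)) + 9 * C ^ 2 * C' ^ 2 * I8 / R ^ 2 := by
      intro R hR
      have hRpos : 0 < R := hR00.trans hR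
      obtain ⟨χ, hχ, hχt, -, hχ01, hχ1, hχ0, hχd, -, -⟩ := hcut R hRpos
      have hχ' : ContDiff ℝ 1 χ := hχ.of_le (by norm_num)
      have hT := TF_mul_cut hφ ht hχ' hχt hχ0
      have hT2 : TF (fun x => φ x * χ x ^ 2) := by
        refine TF_mul_cut (R := R) hφ ht (hχ'.pow 2) (fun x v => ?_) fun x hx => ?_
        · show χ _ ^ 2 = χ x ^ 2
          rw [hχt x v]
        · show χ x ^ 2 = 0
          rw [hχ0 x hx]
          norm_num
      refine (csInf_le hbdd ⟨_, hT, rfl⟩).trans ?_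
      have e1 : (fun x => gg (fun x => φ x * χ x) (fun x => φ x * χ x) x
            + V3 V x * (1 - φ x * χ x) ^ 2)
          = fun x => gg φ (fun x => φ x * χ x ^ 2) x
            + (φ x ^ 2 * gg χ χ x + V3 V x * (1 - φ x) ^ 2) := by
        funext x
        rw [gg_mul_self hφ hχ']
        by_cases hx : V3 V x = 0
        · simp [hx]
        · rw [hχ1 x ((hR0 x hx).trans hR.le), mul_one]
          ring
      have s1 : RI (k := 2) (gg φ (fun x => φ x * χ x ^ 2)) := RI_gg hφ hT2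
      have s2b : ∀ x : Fin 3 → R3, |φ x ^ 2 * gg χ χ x|
          ≤ 9 * C ^ 2 * C' ^ 2 / R ^ 2 * ((1 + rad x) ^ 8)⁻¹ := by
        intro x
        have hp := one_add_rad_pos x
        rw [abs_mul, abs_pow]
        calc |φ x| ^ 2 * |gg χ χ x|
            ≤ (C / (1 + rad x) ^ 4) ^ 2 * (3 * (3 : ℕ) * (C' / R * (C' / R))) :=
              mul_le_mul (pow_le_pow_left₀ (abs_nonneg _) (hb x) 2)
                (abs_gg_le (fun m a => hχd m a x) (fun m a => hχd m a x)) (abs_nonneg _)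
                (by positivity)
          _ = 9 * C ^ 2 * C' ^ 2 / R ^ 2 * ((1 + rad x) ^ 8)⁻¹ := by
              field_simp
              push_cast
              ring
      have s2 : RI (k := 2) fun x => φ x ^ 2 * gg χ χ x :=
        RI.mono (h8.const_mul _) ((hcφ.pow 2).mul (continuous_gg hχ' hχ')).measurable s2b
      have s3 : RI (k := 2) fun x => V3 V x * (1 - φ x) ^ 2 :=
        RI_V_mul hV ((continuous_const.sub hcφ).pow 2)
      have s4 : RI (k := 2) fun x => V3 V x * ((1 - φ x) * φ x) :=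
        RI_V_mul hV ((continuous_const.sub hcφ).mul hcφ)
      have hle : (rint (k := 2) fun x => φ x ^ 2 * gg χ χ x)
          ≤ 9 * C ^ 2 * C' ^ 2 * I8 / R ^ 2 := by
        have : 9 * C ^ 2 * C' ^ 2 * I8 / R ^ 2
            = rint (k := 2) fun x => 9 * C ^ 2 * C' ^ 2 / R ^ 2 * ((1 + rad x) ^ 8)⁻¹ := by
          rw [rint_const_mul]
          ring
        rw [this]
        exact (le_abs_self _).trans (abs_rint_le (h8.const_mul _) s2b)
      have hwT := hw _ hT2
      have e2 : (fun x => V3 V x * (1 - φ x) * (φ x * χ x ^ 2))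
          = fun x => V3 V x * ((1 - φ x) * φ x) := by
        funext x
        by_cases hx : V3 V x = 0
        · simp [hx]
        · rw [hχ1 x ((hR0 x hx).trans hR.le)]
          ring
      rw [e2] at hwT
      have e3 : (rint (k := 2) fun x => V3 V x * (1 - φ x))
          = (rint (k := 2) fun x => V3 V x * ((1 - φ x) * φ x))
            + rint (k := 2) fun x => V3 V x * (1 - φ x) ^ 2 := by
        rw [← rint_add s4 s3]
        congr 1
        funext x
        ring
      have e4 : (rint (k := 2) fun x => gg (fun x => φ x * χ x) (fun x => φ x * χ x) x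
            + V3 V x * (1 - φ x * χ x) ^ 2)
          = (rint (k := 2) fun x => V3 V x * ((1 - φ x) * φ x))
            + ((rint (k := 2) fun x => φ x ^ 2 * gg χ χ x)
              + rint (k := 2) fun x => V3 V x * (1 - φ x) ^ 2) := by
        rw [e1, rint_add s1 (s2.add s3), rint_add s2 s3, hwT]
      refine (le_of_eq e4).trans ?_
      rw [e3]
      linarith
    have hlim : Tendsto (fun R : ℝ => (rint (k := 2) fun x => V3 V x * (1 - φ x))
        + 9 * C ^ 2 * C' ^ 2 * I8 / R ^ 2) atTop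
        (𝓝 ((rint (k := 2) fun x => V3 V x * (1 - φ x)) + 0)) :=
      tendsto_const_nhds.add (tendsto_const_nhds.div_atTop (tendsto_pow_atTop (by norm_num)))
    rw [add_zero] at hlim
    exact ge_of_tendsto hlim ((eventually_gt_atTop R0).mono fun R hR => key R hR)

end Pool.Agent.Lib.MP_5db8e2_mp
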