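import Pool.Agent.Lib.MP_5db8e2_mp.NewtC
import Pool.Agent.Lib.MP_5db8e2_mp.NewtD
import Pool.Agent.Lib.MP_5db8e2_mp.SolveA

/-!
# The scattering equation `f = 1 - Newt (V f)` by the continuity method
-/

set_option autoImplicit false

open MeasureTheory Filter Topology BoundedContinuousFunction

namespace Pool.Agent.Lib.MP_5db8e2_mp

/-- Far away a Newton potential is small. -/
theorem far_of_newt {R B : ℝ} (hR : 0 ≤ R) (hB : 0 ≤ B) {ϱ : (Fin 3 → R3) → ℝ}
    (h : Chg B R ϱ) {ε : ℝ} (hε : 0 < ε) : ∃ R0, ∀ x, ε < |Newt (k := 2) ϱ x| → rad x ≤ R0 := by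
  obtain ⟨C, hC, hd⟩ := Newt_decay (k := 2) (by norm_num) hR
  refine ⟨C * B / ε, fun x hx => ?_⟩
  have h1 := (hd B ϱ h x).1
  have h2 : 0 ≤ rad x := rad_nonneg x
  have h3 : (1 : ℝ) ≤ 1 + rad x := by linarith
  have h4 : C * B / (1 + rad x) ^ (3 * 2 - 2) ≤ C * B / (1 + rad x) := by
    apply div_le_div_of_nonneg_left (by positivity) (by linarith)
    calc (1 + rad x) = (1 + rad x) ^ 1 := (pow_one _).symm
      _ ≤ (1 + rad x) ^ (3 * 2 - 2) := pow_le_pow_right₀ h3 (by norm_num)
  have h5 : ε < C * B / (1 + rad x) := by linarith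
  rw [lt_div_iff₀ (by linarith)] at h5
  rw [le_div_iff₀ hε]
  nlinarith

/-- One half of the a priori bound. -/
theorem one_sided {V : R3 → R3 → ℝ} (hV : Pot V) {t M C : ℝ} (ht0 : 0 ≤ t) (ht1 : t ≤ 1)
    {f h : (Fin 3 → R3) → ℝ} (hf : Measurable f) (hfb : ∀ x, |f x| ≤ C) (hM0 : 0 ≤ M)
    (hM : ∀ x, h x ≤ M) (hfe : ∀ x, f x = h x - t * Newt (fun y => V3 V y * f y) x)
    (x : Fin 3 → R3) : t * Newt (fun y => V3 V y * f y) x ≤ M := by
  obtain ⟨B, hB, R, hR, hch⟩ := chg_V3_mul hV
  have hc := hch C f hf hfb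
  have hC0 : 0 ≤ C := (abs_nonneg _).trans (hfb x)
  set N : (Fin 3 → R3) → ℝ := Newt (k := 2) (fun y => V3 V y * f y) with hN
  have hNc : ContDiff ℝ 1 N := (contDiff_Newt (k := 2) (by norm_num) hc).1
  have hNt : TI N := TI_Newt _
  set G : (Fin 3 → R3) → ℝ := fun x => t * N x - M with hG
  have hGc : ContDiff ℝ 1 G := (contDiff_const.mul hNc).sub contDiff_const
  have hGt : TI G := by
    intro x v
    simp only [hG]
    rw [hNt x v]
  have hinf : ∀ ε > 0, ∃ R, ∀ x, ε < G x → rad x ≤ R := by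
    intro ε hε
    obtain ⟨R0, hR0⟩ := far_of_newt hR.le (by positivity) hc hε
    refine ⟨R0, fun x hx => hR0 x ?_⟩
    have h1 : t * N x ≤ |N x| := by
      calc t * N x ≤ |t * N x| := le_abs_self _
        _ = t * |N x| := by rw [abs_mul, abs_of_nonneg ht0]
        _ ≤ 1 * |N x| := mul_le_mul_of_nonneg_right ht1 (abs_nonneg _)
        _ = |N x| := one_mul _
    simp only [hG] at hx
    change ε < |N x|
    linarith
  have hw : ∀ ε > 0, rint (gg G fun x => max (G x - ε) 0 ^ 2) ≤ 0 := by
    intro ε hε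
    set z : (Fin 3 → R3) → ℝ := fun x => max (G x - ε) 0 ^ 2 with hz
    have hzTF : TF z := by
      refine ⟨(contDiff_sq_pos ε).comp hGc, ?_, ?_⟩
      · intro x v
        simp only [hz]
        rw [hGt x v]
      · obtain ⟨R0, hR0⟩ := hinf ε hε
        refine ⟨R0, fun x hx => hR0 x ?_⟩
        by_contra hcon
        apply hx
        simp only [hz]
        rw [max_eq_right (by linarith)]
        norm_num
    have hpd : ∀ m a x, pd G m a x = t * pd N m a x := by
      intro m a x
      have h1 : pd G m a x = pd (fun x => t * N x) m a x - pd (fun _ => M) m a x :=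
        pd_sub (φ := fun x => t * N x) (ψ := fun _ => M)
          ((contDiff_const.mul hNc).differentiable (by norm_num) x)
          (differentiableAt_const _) m a
      rw [h1, pd_const, pd_const_mul (hNc.differentiable (by norm_num) x)]
      ring
    have hgg : gg G z = fun x => t * gg N z x := by
      funext x
      simp only [gg, Finset.mul_sum]
      refine Finset.sum_congr rfl fun m _ => Finset.sum_congr rfl fun a _ => ?_
      rw [hpd]
      ring
    rw [hgg, rint_const_mul]
    have hweak : rint (gg N z) = rint fun x => V3 V x * f x * z x :=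
      Newt_weak (k := 2) (by norm_num) hc hzTF
    have hneg : rint (k := 2) (fun x => V3 V x * f x * z x) ≤ 0 := by
      have h1 : 0 ≤ rint (k := 2) (fun x => -(V3 V x * f x * z x)) := by
        apply rint_nonneg
        intro x
        have hVn : 0 ≤ V3 V x := (V3_props hV).2.1 x
        have hzn : 0 ≤ z x := sq_nonneg _
        by_cases hzx : z x = 0
        · rw [hzx]; simp
        · have hGx : ε < G x := by
            by_contra hcon
            apply hzx
            simp only [hz]
            rw [max_eq_right (by linarith)]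
            norm_num
          have hfx : f x ≤ 0 := by
            rw [hfe x]
            simp only [hG] at hGx
            have := hM x
            change h x - t * N x ≤ 0
            linarith
          have : 0 ≤ V3 V x * (-f x) * z x := by
            apply mul_nonneg (mul_nonneg hVn (by linarith)) hzn
          linarith [this]
      rw [rint_neg'] at h1
      linarith
    rw [hweak]
    exact mul_nonpos_of_nonneg_of_nonpos ht0 hneg
  have := le_zero_of_weak (k := 2) (by norm_num) hGc hGt hinf hw x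
  simp only [hG] at this
  linarith

/-- **A priori bound** for `f = h - t Newt (V f)`, `0 ≤ t ≤ 1`. Let `g = t Newt (V f)`, so
`f = h - g`, `rint (gg g z) = rint (t V (h - g) z)`, `g → 0` at infinity. For every `M' ≥ sup |h|`
apply `le_zero_of_weak` to `g - M'` and to `-g - M'`: where `z ≠ 0` one has `g > M' ≥ h`. -/
theorem apriori {V : R3 → R3 → ℝ} (hV : Pot V) {t M C : ℝ} (ht0 : 0 ≤ t) (ht1 : t ≤ 1)
    {f h : (Fin 3 → R3) → ℝ} (hf : Measurable f) (hfb : ∀ x, |f x| ≤ C)
    (hM : ∀ x, |h x| ≤ M) (hfe : ∀ x, f x = h x - t * Newt (fun y => V3 V y * f y) x)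
    (x : Fin 3 → R3) : |f x| ≤ 2 * M := by
  have hM0 : 0 ≤ M := (abs_nonneg _).trans (hM x)
  have h1 := one_sided hV ht0 ht1 hf hfb hM0 (fun x => (le_abs_self _).trans (hM x)) hfe x
  have hneg : ∀ x, Newt (fun y => V3 V y * (-f y)) x = - Newt (k := 2) (fun y => V3 V y * f y) x := by
    intro x
    have h2 := Newt_const_mul (k := 2) (-1) (fun y => V3 V y * f y) x
    have h3 : (fun y => V3 V y * (-f y)) = fun y : Fin 3 → R3 => (-1) * (V3 V y * f y) := by
      funext y; ring
    rw [h3, h2]; ring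
  have h2 := one_sided (f := fun x => -f x) (h := fun x => -h x) hV ht0 ht1 hf.neg
    (fun x => by rw [abs_neg]; exact hfb x) hM0
    (fun x => (neg_le_abs _).trans (hM x))
    (fun x => by rw [hneg x]; rw [hfe x]; ring) x
  rw [hneg x] at h2
  have h3 := hfe x
  have h4 := abs_le.1 (hM x)
  rw [abs_le]
  constructor <;> nlinarith

/-- The operator `h ↦ Newt (V h)` on the bounded continuous functions. -/
theorem exists_op {V : R3 → R3 → ℝ} (hV : Pot V) :
    ∃ T : ((Fin 3 → R3) →ᵇ ℝ) →L[ℝ] ((Fin 3 → R3) →ᵇ ℝ),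
      ∀ h x, T h x = Newt (fun y => V3 V y * h y) x := by
  obtain ⟨B, hB, R, hR, hch⟩ := chg_V3_mul hV
  obtain ⟨C, hC, hd⟩ := Newt_decay (k := 2) (by norm_num) hR.le
  have hc : ∀ h : (Fin 3 → R3) →ᵇ ℝ, Chg (B * ‖h‖) R (fun x => V3 V x * h x) := fun h =>
    hch ‖h‖ h h.continuous.measurable (fun x => h.norm_coe_le_norm x)
  have hbd : ∀ (h : (Fin 3 → R3) →ᵇ ℝ) x, ‖Newt (k := 2) (fun y => V3 V y * h y) x‖ ≤
      (C * B) * ‖h‖ := by
    intro h x
    have h1 := (hd _ _ (hc h) x).1
    have h2 : 0 ≤ rad x := rad_nonneg x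
    have h3 : (1 : ℝ) ≤ (1 + rad x) ^ (3 * 2 - 2) := one_le_pow₀ (by linarith)
    have h4 : C * (B * ‖h‖) / (1 + rad x) ^ (3 * 2 - 2) ≤ C * (B * ‖h‖) :=
      div_le_self (by positivity) h3
    rw [Real.norm_eq_abs]
    linarith
  have hcont : ∀ h : (Fin 3 → R3) →ᵇ ℝ,
      Continuous (fun x => Newt (k := 2) (fun y => V3 V y * h y) x) := fun h =>
    (contDiff_Newt (k := 2) (by norm_num) (hc h)).1.continuous
  let T0 : ((Fin 3 → R3) →ᵇ ℝ) →ₗ[ℝ] ((Fin 3 → R3) →ᵇ ℝ) :=
    { toFun := fun h => BoundedContinuousFunction.ofNormedAddCommGroup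
        (fun x => Newt (k := 2) (fun y => V3 V y * h y) x) (hcont h) ((C * B) * ‖h‖) (hbd h)
      map_add' := by
        intro h h'
        ext x
        have hc1 : Chg (B * (‖h‖ + ‖h'‖)) R (fun x => V3 V x * h x) :=
          hch _ h h.continuous.measurable
            (fun x => (h.norm_coe_le_norm x).trans (by linarith [norm_nonneg h']))
        have hc2 : Chg (B * (‖h‖ + ‖h'‖)) R (fun x => V3 V x * h' x) :=
          hch _ h' h'.continuous.measurable
            (fun x => (h'.norm_coe_le_norm x).trans (by linarith [norm_nonneg h]))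
        have h2 := Newt_add (k := 2) (by norm_num) hc1 hc2 x
        simp only [BoundedContinuousFunction.coe_ofNormedAddCommGroup,
          BoundedContinuousFunction.coe_add, Pi.add_apply]
        rw [← h2]
        congr 1
        funext y
        ring
      map_smul' := by
        intro c h
        ext x
        have h2 := Newt_const_mul (k := 2) c (fun y => V3 V y * h y) x
        simp only [BoundedContinuousFunction.coe_ofNormedAddCommGroup,
          BoundedContinuousFunction.coe_smul, smul_eq_mul, RingHom.id_apply]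
        rw [← h2]
        congr 1
        funext y
        ring }
  refine ⟨T0.mkContinuous (C * B) ?_, ?_⟩
  · intro h
    exact BoundedContinuousFunction.norm_ofNormedAddCommGroup_le _ (by positivity) (hbd h)
  · intro h x
    rfl

/-- The continuity method. -/
theorem continuity_method {X : Type*} [NormedAddCommGroup X] [NormedSpace ℝ X] [CompleteSpace X]
    (T : X →L[ℝ] X) {K : ℝ} (hK : 0 < K)
    (hap : ∀ t : ℝ, 0 ≤ t → t ≤ 1 → ∀ f : X, ‖f‖ ≤ K * ‖f + t • T f‖) (h : X) :
    ∃ f : X, f + T f = h := by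
  obtain ⟨n, hn⟩ := exists_nat_gt (K * ‖T‖)
  have hn0 : (0 : ℝ) < n := lt_of_le_of_lt (by positivity) hn
  have key : ∀ j : ℕ, j ≤ n → IsUnit (1 + ((j : ℝ) / n) • T : X →L[ℝ] X) := by
    intro j
    induction j with
    | zero => intro _; simp
    | succ j ih =>
      intro hj
      obtain ⟨u, hu⟩ := ih (by omega)
      have hjn : (j : ℝ) / n ≤ 1 := by
        rw [div_le_one hn0]
        have : j ≤ n := by omega
        exact_mod_cast this
      have hinv : ‖(↑u⁻¹ : X →L[ℝ] X)‖ ≤ K := by
        apply ContinuousLinearMap.opNorm_le_bound _ hK.le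
        intro y
        have h1 := hap ((j : ℝ) / n) (by positivity) hjn ((↑u⁻¹ : X →L[ℝ] X) y)
        have h2 : (↑u⁻¹ : X →L[ℝ] X) y + ((j : ℝ) / n) • T ((↑u⁻¹ : X →L[ℝ] X) y) = y := by
          have h3 : ((u : X →L[ℝ] X) * (↑u⁻¹ : X →L[ℝ] X)) y = y := by
            rw [Units.mul_inv]; rfl
          rw [hu] at h3
          simpa using h3
        rw [h2] at h1
        exact h1
      have hlt : ‖-((1 / (n : ℝ)) • ((↑u⁻¹ : X →L[ℝ] X) * T))‖ < 1 := by
        rw [norm_neg, norm_smul, Real.norm_of_nonneg (by positivity)]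
        have h1 : ‖(↑u⁻¹ : X →L[ℝ] X) * T‖ ≤ K * ‖T‖ :=
          (norm_mul_le _ _).trans (mul_le_mul_of_nonneg_right hinv (norm_nonneg _))
        rw [one_div, inv_mul_lt_iff₀ hn0]
        linarith
      have heq : (1 + (((j + 1 : ℕ) : ℝ) / n) • T : X →L[ℝ] X) =
          (u : X →L[ℝ] X) * ((Units.oneSub _ hlt : (X →L[ℝ] X)ˣ) : X →L[ℝ] X) := by
        rw [Units.val_oneSub, sub_neg_eq_add, mul_add, mul_one, mul_smul_comm, ← mul_assoc,
          Units.mul_inv, one_mul, hu, add_assoc, ← add_smul]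
        congr 2
        push_cast
        ring
      rw [heq]
      exact u.isUnit.mul (Units.oneSub _ hlt).isUnit
  obtain ⟨u, hu⟩ := key n le_rfl
  refine ⟨(↑u⁻¹ : X →L[ℝ] X) h, ?_⟩
  have h3 : ((u : X →L[ℝ] X) * (↑u⁻¹ : X →L[ℝ] X)) h = h := by
    rw [Units.mul_inv]; rfl
  rw [hu, div_self hn0.ne', one_smul] at h3
  simpa using h3

/-- **Existence** (continuity method): the set of `t ∈ [0,1]` for which `1 + tT` is invertible
contains `0`; by the a priori bound its inverse has norm `≤ 2`, so
`1 + (t+δ)T = (1 + tT)(1 + δ (1+tT)⁻¹T)` is invertible for `2 δ ‖T‖ < 1`; finitely many steps of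
length `1/n` lead to `t = 1`. -/
theorem exists_f {V : R3 → R3 → ℝ} (hV : Pot V) : ∃ f : (Fin 3 → R3) → ℝ, Continuous f ∧
    (∃ C, ∀ x, |f x| ≤ C) ∧ ∀ x, f x = 1 - Newt (fun y => V3 V y * f y) x := by
  obtain ⟨T, hT⟩ := exists_op hV
  obtain ⟨f, hf⟩ := continuity_method T (K := 2) (by norm_num) (by
    intro t ht0 ht1 f
    have h1 : ∀ x, |f x| ≤ 2 * ‖f + t • T f‖ := by
      intro x
      refine apriori (C := ‖f‖) (h := fun x => (f + t • T f) x) hV ht0 ht1
        f.continuous.measurable (fun x => f.norm_coe_le_norm x)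
        (fun x => (f + t • T f).norm_coe_le_norm x) ?_ x
      intro x
      rw [← hT f x]
      simp
    exact (BoundedContinuousFunction.norm_le (by positivity)).2 h1)
    (BoundedContinuousFunction.const _ (1 : ℝ))
  refine ⟨f, f.continuous, ⟨‖f‖, fun x => f.norm_coe_le_norm x⟩, fun x => ?_⟩
  have h1 : (f + T f) x = 1 := by rw [hf]; rfl
  rw [← hT f x]
  have h2 : (f + T f) x = f x + T f x := rfl
  linarith

/-- Uniqueness: the difference satisfies `g = 0 - Newt (V g)`; use `apriori` with `h = 0`. -/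
theorem unique_f {V : R3 → R3 → ℝ} (hV : Pot V) {f f' : (Fin 3 → R3) → ℝ}
    (hf : Continuous f) (hfb : ∃ C, ∀ x, |f x| ≤ C)
    (hfe : ∀ x, f x = 1 - Newt (fun y => V3 V y * f y) x)
    (hf' : Continuous f') (hfb' : ∃ C, ∀ x, |f' x| ≤ C)
    (hfe' : ∀ x, f' x = 1 - Newt (fun y => V3 V y * f' y) x) (x : Fin 3 → R3) :
    f x = f' x := by
  obtain ⟨C, hC⟩ := hfb
  obtain ⟨C', hC'⟩ := hfb'
  obtain ⟨B, hB, R, hR, hch⟩ := chg_V3_mul hV
  have hC0 : 0 ≤ C := (abs_nonneg _).trans (hC x)
  have hC0' : 0 ≤ C' := (abs_nonneg _).trans (hC' x)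
  have hc1 := hch (C + C') f hf.measurable (fun x => (hC x).trans (by linarith))
  have hc2 : Chg (k := 2) (B * (C + C')) R (fun x => (-1) * (V3 V x * f' x)) := by
    have h2 := hch (C + C') (fun x => -f' x) hf'.measurable.neg
      (fun x => by rw [abs_neg]; exact (hC' x).trans (by linarith))
    have h3 : (fun x : Fin 3 → R3 => (-1) * (V3 V x * f' x)) = fun x => V3 V x * -f' x := by
      funext x; ring
    rw [h3]; exact h2
  have key : ∀ x, Newt (k := 2) (fun y => V3 V y * (f y - f' y)) x =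
      Newt (k := 2) (fun y => V3 V y * f y) x - Newt (k := 2) (fun y => V3 V y * f' y) x := by
    intro x
    have h1 := Newt_add (k := 2) (by norm_num) hc1 hc2 x
    rw [Newt_const_mul] at h1
    have h3 : (fun y : Fin 3 → R3 => V3 V y * (f y - f' y)) =
        fun y => V3 V y * f y + (-1) * (V3 V y * f' y) := by
      funext y; ring
    rw [h3, h1]; ring
  have h1 := apriori (t := 1) (M := 0) (C := C + C') (f := fun x => f x - f' x)
    (h := fun _ => 0) hV (by norm_num) le_rfl (hf.sub hf').measurable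
    (fun x => (abs_sub _ _).trans (add_le_add (hC x) (hC' x))) (fun x => by simp)
    (fun x => by
      have e1 := hfe x
      have e2 := hfe' x
      rw [key x]
      change f x - f' x = _
      linarith) x
  have h2 : |f x - f' x| ≤ 0 := by simpa using h1
  have h3 := abs_nonpos_iff.1 h2
  linarith

end Pool.Agent.Lib.MP_5db8e2_mp
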