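import Pool.Agent.Lib.MP_5db8e2_mp.CluA

/-!
# Functions of clusters inside a configuration: derivatives
-/

set_option autoImplicit false

open MeasureTheory Filter Topology

namespace Pool.Agent.Lib.MP_5db8e2_mp

variable {N : ℕ}

/-- The family `F k` of functions of `k` particles, evaluated on the particles of `B` (in
increasing order). -/
noncomputable def onF (F : ∀ k : ℕ, (Fin k → R3) → ℝ) (B : Finset (Fin N)) (x : Fin N → R3) : ℝ :=
  F B.card fun m => x (B.orderEmbOfFin rfl m)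

theorem onF_eq (F : ∀ k : ℕ, (Fin k → R3) → ℝ) {B : Finset (Fin N)} {k : ℕ} (hB : B.card = k)
    (x : Fin N → R3) : onF F B x = F k fun m => x (B.orderEmbOfFin hB m) := by
  subst hB
  rfl

namespace TrialA1aux

theorem onF_eq_comp (F : ∀ k : ℕ, (Fin k → R3) → ℝ) (B : Finset (Fin N)) :
    onF F B = fun x => F B.card (x ∘ (B.orderEmbOfFin rfl)) := rfl

/-- The relabelling as a continuous linear map. -/
noncomputable def compL {k : ℕ} (e : Fin k → Fin N) : (Fin N → R3) →L[ℝ] (Fin k → R3) :=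
  ContinuousLinearMap.pi fun m => ContinuousLinearMap.proj (e m)

theorem compL_apply {k : ℕ} (e : Fin k → Fin N) (x : Fin N → R3) : compL e x = x ∘ e := rfl

theorem contDiff_comp {k : ℕ} {F : (Fin k → R3) → ℝ} (hF : ContDiff ℝ 1 F) (e : Fin k → Fin N) :
    ContDiff ℝ 1 (fun x : Fin N → R3 => F (x ∘ e)) := hF.comp (compL e).contDiff

theorem fderiv_comp_e {k : ℕ} {F : (Fin k → R3) → ℝ} (hF : ContDiff ℝ 1 F) (e : Fin k → Fin N)
    (x v : Fin N → R3) :
    fderiv ℝ (fun x : Fin N → R3 => F (x ∘ e)) x v = fderiv ℝ F (x ∘ e) (v ∘ e) := by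
  have h1 : HasFDerivAt F (fderiv ℝ F (x ∘ e)) (compL e x) :=
    (hF.differentiable one_ne_zero).differentiableAt.hasFDerivAt
  have h2 : HasFDerivAt (compL e) (compL e) x := (compL e).hasFDerivAt
  have h3 : HasFDerivAt (fun x : Fin N → R3 => F (x ∘ e))
      ((fderiv ℝ F (x ∘ e)).comp (compL e)) x := h1.comp x h2
  rw [h3.fderiv]
  rfl

end TrialA1aux

open TrialA1aux

theorem onF_nice {F : ∀ k : ℕ, (Fin k → R3) → ℝ} (hm : ∀ k, Measurable (F k))
    (hb : ∀ k, ∃ C, ∀ x, |F k x| ≤ C) (B : Finset (Fin N)) : Nice B (onF F B) := by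
  refine ⟨?_, ?_, ?_⟩
  · exact (hm B.card).comp (compL (B.orderEmbOfFin rfl)).continuous.measurable
  · obtain ⟨C, hC⟩ := hb B.card
    exact ⟨C, fun x => hC _⟩
  · intro x x' h
    unfold onF
    congr 1
    funext m
    exact h _ (Finset.orderEmbOfFin_mem B rfl m)

/-- The chain rule for an injective relabelling. -/
theorem pd_comp_inj {k : ℕ} {F : (Fin k → R3) → ℝ} (hF : ContDiff ℝ 1 F) {e : Fin k → Fin N}
    (he : Function.Injective e) (m : Fin k) (a : Fin 3) (x : Fin N → R3) :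
    pd (fun x : Fin N → R3 => F (x ∘ e)) (e m) a x = pd F m a (x ∘ e) := by
  unfold pd
  rw [fderiv_comp_e hF]
  congr 1
  funext m'
  simp only [Function.comp_apply]
  by_cases hm : m' = m
  · subst hm
    rw [Pi.single_eq_same, Pi.single_eq_same]
  · rw [Pi.single_eq_of_ne hm, Pi.single_eq_of_ne]
    exact fun hc => hm (he hc)

theorem pd_comp_not_mem {k : ℕ} {F : (Fin k → R3) → ℝ} (hF : ContDiff ℝ 1 F) {e : Fin k → Fin N}
    {i : Fin N} (hi : ∀ m, e m ≠ i) (a : Fin 3) (x : Fin N → R3) :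
    pd (fun x : Fin N → R3 => F (x ∘ e)) i a x = 0 := by
  unfold pd
  rw [fderiv_comp_e hF]
  have : (Pi.single i (Pi.single a 1) : Fin N → R3) ∘ e = 0 := by
    funext m
    simp only [Function.comp_apply]
    rw [Pi.single_eq_of_ne (hi m)]
    rfl
  rw [this, map_zero]

theorem contDiff_onF {F : ∀ k : ℕ, (Fin k → R3) → ℝ} (hF : ∀ k, ContDiff ℝ 1 (F k))
    (B : Finset (Fin N)) : ContDiff ℝ 1 (onF F B) := by
  rw [onF_eq_comp]
  exact contDiff_comp (hF _) _

theorem pd_onF_not_mem {F : ∀ k : ℕ, (Fin k → R3) → ℝ} (hF : ∀ k, ContDiff ℝ 1 (F k))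
    {B : Finset (Fin N)} {i : Fin N} (hi : i ∉ B) (a : Fin 3) (x : Fin N → R3) :
    pd (onF F B) i a x = 0 := by
  rw [onF_eq_comp]
  refine pd_comp_not_mem (hF _) (fun m hm => hi ?_) a x
  rw [← hm]
  exact Finset.orderEmbOfFin_mem B rfl m

/-- A bound of the partial derivatives of `F k` gives one for `onF F B`. -/
theorem abs_pd_onF_le {F : ∀ k : ℕ, (Fin k → R3) → ℝ} (hF : ∀ k, ContDiff ℝ 1 (F k))
    {G : ∀ k : ℕ, (Fin k → R3) → ℝ} (hG : ∀ k m a x, |pd (F k) m a x| ≤ G k x)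
    (hG0 : ∀ k x, 0 ≤ G k x) (B : Finset (Fin N)) (i : Fin N) (a : Fin 3) (x : Fin N → R3) :
    |pd (onF F B) i a x| ≤ onF G B x := by
  by_cases hi : i ∈ B
  · have hr : i ∈ Set.range (B.orderEmbOfFin rfl) := by
      rw [Finset.range_orderEmbOfFin]
      exact hi
    obtain ⟨m, rfl⟩ := hr
    rw [onF_eq_comp F, pd_comp_inj (hF _) (B.orderEmbOfFin rfl).injective]
    exact hG _ _ _ _
  · rw [pd_onF_not_mem hF hi, abs_zero]
    exact hG0 _ _

/-- The gradient square of a function of the particles of `B`: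
`∑_{i,a} (pd (F∘e) i a)² = gg F F (x∘e)`; and the mixed version. -/
theorem sum_pd_comp_inj {k : ℕ} {F G : (Fin k → R3) → ℝ} (hF : ContDiff ℝ 1 F)
    (hG : ContDiff ℝ 1 G) {e : Fin k → Fin N} (he : Function.Injective e) (x : Fin N → R3) :
    ∑ i, ∑ a, pd (fun x : Fin N → R3 => F (x ∘ e)) i a x *
      pd (fun x : Fin N → R3 => G (x ∘ e)) i a x = gg F G (x ∘ e) := by
  classical
  have h1 : ∑ i, ∑ a, pd (fun x : Fin N → R3 => F (x ∘ e)) i a x *
      pd (fun x : Fin N → R3 => G (x ∘ e)) i a x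
      = ∑ i ∈ Finset.univ.image e, ∑ a, pd (fun x : Fin N → R3 => F (x ∘ e)) i a x *
      pd (fun x : Fin N → R3 => G (x ∘ e)) i a x := by
    symm
    refine Finset.sum_subset (Finset.subset_univ _) fun i _ hi => ?_
    refine Finset.sum_eq_zero fun a _ => ?_
    rw [pd_comp_not_mem hF, zero_mul]
    intro m hm
    exact hi (Finset.mem_image.mpr ⟨m, Finset.mem_univ _, hm⟩)
  rw [h1, Finset.sum_image fun m _ m' _ h => he h]
  unfold gg
  refine Finset.sum_congr rfl fun m _ => Finset.sum_congr rfl fun a _ => ?_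
  rw [pd_comp_inj hF he, pd_comp_inj hG he]

end Pool.Agent.Lib.MP_5db8e2_mp
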