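import Pool.Agent.Lib.MP_5db8e2_mp.TrialA1

/-!
# Functions of clusters inside a configuration: permutations
-/

set_option autoImplicit false

open MeasureTheory Filter Topology

namespace Pool.Agent.Lib.MP_5db8e2_mp

variable {N : ℕ}

/-- Permutation invariance of the family: any enumeration of `B` gives the same value. -/
theorem onF_eq_of_inj {F : ∀ k : ℕ, (Fin k → R3) → ℝ} (hF : ∀ k, PI (F k)) {B : Finset (Fin N)}
    {k : ℕ} {e : Fin k → Fin N} (he : Function.Injective e) (hB : Finset.univ.image e = B)
    (x : Fin N → R3) : onF F B x = F k (x ∘ e) := by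
  have hk : B.card = k := by
    rw [← hB, Finset.card_image_of_injective _ he, Finset.card_univ, Fintype.card_fin]
  subst hk
  have hmem : ∀ m, e m ∈ B := fun m => by
    rw [← hB]
    exact Finset.mem_image_of_mem e (Finset.mem_univ m)
  have hinj : Function.Injective
      (fun m : Fin B.card => (B.orderIsoOfFin rfl).symm ⟨e m, hmem m⟩) := by
    intro m m' h
    have h1 := (B.orderIsoOfFin rfl).symm.injective h
    exact he (congrArg Subtype.val h1)
  have hbij : Function.Bijective
      (fun m : Fin B.card => (B.orderIsoOfFin rfl).symm ⟨e m, hmem m⟩) :=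
    Finite.injective_iff_bijective.1 hinj
  have h2 := hF B.card (Equiv.ofBijective _ hbij) fun m => x (B.orderEmbOfFin rfl m)
  unfold onF
  rw [← h2]
  congr 1
  funext m
  simp only [Function.comp_apply, Equiv.ofBijective_apply]
  congr 1
  have h3 : ((B.orderIsoOfFin rfl) ((B.orderIsoOfFin rfl).symm ⟨e m, hmem m⟩) : Fin N) = e m := by
    rw [OrderIso.apply_symm_apply]
  exact h3

/-- Relabelling: `onF F B (x ∘ σ) = onF F (B.image σ) x`. -/
theorem onF_perm {F : ∀ k : ℕ, (Fin k → R3) → ℝ} (hF : ∀ k, PI (F k)) (B : Finset (Fin N))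
    (σ : Equiv.Perm (Fin N)) (x : Fin N → R3) : onF F B (x ∘ σ) = onF F (B.image σ) x := by
  have he : Function.Injective (fun m : Fin B.card => σ (B.orderEmbOfFin rfl m)) := fun m m' h =>
    (B.orderEmbOfFin rfl).injective (σ.injective h)
  have hB : Finset.univ.image (fun m : Fin B.card => σ (B.orderEmbOfFin rfl m)) = B.image σ := by
    have h1 : Finset.univ.image (fun m : Fin B.card => B.orderEmbOfFin rfl m) = B :=
      Finset.image_orderEmbOfFin_univ B rfl
    conv_rhs => rw [← h1]
    rw [Finset.image_image]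
    rfl
  rw [onF_eq_of_inj hF he hB x]
  rfl

theorem Psi_onF_perm {F : ∀ k : ℕ, (Fin k → R3) → ℝ} (hF : ∀ k, PI (F k))
    (σ : Equiv.Perm (Fin N)) (x : Fin N → R3) :
    Psi (onF F) Finset.univ (x ∘ σ) = Psi (onF F) Finset.univ x := by
  unfold Psi
  rw [Finset.prod_congr rfl fun B _ => onF_perm hF B σ x]
  simp only [Finset.powerset_univ]
  refine Fintype.prod_bijective (fun B : Finset (Fin N) => B.image σ) ?_ _ _ fun B => rfl
  refine Finite.injective_iff_bijective.1 fun B C h => ?_
  exact Finset.image_injective σ.injective h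

end Pool.Agent.Lib.MP_5db8e2_mp
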