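import Pool.Agent.Lib.MP_5db8e2_mp.Iface
import Pool.Agent.Lib.MP_5db8e2_mp.TrialA1

/-!
# Functions of clusters inside a configuration: triples and quadruples
-/

set_option autoImplicit false

open MeasureTheory Filter Topology

namespace Pool.Agent.Lib.MP_5db8e2_mp

variable {N : ℕ}

/-- The triples inside a quadruple: `x∘e_{Q.erase (e_Q l)} = sub4 l (x∘e_Q)`. -/
theorem onF_erase {F : ∀ k : ℕ, (Fin k → R3) → ℝ} {Q : Finset (Fin N)} (hQ : Q.card = 4)
    (l : Fin 4) (x : Fin N → R3) :
    onF F (Q.erase (Q.orderEmbOfFin hQ l)) x = F 3 (sub4 l (x ∘ Q.orderEmbOfFin hQ)) := by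
  have hc : (Q.erase (Q.orderEmbOfFin hQ l)).card = 3 := by
    rw [Finset.card_erase_of_mem (Finset.orderEmbOfFin_mem Q hQ l), hQ]
  rw [onF_eq F hc x]
  have h := Finset.orderEmbOfFin_unique hc
    (f := fun m => Q.orderEmbOfFin hQ (l.succAbove m))
    (fun m => Finset.mem_erase.2 ⟨fun h => Fin.succAbove_ne l m
      ((Q.orderEmbOfFin hQ).injective h), Finset.orderEmbOfFin_mem Q hQ _⟩)
    ((Q.orderEmbOfFin hQ).strictMono.comp (Fin.strictMono_succAbove l))
  congr 1
  funext m
  rw [← h]
  rfl

/-- The product over the subsets of a quadruple, if `F k = 1` for `k < 3`. -/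
theorem Psi_four {F : ∀ k : ℕ, (Fin k → R3) → ℝ} (hF : ∀ k x, (k < 3 ∨ 5 < k) → F k x = 1)
    {Q : Finset (Fin N)} (hQ : Q.card = 4) (x : Fin N → R3) :
    Psi (onF F) Q x = (∏ l, F 3 (sub4 l (x ∘ Q.orderEmbOfFin hQ))) *
      F 4 (x ∘ Q.orderEmbOfFin hQ) := by
  classical
  unfold Psi
  set e := Q.orderEmbOfFin hQ with he
  set I : Finset (Finset (Fin N)) := Finset.univ.image (fun l : Fin 4 => Q.erase (e l)) with hI
  have hinj : Function.Injective (fun l : Fin 4 => Q.erase (e l)) := by
    intro l l' h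
    by_contra hne
    have h1 : e l ∈ Q.erase (e l') :=
      Finset.mem_erase.2 ⟨fun h => hne (e.injective h), Finset.orderEmbOfFin_mem Q hQ l⟩
    have h' : Q.erase (e l) = Q.erase (e l') := h
    rw [← h'] at h1
    exact Finset.notMem_erase _ _ h1
  have hQI : Q ∉ I := by
    intro h
    obtain ⟨l, -, hl⟩ := Finset.mem_image.1 h
    have h1 : e l ∈ Q.erase (e l) := by
      have := Finset.orderEmbOfFin_mem Q hQ l
      rw [hl]
      exact this
    exact Finset.notMem_erase _ _ h1
  have hsub : insert Q I ⊆ Q.powerset := by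
    intro B hB
    rw [Finset.mem_powerset]
    rcases Finset.mem_insert.1 hB with rfl | hB
    · exact Finset.Subset.refl _
    · obtain ⟨l, -, rfl⟩ := Finset.mem_image.1 hB
      exact Finset.erase_subset _ _
  rw [← Finset.prod_subset hsub]
  · rw [Finset.prod_insert hQI, hI, Finset.prod_image fun l _ l' _ h => hinj h, mul_comm,
      onF_eq F hQ x]
    congr 1
    exact Finset.prod_congr rfl fun l _ => onF_erase hQ l x
  · intro B hB hn
    have hBQ : B ⊆ Q := Finset.mem_powerset.1 hB
    have hne : B ≠ Q := fun h => hn (by rw [h]; exact Finset.mem_insert_self _ _)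
    have hlt : B.card < 4 := by
      have := Finset.card_lt_card (hBQ.ssubset_of_ne hne)
      omega
    have hn3 : B.card ≠ 3 := by
      intro h3
      apply hn
      apply Finset.mem_insert_of_mem
      have hc : (Q \ B).card = 1 := by
        rw [Finset.card_sdiff_of_subset hBQ, hQ, h3]
      obtain ⟨a, ha⟩ := Finset.card_eq_one.1 hc
      have haQ : a ∈ Q := (Finset.mem_sdiff.1 (by rw [ha]; exact Finset.mem_singleton_self a)).1
      have hr : a ∈ Set.range e := by
        rw [he, Finset.range_orderEmbOfFin]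
        exact haQ
      obtain ⟨l, hl⟩ := hr
      rw [hI, Finset.mem_image]
      refine ⟨l, Finset.mem_univ l, ?_⟩
      rw [hl, ← Finset.sdiff_singleton_eq_erase, ← ha, Finset.sdiff_sdiff_eq_self hBQ]
    exact hF _ _ (Or.inl (by omega))

theorem Psi_three {F : ∀ k : ℕ, (Fin k → R3) → ℝ} (hF : ∀ k x, (k < 3 ∨ 5 < k) → F k x = 1)
    {T : Finset (Fin N)} (hT : T.card = 3) (x : Fin N → R3) :
    Psi (onF F) T x = F 3 (x ∘ T.orderEmbOfFin hT) := by
  classical
  unfold Psi
  rw [Finset.prod_eq_single_of_mem T (Finset.mem_powerset_self T)]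
  · rw [onF_eq F hT x]
    rfl
  · intro B hB hne
    have hBT : B ⊂ T := (Finset.mem_powerset.1 hB).ssubset_of_ne hne
    have := Finset.card_lt_card hBT
    exact hF _ _ (Or.inl (by omega))

/-- The potential energy as a sum over the triples. -/
theorem pot_eq (V : R3 → R3 → ℝ) (F : ∀ k : ℕ, (Fin k → R3) → ℝ) (h3 : F 3 = V3 V)
    (h0 : ∀ k x, k ≠ 3 → F k x = 0) (x : Fin N → R3) :
    pot V x = ∑ B : Finset (Fin N), onF F B x := by
  classical
  have hcard : ∀ i j k : Fin N, i < j → j < k → ({i, j, k} : Finset (Fin N)).card = 3 := by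
    intro i j k hij hjk
    rw [Finset.card_eq_three]
    exact ⟨i, j, k, hij.ne, (hij.trans hjk).ne, hjk.ne, rfl⟩
  have hemb : ∀ (i j k : Fin N) (hij : i < j) (hjk : j < k),
      (![i, j, k] : Fin 3 → Fin N) = ({i, j, k} : Finset (Fin N)).orderEmbOfFin
        (hcard i j k hij hjk) := by
    intro i j k hij hjk
    apply Finset.orderEmbOfFin_unique
    · intro m
      fin_cases m <;> simp
    · rw [Fin.strictMono_iff_lt_succ]
      intro m
      fin_cases m
      · exact hij
      · exact hjk
  have hval : ∀ (i j k : Fin N) (hij : i < j) (hjk : j < k),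
      onF F {i, j, k} x = V (x i - x j) (x i - x k) := by
    intro i j k hij hjk
    rw [onF_eq F (hcard i j k hij hjk) x, h3, ← hemb i j k hij hjk]
    rfl
  have e1 : pot V x = ∑ t ∈ (Finset.univ : Finset (Fin N × Fin N × Fin N)).filter
      (fun t => t.1 < t.2.1 ∧ t.2.1 < t.2.2), V (x t.1 - x t.2.1) (x t.1 - x t.2.2) := by
    unfold pot
    rw [Finset.sum_filter, ← Finset.univ_product_univ, Finset.sum_product]
    refine Finset.sum_congr rfl fun i _ => ?_
    rw [← Finset.univ_product_univ, Finset.sum_product]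
  have e2 : ∑ B : Finset (Fin N), onF F B x =
      ∑ B ∈ (Finset.univ : Finset (Fin N)).powersetCard 3, onF F B x := by
    symm
    apply Finset.sum_subset (Finset.subset_univ _)
    intro B _ hB
    have hc : B.card ≠ 3 := fun h => hB (Finset.mem_powersetCard.2 ⟨Finset.subset_univ _, h⟩)
    exact h0 _ _ hc
  rw [e1, e2]
  refine Finset.sum_nbij (fun t => {t.1, t.2.1, t.2.2}) ?_ ?_ ?_ ?_
  · rintro ⟨i, j, k⟩ ht
    have ht' := (Finset.mem_filter.1 ht).2
    exact Finset.mem_powersetCard.2 ⟨Finset.subset_univ _, hcard i j k ht'.1 ht'.2⟩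
  · rintro ⟨i, j, k⟩ ht ⟨i', j', k'⟩ ht' heq
    have h1 := (Finset.mem_filter.1 (Finset.mem_coe.1 ht)).2
    have h2 := (Finset.mem_filter.1 (Finset.mem_coe.1 ht')).2
    have heq' : ({i, j, k} : Finset (Fin N)) = {i', j', k'} := heq
    have h3 : (![i, j, k] : Fin 3 → Fin N) = ![i', j', k'] := by
      rw [hemb i' j' k' h2.1 h2.2]
      apply Finset.orderEmbOfFin_unique
      · intro m
        rw [← heq']
        fin_cases m <;> simp
      · rw [Fin.strictMono_iff_lt_succ]
        intro m
        fin_cases m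
        · exact h1.1
        · exact h1.2
    have c0 := congrFun h3 0
    have c1 := congrFun h3 1
    have c2 := congrFun h3 2
    simp only [Matrix.cons_val_zero, Matrix.cons_val_one, Matrix.cons_val] at c0 c1 c2
    rw [c0, c1, c2]
  · intro B hB
    have hc : B.card = 3 := (Finset.mem_powersetCard.1 (Finset.mem_coe.1 hB)).2
    set e := B.orderEmbOfFin hc with he
    refine ⟨(e 0, e 1, e 2), ?_, ?_⟩
    · rw [Finset.mem_coe, Finset.mem_filter]
      refine ⟨Finset.mem_univ _, e.strictMono (by decide), e.strictMono (by decide)⟩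
    · show ({e 0, e 1, e 2} : Finset (Fin N)) = B
      apply Finset.eq_of_subset_of_card_le
      · intro b hb
        simp only [Finset.mem_insert, Finset.mem_singleton] at hb
        rcases hb with rfl | rfl | rfl <;> exact Finset.orderEmbOfFin_mem B hc _
      · rw [hc, hcard (e 0) (e 1) (e 2) (e.strictMono (by decide)) (e.strictMono (by decide))]
  · rintro ⟨i, j, k⟩ ht
    have ht' := (Finset.mem_filter.1 ht).2
    exact (hval i j k ht'.1 ht'.2).symm

end Pool.Agent.Lib.MP_5db8e2_mp
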