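import Pool.Agent.Lib.MP_5db8e2_mp.CluA

/-!
# The uniform law in the cube
-/

set_option autoImplicit false

open MeasureTheory Filter Topology

namespace Pool.Agent.Lib.MP_5db8e2_mp

variable {N : ℕ}

/-- The cube of side `L`. -/
def cubeU (L : ℝ) : Set R3 := {t | ∀ a, |t a| ≤ L / 2}

/-- The uniform law in the cube. -/
noncomputable def muL (L : ℝ) : Measure R3 := (ENNReal.ofReal (L ^ 3))⁻¹ • volume.restrict (cubeU L)

theorem cube_eq_Icc (L : ℝ) : cubeU L = Set.Icc (fun _ => -(L / 2)) (fun _ => L / 2) := by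
  ext t
  simp only [cubeU, Set.mem_ofPred_eq, Set.mem_Icc, Pi.le_def, abs_le]
  exact forall_and

theorem measurableSet_cube (L : ℝ) : MeasurableSet (cubeU L) := by
  rw [cube_eq_Icc]
  exact measurableSet_Icc

theorem volume_cube {L : ℝ} (hL : 0 < L) : volume (cubeU L) = ENNReal.ofReal (L ^ 3) := by
  rw [cube_eq_Icc, Real.volume_Icc_pi]
  simp only [sub_neg_eq_add, add_halves, Finset.prod_const, Finset.card_univ, Fintype.card_fin]
  rw [ENNReal.ofReal_pow hL.le]

theorem isProb_muL {L : ℝ} (hL : 0 < L) : IsProbabilityMeasure (muL L) := by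
  have h3 : 0 < L ^ 3 := by positivity
  refine ⟨?_⟩
  unfold muL
  rw [Measure.smul_apply, Measure.restrict_apply MeasurableSet.univ, Set.univ_inter,
    volume_cube hL, smul_eq_mul]
  exact ENNReal.inv_mul_cancel (ENNReal.ofReal_pos.2 h3).ne' ENNReal.ofReal_ne_top

theorem box_eq_pi (L : ℝ) (N : ℕ) : box L N = Set.pi Set.univ fun _ : Fin N => cubeU L := by
  ext x
  simp [box, cubeU, Set.mem_pi]

theorem PP_muL {L : ℝ} (hL : 0 < L) (N : ℕ) :
    PP (muL L) N = ((ENNReal.ofReal (L ^ 3))⁻¹) ^ N •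
      (volume : Measure (Fin N → R3)).restrict (box L N) := by
  have := isProb_muL hL
  unfold PP
  refine Measure.pi_eq fun s hs => ?_
  rw [Measure.smul_apply, Measure.restrict_apply (MeasurableSet.univ_pi hs), box_eq_pi,
    ← Set.pi_inter_distrib, volume_pi, Measure.pi_pi, smul_eq_mul]
  unfold muL
  simp only [Measure.smul_apply, smul_eq_mul, Finset.prod_mul_distrib, Finset.prod_const,
    Finset.card_univ, Fintype.card_fin]
  congr 1
  refine Finset.prod_congr rfl fun i _ => ?_
  rw [Measure.restrict_apply (hs i)]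

/-- Expectations as normalised integrals over the box. -/
theorem integral_PP {L : ℝ} (hL : 0 < L) (F : (Fin N → R3) → ℝ) :
    ∫ x, F x ∂(PP (muL L) N) = ((L ^ 3) ^ N)⁻¹ * ∫ x in box L N, F x := by
  rw [PP_muL hL, integral_smul_measure, smul_eq_mul]
  congr 1
  rw [ENNReal.toReal_pow, ENNReal.toReal_inv, ENNReal.toReal_ofReal (by positivity), inv_pow]

theorem integral_muL_le {L : ℝ} (hL : 0 < L) {w : R3 → ℝ} (hw : Integrable w)
    (hw0 : ∀ t, 0 ≤ w t) (c : R3) : ∫ t, w (t - c) ∂(muL L) ≤ (L ^ 3)⁻¹ * ∫ t, w t := by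
  unfold muL
  rw [integral_smul_measure, smul_eq_mul, ENNReal.toReal_inv,
    ENNReal.toReal_ofReal (by positivity)]
  refine mul_le_mul_of_nonneg_left ?_ (by positivity)
  have h1 : Integrable fun t => w (t - c) := hw.comp_sub_right c
  calc ∫ t in cubeU L, w (t - c) ≤ ∫ t, w (t - c) :=
        setIntegral_le_integral h1 (Filter.Eventually.of_forall fun t => hw0 _)
    _ = ∫ t, w t := integral_sub_right_eq_self w c

end Pool.Agent.Lib.MP_5db8e2_mp
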