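import Pool.Agent.Lib.MP_5db8e2_mp.TrialB1
import Pool.Agent.Lib.MP_5db8e2_mp.RintB

/-!
# Expectations of translation invariant functions
-/

set_option autoImplicit false

open MeasureTheory Filter Topology

namespace Pool.Agent.Lib.MP_5db8e2_mp

variable {N : ℕ}

namespace TrialB2aux

theorem cube_eq_Icc (L : ℝ) : cubeU L = Set.Icc (fun _ : Fin 3 => -(L / 2)) (fun _ => L / 2) := by
  ext t
  simp only [cubeU, Set.mem_ofPred_eq, Set.mem_Icc, Pi.le_def, abs_le]
  exact forall_and

theorem measurableSet_cube (L : ℝ) : MeasurableSet (cubeU L) := by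
  rw [cube_eq_Icc]
  exact measurableSet_Icc

theorem volume_cube (L : ℝ) : volume (cubeU L) = ENNReal.ofReal L ^ 3 := by
  rw [cube_eq_Icc, Real.volume_Icc_pi]
  simp

theorem volume_cube_lt_top (L : ℝ) : volume (cubeU L) < ⊤ := by
  rw [volume_cube]
  exact ENNReal.pow_lt_top ENNReal.ofReal_lt_top

theorem integrable_ind_cube (L : ℝ) :
    Integrable ((cubeU L).indicator (fun _ : R3 => (1 : ℝ))) :=
  (integrable_indicator_iff (measurableSet_cube L)).2
    (integrableOn_const (volume_cube_lt_top L).ne)

theorem integral_ind_cube {L : ℝ} (hL : 0 ≤ L) :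
    ∫ c, (cubeU L).indicator (fun _ : R3 => (1 : ℝ)) c = L ^ 3 := by
  rw [integral_indicator (measurableSet_cube L)]
  rw [setIntegral_const, measureReal_def, volume_cube, smul_eq_mul, mul_one, ENNReal.toReal_pow,
    ENNReal.toReal_ofReal hL]

/-- The marginal of a product of probability measures. -/
theorem PP_marginal (μ : Measure R3) [IsProbabilityMeasure μ] {m : ℕ} {e : Fin m → Fin N}
    (he : Function.Injective e) :
    MeasurePreserving (fun x : Fin N → R3 => x ∘ e) (PP μ N) (PP μ m) := by
  have hm : Measurable (fun x : Fin N → R3 => x ∘ e) :=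
    measurable_pi_lambda _ fun i => measurable_pi_apply (e i)
  refine ⟨hm, ?_⟩
  symm
  apply Measure.pi_eq
  intro s hs
  rw [Measure.map_apply hm (MeasurableSet.univ_pi hs)]
  have hset : (fun x : Fin N → R3 => x ∘ e) ⁻¹' Set.univ.pi s =
      Set.univ.pi (fun i : Fin N => {y : R3 | ∀ j, e j = i → y ∈ s j}) := by
    ext x
    simp only [Set.mem_preimage, Set.mem_pi, Set.mem_univ, true_implies, Function.comp_apply,
      Set.mem_ofPred_eq]
    constructor
    · rintro h i j rfl
      exact h j
    · intro h j
      exact h (e j) j rfl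
  rw [hset, PP, Measure.pi_pi]
  rw [← Finset.prod_subset (Finset.subset_univ (Finset.univ.image e))]
  · rw [Finset.prod_image (fun a _ b _ h => he h)]
    apply Finset.prod_congr rfl
    intro j _
    congr 1
    ext y
    simp only [Set.mem_ofPred_eq]
    constructor
    · intro h
      exact h j rfl
    · intro h j' hj'
      rw [he hj']
      exact h
  · intro i _ hi
    have : {y : R3 | ∀ j, e j = i → y ∈ s j} = Set.univ := by
      ext y
      simp only [Set.mem_ofPred_eq, Set.mem_univ, iff_true]
      intro j hj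
      exact absurd (Finset.mem_image.2 ⟨j, Finset.mem_univ _, hj⟩) hi
    rw [this, measure_univ]

theorem expect_eq {L : ℝ} (hL : 0 < L) {k : ℕ} {F : (Fin (k + 1) → R3) → ℝ}
    (hF : Measurable F) {e : Fin (k + 1) → Fin N} (he : Function.Injective e) :
    ∫ x, F (x ∘ e) ∂(PP (muL L) N) = ((L ^ 3) ^ (k + 1))⁻¹ * ∫ x in box L (k + 1), F x := by
  have := isProb_muL hL
  have hP := PP_marginal (N := N) (muL L) he
  rw [← integral_PP hL F, ← hP.map_eq]
  rw [integral_map hP.measurable.aemeasurable hF.aestronglyMeasurable]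

theorem measurableSet_box (L : ℝ) (N : ℕ) : MeasurableSet (box L N) := by
  have : box L N = Set.univ.pi (fun _ : Fin N => cubeU L) := by
    ext x
    simp [box, cubeU]
  rw [this]
  exact MeasurableSet.univ_pi fun _ => measurableSet_cube L

theorem abs_RI {k : ℕ} {F : (Fin (k + 1) → R3) → ℝ} (hI : RI F) : RI (fun x => |F x|) :=
  Integrable.abs hI

/-- `x ↦ 1_cube(x 0) F x` integrates to `L³ rint F`. -/
theorem integral_cube_mul {L : ℝ} (hL : 0 ≤ L) {k : ℕ} {F : (Fin (k + 1) → R3) → ℝ}
    (hF : Measurable F) (ht : TI F) (hI : RI F) :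
    Integrable (fun x => (cubeU L).indicator (fun _ : R3 => (1 : ℝ)) (x 0) * F x) ∧
    ∫ x, (cubeU L).indicator (fun _ : R3 => (1 : ℝ)) (x 0) * F x = L ^ 3 * rint F := by
  have h := integral_weight hF ht hI (ℓ := fun x => x 0) (measurable_pi_apply 0)
    (fun x v => rfl) (integrable_ind_cube L)
  rw [integral_ind_cube hL] at h
  exact h

theorem box_mem_cube {L : ℝ} {k : ℕ} {x : Fin (k + 1) → R3} (hx : x ∈ box L (k + 1))
    (i : Fin (k + 1)) : x i ∈ cubeU L := fun a => hx i a

end TrialB2aux

open TrialB2aux

/-- The expectation of a nonnegative translation invariant function of `k + 1` particles: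
`E ≤ L^{-3k} rint F` (Fubini: `x_0` first; enlarge the domain of the other particles). `e` is any
injective labelling (the marginal of the product law). -/
theorem expect_le_rint {L : ℝ} (hL : 0 < L) {k : ℕ} {F : (Fin (k + 1) → R3) → ℝ}
    (hF : Measurable F) (hb : ∃ C, ∀ x, |F x| ≤ C) (h0 : ∀ x, 0 ≤ F x) (ht : TI F) (hI : RI F)
    {e : Fin (k + 1) → Fin N} (he : Function.Injective e) :
    ∫ x, F (x ∘ e) ∂(PP (muL L) N) ≤ ((L ^ 3)⁻¹) ^ k * rint F := by
  rw [expect_eq hL hF he]
  obtain ⟨hint, heq⟩ := integral_cube_mul hL.le hF ht hI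
  have h1 : ∫ x in box L (k + 1), F x ≤ L ^ 3 * rint F := by
    rw [← heq, ← integral_indicator (measurableSet_box L (k + 1))]
    apply integral_mono_of_nonneg
    · exact Eventually.of_forall fun x => Set.indicator_nonneg (fun x _ => h0 x) x
    · exact hint
    · refine Eventually.of_forall fun x => ?_
      by_cases hx : x ∈ box L (k + 1)
      · simp [Set.indicator_of_mem hx, Set.indicator_of_mem (box_mem_cube hx 0)]
      · simp only [Set.indicator_of_notMem hx]
        exact mul_nonneg (Set.indicator_nonneg (fun _ _ => zero_le_one) _) (h0 x)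
  calc ((L ^ 3) ^ (k + 1))⁻¹ * ∫ x in box L (k + 1), F x
      ≤ ((L ^ 3) ^ (k + 1))⁻¹ * (L ^ 3 * rint F) := by
        apply mul_le_mul_of_nonneg_left h1
        positivity
    _ = ((L ^ 3)⁻¹) ^ k * rint F := by
        have hL3 : L ^ 3 ≠ 0 := by positivity
        rw [pow_succ, inv_pow]
        field_simp

/-- The expectation of a translation invariant function, asymptotically for `L → ∞`, uniformly in
`N` and in the labelling: `L^{3k} E[F] → rint F`. Proof: marginal; the integral over the box is
`∫_{x_0 ∈ cube} ∫_{y : x_0 + y ∈ cube} F(0,y)`; with the scaling `x_0 = L t` and dominated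
convergence; or: the error is at most `∫ |F(0,y)| min(1, C‖y‖/L) dy → 0`. -/
theorem expect_tendsto {k : ℕ} {F : (Fin (k + 1) → R3) → ℝ} (hF : Measurable F) (ht : TI F)
    (hI : RI F) {η : ℝ} (hη : 0 < η) : ∃ L0 > 0, ∀ L ≥ L0, ∀ (N : ℕ) (e : Fin (k + 1) → Fin N),
      Function.Injective e →
      |∫ x, F (x ∘ e) ∂(PP (muL L) N) - ((L ^ 3)⁻¹) ^ k * rint F| ≤ ((L ^ 3)⁻¹) ^ k * η := by
  -- the tail
  set G : ℝ → (Fin (k + 1) → R3) → ℝ := fun R x =>
    {y : Fin k → R3 | R < ‖y‖}.indicator (fun _ => (1 : ℝ)) (fun j => x j.succ - x 0) * |F x|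
    with hG
  have hGm : ∀ R, Measurable (G R) := by
    intro R
    have h1 : MeasurableSet {y : Fin k → R3 | R < ‖y‖} :=
      measurableSet_lt measurable_const measurable_norm
    have h2 : Measurable (fun x : Fin (k + 1) → R3 => fun j : Fin k => x j.succ - x 0) :=
      measurable_pi_lambda _ fun j => (measurable_pi_apply _).sub (measurable_pi_apply _)
    exact ((measurable_const.indicator h1).comp h2).mul hF.abs
  have hGt : ∀ R, TI (G R) := by
    intro R x v
    simp only [hG]
    rw [ht x v]
    congr 3
    funext j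
    simp
  have hGI : ∀ R, RI (G R) := by
    intro R
    refine (abs_RI hI).mono (hGm R) fun x => ?_
    simp only [hG]
    by_cases hx : (fun j => x j.succ - x 0) ∈ {y : Fin k → R3 | R < ‖y‖}
    · simp [Set.indicator_of_mem hx]
    · simp [Set.indicator_of_notMem hx]
  have htail : ∃ R > 0, rint (G R) ≤ η / 2 := by
    have hlim : Tendsto (fun n : ℕ => rint (G n)) atTop (𝓝 0) := by
      have h := tendsto_integral_of_dominated_convergence (μ := (volume : Measure (Fin k → R3)))
        (F := fun (n : ℕ) y => G n (Fin.cons 0 y)) (f := fun _ => (0 : ℝ))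
        (fun y => |F (Fin.cons 0 y)|) (fun n => ((hGm n).comp measurable_cons0).aestronglyMeasurable)
        (abs_RI hI) ?_ ?_
      · simpa [rint] using h
      · intro n
        refine Eventually.of_forall fun y => ?_
        simp only [hG]
        rw [norm_mul, Real.norm_eq_abs, Real.norm_eq_abs, abs_abs]
        refine mul_le_of_le_one_left (abs_nonneg _) ?_
        rw [abs_of_nonneg (Set.indicator_nonneg (fun _ _ => zero_le_one) _)]
        exact Set.indicator_le_self' (fun _ _ => zero_le_one) _
      · refine Eventually.of_forall fun y => ?_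
        obtain ⟨n0, hn0⟩ := exists_nat_ge ‖y‖
        refine tendsto_const_nhds.congr' ?_
        filter_upwards [eventually_ge_atTop n0] with n hn
        simp only [hG]
        rw [Set.indicator_of_notMem, zero_mul]
        simp only [Fin.cons_succ, Fin.cons_zero, sub_zero, Set.mem_ofPred_eq, not_lt]
        exact hn0.trans (by exact_mod_cast hn)
    have h2 := (hlim.eventually (gt_mem_nhds (half_pos hη))).and (eventually_gt_atTop 0)
    obtain ⟨n, hn, hn0⟩ := h2.exists
    exact ⟨n, by exact_mod_cast hn0, hn.le⟩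
  obtain ⟨R, hR, hRtail⟩ := htail
  set A : ℝ := rint (fun x => |F x|) with hA
  have hA0 : 0 ≤ A := rint_nonneg fun x => abs_nonneg _
  -- the choice of `L0`
  have hL0 : ∃ L0 > 0, ∀ L ≥ L0, 2 * R ≤ L ∧ (L ^ 3 - (L - 2 * R) ^ 3) * A ≤ L ^ 3 * (η / 2) := by
    refine ⟨2 * R + 12 * R * A / η + 1, by positivity, fun L hL => ?_⟩
    have hLR : 2 * R ≤ L := by
      have : 0 ≤ 12 * R * A / η := by positivity
      linarith
    refine ⟨hLR, ?_⟩
    have hLpos : 0 < L := by linarith
    have h1 : L ^ 3 - (L - 2 * R) ^ 3 ≤ 6 * R * L ^ 2 := by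
      nlinarith [mul_nonneg (mul_nonneg hR.le hR.le) (by linarith : (0 : ℝ) ≤ 3 * L - 2 * R)]
    have h2 : 12 * R * A / η ≤ L := by linarith
    rw [div_le_iff₀ hη] at h2
    calc (L ^ 3 - (L - 2 * R) ^ 3) * A ≤ 6 * R * L ^ 2 * A := mul_le_mul_of_nonneg_right h1 hA0
      _ = L ^ 2 / 2 * (12 * R * A) := by ring
      _ ≤ L ^ 2 / 2 * (L * η) := by
          apply mul_le_mul_of_nonneg_left h2
          positivity
      _ = L ^ 3 * (η / 2) := by ring
  obtain ⟨L0, hL0pos, hL0⟩ := hL0
  refine ⟨L0, hL0pos, fun L hL N e he => ?_⟩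
  obtain ⟨hLR, hLA⟩ := hL0 L hL
  have hLpos : 0 < L := lt_of_lt_of_le hL0pos hL
  rw [expect_eq hLpos hF he]
  obtain ⟨hint, heq⟩ := integral_cube_mul hLpos.le hF ht hI
  obtain ⟨hintG, heqG⟩ := integral_cube_mul hLpos.le (hGm R) (hGt R) (hGI R)
  have htabs : TI (fun x => |F x|) := fun x v => by simp only [ht x v]
  obtain ⟨hintA, heqA⟩ := integral_cube_mul hLpos.le hF.abs htabs (abs_RI hI)
  obtain ⟨hintB, heqB⟩ := integral_cube_mul (L := L - 2 * R) (by linarith) hF.abs htabs (abs_RI hI)
  have key : |(∫ x in box L (k + 1), F x) - L ^ 3 * rint F| ≤ L ^ 3 * η := by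
    have hbi : Integrable ((box L (k + 1)).indicator F) := by
      refine hint.mono (hF.indicator (measurableSet_box L (k + 1))).aestronglyMeasurable ?_
      refine Eventually.of_forall fun x => ?_
      by_cases hx : x ∈ box L (k + 1)
      · simp [Set.indicator_of_mem hx, Set.indicator_of_mem (box_mem_cube hx 0)]
      · simp only [Set.indicator_of_notMem hx, norm_zero]
        exact norm_nonneg _
    rw [← heq, ← integral_indicator (measurableSet_box L (k + 1)), ← integral_sub hbi hint,
      ← Real.norm_eq_abs]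
    have hbound : Integrable (fun x : Fin (k + 1) → R3 =>
        (cubeU L).indicator (fun _ : R3 => (1 : ℝ)) (x 0) * G R x +
          ((cubeU L).indicator (fun _ : R3 => (1 : ℝ)) (x 0) * |F x| -
            (cubeU (L - 2 * R)).indicator (fun _ : R3 => (1 : ℝ)) (x 0) * |F x|)) :=
      hintG.add (hintA.sub hintB)
    refine (norm_integral_le_of_norm_le hbound (Eventually.of_forall fun x => ?_)).trans ?_
    · have hsub : (cubeU (L - 2 * R)).indicator (fun _ : R3 => (1 : ℝ)) (x 0) ≤
          (cubeU L).indicator (fun _ : R3 => (1 : ℝ)) (x 0) := by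
        apply Set.indicator_le_indicator_of_subset
        · intro t ht' a
          exact (ht' a).trans (by linarith)
        · exact fun _ => zero_le_one
      have hG0 : 0 ≤ G R x := by
        simp only [hG]
        exact mul_nonneg (Set.indicator_nonneg (fun _ _ => zero_le_one) _) (abs_nonneg _)
      have hc0 : (0 : ℝ) ≤ (cubeU L).indicator (fun _ : R3 => (1 : ℝ)) (x 0) :=
        Set.indicator_nonneg (fun _ _ => zero_le_one) _
      have hF0 := abs_nonneg (F x)
      have hmul := mul_le_mul_of_nonneg_right hsub hF0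
      have hG1 := mul_nonneg hc0 hG0
      by_cases hx : x ∈ box L (k + 1)
      · rw [Set.indicator_of_mem hx, Set.indicator_of_mem (box_mem_cube hx 0), one_mul, sub_self,
          norm_zero]
        rw [Set.indicator_of_mem (box_mem_cube hx 0)] at hG1 hmul
        linarith
      · rw [Set.indicator_of_notMem hx, zero_sub, norm_neg, norm_mul, Real.norm_eq_abs,
          abs_of_nonneg hc0, Real.norm_eq_abs]
        by_cases hx0 : x 0 ∈ cubeU L
        · rw [Set.indicator_of_mem hx0] at *
          by_cases hx1 : x 0 ∈ cubeU (L - 2 * R)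
          · rw [Set.indicator_of_mem hx1]
            have hGx : G R x = |F x| := by
              simp only [hG]
              rw [Set.indicator_of_mem, one_mul]
              simp only [box, Set.mem_ofPred_eq, not_forall, not_le] at hx
              obtain ⟨i, a, hia⟩ := hx
              have hi : i ≠ 0 := by
                rintro rfl
                exact absurd (hx0 a) (not_le.2 hia)
              obtain ⟨j, rfl⟩ := Fin.exists_succ_eq_of_ne_zero hi
              have h1 : |x j.succ a - x 0 a| ≤ ‖fun j : Fin k => x j.succ - x 0‖ := by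
                have h2 := norm_le_pi_norm (fun j : Fin k => x j.succ - x 0) j
                have h3 := norm_le_pi_norm (x j.succ - x 0) a
                rw [Pi.sub_apply, Real.norm_eq_abs] at h3
                exact h3.trans h2
              have h4 : |x j.succ a| ≤ |x j.succ a - x 0 a| + |x 0 a| := by
                have := abs_add_le (x j.succ a - x 0 a) (x 0 a)
                rwa [sub_add_cancel] at this
              have h5 := hx1 a
              change R < _
              linarith
            rw [hGx]
            linarith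
          · rw [Set.indicator_of_notMem hx1]
            linarith
        · rw [Set.indicator_of_notMem hx0] at *
          linarith
    · have hsum := integral_add hintG (hintA.sub hintB)
      have hdif := integral_sub hintA hintB
      simp only [Pi.sub_apply] at hsum
      rw [hsum, hdif, heqG, heqA, heqB]
      have h6 : L ^ 3 * rint (G R) ≤ L ^ 3 * (η / 2) := by
        apply mul_le_mul_of_nonneg_left hRtail
        positivity
      have h7 : L ^ 3 * A - (L - 2 * R) ^ 3 * A ≤ L ^ 3 * (η / 2) := by
        rw [← sub_mul]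
        exact hLA
      linarith
  have hL3 : (0 : ℝ) < L ^ 3 := by positivity
  have e1 : ((L ^ 3) ^ (k + 1))⁻¹ * (∫ x in box L (k + 1), F x) - ((L ^ 3)⁻¹) ^ k * rint F =
      ((L ^ 3) ^ (k + 1))⁻¹ * ((∫ x in box L (k + 1), F x) - L ^ 3 * rint F) := by
    rw [mul_sub]
    congr 1
    rw [pow_succ, inv_pow]
    field_simp
    ring
  rw [e1, abs_mul, abs_of_pos (by positivity)]
  calc ((L ^ 3) ^ (k + 1))⁻¹ * |(∫ x in box L (k + 1), F x) - L ^ 3 * rint F|
      ≤ ((L ^ 3) ^ (k + 1))⁻¹ * (L ^ 3 * η) := by
        apply mul_le_mul_of_nonneg_left key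
        positivity
    _ = ((L ^ 3)⁻¹) ^ k * η := by
        rw [pow_succ, inv_pow]
        field_simp

end Pool.Agent.Lib.MP_5db8e2_mp
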