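import Pool.Agent.Lib.MP_5db8e2_mp.TrialB1
import Pool.Agent.Lib.MP_5db8e2_mp.CluE1

/-!
# Kernel bounds from pair bounds
-/

set_option autoImplicit false

open MeasureTheory Filter Topology

namespace Pool.Agent.Lib.MP_5db8e2_mp

variable {N : ℕ}

/-- **Kernel bounds from pair bounds.** `w2` for the triples with two particles to integrate,
`w1` in all the other cases. (`integral_star_le` with `D = B ∖ A`, `i ∈ B ∩ A`.) -/
theorem kern_of_pairs {L : ℝ} (hL : 0 < L) {C1 W1 W2 : ℝ} (hC1 : 0 ≤ C1) (hW1 : 1 ≤ W1)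
    (hW2 : 0 ≤ W2) {κ : Finset (Fin N) → (Fin N → R3) → ℝ} (hn : ∀ B, Nice B (κ B))
    (h0 : ∀ B x, 0 ≤ κ B x) (hz : ∀ B, (B.card < 3 ∨ 5 < B.card) → ∀ x, κ B x = 0)
    {w1 w2 : R3 → ℝ} (hw1 : Integrable w1) (hw1m : Measurable w1) (hw1b : ∃ C, ∀ t, |w1 t| ≤ C)
    (hw10 : ∀ t, 0 ≤ w1 t) (hw2 : Integrable w2) (hw2m : Measurable w2)
    (hw2b : ∃ C, ∀ t, |w2 t| ≤ C) (hw20 : ∀ t, 0 ≤ w2 t)
    (hI1 : ∫ t, w1 t ≤ W1) (hI2 : ∫ t, w2 t ≤ W2)
    (h1 : ∀ (B : Finset (Fin N)) (i : Fin N) (D : Finset (Fin N)), i ∈ B → D ⊆ B.erase i →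
      ∀ x, κ B x ≤ C1 * ∏ j ∈ D, w1 (x j - x i) ∨ (B.card = 3 ∧ D.card = 2))
    (h2 : ∀ (B : Finset (Fin N)) (i : Fin N), i ∈ B → B.card = 3 →
      ∀ x, κ B x ≤ C1 * ∏ j ∈ B.erase i, w2 (x j - x i)) :
    Kern (muL L) N (L ^ 3)⁻¹ (C1 * W1 ^ 5) (C1 * W2 ^ 2) κ := by
  classical
  have := isProb_muL hL
  have hp : 0 < (L ^ 3)⁻¹ := by positivity
  have hW10 : 0 ≤ W1 := zero_le_one.trans hW1
  -- the star estimate
  have star : ∀ (A B : Finset (Fin N)) (F : (Fin N → R3) → ℝ), Nice A F → (∀ x, 0 ≤ F x) →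
      ∀ i ∈ B, i ∈ A → ∀ (w : R3 → ℝ), Integrable w → Measurable w → (∃ C, ∀ t, |w t| ≤ C) →
      (∀ t, 0 ≤ w t) → ∀ W : ℝ, (∫ t, w t ≤ W) →
      (∀ x, κ B x ≤ C1 * ∏ j ∈ B \ A, w (x j - x i)) →
      ∫ x, F x * κ B x ∂(PP (muL L) N) ≤
        C1 * W ^ (B \ A).card * (L ^ 3)⁻¹ ^ (B \ A).card * ∫ x, F x ∂(PP (muL L) N) := by
    intro A B F hF hF0 i hiB hiA w hw hwm hwb hw0 W hI hκ
    have hW : ∀ (_ : Fin N) (c : R3), ∫ t, w (t - c) ∂(muL L) ≤ (L ^ 3)⁻¹ * W := fun _ c =>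
      (integral_muL_le hL hw hw0 c).trans (mul_le_mul_of_nonneg_left hI hp.le)
    have hs := integral_star_le (muL L) hF hF0 hiA (D := B \ A) Finset.sdiff_disjoint
      (w := fun _ => w) (fun _ => hwm) (fun _ => hwb) (fun _ => hw0)
      (W := fun _ => (L ^ 3)⁻¹ * W) hW
    have hbm : BM (fun x : Fin N → R3 => ∏ j ∈ B \ A, w (x j - x i)) :=
      BM.prod _ fun j _ => BM.comp (⟨hwm, hwb⟩ : BM w)
        ((measurable_pi_apply j).sub (measurable_pi_apply i))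
    have hmono : ∫ x, F x * κ B x ∂(PP (muL L) N)
        ≤ ∫ x, C1 * (F x * ∏ j ∈ B \ A, w (x j - x i)) ∂(PP (muL L) N) := by
      refine integral_mono ((hF.mul (hn B)).integrable (muL L)) ?_ fun x => ?_
      · exact ((hF.bm.mul hbm).integrable (PP (muL L) N)).const_mul C1
      · have h := mul_le_mul_of_nonneg_left (hκ x) (hF0 x)
        simp only at h ⊢
        linarith
    rw [integral_const_mul] at hmono
    refine hmono.trans ((mul_le_mul_of_nonneg_left hs hC1).trans (le_of_eq ?_))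
    rw [Finset.prod_const, mul_pow]
    ring
  refine ⟨hn, h0, hz, fun A B F hF hF0 hd => ?_⟩
  have hIF : 0 ≤ ∫ x, F x ∂(PP (muL L) N) := integral_nonneg hF0
  by_cases hcard : B.card < 3 ∨ 5 < B.card
  · have h : (fun x => F x * κ B x) = fun _ => 0 := by
      funext x
      rw [hz B hcard x, mul_zero]
    rw [h, integral_zero]
    have : 0 ≤ (if B.card = 3 ∧ (B ∩ A).card = 1 then C1 * W2 ^ 2 else C1 * W1 ^ 5) := by
      split_ifs <;> positivity
    positivity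
  push Not at hcard
  rw [Finset.not_disjoint_iff] at hd
  obtain ⟨i, hiB, hiA⟩ := hd
  have hint : i ∈ B ∩ A := Finset.mem_inter.2 ⟨hiB, hiA⟩
  have hadd := Finset.card_sdiff_add_card_inter B A
  have hDsub : B \ A ⊆ B.erase i := by
    intro j hj
    rw [Finset.mem_sdiff] at hj
    rw [Finset.mem_erase]
    exact ⟨fun h => hj.2 (h ▸ hiA), hj.1⟩
  by_cases hc : B.card = 3 ∧ (B ∩ A).card = 1
  · rw [if_pos hc]
    have hDeq : B \ A = B.erase i := by
      apply Finset.eq_of_subset_of_card_le hDsub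
      rw [Finset.card_erase_of_mem hiB]
      omega
    have h := star A B F hF hF0 i hiB hiA w2 hw2 hw2m hw2b hw20 W2 hI2 (by
      rw [hDeq]
      exact h2 B i hiB hc.1)
    have hD2 : (B \ A).card = 2 := by omega
    rw [hD2] at h ⊢
    exact h
  · rw [if_neg hc]
    have hint1 : 1 ≤ (B ∩ A).card := Finset.card_pos.2 ⟨i, hint⟩
    have h := star A B F hF hF0 i hiB hiA w1 hw1 hw1m hw1b hw10 W1 hI1 (by
      intro x
      rcases h1 B i (B \ A) hiB hDsub x with h | h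
      · exact h
      · exfalso
        apply hc
        omega)
    refine h.trans ?_
    refine mul_le_mul_of_nonneg_right (mul_le_mul_of_nonneg_right
      (mul_le_mul_of_nonneg_left ?_ hC1) (by positivity)) hIF
    exact pow_le_pow_right₀ hW1 (by omega)

end Pool.Agent.Lib.MP_5db8e2_mp
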