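import Pool.Agent.Lib.MP_5db8e2_mp.RintC

/-!
# The factors of the trial state: families
-/

set_option autoImplicit false

open MeasureTheory Filter Topology

namespace Pool.Agent.Lib.MP_5db8e2_mp

/-- The factors: `f` for triples, `h4` for quadruples, `h5` for quintuples. -/
noncomputable def famH (f : (Fin 3 → R3) → ℝ) (h4 : (Fin 4 → R3) → ℝ) (h5 : (Fin 5 → R3) → ℝ) :
    ∀ k : ℕ, (Fin k → R3) → ℝ
  | 3 => f
  | 4 => h4
  | 5 => h5
  | 0 => fun _ => 1
  | 1 => fun _ => 1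
  | 2 => fun _ => 1
  | _ + 6 => fun _ => 1

/-- Kernel families: zero except for `k = 3, 4, 5`. -/
noncomputable def famK (f : (Fin 3 → R3) → ℝ) (h4 : (Fin 4 → R3) → ℝ) (h5 : (Fin 5 → R3) → ℝ) :
    ∀ k : ℕ, (Fin k → R3) → ℝ
  | 3 => f
  | 4 => h4
  | 5 => h5
  | 0 => fun _ => 0
  | 1 => fun _ => 0
  | 2 => fun _ => 0
  | _ + 6 => fun _ => 0

/-- Three-body data of the trial state (range `r`, the constants do not depend on `r`). -/
structure TD3 (c K r : ℝ) (φ : (Fin 3 → R3) → ℝ) : Prop where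
  c1 : ContDiff ℝ 1 φ
  ti : TI φ
  pi : PI φ
  nonneg : ∀ x, 0 ≤ φ x
  le : ∀ x, φ x ≤ 1 - c
  bd : ∀ x, φ x ≤ K / (1 + rad x) ^ 4
  bd' : ∀ x m a, |pd φ m a x| ≤ K / (1 + rad x) ^ 5
  supp : ∀ x, φ x ≠ 0 → rad x ≤ r

/-- Four-body factor. -/
structure TD4 (c M K R : ℝ) (h4 : (Fin 4 → R3) → ℝ) : Prop where
  c1 : ContDiff ℝ 1 h4
  ti : TI h4
  pi : PI h4
  ge : ∀ x, c ≤ h4 x
  le : ∀ x, h4 x ≤ M
  bd' : ∀ x m a, |pd h4 m a x| ≤ K
  supp : ∀ x, h4 x ≠ 1 → rad x ≤ R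

/-- Five-body factor: it is `≤ M⁻⁴` if the five particles are within `60 R`. -/
structure TD5 (c M K R R5 : ℝ) (h5 : (Fin 5 → R3) → ℝ) : Prop where
  c1 : ContDiff ℝ 1 h5
  ti : TI h5
  pi : PI h5
  ge : ∀ x, c ≤ h5 x
  le : ∀ x, h5 x ≤ 1
  bd' : ∀ x m a, |pd h5 m a x| ≤ K
  supp : ∀ x, h5 x ≠ 1 → rad x ≤ R5
  core : ∀ x, rad x ≤ 60 * R → h5 x ≤ (M ^ 4)⁻¹

/-- `h5 = exp (-4 log M χ)` with the cutoff `χ` of radius `60 R` (`exists_cutoff 5`). -/
theorem exists_td5 {M R : ℝ} (hM : 1 ≤ M) (hR : 0 < R) : ∃ c > 0, ∃ K > 0, ∃ R5 > 0, ∃ h5,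
    TD5 c M K R R5 h5 := by
  obtain ⟨C, hC, hcut⟩ := exists_cutoff 5
  have hR60 : 0 < 60 * R := by positivity
  obtain ⟨χ, hχ2, hχt, hχp, hχ01, hχ1, hχ0, hχd, -, -⟩ := hcut (60 * R) hR60
  have hlog : 0 ≤ Real.log M := Real.log_nonneg hM
  have hM0 : 0 < M := lt_of_lt_of_le one_pos hM
  have hexp : Real.exp (-(4 * Real.log M)) = (M ^ 4)⁻¹ := by
    rw [Real.exp_neg, show (4 : ℝ) * Real.log M = Real.log (M ^ 4) by
      rw [Real.log_pow]; norm_num, Real.exp_log (by positivity)]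
  set h : ℝ → ℝ := fun t => Real.exp (-(4 * Real.log M) * t) with hh
  have hder : ∀ t, HasDerivAt h (Real.exp (-(4 * Real.log M) * t) * -(4 * Real.log M)) t := by
    intro t
    have h1 : HasDerivAt (fun t : ℝ => -(4 * Real.log M) * t) (-(4 * Real.log M)) t := by
      simpa using (hasDerivAt_id t).const_mul (-(4 * Real.log M))
    exact h1.exp
  have hχ1' : ContDiff ℝ 1 χ := hχ2.of_le (by norm_num)
  have hle1 : ∀ x, h (χ x) ≤ 1 := by
    intro x
    show Real.exp (-(4 * Real.log M) * χ x) ≤ 1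
    rw [Real.exp_le_one_iff]
    have := (hχ01 x).1
    nlinarith [mul_nonneg hlog this]
  refine ⟨Real.exp (-(4 * Real.log M)), Real.exp_pos _,
    4 * Real.log M * (C / (60 * R)) + 1, by positivity, 2 * (60 * R), by positivity,
    fun x => h (χ x), ⟨?_, ?_, ?_, ?_, hle1, ?_, ?_, ?_⟩⟩
  · exact Real.contDiff_exp.comp (contDiff_const.mul hχ1')
  · intro x v
    show h (χ _) = h (χ _)
    rw [hχt x v]
  · intro σ x
    show h (χ _) = h (χ _)
    rw [hχp σ x]
  · intro x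
    show Real.exp (-(4 * Real.log M)) ≤ Real.exp (-(4 * Real.log M) * χ x)
    apply Real.exp_le_exp.mpr
    have h1 := (hχ01 x).2
    nlinarith [mul_nonneg hlog (sub_nonneg.mpr h1)]
  · intro x m a
    rw [pd_comp (hχ1'.differentiable one_ne_zero).differentiableAt (hder (χ x)).differentiableAt,
      (hder (χ x)).deriv, abs_mul]
    have h1 : |Real.exp (-(4 * Real.log M) * χ x) * -(4 * Real.log M)| ≤ 4 * Real.log M := by
      rw [abs_mul, abs_neg, abs_of_pos (Real.exp_pos _), abs_of_nonneg (by positivity)]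
      have := hle1 x
      have h2 : Real.exp (-(4 * Real.log M) * χ x) ≤ 1 := this
      nlinarith [mul_nonneg hlog (sub_nonneg.mpr h2)]
    have h3 := hχd m a x
    calc _ ≤ 4 * Real.log M * (C / (60 * R)) :=
          mul_le_mul h1 h3 (abs_nonneg _) (by positivity)
      _ ≤ _ := by linarith
  · intro x hx
    by_contra hcon
    push Not at hcon
    apply hx
    show Real.exp (-(4 * Real.log M) * χ x) = 1
    rw [hχ0 x hcon.le, mul_zero, Real.exp_zero]
  · intro x hx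
    show Real.exp (-(4 * Real.log M) * χ x) ≤ _
    rw [hχ1 x hx, mul_one, hexp]

/-- A four-body factor satisfies `TD4` with some constants. -/
theorem exists_td4 {h4 : (Fin 4 → R3) → ℝ} (h1 : ContDiff ℝ 1 h4) (ht : TI h4) (hp : PI h4)
    {R c : ℝ} (hR : ∀ x, h4 x ≠ 1 → rad x ≤ R) (hc : ∀ x, c ≤ h4 x) :
    ∃ M ≥ 1, ∃ K > 0, TD4 c M K R h4 := by
  have hd : ∀ x, DifferentiableAt ℝ h4 x := fun x =>
    (h1.differentiable one_ne_zero).differentiableAt
  obtain ⟨B, hB0, hB⟩ := rc_exists_bound_of_TI (k := 3) (F := fun x => h4 x - 1)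
    (h1.continuous.sub continuous_const)
    (fun x v => by
      show h4 _ - 1 = h4 _ - 1
      rw [ht x v])
    (R := R) (fun x hx => hR x (fun h0 => hx (by simp [h0])))
  have hpd : ∀ m a x, pd (fun x => h4 x - 1) m a x = pd h4 m a x := by
    intro m a x
    rw [pd_sub (hd x) (differentiableAt_const _), pd_const, sub_zero]
  have hbd : ∀ p : Fin 4 × Fin 3, ∃ D, 0 ≤ D ∧ ∀ x, |pd h4 p.1 p.2 x| ≤ D := by
    intro p
    refine rc_exists_bound_of_TI (k := 3) (continuous_pd h1 p.1 p.2) (TI_pd ht p.1 p.2)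
      (R := R) (fun x hx => ?_)
    refine pd_eq_zero_of_rad (ψ := fun x => h4 x - 1) (h1.sub contDiff_const) (R := R)
      (fun y hy => hR y (fun h0 => hy (by simp [h0]))) p.1 p.2 x ?_
    rw [hpd]
    exact hx
  choose D hD0 hD using hbd
  refine ⟨1 + B, by linarith, ∑ p, D p + 1, ?_, ⟨h1, ht, hp, hc, ?_, ?_, hR⟩⟩
  · have : 0 ≤ ∑ p, D p := Finset.sum_nonneg fun p _ => hD0 p
    linarith
  · intro x
    have := (abs_le.mp (hB x)).2
    linarith
  · intro x m a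
    have h2 : D (m, a) ≤ ∑ p, D p :=
      Finset.single_le_sum (f := D) (fun p _ => hD0 p) (Finset.mem_univ (m, a))
    have h3 := hD (m, a) x
    simp only at h3
    linarith

end Pool.Agent.Lib.MP_5db8e2_mp
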