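import Pool.Agent.Lib.MP_5db8e2_mp.TrialA1
import Pool.Agent.Lib.MP_5db8e2_mp.TrialC1

/-!
# The factors of the trial state: stability
-/

set_option autoImplicit false

open MeasureTheory Filter Topology

namespace Pool.Agent.Lib.MP_5db8e2_mp

/-- `C(n,3) ≤ 1 + 4 C(n,4)`. -/
theorem choose_three_le (n : ℕ) : n.choose 3 ≤ 1 + 4 * n.choose 4 := by
  rcases Nat.lt_or_ge n 4 with h | h
  · interval_cases n <;> decide
  · have h1 : n.choose 4 * 4 = n.choose 3 * (n - 3) := Nat.choose_succ_right_eq n 3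
    have h2 : 1 ≤ n - 3 := by omega
    have h3 : n.choose 3 ≤ n.choose 3 * (n - 3) := Nat.le_mul_of_pos_right _ h2
    omega

theorem mem_range_orderEmb {N k : ℕ} {B : Finset (Fin N)} (hB : B.card = k) {j : Fin N} (hj : j ∈ B) :
    ∃ m, B.orderEmbOfFin hB m = j := by
  have h := Finset.range_orderEmbOfFin B hB
  have h2 : j ∈ Set.range (B.orderEmbOfFin hB) := by rw [h]; exact hj
  exact h2

section

variable {c K r M K4 R R5 K5 c4 c5 : ℝ} {φ : (Fin 3 → R3) → ℝ}
    {h4 : (Fin 4 → R3) → ℝ} {h5 : (Fin 5 → R3) → ℝ} {N : ℕ}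

theorem famH_pos (hc : 0 < c) (hc4 : 0 < c4) (hc5 : 0 < c5) (h3 : TD3 c K r φ)
    (hh4 : TD4 c4 M K4 R h4) (hh5 : TD5 c5 M K5 R R5 h5) (k : ℕ) (y : Fin k → R3) :
    0 < famH (fun x => 1 - φ x) h4 h5 k y := by
  match k, y with
  | 0, y => exact one_pos
  | 1, y => exact one_pos
  | 2, y => exact one_pos
  | 3, y => have := h3.le y; simp only [famH]; linarith
  | 4, y => have := hh4.ge y; simp only [famH]; linarith
  | 5, y => have := hh5.ge y; simp only [famH]; linarith
  | _ + 6, y => exact one_pos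

/-- Factors other than the four-body ones are `≤ 1`. -/
theorem famH_le_one (h3 : TD3 c K r φ) (hh5 : TD5 c5 M K5 R R5 h5) {k : ℕ} (hk : k ≠ 4)
    (y : Fin k → R3) : famH (fun x => 1 - φ x) h4 h5 k y ≤ 1 := by
  match k, y, hk with
  | 0, y, _ => exact le_rfl
  | 1, y, _ => exact le_rfl
  | 2, y, _ => exact le_rfl
  | 3, y, _ => have := h3.nonneg y; simp only [famH]; linarith
  | 4, y, hk => exact absurd rfl hk
  | 5, y, _ => have := hh5.le y; simp only [famH]; linarith
  | _ + 6, y, _ => exact le_rfl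

end

/-- **Stability.** Let `n` be the number of particles of `S ∖ {i}` within distance `2R` of `x_i`.
The quadruples `Q ∋ i` with `h_Q ≠ 1` consist of `i` and three of these particles
(`norm_sub_le_rad`): at most `n choose 3` factors, each `≤ M`. The quintuples `W ∋ i` consisting
of `i` and four of these particles have `rad ≤ 60 R` (`rad_le_of_norm_sub_le` with `4R`): at least
`n choose 4` factors `≤ M⁻⁴`; all the other factors are `≤ 1`. Since
`4 (n choose 4) = (n - 3) (n choose 3)`, `M^{C(n,3) - 4 C(n,4)} ≤ M`. -/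
theorem stab_fam {c K r M K4 R R5 K5 c4 c5 : ℝ} {φ : (Fin 3 → R3) → ℝ}
    {h4 : (Fin 4 → R3) → ℝ} {h5 : (Fin 5 → R3) → ℝ} (hM : 1 ≤ M) (hR : 0 < R) (hc : 0 < c)
    (hc4 : 0 < c4) (hc5 : 0 < c5) (h3 : TD3 c K r φ)
    (hh4 : TD4 c4 M K4 R h4) (hh5 : TD5 c5 M K5 R R5 h5) {N : ℕ} (S : Finset (Fin N))
    {i : Fin N} (hi : i ∈ S) (x : Fin N → R3) :
    Psi (onF (famH (fun x => 1 - φ x) h4 h5)) S x ≤
      M * Psi (onF (famH (fun x => 1 - φ x) h4 h5)) (S.erase i) x := by
  classical
  set h : Finset (Fin N) → (Fin N → R3) → ℝ := onF (famH (fun x => 1 - φ x) h4 h5) with hh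
  have hpos : ∀ B, 0 < h B x := fun B => famH_pos hc hc4 hc5 h3 hh4 hh5 _ _
  have hM0 : 0 < M := lt_of_lt_of_le one_pos hM
  set T : Finset (Fin N) := S.erase i with hT
  have hiT : i ∉ T := Finset.notMem_erase i S
  have hS : S = insert i T := (Finset.insert_erase hi).symm
  have hsplit : Psi h S x = Psi h T x * ∏ B ∈ T.powerset, h (insert i B) x := by
    unfold Psi
    rw [hS, Finset.prod_powerset_insert hiT]
  have hPsi : 0 ≤ Psi h T x := Finset.prod_nonneg fun B _ => (hpos B).le
  rw [hsplit, mul_comm M]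
  refine mul_le_mul_of_nonneg_left ?_ hPsi
  -- the near particles
  set A : Finset (Fin N) := T.filter fun j => ‖x j - x i‖ ≤ 2 * R with hA
  have hAT : A ⊆ T := Finset.filter_subset _ _
  -- bounds of the factors
  have b4 : ∀ B ∈ T.powerset, B.card = 3 → h (insert i B) x ≤ if B ⊆ A then M else 1 := by
    intro B hB hcard
    have hBT := Finset.mem_powerset.1 hB
    have hiB : i ∉ B := fun hc => hiT (hBT hc)
    have hc' : (insert i B).card = 4 := by rw [Finset.card_insert_of_notMem hiB, hcard]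
    have e : h (insert i B) x = h4 fun m => x ((insert i B).orderEmbOfFin hc' m) := by
      rw [hh, onF_eq _ hc']
      rfl
    rw [e]
    by_cases hBA : B ⊆ A
    · rw [if_pos hBA]; exact hh4.le _
    · rw [if_neg hBA]
      by_contra hcon
      have hne : (h4 fun m => x ((insert i B).orderEmbOfFin hc' m)) ≠ 1 := by
        intro he
        rw [he] at hcon
        exact hcon le_rfl
      have hrad := hh4.supp _ hne
      apply hBA
      intro j hj
      obtain ⟨m, hm⟩ := mem_range_orderEmb hc' (Finset.mem_insert_of_mem hj)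
      obtain ⟨m', hm'⟩ := mem_range_orderEmb hc' (Finset.mem_insert_self i B)
      have hd := norm_sub_le_rad (fun m => x ((insert i B).orderEmbOfFin hc' m)) m m'
      simp only [hm, hm'] at hd
      rw [hA, Finset.mem_filter]
      exact ⟨hBT hj, hd.trans (by linarith)⟩
  have b5 : ∀ B ∈ T.powerset, B.card = 4 → B ⊆ A → h (insert i B) x ≤ (M ^ 4)⁻¹ := by
    intro B hB hcard hBA
    have hBT := Finset.mem_powerset.1 hB
    have hiB : i ∉ B := fun hc => hiT (hBT hc)
    have hc' : (insert i B).card = 5 := by rw [Finset.card_insert_of_notMem hiB, hcard]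
    have e : h (insert i B) x = h5 fun m => x ((insert i B).orderEmbOfFin hc' m) := by
      rw [hh, onF_eq _ hc']
      rfl
    rw [e]
    refine hh5.core _ ?_
    have hnear : ∀ m, ‖x ((insert i B).orderEmbOfFin hc' m) - x i‖ ≤ 2 * R := by
      intro m
      have hmem := Finset.orderEmbOfFin_mem (insert i B) hc' m
      rcases Finset.mem_insert.1 hmem with h1 | h1
      · rw [h1, sub_self, norm_zero]; positivity
      · exact (Finset.mem_filter.1 (hBA h1)).2
    have hrad := rad_le_of_norm_sub_le (x := fun m => x ((insert i B).orderEmbOfFin hc' m))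
      (R := 4 * R) (by positivity) (fun m m' => by
        calc ‖x ((insert i B).orderEmbOfFin hc' m) - x ((insert i B).orderEmbOfFin hc' m')‖
            = ‖(x ((insert i B).orderEmbOfFin hc' m) - x i) -
              (x ((insert i B).orderEmbOfFin hc' m') - x i)‖ := by rw [sub_sub_sub_cancel_right]
          _ ≤ _ := norm_sub_le _ _
          _ ≤ 4 * R := by linarith [hnear m, hnear m'])
    refine hrad.trans (le_of_eq ?_)
    push_cast
    ring
  have b1 : ∀ B ∈ T.powerset, B.card ≠ 3 → h (insert i B) x ≤ 1 := by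
    intro B hB hcard
    have hBT := Finset.mem_powerset.1 hB
    have hiB : i ∉ B := fun hc => hiT (hBT hc)
    refine famH_le_one h3 hh5 ?_ _
    rw [Finset.card_insert_of_notMem hiB]
    omega
  -- the comparison function
  set g : Finset (Fin N) → ℝ := fun B =>
    (if B ∈ A.powersetCard 3 then M else 1) * (if B ∈ A.powersetCard 4 then (M ^ 4)⁻¹ else 1) with hg
  have hle : ∀ B ∈ T.powerset, h (insert i B) x ≤ g B := by
    intro B hB
    simp only [hg, Finset.mem_powersetCard]
    by_cases h3c : B.card = 3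
    · have h4c : ¬ (B ⊆ A ∧ B.card = 4) := by rintro ⟨-, h⟩; omega
      rw [if_neg h4c, mul_one]
      refine (b4 B hB h3c).trans (le_of_eq ?_)
      by_cases hBA : B ⊆ A
      · rw [if_pos hBA, if_pos ⟨hBA, h3c⟩]
      · rw [if_neg hBA, if_neg fun h => hBA h.1]
    · have h3c' : ¬ (B ⊆ A ∧ B.card = 3) := fun h => h3c h.2
      rw [if_neg h3c', one_mul]
      by_cases h4c : B ⊆ A ∧ B.card = 4
      · rw [if_pos h4c]; exact b5 B hB h4c.2 h4c.1
      · rw [if_neg h4c]; exact b1 B hB h3c
  refine (Finset.prod_le_prod (fun B _ => (hpos _).le) hle).trans ?_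
  have hp : ∏ B ∈ T.powerset, g B = M ^ (A.card.choose 3) * ((M ^ 4)⁻¹) ^ (A.card.choose 4) := by
    have hf : ∀ k, T.powerset.filter (fun B => B ∈ A.powersetCard k) = A.powersetCard k := by
      intro k
      ext B
      simp only [Finset.mem_filter, Finset.mem_powerset, Finset.mem_powersetCard]
      exact ⟨fun h => h.2, fun h => ⟨h.1.trans hAT, h⟩⟩
    simp only [hg]
    rw [Finset.prod_mul_distrib, ← Finset.prod_filter, ← Finset.prod_filter, hf, hf,
      Finset.prod_const, Finset.prod_const, Finset.card_powersetCard, Finset.card_powersetCard]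
  rw [hp]
  have h5 : M ^ (A.card.choose 3) ≤ M ^ (1 + 4 * A.card.choose 4) :=
    pow_le_pow_right₀ hM (choose_three_le _)
  calc M ^ (A.card.choose 3) * ((M ^ 4)⁻¹) ^ (A.card.choose 4)
      ≤ M ^ (1 + 4 * A.card.choose 4) * ((M ^ 4)⁻¹) ^ (A.card.choose 4) :=
        mul_le_mul_of_nonneg_right h5 (by positivity)
    _ = M := by
        rw [pow_add, pow_one, pow_mul, inv_pow, mul_assoc, mul_inv_cancel₀ (by positivity), mul_one]

end Pool.Agent.Lib.MP_5db8e2_mp
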