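import Pool.Agent.Lib.MP_5db8e2_mp.TrialC1s
import Pool.Agent.Lib.MP_5db8e2_mp.CluD1

/-!
# The trial state as a cluster family
-/

set_option autoImplicit false

open MeasureTheory Filter Topology

namespace Pool.Agent.Lib.MP_5db8e2_mp

/-- The majorants of `|h² - 1|`. -/
noncomputable def yF (K r M R R5 : ℝ) : ∀ k : ℕ, (Fin k → R3) → ℝ :=
  famK (fun x => if rad x ≤ r then 2 * K / (1 + rad x) ^ 4 else 0)
    (fun x => if rad x ≤ R then M ^ 2 else 0) (fun x => if rad x ≤ R5 then 1 else 0)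

/-- The majorants of the logarithmic derivatives. -/
noncomputable def KF (c K r K4 R K5 R5 : ℝ) : ∀ k : ℕ, (Fin k → R3) → ℝ :=
  famK (fun x => if rad x ≤ r then K / c / (1 + rad x) ^ 5 else 0)
    (fun x => if rad x ≤ R then K4 / c else 0) (fun x => if rad x ≤ R5 then K5 / c else 0)

/-- The potential family. -/
noncomputable def vF (V : R3 → R3 → ℝ) : ∀ k : ℕ, (Fin k → R3) → ℝ :=
  famK (V3 V) (fun _ => 0) (fun _ => 0)

/-- The logarithmic derivatives. -/
noncomputable def gF {N : ℕ} (F : ∀ k : ℕ, (Fin k → R3) → ℝ) (B : Finset (Fin N)) (i : Fin N)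
    (a : Fin 3) (x : Fin N → R3) : ℝ := pd (onF F B) i a x / onF F B x

variable {c K r M K4 R R5 K5 : ℝ} {φ : (Fin 3 → R3) → ℝ} {h4 : (Fin 4 → R3) → ℝ}
  {h5 : (Fin 5 → R3) → ℝ}

namespace TrialC2aux

/-- a property of all members of a family -/
theorem famH_all {f : (Fin 3 → R3) → ℝ} (P : ∀ k : ℕ, ((Fin k → R3) → ℝ) → Prop)
    (h0 : ∀ k, P k fun _ => 1) (h3 : P 3 f) (h4' : P 4 h4) (h5' : P 5 h5) :
    ∀ k, P k (famH f h4 h5 k)
  | 3 => h3
  | 4 => h4'
  | 5 => h5'
  | 0 => h0 0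
  | 1 => h0 1
  | 2 => h0 2
  | n + 6 => h0 (n + 6)

theorem famK_all {f : (Fin 3 → R3) → ℝ} (P : ∀ k : ℕ, ((Fin k → R3) → ℝ) → Prop)
    (h0 : ∀ k, P k fun _ => 0) (h3 : P 3 f) (h4' : P 4 h4) (h5' : P 5 h5) :
    ∀ k, P k (famK f h4 h5 k)
  | 3 => h3
  | 4 => h4'
  | 5 => h5'
  | 0 => h0 0
  | 1 => h0 1
  | 2 => h0 2
  | n + 6 => h0 (n + 6)

theorem famH_out {f : (Fin 3 → R3) → ℝ} : ∀ k : ℕ, (k < 3 ∨ 5 < k) →
    famH f h4 h5 k = fun _ => 1
  | 3, h => absurd h (by omega)
  | 4, h => absurd h (by omega)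
  | 5, h => absurd h (by omega)
  | 0, _ => rfl
  | 1, _ => rfl
  | 2, _ => rfl
  | n + 6, _ => rfl

theorem famK_out {f : (Fin 3 → R3) → ℝ} : ∀ k : ℕ, (k < 3 ∨ 5 < k) →
    famK f h4 h5 k = fun _ => 0
  | 3, h => absurd h (by omega)
  | 4, h => absurd h (by omega)
  | 5, h => absurd h (by omega)
  | 0, _ => rfl
  | 1, _ => rfl
  | 2, _ => rfl
  | n + 6, _ => rfl

theorem meas_ite {k : ℕ} (R : ℝ) (f : (Fin k → R3) → ℝ) (hf : Measurable f) :
    Measurable (fun x : Fin k → R3 => if rad x ≤ R then f x else 0) :=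
  Measurable.ite (measurableSet_le continuous_rad.measurable measurable_const) hf
    measurable_const

theorem one_add_rad {k : ℕ} (x : Fin k → R3) : 1 ≤ 1 + rad x := by
  linarith [rad_nonneg x]

theorem meas_pow {k : ℕ} (K : ℝ) (n : ℕ) :
    Measurable (fun x : Fin k → R3 => K / (1 + rad x) ^ n) :=
  measurable_const.div ((measurable_const.add continuous_rad.measurable).pow_const n)

theorem div_le_self' {k : ℕ} (x : Fin k → R3) (n : ℕ) {K : ℝ} (hK : 0 ≤ K) :
    K / (1 + rad x) ^ n ≤ K :=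
  div_le_self hK (one_le_pow₀ (one_add_rad x))

theorem h_meas (h3 : TD3 c K r φ) (hh4 : TD4 c M K4 R h4) (hh5 : TD5 c M K5 R R5 h5) (k : ℕ) :
    Measurable (famH (fun x => 1 - φ x) h4 h5 k) :=
  famH_all (fun _ f => Measurable f) (fun _ => measurable_const)
    (measurable_const.sub h3.c1.continuous.measurable) hh4.c1.continuous.measurable
    hh5.c1.continuous.measurable k

theorem h_lower (hc1 : c ≤ 1) (h3 : TD3 c K r φ) (hh4 : TD4 c M K4 R h4)
    (hh5 : TD5 c M K5 R R5 h5) (k : ℕ) : ∀ x, c ≤ famH (fun x => 1 - φ x) h4 h5 k x :=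
  famH_all (fun _ f => ∀ x, c ≤ f x) (fun _ _ => hc1) (fun x => by linarith [h3.le x]) hh4.ge
    hh5.ge k

theorem h_upper (hM : 1 ≤ M) (h3 : TD3 c K r φ) (hh4 : TD4 c M K4 R h4)
    (hh5 : TD5 c M K5 R R5 h5) (k : ℕ) : ∀ x, famH (fun x => 1 - φ x) h4 h5 k x ≤ M :=
  famH_all (fun _ f => ∀ x, f x ≤ M) (fun _ _ => hM) (fun x => by linarith [h3.nonneg x]) hh4.le
    (fun x => (hh5.le x).trans hM) k

theorem h_one_le (h3 : TD3 c K r φ) (hh4 : TD4 c M K4 R h4)
    (hh5 : TD5 c M K5 R R5 h5) (k : ℕ) (hk : k ≠ 4) :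
    ∀ x, famH (fun x => 1 - φ x) h4 h5 k x ≤ 1 := by
  refine famH_all (h4 := h4) (h5 := h5) (fun k f => k ≠ 4 → ∀ x, f x ≤ 1) (fun _ _ _ => le_rfl)
    (fun _ x => ?_) (fun h => absurd rfl h) (fun _ => hh5.le) k hk
  linarith [h3.nonneg x]

theorem h_smooth (h3 : TD3 c K r φ) (hh4 : TD4 c M K4 R h4) (hh5 : TD5 c M K5 R R5 h5)
    (k : ℕ) : ContDiff ℝ 1 (famH (fun x => 1 - φ x) h4 h5 k) :=
  famH_all (fun _ f => ContDiff ℝ 1 f) (fun _ => contDiff_const) (contDiff_const.sub h3.c1)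
    hh4.c1 hh5.c1 k

theorem y_meas (k : ℕ) : Measurable (yF K r M R R5 k) :=
  famK_all (fun _ f => Measurable f) (fun _ => measurable_const)
    (meas_ite _ _ (meas_pow _ _)) (meas_ite _ _ measurable_const)
    (meas_ite _ _ measurable_const) k

theorem y_nonneg (hK : 0 < K) (k : ℕ) : ∀ x, 0 ≤ yF K r M R R5 k x := by
  refine famK_all (fun _ f => ∀ x, 0 ≤ f x) (fun _ _ => le_rfl) (fun x => ?_) (fun x => ?_)
    (fun x => ?_) k
  · have := one_add_rad x
    split_ifs
    · positivity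
    · exact le_rfl
  · split_ifs
    · positivity
    · exact le_rfl
  · split_ifs
    · exact zero_le_one
    · exact le_rfl

theorem y_bdd (hK : 0 < K) (k : ℕ) : ∃ C, ∀ x, |yF K r M R R5 k x| ≤ C := by
  refine famK_all (fun _ f => ∃ C, ∀ x, |f x| ≤ C) (fun _ => ⟨0, fun _ => by simp⟩)
    ⟨2 * K, fun x => ?_⟩ ⟨M ^ 2, fun x => ?_⟩ ⟨1, fun x => ?_⟩ k
  · have h1 := one_add_rad x
    split_ifs
    · rw [abs_of_nonneg (by positivity)]
      exact div_le_self' x 4 (by positivity)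
    · rw [abs_zero]
      positivity
  · split_ifs
    · rw [abs_of_nonneg (by positivity)]
    · rw [abs_zero]
      positivity
  · split_ifs
    · simp
    · simp

theorem y_ge (hM : 1 ≤ M) (hc : 0 < c) (hK : 0 < K)
    (h3 : TD3 c K r φ) (hh4 : TD4 c M K4 R h4) (hh5 : TD5 c M K5 R R5 h5) :
    ∀ (k : ℕ) (x : Fin k → R3),
      |famH (fun x => 1 - φ x) h4 h5 k x ^ 2 - 1| ≤ yF K r M R R5 k x
  | 0, x => by simp [famH, yF, famK]
  | 1, x => by simp [famH, yF, famK]
  | 2, x => by simp [famH, yF, famK]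
  | n + 6, x => by simp [famH, yF, famK]
  | 3, x => by
      change |(1 - φ x) ^ 2 - 1| ≤ if rad x ≤ r then 2 * K / (1 + rad x) ^ 4 else 0
      by_cases hr : rad x ≤ r
      · rw [if_pos hr]
        have h1 := h3.bd x
        have h2 := h3.nonneg x
        have h4 := h3.le x
        have h5 : |(1 - φ x) ^ 2 - 1| ≤ 2 * φ x := by
          rw [abs_le]
          constructor <;> nlinarith
        refine h5.trans ?_
        rw [mul_div_assoc]
        linarith
      · rw [if_neg hr]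
        have h1 : φ x = 0 := by
          by_contra h
          exact hr (h3.supp x h)
        rw [h1]
        simp
  | 4, x => by
      change |h4 x ^ 2 - 1| ≤ if rad x ≤ R then M ^ 2 else 0
      by_cases hr : rad x ≤ R
      · rw [if_pos hr]
        have h1 := hh4.ge x
        have h2 := hh4.le x
        rw [abs_le]
        constructor <;> nlinarith
      · rw [if_neg hr]
        have h1 : h4 x = 1 := by
          by_contra h
          exact hr (hh4.supp x h)
        rw [h1]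
        simp
  | 5, x => by
      change |h5 x ^ 2 - 1| ≤ if rad x ≤ R5 then 1 else 0
      by_cases hr : rad x ≤ R5
      · rw [if_pos hr]
        have h1 := hh5.ge x
        have h2 := hh5.le x
        rw [abs_le]
        constructor <;> nlinarith
      · rw [if_neg hr]
        have h1 : h5 x = 1 := by
          by_contra h
          exact hr (hh5.supp x h)
        rw [h1]
        simp

/-- Bounds of the derivatives. -/
noncomputable def GF (K r K4 R K5 R5 : ℝ) : ∀ k : ℕ, (Fin k → R3) → ℝ :=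
  famK (fun x => if rad x ≤ r then K / (1 + rad x) ^ 5 else 0)
    (fun x => if rad x ≤ R then K4 else 0) (fun x => if rad x ≤ R5 then K5 else 0)

theorem KF_eq (c K r K4 R K5 R5 : ℝ) : ∀ (k : ℕ) (x : Fin k → R3),
    KF c K r K4 R K5 R5 k x = GF K r K4 R K5 R5 k x / c
  | 0, x => by simp [KF, GF, famK]
  | 1, x => by simp [KF, GF, famK]
  | 2, x => by simp [KF, GF, famK]
  | n + 6, x => by simp [KF, GF, famK]
  | 3, x => by
      change (if rad x ≤ r then K / c / (1 + rad x) ^ 5 else 0)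
        = (if rad x ≤ r then K / (1 + rad x) ^ 5 else 0) / c
      split_ifs
      · rw [div_right_comm]
      · rw [zero_div]
  | 4, x => by
      change (if rad x ≤ R then K4 / c else 0) = (if rad x ≤ R then K4 else 0) / c
      split_ifs
      · rfl
      · rw [zero_div]
  | 5, x => by
      change (if rad x ≤ R5 then K5 / c else 0) = (if rad x ≤ R5 then K5 else 0) / c
      split_ifs
      · rfl
      · rw [zero_div]

theorem G_nonneg (hK : 0 < K) (hK4 : 0 < K4) (hK5 : 0 < K5) (k : ℕ) :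
    ∀ x, 0 ≤ GF K r K4 R K5 R5 k x := by
  refine famK_all (fun _ f => ∀ x, 0 ≤ f x) (fun _ _ => le_rfl) (fun x => ?_) (fun x => ?_)
    (fun x => ?_) k
  · have := one_add_rad x
    split_ifs
    · positivity
    · exact le_rfl
  · split_ifs
    · exact hK4.le
    · exact le_rfl
  · split_ifs
    · exact hK5.le
    · exact le_rfl

theorem G_meas (k : ℕ) : Measurable (GF K r K4 R K5 R5 k) :=
  famK_all (fun _ f => Measurable f) (fun _ => measurable_const)
    (meas_ite _ _ (meas_pow _ _)) (meas_ite _ _ measurable_const)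
    (meas_ite _ _ measurable_const) k

theorem G_bdd (hK : 0 < K) (hK4 : 0 < K4) (hK5 : 0 < K5) (k : ℕ) :
    ∃ C, ∀ x, |GF K r K4 R K5 R5 k x| ≤ C := by
  refine famK_all (fun _ f => ∃ C, ∀ x, |f x| ≤ C) (fun _ => ⟨0, fun _ => by simp⟩)
    ⟨K, fun x => ?_⟩ ⟨K4, fun x => ?_⟩ ⟨K5, fun x => ?_⟩ k
  · have h1 := one_add_rad x
    split_ifs
    · rw [abs_of_nonneg (by positivity)]
      exact div_le_self' x 5 hK.le
    · rw [abs_zero]
      exact hK.le
  · split_ifs
    · rw [abs_of_nonneg hK4.le]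
    · rw [abs_zero]
      exact hK4.le
  · split_ifs
    · rw [abs_of_nonneg hK5.le]
    · rw [abs_zero]
      exact hK5.le

theorem pd_zero_of_one {k : ℕ} {h : (Fin k → R3) → ℝ} {R : ℝ} (h1 : ContDiff ℝ 1 h)
    (hs : ∀ x, h x ≠ 1 → rad x ≤ R) (m : Fin k) (a : Fin 3) (x : Fin k → R3)
    (hx : ¬ rad x ≤ R) : pd h m a x = 0 := by
  have h2 : pd (fun y => h y - 1) m a x = 0 := by
    by_contra hne
    refine hx (pd_eq_zero_of_rad (h1.sub (contDiff_const (c := (1 : ℝ)))) (fun y hy => hs y ?_)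
      m a x hne)
    intro h
    apply hy
    rw [h, sub_self]
  rw [pd_sub (h1.differentiable one_ne_zero x) (differentiableAt_const _), pd_const,
    sub_zero] at h2
  exact h2

theorem pd_le (hK : 0 < K) (h3 : TD3 c K r φ) (hh4 : TD4 c M K4 R h4)
    (hh5 : TD5 c M K5 R R5 h5) : ∀ (k : ℕ) (m : Fin k) (a : Fin 3) (x : Fin k → R3),
      |pd (famH (fun x => 1 - φ x) h4 h5 k) m a x| ≤ GF K r K4 R K5 R5 k x
  | 0, m, _, _ => m.elim0
  | 1, m, a, x => by
      have : famH (fun x => 1 - φ x) h4 h5 1 = fun _ => 1 := rfl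
      rw [this, pd_const]
      simp [GF, famK]
  | 2, m, a, x => by
      have : famH (fun x => 1 - φ x) h4 h5 2 = fun _ => 1 := rfl
      rw [this, pd_const]
      simp [GF, famK]
  | n + 6, m, a, x => by
      have : famH (fun x => 1 - φ x) h4 h5 (n + 6) = fun _ => 1 := rfl
      rw [this, pd_const]
      simp [GF, famK]
  | 3, m, a, x => by
      change |pd (fun x => 1 - φ x) m a x| ≤ if rad x ≤ r then K / (1 + rad x) ^ 5 else 0
      rw [pd_sub (differentiableAt_const _) (h3.c1.differentiable one_ne_zero x), pd_const,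
        zero_sub, abs_neg]
      by_cases hr : rad x ≤ r
      · rw [if_pos hr]
        exact h3.bd' x m a
      · have h0 : pd φ m a x = 0 := by
          by_contra hne
          exact hr (pd_eq_zero_of_rad h3.c1 h3.supp m a x hne)
        rw [if_neg hr, h0, abs_zero]
  | 4, m, a, x => by
      change |pd h4 m a x| ≤ if rad x ≤ R then K4 else 0
      by_cases hr : rad x ≤ R
      · rw [if_pos hr]
        exact hh4.bd' x m a
      · rw [if_neg hr, pd_zero_of_one hh4.c1 hh4.supp m a x hr, abs_zero]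
  | 5, m, a, x => by
      change |pd h5 m a x| ≤ if rad x ≤ R5 then K5 else 0
      by_cases hr : rad x ≤ R5
      · rw [if_pos hr]
        exact hh5.bd' x m a
      · rw [if_neg hr, pd_zero_of_one hh5.c1 hh5.supp m a x hr, abs_zero]

/-- the derivative of a cluster function depends only on the cluster -/
theorem pd_dep {N : ℕ} {F : ∀ k : ℕ, (Fin k → R3) → ℝ} (hF : ∀ k, ContDiff ℝ 1 (F k))
    (B : Finset (Fin N)) (i : Fin N) (a : Fin 3) (x x' : Fin N → R3) (h : ∀ j ∈ B, x j = x' j) :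
    pd (onF F B) i a x = pd (onF F B) i a x' := by
  by_cases hi : i ∈ B
  · have hr : i ∈ Set.range (B.orderEmbOfFin rfl) := by
      rw [Finset.range_orderEmbOfFin]
      exact hi
    obtain ⟨m, rfl⟩ := hr
    have e : onF F B = fun x => F B.card (x ∘ (B.orderEmbOfFin rfl)) := rfl
    rw [e, pd_comp_inj (hF _) (B.orderEmbOfFin rfl).injective,
      pd_comp_inj (hF _) (B.orderEmbOfFin rfl).injective]
    congr 1
    funext m'
    exact h _ (Finset.orderEmbOfFin_mem B rfl m')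
  · rw [pd_onF_not_mem hF hi, pd_onF_not_mem hF hi]

end TrialC2aux

open TrialC2aux

/-- The cluster family of the trial state (one lower bound `c` for all the factors). -/
theorem td_clu (hM : 1 ≤ M) (hR : 0 < R) (hR5 : 0 < R5) (hc : 0 < c) (hc1 : c ≤ 1) (hK : 0 < K)
    (h3 : TD3 c K r φ) (hh4 : TD4 c M K4 R h4) (hh5 : TD5 c M K5 R R5 h5) (N : ℕ) :
    Clu (onF (N := N) (famH (fun x => 1 - φ x) h4 h5)) (onF (yF K r M R R5)) c M := by
  refine ⟨hc, hM, fun B => onF_nice (h_meas h3 hh4 hh5) (fun k => ⟨M, fun x => ?_⟩) B,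
    fun B => onF_nice y_meas (y_bdd hK) B, fun B x => h_lower hc1 h3 hh4 hh5 _ _,
    fun B x => h_upper hM h3 hh4 hh5 _ _, fun B hB x => h_one_le h3 hh4 hh5 _ hB _,
    fun B hB x => ?_, fun B x => y_nonneg hK _ _, fun B x => y_ge hM hc hK h3 hh4 hh5 _ _,
    fun B hB x hne => ?_, fun B hB x => ?_, fun S i hi x =>
      stab_fam hM hR hc hc hc h3 hh4 hh5 S hi x⟩
  · rw [abs_of_nonneg (hc.le.trans (h_lower hc1 h3 hh4 hh5 k x))]
    exact h_upper hM h3 hh4 hh5 k x
  · unfold onF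
    rw [famH_out _ hB]
  · rw [onF_eq _ hB] at hne ⊢
    change h4 _ ≠ 1 at hne
    change 1 ≤ if rad (fun m => x (B.orderEmbOfFin hB m)) ≤ R then M ^ 2 else 0
    rw [if_pos (hh4.supp _ hne)]
    nlinarith
  · unfold onF yF
    rw [famK_out _ hB]

theorem td_edat {V : R3 → R3 → ℝ} (hV : Pot V) (hM : 1 ≤ M) (hR : 0 < R) (hR5 : 0 < R5)
    (hc : 0 < c) (hc1 : c ≤ 1) (hK : 0 < K) (hK4 : 0 < K4) (hK5 : 0 < K5)
    (h3 : TD3 c K r φ) (hh4 : TD4 c M K4 R h4) (hh5 : TD5 c M K5 R R5 h5) (N : ℕ) :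
    EDat (gF (N := N) (famH (fun x => 1 - φ x) h4 h5)) (onF (KF c K r K4 R K5 R5))
      (onF (vF V)) := by
  have hsm := h_smooth h3 hh4 hh5
  have hle : ∀ (B : Finset (Fin N)) (i : Fin N) (a : Fin 3) (x : Fin N → R3),
      |gF (famH (fun x => 1 - φ x) h4 h5) B i a x| ≤ onF (KF c K r K4 R K5 R5) B x := by
    intro B i a x
    have h1 : onF (KF c K r K4 R K5 R5) B x = onF (GF K r K4 R K5 R5) B x / c :=
      KF_eq c K r K4 R K5 R5 _ _
    have h2 := abs_pd_onF_le hsm (pd_le hK h3 hh4 hh5) (G_nonneg hK hK4 hK5) B i a x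
    have h4' : c ≤ onF (famH (fun x => 1 - φ x) h4 h5) B x := h_lower hc1 h3 hh4 hh5 _ _
    unfold gF
    rw [h1, abs_div, abs_of_pos (hc.trans_le h4')]
    exact div_le_div₀ ((abs_nonneg _).trans h2) h2 hc h4'
  have hKn : ∀ B : Finset (Fin N), Nice B (onF (KF c K r K4 R K5 R5) B) := by
    intro B
    refine onF_nice (fun k => ?_) (fun k => ?_) B
    · have h1 : KF c K r K4 R K5 R5 k = fun x => GF K r K4 R K5 R5 k x / c :=
        funext (KF_eq c K r K4 R K5 R5 k)
      rw [h1]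
      exact (G_meas k).div_const c
    · obtain ⟨C, hC⟩ := G_bdd (r := r) (R := R) (R5 := R5) hK hK4 hK5 k
      refine ⟨C / c, fun x => ?_⟩
      rw [KF_eq, abs_div, abs_of_pos hc]
      exact div_le_div_of_nonneg_right (hC x) hc.le
  refine ⟨fun B i a => ⟨?_, ?_, fun x x' h => ?_⟩, fun B i hi a x => ?_, fun B hB i a x => ?_, hle,
    hKn, fun B hB x => ?_, fun B => ?_, fun B x => ?_, fun B hB x => ?_⟩
  · exact (continuous_pd (contDiff_onF hsm B) i a).measurable.div
      (contDiff_onF hsm B).continuous.measurable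
  · obtain ⟨C, hC⟩ := (hKn B).bdd
    exact ⟨C, fun x => (hle B i a x).trans ((le_abs_self _).trans (hC x))⟩
  · unfold gF
    rw [pd_dep hsm B i a x x' h]
    congr 1
    unfold onF
    congr 1
    funext m
    exact h _ (Finset.orderEmbOfFin_mem B rfl m)
  · unfold gF
    rw [pd_onF_not_mem hsm hi, zero_div]
  · have h1 : onF (N := N) (famH (fun x => 1 - φ x) h4 h5) B = fun _ => 1 := by
      funext y
      unfold onF
      rw [famH_out _ hB]
    unfold gF
    rw [h1, pd_const, zero_div]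
  · unfold onF KF
    rw [famK_out _ hB]
  · refine onF_nice (fun k => ?_) (fun k => ?_) B
    · refine famK_all (fun _ f => Measurable f) (fun _ => measurable_const) ?_ measurable_const
        measurable_const k
      have hm : Measurable (fun x : Fin 3 → R3 => ((x 0 - x 1, x 0 - x 2) : R3 × R3)) := by
        fun_prop
      exact hV.meas.comp hm
    · obtain ⟨C, hC⟩ := hV.bdd
      refine famK_all (fun _ f => ∃ C, ∀ x, |f x| ≤ C) (fun _ => ⟨0, fun _ => by simp⟩)
        ⟨C, fun x => ?_⟩ ⟨0, fun _ => by simp⟩ ⟨0, fun _ => by simp⟩ k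
      unfold V3
      rw [abs_of_nonneg (hV.nonneg _ _)]
      exact hC _ _
  · exact famK_all (fun _ f => ∀ x, 0 ≤ f x) (fun _ _ => le_rfl) (fun x => hV.nonneg _ _)
      (fun _ => le_rfl) (fun _ => le_rfl) B.card _
  · have h1 : ∀ k, k ≠ 3 → ∀ y, vF V k y = 0 := fun k =>
      famK_all (f := V3 V) (h4 := fun _ => 0) (h5 := fun _ => 0)
        (fun k f => k ≠ 3 → ∀ y, f y = 0) (fun _ _ _ => rfl) (fun h => absurd rfl h)
        (fun _ _ => rfl) (fun _ _ => rfl) k
    exact h1 _ hB _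

end Pool.Agent.Lib.MP_5db8e2_mp
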