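import Pool.Agent.Lib.MP_5db8e2_mp.TrialA3
import Pool.Agent.Lib.MP_5db8e2_mp.TrialC2
import Pool.Agent.Lib.MP_5db8e2_mp.PrimA2

/-!
# The energy densities of the trial state
-/

set_option autoImplicit false

open MeasureTheory Filter Topology

namespace Pool.Agent.Lib.MP_5db8e2_mp

variable {c K r M K4 R R5 K5 : ℝ} {φ : (Fin 3 → R3) → ℝ} {h4 : (Fin 4 → R3) → ℝ}
  {h5 : (Fin 5 → R3) → ℝ}

namespace TrialC2e

theorem pd_prod {ι : Type*} {N : ℕ} (s : Finset ι) (f : ι → (Fin N → R3) → ℝ)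
    (x : Fin N → R3) (hf : ∀ i, DifferentiableAt ℝ (f i) x) (h0 : ∀ i, f i x ≠ 0)
    (m : Fin N) (a : Fin 3) :
    pd (fun x => ∏ i ∈ s, f i x) m a x = (∑ i ∈ s, pd (f i) m a x / f i x) * ∏ i ∈ s, f i x := by
  classical
  induction s using Finset.induction_on with
  | empty => simp only [Finset.prod_empty, Finset.sum_empty, zero_mul]; exact pd_const 1 m a
  | insert j s hj ih =>
    have h1 : (fun x => ∏ i ∈ insert j s, f i x) = fun x => f j x * ∏ i ∈ s, f i x := by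
      funext x; rw [Finset.prod_insert hj]
    rw [h1, pd_mul (hf j) (HasFDerivAt.finsetProd fun i _ => (hf i).hasFDerivAt).differentiableAt, ih,
      Finset.sum_insert hj, Finset.prod_insert hj]
    have := h0 j
    field_simp
    ring

theorem pd_Psi {F : ∀ k : ℕ, (Fin k → R3) → ℝ} (hF : ∀ k, ContDiff ℝ 1 (F k))
    (hpos : ∀ k x, 0 < F k x) {N : ℕ} (S : Finset (Fin N)) (x : Fin N → R3) (i : Fin N)
    (a : Fin 3) : pd (Psi (onF F) S) i a x =
      (∑ B ∈ S.powerset, gF F B i a x) * Psi (onF F) S x :=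
  pd_prod S.powerset (fun B => onF F B) x
    (fun B => (contDiff_onF hF B).differentiable one_ne_zero x) (fun _ => (hpos _ _).ne') i a

theorem famH_contDiff (h3 : TD3 c K r φ) (hh4 : TD4 c M K4 R h4) (hh5 : TD5 c M K5 R R5 h5) :
    ∀ k, ContDiff ℝ 1 (famH (fun x => 1 - φ x) h4 h5 k)
  | 3 => contDiff_const.sub h3.c1
  | 4 => hh4.c1
  | 5 => hh5.c1
  | 0 => contDiff_const
  | 1 => contDiff_const
  | 2 => contDiff_const
  | _ + 6 => contDiff_const

theorem famH_pos (hc : 0 < c) (h3 : TD3 c K r φ) (hh4 : TD4 c M K4 R h4)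
    (hh5 : TD5 c M K5 R R5 h5) : ∀ k x, 0 < famH (fun x => 1 - φ x) h4 h5 k x
  | 3, x => by
      have := h3.le x
      show 0 < 1 - φ x
      linarith
  | 4, x => lt_of_lt_of_le hc (hh4.ge x)
  | 5, x => lt_of_lt_of_le hc (hh5.ge x)
  | 0, _ => one_pos
  | 1, _ => one_pos
  | 2, _ => one_pos
  | _ + 6, _ => one_pos

theorem famH_one (f : (Fin 3 → R3) → ℝ) (h4 : (Fin 4 → R3) → ℝ) (h5 : (Fin 5 → R3) → ℝ) :
    ∀ k x, (k < 3 ∨ 5 < k) → famH f h4 h5 k x = 1
  | 3, _, h => by omega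
  | 4, _, h => by omega
  | 5, _, h => by omega
  | 0, _, _ => rfl
  | 1, _, _ => rfl
  | 2, _, _ => rfl
  | _ + 6, _, _ => rfl

theorem vF_zero (V : R3 → R3 → ℝ) : ∀ k x, k ≠ 3 → vF V k x = 0
  | 3, _, h => absurd rfl h
  | 4, _, _ => rfl
  | 5, _, _ => rfl
  | 0, _, _ => rfl
  | 1, _, _ => rfl
  | 2, _, _ => rfl
  | _ + 6, _, _ => rfl

theorem gg_one_sub {φ : (Fin 3 → R3) → ℝ} (h : ContDiff ℝ 1 φ) (x : Fin 3 → R3) :
    gg (fun x => 1 - φ x) (fun x => 1 - φ x) x = gg φ φ x := by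
  unfold gg
  refine Finset.sum_congr rfl fun m _ => Finset.sum_congr rfl fun a _ => ?_
  rw [pd_sub (differentiableAt_const 1) (h.differentiable one_ne_zero x), pd_const]
  ring

/-- the potential energy of a set of particles -/
theorem sum_v {N : ℕ} (V : R3 → R3 → ℝ) (S : Finset (Fin N)) (x : Fin N → R3) :
    ∑ B ∈ S.powerset, onF (vF V) B x = ∑ B ∈ S.powersetCard 3, onF (vF V) B x := by
  symm
  refine Finset.sum_subset (fun B hB => ?_) fun B _ hB => ?_
  · exact Finset.mem_powerset.2 (Finset.mem_powersetCard.1 hB).1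
  · refine vF_zero V _ _ fun h => hB ?_
    exact Finset.mem_powersetCard.2 ⟨Finset.mem_powerset.1 ‹_›, h⟩

theorem erase_inj {N : ℕ} {Q : Finset (Fin N)} (hQ : Q.card = 4) :
    Function.Injective (fun l : Fin 4 => Q.erase (Q.orderEmbOfFin hQ l)) := by
  intro l l' h
  by_contra hne
  have h1 : Q.orderEmbOfFin hQ l ∈ Q.erase (Q.orderEmbOfFin hQ l') :=
    Finset.mem_erase.2 ⟨fun h => hne ((Q.orderEmbOfFin hQ).injective h),
      Finset.orderEmbOfFin_mem Q hQ l⟩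
  have h' : Q.erase (Q.orderEmbOfFin hQ l) = Q.erase (Q.orderEmbOfFin hQ l') := h
  rw [← h'] at h1
  exact Finset.notMem_erase _ _ h1

theorem erase_card {N : ℕ} {Q : Finset (Fin N)} (hQ : Q.card = 4) (l : Fin 4) :
    (Q.erase (Q.orderEmbOfFin hQ l)).card = 3 := by
  rw [Finset.card_erase_of_mem (Finset.orderEmbOfFin_mem Q hQ l), hQ]

theorem powersetCard_three {N : ℕ} {Q : Finset (Fin N)} (hQ : Q.card = 4) :
    Q.powersetCard 3 = Finset.univ.image
      (fun l : Fin 4 => Q.erase (Q.orderEmbOfFin hQ l)) := by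
  symm
  apply Finset.eq_of_subset_of_card_le
  · intro B hB
    obtain ⟨l, -, rfl⟩ := Finset.mem_image.1 hB
    exact Finset.mem_powersetCard.2 ⟨Finset.erase_subset _ _, erase_card hQ l⟩
  · rw [Finset.card_image_of_injective _ (erase_inj hQ), Finset.card_powersetCard, hQ,
      Finset.card_univ, Fintype.card_fin]
    decide

theorem sum_three {N : ℕ} {Q : Finset (Fin N)} (hQ : Q.card = 4) (f : Finset (Fin N) → ℝ) :
    ∑ T ∈ Q.powersetCard 3, f T = ∑ l : Fin 4, f (Q.erase (Q.orderEmbOfFin hQ l)) := by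
  rw [powersetCard_three hQ, Finset.sum_image fun l _ l' _ h => erase_inj hQ h]

theorem comp_erase {N : ℕ} {Q : Finset (Fin N)} (hQ : Q.card = 4) (l : Fin 4)
    (x : Fin N → R3) :
    x ∘ (Q.erase (Q.orderEmbOfFin hQ l)).orderEmbOfFin (erase_card hQ l) =
      sub4 l (x ∘ Q.orderEmbOfFin hQ) := by
  have h := Finset.orderEmbOfFin_unique (erase_card hQ l)
    (f := fun m => Q.orderEmbOfFin hQ (l.succAbove m))
    (fun m => Finset.mem_erase.2 ⟨fun h => Fin.succAbove_ne l m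
      ((Q.orderEmbOfFin hQ).injective h), Finset.orderEmbOfFin_mem Q hQ _⟩)
    ((Q.orderEmbOfFin hQ).strictMono.comp (Fin.strictMono_succAbove l))
  rw [← h]
  rfl

theorem contDiff_sub4 {f : (Fin 3 → R3) → ℝ} (hf : ContDiff ℝ 1 f) (l : Fin 4) :
    ContDiff ℝ 1 (fun y => f (sub4 l y)) := contDiff_ph hf l

end TrialC2e

open TrialC2e

/-- `edens Psi² = |∇Psi|² + ∑ v Psi²` for every `S` (`∇Psi = Psi ∑ g`). -/
theorem edens_mul {F : ∀ k : ℕ, (Fin k → R3) → ℝ} (hF : ∀ k, ContDiff ℝ 1 (F k))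
    (hpos : ∀ k x, 0 < F k x) (v : ∀ k : ℕ, (Fin k → R3) → ℝ) {N : ℕ} (S : Finset (Fin N))
    (x : Fin N → R3) :
    edens (gF F) (onF v) S x * Psi (onF F) S x ^ 2 =
      ∑ i, ∑ a, pd (Psi (onF F) S) i a x ^ 2 + (∑ B ∈ S.powerset, onF v B x) *
        Psi (onF F) S x ^ 2 := by
  unfold edens
  rw [add_mul, Finset.sum_mul]
  congr 1
  refine Finset.sum_congr rfl fun i _ => ?_
  rw [Finset.sum_mul]
  refine Finset.sum_congr rfl fun a _ => ?_
  rw [pd_Psi hF hpos, mul_pow]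

/-- The three-body energy. (`pd (1 - φ) = - pd φ`.) -/
theorem AT_eq {V : R3 → R3 → ℝ} (hc : 0 < c) (h3 : TD3 c K r φ) (hh4 : TD4 c M K4 R h4)
    (hh5 : TD5 c M K5 R R5 h5) {N : ℕ} {T : Finset (Fin N)} (hT : T.card = 3) (x : Fin N → R3) :
    AT (onF (famH (fun x => 1 - φ x) h4 h5)) (gF (famH (fun x => 1 - φ x) h4 h5)) (onF (vF V))
      T x = gg φ φ (x ∘ T.orderEmbOfFin hT) +
        V3 V (x ∘ T.orderEmbOfFin hT) * (1 - φ (x ∘ T.orderEmbOfFin hT)) ^ 2 := by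
  unfold AT
  rw [edens_mul (famH_contDiff h3 hh4 hh5) (TrialC2e.famH_pos hc h3 hh4 hh5)]
  have hPsi : Psi (onF (famH (fun x => 1 - φ x) h4 h5)) T =
      fun x => (fun y => 1 - φ y) (x ∘ T.orderEmbOfFin hT) := by
    funext x
    exact Psi_three (famH_one _ h4 h5) hT x
  have hcd : ContDiff ℝ 1 (fun y => 1 - φ y) := contDiff_const.sub h3.c1
  rw [hPsi]
  congr 1
  · rw [← gg_one_sub h3.c1, ← sum_pd_comp_inj hcd hcd (T.orderEmbOfFin hT).injective]
    refine Finset.sum_congr rfl fun i _ => Finset.sum_congr rfl fun a _ => ?_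
    exact sq _
  · rw [sum_v V T x]
    have : T.powersetCard 3 = {T} := by
      rw [← hT, Finset.powersetCard_self]
    rw [this, Finset.sum_singleton, onF_eq (vF V) hT x]
    rfl

/-- The four-body energy. -/
theorem BQ_eq' {V : R3 → R3 → ℝ} (hc : 0 < c) (h3 : TD3 c K r φ) (hh4 : TD4 c M K4 R h4)
    (hh5 : TD5 c M K5 R R5 h5) {N : ℕ} {Q : Finset (Fin N)} (hQ : Q.card = 4) (x : Fin N → R3) :
    BQ (onF (famH (fun x => 1 - φ x) h4 h5)) (gF (famH (fun x => 1 - φ x) h4 h5)) (onF (vF V))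
      Q x = dens4 V φ (fun y => Pf φ y * h4 y) (x ∘ Q.orderEmbOfFin hQ) := by
  unfold BQ dens4
  rw [edens_mul (famH_contDiff h3 hh4 hh5) (TrialC2e.famH_pos hc h3 hh4 hh5)]
  have hPsi : Psi (onF (famH (fun x => 1 - φ x) h4 h5)) Q =
      fun x => (fun y => Pf φ y * h4 y) (x ∘ Q.orderEmbOfFin hQ) := by
    funext x
    exact Psi_four (famH_one _ h4 h5) hQ x
  have hcd : ContDiff ℝ 1 (fun y : Fin 4 → R3 => Pf φ y * h4 y) := by
    refine ContDiff.mul ?_ hh4.c1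
    unfold Pf
    exact contDiff_prod fun l _ => contDiff_const.sub (contDiff_ph h3.c1 l)
  rw [hPsi]
  congr 1
  · congr 1
    · rw [← sum_pd_comp_inj hcd hcd (Q.orderEmbOfFin hQ).injective]
      refine Finset.sum_congr rfl fun i _ => Finset.sum_congr rfl fun a _ => ?_
      exact sq _
    · rw [sum_v V Q x, sum_three hQ]
      congr 1
      refine Finset.sum_congr rfl fun l _ => ?_
      exact onF_erase hQ l x
  · rw [sum_three hQ]
    refine Finset.sum_congr rfl fun l _ => ?_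
    rw [AT_eq hc h3 hh4 hh5 (erase_card hQ l) x, comp_erase hQ l x]
    rfl

end Pool.Agent.Lib.MP_5db8e2_mp
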