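import Pool.Agent.Lib.MP_5db8e2_mp.TrialC2
import Pool.Agent.Lib.MP_5db8e2_mp.TrialB3

/-!
# The kernel bounds of the trial state
-/

set_option autoImplicit false

open MeasureTheory Filter Topology

namespace Pool.Agent.Lib.MP_5db8e2_mp

namespace TrialC3aux

/-- The truncated radial weights. -/
noncomputable def wr (q r : ℝ) (t : R3) : ℝ := if ‖t‖ ≤ 2 * r then (1 + ‖t‖) ^ (-q) else 0

theorem wr_nonneg (q r : ℝ) (t : R3) : 0 ≤ wr q r t := by
  unfold wr
  split_ifs <;> positivity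

theorem wr_le_one {q : ℝ} (hq : 0 ≤ q) (r : ℝ) (t : R3) : wr q r t ≤ 1 := by
  unfold wr
  split_ifs
  · exact Real.rpow_le_one_of_one_le_of_nonpos (by linarith [norm_nonneg t]) (by linarith)
  · exact zero_le_one

theorem measurable_wr (q r : ℝ) : Measurable (wr q r) := by
  unfold wr
  refine Measurable.ite (measurableSet_le measurable_norm measurable_const) ?_ measurable_const
  exact (measurable_const.add measurable_norm).pow_const _

theorem integrable_wr {q : ℝ} (hq : 0 ≤ q) (r : ℝ) : Integrable (wr q r) := by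
  have h1 : IntegrableOn (fun _ : R3 => (1 : ℝ)) (Metric.closedBall 0 (2 * r)) := by
    rw [integrableOn_const_iff]
    right
    exact measure_closedBall_lt_top
  have h2 := h1.integrable_indicator Metric.isClosed_closedBall.measurableSet
  refine h2.mono' (measurable_wr q r).aestronglyMeasurable (Eventually.of_forall fun t => ?_)
  rw [Real.norm_eq_abs, abs_of_nonneg (wr_nonneg q r t)]
  by_cases ht : ‖t‖ ≤ 2 * r
  · rw [Set.indicator_of_mem (by simpa using ht)]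
    exact wr_le_one hq r t
  · unfold wr
    rw [if_neg ht]
    exact Set.indicator_nonneg (fun _ _ => zero_le_one) _

/-- The radial integral. -/
theorem integral_wr_le {q r J : ℝ}
    (h : ∫ y in Set.Ioc 0 (2 * r), y ^ 2 * (1 + y) ^ (-q) ≤ J) :
    ∫ t, wr q r t ≤ 3 * (volume (Metric.ball (0 : R3) 1)).toReal * J := by
  have hpol := integral_fun_norm_addHaar (volume : Measure R3)
    (fun y : ℝ => if y ≤ 2 * r then (1 + y) ^ (-q) else 0)
  have hfin : Module.finrank ℝ R3 = 3 := by simp [R3]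
  rw [hfin] at hpol
  have heq : ∫ t, wr q r t = ∫ t : R3, (fun y : ℝ => if y ≤ 2 * r then (1 + y) ^ (-q) else 0) ‖t‖ :=
    rfl
  have hin : ∫ y in Set.Ioi (0 : ℝ), y ^ (3 - 1) •
      (fun y : ℝ => if y ≤ 2 * r then (1 + y) ^ (-q) else 0) y =
      ∫ y in Set.Ioc 0 (2 * r), y ^ 2 * (1 + y) ^ (-q) := by
    rw [← integral_indicator measurableSet_Ioi, ← integral_indicator measurableSet_Ioc]
    congr 1
    funext y
    by_cases hy : 0 < y
    · rw [Set.indicator_of_mem (show y ∈ Set.Ioi (0 : ℝ) from hy)]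
      by_cases hy2 : y ≤ 2 * r
      · rw [Set.indicator_of_mem (show y ∈ Set.Ioc 0 (2 * r) from ⟨hy, hy2⟩)]
        simp only [if_pos hy2, smul_eq_mul]
      · rw [Set.indicator_of_notMem (fun hh => hy2 hh.2)]
        simp only [if_neg hy2, smul_zero]
    · rw [Set.indicator_of_notMem (show y ∉ Set.Ioi (0 : ℝ) from hy),
        Set.indicator_of_notMem (show y ∉ Set.Ioc 0 (2 * r) from fun hh => hy hh.1)]
  rw [heq, hpol, hin]
  simp only [nsmul_eq_mul, smul_eq_mul, Nat.cast_ofNat]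
  rw [mul_assoc]
  have hv : 0 ≤ (volume (Metric.ball (0 : R3) 1)).toReal := ENNReal.toReal_nonneg
  exact mul_le_mul_of_nonneg_left (mul_le_mul_of_nonneg_left h hv) (by norm_num)

theorem one_dim_two {r : ℝ} (hr : 1 ≤ r) :
    ∫ y in Set.Ioc 0 (2 * r), y ^ 2 * (1 + y) ^ (-(2 : ℝ)) ≤ 2 * r := by
  have h1 : ∫ y in Set.Ioc 0 (2 * r), (1 : ℝ) = 2 * r := by
    simp [Real.volume_real_Ioc]
    linarith
  refine le_trans (setIntegral_mono_on (s := Set.Ioc 0 (2 * r)) ?_ ?_ measurableSet_Ioc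
    fun y hy => ?_) h1.le
  · have : IntegrableOn (fun _ : ℝ => (1 : ℝ)) (Set.Ioc 0 (2 * r)) := by
      rw [integrableOn_const_iff]
      right
      exact measure_Ioc_lt_top
    refine this.mono' ?_ ?_
    · refine Measurable.aestronglyMeasurable ?_
      exact (measurable_id.pow_const 2).mul ((measurable_const.add measurable_id).pow_const _)
    · filter_upwards [ae_restrict_mem measurableSet_Ioc] with y hy
      have hy0 : 0 < y := hy.1
      rw [Real.norm_eq_abs, abs_of_nonneg (by positivity), Real.rpow_neg (by positivity),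
        Real.rpow_two, ← div_eq_mul_inv, div_le_one (by positivity)]
      nlinarith
  · rw [integrableOn_const_iff]
    right
    exact measure_Ioc_lt_top
  · have hy0 : 0 < y := hy.1
    rw [Real.rpow_neg (by positivity), Real.rpow_two, ← div_eq_mul_inv, div_le_one (by positivity)]
    nlinarith

theorem pt_bound {y : ℝ} (hy : 0 < y) :
    y ^ 2 * (1 + y) ^ (-(5 / 2 : ℝ)) ≤ y ^ (-(1 / 2) : ℝ) := by
  have h1 : (1 + y) ^ (-(5 / 2 : ℝ)) ≤ y ^ (-(5 / 2 : ℝ)) :=
    Real.rpow_le_rpow_of_nonpos hy (by linarith) (by norm_num)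
  have h2 : y ^ (-(1 / 2) : ℝ) = y ^ 2 * y ^ (-(5 / 2 : ℝ)) := by
    rw [← Real.rpow_natCast, ← Real.rpow_add hy]
    norm_num
  rw [h2]
  exact mul_le_mul_of_nonneg_left h1 (by positivity)

theorem one_dim_five_half {r : ℝ} (hr : 1 ≤ r) :
    ∫ y in Set.Ioc 0 (2 * r), y ^ 2 * (1 + y) ^ (-(5 / 2 : ℝ)) ≤ 4 * r ^ (1 / 2 : ℝ) := by
  have hr0 : 0 ≤ 2 * r := by linarith
  have hint : IntegrableOn (fun y : ℝ => y ^ (-(1 / 2) : ℝ)) (Set.Ioc 0 (2 * r)) := by
    have := intervalIntegral.intervalIntegrable_rpow' (a := 0) (b := 2 * r)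
      (r := (-(1 / 2) : ℝ)) (by norm_num)
    exact (intervalIntegrable_iff_integrableOn_Ioc_of_le hr0).1 this
  have hval : ∫ y in Set.Ioc 0 (2 * r), y ^ (-(1 / 2) : ℝ) = 2 * (2 * r) ^ (1 / 2 : ℝ) := by
    rw [← intervalIntegral.integral_of_le hr0, integral_rpow (Or.inl (by norm_num))]
    rw [show (-(1 / 2) : ℝ) + 1 = 1 / 2 by norm_num, Real.zero_rpow (by norm_num)]
    ring
  have hle : (2 * r) ^ (1 / 2 : ℝ) ≤ 2 * r ^ (1 / 2 : ℝ) := by
    rw [Real.mul_rpow (by norm_num) (by linarith)]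
    refine mul_le_mul_of_nonneg_right ?_ (by positivity)
    calc (2 : ℝ) ^ (1 / 2 : ℝ) ≤ 2 ^ (1 : ℝ) :=
          Real.rpow_le_rpow_of_exponent_le (by norm_num) (by norm_num)
      _ = 2 := Real.rpow_one 2
  calc ∫ y in Set.Ioc 0 (2 * r), y ^ 2 * (1 + y) ^ (-(5 / 2 : ℝ))
      ≤ ∫ y in Set.Ioc 0 (2 * r), y ^ (-(1 / 2) : ℝ) := by
        refine setIntegral_mono_on ?_ hint measurableSet_Ioc fun y hy => pt_bound hy.1
        refine hint.mono' ?_ ?_
        · refine Measurable.aestronglyMeasurable ?_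
          exact (measurable_id.pow_const 2).mul ((measurable_const.add measurable_id).pow_const _)
        · filter_upwards [ae_restrict_mem measurableSet_Ioc] with y hy
          have hy0 : 0 < y := hy.1
          rw [Real.norm_eq_abs, abs_of_nonneg (by positivity)]
          exact pt_bound hy0
    _ ≤ 4 * r ^ (1 / 2 : ℝ) := by
        rw [hval]
        linarith

end TrialC3aux

open TrialC3aux

/-- `∫ (1+‖t‖)^{-2} 1_{‖t‖≤2r} ≤ C r` and `∫ (1+‖t‖)^{-5/2} 1_{‖t‖≤2r} ≤ C r^{1/2}` for `r ≥ 1`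
(polar coordinates / `integral_fun_norm_addHaar`). -/
theorem radial_bounds : ∃ C > 0, ∀ r ≥ (1 : ℝ),
    Integrable (fun t : R3 => if ‖t‖ ≤ 2 * r then (1 + ‖t‖) ^ (-(2 : ℝ)) else 0) ∧
    Integrable (fun t : R3 => if ‖t‖ ≤ 2 * r then (1 + ‖t‖) ^ (-(5 / 2 : ℝ)) else 0) ∧
    ∫ t : R3, (if ‖t‖ ≤ 2 * r then (1 + ‖t‖) ^ (-(2 : ℝ)) else 0) ≤ C * r ∧
    ∫ t : R3, (if ‖t‖ ≤ 2 * r then (1 + ‖t‖) ^ (-(5 / 2 : ℝ)) else 0) ≤ C * r ^ (1 / 2 : ℝ) := by
  set v := (volume (Metric.ball (0 : R3) 1)).toReal with hv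
  have hv0 : 0 ≤ v := ENNReal.toReal_nonneg
  refine ⟨12 * v + 1, by positivity, fun r hr => ⟨integrable_wr (by norm_num) r,
    integrable_wr (by norm_num) r, ?_, ?_⟩⟩
  · have h := integral_wr_le (one_dim_two hr)
    refine h.trans ?_
    rw [← hv]
    nlinarith
  · have h := integral_wr_le (one_dim_five_half hr)
    refine h.trans ?_
    rw [← hv]
    have : 0 ≤ r ^ (1 / 2 : ℝ) := by positivity
    nlinarith

theorem Kern.mono {μ : Measure R3} {N : ℕ} {p C s C' s' : ℝ}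
    {κ : Finset (Fin N) → (Fin N → R3) → ℝ} (h : Kern μ N p C s κ) (hp : 0 ≤ p) (hC : C ≤ C')
    (hs : s ≤ s') : Kern μ N p C' s' κ := by
  refine ⟨h.nice, h.nonneg, h.zero, fun A B F hF hF0 hd => (h.bd A B F hF hF0 hd).trans ?_⟩
  have hI : 0 ≤ ∫ x, F x ∂(PP μ N) := integral_nonneg hF0
  refine mul_le_mul_of_nonneg_right (mul_le_mul_of_nonneg_right ?_ (by positivity)) hI
  split_ifs
  · exact hs
  · exact hC

namespace TrialC3aux

variable {N : ℕ}

theorem norm_le_of_mem {k : ℕ} {B : Finset (Fin N)} (hB : B.card = k) (x : Fin N → R3)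
    {i j : Fin N} (hi : i ∈ B) (hj : j ∈ B) :
    ‖x j - x i‖ ≤ 2 * rad (fun m => x (B.orderEmbOfFin hB m)) := by
  have hri : i ∈ Set.range (B.orderEmbOfFin hB) := by
    rw [Finset.range_orderEmbOfFin]
    exact hi
  have hrj : j ∈ Set.range (B.orderEmbOfFin hB) := by
    rw [Finset.range_orderEmbOfFin]
    exact hj
  obtain ⟨m, rfl⟩ := hri
  obtain ⟨m', rfl⟩ := hrj
  exact norm_sub_le_rad (fun m => x (B.orderEmbOfFin hB m)) m' m

theorem famK_zero {f3 : (Fin 3 → R3) → ℝ} {f4 : (Fin 4 → R3) → ℝ} {f5 : (Fin 5 → R3) → ℝ}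
    {k : ℕ} (hk : k < 3 ∨ 5 < k) : famK f3 f4 f5 k = fun _ => 0 := by
  match k, hk with
  | 0, _ => rfl
  | 1, _ => rfl
  | 2, _ => rfl
  | 3, h => omega
  | 4, h => omega
  | 5, h => omega
  | k + 6, _ => rfl

theorem famK_cases {P : ∀ k : ℕ, ((Fin k → R3) → ℝ) → Prop} {f3 : (Fin 3 → R3) → ℝ}
    {f4 : (Fin 4 → R3) → ℝ} {f5 : (Fin 5 → R3) → ℝ} (h0 : ∀ k, P k fun _ => 0) (h3 : P 3 f3)
    (h4 : P 4 f4) (h5 : P 5 f5) (k : ℕ) : P k (famK f3 f4 f5 k) := by
  by_cases hk : k < 3 ∨ 5 < k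
  · rw [famK_zero hk]
    exact h0 k
  · push Not at hk
    have : k = 3 ∨ k = 4 ∨ k = 5 := by omega
    rcases this with rfl | rfl | rfl
    · exact h3
    · exact h4
    · exact h5

/-- The weight `w1`. -/
noncomputable def w1 (t : R3) : ℝ := ((1 + ‖t‖) ^ 4)⁻¹

theorem w1_pos (t : R3) : 0 < w1 t := by
  unfold w1
  positivity

theorem w1_le_one (t : R3) : w1 t ≤ 1 := by
  unfold w1
  have := norm_nonneg t
  exact inv_le_one_of_one_le₀ (one_le_pow₀ (by linarith))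

theorem w1_meas : Measurable w1 := by
  unfold w1
  exact ((measurable_const.add measurable_norm).pow_const 4).inv

theorem w1_integrable : Integrable w1 := by
  have h := integrable_one_add_norm (E := R3) (μ := volume) (r := 4) (by simp [R3]; norm_num)
  refine h.congr (Eventually.of_forall fun t => ?_)
  have := norm_nonneg t
  unfold w1
  simp only
  rw [Real.rpow_neg (by positivity)]
  congr 1
  exact_mod_cast Real.rpow_natCast (1 + ‖t‖) 4

theorem w1_ge {t : R3} {ρ : ℝ} (h : ‖t‖ ≤ ρ) : ((1 + ρ) ^ 4)⁻¹ ≤ w1 t := by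
  unfold w1
  have := norm_nonneg t
  exact inv_anti₀ (by positivity) (pow_le_pow_left₀ (by positivity) (by linarith) 4)

theorem prod_w1_ge {D : Finset (Fin N)} {n : ℕ} (hD : D.card ≤ n) {x : Fin N → R3} {i : Fin N}
    {ρ : ℝ} (hρ : 0 ≤ ρ) (h : ∀ j ∈ D, ‖x j - x i‖ ≤ ρ) :
    ((1 + ρ) ^ (4 * n))⁻¹ ≤ ∏ j ∈ D, w1 (x j - x i) := by
  calc ((1 + ρ) ^ (4 * n))⁻¹ ≤ ((1 + ρ) ^ (4 * D.card))⁻¹ :=
        inv_anti₀ (by positivity) (pow_le_pow_right₀ (by linarith) (by omega))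
    _ = ∏ j ∈ D, ((1 + ρ) ^ 4)⁻¹ := by
        rw [Finset.prod_const, inv_pow, ← pow_mul]
    _ ≤ ∏ j ∈ D, w1 (x j - x i) :=
        Finset.prod_le_prod (fun j _ => by positivity) fun j hj => w1_ge (h j hj)

/-- The family of the kernels. -/
noncomputable def fam (n : ℕ) (A r A4 R A5 R5 : ℝ) : ∀ k : ℕ, (Fin k → R3) → ℝ :=
  famK (fun x => if rad x ≤ r then A / (1 + rad x) ^ n else 0)
    (fun x => if rad x ≤ R then A4 else 0) (fun x => if rad x ≤ R5 then A5 else 0)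

theorem fam_nonneg {n : ℕ} {A r A4 R A5 R5 : ℝ} (hA : 0 ≤ A) (hA4 : 0 ≤ A4) (hA5 : 0 ≤ A5)
    (k : ℕ) (x : Fin k → R3) : 0 ≤ fam n A r A4 R A5 R5 k x := by
  refine famK_cases (P := fun k f => ∀ x, 0 ≤ f x) (fun _ _ => le_rfl) ?_ ?_ ?_ k x
  · intro x
    have := rad_nonneg x
    split_ifs <;> positivity
  · intro x
    split_ifs <;> positivity
  · intro x
    split_ifs <;> positivity

theorem fam_meas (n : ℕ) (A r A4 R A5 R5 : ℝ) (k : ℕ) : Measurable (fam n A r A4 R A5 R5 k) := by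
  refine famK_cases (P := fun k f => Measurable f) (fun _ => measurable_const) ?_ ?_ ?_ k
  · refine Measurable.ite (measurableSet_le continuous_rad.measurable measurable_const) ?_
      measurable_const
    exact measurable_const.div ((measurable_const.add continuous_rad.measurable).pow_const n)
  · exact Measurable.ite (measurableSet_le continuous_rad.measurable measurable_const)
      measurable_const measurable_const
  · exact Measurable.ite (measurableSet_le continuous_rad.measurable measurable_const)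
      measurable_const measurable_const

theorem fam_bdd {n : ℕ} {A r A4 R A5 R5 : ℝ} (hA : 0 ≤ A) (hA4 : 0 ≤ A4) (hA5 : 0 ≤ A5)
    (k : ℕ) : ∃ C, ∀ x, |fam n A r A4 R A5 R5 k x| ≤ C := by
  refine famK_cases (P := fun k f => ∃ C, ∀ x, |f x| ≤ C) (fun _ => ⟨0, fun _ => by simp⟩)
    ⟨A, ?_⟩ ⟨A4, ?_⟩ ⟨A5, ?_⟩ k
  · intro x
    have hr := rad_nonneg x
    split_ifs
    · rw [abs_of_nonneg (by positivity)]
      exact div_le_self hA (one_le_pow₀ (by linarith))
    · simpa using hA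
  · intro x
    split_ifs
    · rw [abs_of_nonneg hA4]
    · simpa using hA4
  · intro x
    split_ifs
    · rw [abs_of_nonneg hA5]
    · simpa using hA5

/-- The bound of the product of the weights `w2`. -/
theorem prod_wr_ge {q : ℝ} {n : ℕ} (hq : q * 2 = n) {B : Finset (Fin N)} (hB : B.card = 3)
    {i : Fin N} (hi : i ∈ B) (x : Fin N → R3) {ρ r : ℝ} (hρ : 0 ≤ ρ) (hρr : ρ ≤ r)
    (h : ∀ j ∈ B.erase i, ‖x j - x i‖ ≤ 2 * ρ) :
    (2 ^ n)⁻¹ * ((1 + ρ) ^ n)⁻¹ ≤ ∏ j ∈ B.erase i, wr q r (x j - x i) := by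
  have hq0 : 0 ≤ q := by
    have : (0 : ℝ) ≤ n := Nat.cast_nonneg n
    linarith
  have hcard : (B.erase i).card = 2 := by
    rw [Finset.card_erase_of_mem hi, hB]
  have h1 : ∀ j ∈ B.erase i, (2 * (1 + ρ)) ^ (-q) ≤ wr q r (x j - x i) := by
    intro j hj
    have hj' := h j hj
    have hn := norm_nonneg (x j - x i)
    unfold wr
    rw [if_pos (by linarith)]
    exact Real.rpow_le_rpow_of_nonpos (by linarith) (by linarith) (by linarith)
  calc (2 ^ n)⁻¹ * ((1 + ρ) ^ n)⁻¹ = ((2 * (1 + ρ)) ^ (-q)) ^ 2 := by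
        rw [← mul_inv, ← mul_pow, ← Real.rpow_natCast _ 2, ← Real.rpow_mul (by positivity),
          ← Real.rpow_natCast _ n, ← Real.rpow_neg (by positivity)]
        congr 1
        push_cast
        linarith
    _ = ∏ j ∈ B.erase i, (2 * (1 + ρ)) ^ (-q) := by
        rw [Finset.prod_const, hcard]
    _ ≤ ∏ j ∈ B.erase i, wr q r (x j - x i) :=
        Finset.prod_le_prod (fun j _ => by positivity) h1

theorem kern_fam {q : ℝ} {n : ℕ} (hq : q * 2 = n) (hn : 4 ≤ n) {A r A4 R A5 R5 : ℝ} (hA : 0 ≤ A)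
    (hA4 : 0 ≤ A4) (hA5 : 0 ≤ A5) (hR : 0 ≤ R) (hR5 : 0 ≤ R5) {L : ℝ} (hL : 0 < L) {W : ℝ}
    (hW : ∫ t, wr q r t ≤ W) (hW0 : 0 ≤ W) :
    Kern (muL L) N (L ^ 3)⁻¹
      ((2 ^ n * A + A4 * (1 + 2 * R) ^ 16 + A5 * (1 + 2 * R5) ^ 16) * (max 1 (∫ t, w1 t)) ^ 5)
      ((2 ^ n * A + A4 * (1 + 2 * R) ^ 16 + A5 * (1 + 2 * R5) ^ 16) * W ^ 2)
      (onF (fam n A r A4 R A5 R5)) := by
  have hq0 : 0 ≤ q := by
    have : (0 : ℝ) ≤ n := Nat.cast_nonneg n
    linarith
  have hC0 : 0 ≤ 2 ^ n * A := by positivity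
  have hC4 : 0 ≤ A4 * (1 + 2 * R) ^ 16 := by positivity
  have hC5 : 0 ≤ A5 * (1 + 2 * R5) ^ 16 := by positivity
  have hz : ∀ B : Finset (Fin N), (B.card < 3 ∨ 5 < B.card) → ∀ x,
      onF (fam n A r A4 R A5 R5) B x = 0 := by
    intro B hB x
    unfold onF fam
    rw [famK_zero hB]
  refine kern_of_pairs hL (by positivity) (le_max_left _ _) hW0
    (onF_nice (fam_meas n A r A4 R A5 R5) (fam_bdd hA hA4 hA5))
    (fun B x => fam_nonneg hA hA4 hA5 _ _) hz
    (w1 := w1) (w2 := wr q r) w1_integrable w1_meas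
    ⟨1, fun t => by rw [abs_of_pos (w1_pos t)]; exact w1_le_one t⟩ (fun t => (w1_pos t).le)
    (integrable_wr hq0 r) (measurable_wr q r)
    ⟨1, fun t => by rw [abs_of_nonneg (wr_nonneg q r t)]; exact wr_le_one hq0 r t⟩
    (wr_nonneg q r) (le_max_right _ _) hW ?_ ?_
  · intro B i D hi hD x
    have hprod : 0 ≤ ∏ j ∈ D, w1 (x j - x i) := Finset.prod_nonneg fun j _ => (w1_pos _).le
    have hcard : D.card ≤ B.card - 1 := by
      rw [← Finset.card_erase_of_mem hi]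
      exact Finset.card_le_card hD
    have hmem : ∀ j ∈ D, j ∈ B := fun j hj => Finset.mem_of_mem_erase (hD hj)
    by_cases hB : B.card < 3 ∨ 5 < B.card
    · left
      rw [hz B hB x]
      positivity
    push Not at hB
    have h345 : B.card = 3 ∨ B.card = 4 ∨ B.card = 5 := by omega
    rcases h345 with h | h | h
    · by_cases hD2 : D.card = 2
      · right
        exact ⟨h, hD2⟩
      left
      rw [onF_eq _ h]
      have hnorm : ∀ j ∈ D, ‖x j - x i‖ ≤ 2 * rad (fun m => x (B.orderEmbOfFin h m)) :=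
        fun j hj => norm_le_of_mem h x hi (hmem j hj)
      generalize (fun m => x (B.orderEmbOfFin h m)) = z at hnorm
      have hz0 := rad_nonneg z
      have h1 := prod_w1_ge (n := 1) (by omega) (by positivity) hnorm
      rw [mul_one] at h1
      have h2 : ((2 : ℝ) ^ 4)⁻¹ * ((1 + rad z) ^ 4)⁻¹ ≤ ((1 + 2 * rad z) ^ 4)⁻¹ := by
        rw [← mul_inv, ← mul_pow]
        exact inv_anti₀ (by positivity) (pow_le_pow_left₀ (by positivity) (by linarith) 4)
      have h3 : ((1 + rad z) ^ n)⁻¹ ≤ ((1 + rad z) ^ 4)⁻¹ :=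
        inv_anti₀ (by positivity) (pow_le_pow_right₀ (by linarith) hn)
      have h4 : fam n A r A4 R A5 R5 3 z ≤ A * ((1 + rad z) ^ n)⁻¹ := by
        show (if rad z ≤ r then A / (1 + rad z) ^ n else 0) ≤ _
        split_ifs
        · rw [div_eq_mul_inv]
        · positivity
      have h16 : (2 : ℝ) ^ 4 ≤ 2 ^ n := pow_le_pow_right₀ (by norm_num) hn
      calc fam n A r A4 R A5 R5 3 z ≤ A * ((1 + rad z) ^ n)⁻¹ := h4
        _ ≤ A * ((1 + rad z) ^ 4)⁻¹ := mul_le_mul_of_nonneg_left h3 hA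
        _ = 2 ^ 4 * A * (((2 : ℝ) ^ 4)⁻¹ * ((1 + rad z) ^ 4)⁻¹) := by
            field_simp
        _ ≤ 2 ^ n * A * ∏ j ∈ D, w1 (x j - x i) := by
            refine mul_le_mul (mul_le_mul_of_nonneg_right h16 hA) (h2.trans h1) (by positivity)
              (by positivity)
        _ ≤ _ := mul_le_mul_of_nonneg_right (by linarith) hprod
    · left
      rw [onF_eq _ h]
      have hnorm : ∀ j ∈ D, ‖x j - x i‖ ≤ 2 * rad (fun m => x (B.orderEmbOfFin h m)) :=
        fun j hj => norm_le_of_mem h x hi (hmem j hj)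
      generalize (fun m => x (B.orderEmbOfFin h m)) = z at hnorm
      show (if rad z ≤ R then A4 else 0) ≤ _
      split_ifs with hzR
      · have h1 := prod_w1_ge (n := 4) (ρ := 2 * R) (by omega) (by positivity)
          fun j hj => (hnorm j hj).trans (by linarith)
        calc A4 = A4 * (1 + 2 * R) ^ 16 * ((1 + 2 * R) ^ (4 * 4))⁻¹ := by
              field_simp
          _ ≤ A4 * (1 + 2 * R) ^ 16 * ∏ j ∈ D, w1 (x j - x i) :=
              mul_le_mul_of_nonneg_left h1 hC4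
          _ ≤ _ := mul_le_mul_of_nonneg_right (by linarith) hprod
      · positivity
    · left
      rw [onF_eq _ h]
      have hnorm : ∀ j ∈ D, ‖x j - x i‖ ≤ 2 * rad (fun m => x (B.orderEmbOfFin h m)) :=
        fun j hj => norm_le_of_mem h x hi (hmem j hj)
      generalize (fun m => x (B.orderEmbOfFin h m)) = z at hnorm
      show (if rad z ≤ R5 then A5 else 0) ≤ _
      split_ifs with hzR
      · have h1 := prod_w1_ge (n := 4) (ρ := 2 * R5) (by omega) (by positivity)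
          fun j hj => (hnorm j hj).trans (by linarith)
        calc A5 = A5 * (1 + 2 * R5) ^ 16 * ((1 + 2 * R5) ^ (4 * 4))⁻¹ := by
              field_simp
          _ ≤ A5 * (1 + 2 * R5) ^ 16 * ∏ j ∈ D, w1 (x j - x i) :=
              mul_le_mul_of_nonneg_left h1 hC5
          _ ≤ _ := mul_le_mul_of_nonneg_right (by linarith) hprod
      · positivity
  · intro B i hi h x
    have hprod : 0 ≤ ∏ j ∈ B.erase i, wr q r (x j - x i) :=
      Finset.prod_nonneg fun j _ => wr_nonneg _ _ _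
    rw [onF_eq _ h]
    have hnorm : ∀ j ∈ B.erase i, ‖x j - x i‖ ≤ 2 * rad (fun m => x (B.orderEmbOfFin h m)) :=
      fun j hj => norm_le_of_mem h x hi (Finset.mem_of_mem_erase hj)
    generalize (fun m => x (B.orderEmbOfFin h m)) = z at hnorm
    have hz0 := rad_nonneg z
    show (if rad z ≤ r then A / (1 + rad z) ^ n else 0) ≤ _
    split_ifs with hzr
    · have h1 := prod_wr_ge hq h hi x hz0 hzr hnorm
      calc A / (1 + rad z) ^ n = 2 ^ n * A * ((2 ^ n)⁻¹ * ((1 + rad z) ^ n)⁻¹) := by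
            field_simp
        _ ≤ 2 ^ n * A * ∏ j ∈ B.erase i, wr q r (x j - x i) :=
            mul_le_mul_of_nonneg_left h1 hC0
        _ ≤ _ := mul_le_mul_of_nonneg_right (by linarith) hprod
    · positivity

end TrialC3aux

/-- The kernel `y`: `kern_of_pairs` with `w1 = const (1+‖t‖)^{-4}` (for the compactly supported
kernels note `1 ≤ C (1+‖t‖)^{-4}` for `‖t‖ ≤ 2R`), `w2 = const (1+‖t‖)^{-2} 1_{‖t‖ ≤ 2r}`;
`‖x_j - x_i‖ ≤ 2 rad`. -/
theorem kern_y {K M R R5 : ℝ} (hK : 0 < K) (hM : 1 ≤ M) (hR : 0 < R) (hR5 : 0 < R5) :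
    ∃ C ≥ 1, ∀ r ≥ (1 : ℝ), ∀ L : ℝ, 0 < L → ∀ N : ℕ,
      Kern (muL L) N (L ^ 3)⁻¹ C (C * r ^ 2) (onF (yF K r M R R5)) := by
  obtain ⟨C0, hC0, hrad⟩ := radial_bounds
  have hM0 : 0 ≤ M ^ 2 := by positivity
  set C1 : ℝ := 2 ^ 4 * (2 * K) + M ^ 2 * (1 + 2 * R) ^ 16 + 1 * (1 + 2 * R5) ^ 16 with hC1
  have hC10 : 0 ≤ C1 := by positivity
  have hW0 : 0 ≤ C1 * (max 1 (∫ t, w1 t)) ^ 5 := by positivity
  have hW2 : 0 ≤ C1 * C0 ^ 2 := by positivity
  refine ⟨1 + C1 * (max 1 (∫ t, w1 t)) ^ 5 + C1 * C0 ^ 2, by linarith,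
    fun r hr L hL N => ?_⟩
  obtain ⟨-, -, h1, -⟩ := hrad r hr
  have hk := kern_fam (N := N) (q := 2) (n := 4) (by norm_num) le_rfl (A := 2 * K) (r := r)
    (A4 := M ^ 2) (R := R) (A5 := 1) (R5 := R5) (by positivity) hM0 zero_le_one hR.le hR5.le hL
    (W := C0 * r) h1 (by positivity)
  refine hk.mono (by positivity) ?_ ?_
  · rw [← hC1]
    linarith
  · rw [← hC1, mul_pow, ← mul_assoc]
    exact mul_le_mul_of_nonneg_right (by linarith) (by positivity)

/-- The kernel `K`: `w1 = const (1+‖t‖)^{-4}` (one free particle: `(1+rad)^{-5}`),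
`w2 = const (1+‖t‖)^{-5/2} 1_{‖t‖ ≤ 2r}`. -/
theorem kern_K {c K K4 R K5 R5 : ℝ} (hc : 0 < c) (hK : 0 < K) (hK4 : 0 < K4) (hR : 0 < R)
    (hK5 : 0 < K5) (hR5 : 0 < R5) :
    ∃ C ≥ 1, ∀ r ≥ (1 : ℝ), ∀ L : ℝ, 0 < L → ∀ N : ℕ,
      Kern (muL L) N (L ^ 3)⁻¹ C (C * r) (onF (KF c K r K4 R K5 R5)) := by
  obtain ⟨C0, hC0, hrad⟩ := radial_bounds
  set C1 : ℝ := 2 ^ 5 * (K / c) + K4 / c * (1 + 2 * R) ^ 16 + K5 / c * (1 + 2 * R5) ^ 16 with hC1
  have hC10 : 0 ≤ C1 := by positivity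
  have hW0 : 0 ≤ C1 * (max 1 (∫ t, w1 t)) ^ 5 := by positivity
  have hW2 : 0 ≤ C1 * C0 ^ 2 := by positivity
  refine ⟨1 + C1 * (max 1 (∫ t, w1 t)) ^ 5 + C1 * C0 ^ 2, by linarith,
    fun r hr L hL N => ?_⟩
  obtain ⟨-, -, -, h1⟩ := hrad r hr
  have hk := kern_fam (N := N) (q := 5 / 2) (n := 5) (by norm_num) (by norm_num) (A := K / c)
    (r := r) (A4 := K4 / c) (R := R) (A5 := K5 / c) (R5 := R5) (by positivity) (by positivity)
    (by positivity) hR.le hR5.le hL (W := C0 * r ^ (1 / 2 : ℝ)) h1 (by positivity)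
  refine hk.mono (by positivity) ?_ ?_
  · rw [← hC1]
    linarith
  · have hsq : (r ^ (1 / 2 : ℝ)) ^ 2 = r := by
      rw [← Real.rpow_natCast, ← Real.rpow_mul (by linarith)]
      norm_num
    rw [← hC1, mul_pow, hsq, ← mul_assoc]
    exact mul_le_mul_of_nonneg_right (by linarith) (by positivity)

end Pool.Agent.Lib.MP_5db8e2_mp
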