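import Pool.Agent.Lib.MP_5db8e2_mp.TrialB1
import Pool.Agent.Lib.MP_5db8e2_mp.TrialC2

/-!
# The four-particle kernels of the trial state
-/

set_option autoImplicit false

open MeasureTheory Filter Topology

namespace Pool.Agent.Lib.MP_5db8e2_mp

namespace TrialC4aux

/-- the weight of one pair -/
noncomputable def wt (t : R3) : ℝ := (1 + ‖t‖) ^ (-(13 / 4 : ℝ))

theorem wt_pos (t : R3) : 0 < wt t := by
  unfold wt
  positivity

theorem wt_le_one (t : R3) : wt t ≤ 1 := by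
  unfold wt
  exact Real.rpow_le_one_of_one_le_of_nonpos (by linarith [norm_nonneg t]) (by norm_num)

theorem wt_measurable : Measurable wt := by
  unfold wt
  fun_prop

theorem wt_bdd : ∃ C, ∀ t, |wt t| ≤ C := ⟨1, fun t => by
  rw [abs_of_pos (wt_pos t)]; exact wt_le_one t⟩

theorem wt_integrable : Integrable wt := by
  unfold wt
  refine integrable_one_add_norm ?_
  simp
  norm_num

theorem wt_ge {R : ℝ} {t : R3} (ht : ‖t‖ ≤ 2 * R) :
    (1 + 2 * R) ^ (-(13 / 4 : ℝ)) ≤ wt t := by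
  unfold wt
  exact Real.rpow_le_rpow_of_nonpos (by linarith [norm_nonneg t]) (by linarith) (by norm_num)

variable {c K r K4 R K5 R5 : ℝ}

theorem KF_zero {k : ℕ} (hk : k < 3) (y : Fin k → R3) : KF c K r K4 R K5 R5 k y = 0 := by
  match k, hk with
  | 0, _ => rfl
  | 1, _ => rfl
  | 2, _ => rfl

theorem KF_bd (hc : 0 < c) (hK : 0 < K) (hK4 : 0 < K4) (hK5 : 0 < K5) (k : ℕ)
    (y : Fin k → R3) : 0 ≤ KF c K r K4 R K5 R5 k y ∧
      KF c K r K4 R K5 R5 k y ≤ (K + K4 + K5) / c := by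
  have h1 : 0 < K / c := by positivity
  have h2 : 0 < K4 / c := by positivity
  have h3 : 0 < K5 / c := by positivity
  have h4 : (K + K4 + K5) / c = K / c + K4 / c + K5 / c := by ring
  rw [h4]
  match k with
  | 0 => exact ⟨le_refl _, by simp only [KF, famK]; linarith⟩
  | 1 => exact ⟨le_refl _, by simp only [KF, famK]; linarith⟩
  | 2 => exact ⟨le_refl _, by simp only [KF, famK]; linarith⟩
  | 3 =>
    simp only [KF, famK]
    have hr := rad_nonneg y
    have h5 : K / c / (1 + rad y) ^ 5 ≤ K / c := by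
      apply div_le_self h1.le
      exact one_le_pow₀ (by linarith)
    split_ifs
    · exact ⟨by positivity, by linarith⟩
    · exact ⟨le_refl _, by linarith⟩
  | 4 =>
    simp only [KF, famK]
    split_ifs
    · exact ⟨by positivity, by linarith⟩
    · exact ⟨le_refl _, by linarith⟩
  | 5 =>
    simp only [KF, famK]
    split_ifs
    · exact ⟨by positivity, by linarith⟩
    · exact ⟨le_refl _, by linarith⟩
  | _ + 6 => exact ⟨le_refl _, by simp only [KF, famK]; linarith⟩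

theorem norm_le_of_mem {N k : ℕ} {B : Finset (Fin N)} (hB : B.card = k) (x : Fin N → R3)
    {i j : Fin N} (hi : i ∈ B) (hj : j ∈ B) :
    ‖x i - x j‖ ≤ 2 * rad (fun m => x (B.orderEmbOfFin hB m)) := by
  have hi' : i ∈ Set.range (B.orderEmbOfFin hB) := by
    rw [Finset.range_orderEmbOfFin]; exact hi
  have hj' : j ∈ Set.range (B.orderEmbOfFin hB) := by
    rw [Finset.range_orderEmbOfFin]; exact hj
  obtain ⟨m, rfl⟩ := hi'
  obtain ⟨m', rfl⟩ := hj'
  exact norm_sub_le_rad (fun m => x (B.orderEmbOfFin hB m)) m m'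

theorem tri {N : ℕ} (hc : 0 < c) (hK : 0 < K) {B : Finset (Fin N)} (hB : B.card = 3)
    (x : Fin N → R3) {p q l : Fin N} (hp : p ∈ B) (hq : q ∈ B) (hl : l ∈ B) :
    onF (KF c K r K4 R K5 R5) B x ≤
      (32 * (K / c)) * ((1 + ‖x q - x p‖) ^ (-(7 / 4 : ℝ)) * wt (x l - x p)) := by
  rw [onF_eq _ hB x]
  set y : Fin 3 → R3 := fun m => x (B.orderEmbOfFin hB m) with hy
  have hr := rad_nonneg y
  have h1 : 0 < K / c := by positivity
  have hq' := norm_le_of_mem hB x hq hp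
  have hl' := norm_le_of_mem hB x hl hp
  rw [← hy] at hq' hl'
  have hqn := norm_nonneg (x q - x p)
  have hln := norm_nonneg (x l - x p)
  have hpos : 0 < (1 + ‖x q - x p‖) ^ (-(7 / 4 : ℝ)) * wt (x l - x p) :=
    mul_pos (by positivity) (wt_pos _)
  show (if rad y ≤ r then K / c / (1 + rad y) ^ 5 else 0) ≤ _
  split_ifs
  · have e1 : (2 * (1 + rad y)) ^ (-(7 / 4 : ℝ)) ≤ (1 + ‖x q - x p‖) ^ (-(7 / 4 : ℝ)) :=
      Real.rpow_le_rpow_of_nonpos (by linarith) (by linarith) (by norm_num)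
    have e2 : (2 * (1 + rad y)) ^ (-(13 / 4 : ℝ)) ≤ wt (x l - x p) :=
      Real.rpow_le_rpow_of_nonpos (by linarith) (by linarith) (by norm_num)
    have e3 : (2 * (1 + rad y)) ^ (-(7 / 4 : ℝ)) * (2 * (1 + rad y)) ^ (-(13 / 4 : ℝ))
        = ((2 * (1 + rad y)) ^ 5)⁻¹ := by
      rw [← Real.rpow_add (by linarith), ← Real.rpow_natCast, ← Real.rpow_neg (by linarith)]
      norm_num
    have e4 : ((2 * (1 + rad y)) ^ 5)⁻¹ ≤ (1 + ‖x q - x p‖) ^ (-(7 / 4 : ℝ)) * wt (x l - x p) := by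
      rw [← e3]
      exact mul_le_mul e1 e2 (by positivity) (by positivity)
    have e5 : K / c / (1 + rad y) ^ 5 = 32 * (K / c) * ((2 * (1 + rad y)) ^ 5)⁻¹ := by
      field_simp
      ring
    rw [e5]
    exact mul_le_mul_of_nonneg_left e4 (by positivity)
  · positivity

theorem quad {N : ℕ} (hc : 0 < c) (hK4 : 0 < K4) (hR : 0 < R) {B : Finset (Fin N)}
    (hB : B.card = 4) (x : Fin N → R3) {p : Fin N} (hp : p ∈ B) :
    onF (KF c K r K4 R K5 R5) B x ≤
      (K4 / c * (((1 + 2 * R) ^ (-(13 / 4 : ℝ))) ^ 3)⁻¹) *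
        ∏ j ∈ B.erase p, wt (x j - x p) := by
  rw [onF_eq _ hB x]
  set y : Fin 4 → R3 := fun m => x (B.orderEmbOfFin hB m) with hy
  have h1 : 0 < K4 / c := by positivity
  set a : ℝ := (1 + 2 * R) ^ (-(13 / 4 : ℝ)) with ha
  have ha0 : 0 < a := by rw [ha]; positivity
  have hprod0 : 0 ≤ ∏ j ∈ B.erase p, wt (x j - x p) :=
    Finset.prod_nonneg fun j _ => (wt_pos _).le
  show (if rad y ≤ R then K4 / c else 0) ≤ _
  split_ifs with hrad
  · have hcard : (B.erase p).card = 3 := by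
      rw [Finset.card_erase_of_mem hp, hB]
    have h2 : a ^ 3 ≤ ∏ j ∈ B.erase p, wt (x j - x p) := by
      have h0 : a ^ 3 = ∏ _j ∈ B.erase p, a := by rw [Finset.prod_const, hcard]
      rw [h0]
      refine Finset.prod_le_prod (fun _ _ => ha0.le) fun j hj => ?_
      have h3 := norm_le_of_mem hB x (Finset.mem_of_mem_erase hj) hp
      exact wt_ge (h3.trans (by linarith))
    have h4 : K4 / c = K4 / c * (a ^ 3)⁻¹ * a ^ 3 := by
      field_simp
    calc K4 / c = K4 / c * (a ^ 3)⁻¹ * a ^ 3 := h4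
      _ ≤ _ := mul_le_mul_of_nonneg_left h2 (by positivity)
  · positivity

/-- the sum of the stars -/
noncomputable def star {N : ℕ} (Q : Finset (Fin N)) (x : Fin N → R3) : ℝ :=
  ∑ p ∈ Q, ∏ j ∈ Q.erase p, wt (x j - x p)

theorem star_ge {N : ℕ} {Q : Finset (Fin N)} {p : Fin N} (hp : p ∈ Q) (x : Fin N → R3) :
    ∏ j ∈ Q.erase p, wt (x j - x p) ≤ star Q x := by
  unfold star
  exact Finset.single_le_sum (f := fun p => ∏ j ∈ Q.erase p, wt (x j - x p))
    (fun p _ => Finset.prod_nonneg fun j _ => (wt_pos _).le) hp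

theorem star_nonneg {N : ℕ} (Q : Finset (Fin N)) (x : Fin N → R3) : 0 ≤ star Q x :=
  Finset.sum_nonneg fun _ _ => Finset.prod_nonneg fun _ _ => (wt_pos _).le

/-- the pointwise bound of one product -/
theorem term_le {N : ℕ} (hc : 0 < c) (hK : 0 < K) (hK4 : 0 < K4) (hR : 0 < R) (hK5 : 0 < K5)
    {Q B B' : Finset (Fin N)} (hQ : Q.card = 4) (hU : B ∪ B' = Q) (x : Fin N → R3) :
    onF (KF c K r K4 R K5 R5) B x * onF (KF c K r K4 R K5 R5) B' x ≤
      ((K4 / c * (((1 + 2 * R) ^ (-(13 / 4 : ℝ))) ^ 3)⁻¹) * ((K + K4 + K5) / c)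
        + (32 * (K / c)) ^ 2) * star Q x := by
  set a : ℝ := K4 / c * (((1 + 2 * R) ^ (-(13 / 4 : ℝ))) ^ 3)⁻¹ with ha
  have ha0 : 0 < a := by rw [ha]; positivity
  have hKb : 0 < (K + K4 + K5) / c := by positivity
  have hst := star_nonneg Q x
  have hnn : ∀ B : Finset (Fin N), 0 ≤ onF (KF c K r K4 R K5 R5) B x := fun B =>
    (KF_bd hc hK hK4 hK5 _ _).1
  have hle : ∀ B : Finset (Fin N), onF (KF c K r K4 R K5 R5) B x ≤ (K + K4 + K5) / c :=
    fun B => (KF_bd hc hK hK4 hK5 _ _).2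
  have hrhs : 0 ≤ (a * ((K + K4 + K5) / c) + (32 * (K / c)) ^ 2) * star Q x := by positivity
  have hBQ : B ⊆ Q := by rw [← hU]; exact Finset.subset_union_left
  have hB'Q : B' ⊆ Q := by rw [← hU]; exact Finset.subset_union_right
  have hBc := Finset.card_le_card hBQ
  have hB'c := Finset.card_le_card hB'Q
  rw [hQ] at hBc hB'c
  -- small sets
  rcases Nat.lt_or_ge B.card 3 with h3 | h3
  · have : onF (KF c K r K4 R K5 R5) B x = 0 := KF_zero h3 _
    rw [this, zero_mul]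
    exact hrhs
  rcases Nat.lt_or_ge B'.card 3 with h3' | h3'
  · have : onF (KF c K r K4 R K5 R5) B' x = 0 := KF_zero h3' _
    rw [this, mul_zero]
    exact hrhs
  obtain ⟨p0, hp0⟩ : Q.Nonempty := Finset.card_pos.1 (by omega)
  have hbig : ∀ D D' : Finset (Fin N), D ⊆ Q → D.card = 4 →
      onF (KF c K r K4 R K5 R5) D x * onF (KF c K r K4 R K5 R5) D' x ≤
      (a * ((K + K4 + K5) / c) + (32 * (K / c)) ^ 2) * star Q x := by
    intro D D' hD hD4
    have hDQ : D = Q := Finset.eq_of_subset_of_card_le hD (by omega)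
    subst hDQ
    have h1 := quad (c := c) (K := K) (r := r) (K5 := K5) (R5 := R5) hc hK4 hR hQ x hp0
    rw [← ha] at h1
    have h2 := h1.trans (mul_le_mul_of_nonneg_left (star_ge hp0 x) ha0.le)
    calc onF (KF c K r K4 R K5 R5) D x * onF (KF c K r K4 R K5 R5) D' x
        ≤ (a * star D x) * ((K + K4 + K5) / c) :=
          mul_le_mul h2 (hle D') (hnn D') (by positivity)
      _ = a * ((K + K4 + K5) / c) * star D x := by ring
      _ ≤ _ := mul_le_mul_of_nonneg_right (by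
          have : 0 ≤ (32 * (K / c)) ^ 2 := sq_nonneg _
          linarith) hst
  rcases Nat.lt_or_ge B.card 4 with h4 | h4
  swap
  · exact hbig B B' hBQ (by omega)
  rcases Nat.lt_or_ge B'.card 4 with h4' | h4'
  swap
  · rw [mul_comm]
    exact hbig B' B hB'Q (by omega)
  have hB3 : B.card = 3 := by omega
  have hB3' : B'.card = 3 := by omega
  have hI : (B ∩ B').card = 2 := by
    have := Finset.card_union_add_card_inter B B'
    rw [hU, hQ, hB3, hB3'] at this
    omega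
  obtain ⟨p, q, hpq, hIpq⟩ := Finset.card_eq_two.1 hI
  have hpI : p ∈ B ∩ B' := by rw [hIpq]; simp
  have hqI : q ∈ B ∩ B' := by rw [hIpq]; simp
  rw [Finset.mem_inter] at hpI hqI
  have hS1 : (B \ B').card = 1 := by
    have := Finset.card_sdiff_add_card_inter B B'
    omega
  have hS2 : (B' \ B).card = 1 := by
    have := Finset.card_sdiff_add_card_inter B' B
    rw [Finset.inter_comm] at this
    omega
  obtain ⟨l, hl⟩ := Finset.card_eq_one.1 hS1
  obtain ⟨l', hl'⟩ := Finset.card_eq_one.1 hS2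
  have hlm : l ∈ B \ B' := by rw [hl]; simp
  have hlm' : l' ∈ B' \ B := by rw [hl']; simp
  rw [Finset.mem_sdiff] at hlm hlm'
  have hll' : l ≠ l' := fun h => hlm.2 (h ▸ hlm'.1)
  have hql : q ≠ l := fun h => hlm.2 (h ▸ hqI.2)
  have hql' : q ≠ l' := fun h => hlm'.2 (h ▸ hqI.1)
  have hpl : p ≠ l := fun h => hlm.2 (h ▸ hpI.2)
  have hpl' : p ≠ l' := fun h => hlm'.2 (h ▸ hpI.1)
  have hsub : ({q, l, l'} : Finset (Fin N)) ⊆ Q.erase p := by
    intro z hz
    simp only [Finset.mem_insert, Finset.mem_singleton] at hz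
    rw [Finset.mem_erase]
    rcases hz with rfl | rfl | rfl
    · exact ⟨hpq.symm, hBQ hqI.1⟩
    · exact ⟨hpl.symm, hBQ hlm.1⟩
    · exact ⟨hpl'.symm, hB'Q hlm'.1⟩
  have hcard3 : ({q, l, l'} : Finset (Fin N)).card = 3 :=
    Finset.card_eq_three.2 ⟨q, l, l', hql, hql', hll', rfl⟩
  have hE : Q.erase p = {q, l, l'} := by
    symm
    apply Finset.eq_of_subset_of_card_le hsub
    rw [Finset.card_erase_of_mem (hBQ hpI.1), hQ, hcard3]
  have hprod : ∏ j ∈ Q.erase p, wt (x j - x p)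
      = wt (x q - x p) * (wt (x l - x p) * wt (x l' - x p)) := by
    rw [hE, Finset.prod_insert (by simp [hql, hql']), Finset.prod_insert (by simp [hll']),
      Finset.prod_singleton]
  have t1 := tri (c := c) (K := K) (r := r) (K4 := K4) (R := R) (K5 := K5) (R5 := R5) hc hK hB3 x
    hpI.1 hqI.1 hlm.1
  have t2 := tri (c := c) (K := K) (r := r) (K4 := K4) (R := R) (K5 := K5) (R5 := R5) hc hK hB3' x
    hpI.2 hqI.2 hlm'.1
  have hs : (1 + ‖x q - x p‖) ^ (-(7 / 4 : ℝ)) * (1 + ‖x q - x p‖) ^ (-(7 / 4 : ℝ))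
      ≤ wt (x q - x p) := by
    have hn := norm_nonneg (x q - x p)
    rw [← Real.rpow_add (by linarith)]
    unfold wt
    apply Real.rpow_le_rpow_of_exponent_le (by linarith)
    norm_num
  have hwl := (wt_pos (x l - x p)).le
  have hwl' := (wt_pos (x l' - x p)).le
  calc onF (KF c K r K4 R K5 R5) B x * onF (KF c K r K4 R K5 R5) B' x
      ≤ ((32 * (K / c)) * ((1 + ‖x q - x p‖) ^ (-(7 / 4 : ℝ)) * wt (x l - x p))) *
        ((32 * (K / c)) * ((1 + ‖x q - x p‖) ^ (-(7 / 4 : ℝ)) * wt (x l' - x p))) :=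
        mul_le_mul t1 t2 (hnn B') (by positivity)
    _ = (32 * (K / c)) ^ 2 * (((1 + ‖x q - x p‖) ^ (-(7 / 4 : ℝ)) *
        (1 + ‖x q - x p‖) ^ (-(7 / 4 : ℝ))) * (wt (x l - x p) * wt (x l' - x p))) := by ring
    _ ≤ (32 * (K / c)) ^ 2 * (wt (x q - x p) * (wt (x l - x p) * wt (x l' - x p))) := by
        apply mul_le_mul_of_nonneg_left _ (sq_nonneg _)
        exact mul_le_mul_of_nonneg_right hs (mul_nonneg hwl hwl')
    _ ≤ (32 * (K / c)) ^ 2 * star Q x := by
        rw [← hprod]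
        exact mul_le_mul_of_nonneg_left (star_ge (hBQ hpI.1) x) (sq_nonneg _)
    _ ≤ _ := by
        apply mul_le_mul_of_nonneg_right _ hst
        have : 0 ≤ a * ((K + K4 + K5) / c) := by positivity
        linarith

end TrialC4aux

open TrialC4aux

/-- The four-particle kernels: `KU_Q` is a sum of products `K_B K_{B'}`, `B ∪ B' = Q`,
`B ∩ B' ≠ ∅`; if `B, B'` are triples with the common particles `p, q` and `l' ∈ B`, `l ∈ B'`, then
`K_B K_{B'} ≤ C (1+‖x_q-x_p‖)^{-7/2} (1+‖x_{l'}-x_p‖)^{-13/4} (1+‖x_l-x_p‖)^{-13/4}`; otherwise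
one of them is `Q` itself and the product is `≤ C ∏ (1+‖x_j - x_p‖)^{-4}`; `integral_star_le` with
`A = {p}`, `F = 1`. -/
theorem KU_four_le {c K K4 R K5 R5 : ℝ} (hc : 0 < c) (hK : 0 < K) (hK4 : 0 < K4) (hR : 0 < R)
    (hK5 : 0 < K5) (hR5 : 0 < R5) :
    ∃ AA > 0, ∀ r ≥ (1 : ℝ), ∀ L : ℝ, 0 < L → ∀ (N : ℕ) (Q : Finset (Fin N)), Q.card = 4 →
      ∫ x, KU (onF (KF c K r K4 R K5 R5)) Q x ∂(PP (muL L) N) ≤ AA * ((L ^ 3)⁻¹) ^ 3 := by
  have _ := hR5
  set C2 : ℝ := (K4 / c * (((1 + 2 * R) ^ (-(13 / 4 : ℝ))) ^ 3)⁻¹) * ((K + K4 + K5) / c)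
        + (32 * (K / c)) ^ 2 with hC2
  have hC20 : 0 < C2 := by rw [hC2]; positivity
  set W : ℝ := ∫ t, wt t with hW
  have hW0 : 0 ≤ W := integral_nonneg fun t => (wt_pos t).le
  refine ⟨256 * C2 * (4 * (W + 1) ^ 3), by positivity, ?_⟩
  intro r _ L hL N Q hQ
  have hprob := isProb_muL hL
  have hp : 0 < (L ^ 3)⁻¹ := by positivity
  have hstarBM : ∀ p : Fin N, BM (fun x : Fin N → R3 => ∏ j ∈ Q.erase p, wt (x j - x p)) :=
    fun p => BM.prod _ fun j _ => BM.comp (⟨wt_measurable, wt_bdd⟩ : BM wt)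
        ((measurable_pi_apply j).sub (measurable_pi_apply p))
  have hone : ∀ p ∈ Q, ∫ x, ∏ j ∈ Q.erase p, wt (x j - x p) ∂(PP (muL L) N)
      ≤ ((L ^ 3)⁻¹ * (W + 1)) ^ 3 := by
    intro p hpQ
    have h1 : Nice ({p} : Finset (Fin N)) (fun _ : Fin N → R3 => (1 : ℝ)) :=
      ⟨measurable_const, ⟨1, fun _ => by simp⟩, fun _ _ _ => rfl⟩
    have h2 := integral_star_le (muL L) h1 (fun _ => zero_le_one) (Finset.mem_singleton_self p)
      (D := Q.erase p) (by simp) (w := fun _ => wt) (fun _ => wt_measurable)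
      (fun _ => wt_bdd) (fun _ t => (wt_pos t).le) (W := fun _ => (L ^ 3)⁻¹ * (W + 1))
      (fun _ c => (integral_muL_le hL wt_integrable (fun t => (wt_pos t).le) c).trans
        (mul_le_mul_of_nonneg_left (by linarith) hp.le))
    have h3 : (Q.erase p).card = 3 := by
      rw [Finset.card_erase_of_mem hpQ, hQ]
    rw [Finset.prod_const, h3] at h2
    simpa using h2
  have hstar : ∫ x, star Q x ∂(PP (muL L) N) ≤ 4 * ((L ^ 3)⁻¹ * (W + 1)) ^ 3 := by
    unfold TrialC4aux.star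
    rw [integral_finsetSum _ fun p _ => (hstarBM p).integrable _]
    calc ∑ p ∈ Q, ∫ x, ∏ j ∈ Q.erase p, wt (x j - x p) ∂(PP (muL L) N)
        ≤ ∑ _p ∈ Q, ((L ^ 3)⁻¹ * (W + 1)) ^ 3 := Finset.sum_le_sum hone
      _ = 4 * ((L ^ 3)⁻¹ * (W + 1)) ^ 3 := by
          rw [Finset.sum_const, hQ, nsmul_eq_mul]
          norm_num
  have hstarI : Integrable (fun x => star Q x) (PP (muL L) N) := by
    unfold TrialC4aux.star
    exact (BM.sum _ fun p _ => hstarBM p).integrable _
  have hnn : ∀ (B : Finset (Fin N)) (x : Fin N → R3), 0 ≤ onF (KF c K r K4 R K5 R5) B x :=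
    fun B x => (KF_bd hc hK hK4 hK5 _ _).1
  have hpt : ∀ x : Fin N → R3, KU (onF (KF c K r K4 R K5 R5)) Q x ≤ 256 * C2 * star Q x := by
    intro x
    have hst := star_nonneg Q x
    unfold KU
    calc ∑ B ∈ Q.powerset, ∑ B' ∈ Q.powerset.filter (fun B' => B ∪ B' = Q ∧ ¬ Disjoint B B'),
          onF (KF c K r K4 R K5 R5) B x * onF (KF c K r K4 R K5 R5) B' x
        ≤ ∑ _B ∈ Q.powerset, 16 * (C2 * star Q x) := by
          refine Finset.sum_le_sum fun B _ => ?_
          calc ∑ B' ∈ Q.powerset.filter (fun B' => B ∪ B' = Q ∧ ¬ Disjoint B B'),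
              onF (KF c K r K4 R K5 R5) B x * onF (KF c K r K4 R K5 R5) B' x
              ≤ ∑ _B' ∈ Q.powerset.filter (fun B' => B ∪ B' = Q ∧ ¬ Disjoint B B'),
                C2 * star Q x := by
                refine Finset.sum_le_sum fun B' hB' => ?_
                rw [Finset.mem_filter] at hB'
                exact term_le hc hK hK4 hR hK5 hQ hB'.2.1 x
            _ ≤ 16 * (C2 * star Q x) := by
                rw [Finset.sum_const, nsmul_eq_mul]
                apply mul_le_mul_of_nonneg_right _ (by positivity)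
                have h1 : (Q.powerset.filter
                    (fun B' => B ∪ B' = Q ∧ ¬ Disjoint B B')).card ≤ 16 := by
                  refine (Finset.card_filter_le _ _).trans ?_
                  rw [Finset.card_powerset, hQ]
                  norm_num
                exact_mod_cast h1
      _ = 256 * C2 * star Q x := by
          rw [Finset.sum_const, Finset.card_powerset, hQ, nsmul_eq_mul]
          norm_num
          ring
  have hKU0 : ∀ x : Fin N → R3, 0 ≤ KU (onF (KF c K r K4 R K5 R5)) Q x := fun x =>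
    Finset.sum_nonneg fun B _ => Finset.sum_nonneg fun B' _ => mul_nonneg (hnn B x) (hnn B' x)
  calc ∫ x, KU (onF (KF c K r K4 R K5 R5)) Q x ∂(PP (muL L) N)
      ≤ ∫ x, 256 * C2 * star Q x ∂(PP (muL L) N) :=
        integral_mono_of_nonneg (Filter.Eventually.of_forall hKU0) (hstarI.const_mul _)
          (Filter.Eventually.of_forall hpt)
    _ = 256 * C2 * ∫ x, star Q x ∂(PP (muL L) N) := integral_const_mul _ _
    _ ≤ 256 * C2 * (4 * ((L ^ 3)⁻¹ * (W + 1)) ^ 3) :=
        mul_le_mul_of_nonneg_left hstar (by positivity)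
    _ = 256 * C2 * (4 * (W + 1) ^ 3) * ((L ^ 3)⁻¹) ^ 3 := by ring

end Pool.Agent.Lib.MP_5db8e2_mp
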