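import Pool.Agent.Lib.MP_5db8e2_mp.TrialB2
import Pool.Agent.Lib.MP_5db8e2_mp.TrialA2
import Pool.Agent.Lib.MP_5db8e2_mp.TrialC2e
import Pool.Agent.Lib.MP_5db8e2_mp.TrialC3
import Pool.Agent.Lib.MP_5db8e2_mp.TrialC4
import Pool.Agent.Lib.MP_5db8e2_mp.CluE

/-!
# The energy of the trial state
-/

set_option autoImplicit false

open MeasureTheory Filter Topology

namespace Pool.Agent.Lib.MP_5db8e2_mp

theorem pot_nonneg' {V : R3 → R3 → ℝ} (hV : Pot V) {N : ℕ} (x : Fin N → R3) : 0 ≤ pot V x := by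
  unfold pot
  refine Finset.sum_nonneg fun i _ => Finset.sum_nonneg fun j _ => Finset.sum_nonneg fun k _ => ?_
  split_ifs
  · exact hV.nonneg _ _
  · exact le_rfl

theorem energy_nonneg' {V : R3 → R3 → ℝ} (hV : Pot V) {N : ℕ} {L : ℝ} {E : Type*}
    [NormedAddCommGroup E] [NormedSpace ℝ E] (Ψ : (Fin N → R3) → E) : 0 ≤ energy V L Ψ := by
  unfold energy
  refine integral_nonneg fun x => add_nonneg (Finset.sum_nonneg fun i _ =>
    Finset.sum_nonneg fun a _ => by positivity) (mul_nonneg (pot_nonneg' hV x) (by positivity))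

/-- The ground state energy is at most the energy of any real symmetric `C¹` function (divide by
the norm and take the complex valued function; the energies are bounded below by zero). -/
theorem gs_le {V : R3 → R3 → ℝ} (hV : Pot V) {N : ℕ} {L : ℝ} {Ψ : (Fin N → R3) → ℝ}
    (h1 : ContDiff ℝ 1 Ψ) (hs : ∀ (σ : Equiv.Perm (Fin N)) (x : Fin N → R3), Ψ (x ∘ σ) = Ψ x)
    (hpos : 0 < ∫ x in box L N, Ψ x ^ 2) :
    gs V N L ≤ energy V L Ψ / ∫ x in box L N, Ψ x ^ 2 := by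
  set n : ℝ := ∫ x in box L N, Ψ x ^ 2 with hn
  set s : ℝ := (Real.sqrt n)⁻¹ with hsdef
  have hs2 : s ^ 2 = n⁻¹ := by
    rw [hsdef, inv_pow, Real.sq_sqrt hpos.le]
  let Φ : (Fin N → R3) → ℂ := fun x => Complex.ofRealCLM (s * Ψ x)
  have hΦc : ContDiff ℝ 1 Φ := Complex.ofRealCLM.contDiff.comp (contDiff_const.mul h1)
  have hΦn : ∀ x, ‖Φ x‖ ^ 2 = n⁻¹ * Ψ x ^ 2 := fun x => by
    change ‖((s * Ψ x : ℝ) : ℂ)‖ ^ 2 = _
    rw [Complex.norm_real, Real.norm_eq_abs, sq_abs, mul_pow, hs2]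
  have hpd : ∀ i a x, ‖pd Φ i a x‖ ^ 2 = n⁻¹ * ‖pd Ψ i a x‖ ^ 2 := fun i a x => by
    have hd : DifferentiableAt ℝ Ψ x := (h1.differentiable one_ne_zero) x
    have e : HasFDerivAt Φ (Complex.ofRealCLM.comp (s • fderiv ℝ Ψ x)) x := by
      have h2 : HasFDerivAt (fun x => s * Ψ x) (s • fderiv ℝ Ψ x) x := hd.hasFDerivAt.const_mul s
      exact (Complex.ofRealCLM.hasFDerivAt).comp x h2
    have e2 : pd Φ i a x = ((s * pd Ψ i a x : ℝ) : ℂ) := by
      unfold pd
      rw [e.fderiv]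
      simp
    rw [e2, Complex.norm_real, Real.norm_eq_abs, sq_abs, mul_pow, hs2, Real.norm_eq_abs, sq_abs]
  have hE : energy V L Φ = energy V L Ψ / n := by
    unfold energy
    rw [div_eq_inv_mul, ← integral_const_mul]
    refine integral_congr_ae (Eventually.of_forall fun x => ?_)
    simp only [hpd, hΦn, Real.norm_eq_abs, sq_abs]
    simp only [← Finset.mul_sum]
    ring
  rw [← hE]
  refine csInf_le ⟨0, ?_⟩ ⟨Φ, hΦc, fun σ x => ?_, ?_, rfl⟩
  · rintro _ ⟨Ψ', -, -, -, rfl⟩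
    exact energy_nonneg' hV Ψ'
  · change Complex.ofRealCLM (s * Ψ (x ∘ σ)) = _
    rw [hs]
  · simp only [hΦn]
    rw [integral_const_mul, ← hn, inv_mul_cancel₀ hpos.ne']

/-- The marginals of the product law. -/
theorem integral_comp_inj (μ : Measure R3) [IsProbabilityMeasure μ] {k N : ℕ}
    {e : Fin k → Fin N} (he : Function.Injective e) {F : (Fin k → R3) → ℝ} (hF : Measurable F) :
    ∫ x, F (x ∘ e) ∂(PP μ N) = ∫ y, F y ∂(PP μ k) := by
  have hmeas : Measurable (fun x : Fin N → R3 => x ∘ e) :=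
    measurable_pi_lambda _ fun m => measurable_pi_apply (e m)
  have hmap : (PP μ N).map (fun x : Fin N → R3 => x ∘ e) = PP μ k := by
    unfold PP
    symm
    refine Measure.pi_eq fun s hs => ?_
    rw [Measure.map_apply hmeas (MeasurableSet.univ_pi hs)]
    classical
    let t : Fin N → Set R3 := fun i => if h : ∃ m, e m = i then s h.choose else Set.univ
    have ht : ∀ m, t (e m) = s m := fun m => by
      have h : ∃ m', e m' = e m := ⟨m, rfl⟩
      have h2 : h.choose = m := he h.choose_spec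
      simp only [t, dif_pos h, h2]
    have htu : ∀ i, (∀ m, e m ≠ i) → t i = Set.univ := fun i hi => by
      have h : ¬ ∃ m, e m = i := fun ⟨m, hm⟩ => hi m hm
      simp only [t, dif_neg h]
    have hpre : (fun x : Fin N → R3 => x ∘ e) ⁻¹' Set.univ.pi s = Set.univ.pi t := by
      ext x
      simp only [Set.mem_preimage, Set.mem_pi, Set.mem_univ, forall_true_left, Function.comp]
      constructor
      · intro h i
        by_cases hi : ∃ m, e m = i
        · obtain ⟨m, rfl⟩ := hi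
          rw [ht]
          exact h m
        · rw [htu i fun m hm => hi ⟨m, hm⟩]
          trivial
      · intro h m
        have := h (e m)
        rwa [ht] at this
    rw [hpre, Measure.pi_pi]
    have h1 : ∏ i, μ (t i) = ∏ i ∈ Finset.univ.image e, μ (t i) := by
      symm
      refine Finset.prod_subset (Finset.subset_univ _) fun i _ hi => ?_
      rw [htu i fun m hm => hi (Finset.mem_image.2 ⟨m, Finset.mem_univ _, hm⟩)]
      exact measure_univ
    rw [h1, Finset.prod_image fun a _ b _ hab => he hab]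
    exact Finset.prod_congr rfl fun m _ => by rw [ht]
  rw [← hmap, integral_map hmeas.aemeasurable hF.aestronglyMeasurable]

theorem measurable_dens4' {V : R3 → R3 → ℝ} (hV : Pot V) {ψ : (Fin 3 → R3) → ℝ}
    (h1 : ContDiff ℝ 1 ψ) {F : (Fin 4 → R3) → ℝ} (hF : ContDiff ℝ 1 F) :
    Measurable (dens4 V ψ F) := by
  obtain ⟨B, hB, R, hR, hV4⟩ := V4_props hV
  unfold dens4
  have hsub : ∀ l : Fin 4, Measurable (sub4 l) := fun l => fa1_measurable_sub4 l
  refine ((continuous_gg hF hF).measurable.add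
    ((Finset.measurable_sum _ fun l _ => (hV4 l).1).mul (hF.continuous.measurable.pow_const 2))).sub
    (Finset.measurable_sum _ fun l _ => ?_)
  refine ((continuous_gg h1 h1).measurable.comp (hsub l)).add ((hV4 l).1.mul ?_)
  exact (measurable_const.sub (h1.continuous.measurable.comp (hsub l))).pow_const 2

theorem contDiff_Pf' {ψ : (Fin 3 → R3) → ℝ} (h1 : ContDiff ℝ 1 ψ) : ContDiff ℝ 1 (Pf ψ) := by
  unfold Pf
  exact contDiff_prod fun l _ => contDiff_const.sub (contDiff_ph h1 l)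

/-- The families of the trial state are `C¹` and positive. -/
theorem contDiff_famH {c K r M K4 R K5 R5 : ℝ} {φ : (Fin 3 → R3) → ℝ} {h4 : (Fin 4 → R3) → ℝ}
    {h5 : (Fin 5 → R3) → ℝ} (h3 : TD3 c K r φ) (hh4 : TD4 c M K4 R h4)
    (hh5 : TD5 c M K5 R R5 h5) (k : ℕ) : ContDiff ℝ 1 (famH (fun x => 1 - φ x) h4 h5 k) := by
  match k with
  | 0 => exact contDiff_const
  | 1 => exact contDiff_const
  | 2 => exact contDiff_const
  | 3 => exact contDiff_const.sub h3.c1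
  | 4 => exact hh4.c1
  | 5 => exact hh5.c1
  | _ + 6 => exact contDiff_const

theorem famH_pos_td {c K r M K4 R K5 R5 : ℝ} (hc : 0 < c) {φ : (Fin 3 → R3) → ℝ}
    {h4 : (Fin 4 → R3) → ℝ}
    {h5 : (Fin 5 → R3) → ℝ} (h3 : TD3 c K r φ) (hh4 : TD4 c M K4 R h4)
    (hh5 : TD5 c M K5 R R5 h5) (k : ℕ) (x : Fin k → R3) :
    0 < famH (fun x => 1 - φ x) h4 h5 k x := by
  match k with
  | 0 => exact one_pos
  | 1 => exact one_pos
  | 2 => exact one_pos
  | 3 =>
    have := h3.le x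
    change 0 < 1 - φ x
    linarith
  | 4 => exact lt_of_lt_of_le hc (hh4.ge x)
  | 5 => exact lt_of_lt_of_le hc (hh5.ge x)
  | _ + 6 => exact one_pos

theorem PI_famH {c K r M K4 R K5 R5 : ℝ} {φ : (Fin 3 → R3) → ℝ} {h4 : (Fin 4 → R3) → ℝ}
    {h5 : (Fin 5 → R3) → ℝ} (h3 : TD3 c K r φ) (hh4 : TD4 c M K4 R h4)
    (hh5 : TD5 c M K5 R R5 h5) (k : ℕ) : PI (famH (fun x => 1 - φ x) h4 h5 k) := by
  match k with
  | 0 => exact fun _ _ => rfl
  | 1 => exact fun _ _ => rfl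
  | 2 => exact fun _ _ => rfl
  | 3 => exact fun σ x => by change 1 - φ (x ∘ σ) = 1 - φ x; rw [h3.pi σ x]
  | 4 => exact hh4.pi
  | 5 => exact hh5.pi
  | _ + 6 => exact fun _ _ => rfl

/-- **The energy of the trial state.** For the truncated three-body function `φ` of range `r`:
constants `C'` independent of `r, L, N`. Combination of `gs_le`, `edens_mul`, `integral_PP`,
`energy_count`, `AT_eq`, `BQ_eq'`, `expect_le_rint`; `δ = N/L³`. Everything is divided by `L³`: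
`∑_T E[A_T] = C(N,3) E[...] ≤ (N³/6) L^{-6} a3` with `a3 = rint (gg φ φ + V (1-φ)²)`,
`∑_Q E[B_Q] = C(N,4) E[dens4]`, the same for all `Q` and equal to
`E_4 := ∫ dens4 dPP(4)` (marginals; `expect_tendsto` is used later). -/
theorem trial_energy {V : R3 → R3 → ℝ} (hV : Pot V) {c K M K4 R K5 R5 : ℝ} (hc : 0 < c)
    (hc1 : c ≤ 1) (hK : 0 < K) (hM : 1 ≤ M) (hK4 : 0 < K4) (hR : 0 < R) (hK5 : 0 < K5)
    (hR5 : 0 < R5) {h4 : (Fin 4 → R3) → ℝ} {h5 : (Fin 5 → R3) → ℝ} (hh4 : TD4 c M K4 R h4)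
    (hh5 : TD5 c M K5 R R5 h5) : ∃ C' > 0, ∀ (r : ℝ) (φ : (Fin 3 → R3) → ℝ), 1 ≤ r →
      TD3 c K r φ → ∀ L : ℝ, 0 < L → ∀ (N : ℕ), 4 ≤ N → (N : ℝ) * (L ^ 3)⁻¹ * (C' * r ^ 2) ≤ 1 →
      gs V N L / L ^ 3 ≤ (N.choose 3 : ℝ) * ((L ^ 3)⁻¹) ^ 3 *
          (rint fun x => gg φ φ x + V3 V x * (1 - φ x) ^ 2) +
        (N.choose 4 : ℝ) * (L ^ 3)⁻¹ *
          (∫ x, dens4 V φ (fun y => Pf φ y * h4 y) x ∂(PP (muL L) 4)) +
        C' * ((N * (L ^ 3)⁻¹) ^ 5 * r ^ 2) := by
  obtain ⟨hVm, hV0, hVt, hVp, B, hB, RV, hRV, hVB, hVs⟩ := V3_props hV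
  obtain ⟨C1, hC1, hky⟩ := kern_y hK hM hR hR5
  obtain ⟨C2, hC2, hkK⟩ := kern_K hc hK hK4 hR hK5 hR5
  obtain ⟨AA1, hAA1, hKU⟩ := KU_four_le hc hK hK4 hR hK5 hR5
  set C0 : ℝ := max C1 C2 with hC0
  have hC01 : 1 ≤ C0 := hC1.trans (le_max_left _ _)
  have hC0pos : 0 < C0 := by linarith
  -- the three-body energy is bounded
  let G : (Fin (2 + 1) → R3) → ℝ := fun x => 9 * (K * K) * ((1 + rad x) ^ 10)⁻¹ + V3 V x
  have hGI : RI G := by
    refine RI.add (RI.const_mul (ScatBaux.RI_pow (n := 10) (by norm_num)) _) ?_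
    exact RI_of_bdd (B := B) (R := RV) hVm (fun x => by rw [abs_of_nonneg (hV0 x)]; exact hVB x)
      hVs
  set AA2 : ℝ := rint G with hAA2
  have hAA20 : 0 ≤ AA2 := rint_nonneg fun x => add_nonneg
    (by have := rad_nonneg x; positivity) (hV0 x)
  set AA : ℝ := AA1 + AA2 with hAA
  have hAApos : 0 < AA := by linarith
  obtain ⟨C3, hC3, hcount⟩ := energy_count c M C0 AA hc hM hC0pos hAApos
  set C' : ℝ := C0 ^ 2 + C3 * C0 ^ 2 with hC'
  have hC0sq : 1 ≤ C0 ^ 2 := one_le_pow₀ hC01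
  have hC'1 : 1 ≤ C' := by
    have : 0 ≤ C3 * C0 ^ 2 := by positivity
    linarith
  refine ⟨C', by linarith, fun r φ hr h3 L hL N hN hcond => ?_⟩
  haveI : IsProbabilityMeasure (muL L) := isProb_muL hL
  have hL3 : 0 < L ^ 3 := by positivity
  set p : ℝ := (L ^ 3)⁻¹ with hp
  have hppos : 0 < p := by positivity
  have hr2 : 1 ≤ r ^ 2 := one_le_pow₀ hr
  have hNp0 : 0 ≤ (N : ℝ) * p := by positivity
  have hCr : 1 ≤ C' * r ^ 2 := one_le_mul_of_one_le_of_one_le hC'1 hr2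
  have hNp1 : (N : ℝ) * p ≤ 1 := by
    calc (N : ℝ) * p ≤ (N : ℝ) * p * (C' * r ^ 2) := le_mul_of_one_le_right hNp0 hCr
      _ ≤ 1 := hcond
  set Y : ℝ := C0 ^ 2 * r ^ 2 with hY
  have hY0 : 0 < Y := by positivity
  have hYC : Y ≤ C' * r ^ 2 := by
    rw [hY, hC']
    refine mul_le_mul_of_nonneg_right ?_ (by positivity)
    have : 0 ≤ C3 * C0 ^ 2 := by positivity
    linarith
  have hNpY : (N : ℝ) * p * Y ≤ 1 := (mul_le_mul_of_nonneg_left hYC hNp0).trans hcond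
  have hC3Y : C3 * (((N : ℝ) * p) ^ 2 * Y) ≤ 1 := by
    have h1 : C3 * Y ≤ C' * r ^ 2 := by
      rw [hY, hC']
      have : C3 * (C0 ^ 2 * r ^ 2) = C3 * C0 ^ 2 * r ^ 2 := by ring
      rw [this]
      refine mul_le_mul_of_nonneg_right ?_ (by positivity)
      linarith
    calc C3 * (((N : ℝ) * p) ^ 2 * Y) = ((N : ℝ) * p) * (((N : ℝ) * p) * (C3 * Y)) := by ring
      _ ≤ 1 * (((N : ℝ) * p) * (C3 * Y)) :=
          mul_le_mul_of_nonneg_right hNp1 (by positivity)
      _ = ((N : ℝ) * p) * (C3 * Y) := one_mul _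
      _ ≤ ((N : ℝ) * p) * (C' * r ^ 2) := mul_le_mul_of_nonneg_left h1 hNp0
      _ ≤ 1 := hcond
  set s : ℝ := C0 * r with hs
  have hs1 : 1 ≤ s := one_le_mul_of_one_le_of_one_le hC01 hr
  have hsY : s ^ 2 ≤ Y := by rw [hs, hY, mul_pow]
  -- the family
  set F : ∀ k : ℕ, (Fin k → R3) → ℝ := famH (fun x => 1 - φ x) h4 h5 with hFdef
  have hFc : ∀ k, ContDiff ℝ 1 (F k) := contDiff_famH h3 hh4 hh5
  have hFp : ∀ k x, 0 < F k x := famH_pos_td hc h3 hh4 hh5
  have hFP : ∀ k, PI (F k) := PI_famH h3 hh4 hh5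
  have hClu := td_clu hM hR hR5 hc hc1 hK h3 hh4 hh5 N
  have hE := td_edat hV hM hR hR5 hc hc1 hK hK4 hK5 h3 hh4 hh5 N
  have hKy : Kern (muL L) N p C0 Y (onF (yF K r M R R5)) := by
    refine (hky r hr L hL N).mono hppos.le (le_max_left _ _) ?_
    rw [hY]
    refine mul_le_mul_of_nonneg_right ?_ (by positivity)
    calc C1 ≤ C0 := le_max_left _ _
      _ ≤ C0 ^ 2 := le_self_pow₀ hC01 (by norm_num)
  have hKK : Kern (muL L) N p C0 s (onF (KF c K r K4 R K5 R5)) := by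
    refine (hkK r hr L hL N).mono hppos.le (le_max_right _ _) ?_
    exact mul_le_mul_of_nonneg_right (le_max_right _ _) (by linarith)
  -- the three-body terms
  let a3 : (Fin (2 + 1) → R3) → ℝ := fun x => gg φ φ x + V3 V x * (1 - φ x) ^ 2
  have ha3m : Measurable a3 := (continuous_gg h3.c1 h3.c1).measurable.add
    (hVm.mul ((measurable_const.sub h3.c1.continuous.measurable).pow_const 2))
  have ha30 : ∀ x, 0 ≤ a3 x := fun x => add_nonneg (gg_self_nonneg x)
    (mul_nonneg (hV0 x) (sq_nonneg _))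
  have hsq : ∀ x, (1 - φ x) ^ 2 ≤ 1 := fun x => by
    have h1 := h3.nonneg x
    have h2 := h3.le x
    exact pow_le_one₀ (by linarith) (by linarith)
  have ha3G : ∀ x, a3 x ≤ G x := fun x => by
    have h1 := abs_gg_le (x := x) (φ := φ) (ψ := φ) (fun m a => h3.bd' x m a)
      (fun m a => h3.bd' x m a)
    have hrad := rad_nonneg x
    refine add_le_add ((le_abs_self _).trans (h1.trans (le_of_eq ?_))) ?_
    · push_cast
      field_simp
      ring
    · calc V3 V x * (1 - φ x) ^ 2 ≤ V3 V x * 1 := mul_le_mul_of_nonneg_left (hsq x) (hV0 x)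
        _ = V3 V x := mul_one _
  have ha3I : RI a3 := hGI.mono ha3m fun x => by rw [abs_of_nonneg (ha30 x)]; exact ha3G x
  have ha3b : ∃ C, ∀ x, |a3 x| ≤ C := ⟨9 * (K * K) + B, fun x => by
    rw [abs_of_nonneg (ha30 x)]
    refine (ha3G x).trans (add_le_add ?_ (hVB x))
    have hrad := rad_nonneg x
    have h1 : ((1 + rad x) ^ 10)⁻¹ ≤ 1 := inv_le_one_of_one_le₀ (one_le_pow₀ (by linarith))
    calc 9 * (K * K) * ((1 + rad x) ^ 10)⁻¹ ≤ 9 * (K * K) * 1 :=
          mul_le_mul_of_nonneg_left h1 (by positivity)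
      _ = _ := mul_one _⟩
  have ha3t : TI a3 := fun x v => by
    change gg φ φ _ + V3 V _ * (1 - φ _) ^ 2 = _
    rw [TI_gg h3.ti h3.ti x v, hVt x v, h3.ti x v]
  have hAT : ∀ T : Finset (Fin N), T.card = 3 →
      ∫ x, AT (onF F) (gF F) (onF (vF V)) T x ∂(PP (muL L) N) ≤ p ^ 2 * rint a3 := by
    intro T hT
    have e : ∀ x, AT (onF F) (gF F) (onF (vF V)) T x = a3 (x ∘ T.orderEmbOfFin hT) := fun x =>
      AT_eq hc h3 hh4 hh5 hT x
    simp only [e]
    exact expect_le_rint hL ha3m ha3b ha30 ha3t ha3I (T.orderEmbOfFin hT).injective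
  have hAA' : rint a3 ≤ AA := by
    have : rint a3 ≤ rint G := rint_mono ha3I hGI ha3G
    linarith
  obtain ⟨hZ, hEn⟩ := hcount (muL L) N p s Y hppos hs1 hsY hNp1 hNpY hC3Y (onF F)
    (onF (yF K r M R R5)) hClu (gF F) (onF (KF c K r K4 R K5 R5)) (onF (vF V)) hE hKy hKK
    (fun T hT => (hAT T hT).trans (by
      rw [mul_comm]
      exact mul_le_mul_of_nonneg_right hAA' (by positivity)))
    (fun Q hQ => (hKU r hr L hL N Q hQ).trans
      (mul_le_mul_of_nonneg_right (by linarith) (by positivity)))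
  -- the energy of the trial state
  set Ψ : (Fin N → R3) → ℝ := Psi (onF F) Finset.univ with hΨ
  have hΨc : ContDiff ℝ 1 Ψ := contDiff_prod fun B _ => contDiff_onF hFc B
  have hnorm : ∫ x in box L N, Ψ x ^ 2 =
      (L ^ 3) ^ N * ZZ (N := N) (muL L) (onF F) Finset.univ := by
    have := integral_PP (N := N) hL (fun x => Ψ x ^ 2)
    have hLN : (L ^ 3) ^ N ≠ 0 := by positivity
    change _ = (L ^ 3) ^ N * ∫ x, Ψ x ^ 2 ∂(PP (muL L) N)
    rw [this]
    field_simp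
  have hener : energy V L Ψ = (L ^ 3) ^ N *
      ∫ x, edens (gF F) (onF (vF V)) Finset.univ x * Psi (onF F) Finset.univ x ^ 2
        ∂(PP (muL L) N) := by
    have := integral_PP (N := N) hL
      (fun x => edens (gF F) (onF (vF V)) Finset.univ x * Psi (onF F) Finset.univ x ^ 2)
    have hLN : (L ^ 3) ^ N ≠ 0 := by positivity
    rw [this, ← mul_assoc, mul_inv_cancel₀ hLN, one_mul]
    unfold energy
    refine integral_congr_ae (Eventually.of_forall fun x => ?_)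
    simp only
    rw [edens_mul hFc hFp (vF V) Finset.univ x, Finset.powerset_univ,
      ← pot_eq V (vF V) rfl (fun k x hk => ?_) x]
    · simp only [Real.norm_eq_abs, sq_abs]
      rfl
    · match k, hk with
      | 0, _ => rfl
      | 1, _ => rfl
      | 2, _ => rfl
      | 3, hk => exact absurd rfl hk
      | 4, _ => rfl
      | 5, _ => rfl
      | _ + 6, _ => rfl
  have hnpos : 0 < ∫ x in box L N, Ψ x ^ 2 := by
    rw [hnorm]
    exact mul_pos (by positivity) hZ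
  have hgs := gs_le hV hΨc (fun σ x => Psi_onF_perm hFP σ x) hnpos
  have hratio : energy V L Ψ / (∫ x in box L N, Ψ x ^ 2) ≤
      (∑ T ∈ Finset.univ.powersetCard 3, ∫ x, AT (onF F) (gF F) (onF (vF V)) T x ∂(PP (muL L) N)) +
      (∑ Q ∈ Finset.univ.powersetCard 4, ∫ x, BQ (onF F) (gF F) (onF (vF V)) Q x ∂(PP (muL L) N)) +
      C3 * (N * (N * p) ^ 4 * Y) := by
    rw [hnorm, hener, mul_div_mul_left _ _ (by positivity), div_le_iff₀ hZ, mul_comm _ (ZZ _ _ _)]
    exact hEn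
  have hsumT : ∑ T ∈ Finset.univ.powersetCard 3,
      ∫ x, AT (onF F) (gF F) (onF (vF V)) T x ∂(PP (muL L) N) ≤
      (N.choose 3 : ℝ) * (p ^ 2 * rint a3) := by
    calc _ ≤ ∑ T ∈ (Finset.univ : Finset (Fin N)).powersetCard 3, p ^ 2 * rint a3 :=
          Finset.sum_le_sum fun T hT => hAT T (Finset.mem_powersetCard.1 hT).2
      _ = _ := by
          rw [Finset.sum_const, Finset.card_powersetCard, Finset.card_univ, Fintype.card_fin,
            nsmul_eq_mul]
  have hF1 : ContDiff ℝ 1 (fun y => Pf φ y * h4 y) := (contDiff_Pf' h3.c1).mul hh4.c1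
  have hsumQ : ∑ Q ∈ Finset.univ.powersetCard 4,
      ∫ x, BQ (onF F) (gF F) (onF (vF V)) Q x ∂(PP (muL L) N) =
      (N.choose 4 : ℝ) * ∫ x, dens4 V φ (fun y => Pf φ y * h4 y) x ∂(PP (muL L) 4) := by
    have : ∀ Q ∈ (Finset.univ : Finset (Fin N)).powersetCard 4,
        ∫ x, BQ (onF F) (gF F) (onF (vF V)) Q x ∂(PP (muL L) N) =
        ∫ x, dens4 V φ (fun y => Pf φ y * h4 y) x ∂(PP (muL L) 4) := by
      intro Q hQ
      have hQ4 := (Finset.mem_powersetCard.1 hQ).2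
      have e : ∀ x, BQ (onF F) (gF F) (onF (vF V)) Q x =
          dens4 V φ (fun y => Pf φ y * h4 y) (x ∘ Q.orderEmbOfFin hQ4) := fun x =>
        BQ_eq' hc h3 hh4 hh5 hQ4 x
      simp only [e]
      exact integral_comp_inj (muL L) (Q.orderEmbOfFin hQ4).injective
        (measurable_dens4' hV h3.c1 hF1)
    rw [Finset.sum_congr rfl this, Finset.sum_const, Finset.card_powersetCard, Finset.card_univ,
      Fintype.card_fin, nsmul_eq_mul]
  have htot : gs V N L ≤ (N.choose 3 : ℝ) * (p ^ 2 * rint a3) +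
      (N.choose 4 : ℝ) * (∫ x, dens4 V φ (fun y => Pf φ y * h4 y) x ∂(PP (muL L) 4)) +
      C3 * (N * (N * p) ^ 4 * Y) := by
    rw [← hsumQ]
    linarith [hgs.trans hratio]
  have hdiv : gs V N L / L ^ 3 = p * gs V N L := by rw [hp, div_eq_inv_mul]
  rw [hdiv]
  have h5 := mul_le_mul_of_nonneg_left htot hppos.le
  refine h5.trans ?_
  have h6 : p * (C3 * (N * (N * p) ^ 4 * Y)) ≤ C' * ((N * p) ^ 5 * r ^ 2) := by
    have e1 : p * (C3 * (N * (N * p) ^ 4 * Y)) = (C3 * C0 ^ 2) * ((N * p) ^ 5 * r ^ 2) := by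
      rw [hY]; ring
    rw [e1]
    refine mul_le_mul_of_nonneg_right ?_ (by positivity)
    rw [hC']
    have : 0 ≤ C0 ^ 2 := by positivity
    linarith
  have e2 : p * ((N.choose 3 : ℝ) * (p ^ 2 * rint a3)) = (N.choose 3 : ℝ) * p ^ 3 * rint a3 := by
    ring
  have e3 : p * ((N.choose 4 : ℝ) *
      (∫ x, dens4 V φ (fun y => Pf φ y * h4 y) x ∂(PP (muL L) 4))) = (N.choose 4 : ℝ) * p *
      (∫ x, dens4 V φ (fun y => Pf φ y * h4 y) x ∂(PP (muL L) 4)) := by ring
  rw [mul_add, mul_add, e2, e3]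
  change _ ≤ (N.choose 3 : ℝ) * p ^ 3 * rint a3 + _ + _
  linarith

end Pool.Agent.Lib.MP_5db8e2_mp
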